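import Mathlib

/-!
# Toolbox on `ℓ²(I)` (definitions only)

`H I = ℓ²(I)`, basis vectors `e i`.  Operators are bounded linear maps.  Constructors: `mk ξ` is the operator with
`mk ξ (e i) = ξ i` for a pairwise orthogonal bounded family `ξ`; `wp f c` the weighted partial injection
`e i ↦ c i • e (f i)`; `dg c` diagonal operators; `pr s` the projection onto `ℓ²(s)`; `re f` the unitary of an
equivalence; `emb k : ℓ²(I) → ℓ²(I × K)`, `slice k` its adjoint; `amp K T = T ⊗ 1_K`; `ampR I T = 1_I ⊗ T`;
`ten a b = a ⊗ b`; `trp T` the transpose matrix.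
-/

set_option autoImplicit false

open scoped ComplexConjugate InnerProductSpace Classical

namespace OE

/-- `ℓ²(I)`. -/
abbrev H (I : Type) : Type := ↥(lp (fun _ : I => ℂ) 2)

/-- The standard basis vector. -/
noncomputable def e {I : Type} (i : I) : H I := lp.single 2 i (1 : ℂ)

/-- basis vector or zero. -/
noncomputable def oe {J : Type} : Option J → H J
  | none => 0
  | some j => e j

/-- pairwise orthogonal family of vectors of norm at most `C`. -/
def OrthoBdd {I : Type} {F : Type} [NormedAddCommGroup F] [InnerProductSpace ℂ F] (ξ : I → F) (C : ℝ) : Prop :=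
  0 ≤ C ∧ (∀ i j, i ≠ j → ⟪ξ i, ξ j⟫_ℂ = 0) ∧ ∀ i, ‖ξ i‖ ≤ C

/-- The operator with `mk ξ (e i) = ξ i` (if it exists, otherwise `0`). -/
noncomputable def mk {I : Type} {F : Type} [NormedAddCommGroup F] [InnerProductSpace ℂ F] (ξ : I → F) :
    H I →L[ℂ] F :=
  if h : ∃ T : H I →L[ℂ] F, ∀ i, T (e i) = ξ i then h.choose else 0

/-- partial injections. -/
def PInj {I J : Type} (f : I → Option J) : Prop := ∀ i i' j, f i = some j → f i' = some j → i = i'

/-- weighted partial injection `e i ↦ c i • e (f i)` (`0` if `f i = none`). -/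
noncomputable def wp {I J : Type} (f : I → Option J) (c : I → ℂ) : H I →L[ℂ] H J :=
  mk (fun i => c i • oe (f i))

/-- diagonal operator. -/
noncomputable def dg {I : Type} (c : I → ℂ) : H I →L[ℂ] H I := mk (fun i => c i • e i)

/-- projection onto `ℓ²(s)`. -/
noncomputable def pr {I : Type} (s : Set I) : H I →L[ℂ] H I := mk (fun i => if i ∈ s then e i else 0)

/-- reindexing by an injective map (in particular an equivalence): `e i ↦ e (f i)`. -/
noncomputable def re {I J : Type} (f : I → J) : H I →L[ℂ] H J := mk (fun i => e (f i))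

/-- `x ↦ x ⊗ e k`. -/
noncomputable def emb {I K : Type} (k : K) : H I →L[ℂ] H (I × K) := mk (fun i => e (i, k))

/-- `(slice k x) i = x (i,k)`. -/
noncomputable def slice {I K : Type} (k : K) : H (I × K) →L[ℂ] H I :=
  mk (fun p => if p.2 = k then e p.1 else 0)

/-- `T ⊗ 1_K`. -/
noncomputable def amp {I J : Type} (K : Type) (T : H I →L[ℂ] H J) : H (I × K) →L[ℂ] H (J × K) :=
  mk (fun p => emb p.2 (T (e p.1)))

/-- `1_I ⊗ T`. -/
noncomputable def ampR {J J' : Type} (I : Type) (T : H J →L[ℂ] H J') : H (I × J) →L[ℂ] H (I × J') :=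
  (re (Prod.swap : J' × I → I × J')).comp ((amp I T).comp (re (Prod.swap : I × J → J × I)))

/-- `a ⊗ b`. -/
noncomputable def ten {I I' J J' : Type} (a : H I →L[ℂ] H I') (b : H J →L[ℂ] H J') :
    H (I × J) →L[ℂ] H (I' × J') :=
  (ampR I' b).comp (amp J a)

/-- transpose: `(trp T (e j)) i = (T (e i)) j`. -/
noncomputable def trp {I J : Type} (T : H I →L[ℂ] H J) : H J →L[ℂ] H I :=
  if h : ∃ S : H J →L[ℂ] H I, ∀ i j, (S (e j) : I → ℂ) i = (T (e i) : J → ℂ) j then h.choose else 0

/-- regrouping `(I × J) × K → I × (J × K)`. -/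
noncomputable def assoc (I J K : Type) : H ((I × J) × K) →L[ℂ] H (I × (J × K)) :=
  re (fun p => (p.1.1, (p.1.2, p.2)))

end OE
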