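import Mathlib
import Pool.Agent.Work.MP_06ef15_an.B0

/-!
# Basis vectors, extensionality, the constructor `mk`, norms from orthogonal images

`mk_e`: define `S : F → ℓ²(I)`, `(S y) i = ⟪ξ i, y⟫`; Bessel for an orthogonal family of vectors of norm at most `C`:
for finite `s`, with `z = ∑_{i ∈ s} ⟪ξ i, y⟫ • ξ i`, `∑ |⟪ξ i,y⟫|² = ⟪z, y⟫ ≤ ‖z‖ ‖y‖` and `‖z‖² ≤ C² ∑ |⟪ξ i,y⟫|²`,
so `∑ |⟪ξ i, y⟫|² ≤ C² ‖y‖²`.  The adjoint `T` of `S` satisfies `T (e i) = ξ i`, and `‖T‖ = ‖S‖ ≤ C`.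
-/

set_option autoImplicit false

open scoped ComplexConjugate InnerProductSpace Classical

namespace OE

variable {I J K : Type} {F : Type} [NormedAddCommGroup F] [InnerProductSpace ℂ F] [CompleteSpace F]

theorem e_apply (i j : I) : (e i : I → ℂ) j = if j = i then 1 else 0 := by
  unfold e
  rw [lp.coeFn_single, Pi.single_apply]

theorem e_self (i : I) : (e i : I → ℂ) i = 1 := by
  rw [e_apply, if_pos rfl]

theorem e_ne {i j : I} (h : j ≠ i) : (e i : I → ℂ) j = 0 := by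
  rw [e_apply, if_neg h]

theorem inner_e_left (i : I) (x : H I) : ⟪e i, x⟫_ℂ = (x : I → ℂ) i := by
  have h := lp.inner_single_left (𝕜 := ℂ) (G := fun _ : I => ℂ) i (1 : ℂ) x
  unfold e
  rw [h]
  simp

theorem inner_e_right (i : I) (x : H I) : ⟪x, e i⟫_ℂ = conj ((x : I → ℂ) i) := by
  rw [← inner_conj_symm, inner_e_left]

theorem norm_e (i : I) : ‖e i‖ = 1 := by
  unfold e
  rw [lp.norm_single (by norm_num)]
  simp

theorem norm_oe_le (o : Option I) : ‖oe o‖ ≤ 1 := by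
  cases o with
  | none => unfold oe; simp
  | some j => exact (norm_e j).le

theorem inner_e_e (i j : I) : ⟪e i, e j⟫_ℂ = if i = j then 1 else 0 := by
  rw [inner_e_left, e_apply]

theorem e_injective : Function.Injective (e : I → H I) := by
  intro i j h
  by_contra hne
  have h2 := inner_e_e i j
  rw [if_neg hne, h, inner_e_e, if_pos rfl] at h2
  exact one_ne_zero h2

theorem ext_pt {x y : H I} (h : ∀ i, (x : I → ℂ) i = (y : I → ℂ) i) : x = y := by
  exact lp.ext (funext h)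

theorem hasSum_e (x : H I) : HasSum (fun i => (x : I → ℂ) i • e i) x := by
  have h := lp.hasSum_single (E := fun _ : I => ℂ) (p := 2) (by norm_num) x
  have h2 : (fun i => (x : I → ℂ) i • e i) = fun i => lp.single 2 i ((x : I → ℂ) i) := by
    funext i
    unfold e
    rw [← lp.single_smul, smul_eq_mul, mul_one]
  rw [h2]
  exact h

theorem norm_sq_hasSum (x : H I) : HasSum (fun i => ‖(x : I → ℂ) i‖ ^ 2) (‖x‖ ^ 2) := by
  have h := lp.hasSum_norm (E := fun _ : I => ℂ) (p := 2) (by norm_num) x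
  have h3 : (2 : ENNReal).toReal = ((2 : ℕ) : ℝ) := by norm_num
  simp only [h3, Real.rpow_natCast] at h
  exact h

/-- a closed subspace containing all basis vectors is everything. -/
theorem mem_of_e (S : Submodule ℂ (H I)) (hS : IsClosed (S : Set (H I))) (h : ∀ i, e i ∈ S) (x : H I) : x ∈ S := by
  have h2 := hasSum_e x
  refine hS.mem_of_tendsto h2 (Filter.Eventually.of_forall (fun s => ?_))
  exact S.sum_mem (fun i _ => S.smul_mem _ (h i))

/-- the finite combinations of basis vectors are dense. -/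
theorem dense_span_e : Dense ((Submodule.span ℂ (Set.range (e : I → H I)) : Submodule ℂ (H I)) : Set (H I)) := by
  intro x
  have h := mem_of_e (Submodule.span ℂ (Set.range (e : I → H I))).topologicalClosure
    (Submodule.isClosed_topologicalClosure _)
    (fun i => Submodule.le_topologicalClosure _ (Submodule.subset_span ⟨i, rfl⟩)) x
  exact h

theorem ext_e {G : Type*} [NormedAddCommGroup G] [NormedSpace ℂ G] {S T : H I →L[ℂ] G} (h : ∀ i, S (e i) = T (e i)) :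
    S = T := by
  refine ContinuousLinearMap.ext (fun x => ?_)
  have h1 := (hasSum_e x).mapL S
  have h2 := (hasSum_e x).mapL T
  have h3 : (fun i => S ((x : I → ℂ) i • e i)) = fun i => T ((x : I → ℂ) i • e i) := by
    funext i
    rw [map_smul, map_smul, h]
  rw [h3] at h1
  exact h1.unique h2

theorem ext_coef {S T : H I →L[ℂ] H J} (h : ∀ i j, (S (e i) : J → ℂ) j = (T (e i) : J → ℂ) j) : S = T := ext_e (fun i => ext_pt (fun j => h i j))

/-- Bessel for orthogonal bounded families. -/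
theorem bessel {ξ : I → F} {C : ℝ} (h : OrthoBdd ξ C) (s : Finset I) (y : F) :
    ∑ i ∈ s, ‖⟪ξ i, y⟫_ℂ‖ ^ 2 ≤ C ^ 2 * ‖y‖ ^ 2 := by
  obtain ⟨hC, ho, hn⟩ := h
  set z : F := ∑ i ∈ s, ⟪ξ i, y⟫_ℂ • ξ i with hz
  set S : ℝ := ∑ i ∈ s, ‖⟪ξ i, y⟫_ℂ‖ ^ 2 with hS
  have hS0 : 0 ≤ S := Finset.sum_nonneg (fun i _ => by positivity)
  have h1 : ⟪z, y⟫_ℂ = (S : ℂ) := by
    rw [hz, sum_inner, hS, Complex.ofReal_sum]
    refine Finset.sum_congr rfl (fun i _ => ?_)
    rw [inner_smul_left, mul_comm, Complex.mul_conj, Complex.normSq_eq_norm_sq]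
  have h2 : ‖z‖ ^ 2 ≤ C ^ 2 * S := by
    have h3 : ⟪z, z⟫_ℂ = ((∑ i ∈ s, ‖⟪ξ i, y⟫_ℂ‖ ^ 2 * ‖ξ i‖ ^ 2 : ℝ) : ℂ) := by
      have h4 : ∀ i ∈ s, ⟪ξ i, z⟫_ℂ = ⟪ξ i, y⟫_ℂ * ((‖ξ i‖ ^ 2 : ℝ) : ℂ) := by
        intro i hi
        rw [hz, inner_sum, Finset.sum_eq_single i]
        · rw [inner_smul_right, inner_self_eq_norm_sq_to_K]
          push_cast
          rfl
        · intro j _ hj
          rw [inner_smul_right, ho i j (fun h => hj h.symm), mul_zero]
        · intro h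
          exact absurd hi h
      conv_lhs => rw [hz, sum_inner]
      rw [Complex.ofReal_sum]
      refine Finset.sum_congr rfl (fun i hi => ?_)
      rw [inner_smul_left, h4 i hi, ← mul_assoc, mul_comm (conj _), Complex.mul_conj, Complex.normSq_eq_norm_sq]
      push_cast
      rfl
    have h5 : ‖z‖ ^ 2 = ∑ i ∈ s, ‖⟪ξ i, y⟫_ℂ‖ ^ 2 * ‖ξ i‖ ^ 2 := by
      have h6 := inner_self_eq_norm_sq_to_K (𝕜 := ℂ) z
      rw [h3] at h6
      have h7 : ((∑ i ∈ s, ‖⟪ξ i, y⟫_ℂ‖ ^ 2 * ‖ξ i‖ ^ 2 : ℝ) : ℂ) = ((‖z‖ ^ 2 : ℝ) : ℂ) := by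
        rw [h6]
        push_cast
        rfl
      exact (Complex.ofReal_injective h7).symm
    rw [h5, hS, Finset.mul_sum]
    refine Finset.sum_le_sum (fun i _ => ?_)
    rw [mul_comm (C ^ 2)]
    exact mul_le_mul_of_nonneg_left (pow_le_pow_left₀ (norm_nonneg _) (hn i) 2) (by positivity)
  have h8 : S ≤ ‖z‖ * ‖y‖ := by
    have h9 := norm_inner_le_norm (𝕜 := ℂ) z y
    rw [h1, Complex.norm_real, Real.norm_of_nonneg hS0] at h9
    exact h9
  have h10 : S ^ 2 ≤ C ^ 2 * S * ‖y‖ ^ 2 := by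
    calc S ^ 2 ≤ (‖z‖ * ‖y‖) ^ 2 := pow_le_pow_left₀ hS0 h8 2
      _ = ‖z‖ ^ 2 * ‖y‖ ^ 2 := by ring
      _ ≤ C ^ 2 * S * ‖y‖ ^ 2 := mul_le_mul_of_nonneg_right h2 (by positivity)
  rcases hS0.eq_or_lt with h11 | h11
  · rw [← h11]
    positivity
  · have h12 : S * S ≤ S * (C ^ 2 * ‖y‖ ^ 2) := by nlinarith [h10]
    exact le_of_mul_le_mul_left h12 h11

private theorem exists_mk_aux {ξ : I → F} {C : ℝ} (h : OrthoBdd ξ C) :
    ∃ T : H I →L[ℂ] F, (∀ i, T (e i) = ξ i) ∧ ‖T‖ ≤ C := by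
  have hC := h.1
  have hsum : ∀ y : F, Summable (fun i => ‖⟪ξ i, y⟫_ℂ‖ ^ 2) := fun y =>
    summable_of_sum_le (fun i => by positivity) (fun s => bessel h s y)
  have hmem : ∀ y : F, Memℓp (fun i => ⟪ξ i, y⟫_ℂ) 2 := by
    intro y
    refine memℓp_gen ?_
    have h3 : (2 : ENNReal).toReal = ((2 : ℕ) : ℝ) := by norm_num
    simp only [h3, Real.rpow_natCast]
    exact hsum y
  let f : F → H I := fun y => ⟨_, hmem y⟩
  have hf : ∀ y i, (f y : I → ℂ) i = ⟪ξ i, y⟫_ℂ := fun y i => rfl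
  have hn : ∀ y, ‖f y‖ ≤ C * ‖y‖ := by
    intro y
    have h4 := norm_sq_hasSum (f y)
    have h5 : ‖f y‖ ^ 2 ≤ (C * ‖y‖) ^ 2 := by
      rw [mul_pow]
      exact hasSum_le_of_sum_le h4 (fun s => bessel h s y)
    exact (sq_le_sq₀ (norm_nonneg _) (by positivity)).1 h5
  let L : F →ₗ[ℂ] H I :=
    { toFun := f
      map_add' := by
        intro x y
        refine ext_pt (fun i => ?_)
        rw [hf, lp.coeFn_add, Pi.add_apply, hf, hf, inner_add_right]
      map_smul' := by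
        intro c x
        refine ext_pt (fun i => ?_)
        rw [hf, lp.coeFn_smul, Pi.smul_apply, hf, inner_smul_right]
        rfl }
  let S : F →L[ℂ] H I := L.mkContinuous C hn
  have hS : ∀ y i, (S y : I → ℂ) i = ⟪ξ i, y⟫_ℂ := fun y i => rfl
  refine ⟨ContinuousLinearMap.adjoint S, fun i => ?_, ?_⟩
  · refine ext_inner_right ℂ (fun y => ?_)
    rw [ContinuousLinearMap.adjoint_inner_left, inner_e_left, hS]
  · rw [LinearIsometryEquiv.norm_map]
    exact LinearMap.mkContinuous_norm_le _ hC _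

theorem exists_mk {ξ : I → F} {C : ℝ} (h : OrthoBdd ξ C) : ∃ T : H I →L[ℂ] F, ∀ i, T (e i) = ξ i := by
  obtain ⟨T, hT, -⟩ := exists_mk_aux h
  exact ⟨T, hT⟩

theorem mk_e_of_exists {ξ : I → F} (T : H I →L[ℂ] F) (h : ∀ i, T (e i) = ξ i) : mk ξ = T := by
  unfold mk
  have h2 : ∃ T : H I →L[ℂ] F, ∀ i, T (e i) = ξ i := ⟨T, h⟩
  rw [dif_pos h2]
  exact ext_e (fun i => by rw [h2.choose_spec i, h i])

theorem mk_e {ξ : I → F} {C : ℝ} (h : OrthoBdd ξ C) (i : I) : mk ξ (e i) = ξ i := by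
  obtain ⟨T, hT⟩ := exists_mk h
  rw [mk_e_of_exists T hT]
  exact hT i

theorem norm_mk_le {ξ : I → F} {C : ℝ} (h : OrthoBdd ξ C) : ‖mk ξ‖ ≤ C := by
  obtain ⟨T, hT, hn⟩ := exists_mk_aux h
  rw [mk_e_of_exists T hT]
  exact hn

/-- an operator mapping the basis to pairwise orthogonal vectors of norm at most `C` has norm at most `C`. -/
theorem norm_le_of_ortho (T : H I →L[ℂ] F) {C : ℝ} (h : OrthoBdd (fun i => T (e i)) C) : ‖T‖ ≤ C := by
  have h2 := norm_mk_le h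
  rw [mk_e_of_exists T (fun i => rfl)] at h2
  exact h2

/-- an operator mapping the basis to an orthonormal family is isometric. -/
theorem isometry_of_ortho (T : H I →L[ℂ] F) (h : ∀ i j, ⟪T (e i), T (e j)⟫_ℂ = if i = j then 1 else 0) (x y : H I) :
    ⟪T x, T y⟫_ℂ = ⟪x, y⟫_ℂ := by
  have h1 : (ContinuousLinearMap.adjoint T).comp T = ContinuousLinearMap.id ℂ (H I) := by
    refine ext_e (fun i => ext_pt (fun j => ?_))
    rw [← inner_e_left, ContinuousLinearMap.comp_apply, ContinuousLinearMap.adjoint_inner_right, h, ← inner_e_left,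
      ContinuousLinearMap.id_apply, inner_e_e]
  rw [← ContinuousLinearMap.adjoint_inner_right]
  have h2 := congrArg (fun z : H I →L[ℂ] H I => z y) h1
  simp only [ContinuousLinearMap.comp_apply, ContinuousLinearMap.id_apply] at h2
  rw [h2]

theorem norm_isometry_of_ortho (T : H I →L[ℂ] F) (h : ∀ i j, ⟪T (e i), T (e j)⟫_ℂ = if i = j then 1 else 0) (x : H I) :
    ‖T x‖ = ‖x‖ := by
  have h1 := isometry_of_ortho T h x x
  rw [inner_self_eq_norm_sq_to_K, inner_self_eq_norm_sq_to_K] at h1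
  have h2 : ((‖T x‖ ^ 2 : ℝ) : ℂ) = ((‖x‖ ^ 2 : ℝ) : ℂ) := by
    push_cast
    exact h1
  exact (sq_eq_sq₀ (norm_nonneg _) (norm_nonneg _)).1 (Complex.ofReal_injective h2)

end OE
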