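import Mathlib
import Pool.Agent.Work.MP_06ef15_an.BA

/-!
# Adjoints by matrix coefficients, weighted partial injections, diagonal operators, projections, reindexing
-/

set_option autoImplicit false

open scoped ComplexConjugate InnerProductSpace Classical
open ContinuousLinearMap (adjoint)

namespace OE

variable {I J K : Type}

theorem adj_coef (T : H I →L[ℂ] H J) (i : I) (j : J) :
    (adjoint T (e j) : I → ℂ) i = conj ((T (e i) : J → ℂ) j) := by
  rw [← inner_e_left, ContinuousLinearMap.adjoint_inner_right, inner_e_right]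

theorem adj_of_coef (T : H I →L[ℂ] H J) (S : H J →L[ℂ] H I)
    (h : ∀ i j, (S (e j) : I → ℂ) i = conj ((T (e i) : J → ℂ) j)) : adjoint T = S := by
  refine ext_coef fun j i => ?_
  rw [adj_coef, h]

private theorem oe_apply (o : Option J) (j : J) : (oe o : J → ℂ) j = if o = some j then 1 else 0 := by
  cases o with
  | none => simp [oe]
  | some k =>
    change (e k : J → ℂ) j = _
    rw [e_apply]
    by_cases h : j = k
    · rw [if_pos h, if_pos (by rw [h])]
    · rw [if_neg h, if_neg (fun h' => h (Option.some.inj h').symm)]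

private theorem wp_ortho {f : I → Option J} {c : I → ℂ} {C : ℝ} (hC : 0 ≤ C) (hf : PInj f)
    (hc : ∀ i, ‖c i‖ ≤ C) : OrthoBdd (fun i => c i • oe (f i)) C := by
  refine ⟨hC, fun i j hij => ?_, fun i => ?_⟩
  · rw [inner_smul_left, inner_smul_right]
    have h0 : ⟪oe (f i), oe (f j)⟫_ℂ = 0 := by
      rcases hi : f i with _ | a
      · exact inner_zero_left _
      · rcases hj : f j with _ | b
        · exact inner_zero_right _
        · change ⟪e a, e b⟫_ℂ = 0
          rw [inner_e_e, if_neg]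
          rintro rfl
          exact hij (hf i j a hi hj)
    rw [h0, mul_zero, mul_zero]
  · change ‖c i • oe (f i)‖ ≤ C
    rw [norm_smul]
    calc ‖c i‖ * ‖oe (f i)‖ ≤ C * 1 :=
          mul_le_mul (hc i) (norm_oe_le _) (norm_nonneg _) hC
      _ = C := mul_one C

theorem wp_e {f : I → Option J} {c : I → ℂ} {C : ℝ} (hC : 0 ≤ C) (hf : PInj f) (hc : ∀ i, ‖c i‖ ≤ C) (i : I) :
    wp f c (e i) = c i • oe (f i) :=
  mk_e (wp_ortho hC hf hc) i

theorem norm_wp_le {f : I → Option J} {c : I → ℂ} {C : ℝ} (hC : 0 ≤ C) (hf : PInj f) (hc : ∀ i, ‖c i‖ ≤ C) :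
    ‖wp f c‖ ≤ C :=
  norm_mk_le (wp_ortho hC hf hc)

private theorem smul_apply' (a : ℂ) (x : H I) (i : I) : ((a • x : H I) : I → ℂ) i = a * (x : I → ℂ) i := rfl

/-- adjoint of a weighted partial injection on basis vectors. -/
theorem adj_wp_e_some {f : I → Option J} {c : I → ℂ} {C : ℝ} (hC : 0 ≤ C) (hf : PInj f) (hc : ∀ i, ‖c i‖ ≤ C)
    {i : I} {j : J} (h : f i = some j) : adjoint (wp f c) (e j) = conj (c i) • e i := by
  apply ext_pt
  intro k
  rw [adj_coef, wp_e hC hf hc, smul_apply', smul_apply', oe_apply, e_apply]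
  by_cases hk : k = i
  · subst hk
    rw [if_pos h, if_pos rfl, mul_one, mul_one]
  · rw [if_neg hk, if_neg (fun h' => hk (hf k i j h' h)), mul_zero, mul_zero, map_zero]

theorem adj_wp_e_none {f : I → Option J} {c : I → ℂ} {C : ℝ} (hC : 0 ≤ C) (hf : PInj f) (hc : ∀ i, ‖c i‖ ≤ C)
    {j : J} (h : ∀ i, f i ≠ some j) : adjoint (wp f c) (e j) = 0 := by
  apply ext_pt
  intro k
  rw [adj_coef, wp_e hC hf hc, smul_apply', oe_apply, if_neg (h k), mul_zero, map_zero]
  rfl

private theorem pinj_some : PInj (fun i : I => some i) := fun i i' j h h' => by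
  rw [Option.some.inj h, Option.some.inj h']

theorem dg_e {c : I → ℂ} {C : ℝ} (hC : 0 ≤ C) (hc : ∀ i, ‖c i‖ ≤ C) (i : I) : dg c (e i) = c i • e i :=
  wp_e (f := fun i : I => some i) hC pinj_some hc i

private theorem adj_dg_e {c : I → ℂ} {C : ℝ} (hC : 0 ≤ C) (hc : ∀ i, ‖c i‖ ≤ C) (i : I) :
    adjoint (dg c) (e i) = conj (c i) • e i :=
  adj_wp_e_some (f := fun i : I => some i) hC pinj_some hc rfl

theorem dg_apply {c : I → ℂ} {C : ℝ} (hC : 0 ≤ C) (hc : ∀ i, ‖c i‖ ≤ C) (x : H I) (i : I) :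
    (dg c x : I → ℂ) i = c i * (x : I → ℂ) i := by
  rw [← inner_e_left, ← ContinuousLinearMap.adjoint_inner_left, adj_dg_e hC hc, inner_smul_left,
    Complex.conj_conj, inner_e_left]

theorem norm_dg_le {c : I → ℂ} {C : ℝ} (hC : 0 ≤ C) (hc : ∀ i, ‖c i‖ ≤ C) : ‖dg c‖ ≤ C :=
  norm_wp_le (f := fun i : I => some i) hC pinj_some hc

theorem adj_dg {c : I → ℂ} {C : ℝ} (hC : 0 ≤ C) (hc : ∀ i, ‖c i‖ ≤ C) :
    adjoint (dg c) = dg (fun i => conj (c i)) := by
  refine ext_e fun i => ?_
  rw [adj_dg_e hC hc, dg_e hC (fun i => by rw [RCLike.norm_conj]; exact hc i)]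

theorem dg_mul_dg {c c' : I → ℂ} {C C' : ℝ} (hC : 0 ≤ C) (hC' : 0 ≤ C') (hc : ∀ i, ‖c i‖ ≤ C)
    (hc' : ∀ i, ‖c' i‖ ≤ C') : dg c * dg c' = dg (fun i => c i * c' i) := by
  refine ext_e fun i => ?_
  have h : ∀ i, ‖c i * c' i‖ ≤ C * C' := fun i => by
    rw [norm_mul]
    exact mul_le_mul (hc i) (hc' i) (norm_nonneg _) hC
  rw [dg_e (mul_nonneg hC hC') h]
  change dg c (dg c' (e i)) = _
  rw [dg_e hC' hc', map_smul, dg_e hC hc, smul_smul, mul_comm]

private theorem pr_eq_dg (s : Set I) : pr s = dg (fun i => if i ∈ s then (1 : ℂ) else 0) := by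
  unfold pr dg
  congr 1
  funext i
  by_cases h : i ∈ s
  · simp [h]
  · simp [h]

private theorem ind_le (s : Set I) (i : I) : ‖(if i ∈ s then (1 : ℂ) else 0)‖ ≤ (1 : ℝ) := by
  split_ifs <;> simp

theorem pr_e (s : Set I) (i : I) : pr s (e i) = if i ∈ s then e i else 0 := by
  rw [pr_eq_dg, dg_e zero_le_one (ind_le s)]
  split_ifs
  · rw [one_smul]
  · rw [zero_smul]

theorem pr_e_mem {s : Set I} {i : I} (h : i ∈ s) : pr s (e i) = e i := by rw [pr_e, if_pos h]

theorem pr_e_notMem {s : Set I} {i : I} (h : i ∉ s) : pr s (e i) = 0 := by rw [pr_e, if_neg h]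

theorem pr_apply (s : Set I) (x : H I) (i : I) : (pr s x : I → ℂ) i = if i ∈ s then (x : I → ℂ) i else 0 := by
  rw [pr_eq_dg, dg_apply zero_le_one (ind_le s)]
  split_ifs
  · rw [one_mul]
  · rw [zero_mul]

theorem pr_mul_pr (s t : Set I) : pr s * pr t = pr (s ∩ t) := by
  refine ext_e fun i => ?_
  change pr s (pr t (e i)) = _
  rw [pr_e, pr_e (s ∩ t)]
  by_cases ht : i ∈ t
  · rw [if_pos ht, pr_e]
    by_cases hs : i ∈ s
    · rw [if_pos hs, if_pos ⟨hs, ht⟩]
    · rw [if_neg hs, if_neg (fun h => hs h.1)]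
  · rw [if_neg ht, map_zero, if_neg (fun h => ht h.2)]

theorem pr_idem (s : Set I) : pr s * pr s = pr s := by rw [pr_mul_pr, Set.inter_self]

theorem adj_pr (s : Set I) : adjoint (pr s) = pr s := by
  rw [pr_eq_dg, adj_dg zero_le_one (ind_le s)]
  congr 1
  funext i
  split_ifs <;> simp

theorem star_pr (s : Set I) : star (pr s) = pr s := adj_pr s

theorem norm_pr_le (s : Set I) : ‖pr s‖ ≤ 1 := by
  rw [pr_eq_dg]
  exact norm_dg_le zero_le_one (ind_le s)

theorem pr_add_compl (s : Set I) : pr s + pr sᶜ = 1 := by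
  refine ext_e fun i => ?_
  change pr s (e i) + pr sᶜ (e i) = e i
  by_cases h : i ∈ s
  · rw [pr_e_mem h, pr_e_notMem (show i ∉ sᶜ from not_not.2 h), add_zero]
  · rw [pr_e_notMem h, pr_e_mem (show i ∈ sᶜ from h), zero_add]

theorem norm_sq_pr (s : Set I) (x : H I) : ‖x‖ ^ 2 = ‖pr s x‖ ^ 2 + ‖pr sᶜ x‖ ^ 2 := by
  have h1 : x = pr s x + pr sᶜ x := by
    have := DFunLike.congr_fun (pr_add_compl s) x
    exact this.symm
  have h2 : ⟪pr s x, pr sᶜ x⟫_ℂ = 0 := by
    rw [← ContinuousLinearMap.adjoint_inner_right, adj_pr]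
    have h3 : pr s (pr sᶜ x) = 0 := by
      have h4 := DFunLike.congr_fun (pr_mul_pr s sᶜ) x
      rw [Set.inter_compl_self] at h4
      refine (h4 : pr s (pr sᶜ x) = pr ∅ x).trans ?_
      apply ext_pt
      intro i
      rw [pr_apply, if_neg (Set.notMem_empty i)]
      rfl
    rw [h3, inner_zero_right]
  have h3 := norm_add_sq_eq_norm_sq_add_norm_sq_of_inner_eq_zero _ _ h2
  rw [← h1] at h3
  rw [pow_two, pow_two, pow_two]
  exact h3

theorem pr_eq_self_iff (s : Set I) (x : H I) : pr s x = x ↔ ∀ i, i ∉ s → (x : I → ℂ) i = 0 := by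
  constructor
  · intro h i hi
    rw [← h, pr_apply, if_neg hi]
  · intro h
    apply ext_pt
    intro i
    rw [pr_apply]
    by_cases hi : i ∈ s
    · rw [if_pos hi]
    · rw [if_neg hi, h i hi]

/-- on a finite set, `pr s` is the finite sum of rank one projections. -/
theorem pr_finset (s : Finset I) (x : H I) : pr (s : Set I) x = ∑ i ∈ s, (x : I → ℂ) i • e i := by
  apply ext_pt
  intro j
  rw [pr_apply, lp.coeFn_sum, Finset.sum_apply]
  have h : ∀ i ∈ s, (((x : I → ℂ) i • e i : H I) : I → ℂ) j = if j = i then (x : I → ℂ) i else 0 := by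
    intro i _
    rw [smul_apply', e_apply]
    split_ifs
    · rw [mul_one]
    · rw [mul_zero]
  rw [Finset.sum_congr rfl h, Finset.sum_ite_eq]
  simp only [Finset.mem_coe]

/-- an operator commutes with `pr s` if it and its adjoint map the basis vectors of `s` into `ℓ²(s)`. -/
theorem commute_pr {s : Set I} {T : H I →L[ℂ] H I} (h1 : ∀ i ∈ s, ∀ j, j ∉ s → (T (e i) : I → ℂ) j = 0)
    (h2 : ∀ i, i ∉ s → ∀ j ∈ s, (T (e i) : I → ℂ) j = 0) : T * pr s = pr s * T := by
  refine ext_coef fun i j => ?_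
  change (T (pr s (e i)) : I → ℂ) j = (pr s (T (e i)) : I → ℂ) j
  rw [pr_apply]
  by_cases hi : i ∈ s
  · rw [pr_e_mem hi]
    by_cases hj : j ∈ s
    · rw [if_pos hj]
    · rw [if_neg hj, h1 i hi j hj]
  · rw [pr_e_notMem hi, map_zero]
    by_cases hj : j ∈ s
    · rw [if_pos hj, h2 i hi j hj]
      rfl
    · rw [if_neg hj]
      rfl

private theorem inner_re {f : I → J} (hf : Function.Injective f) (i j : I) :
    ⟪e (f i), e (f j)⟫_ℂ = if i = j then 1 else 0 := by
  rw [inner_e_e]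
  by_cases h : i = j
  · rw [if_pos h, if_pos (by rw [h])]
  · rw [if_neg h, if_neg (fun h' => h (hf h'))]

theorem re_e {f : I → J} (hf : Function.Injective f) (i : I) : re f (e i) = e (f i) := by
  have h : OrthoBdd (fun i => e (f i)) 1 := by
    refine ⟨zero_le_one, fun i j hij => ?_, fun i => (norm_e (f i)).le⟩
    rw [inner_re hf, if_neg hij]
  exact mk_e h i

private theorem re_ortho {f : I → J} (hf : Function.Injective f) (i j : I) :
    ⟪re f (e i), re f (e j)⟫_ℂ = if i = j then 1 else 0 := by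
  rw [re_e hf, re_e hf, inner_re hf]

theorem norm_re {f : I → J} (hf : Function.Injective f) (x : H I) : ‖re f x‖ = ‖x‖ :=
  norm_isometry_of_ortho _ (re_ortho hf) x

theorem norm_re_le {f : I → J} (hf : Function.Injective f) : ‖re f‖ ≤ 1 := by
  refine ContinuousLinearMap.opNorm_le_bound _ zero_le_one fun x => ?_
  rw [norm_re hf, one_mul]

theorem adj_re_comp {f : I → J} (hf : Function.Injective f) (x : H I) : adjoint (re f) (re f x) = x := by
  refine ext_inner_left ℂ fun y => ?_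
  rw [ContinuousLinearMap.adjoint_inner_right, isometry_of_ortho _ (re_ortho hf)]

theorem re_apply {f : I → J} (hf : Function.Injective f) (x : H I) (i : I) : (re f x : J → ℂ) (f i) = (x : I → ℂ) i := by
  rw [← inner_e_left, ← re_e hf, isometry_of_ortho _ (re_ortho hf), inner_e_left]

theorem adj_re_apply {f : I → J} (hf : Function.Injective f) (y : H J) (i : I) :
    (adjoint (re f) y : I → ℂ) i = (y : J → ℂ) (f i) := by
  rw [← inner_e_left, ContinuousLinearMap.adjoint_inner_right, re_e hf, inner_e_left]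

theorem adj_re_equiv (f : I ≃ J) : adjoint (re (f : I → J)) = re (f.symm : J → I) := by
  refine ext_coef fun j i => ?_
  rw [adj_re_apply f.injective, re_e f.symm.injective, e_apply, e_apply]
  by_cases h : f i = j
  · rw [if_pos h, if_pos ((Equiv.eq_symm_apply f).2 h)]
  · rw [if_neg h, if_neg (fun h' => h ((Equiv.eq_symm_apply f).1 h'))]

theorem re_comp {f : I → J} {g : J → K} (hf : Function.Injective f) (hg : Function.Injective g) :
    (re g).comp (re f) = re (g ∘ f) := by
  refine ext_e fun i => ?_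
  rw [ContinuousLinearMap.comp_apply, re_e hf, re_e hg, re_e (hg.comp hf)]
  rfl

theorem re_equiv_symm_apply (f : I ≃ J) (x : H I) : re (f.symm : J → I) (re (f : I → J) x) = x := by
  rw [← adj_re_equiv, adj_re_comp f.injective]

end OE
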