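import Mathlib
import Pool.Agent.Work.MP_06ef15_an.BB

/-!
# Amplification `amp K T = T ⊗ 1_K`

Existence (`exists_amp`): `(amp K T x)(j,k) = (T (slice k x)) j`; `∑_k ‖T (slice k x)‖² ≤ ‖T‖² ∑_k ‖slice k x‖² = ‖T‖² ‖x‖²`.
-/

set_option autoImplicit false

open scoped ComplexConjugate InnerProductSpace Classical
open ContinuousLinearMap (adjoint)

namespace OE

variable {I J L K : Type}

private theorem ob_emb (k : K) : OrthoBdd (fun i : I => (e (i, k) : H (I × K))) 1 := by
  refine ⟨zero_le_one, fun i j hij => ?_, fun i => ?_⟩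
  · rw [inner_e_e, if_neg]
    intro h
    exact hij (congrArg Prod.fst h)
  · rw [norm_e]

private theorem ob_slice (k : K) : OrthoBdd (fun p : I × K => if p.2 = k then (e p.1 : H I) else 0) 1 := by
  refine ⟨zero_le_one, fun p p' hij => ?_, fun p => ?_⟩
  · show ⟪(if p.2 = k then (e p.1 : H I) else 0), (if p'.2 = k then (e p'.1 : H I) else 0)⟫_ℂ = 0
    by_cases h : p.2 = k
    · by_cases h' : p'.2 = k
      · rw [if_pos h, if_pos h', inner_e_e, if_neg]
        intro h2
        exact hij (Prod.ext h2 (h.trans h'.symm))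
      · rw [if_neg h', inner_zero_right]
    · rw [if_neg h, inner_zero_left]
  · show ‖(if p.2 = k then (e p.1 : H I) else 0)‖ ≤ 1
    split_ifs
    · rw [norm_e]
    · rw [norm_zero]
      exact zero_le_one

theorem emb_e (k : K) (i : I) : emb k (e i) = e (i, k) := by
  unfold emb
  exact mk_e (ob_emb k) i

private theorem slice_e_aux (k : K) (p : I × K) : slice k (e p) = if p.2 = k then e p.1 else 0 := by
  unfold slice
  exact mk_e (ob_slice k) p

private theorem adj_emb_aux (k : K) : adjoint (emb k : H I →L[ℂ] H (I × K)) = slice k := by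
  refine adj_of_coef (emb k) (slice k) (fun i j => ?_)
  rw [slice_e_aux, emb_e]
  by_cases h : j.2 = k
  · rw [if_pos h, e_apply, e_apply]
    by_cases h2 : i = j.1
    · rw [if_pos h2, if_pos (Prod.ext h2.symm h), map_one]
    · rw [if_neg h2, if_neg, map_zero]
      intro h3
      exact h2 (congrArg Prod.fst h3).symm
  · rw [if_neg h, e_apply, if_neg, map_zero]
    · rfl
    · intro h3
      exact h (congrArg Prod.snd h3)

theorem norm_emb (k : K) (x : H I) : ‖(emb k x : H (I × K))‖ = ‖x‖ := by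
  refine norm_isometry_of_ortho (emb k : H I →L[ℂ] H (I × K)) (fun i j => ?_) x
  rw [emb_e, emb_e, inner_e_e]
  simp

theorem emb_apply (k : K) (x : H I) (p : I × K) :
    ((emb k x : H (I × K)) : I × K → ℂ) p = if p.2 = k then (x : I → ℂ) p.1 else 0 := by
  rw [← inner_e_left, ← ContinuousLinearMap.adjoint_inner_left, adj_emb_aux, slice_e_aux]
  split_ifs with h
  · rw [inner_e_left]
  · rw [inner_zero_left]

theorem slice_e (k : K) (p : I × K) : slice k (e p) = if p.2 = k then e p.1 else 0 := slice_e_aux k p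

theorem slice_apply (k : K) (x : H (I × K)) (i : I) : (slice k x : I → ℂ) i = (x : I × K → ℂ) (i, k) := by
  rw [← inner_e_left, ← adj_emb_aux, ContinuousLinearMap.adjoint_inner_right, emb_e, inner_e_left]

theorem slice_emb (k : K) (x : H I) : slice k (emb k x : H (I × K)) = x := by
  refine ext_pt (fun i => ?_)
  rw [slice_apply, emb_apply, if_pos rfl]

theorem slice_emb_ne {k k' : K} (h : k ≠ k') (x : H I) : slice k (emb k' x : H (I × K)) = 0 := by
  refine ext_pt (fun i => ?_)
  rw [slice_apply, emb_apply, if_neg (fun h' => h h')]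
  rfl

theorem adj_emb (k : K) : adjoint (emb k : H I →L[ℂ] H (I × K)) = slice k := adj_emb_aux k

theorem norm_slice_le (k : K) (x : H (I × K)) : ‖slice k x‖ ≤ ‖x‖ := by
  have h := norm_mk_le (ob_slice (I := I) k)
  have h2 := (slice k : H (I × K) →L[ℂ] H I).le_opNorm x
  have h3 : ‖(slice k : H (I × K) →L[ℂ] H I)‖ ≤ 1 := h
  calc ‖slice k x‖ ≤ ‖(slice k : H (I × K) →L[ℂ] H I)‖ * ‖x‖ := h2
    _ ≤ 1 * ‖x‖ := mul_le_mul_of_nonneg_right h3 (norm_nonneg _)
    _ = ‖x‖ := one_mul _

theorem inner_emb_emb (k k' : K) (x y : H I) :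
    ⟪(emb k x : H (I × K)), emb k' y⟫_ℂ = if k = k' then ⟪x, y⟫_ℂ else 0 := by
  rw [← ContinuousLinearMap.adjoint_inner_right, adj_emb]
  split_ifs with h
  · subst h
    rw [slice_emb]
  · rw [slice_emb_ne h, inner_zero_right]

theorem hasSum_slice (x : H (I × K)) : HasSum (fun k => ‖slice k x‖ ^ 2) (‖x‖ ^ 2) := by
  have h := norm_sq_hasSum x
  rw [← (Equiv.prodComm K I).hasSum_iff] at h
  refine h.prod_fiberwise (fun k => ?_)
  have h2 := norm_sq_hasSum (slice k x)
  simp only [slice_apply] at h2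
  exact h2

theorem ext_slice {x y : H (I × K)} (h : ∀ k, slice k x = slice k y) : x = y := by
  refine ext_pt (fun p => ?_)
  have h2 := congrArg (fun z : H I => (z : I → ℂ) p.1) (h p.2)
  simp only [slice_apply] at h2
  exact h2

private theorem hs_amp (T : H I →L[ℂ] H J) (x : H (I × K)) :
    ∃ y : H (J × K), (∀ p, (y : J × K → ℂ) p = (T (slice p.2 x) : J → ℂ) p.1) ∧ ‖y‖ ≤ ‖T‖ * ‖x‖ := by
  have hx := hasSum_slice x
  have hT : ∀ k, ‖T (slice k x)‖ ^ 2 ≤ ‖T‖ ^ 2 * ‖slice k x‖ ^ 2 := by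
    intro k
    rw [← mul_pow]
    exact pow_le_pow_left₀ (norm_nonneg _) (T.le_opNorm _) 2
  have hx2 : HasSum (fun k => ‖T‖ ^ 2 * ‖slice k x‖ ^ 2) (‖T‖ ^ 2 * ‖x‖ ^ 2) := hx.mul_left _
  have hs : Summable (fun k => ‖T (slice k x)‖ ^ 2) :=
    Summable.of_nonneg_of_le (fun k => by positivity) hT hx2.summable
  have hsw : Summable (fun q : K × J => ‖(T (slice q.1 x) : J → ℂ) q.2‖ ^ 2) := by
    refine (summable_prod_of_nonneg (fun q => by positivity)).2 ⟨fun k => ?_, ?_⟩
    · exact (norm_sq_hasSum (T (slice k x))).summable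
    · have h2 : (fun k => ∑' j, ‖(T (slice k x) : J → ℂ) j‖ ^ 2) = fun k => ‖T (slice k x)‖ ^ 2 := by
        funext k
        exact (norm_sq_hasSum (T (slice k x))).tsum_eq
      show Summable (fun k => ∑' j, ‖(T (slice k x) : J → ℂ) j‖ ^ 2)
      rw [h2]
      exact hs
  have hsu : Summable (fun p : J × K => ‖(T (slice p.2 x) : J → ℂ) p.1‖ ^ 2) :=
    (Equiv.prodComm K J).summable_iff.1 hsw
  have hmem : Memℓp (fun p : J × K => (T (slice p.2 x) : J → ℂ) p.1) 2 := by
    refine memℓp_gen ?_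
    have h3 : (2 : ENNReal).toReal = ((2 : ℕ) : ℝ) := by norm_num
    simp only [h3, Real.rpow_natCast]
    exact hsu
  refine ⟨⟨_, hmem⟩, fun p => rfl, ?_⟩
  have h4 := norm_sq_hasSum (⟨_, hmem⟩ : H (J × K))
  have h5 : HasSum (fun k => ‖T (slice k x)‖ ^ 2) (‖(⟨_, hmem⟩ : H (J × K))‖ ^ 2) := by
    rw [← (Equiv.prodComm K J).hasSum_iff] at h4
    exact h4.prod_fiberwise (fun k => norm_sq_hasSum (T (slice k x)))
  have h6 : ‖(⟨_, hmem⟩ : H (J × K))‖ ^ 2 ≤ (‖T‖ * ‖x‖) ^ 2 := by
    rw [mul_pow]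
    exact hasSum_le hT h5 hx2
  exact (sq_le_sq₀ (norm_nonneg _) (by positivity)).1 h6

private theorem exists_amp_aux (K : Type) (T : H I →L[ℂ] H J) :
    ∃ S : H (I × K) →L[ℂ] H (J × K), ‖S‖ ≤ ‖T‖ ∧ ∀ p, S (e p) = emb p.2 (T (e p.1)) := by
  choose f hf hn using hs_amp (K := K) T
  let L : H (I × K) →ₗ[ℂ] H (J × K) :=
    { toFun := f
      map_add' := by
        intro x y
        refine ext_pt (fun p => ?_)
        rw [hf, map_add, map_add, lp.coeFn_add, lp.coeFn_add, Pi.add_apply, Pi.add_apply, hf, hf]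
      map_smul' := by
        intro c x
        refine ext_pt (fun p => ?_)
        rw [hf, map_smul, map_smul, lp.coeFn_smul, lp.coeFn_smul, Pi.smul_apply, Pi.smul_apply, hf]
        rfl }
  refine ⟨L.mkContinuous ‖T‖ (fun x => hn x), LinearMap.mkContinuous_norm_le _ (norm_nonneg _) _, fun p => ?_⟩
  refine ext_pt (fun q => ?_)
  show (f (e p) : J × K → ℂ) q = _
  rw [hf, emb_apply, slice_e]
  by_cases h : q.2 = p.2
  · rw [if_pos h.symm, if_pos h]
  · rw [if_neg (fun h' => h h'.symm), if_neg h, map_zero]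
    rfl

theorem exists_amp (K : Type) (T : H I →L[ℂ] H J) :
    ∃ S : H (I × K) →L[ℂ] H (J × K), ‖S‖ ≤ ‖T‖ ∧ ∀ p, S (e p) = emb p.2 (T (e p.1)) := exists_amp_aux K T

theorem amp_e (T : H I →L[ℂ] H J) (p : I × K) : amp K T (e p) = emb p.2 (T (e p.1)) := by
  obtain ⟨S, -, hS⟩ := exists_amp K T
  have h : amp K T = S := mk_e_of_exists S hS
  rw [h]
  exact hS p

theorem amp_e' (T : H I →L[ℂ] H J) (i : I) (k : K) : amp K T (e (i, k)) = emb k (T (e i)) := amp_e T (i, k)

theorem amp_emb (T : H I →L[ℂ] H J) (k : K) (x : H I) : amp K T (emb k x) = emb k (T x) := by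
  have h : (amp K T).comp (emb k) = (emb k).comp T := by
    refine ext_e (fun i => ?_)
    rw [ContinuousLinearMap.comp_apply, ContinuousLinearMap.comp_apply, emb_e, amp_e']
  exact congrArg (fun z : H I →L[ℂ] H (J × K) => z x) h

theorem slice_amp (T : H I →L[ℂ] H J) (k : K) (x : H (I × K)) : slice k (amp K T x) = T (slice k x) := by
  have h : (slice k).comp (amp K T) = T.comp (slice k) := by
    refine ext_e (fun p => ?_)
    rw [ContinuousLinearMap.comp_apply, ContinuousLinearMap.comp_apply, amp_e, slice_e]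
    split_ifs with h
    · rw [h, slice_emb]
    · rw [slice_emb_ne (fun h' => h h'.symm), map_zero]
  exact congrArg (fun z : H (I × K) →L[ℂ] H J => z x) h

theorem norm_amp_le (T : H I →L[ℂ] H J) : ‖amp K T‖ ≤ ‖T‖ := by
  obtain ⟨S, hn, hS⟩ := exists_amp K T
  have h : amp K T = S := mk_e_of_exists S hS
  rw [h]
  exact hn

theorem norm_amp [Nonempty K] (T : H I →L[ℂ] H J) : ‖amp K T‖ = ‖T‖ := by
  refine le_antisymm (norm_amp_le T) (T.opNorm_le_bound (norm_nonneg _) (fun x => ?_))
  obtain ⟨k⟩ := ‹Nonempty K›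
  have h := (amp K T).le_opNorm (emb k x)
  rw [amp_emb, norm_emb, norm_emb] at h
  exact h

theorem amp_comp (S : H J →L[ℂ] H L) (T : H I →L[ℂ] H J) : amp K (S.comp T) = (amp K S).comp (amp K T) := by
  refine ContinuousLinearMap.ext (fun x => ext_slice (fun k => ?_))
  rw [ContinuousLinearMap.comp_apply, slice_amp, slice_amp, slice_amp, ContinuousLinearMap.comp_apply]

theorem amp_mul (S T : H I →L[ℂ] H I) : amp K (S * T) = amp K S * amp K T := amp_comp S T

theorem amp_one : amp K (1 : H I →L[ℂ] H I) = 1 := by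
  refine ContinuousLinearMap.ext (fun x => ext_slice (fun k => ?_))
  rw [slice_amp]
  rfl

theorem amp_zero : amp K (0 : H I →L[ℂ] H J) = 0 := by
  refine ContinuousLinearMap.ext (fun x => ext_slice (fun k => ?_))
  rw [slice_amp, zero_apply, zero_apply, map_zero]

theorem amp_add (S T : H I →L[ℂ] H J) : amp K (S + T) = amp K S + amp K T := by
  refine ContinuousLinearMap.ext (fun x => ext_slice (fun k => ?_))
  rw [slice_amp, add_apply, add_apply, map_add, slice_amp, slice_amp]

theorem amp_sub (S T : H I →L[ℂ] H J) : amp K (S - T) = amp K S - amp K T := by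
  refine ContinuousLinearMap.ext (fun x => ext_slice (fun k => ?_))
  rw [slice_amp, sub_apply, sub_apply, map_sub, slice_amp, slice_amp]

theorem amp_smul (c : ℂ) (T : H I →L[ℂ] H J) : amp K (c • T) = c • amp K T := by
  refine ContinuousLinearMap.ext (fun x => ext_slice (fun k => ?_))
  rw [slice_amp, smul_apply, smul_apply, map_smul, slice_amp]

theorem amp_sum {ι : Type*} (s : Finset ι) (T : ι → (H I →L[ℂ] H J)) :
    amp K (∑ i ∈ s, T i) = ∑ i ∈ s, amp K (T i) := by
  induction s using Finset.induction_on with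
  | empty => rw [Finset.sum_empty, Finset.sum_empty, amp_zero]
  | insert a s ha ih => rw [Finset.sum_insert ha, Finset.sum_insert ha, amp_add, ih]

theorem amp_adj (T : H I →L[ℂ] H J) : amp K (adjoint T) = adjoint (amp K T) := by
  refine (adj_of_coef (amp K T) (amp K (adjoint T)) (fun i j => ?_)).symm
  rw [amp_e, amp_e, emb_apply, emb_apply]
  by_cases h : i.2 = j.2
  · rw [if_pos h, if_pos h.symm, adj_coef]
  · rw [if_neg h, if_neg (fun h' => h h'.symm), map_zero]

theorem amp_star (T : H I →L[ℂ] H I) : amp K (star T) = star (amp K T) := by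
  rw [ContinuousLinearMap.star_eq_adjoint, ContinuousLinearMap.star_eq_adjoint, amp_adj]

theorem amp_injective [Nonempty K] : Function.Injective (fun T : H I →L[ℂ] H J => amp K T) := by
  intro S T h
  obtain ⟨k⟩ := ‹Nonempty K›
  refine ContinuousLinearMap.ext (fun x => ?_)
  have h2 : amp K S (emb k x) = amp K T (emb k x) := congrArg (fun z : H (I × K) →L[ℂ] H (J × K) => z (emb k x)) h
  rw [amp_emb, amp_emb] at h2
  have h3 := congrArg (fun z => slice k z) h2
  simp only [slice_emb] at h3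
  exact h3

/-- `amp` as a *-homomorphism. -/
noncomputable def ampHom (I K : Type) : (H I →L[ℂ] H I) →⋆ₐ[ℂ] (H (I × K) →L[ℂ] H (I × K)) where
  toFun T := amp K T
  map_one' := amp_one
  map_mul' := amp_mul
  map_zero' := amp_zero
  map_add' := amp_add
  commutes' c := by
    have h : algebraMap ℂ (H I →L[ℂ] H I) c = c • 1 := Algebra.algebraMap_eq_smul_one c
    have h' : algebraMap ℂ (H (I × K) →L[ℂ] H (I × K)) c = c • 1 := Algebra.algebraMap_eq_smul_one c
    rw [h, h', amp_smul, amp_one]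
  map_star' := amp_star

theorem ampHom_apply (T : H I →L[ℂ] H I) : ampHom I K T = amp K T := rfl

end OE
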