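import Mathlib
import Pool.Agent.Work.MP_06ef15_an.BC

/-!
# Transpose, right amplification, `ten a b = a ⊗ b`

Existence of the transpose: `trp T x = star (T† (star x))` (pointwise complex conjugation `star` on `ℓ²`).
-/

set_option autoImplicit false

open scoped ComplexConjugate InnerProductSpace Classical
open ContinuousLinearMap (adjoint)

namespace OE

variable {I I' I'' J J' J'' L K : Type}

private noncomputable def cj (I : Type) : H I →L⋆[ℂ] H I :=
  ((starₗᵢ ℂ : H I ≃ₗᵢ⋆[ℂ] H I).toContinuousLinearEquiv : H I →L⋆[ℂ] H I)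

private theorem cj_apply (x : H I) (i : I) : (cj I x : I → ℂ) i = conj ((x : I → ℂ) i) := rfl

private theorem norm_cj (x : H I) : ‖cj I x‖ = ‖x‖ := (starₗᵢ ℂ : H I ≃ₗᵢ⋆[ℂ] H I).norm_map x

private theorem cj_e (i : I) : cj I (e i) = e i := by
  apply ext_pt
  intro j
  rw [cj_apply, e_apply]
  split_ifs <;> simp

theorem exists_trp (T : H I →L[ℂ] H J) :
    ∃ S : H J →L[ℂ] H I, ‖S‖ ≤ ‖T‖ ∧ ∀ i j, (S (e j) : I → ℂ) i = (T (e i) : J → ℂ) j := by
  refine ⟨(cj I).comp ((adjoint T).comp (cj J)), ?_, fun i j => ?_⟩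
  · refine ContinuousLinearMap.opNorm_le_bound _ (norm_nonneg _) fun x => ?_
    change ‖cj I (adjoint T (cj J x))‖ ≤ ‖T‖ * ‖x‖
    rw [norm_cj]
    refine (ContinuousLinearMap.le_opNorm _ _).trans ?_
    rw [norm_cj, LinearIsometryEquiv.norm_map]
  · change (cj I (adjoint T (cj J (e j))) : I → ℂ) i = _
    rw [cj_apply, cj_e, adj_coef, Complex.conj_conj]

theorem trp_coef (T : H I →L[ℂ] H J) (i : I) (j : J) : (trp T (e j) : I → ℂ) i = (T (e i) : J → ℂ) j := by
  have h : ∃ S : H J →L[ℂ] H I, ∀ i j, (S (e j) : I → ℂ) i = (T (e i) : J → ℂ) j := by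
    obtain ⟨S, -, hS⟩ := exists_trp T
    exact ⟨S, hS⟩
  unfold trp
  rw [dif_pos h]
  exact h.choose_spec i j

theorem trp_of_coef (T : H I →L[ℂ] H J) (S : H J →L[ℂ] H I) (h : ∀ i j, (S (e j) : I → ℂ) i = (T (e i) : J → ℂ) j) :
    trp T = S := by
  apply ext_coef
  intro j i
  rw [trp_coef, h]

theorem trp_trp (T : H I →L[ℂ] H J) : trp (trp T) = T :=
  trp_of_coef _ _ fun i j => (trp_coef T j i).symm

private theorem norm_trp_le (T : H I →L[ℂ] H J) : ‖trp T‖ ≤ ‖T‖ := by
  obtain ⟨S, hn, hS⟩ := exists_trp T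
  rw [trp_of_coef T S hS]
  exact hn

theorem norm_trp (T : H I →L[ℂ] H J) : ‖trp T‖ = ‖T‖ := by
  refine le_antisymm (norm_trp_le T) ?_
  calc ‖T‖ = ‖trp (trp T)‖ := by rw [trp_trp]
    _ ≤ ‖trp T‖ := norm_trp_le _

/-- the transpose as a composition -/
private theorem trp_eq (T : H I →L[ℂ] H J) : trp T = (cj I).comp ((adjoint T).comp (cj J)) := by
  refine trp_of_coef _ _ fun i j => ?_
  change (cj I (adjoint T (cj J (e j))) : I → ℂ) i = _
  rw [cj_apply, cj_e, adj_coef, Complex.conj_conj]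

private theorem cj_cj (x : H I) : cj I (cj I x) = x := by
  apply ext_pt
  intro i
  rw [cj_apply, cj_apply, Complex.conj_conj]

private theorem trp_apply (T : H I →L[ℂ] H J) (y : H J) : trp T y = cj I (adjoint T (cj J y)) := by
  rw [trp_eq]
  rfl

theorem trp_comp (S : H J →L[ℂ] H L) (T : H I →L[ℂ] H J) : trp (S.comp T) = (trp T).comp (trp S) := by
  refine ContinuousLinearMap.ext fun y => ?_
  rw [ContinuousLinearMap.comp_apply, trp_apply, trp_apply, trp_apply, cj_cj,
    ContinuousLinearMap.adjoint_comp, ContinuousLinearMap.comp_apply]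

theorem trp_mul (S T : H I →L[ℂ] H I) : trp (S * T) = trp T * trp S := trp_comp S T

theorem trp_one : trp (1 : H I →L[ℂ] H I) = 1 := by
  refine trp_of_coef _ _ fun i j => ?_
  change (e j : I → ℂ) i = (e i : I → ℂ) j
  rw [e_apply, e_apply]
  by_cases h : i = j
  · rw [if_pos h, if_pos h.symm]
  · rw [if_neg h, if_neg (Ne.symm h)]

theorem trp_add (S T : H I →L[ℂ] H J) : trp (S + T) = trp S + trp T := by
  refine trp_of_coef _ _ fun i j => ?_
  change (trp S (e j) : I → ℂ) i + (trp T (e j) : I → ℂ) i = (S (e i) : J → ℂ) j + (T (e i) : J → ℂ) j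
  rw [trp_coef, trp_coef]

theorem trp_sub (S T : H I →L[ℂ] H J) : trp (S - T) = trp S - trp T := by
  refine trp_of_coef _ _ fun i j => ?_
  change (trp S (e j) : I → ℂ) i - (trp T (e j) : I → ℂ) i = (S (e i) : J → ℂ) j - (T (e i) : J → ℂ) j
  rw [trp_coef, trp_coef]

theorem trp_smul (c : ℂ) (T : H I →L[ℂ] H J) : trp (c • T) = c • trp T := by
  refine trp_of_coef _ _ fun i j => ?_
  change c * (trp T (e j) : I → ℂ) i = c * (T (e i) : J → ℂ) j
  rw [trp_coef]

theorem trp_zero : trp (0 : H I →L[ℂ] H J) = 0 := by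
  refine trp_of_coef _ _ fun i j => rfl

theorem trp_adj (T : H I →L[ℂ] H J) : trp (adjoint T) = adjoint (trp T) := by
  refine trp_of_coef _ _ fun j i => ?_
  rw [adj_coef, adj_coef, trp_coef]

theorem trp_star (T : H I →L[ℂ] H I) : trp (star T) = star (trp T) := trp_adj T

theorem trp_amp (T : H I →L[ℂ] H J) : trp (amp K T) = amp K (trp T) := by
  refine trp_of_coef _ _ fun p q => ?_
  rw [amp_e, amp_e, emb_apply, emb_apply, trp_coef]
  by_cases h : p.2 = q.2
  · rw [if_pos h, if_pos h.symm]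
  · rw [if_neg h, if_neg (Ne.symm h)]

theorem trp_re {f : I → J} (hf : Function.Injective f) : trp (re f) = adjoint (re f) := by
  refine trp_of_coef _ _ fun i j => ?_
  rw [adj_coef, re_e hf, e_apply]
  split_ifs <;> simp

/-- `x ↦ e i ⊗ x`. -/
noncomputable def embL {I J : Type} (i : I) : H J →L[ℂ] H (I × J) := mk (fun j => e (i, j))

private theorem embL_eq (i : I) : (embL i : H J →L[ℂ] H (I × J)) = re (fun j => (i, j)) := rfl

private theorem inj_embL (i : I) : Function.Injective (fun j : J => (i, j)) := fun a b h => by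
  simpa using h

theorem embL_e (i : I) (j : J) : embL i (e j) = e (i, j) := by
  rw [embL_eq, re_e (inj_embL i)]

theorem norm_embL (i : I) (x : H J) : ‖(embL i x : H (I × J))‖ = ‖x‖ := by
  rw [embL_eq, norm_re (inj_embL i)]

private theorem embL_eq_swap (i : I) :
    (embL i : H J →L[ℂ] H (I × J)) = (re (Prod.swap : J × I → I × J)).comp (emb i) := by
  refine ext_e fun j => ?_
  rw [embL_e, ContinuousLinearMap.comp_apply, emb_e, re_e Prod.swap_injective]
  rfl

private theorem swap_apply (x : H (I × J)) (i : I) (j : J) :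
    (re (Prod.swap : I × J → J × I) x : J × I → ℂ) (j, i) = (x : I × J → ℂ) (i, j) :=
  re_apply Prod.swap_injective x (i, j)

theorem embL_apply (i : I) (x : H J) (p : I × J) :
    ((embL i x : H (I × J)) : I × J → ℂ) p = if p.1 = i then (x : J → ℂ) p.2 else 0 := by
  obtain ⟨a, b⟩ := p
  rw [embL_eq_swap, ContinuousLinearMap.comp_apply, swap_apply, emb_apply]

theorem ampR_e (T : H J →L[ℂ] H J') (p : I × J) : ampR I T (e p) = embL p.1 (T (e p.2)) := by
  obtain ⟨i, j⟩ := p
  unfold ampR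
  rw [ContinuousLinearMap.comp_apply, ContinuousLinearMap.comp_apply, re_e Prod.swap_injective,
    Prod.swap_prod_mk, amp_e', embL_eq_swap, ContinuousLinearMap.comp_apply]

theorem ampR_embL (T : H J →L[ℂ] H J') (i : I) (x : H J) : ampR I T (embL i x) = embL i (T x) := by
  have h : (ampR I T).comp (embL i) = (embL i).comp T := by
    refine ext_e fun j => ?_
    rw [ContinuousLinearMap.comp_apply, ContinuousLinearMap.comp_apply, embL_e, ampR_e]
  exact DFunLike.congr_fun h x

theorem norm_ampR_le (T : H J →L[ℂ] H J') : ‖ampR I T‖ ≤ ‖T‖ := by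
  refine ContinuousLinearMap.opNorm_le_bound _ (norm_nonneg _) fun x => ?_
  unfold ampR
  rw [ContinuousLinearMap.comp_apply, ContinuousLinearMap.comp_apply, norm_re Prod.swap_injective]
  refine (ContinuousLinearMap.le_opNorm _ _).trans ?_
  rw [norm_re Prod.swap_injective]
  exact mul_le_mul_of_nonneg_right (norm_amp_le T) (norm_nonneg _)

private theorem ampR_apply (T : H J →L[ℂ] H J') (z : H (I × J)) (i : I) (j' : J') :
    (ampR I T z : I × J' → ℂ) (i, j') =
      (T (slice i (re (Prod.swap : I × J → J × I) z)) : J' → ℂ) j' := by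
  unfold ampR
  rw [ContinuousLinearMap.comp_apply, ContinuousLinearMap.comp_apply, swap_apply,
    ← slice_apply, slice_amp]

theorem ampR_comp (S : H J' →L[ℂ] H L) (T : H J →L[ℂ] H J') : ampR I (S.comp T) = (ampR I S).comp (ampR I T) := by
  refine ext_e fun p => ?_
  rw [ContinuousLinearMap.comp_apply, ampR_e, ampR_e, ampR_embL, ContinuousLinearMap.comp_apply]

theorem ampR_mul (S T : H J →L[ℂ] H J) : ampR I (S * T) = ampR I S * ampR I T := ampR_comp S T

theorem ampR_one : ampR I (1 : H J →L[ℂ] H J) = 1 := by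
  refine ext_e fun p => ?_
  rw [ampR_e, ContinuousLinearMap.one_apply, embL_e, ContinuousLinearMap.one_apply]

theorem ampR_add (S T : H J →L[ℂ] H J') : ampR I (S + T) = ampR I S + ampR I T := by
  refine ext_e fun p => ?_
  rw [ampR_e, ContinuousLinearMap.add_apply, map_add, ContinuousLinearMap.add_apply, ampR_e, ampR_e]

theorem ampR_sub (S T : H J →L[ℂ] H J') : ampR I (S - T) = ampR I S - ampR I T := by
  refine ext_e fun p => ?_
  rw [ampR_e, ContinuousLinearMap.sub_apply, map_sub, ContinuousLinearMap.sub_apply, ampR_e, ampR_e]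

theorem ampR_smul (c : ℂ) (T : H J →L[ℂ] H J') : ampR I (c • T) = c • ampR I T := by
  refine ext_e fun p => ?_
  rw [ampR_e, ContinuousLinearMap.smul_apply, map_smul, ContinuousLinearMap.smul_apply, ampR_e]

private theorem adj_swap : adjoint (re (Prod.swap : I × J → J × I)) = re (Prod.swap : J × I → I × J) :=
  adj_re_equiv (Equiv.prodComm I J)

theorem ampR_adj (T : H J →L[ℂ] H J') : ampR I (adjoint T) = adjoint (ampR I T) := by
  unfold ampR
  rw [ContinuousLinearMap.adjoint_comp, ContinuousLinearMap.adjoint_comp, adj_swap, adj_swap,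
    amp_adj, ContinuousLinearMap.comp_assoc]

private theorem slice_swap_embL (i : I) (j : J) (y : H J) :
    slice j (embL i y : H (I × J)) = (y : J → ℂ) j • e i := by
  apply ext_pt
  intro a
  rw [slice_apply, embL_apply]
  change _ = (y : J → ℂ) j * (e i : I → ℂ) a
  rw [e_apply]
  split_ifs <;> simp

private theorem amp_embL_apply (a : H I →L[ℂ] H I') (i : I) (y : H J) (i' : I') (j : J) :
    (amp J a (embL i y) : I' × J → ℂ) (i', j) = (a (e i) : I' → ℂ) i' * (y : J → ℂ) j := by
  rw [← slice_apply, slice_amp, slice_swap_embL, map_smul, mul_comm]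
  rfl

private theorem swap_emb (j : J) (x : H I) :
    re (Prod.swap : I × J → J × I) (emb j x) = embL j x := by
  rw [embL_eq_swap]
  rfl

private theorem ampR_emb_apply (b : H J →L[ℂ] H J') (j : J) (x : H I) (i : I) (j' : J') :
    (ampR I b (emb j x) : I × J' → ℂ) (i, j') = (x : I → ℂ) i * (b (e j) : J' → ℂ) j' := by
  rw [ampR_apply, swap_emb, slice_swap_embL, map_smul]
  rfl

theorem amp_ampR_comm (a : H I →L[ℂ] H I') (b : H J →L[ℂ] H J') :
    (amp J' a).comp (ampR I b) = (ampR I' b).comp (amp J a) := by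
  refine ext_coef fun p q => ?_
  obtain ⟨i, j⟩ := p
  obtain ⟨i', j'⟩ := q
  rw [ContinuousLinearMap.comp_apply, ContinuousLinearMap.comp_apply, ampR_e, amp_e,
    amp_embL_apply, ampR_emb_apply]

theorem ten_eq (a : H I →L[ℂ] H I') (b : H J →L[ℂ] H J') : ten a b = (amp J' a).comp (ampR I b) :=
  (amp_ampR_comm a b).symm

theorem ten_e (a : H I →L[ℂ] H I') (b : H J →L[ℂ] H J') (i : I) (j : J) (i' : I') (j' : J') :
    ((ten a b (e (i, j)) : H (I' × J')) : I' × J' → ℂ) (i', j') = (a (e i) : I' → ℂ) i' * (b (e j) : J' → ℂ) j' := by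
  unfold ten
  rw [ContinuousLinearMap.comp_apply, amp_e, ampR_emb_apply]

theorem ten_comp (a' : H I' →L[ℂ] H I'') (b' : H J' →L[ℂ] H J'') (a : H I →L[ℂ] H I') (b : H J →L[ℂ] H J') :
    (ten a' b').comp (ten a b) = ten (a'.comp a) (b'.comp b) := by
  unfold ten
  rw [ampR_comp, amp_comp]
  refine ContinuousLinearMap.ext fun x => ?_
  have h := DFunLike.congr_fun (amp_ampR_comm a' b) (amp J a x)
  simp only [ContinuousLinearMap.comp_apply] at h ⊢
  rw [h]

theorem ten_mul (a' a : H I →L[ℂ] H I) (b' b : H J →L[ℂ] H J) : ten a' b' * ten a b = ten (a' * a) (b' * b) :=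
  ten_comp a' b' a b

theorem ten_one_one : ten (1 : H I →L[ℂ] H I) (1 : H J →L[ℂ] H J) = 1 := by
  unfold ten
  rw [ampR_one, amp_one]
  rfl

theorem ten_adj (a : H I →L[ℂ] H I') (b : H J →L[ℂ] H J') : adjoint (ten a b) = ten (adjoint a) (adjoint b) := by
  rw [ten_eq]
  unfold ten
  rw [ContinuousLinearMap.adjoint_comp, ampR_adj, amp_adj]

theorem ten_add_left (a a' : H I →L[ℂ] H I') (b : H J →L[ℂ] H J') : ten (a + a') b = ten a b + ten a' b := by
  unfold ten
  rw [amp_add, ContinuousLinearMap.comp_add]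

theorem ten_add_right (a : H I →L[ℂ] H I') (b b' : H J →L[ℂ] H J') : ten a (b + b') = ten a b + ten a b' := by
  unfold ten
  rw [ampR_add, ContinuousLinearMap.add_comp]

theorem ten_sub_left (a a' : H I →L[ℂ] H I') (b : H J →L[ℂ] H J') : ten (a - a') b = ten a b - ten a' b := by
  unfold ten
  rw [amp_sub, ContinuousLinearMap.comp_sub]

theorem ten_sub_right (a : H I →L[ℂ] H I') (b b' : H J →L[ℂ] H J') : ten a (b - b') = ten a b - ten a b' := by
  unfold ten
  rw [ampR_sub, ContinuousLinearMap.sub_comp]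

theorem norm_ten_le (a : H I →L[ℂ] H I') (b : H J →L[ℂ] H J') : ‖ten a b‖ ≤ ‖a‖ * ‖b‖ := by
  unfold ten
  refine (ContinuousLinearMap.opNorm_comp_le _ _).trans ?_
  rw [mul_comm]
  exact mul_le_mul (norm_amp_le a) (norm_ampR_le b) (norm_nonneg _) (norm_nonneg _)

theorem trp_ten (a : H I →L[ℂ] H I') (b : H J →L[ℂ] H J') : trp (ten a b) = ten (trp a) (trp b) := by
  refine trp_of_coef _ _ fun p q => ?_
  obtain ⟨i, j⟩ := p
  obtain ⟨i', j'⟩ := q
  rw [ten_e, ten_e, trp_coef, trp_coef]

end OE
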