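import Mathlib
import Pool.Agent.Work.MP_06ef15_an.BD

/-!
# Regrouping and block estimates

`norm_amp_pr_le`: for fixed `k` the slice of `amp K T (pr s x)` is `T (pr (s k)) (slice k x)`; sum the squares over `k`.
-/

set_option autoImplicit false

open scoped ComplexConjugate InnerProductSpace Classical
open ContinuousLinearMap (adjoint)

namespace OE

variable {I I' J J' L K : Type}

private theorem assoc_inj (I J K : Type) :
    Function.Injective (fun p : (I × J) × K => ((p.1.1, (p.1.2, p.2)) : I × (J × K))) :=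
  (Equiv.prodAssoc I J K).injective

theorem assoc_e (i : I) (j : J) (k : K) : assoc I J K (e ((i, j), k)) = e (i, (j, k)) :=
  re_e (assoc_inj I J K) ((i, j), k)

theorem norm_assoc (x : H ((I × J) × K)) : ‖assoc I J K x‖ = ‖x‖ :=
  norm_re (assoc_inj I J K) x

theorem assoc_adj_comp : (adjoint (assoc I J K)).comp (assoc I J K) = ContinuousLinearMap.id ℂ _ := by
  ext1 x
  exact adj_re_comp (assoc_inj I J K) x

private theorem assoc_eq : assoc I J K = re (Equiv.prodAssoc I J K : (I × J) × K → I × (J × K)) := rfl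

theorem assoc_comp_adj : (assoc I J K).comp (adjoint (assoc I J K)) = ContinuousLinearMap.id ℂ _ := by
  ext1 x
  have h1 : adjoint (assoc I J K) = re ((Equiv.prodAssoc I J K).symm : I × (J × K) → (I × J) × K) := by
    rw [assoc_eq]
    exact adj_re_equiv (Equiv.prodAssoc I J K)
  show assoc I J K (adjoint (assoc I J K) x) = x
  rw [h1, assoc_eq]
  exact re_equiv_symm_apply (Equiv.prodAssoc I J K).symm x

private theorem assoc_emb_emb (j : J) (k : K) (x : H I) :
    assoc I J K (emb k (emb j x)) = emb (j, k) x := by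
  have h1 : ((assoc I J K).comp ((emb k).comp (emb j)) : H I →L[ℂ] H (I × (J × K))) = emb (j, k) := by
    refine ext_e fun i => ?_
    show assoc I J K (emb k (emb j (e i))) = emb (j, k) (e i)
    rw [emb_e, emb_e, emb_e, assoc_e]
  exact congrArg (fun S : H I →L[ℂ] H (I × (J × K)) => S x) h1

theorem assoc_amp_amp (T : H I →L[ℂ] H I') :
    (assoc I' J K).comp (amp K (amp J T)) = (amp (J × K) T).comp (assoc I J K) := by
  refine ext_e fun p => ?_
  obtain ⟨⟨i, j⟩, k⟩ := p
  show assoc I' J K (amp K (amp J T) (e ((i, j), k))) = amp (J × K) T (assoc I J K (e ((i, j), k)))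
  rw [amp_e', amp_e', assoc_e, amp_e', assoc_emb_emb]

/-- pointwise block estimate. -/
theorem norm_amp_le_of_slices (T : H I →L[ℂ] H J) (x : H (I × K)) {c : ℝ} (hc : 0 ≤ c)
    (h : ∀ k, ‖T (slice k x)‖ ≤ c * ‖slice k x‖) : ‖amp K T x‖ ≤ c * ‖x‖ := by
  have h1 : HasSum (fun k => ‖T (slice k x)‖ ^ 2) (‖amp K T x‖ ^ 2) := by
    have h2 := hasSum_slice (amp K T x)
    simp only [slice_amp] at h2
    exact h2
  have h3 : HasSum (fun k => c ^ 2 * ‖slice k x‖ ^ 2) (c ^ 2 * ‖x‖ ^ 2) := (hasSum_slice x).mul_left _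
  have h4 : ‖amp K T x‖ ^ 2 ≤ (c * ‖x‖) ^ 2 := by
    rw [mul_pow]
    refine hasSum_le (fun k => ?_) h1 h3
    rw [← mul_pow]
    exact pow_le_pow_left₀ (norm_nonneg _) (h k) 2
  exact le_of_sq_le_sq h4 (mul_nonneg hc (norm_nonneg _))

private theorem slice_pr (s : K → Set I) (k : K) (x : H (I × K)) :
    slice k (pr {p : I × K | p.1 ∈ s p.2} x) = pr (s k) (slice k x) := by
  refine ext_pt fun i => ?_
  rw [slice_apply, pr_apply, pr_apply, slice_apply]
  rfl

/-- block estimate for amplifications. -/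
theorem norm_amp_pr_le (T : H I →L[ℂ] H J) (s : K → Set I) {c : ℝ} (hc : 0 ≤ c) (h : ∀ k, ‖T.comp (pr (s k))‖ ≤ c) :
    ‖(amp K T).comp (pr {p : I × K | p.1 ∈ s p.2})‖ ≤ c := by
  refine ContinuousLinearMap.opNorm_le_bound _ hc fun x => ?_
  show ‖amp K T (pr {p : I × K | p.1 ∈ s p.2} x)‖ ≤ c * ‖x‖
  have h1 : HasSum (fun k => ‖T (pr (s k) (slice k x))‖ ^ 2)
      (‖amp K T (pr {p : I × K | p.1 ∈ s p.2} x)‖ ^ 2) := by
    have h2 := hasSum_slice (amp K T (pr {p : I × K | p.1 ∈ s p.2} x))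
    simp only [slice_amp, slice_pr] at h2
    exact h2
  have h3 : HasSum (fun k => c ^ 2 * ‖slice k x‖ ^ 2) (c ^ 2 * ‖x‖ ^ 2) := (hasSum_slice x).mul_left _
  have h4 : ‖amp K T (pr {p : I × K | p.1 ∈ s p.2} x)‖ ^ 2 ≤ (c * ‖x‖) ^ 2 := by
    rw [mul_pow]
    refine hasSum_le (fun k => ?_) h1 h3
    rw [← mul_pow]
    refine pow_le_pow_left₀ (norm_nonneg _) ?_ 2
    have h5 := (T.comp (pr (s k))).le_opNorm (slice k x)
    exact h5.trans (mul_le_mul_of_nonneg_right (h k) (norm_nonneg _))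
  exact le_of_sq_le_sq h4 (mul_nonneg hc (norm_nonneg _))

theorem amp_pr (s : Set I) : amp K (pr s) = pr {p : I × K | p.1 ∈ s} := by
  refine ext_e fun p => ?_
  obtain ⟨i, k⟩ := p
  rw [amp_e', pr_e, pr_e]
  by_cases h : i ∈ s
  · rw [if_pos h, if_pos (show (i, k) ∈ {p : I × K | p.1 ∈ s} from h), emb_e]
  · rw [if_neg h, if_neg (show (i, k) ∉ {p : I × K | p.1 ∈ s} from h), map_zero]

theorem ampR_pr (s : Set J) : ampR I (pr s) = pr {p : I × J | p.2 ∈ s} := by
  refine ext_e fun p => ?_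
  obtain ⟨i, j⟩ := p
  rw [ampR_e, pr_e, pr_e]
  by_cases h : j ∈ s
  · rw [if_pos h, if_pos (show (i, j) ∈ {p : I × J | p.2 ∈ s} from h), embL_e]
  · rw [if_neg h, if_neg (show (i, j) ∉ {p : I × J | p.2 ∈ s} from h), map_zero]

/-- positivity passes to amplifications. -/
theorem amp_nonneg {T : H I →L[ℂ] H I} (h : 0 ≤ T) : 0 ≤ amp K T := by
  have h1 := map_nonneg (ampHom I K) h
  rwa [ampHom_apply] at h1

/-- the triangle inequality for finitely many pairwise disjoint sets of basis vectors. -/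
theorem pr_union_le {ι : Type} (t : Finset ι) (s : ι → Set I) (T : H I →L[ℂ] H J) (u : Set I)
    (hu : ∀ x ∈ u, ∃ a ∈ t, x ∈ s a) : ‖T.comp (pr u)‖ ≤ ∑ a ∈ t, ‖T.comp (pr (s a))‖ := by
  induction t using Finset.induction_on generalizing u with
  | empty =>
    have h1 : T.comp (pr u) = 0 := by
      refine ext_e fun i => ?_
      show T (pr u (e i)) = 0
      rw [pr_e_notMem fun hi => ?_, map_zero]
      obtain ⟨a, ha, _⟩ := hu i hi
      exact absurd ha (Finset.notMem_empty a)
    rw [h1, norm_zero, Finset.sum_empty]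
  | insert b t hb ih =>
    have h1 : T.comp (pr u) = (T.comp (pr (s b))).comp (pr u) + T.comp (pr (u \ s b)) := by
      refine ext_e fun i => ?_
      show T (pr u (e i)) = T (pr (s b) (pr u (e i))) + T (pr (u \ s b) (e i))
      by_cases h1 : i ∈ u
      · rw [pr_e_mem h1]
        by_cases h2 : i ∈ s b
        · rw [pr_e_mem h2, pr_e_notMem (fun h3 => h3.2 h2), map_zero, add_zero]
        · rw [pr_e_notMem h2, pr_e_mem (show i ∈ u \ s b from ⟨h1, h2⟩), map_zero, zero_add]
      · rw [pr_e_notMem h1, pr_e_notMem (fun h3 => h1 h3.1), map_zero, map_zero, map_zero, add_zero]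
    rw [h1, Finset.sum_insert hb]
    refine (norm_add_le _ _).trans (add_le_add ?_ (ih (u \ s b) ?_))
    · refine (ContinuousLinearMap.opNorm_comp_le _ _).trans ?_
      exact mul_le_of_le_one_right (norm_nonneg _) (norm_pr_le u)
    · intro x hx
      obtain ⟨a, ha, hxa⟩ := hu x hx.1
      rcases Finset.mem_insert.1 ha with rfl | ha
      · exact absurd hxa hx.2
      · exact ⟨a, ha, hxa⟩

end OE
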