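import Mathlib
import Pool.Agent.Work.MP_06ef15_an.BE

/-!
# The algebra of MP_06ef15_an: all definitions

See /team-store/06ef15_helper37.md.  Everything acts on `H Idx = ℓ²(Idx)`, `Idx = W × Q`, `W` = words in the letters
`Lam = T × ℤ`, `Q = V × ℤ × M`.
-/

set_option autoImplicit false

open scoped ComplexConjugate InnerProductSpace Classical
open ContinuousLinearMap (adjoint)

namespace OE

/-! ## The group `V` -/

/-- `V`: elements `(a, b, c) = ∑ a_i p_i + ∑ b_i q_i + c v0`. -/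
abbrev V : Type := (ℕ →₀ ZMod 9) × (ℕ →₀ ZMod 9) × ZMod 3

/-- `c ↦ 3 c`. -/
def tri (c : ZMod 3) : ZMod 9 := 3 * (c.val : ZMod 9)

/-- the sum of the `a`-coordinates. -/
def sumA (v : V) : ZMod 9 := v.1.sum (fun _ a => a)

/-- the cocycle exponent. -/
def bf (u v : V) : ZMod 9 := (u.1.sum (fun i a => a * v.2.1 i)) + tri u.2.2 * sumA v

/-- the symplectic form. -/
def om (u v : V) : ZMod 9 := bf u v - bf v u

/-- exponent of the character `chi`. -/
def xf (v : V) : ZMod 9 := sumA v - tri v.2.2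

/-- the standard character of `ZMod 9`. -/
noncomputable def ch (z : ZMod 9) : ℂ := ZMod.stdAddChar z

/-- `e^{2πi/9}`. -/
noncomputable def kap : ℂ := ch 1

/-- `e^{2πi/3}`. -/
noncomputable def lam : ℂ := ch 3

noncomputable def chi (v : V) : ℂ := ch (xf v)

noncomputable def pp (i : ℕ) : V := (Finsupp.single i 1, 0, 0)
noncomputable def qq (i : ℕ) : V := (0, Finsupp.single i 1, 0)
def v0 : V := (0, 0, 1)

/-- finite subgroup: support below `M`. -/
def VF (M : ℕ) : AddSubgroup V where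
  carrier := {v | ∀ i, M ≤ i → v.1 i = 0 ∧ v.2.1 i = 0}
  zero_mem' := by intro i _; simp
  add_mem' := by
    intro a b ha hb i hi
    obtain ⟨h1, h2⟩ := ha i hi
    obtain ⟨h3, h4⟩ := hb i hi
    constructor
    · show (a.1 + b.1) i = 0
      simp [h1, h3]
    · show (a.2.1 + b.2.1) i = 0
      simp [h2, h4]
  neg_mem' := by
    intro a ha i hi
    obtain ⟨h1, h2⟩ := ha i hi
    constructor
    · show (-a.1) i = 0
      simp [h1]
    · show (-a.2.1) i = 0
      simp [h2]

/-- the part of `VF M` without `v0`. -/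
def VL (M : ℕ) : AddSubgroup V where
  carrier := {v | v ∈ VF M ∧ v.2.2 = 0}
  zero_mem' := ⟨(VF M).zero_mem, rfl⟩
  add_mem' := by
    intro a b ha hb
    refine ⟨(VF M).add_mem ha.1 hb.1, ?_⟩
    show a.2.2 + b.2.2 = 0
    rw [ha.2, hb.2, add_zero]
  neg_mem' := by
    intro a ha
    refine ⟨(VF M).neg_mem ha.1, ?_⟩
    show -a.2.2 = 0
    rw [ha.2, neg_zero]

/-- `VF M` as a finite set (see `mem_VFin`). -/
noncomputable def VFin (M : ℕ) : Finset V :=
  if h : ((VF M : AddSubgroup V) : Set V).Finite then h.toFinset else ∅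

/-- `VL M` as a finite set. -/
noncomputable def VLFin (M : ℕ) : Finset V :=
  if h : ((VL M : AddSubgroup V) : Set V).Finite then h.toFinset else ∅

/-- the tail elements: `xf w = 0` and `w` is orthogonal to `VL k`. -/
def IsV1 (k : ℕ) (w : V) : Prop := xf w = 0 ∧ ∀ s ∈ VL k, om w s = 0

/-! ## Letters, words, the set `M` -/

/-- letter types: `inl i` semicircular, `inr true = c`, `inr false = d`. -/
abbrev T : Type := ℕ ⊕ Bool

def bar : T → T
  | Sum.inl i => Sum.inl i
  | Sum.inr b => Sum.inr (!b)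

/-- degree of a letter type. -/
def dg1 : T → ZMod 9
  | Sum.inl _ => 0
  | Sum.inr true => 1
  | Sum.inr false => -1

abbrev Lam : Type := T × ℤ

def barL (a : Lam) : Lam := (bar a.1, a.2)

abbrev W : Type := List Lam

/-- degree of a word. -/
def dgw (w : W) : ZMod 9 := (w.map (fun a => dg1 a.1)).sum

/-- the involution of words. -/
def ws (w : W) : W := (w.map barL).reverse

/-- shift of all labels. -/
def sh (n : ℤ) (w : W) : W := w.map (fun a => (a.1, a.2 + n))

abbrev M : Type := ℕ ⊕ (ℕ × ℤ)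

def sM (b : Bool) : M → M
  | Sum.inl m => Sum.inl (Nat.bit b m)
  | Sum.inr p => Sum.inr (Nat.bit b p.1, p.2 + 1)

def hd : M → Bool
  | Sum.inl m => m.bodd
  | Sum.inr p => p.1.bodd

def tl : M → M
  | Sum.inl m => Sum.inl m.div2
  | Sum.inr p => Sum.inr (p.1.div2, p.2 - 1)

/-- the first `j` digits. -/
def dig : ℕ → M → List Bool
  | 0, _ => []
  | (j + 1), m => hd m :: dig j (tl m)

/-- action of words in `{1,2}` (`true = 1`). -/
def actM (μ : List Bool) (m : M) : M := μ.foldr sM m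

/-- number of ones. -/
def nn (μ : List Bool) : ℤ := ((μ.count true : ℕ) : ℤ)

def bn (b : Bool) : ℤ := if b then 1 else 0

/-- the base point `m_1 = (0,0)`. -/
def m1 : M := Sum.inr (0, 0)

abbrev Q : Type := V × ℤ × M

abbrev Idx : Type := W × Q

/-- the operators on the big Hilbert space. -/
abbrev BH : Type := H Idx →L[ℂ] H Idx

/-! ## Generators -/

/-- creation part of `Y t k`. -/
noncomputable def Yc (t : T) (k : ℤ) : BH :=
  wp (fun x : Idx => some ((t, k - x.2.2.1) :: x.1, x.2)) (fun x => ch (xf x.2.1 * dg1 t))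

/-- annihilation part of `Y t k`: remove the first letter if it is `(bar t, k - n)`. -/
noncomputable def Ya (t : T) (k : ℤ) : BH :=
  wp (fun x : Idx => match x.1 with
    | [] => none
    | a :: w => if a = (bar t, k - x.2.2.1) then some (w, x.2) else none) (fun x => ch (xf x.2.1 * dg1 t))

noncomputable def Y (t : T) (k : ℤ) : BH := Yc t k + Ya t k

/-- semicircular elements. -/
noncomputable def X (i : ℕ) : BH := Y (Sum.inl i) 0

/-- circular element. -/
noncomputable def Cc : BH := Y (Sum.inr true) 0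

noncomputable def g (u : V) : BH := wp (fun x : Idx => some (x.1, (u + x.2.1, x.2.2))) (fun x => ch (bf u x.2.1))

noncomputable def Sg (b : Bool) : BH :=
  wp (fun x : Idx => some (x.1, (x.2.1, (x.2.2.1 + bn b, sM b x.2.2.2)))) (fun _ => 1)

/-- `S_μ`. -/
noncomputable def Sw (μ : List Bool) : BH := (μ.map Sg).prod

/-- product of letters. -/
noncomputable def Yw (y : List (T × ℤ)) : BH := (y.map (fun a => Y a.1 a.2)).prod

/-- normal words. -/
noncomputable def Nw (y : List (T × ℤ)) (v : V) (μ ν : List Bool) : BH := Yw y * g v * Sw μ * star (Sw ν)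

/-- the generators. -/
def gens : Set BH := {x | (∃ t k, x = Y t k) ∨ (∃ u, x = g u) ∨ (∃ b, x = Sg b)}

/-- the C*-algebra. -/
noncomputable def A : StarSubalgebra ℂ BH := (StarAlgebra.adjoin ℂ gens).topologicalClosure

/-! ## Symmetries -/

/-- right action of letters. -/
noncomputable def R (t : T) (k : ℤ) : BH :=
  wp (fun x : Idx => some (x.1 ++ [(t, k)], x.2)) (fun _ => 1) +
  wp (fun x : Idx => if x.1.getLast? = some (bar t, k) then some (x.1.dropLast, x.2) else none) (fun _ => 1)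

/-- translation. -/
noncomputable def Ut : BH := re (fun x : Idx => (sh (-1) x.1, (x.2.1, (x.2.2.1 + 1, x.2.2.2))))

noncomputable def gr (u : V) : BH :=
  wp (fun x : Idx => some (x.1, (x.2.1 + u, x.2.2))) (fun x => ch (bf x.2.1 u + xf u * dgw x.1))

noncomputable def Dchi : BH := dg (fun x : Idx => chi x.2.1)

/-- the character `rho` of section 11. -/
noncomputable def rhov (v : V) : ℂ := ch (om (-pp 0) v + xf v)

noncomputable def Drho : BH := dg (fun x : Idx => rhov x.2.1)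

def sB : Set Idx := {x | x.1 = [] ∧ x.2.2.1 = 0}
def sV : Set Idx := {x | x.1 = [] ∧ x.2.2.1 = 0 ∧ x.2.2.2 = Sum.inl 0}

noncomputable def PB : BH := pr sB
noncomputable def PV : BH := pr sV

/-! ## Anti-automorphisms, norm central sequences -/

/-- a *-anti-automorphism of `A`. -/
structure Anti where
  f : A →ₗ[ℂ] A
  g : A →ₗ[ℂ] A
  fg : ∀ a, f (g a) = a
  gf : ∀ a, g (f a) = a
  map_mul : ∀ a b, f (a * b) = f b * f a
  map_star : ∀ a, f (star a) = star (f a)

/-- norm central sequences. -/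
def NC (x : ℕ → A) : Prop :=
  ∀ a : A, Filter.Tendsto (fun n => ‖x n * a - a * x n‖) Filter.atTop (nhds 0)

/-! ## Words: creation, Wick words -/

/-- creation of a word on `ℓ²(W)`. -/
noncomputable def Lw (u : W) : H W →L[ℂ] H W := re (fun x : W => u ++ x)

noncomputable def YY (a : Lam) : H W →L[ℂ] H W := Lw [a] + adjoint (Lw [barL a])

/-- Wick word. -/
noncomputable def Wk (w : W) : H W →L[ℂ] H W :=
  ∑ j ∈ Finset.range (w.length + 1), (Lw (w.take j)).comp (adjoint (Lw (ws (w.drop j))))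

/-- Wick word on the big space (acting on the word coordinate only, no phases, no shift). -/
noncomputable def Wh (w : W) : BH := amp Q (Wk w)

/-- matrix unit on the `Q`-coordinate. -/
noncomputable def Eu (p q : Q) : BH :=
  wp (fun x : Idx => if x.2 = q then some (x.1, p) else none) (fun _ => 1)

/-- projection onto `ℓ²(W × s)`. -/
noncomputable def Pi (s : Finset Q) : BH := pr {x : Idx | x.2 ∈ s}

/-! ## The bimodule space `HH` -/

abbrev HH : Type := H (Idx × Q)

noncomputable def lamb (x : BH) : HH →L[ℂ] HH := amp Q x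

/-- the flip. -/
noncomputable def Fl : HH →L[ℂ] HH := re (fun x : Idx × Q => ((ws x.1.1, x.2), x.1.2))

noncomputable def rho (x : BH) : HH →L[ℂ] HH := Fl * amp Q (trp x) * Fl

/-- the vector `∑_{q ∈ s} e(([],q),q)`. -/
noncomputable def oneh (s : Finset Q) : HH := ∑ q ∈ s, e ((([], q), q) : Idx × Q)

/-- the generating elements `amp(Wk w) E_pq`. -/
noncomputable def WE (w : W) (p q : Q) : BH := Wh w * Eu p q

def ccGens (s : Finset Q) : Set BH := {x | ∃ w, ∃ p ∈ s, ∃ q ∈ s, x = WE w p q}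

noncomputable def CC (s : Finset Q) : StarSubalgebra ℂ BH := (StarAlgebra.adjoin ℂ (ccGens s)).topologicalClosure

noncomputable def A0 (s : Finset Q) : Submodule ℂ BH := (Submodule.span ℂ (ccGens s)).topologicalClosure

/-! ## The splitting isometry -/

/-- weights: `f w q j`. -/
structure IsWeight (f : W → ℤ → ℕ → ℝ) : Prop where
  nonneg : ∀ w q j, 0 ≤ f w q j
  zero : ∀ w q j, w.length < j → f w q j = 0
  sum : ∀ w q, ∑ j ∈ Finset.range (w.length + 1), f w q j ^ 2 = 1

/-- the splitting operator `Z` with finite subgroup `VF k`, length `L`, weight `f`. -/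
noncomputable def Zop (k L : ℕ) (f : W → ℤ → ℕ → ℝ) : H Idx →L[ℂ] H (Idx × Idx) :=
  mk (fun x : Idx => ∑ v' ∈ VFin k, ∑ j1 ∈ Finset.range L, ∑ j ∈ Finset.range (x.1.length + 1),
    ((((VFin k).card : ℝ) ^ (-(1 / 2 : ℝ)) * (L : ℝ) ^ (-(1 / 2 : ℝ)) *
        f x.1 (x.2.2.1 - nn (dig j1 x.2.2.2)) j : ℝ) : ℂ) •
    (ch (-bf v' (x.2.1 - v') - xf (x.2.1 - v') * dgw (x.1.take j)) •
      e (((sh (x.2.2.1 - nn (dig j1 x.2.2.2)) (x.1.take j), (v', (nn (dig j1 x.2.2.2), actM (dig j1 x.2.2.2) m1))),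
         (x.1.drop j, (x.2.1 - v', (x.2.2.1 - nn (dig j1 x.2.2.2), tl^[j1] x.2.2.2)))) : Idx × Idx)))

/-- the `c`-weights. -/
noncomputable def fc (c : ℝ) (w : W) (_ : ℤ) (j : ℕ) : ℝ :=
  if j < w.length then c ^ j * Real.sqrt (1 - c ^ 2) else if j = w.length then c ^ j else 0

/-- window letters (label `l`, shift `q`): type small and `|l + q| ≤ K`. -/
def win (K : ℕ) (q : ℤ) (a : Lam) : Prop :=
  (match a.1 with
    | Sum.inl i => i < K
    | Sum.inr _ => True) ∧ |a.2 + q| ≤ (K : ℤ)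

/-- length of the longest window prefix. -/
noncomputable def pw (K : ℕ) (q : ℤ) (w : W) : ℕ := (w.takeWhile (fun a => decide (win K q a))).length

/-- the window weights. -/
noncomputable def fw (K M0 : ℕ) (w : W) (q : ℤ) (j : ℕ) : ℝ :=
  if j < min (pw K q w) M0 then (M0 : ℝ) ^ (-(1 / 2 : ℝ))
  else if j = pw K q w ∧ pw K q w < M0 then Real.sqrt (((M0 : ℝ) - (pw K q w : ℝ)) / (M0 : ℝ)) else 0

/-- the near-diagonal set `E_K` of section 9. -/
def EK (K : ℕ) : Set (Idx × Q) :=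
  {x | |x.1.2.2.1 - x.2.2.1| ≤ (K : ℤ) ∧ x.1.1.length ≤ K ∧ ∀ a ∈ x.1.1, win K x.1.2.2.1 a}

/-- the finite index set of section 8: `{(v, n_μ, μ(m_1)) : v ∈ VF k, |μ| < L}`. -/
noncomputable def QQ (k L : ℕ) : Finset Q :=
  (VFin k ×ˢ ((Finset.range L).biUnion (fun j => (Finset.univ : Finset (Fin j → Bool)).image List.ofFn))).image
    (fun p => (p.1, (nn p.2, actM p.2 m1)))

/-- the smoothing map. -/
noncomputable def Sc (k L : ℕ) (c : ℝ) (x : BH) : BH :=
  (adjoint (Zop k L (fc c))).comp ((amp Idx x).comp (Zop k L (fc c)))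

/-- Wick words inside `A`. -/
noncomputable def Wt : List (T × ℤ) → BH
  | [] => 1
  | [a] => Y a.1 a.2
  | a :: b :: w => Y a.1 a.2 * Wt (b :: w) - (if b = (bar a.1, a.2) then Wt w else 0)

/-! ## The small space `ℓ²(V)` -/

noncomputable def lg (u : V) : H V →L[ℂ] H V := wp (fun v => some (u + v)) (fun v => ch (bf u v))
noncomputable def rg (u : V) : H V →L[ℂ] H V := wp (fun v => some (v + u)) (fun v => ch (bf v u))
noncomputable def Dx : H V →L[ℂ] H V := dg chi

/-- finite combination of `lg`'s. -/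
noncomputable def lgc (c : V →₀ ℂ) : H V →L[ℂ] H V := c.sum (fun s z => z • lg s)

/-- the data produced by sections 11-13 and refuted in sections 14-15. -/
structure EndData (ε : ℝ) where
  k : ℕ
  ρ : V → (H V →L[ℂ] H V)
  Z : ℕ → (H V →L[ℂ] H V)
  ρ_mul : ∀ s t, ρ s * ρ t = ch (bf s t) • ρ (s + t)
  ρ_unitary : ∀ s, star (ρ s) * ρ s = 1 ∧ ρ s * star (ρ s) = 1
  ρ_comm : ∀ s u, ρ s * rg u = rg u * ρ s
  ρ_V1 : ∀ w, IsV1 k w → ρ w = lg w
  ρ_v0 : ‖ρ v0 - lg v0‖ ≤ ε
  Z_comm : ∀ N u, Z N * rg u = rg u * Z N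
  Z_norm : ∀ N, ‖Z N‖ ≤ 1
  Z_iso : ∀ N, ‖star (Z N) * Z N - 1‖ ≤ ε
  Z_coiso : ∀ N, ‖Z N * star (Z N) - 1‖ ≤ ε
  Z_Dx : ∀ N, ‖Dx * Z N - Z N * Dx‖ ≤ ε
  Z_ρ : ∀ c : V →₀ ℂ, ∀ᶠ N in Filter.atTop,
    ‖Z N * lgc c * star (Z N) - c.sum (fun s z => z • ρ s)‖ ≤ ε * ‖lgc c‖
  Z_Z : ∀ N, ∀ᶠ N' in Filter.atTop, ‖Z N' * Z N - conj kap • (Z N * Z N')‖ ≤ ε

end OE
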