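import Mathlib
import Pool.Agent.Work.MP_06ef15_an.Defs

/-!
# The group `V`, the character `ch`, the forms `bf`, `om`, the subgroups `VF`, `VL`, `V1`

All statements are elementary (finite supports, `ZMod 9`, `ZMod 3`, `decide`).
`om_nondeg`: `om v (qq i) = v.1 i`, `om v (pp i) = - v.2.1 i + tri v.2.2`; at `i = M` the last one gives `tri c = 0`.
`sum_ch_om`: sum of a non-trivial character over a finite group is `0` (nontrivial by `om_nondeg`).
`commutant_V1`: `p_i - p_j` and `q_i` are in `V1 k` for `i, j ≥ k`.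
-/

set_option autoImplicit false

open scoped ComplexConjugate InnerProductSpace Classical

namespace OE

theorem ch_zero : ch 0 = 1 := AddChar.map_zero_eq_one _
theorem ch_add (a b : ZMod 9) : ch (a + b) = ch a * ch b := AddChar.map_add_eq_mul _ _ _
theorem ch_neg (a : ZMod 9) : ch (-a) = conj (ch a) := AddChar.map_neg_eq_conj _ _
theorem ch_sub (a b : ZMod 9) : ch (a - b) = ch a * conj (ch b) := by rw [sub_eq_add_neg, ch_add, ch_neg]
theorem norm_ch (a : ZMod 9) : ‖ch a‖ = 1 := AddChar.norm_apply _ _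
theorem norm_ch_le (a : ZMod 9) : ‖ch a‖ ≤ 1 := (norm_ch a).le
theorem ch_ne_zero (a : ZMod 9) : ch a ≠ 0 := by
  intro h
  have := norm_ch a
  rw [h, norm_zero] at this
  exact zero_ne_one this
theorem ch_mul_conj (a : ZMod 9) : ch a * conj (ch a) = 1 := by rw [← ch_neg, ← ch_add, add_neg_cancel, ch_zero]
theorem conj_mul_ch (a : ZMod 9) : conj (ch a) * ch a = 1 := by rw [mul_comm, ch_mul_conj]
theorem ch_injective : Function.Injective ch := ZMod.injective_stdAddChar
theorem ch_eq_one_iff (a : ZMod 9) : ch a = 1 ↔ a = 0 := by rw [← ch_zero, ch_injective.eq_iff]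
theorem ch_nsmul (n : ℕ) (a : ZMod 9) : ch (n • a) = ch a ^ n := AddChar.map_nsmul_eq_pow _ _ _
theorem lam_eq : lam = kap ^ 3 := by
  rw [lam, kap, ← ch_nsmul]
  rfl
theorem lam_pow : lam ^ 3 = 1 := by
  rw [lam, ← ch_nsmul]
  exact ch_zero
theorem kap_pow : kap ^ 9 = 1 := by
  rw [kap, ← ch_nsmul]
  exact ch_zero
theorem norm_kap : ‖kap‖ = 1 := norm_ch _
theorem norm_lam : ‖lam‖ = 1 := norm_ch _
theorem norm_conj_lam_sub_one : ‖conj lam - 1‖ ^ 2 = 3 := by
  have h1 : lam * conj lam = 1 := ch_mul_conj 3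
  have h2 : lam ^ 3 = 1 := lam_pow
  have h3 : lam ≠ 1 := by
    intro h
    have := (ch_eq_one_iff 3).1 h
    exact absurd this (by decide)
  have h4 : 1 + lam + lam ^ 2 = 0 := by
    have h5 : (lam - 1) * (1 + lam + lam ^ 2) = 0 := by linear_combination h2
    exact (mul_eq_zero.1 h5).resolve_left (sub_ne_zero.2 h3)
  have h6 : conj lam = lam ^ 2 := by
    have : conj lam = lam ^ 3 * conj lam := by rw [h2, one_mul]
    rw [this]
    linear_combination lam ^ 2 * h1
  have h7 : ((‖conj lam - 1‖ ^ 2 : ℝ) : ℂ) = 3 := by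
    rw [Complex.ofReal_pow, ← Complex.mul_conj', map_sub, map_one, Complex.conj_conj, h6]
    linear_combination h2 - h4
  exact_mod_cast h7
theorem norm_conj_lam_sub_lam : ‖conj lam - lam‖ ^ 2 = 3 := by
  have h1 : lam * conj lam = 1 := ch_mul_conj 3
  have h2 : lam ^ 3 = 1 := lam_pow
  have h3 : lam ≠ 1 := by
    intro h
    have := (ch_eq_one_iff 3).1 h
    exact absurd this (by decide)
  have h4 : 1 + lam + lam ^ 2 = 0 := by
    have h5 : (lam - 1) * (1 + lam + lam ^ 2) = 0 := by linear_combination h2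
    exact (mul_eq_zero.1 h5).resolve_left (sub_ne_zero.2 h3)
  have h6 : conj lam = lam ^ 2 := by
    have : conj lam = lam ^ 3 * conj lam := by rw [h2, one_mul]
    rw [this]
    linear_combination lam ^ 2 * h1
  have h7 : ((‖conj lam - lam‖ ^ 2 : ℝ) : ℂ) = 3 := by
    rw [Complex.ofReal_pow, ← Complex.mul_conj', map_sub, Complex.conj_conj, h6]
    linear_combination (2 - lam) * h2 - h4
  exact_mod_cast h7

theorem tri_zero : tri 0 = 0 := by decide
theorem tri_add (a b : ZMod 3) : tri (a + b) = tri a + tri b := by revert a b; decide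
theorem tri_neg (a : ZMod 3) : tri (-a) = -tri a := by revert a; decide
theorem tri_one : tri 1 = 3 := by decide
theorem three_mul_tri (a : ZMod 3) : 3 * tri a = 0 := by revert a; decide
theorem tri_eq_zero_iff (a : ZMod 3) : tri a = 0 ↔ a = 0 := by revert a; decide

theorem sumA_add (u v : V) : sumA (u + v) = sumA u + sumA v := Finsupp.sum_add_index' (fun _ => rfl) (fun _ _ _ => rfl)
theorem sumA_zero : sumA 0 = 0 := Finsupp.sum_zero_index
theorem sumA_neg (u : V) : sumA (-u) = -sumA u := by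
  have h := sumA_add (-u) u
  rw [neg_add_cancel, sumA_zero] at h
  exact eq_neg_of_add_eq_zero_left h.symm
theorem bf_add_left (u u' v : V) : bf (u + u') v = bf u v + bf u' v := by
  have h1 : (u + u').1.sum (fun i a => a * v.2.1 i) =
      u.1.sum (fun i a => a * v.2.1 i) + u'.1.sum (fun i a => a * v.2.1 i) :=
    Finsupp.sum_add_index' (fun _ => zero_mul _) (fun _ _ _ => add_mul _ _ _)
  have h2 : (u + u').2.2 = u.2.2 + u'.2.2 := rfl
  rw [bf, bf, bf, h1, h2, tri_add]
  ring
theorem bf_add_right (u v v' : V) : bf u (v + v') = bf u v + bf u v' := by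
  have h1 : u.1.sum (fun i a => a * (v + v').2.1 i) =
      u.1.sum (fun i a => a * v.2.1 i) + u.1.sum (fun i a => a * v'.2.1 i) := by
    rw [← Finsupp.sum_add]
    refine Finsupp.sum_congr fun i _ => ?_
    rw [← mul_add]
    rfl
  rw [bf, bf, bf, h1, sumA_add]
  ring
theorem bf_zero_left (v : V) : bf 0 v = 0 := by
  have h := bf_add_left 0 0 v
  rw [add_zero] at h
  exact left_eq_add.1 h
theorem bf_zero_right (v : V) : bf v 0 = 0 := by
  have h := bf_add_right v 0 0
  rw [add_zero] at h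
  exact left_eq_add.1 h
theorem bf_neg_left (u v : V) : bf (-u) v = -bf u v := by
  have h := bf_add_left (-u) u v
  rw [neg_add_cancel, bf_zero_left] at h
  exact eq_neg_of_add_eq_zero_left h.symm
theorem bf_neg_right (u v : V) : bf u (-v) = -bf u v := by
  have h := bf_add_right u (-v) v
  rw [neg_add_cancel, bf_zero_right] at h
  exact eq_neg_of_add_eq_zero_left h.symm
theorem bf_sub_left (u u' v : V) : bf (u - u') v = bf u v - bf u' v := by rw [sub_eq_add_neg, bf_add_left, bf_neg_left, ← sub_eq_add_neg]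
theorem bf_sub_right (u v v' : V) : bf u (v - v') = bf u v - bf u v' := by rw [sub_eq_add_neg, bf_add_right, bf_neg_right, ← sub_eq_add_neg]
theorem om_add_left (u u' v : V) : om (u + u') v = om u v + om u' v := by rw [om, om, om, bf_add_left, bf_add_right]; ring
theorem om_add_right (u v v' : V) : om u (v + v') = om u v + om u v' := by rw [om, om, om, bf_add_left, bf_add_right]; ring
theorem om_neg_left (u v : V) : om (-u) v = -om u v := by rw [om, om, bf_neg_left, bf_neg_right]; ring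
theorem om_neg_right (u v : V) : om u (-v) = -om u v := by rw [om, om, bf_neg_left, bf_neg_right]; ring
theorem om_self (u : V) : om u u = 0 := sub_self _
theorem om_swap (u v : V) : om u v = -om v u := by rw [om, om]; ring
theorem om_zero_left (v : V) : om 0 v = 0 := by rw [om, bf_zero_left, bf_zero_right, sub_zero]
theorem om_zero_right (v : V) : om v 0 = 0 := by rw [om, bf_zero_left, bf_zero_right, sub_zero]
theorem xf_add (u v : V) : xf (u + v) = xf u + xf v := by
  have h2 : (u + v).2.2 = u.2.2 + v.2.2 := rfl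
  rw [xf, xf, xf, sumA_add, h2, tri_add]; ring
theorem xf_zero : xf 0 = 0 := by
  have h := xf_add 0 0
  rw [add_zero] at h
  exact left_eq_add.1 h
theorem xf_neg (u : V) : xf (-u) = -xf u := by
  have h := xf_add (-u) u
  rw [neg_add_cancel, xf_zero] at h
  exact eq_neg_of_add_eq_zero_left h.symm
theorem xf_sub (u v : V) : xf (u - v) = xf u - xf v := by rw [sub_eq_add_neg, xf_add, xf_neg, ← sub_eq_add_neg]

theorem bf_pp_pp (i j : ℕ) : bf (pp i) (pp j) = 0 := by
  have h1 : tri (pp i).2.2 = 0 := tri_zero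
  rw [bf, h1, zero_mul, add_zero]
  simp [pp]
theorem bf_pp_qq (i j : ℕ) : bf (pp i) (qq j) = if i = j then 1 else 0 := by
  have h1 : tri (pp i).2.2 = 0 := tri_zero
  rw [bf, h1, zero_mul, add_zero]
  show (Finsupp.single i (1 : ZMod 9)).sum (fun i' a => a * (Finsupp.single j (1 : ZMod 9)) i') = _
  rw [Finsupp.sum_single_index (zero_mul _), one_mul, Finsupp.single_apply]
  by_cases h : i = j
  · rw [if_pos h.symm, if_pos h]
  · rw [if_neg (fun h' => h h'.symm), if_neg h]
theorem bf_qq_left (i : ℕ) (v : V) : bf (qq i) v = 0 := by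
  have h1 : tri (qq i).2.2 = 0 := tri_zero
  rw [bf, h1, zero_mul, add_zero]
  exact Finsupp.sum_zero_index
theorem bf_v0_left (v : V) : bf v0 v = 3 * sumA v := by
  have h1 : tri v0.2.2 = 3 := tri_one
  rw [bf, h1]
  have h2 : v0.1.sum (fun i a => a * v.2.1 i) = 0 := Finsupp.sum_zero_index
  rw [h2, zero_add]
theorem bf_v0_right (v : V) : bf v v0 = 0 := by
  have h1 : sumA v0 = 0 := Finsupp.sum_zero_index
  rw [bf, h1, mul_zero, add_zero]
  exact Finset.sum_eq_zero fun i _ => mul_zero _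
theorem bf_pp_left (i : ℕ) (v : V) : bf (pp i) v = v.2.1 i := by
  have h1 : tri (pp i).2.2 = 0 := tri_zero
  rw [bf, h1, zero_mul, add_zero]
  show (Finsupp.single i (1 : ZMod 9)).sum (fun i' a => a * v.2.1 i') = _
  rw [Finsupp.sum_single_index (zero_mul _), one_mul]
theorem bf_pp_right (i : ℕ) (v : V) : bf v (pp i) = tri v.2.2 := by
  have h1 : sumA (pp i) = 1 := Finsupp.sum_single_index rfl
  have h2 : v.1.sum (fun i' a => a * (pp i).2.1 i') = 0 :=
    Finset.sum_eq_zero fun i _ => mul_zero _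
  rw [bf, h1, h2, mul_one, zero_add]
theorem bf_qq_right (i : ℕ) (v : V) : bf v (qq i) = v.1 i := by
  have h1 : sumA (qq i) = 0 := Finsupp.sum_zero_index
  have h2 : v.1.sum (fun i' a => a * (qq i).2.1 i') = v.1 i := by
    show v.1.sum (fun i' a => a * (Finsupp.single i (1 : ZMod 9)) i') = v.1 i
    rw [Finsupp.sum, Finset.sum_eq_single i]
    · rw [Finsupp.single_eq_same, mul_one]
    · intro j _ hj
      rw [Finsupp.single_apply, if_neg (fun h => hj h.symm), mul_zero]
    · intro h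
      rw [Finsupp.notMem_support_iff.1 h, zero_mul]
  rw [bf, h1, h2, mul_zero, add_zero]
theorem xf_pp (i : ℕ) : xf (pp i) = 1 := by
  have h1 : sumA (pp i) = 1 := Finsupp.sum_single_index rfl
  have h2 : tri (pp i).2.2 = 0 := tri_zero
  rw [xf, h1, h2, sub_zero]
theorem xf_qq (i : ℕ) : xf (qq i) = 0 := by
  have h1 : sumA (qq i) = 0 := Finsupp.sum_zero_index
  have h2 : tri (qq i).2.2 = 0 := tri_zero
  rw [xf, h1, h2, sub_zero]
theorem xf_v0 : xf v0 = -3 := by
  have h1 : sumA v0 = 0 := Finsupp.sum_zero_index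
  have h2 : tri v0.2.2 = 3 := tri_one
  rw [xf, h1, h2, zero_sub]
theorem om_qq_right (i : ℕ) (v : V) : om v (qq i) = v.1 i := by rw [om, bf_qq_right, bf_qq_left, sub_zero]
theorem om_pp_right (i : ℕ) (v : V) : om v (pp i) = -v.2.1 i + tri v.2.2 := by rw [om, bf_pp_right, bf_pp_left]; ring
theorem om_v0_left (v : V) : om v0 v = 3 * xf v := by
  rw [om, bf_v0_left, bf_v0_right, xf]
  linear_combination three_mul_tri v.2.2
theorem om_v0_pp (i : ℕ) : om v0 (pp i) = 3 := by rw [om_v0_left, xf_pp, mul_one]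
theorem nine_nsmul (v : V) : 9 • v = 0 := by
  have h9 : ∀ a : ZMod 9, 9 • a = 0 := by decide
  have h3 : ∀ a : ZMod 3, 9 • a = 0 := by decide
  refine Prod.ext ?_ (Prod.ext ?_ ?_)
  · ext i
    exact h9 _
  · ext i
    exact h9 _
  · exact h3 _

theorem mem_VF {M : ℕ} {v : V} : v ∈ VF M ↔ ∀ i, M ≤ i → v.1 i = 0 ∧ v.2.1 i = 0 := Iff.rfl
theorem mem_VL {M : ℕ} {v : V} : v ∈ VL M ↔ v ∈ VF M ∧ v.2.2 = 0 := Iff.rfl
theorem finite_VF (M : ℕ) : ((VF M : AddSubgroup V) : Set V).Finite := by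
  have hinj : Function.Injective (fun v : (VF M : AddSubgroup V) =>
      ((fun i : Fin M => v.1.1 i, fun i : Fin M => v.1.2.1 i, v.1.2.2) :
        (Fin M → ZMod 9) × (Fin M → ZMod 9) × ZMod 3)) := by
    intro a b hab
    simp only [Prod.mk.injEq] at hab
    obtain ⟨h1, h2, h3⟩ := hab
    apply Subtype.ext
    refine Prod.ext ?_ (Prod.ext ?_ h3)
    · ext i
      by_cases hi : i < M
      · exact congrFun h1 ⟨i, hi⟩
      · rw [(a.2 i (not_lt.1 hi)).1, (b.2 i (not_lt.1 hi)).1]
    · ext i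
      by_cases hi : i < M
      · exact congrFun h2 ⟨i, hi⟩
      · rw [(a.2 i (not_lt.1 hi)).2, (b.2 i (not_lt.1 hi)).2]
  have := Finite.of_injective _ hinj
  exact Set.toFinite _
theorem mem_VFin {M : ℕ} {v : V} : v ∈ VFin M ↔ v ∈ VF M := by
  rw [VFin, dif_pos (finite_VF M), Set.Finite.mem_toFinset]
  exact Iff.rfl
theorem mem_VLFin {M : ℕ} {v : V} : v ∈ VLFin M ↔ v ∈ VL M := by
  have hf : ((VL M : AddSubgroup V) : Set V).Finite := (finite_VF M).subset fun v hv => hv.1
  rw [VLFin, dif_pos hf, Set.Finite.mem_toFinset]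
  exact Iff.rfl
theorem VF_mono {M M' : ℕ} (h : M ≤ M') {v : V} (hv : v ∈ VF M) : v ∈ VF M' := fun i hi => hv i (h.trans hi)
theorem VL_mono {M M' : ℕ} (h : M ≤ M') {v : V} (hv : v ∈ VL M) : v ∈ VL M' := ⟨VF_mono h hv.1, hv.2⟩
theorem exists_mem_VF (v : V) : ∃ M, v ∈ VF M := by
  refine ⟨(v.1.support ∪ v.2.1.support).sup id + 1, fun i hi => ⟨?_, ?_⟩⟩
  · by_contra hne
    have h1 : i ∈ v.1.support ∪ v.2.1.support :=
      Finset.mem_union_left _ (Finsupp.mem_support_iff.2 hne)
    have h2 : i ≤ (v.1.support ∪ v.2.1.support).sup id := Finset.le_sup (f := id) h1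
    omega
  · by_contra hne
    have h1 : i ∈ v.1.support ∪ v.2.1.support :=
      Finset.mem_union_right _ (Finsupp.mem_support_iff.2 hne)
    have h2 : i ≤ (v.1.support ∪ v.2.1.support).sup id := Finset.le_sup (f := id) h1
    omega
theorem card_VFin_pos (M : ℕ) : 0 < (VFin M).card := Finset.card_pos.2 ⟨0, mem_VFin.2 (VF M).zero_mem⟩
theorem card_VLFin_pos (M : ℕ) : 0 < (VLFin M).card := Finset.card_pos.2 ⟨0, mem_VLFin.2 (VL M).zero_mem⟩
theorem pp_mem_VL {i M : ℕ} (h : i < M) : pp i ∈ VL M := by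
  refine ⟨fun j hj => ⟨?_, rfl⟩, rfl⟩
  show (Finsupp.single i (1 : ZMod 9)) j = 0
  rw [Finsupp.single_apply, if_neg (by omega)]
theorem qq_mem_VL {i M : ℕ} (h : i < M) : qq i ∈ VL M := by
  refine ⟨fun j hj => ⟨rfl, ?_⟩, rfl⟩
  show (Finsupp.single i (1 : ZMod 9)) j = 0
  rw [Finsupp.single_apply, if_neg (by omega)]
theorem v0_mem_VF (M : ℕ) : v0 ∈ VF M := fun _ _ => ⟨rfl, rfl⟩

theorem om_nondeg {M : ℕ} {v : V} (hv : v ∈ VF M) (h : ∀ s ∈ VL (M + 1), om v s = 0) : v = 0 := by
  have h1 : ∀ i, v.1 i = 0 := by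
    intro i
    by_cases hi : i < M + 1
    · have := h _ (qq_mem_VL hi)
      rwa [om_qq_right] at this
    · exact (hv i (by omega)).1
  have h2 : tri v.2.2 = 0 := by
    have h3 := h _ (pp_mem_VL (Nat.lt_succ_self M))
    rw [om_pp_right, (hv M le_rfl).2, neg_zero, zero_add] at h3
    exact h3
  have h4 : ∀ i, v.2.1 i = 0 := by
    intro i
    by_cases hi : i < M + 1
    · have := h _ (pp_mem_VL hi)
      rw [om_pp_right, h2, add_zero, neg_eq_zero] at this
      exact this
    · exact (hv i (by omega)).2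
  refine Prod.ext (Finsupp.ext h1) (Prod.ext (Finsupp.ext h4) ?_)
  exact (tri_eq_zero_iff _).1 h2

theorem sum_ch_om {M : ℕ} {v : V} (hv : v ∈ VF M) :
    ∑ u ∈ VLFin (M + 1), ch (om v u) = if v = 0 then ((VLFin (M + 1)).card : ℂ) else 0 := by
  split_ifs with h0
  · subst h0
    simp only [om_zero_left, ch_zero, Finset.sum_const, nsmul_eq_mul, mul_one]
  · have hex : ∃ s ∈ VL (M + 1), om v s ≠ 0 := by
      by_contra hno
      push Not at hno
      exact h0 (om_nondeg hv hno)
    obtain ⟨s, hs, hsn⟩ := hex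
    have h1 : ∑ u ∈ VLFin (M + 1), ch (om v (u + s)) = ∑ u ∈ VLFin (M + 1), ch (om v u) := by
      refine Finset.sum_bij (fun u _ => u + s) ?_ ?_ ?_ ?_
      · intro u hu
        exact mem_VLFin.2 ((VL (M + 1)).add_mem (mem_VLFin.1 hu) hs)
      · intro u _ u' _ h
        exact add_right_cancel h
      · intro u hu
        refine ⟨u - s, mem_VLFin.2 ((VL (M + 1)).sub_mem (mem_VLFin.1 hu) hs), ?_⟩
        exact sub_add_cancel u s
      · intro u _
        rfl
    simp only [om_add_right, ch_add] at h1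
    rw [← Finset.sum_mul] at h1
    have h2 : (∑ u ∈ VLFin (M + 1), ch (om v u)) * (ch (om v s) - 1) = 0 := by
      rw [mul_sub, h1, mul_one, sub_self]
    refine (mul_eq_zero.1 h2).resolve_right (sub_ne_zero.2 ?_)
    rw [Ne, ch_eq_one_iff]
    exact hsn

theorem isV1_zero (k : ℕ) : IsV1 k 0 := ⟨xf_zero, fun s _ => om_zero_left s⟩
theorem isV1_add {k : ℕ} {u v : V} (hu : IsV1 k u) (hv : IsV1 k v) : IsV1 k (u + v) := ⟨by rw [xf_add, hu.1, hv.1, add_zero], fun s hs => by rw [om_add_left, hu.2 s hs, hv.2 s hs, add_zero]⟩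
theorem isV1_neg {k : ℕ} {u : V} (hu : IsV1 k u) : IsV1 k (-u) := ⟨by rw [xf_neg, hu.1, neg_zero], fun s hs => by rw [om_neg_left, hu.2 s hs, neg_zero]⟩
theorem isV1_om_VF {k : ℕ} {u s : V} (hu : IsV1 k u) (hs : s ∈ VF k) : om u s = 0 := by
  have h1 : s = ((s.1, s.2.1, 0) : V) + (0, 0, s.2.2) := by
    refine Prod.ext ?_ (Prod.ext ?_ ?_)
    · exact (add_zero _).symm
    · exact (add_zero _).symm
    · exact (zero_add _).symm
  have h2 : om u ((s.1, s.2.1, 0) : V) = 0 := hu.2 _ ⟨hs, rfl⟩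
  have h3 : bf u ((0, 0, s.2.2) : V) = 0 := by
    have h4 : sumA ((0, 0, s.2.2) : V) = 0 := Finsupp.sum_zero_index
    rw [bf, h4, mul_zero, add_zero]
    exact Finset.sum_eq_zero fun i _ => mul_zero _
  have h5 : bf ((0, 0, s.2.2) : V) u = tri s.2.2 * sumA u := by
    have h6 : ((0, 0, s.2.2) : V).1.sum (fun i a => a * u.2.1 i) = 0 := Finsupp.sum_zero_index
    rw [bf, h6, zero_add]
  have h7 : sumA u = tri u.2.2 := by
    have := hu.1
    rw [xf, sub_eq_zero] at this
    exact this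
  have h8 : ∀ a b : ZMod 3, tri a * tri b = 0 := by decide
  rw [h1, om_add_right, h2, zero_add, om, h3, h5, h7, h8, sub_zero]
theorem isV1_mono {k k' : ℕ} (h : k ≤ k') {u : V} (hu : IsV1 k' u) : IsV1 k u := ⟨hu.1, fun s hs => hu.2 s (VL_mono h hs)⟩
theorem isV1_qq {k i : ℕ} (h : k ≤ i) : IsV1 k (qq i) := by
  refine ⟨xf_qq i, fun s hs => ?_⟩
  rw [om_swap, om_qq_right, (hs.1 i h).1, neg_zero]
theorem isV1_pp_sub {k i j : ℕ} (hi : k ≤ i) (hj : k ≤ j) : IsV1 k (pp i - pp j) := by
  refine ⟨by rw [xf_sub, xf_pp, xf_pp, sub_self], fun s hs => ?_⟩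
  rw [sub_eq_add_neg, om_add_left, om_neg_left, om_swap (pp i), om_swap (pp j), om_pp_right,
    om_pp_right, (hs.1 i hi).2, (hs.1 j hj).2]
  ring
theorem commutant_V1 {k : ℕ} {s : V} (h : ∀ w, IsV1 k w → om s w = 0) : s ∈ VF k := by
  obtain ⟨M, hM⟩ := exists_mem_VF s
  intro i hi
  constructor
  · have := h _ (isV1_qq hi)
    rwa [om_qq_right] at this
  · have h1 := h _ (isV1_pp_sub hi (le_max_right M k : k ≤ max M k))
    rw [sub_eq_add_neg, om_add_right, om_neg_right, om_pp_right, om_pp_right,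
      (hM (max M k) (le_max_left _ _)).2] at h1
    linear_combination -h1

/-- `V` is countable. -/
theorem countable_V : Countable V := inferInstance

end OE
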