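import Mathlib
import Pool.Agent.Work.MP_06ef15_an.CA

/-!
# Letters, words, the set `M` and digits
-/

set_option autoImplicit false

open scoped ComplexConjugate InnerProductSpace Classical

namespace OE

theorem bar_bar (t : T) : bar (bar t) = t := by
  rcases t with i | b
  · rfl
  · simp [bar]
theorem barL_barL (a : Lam) : barL (barL a) = a := by
  simp [barL, bar_bar]
theorem barL_eq_iff (a b : Lam) : barL a = b ↔ a = barL b := by
  constructor
  · rintro rfl
    rw [barL_barL]
  · rintro rfl
    rw [barL_barL]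
theorem bar_eq_iff (s t : T) : bar s = t ↔ s = bar t := by
  constructor
  · rintro rfl
    rw [bar_bar]
  · rintro rfl
    rw [bar_bar]
theorem dg1_bar (t : T) : dg1 (bar t) = -dg1 t := by
  rcases t with i | b
  · simp [bar, dg1]
  · cases b <;> simp [bar, dg1]
theorem dgw_nil : dgw [] = 0 := rfl
theorem dgw_cons (a : Lam) (w : W) : dgw (a :: w) = dg1 a.1 + dgw w := by
  simp [dgw]
theorem dgw_append (u w : W) : dgw (u ++ w) = dgw u + dgw w := by
  simp [dgw]
theorem dgw_ws (w : W) : dgw (ws w) = -dgw w := by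
  induction w with
  | nil => simp [dgw, ws]
  | cons a w ih =>
    have h : ws (a :: w) = ws w ++ [barL a] := by simp [ws]
    rw [h, dgw_append, ih, dgw_cons, dgw_cons, dgw_nil]
    show _ + (dg1 (bar a.1) + 0) = _
    rw [dg1_bar]
    ring
theorem dgw_sh (n : ℤ) (w : W) : dgw (sh n w) = dgw w := by
  simp [dgw, sh, Function.comp_def]
theorem ws_nil : ws [] = [] := rfl
theorem ws_cons (a : Lam) (w : W) : ws (a :: w) = ws w ++ [barL a] := by simp [ws]
theorem ws_append (u w : W) : ws (u ++ w) = ws w ++ ws u := by simp [ws]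
theorem ws_ws (w : W) : ws (ws w) = w := by
  induction w with
  | nil => rfl
  | cons a w ih =>
    rw [ws_cons, ws_append, ih, ws_cons, ws_nil, barL_barL]
    rfl
theorem ws_injective : Function.Injective ws := by
  intro u w h
  rw [← ws_ws u, h, ws_ws]
theorem length_ws (w : W) : (ws w).length = w.length := by simp [ws]
theorem ws_sh (n : ℤ) (w : W) : ws (sh n w) = sh n (ws w) := by
  simp [ws, sh, Function.comp_def, barL]
theorem ws_take (w : W) (j : ℕ) : ws (w.take j) = (ws w).drop (w.length - j) := by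
  unfold ws
  rw [List.map_take, List.reverse_take, List.length_map]
theorem ws_drop (w : W) (j : ℕ) (h : j ≤ w.length) : ws (w.drop j) = (ws w).take (w.length - j) := by
  unfold ws
  rw [List.map_drop, List.reverse_drop, List.length_map]
theorem sh_nil (n : ℤ) : sh n [] = [] := rfl
theorem sh_cons (n : ℤ) (a : Lam) (w : W) : sh n (a :: w) = (a.1, a.2 + n) :: sh n w := rfl
theorem sh_append (n : ℤ) (u w : W) : sh n (u ++ w) = sh n u ++ sh n w := by simp [sh]
theorem sh_zero (w : W) : sh 0 w = w := by simp [sh]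
theorem sh_sh (m n : ℤ) (w : W) : sh m (sh n w) = sh (n + m) w := by
  simp [sh, Function.comp_def, add_assoc]
theorem sh_injective (n : ℤ) : Function.Injective (sh n) := by
  intro u w h
  have h1 : sh (-n) (sh n u) = sh (-n) (sh n w) := by rw [h]
  rwa [sh_sh, sh_sh, add_neg_cancel, sh_zero, sh_zero] at h1
theorem length_sh (n : ℤ) (w : W) : (sh n w).length = w.length := by simp [sh]
theorem sh_take (n : ℤ) (w : W) (j : ℕ) : sh n (w.take j) = (sh n w).take j := by
  unfold sh
  rw [List.map_take]
theorem sh_drop (n : ℤ) (w : W) (j : ℕ) : sh n (w.drop j) = (sh n w).drop j := by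
  unfold sh
  rw [List.map_drop]

theorem hd_sM (b : Bool) (m : M) : hd (sM b m) = b := by
  rcases m with m | p
  · simp only [sM, hd, Nat.bodd_bit]
  · simp only [sM, hd, Nat.bodd_bit]
theorem tl_sM (b : Bool) (m : M) : tl (sM b m) = m := by
  rcases m with m | p
  · simp only [sM, tl, Nat.div2_bit]
  · simp only [sM, tl, Nat.div2_bit, add_sub_cancel_right]
theorem sM_hd_tl (m : M) : sM (hd m) (tl m) = m := by
  rcases m with m | p
  · simp only [sM, tl, hd, Nat.bit_bodd_div2]
  · simp only [sM, tl, hd, Nat.bit_bodd_div2, sub_add_cancel]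
theorem sM_inj (b b' : Bool) (m m' : M) : sM b m = sM b' m' ↔ b = b' ∧ m = m' := by
  constructor
  · intro h
    refine ⟨?_, ?_⟩
    · rw [← hd_sM b m, h, hd_sM]
    · rw [← tl_sM b m, h, tl_sM]
  · rintro ⟨rfl, rfl⟩
    rfl
theorem actM_nil (m : M) : actM [] m = m := rfl
theorem actM_cons (b : Bool) (μ : List Bool) (m : M) : actM (b :: μ) m = sM b (actM μ m) := rfl
theorem actM_append (μ ν : List Bool) (m : M) : actM (μ ++ ν) m = actM μ (actM ν m) := by
  simp [actM, List.foldr_append]
theorem length_dig (j : ℕ) (m : M) : (dig j m).length = j := by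
  induction j generalizing m with
  | zero => rfl
  | succ j ih => rw [dig, List.length_cons, ih]
theorem actM_dig (j : ℕ) (m : M) : actM (dig j m) (tl^[j] m) = m := by
  induction j generalizing m with
  | zero => rfl
  | succ j ih =>
    rw [dig, actM_cons, Function.iterate_succ_apply, ih, sM_hd_tl]
theorem dig_actM (μ : List Bool) (m : M) : dig μ.length (actM μ m) = μ := by
  induction μ with
  | nil => rfl
  | cons b μ ih => rw [List.length_cons, dig, actM_cons, hd_sM, tl_sM, ih]
theorem tl_actM (μ : List Bool) (m : M) : tl^[μ.length] (actM μ m) = m := by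
  induction μ with
  | nil => rfl
  | cons b μ ih => rw [List.length_cons, Function.iterate_succ_apply, actM_cons, tl_sM, ih]
theorem dig_succ_sM (j : ℕ) (b : Bool) (m : M) : dig (j + 1) (sM b m) = b :: dig j m := by
  rw [dig, hd_sM, tl_sM]
theorem tl_succ_sM (j : ℕ) (b : Bool) (m : M) : tl^[j + 1] (sM b m) = tl^[j] m := by
  rw [Function.iterate_succ_apply, tl_sM]
theorem dig_succ (j : ℕ) (m : M) : dig (j + 1) m = hd m :: dig j (tl m) := rfl
theorem dig_zero (m : M) : dig 0 m = [] := rfl
theorem actM_injective (μ : List Bool) : Function.Injective (actM μ) := by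
  intro m m' h
  rw [← tl_actM μ m, h, tl_actM]
theorem nn_nil : nn [] = 0 := rfl
theorem nn_cons (b : Bool) (μ : List Bool) : nn (b :: μ) = bn b + nn μ := by
  cases b
  · simp [nn, bn]
  · simp [nn, bn, add_comm]
theorem nn_append (μ ν : List Bool) : nn (μ ++ ν) = nn μ + nn ν := by
  simp [nn, List.count_append]
theorem nn_nonneg (μ : List Bool) : 0 ≤ nn μ := by
  unfold nn
  positivity
theorem nn_le_length (μ : List Bool) : nn μ ≤ (μ.length : ℤ) := by
  unfold nn
  exact_mod_cast List.count_le_length
theorem bn_true : bn true = 1 := rfl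
theorem bn_false : bn false = 0 := rfl
/-- the `ℤ`-coordinate of `μ(m_1)` is the length of `μ`. -/
theorem actM_m1 (μ : List Bool) : ∃ x : ℕ, actM μ m1 = Sum.inr (x, (μ.length : ℤ)) := by
  induction μ with
  | nil => exact ⟨0, rfl⟩
  | cons b μ ih =>
    obtain ⟨x, hx⟩ := ih
    refine ⟨Nat.bit b x, ?_⟩
    rw [actM_cons, hx]
    simp [sM]
theorem actM_m1_inj {μ ν : List Bool} (h : actM μ m1 = actM ν m1) : μ = ν := by
  obtain ⟨x, hx⟩ := actM_m1 μ
  obtain ⟨y, hy⟩ := actM_m1 ν
  have h1 : μ.length = ν.length := by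
    rw [hx, hy] at h
    have h2 : ((μ.length : ℕ) : ℤ) = ((ν.length : ℕ) : ℤ) := congrArg Prod.snd (Sum.inr_injective h)
    exact_mod_cast h2
  rw [← dig_actM μ m1, h, h1, dig_actM]
theorem m1_eq : sM false (Sum.inr (0, -1)) = m1 := by
  simp [sM, m1]
theorem hd_m1 : hd m1 = false := rfl

theorem countable_Idx : Countable Idx := inferInstance

/-- every index is `(w,(v,(n,m)))`; induction principle for basis vectors is by `rintro ⟨w, v, n, m⟩`. -/
theorem ext_idx {G : Type*} [NormedAddCommGroup G] [NormedSpace ℂ G] {S T' : H Idx →L[ℂ] G}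
    (h : ∀ (w : W) (v : V) (n : ℤ) (m : M), S (e (w, (v, (n, m)))) = T' (e (w, (v, (n, m))))) : S = T' := by
  refine ext_e ?_
  rintro ⟨w, v, n, m⟩
  exact h w v n m

end OE
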