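import Mathlib
import Pool.Agent.Work.MP_06ef15_an.CB

/-!
# The generators and symmetries on basis vectors; adjoints; norms

Everything by `wp_e`, `adj_of_coef`, `ext_idx`.
-/

set_option autoImplicit false

open scoped ComplexConjugate InnerProductSpace Classical
open ContinuousLinearMap (adjoint)

namespace OE

variable (t t' : T) (k k' : ℤ) (w : W) (v u : V) (n : ℤ) (m : M)

private theorem ch_c (a : ZMod 9) : ‖ch a‖ ≤ 1 := norm_ch_le a

private theorem pinj_Yc : PInj (fun x : Idx => some (((t, k - x.2.2.1) :: x.1, x.2) : Idx)) := by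
  intro i i' j h h'
  simp only [Option.some.injEq] at h h'
  rw [← h'] at h
  simp only [Prod.mk.injEq, List.cons.injEq] at h
  exact Prod.ext h.1.2 h.2

private noncomputable def fa (t : T) (k : ℤ) (x : Idx) : Option Idx := match x.1 with
    | [] => none
    | a :: w => if a = (bar t, k - x.2.2.1) then some (w, x.2) else none

private theorem fa_nil (y : Q) : fa t k ([], y) = none := rfl

private theorem fa_cons (a : Lam) (y : Q) :
    fa t k (a :: w, y) = if a = (bar t, k - y.2.1) then some (w, y) else none := rfl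

private theorem fa_some {x j : Idx} (h : fa t k x = some j) :
    x = ((bar t, k - j.2.2.1) :: j.1, j.2) := by
  obtain ⟨x1, x2⟩ := x
  rcases x1 with _ | ⟨a, w⟩
  · rw [fa_nil] at h
    exact absurd h (by simp)
  · rw [fa_cons] at h
    split_ifs at h with h1
    · simp only [Option.some.injEq] at h
      subst h
      rw [h1]

private theorem pinj_fa : PInj (fa t k) := by
  intro i i' j h h'
  rw [fa_some t k h, fa_some t k h']

private theorem Ya_eq : Ya t k = wp (fa t k) (fun x => ch (xf x.2.1 * dg1 t)) := rfl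

theorem Yc_e : Yc t k (e (w, (v, (n, m)))) = ch (xf v * dg1 t) • e ((t, k - n) :: w, (v, (n, m))) := by
  unfold Yc
  rw [wp_e zero_le_one (pinj_Yc t k) (fun _ => ch_c _)]
  rfl
theorem Ya_e_nil : Ya t k (e (([] : W), (v, (n, m)))) = 0 := by
  rw [Ya_eq, wp_e zero_le_one (pinj_fa t k) (fun _ => ch_c _), fa_nil]
  exact smul_zero _
theorem Ya_e_cons (a : Lam) : Ya t k (e (a :: w, (v, (n, m)))) =
    if a = (bar t, k - n) then ch (xf v * dg1 t) • e (w, (v, (n, m))) else 0 := by
  rw [Ya_eq, wp_e zero_le_one (pinj_fa t k) (fun _ => ch_c _), fa_cons]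
  by_cases h : a = (bar t, k - n)
  · rw [if_pos h, if_pos h]
    rfl
  · rw [if_neg h, if_neg h]
    exact smul_zero _
theorem Y_e_nil : Y t k (e (([] : W), (v, (n, m)))) = ch (xf v * dg1 t) • e ([(t, k - n)], (v, (n, m))) := by
  unfold Y
  rw [add_apply, Yc_e, Ya_e_nil, add_zero]
theorem Y_e_cons (a : Lam) : Y t k (e (a :: w, (v, (n, m)))) =
    ch (xf v * dg1 t) • e ((t, k - n) :: a :: w, (v, (n, m))) +
    (if a = (bar t, k - n) then ch (xf v * dg1 t) • e (w, (v, (n, m))) else 0) := by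
  unfold Y
  rw [add_apply, Yc_e, Ya_e_cons]
theorem norm_Yc_le : ‖Yc t k‖ ≤ 1 := by
  unfold Yc
  exact norm_wp_le zero_le_one (pinj_Yc t k) (fun _ => ch_c _)
theorem norm_Ya_le : ‖Ya t k‖ ≤ 1 := by
  rw [Ya_eq]
  exact norm_wp_le zero_le_one (pinj_fa t k) (fun _ => ch_c _)
theorem norm_Y_le : ‖Y t k‖ ≤ 2 := by
  unfold Y
  refine (norm_add_le _ _).trans ?_
  have h1 := norm_Yc_le t k
  have h2 := norm_Ya_le t k
  linarith
theorem star_Yc : star (Yc t k) = Ya (bar t) k := by
  rw [ContinuousLinearMap.star_eq_adjoint]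
  refine ext_idx fun w v n m => ?_
  unfold Yc
  rcases w with _ | ⟨a, w⟩
  · rw [Ya_e_nil, adj_wp_e_none zero_le_one (pinj_Yc t k) (fun _ => ch_c _)]
    intro i h
    simp at h
  · rw [Ya_e_cons]
    split_ifs with h
    · rw [bar_bar] at h
      subst h
      rw [adj_wp_e_some (i := ((w, (v, (n, m))) : Idx)) zero_le_one (pinj_Yc t k)
        (fun _ => ch_c _) rfl, dg1_bar, mul_neg, ch_neg]
    · refine adj_wp_e_none zero_le_one (pinj_Yc t k) (fun _ => ch_c _) fun i hi => h ?_
      simp only [Option.some.injEq, Prod.mk.injEq, List.cons.injEq] at hi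
      rw [← hi.1.1, hi.2, bar_bar]
theorem star_Ya : star (Ya t k) = Yc (bar t) k := by
  have h := star_Yc (bar t) k
  rw [bar_bar] at h
  rw [← h, star_star]
theorem star_Y : star (Y t k) = Y (bar t) k := by
  unfold Y
  rw [star_add, star_Yc, star_Ya, add_comm]
theorem star_Yc_mul_Yc : star (Yc t k) * Yc t' k' = if t = t' ∧ k = k' then 1 else 0 := by
  rw [star_Yc]
  refine ext_idx fun w v n m => ?_
  rw [mul_apply_eq_comp, Yc_e, map_smul, Ya_e_cons, bar_bar]
  by_cases h : t = t' ∧ k = k'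
  · obtain ⟨rfl, rfl⟩ := h
    rw [if_pos rfl, if_pos ⟨rfl, rfl⟩, smul_smul, dg1_bar, mul_neg, ch_neg, ch_mul_conj, one_smul]
    rfl
  · rw [if_neg h, if_neg, smul_zero]
    · rfl
    · intro h2
      rw [Prod.mk.injEq] at h2
      exact h ⟨h2.1.symm, by have := h2.2; linarith⟩
theorem star_X (i : ℕ) : star (X i) = X i := by
  unfold X
  rw [star_Y]
  rfl
theorem norm_X_le (i : ℕ) : ‖X i‖ ≤ 2 := norm_Y_le _ _
theorem trp_X (i : ℕ) : trp (X i) = X i := by
  have hreal : ∀ x y : Idx, conj ((X i (e x) : Idx → ℂ) y) = (X i (e x) : Idx → ℂ) y := by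
    rintro ⟨w, v, n, m⟩ y
    have h0 : ch (xf v * dg1 (Sum.inl i)) = 1 := by
      have : dg1 (Sum.inl i) = 0 := rfl
      rw [this, mul_zero, ch_zero]
    unfold X
    rcases w with _ | ⟨a, w⟩
    · rw [Y_e_nil, h0, one_smul, e_apply]
      split_ifs <;> simp
    · rw [Y_e_cons, h0, one_smul, one_smul]
      rw [lp.coeFn_add, Pi.add_apply, e_apply, map_add]
      congr 1
      · split_ifs <;> simp
      · by_cases h : a = (bar (Sum.inl i), 0 - n)
        · rw [if_pos h, e_apply]
          split_ifs <;> simp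
        · rw [if_neg h]
          simp
  refine trp_of_coef _ _ fun x y => ?_
  have h1 := adj_coef (X i) x y
  rw [← ContinuousLinearMap.star_eq_adjoint, star_X, hreal] at h1
  exact h1

private theorem pinj_g : PInj (fun x : Idx => some ((x.1, (u + x.2.1, x.2.2)) : Idx)) := by
  intro i i' j h h'
  simp only [Option.some.injEq] at h h'
  rw [← h'] at h
  simp only [Prod.mk.injEq, add_right_inj] at h
  exact Prod.ext h.1 (Prod.ext h.2.1 h.2.2)

theorem g_e : g u (e (w, (v, (n, m)))) = ch (bf u v) • e (w, (u + v, (n, m))) := by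
  unfold g
  rw [wp_e zero_le_one (pinj_g u) (fun _ => ch_c _)]
  rfl
theorem star_g_e : star (g u) (e (w, (v, (n, m)))) = ch (-bf u (v - u)) • e (w, (v - u, (n, m))) := by
  rw [ContinuousLinearMap.star_eq_adjoint]
  unfold g
  rw [adj_wp_e_some (i := ((w, (v - u, (n, m))) : Idx)) zero_le_one (pinj_g u)
        (fun _ => ch_c _) (by simp), ch_neg]
theorem g_mul (u v : V) : g u * g v = ch (bf u v) • g (u + v) := by
  refine ext_idx fun w x n m => ?_
  rw [mul_apply_eq_comp, g_e, map_smul, g_e, smul_apply, g_e,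
    smul_smul, smul_smul, ← ch_add, ← ch_add, add_assoc, bf_add_right, bf_add_left]
  congr 2
  ring
theorem g_zero : g 0 = 1 := by
  refine ext_idx fun w x n m => ?_
  rw [g_e, bf_zero_left, ch_zero, one_smul, zero_add]
  rfl
theorem star_g_mul : star (g u) * g u = 1 := by
  refine ext_idx fun w x n m => ?_
  rw [mul_apply_eq_comp, g_e, map_smul, star_g_e, smul_smul, add_sub_cancel_left,
    ← ch_add, add_neg_cancel, ch_zero, one_smul]
  rfl
theorem g_mul_star : g u * star (g u) = 1 := by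
  refine ext_idx fun w x n m => ?_
  rw [mul_apply_eq_comp, star_g_e, map_smul, g_e, smul_smul, ← ch_add,
    neg_add_cancel, ch_zero, one_smul, add_sub_cancel]
  rfl
theorem star_g : star (g u) = ch (bf u u) • g (-u) := by
  refine ext_idx fun w x n m => ?_
  rw [star_g_e, smul_apply, g_e, smul_smul, ← ch_add, bf_sub_right,
    bf_neg_left, neg_add_eq_sub]
  congr 2
  ring
theorem norm_g_le : ‖g u‖ ≤ 1 := by
  unfold g
  exact norm_wp_le zero_le_one (pinj_g u) (fun _ => ch_c _)

private theorem norm_iso {T : BH} (hT : ‖T‖ ≤ 1) (hT2 : star T * T = 1) (x : H Idx) :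
    ‖T x‖ = ‖x‖ := by
  refine le_antisymm ?_ ?_
  · calc ‖T x‖ ≤ ‖T‖ * ‖x‖ := T.le_opNorm x
      _ ≤ 1 * ‖x‖ := mul_le_mul_of_nonneg_right hT (norm_nonneg _)
      _ = ‖x‖ := one_mul _
  · have h1 : star T (T x) = x := by
      have := congrArg (fun S : BH => S x) hT2
      exact this
    calc ‖x‖ = ‖star T (T x)‖ := by rw [h1]
      _ ≤ ‖star T‖ * ‖T x‖ := (star T).le_opNorm _
      _ ≤ 1 * ‖T x‖ := by
          refine mul_le_mul_of_nonneg_right ?_ (norm_nonneg _)
          rw [ContinuousLinearMap.star_eq_adjoint, LinearIsometryEquiv.norm_map]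
          exact hT
      _ = ‖T x‖ := one_mul _

theorem norm_g_apply (x : H Idx) : ‖g u x‖ = ‖x‖ := norm_iso (norm_g_le u) (star_g_mul u) x
theorem g_conj (u v : V) : g u * g v * star (g u) = ch (om u v) • g v := by
  have h1 : g u * g v = ch (om u v) • (g v * g u) := by
    rw [g_mul, g_mul, smul_smul, ← ch_add, add_comm u v]
    congr 2
    unfold om
    ring
  rw [h1, smul_mul_assoc, mul_assoc, g_mul_star, mul_one]

private theorem pinj_Sg (b : Bool) : PInj (fun x : Idx =>
    some ((x.1, (x.2.1, (x.2.2.1 + bn b, sM b x.2.2.2))) : Idx)) := by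
  intro i i' j h h'
  simp only [Option.some.injEq] at h h'
  rw [← h'] at h
  simp only [Prod.mk.injEq, add_left_inj, sM_inj, true_and] at h
  exact Prod.ext h.1 (Prod.ext h.2.1 (Prod.ext h.2.2.1 h.2.2.2))

private theorem one_c {I : Type} : ∀ _ : I, ‖(1 : ℂ)‖ ≤ 1 := fun _ => by simp

theorem Sg_e (b : Bool) : Sg b (e (w, (v, (n, m)))) = e (w, (v, (n + bn b, sM b m))) := by
  unfold Sg
  rw [wp_e zero_le_one (pinj_Sg b) one_c, one_smul]
  rfl
theorem star_Sg_e (b : Bool) : star (Sg b) (e (w, (v, (n, m)))) =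
    if hd m = b then e (w, (v, (n - bn b, tl m))) else 0 := by
  rw [ContinuousLinearMap.star_eq_adjoint]
  unfold Sg
  split_ifs with h
  · subst h
    rw [adj_wp_e_some (i := ((w, (v, (n - bn (hd m), tl m))) : Idx)) zero_le_one
      (pinj_Sg (hd m)) one_c (by simp [sM_hd_tl]), map_one, one_smul]
  · refine adj_wp_e_none zero_le_one (pinj_Sg b) one_c fun i hi => h ?_
    simp only [Option.some.injEq, Prod.mk.injEq] at hi
    rw [← hi.2.2.2, hd_sM]
theorem norm_Sg_le (b : Bool) : ‖Sg b‖ ≤ 1 := by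
  unfold Sg
  exact norm_wp_le zero_le_one (pinj_Sg b) one_c
theorem Sw_nil : Sw [] = 1 := rfl
theorem Sw_cons (b : Bool) (μ : List Bool) : Sw (b :: μ) = Sg b * Sw μ := by
  simp [Sw]
theorem Sw_append (μ ν : List Bool) : Sw (μ ++ ν) = Sw μ * Sw ν := by
  simp [Sw]
theorem Sw_e (μ : List Bool) : Sw μ (e (w, (v, (n, m)))) = e (w, (v, (n + nn μ, actM μ m))) := by
  induction μ with
  | nil =>
    rw [Sw_nil, nn_nil, add_zero]
    rfl
  | cons b μ ih =>
    rw [Sw_cons, mul_apply_eq_comp, ih, Sg_e, nn_cons, actM_cons, add_assoc,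
      add_comm (nn μ)]
theorem star_Sw_e (μ : List Bool) : star (Sw μ) (e (w, (v, (n, m)))) =
    if dig μ.length m = μ then e (w, (v, (n - nn μ, tl^[μ.length] m))) else 0 := by
  induction μ generalizing n m with
  | nil =>
    rw [Sw_nil, star_one, nn_nil, sub_zero]
    rw [if_pos (show dig ([] : List Bool).length m = [] from rfl)]
    rfl
  | cons b μ ih =>
    rw [Sw_cons, star_mul, mul_apply_eq_comp, star_Sg_e, List.length_cons, dig_succ,
      Function.iterate_succ_apply, nn_cons]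
    by_cases h : hd m = b
    · rw [if_pos h, ih, sub_sub]
      by_cases h2 : dig μ.length (tl m) = μ
      · rw [if_pos h2, if_pos (by rw [h, h2])]
      · rw [if_neg h2, if_neg]
        intro h3
        rw [List.cons.injEq] at h3
        exact h2 h3.2
    · rw [if_neg h, map_zero, if_neg]
      intro h3
      rw [List.cons.injEq] at h3
      exact h h3.1
theorem norm_Sw_le (μ : List Bool) : ‖Sw μ‖ ≤ 1 := by
  induction μ with
  | nil => exact ContinuousLinearMap.norm_id_le
  | cons b μ ih =>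
    rw [Sw_cons]
    refine (norm_mul_le _ _).trans ?_
    calc ‖Sg b‖ * ‖Sw μ‖ ≤ 1 * 1 := mul_le_mul (norm_Sg_le b) ih (norm_nonneg _) zero_le_one
      _ = 1 := one_mul 1
theorem Yw_nil : Yw [] = 1 := rfl
theorem Yw_cons (a : T × ℤ) (y : List (T × ℤ)) : Yw (a :: y) = Y a.1 a.2 * Yw y := by
  simp [Yw]
theorem Yw_append (y z : List (T × ℤ)) : Yw (y ++ z) = Yw y * Yw z := by
  simp [Yw]

private noncomputable def Rc (t : T) (k : ℤ) : BH :=
  wp (fun x : Idx => some (x.1 ++ [(t, k)], x.2)) (fun _ => 1)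

private noncomputable def Ra (t : T) (k : ℤ) : BH :=
  wp (fun x : Idx => if x.1.getLast? = some (bar t, k) then some (x.1.dropLast, x.2) else none)
    (fun _ => 1)

private theorem R_eq : R t k = Rc t k + Ra t k := rfl

private theorem pinj_Rc : PInj (fun x : Idx => some ((x.1 ++ [(t, k)], x.2) : Idx)) := by
  intro i i' j h h'
  simp only [Option.some.injEq] at h h'
  rw [← h'] at h
  simp only [Prod.mk.injEq, List.append_cancel_right_eq] at h
  exact Prod.ext h.1 h.2

private theorem last_some {x : W} {a : Lam} (h : x.getLast? = some a) : x = x.dropLast ++ [a] := by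
  rcases List.eq_nil_or_concat x with h1 | ⟨l, b, h1⟩
  · rw [h1] at h
    simp at h
  · subst h1
    simp at h
    simp [h]

private theorem pinj_Ra : PInj (fun x : Idx =>
    if x.1.getLast? = some (bar t, k) then some ((x.1.dropLast, x.2) : Idx) else none) := by
  intro i i' j h h'
  beta_reduce at h h'
  by_cases h1 : i.1.getLast? = some (bar t, k)
  · by_cases h2 : i'.1.getLast? = some (bar t, k)
    · rw [if_pos h1] at h
      rw [if_pos h2] at h'
      simp only [Option.some.injEq] at h h'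
      rw [← h'] at h
      simp only [Prod.mk.injEq] at h
      refine Prod.ext ?_ h.2
      rw [last_some h1, last_some h2, h.1]
    · rw [if_neg h2] at h'
      exact absurd h' (by simp)
  · rw [if_neg h1] at h
    exact absurd h (by simp)

private theorem Rc_e : Rc t k (e (w, (v, (n, m)))) = e (w ++ [(t, k)], (v, (n, m))) := by
  unfold Rc
  rw [wp_e zero_le_one (pinj_Rc t k) one_c, one_smul]
  rfl

private theorem Ra_e_nil : Ra t k (e (([] : W), (v, (n, m)))) = 0 := by
  unfold Ra
  rw [wp_e zero_le_one (pinj_Ra t k) one_c, one_smul, if_neg (by simp)]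
  rfl

private theorem Ra_e_concat (a : Lam) : Ra t k (e (w ++ [a], (v, (n, m)))) =
    if a = (bar t, k) then e (w, (v, (n, m))) else 0 := by
  unfold Ra
  rw [wp_e zero_le_one (pinj_Ra t k) one_c, one_smul]
  by_cases h : a = (bar t, k)
  · rw [if_pos h, if_pos (by simp [h])]
    simp [oe]
  · rw [if_neg h, if_neg (by simpa using h)]
    rfl

private theorem star_Rc : star (Rc t k) = Ra (bar t) k := by
  rw [ContinuousLinearMap.star_eq_adjoint]
  refine ext_idx fun w v n m => ?_
  unfold Rc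
  rcases List.eq_nil_or_concat w with h1 | ⟨l, a, h1⟩
  · subst h1
    rw [Ra_e_nil, adj_wp_e_none zero_le_one (pinj_Rc t k) one_c]
    intro i hi
    simp at hi
  · rw [List.concat_eq_append] at h1
    subst h1
    rw [Ra_e_concat, bar_bar]
    split_ifs with h
    · subst h
      rw [adj_wp_e_some (i := ((l, (v, (n, m))) : Idx)) zero_le_one (pinj_Rc t k) one_c rfl,
        map_one, one_smul]
    · refine adj_wp_e_none zero_le_one (pinj_Rc t k) one_c fun i hi => h ?_
      simp only [Option.some.injEq, Prod.mk.injEq] at hi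
      have h3 := (List.append_inj' hi.1 rfl).2
      simpa using h3.symm

theorem R_e_nil : R t k (e (([] : W), (v, (n, m)))) = e ([(t, k)], (v, (n, m))) := by
  rw [R_eq, add_apply, Rc_e, Ra_e_nil, add_zero]
  rfl
theorem R_e_concat (a : Lam) : R t k (e (w ++ [a], (v, (n, m)))) =
    e (w ++ [a] ++ [(t, k)], (v, (n, m))) + (if a = (bar t, k) then e (w, (v, (n, m))) else 0) := by
  rw [R_eq, add_apply, Rc_e, Ra_e_concat]
theorem star_R : star (R t k) = R (bar t) k := by
  have h := star_Rc (bar t) k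
  rw [bar_bar] at h
  rw [R_eq, R_eq, star_add, star_Rc, ← h, star_star, add_comm]
theorem norm_R_le : ‖R t k‖ ≤ 2 := by
  rw [R_eq]
  refine (norm_add_le _ _).trans ?_
  have h1 : ‖Rc t k‖ ≤ 1 := norm_wp_le zero_le_one (pinj_Rc t k) one_c
  have h2 : ‖Ra t k‖ ≤ 1 := norm_wp_le zero_le_one (pinj_Ra t k) one_c
  linarith

private noncomputable def utE : Idx ≃ Idx where
  toFun := fun x : Idx => (sh (-1) x.1, (x.2.1, (x.2.2.1 + 1, x.2.2.2)))
  invFun := fun x : Idx => (sh 1 x.1, (x.2.1, (x.2.2.1 - 1, x.2.2.2)))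
  left_inv := by
    rintro ⟨w, v, n, m⟩
    simp [sh_sh, sh_zero]
  right_inv := by
    rintro ⟨w, v, n, m⟩
    simp [sh_sh, sh_zero]

private theorem Ut_eq : Ut = re (utE : Idx → Idx) := rfl

theorem Ut_e : Ut (e (w, (v, (n, m)))) = e (sh (-1) w, (v, (n + 1, m))) := by
  rw [Ut_eq, re_e utE.injective]
  rfl
theorem star_Ut_e : star Ut (e (w, (v, (n, m)))) = e (sh 1 w, (v, (n - 1, m))) := by
  rw [ContinuousLinearMap.star_eq_adjoint, Ut_eq, adj_re_equiv, re_e utE.symm.injective]
  rfl
theorem star_Ut_mul : star Ut * Ut = 1 := by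
  refine ext_idx fun w v n m => ?_
  rw [mul_apply_eq_comp, Ut_e, star_Ut_e, sh_sh]
  simp [sh_zero]
theorem Ut_mul_star : Ut * star Ut = 1 := by
  refine ext_idx fun w v n m => ?_
  rw [mul_apply_eq_comp, star_Ut_e, Ut_e, sh_sh]
  simp [sh_zero]

private theorem pinj_gr : PInj (fun x : Idx => some ((x.1, (x.2.1 + u, x.2.2)) : Idx)) := by
  intro i i' j h h'
  simp only [Option.some.injEq] at h h'
  rw [← h'] at h
  simp only [Prod.mk.injEq, add_left_inj] at h
  exact Prod.ext h.1 (Prod.ext h.2.1 h.2.2)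

theorem gr_e : gr u (e (w, (v, (n, m)))) = ch (bf v u + xf u * dgw w) • e (w, (v + u, (n, m))) := by
  unfold gr
  rw [wp_e zero_le_one (pinj_gr u) (fun _ => ch_c _)]
  rfl
theorem star_gr_e : star (gr u) (e (w, (v, (n, m)))) =
    ch (-(bf (v - u) u + xf u * dgw w)) • e (w, (v - u, (n, m))) := by
  rw [ContinuousLinearMap.star_eq_adjoint]
  unfold gr
  rw [adj_wp_e_some (i := ((w, (v - u, (n, m))) : Idx)) zero_le_one (pinj_gr u)
        (fun _ => ch_c _) (by simp), ch_neg]
theorem star_gr_mul : star (gr u) * gr u = 1 := by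
  refine ext_idx fun w x n m => ?_
  rw [mul_apply_eq_comp, gr_e, map_smul, star_gr_e, smul_smul, add_sub_cancel_right,
    ← ch_add, add_neg_cancel, ch_zero, one_smul]
  rfl
theorem gr_mul_star : gr u * star (gr u) = 1 := by
  refine ext_idx fun w x n m => ?_
  rw [mul_apply_eq_comp, star_gr_e, map_smul, gr_e, smul_smul, ← ch_add,
    neg_add_cancel, ch_zero, one_smul, sub_add_cancel]
  rfl
theorem norm_gr_le : ‖gr u‖ ≤ 1 := by
  unfold gr
  exact norm_wp_le zero_le_one (pinj_gr u) (fun _ => ch_c _)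

private theorem chi_c {I : Type} (f : I → V) : ∀ i : I, ‖chi (f i)‖ ≤ 1 := fun _ => norm_ch_le _
private theorem rho_c {I : Type} (f : I → V) : ∀ i : I, ‖rhov (f i)‖ ≤ 1 := fun _ => norm_ch_le _

theorem Dchi_e : Dchi (e (w, (v, (n, m)))) = chi v • e (w, (v, (n, m))) := by
  unfold Dchi
  rw [dg_e zero_le_one (chi_c _)]
theorem star_Dchi_e : star Dchi (e (w, (v, (n, m)))) = conj (chi v) • e (w, (v, (n, m))) := by
  have h1 : ∀ i : Idx, ‖chi i.2.1‖ ≤ 1 := fun _ => norm_ch_le _
  have h2 : ∀ i : Idx, ‖conj (chi i.2.1)‖ ≤ 1 := fun i => by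
    rw [RCLike.norm_conj]
    exact h1 i
  rw [ContinuousLinearMap.star_eq_adjoint]
  unfold Dchi
  rw [adj_dg zero_le_one h1, dg_e zero_le_one h2]
theorem Drho_e : Drho (e (w, (v, (n, m)))) = rhov v • e (w, (v, (n, m))) := by
  unfold Drho
  rw [dg_e zero_le_one (rho_c _)]
theorem star_Drho_e : star Drho (e (w, (v, (n, m)))) = conj (rhov v) • e (w, (v, (n, m))) := by
  have h1 : ∀ i : Idx, ‖rhov i.2.1‖ ≤ 1 := fun _ => norm_ch_le _
  have h2 : ∀ i : Idx, ‖conj (rhov i.2.1)‖ ≤ 1 := fun i => by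
    rw [RCLike.norm_conj]
    exact h1 i
  rw [ContinuousLinearMap.star_eq_adjoint]
  unfold Drho
  rw [adj_dg zero_le_one h1, dg_e zero_le_one h2]
theorem star_Dchi_mul : star Dchi * Dchi = 1 := by
  refine ext_idx fun w x n m => ?_
  rw [mul_apply_eq_comp, Dchi_e, map_smul, star_Dchi_e, smul_smul]
  unfold chi
  rw [ch_mul_conj, one_smul]
  rfl
theorem Dchi_mul_star : Dchi * star Dchi = 1 := by
  refine ext_idx fun w x n m => ?_
  rw [mul_apply_eq_comp, star_Dchi_e, map_smul, Dchi_e, smul_smul]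
  unfold chi
  rw [conj_mul_ch, one_smul]
  rfl
theorem star_Drho_mul : star Drho * Drho = 1 := by
  refine ext_idx fun w x n m => ?_
  rw [mul_apply_eq_comp, Drho_e, map_smul, star_Drho_e, smul_smul]
  unfold rhov
  rw [ch_mul_conj, one_smul]
  rfl
theorem Drho_mul_star : Drho * star Drho = 1 := by
  refine ext_idx fun w x n m => ?_
  rw [mul_apply_eq_comp, star_Drho_e, map_smul, Drho_e, smul_smul]
  unfold rhov
  rw [conj_mul_ch, one_smul]
  rfl

theorem PB_e : PB (e (w, (v, (n, m)))) = if w = [] ∧ n = 0 then e (w, (v, (n, m))) else 0 := by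
  unfold PB
  by_cases h : w = [] ∧ n = 0
  · rw [if_pos h, pr_e_mem]
    exact h
  · rw [if_neg h, pr_e_notMem]
    exact h
theorem PV_e : PV (e (w, (v, (n, m)))) = if w = [] ∧ n = 0 ∧ m = Sum.inl 0 then e (w, (v, (n, m))) else 0 := by
  unfold PV
  by_cases h : w = [] ∧ n = 0 ∧ m = Sum.inl 0
  · rw [if_pos h, pr_e_mem]
    exact h
  · rw [if_neg h, pr_e_notMem]
    exact h
theorem star_PB : star PB = PB := star_pr _
theorem star_PV : star PV = PV := star_pr _
theorem PB_idem : PB * PB = PB := pr_idem _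
theorem PV_idem : PV * PV = PV := pr_idem _
private theorem sV_sB : sV ⊆ sB := fun _ hx => ⟨hx.1, hx.2.1⟩
theorem PB_mul_PV : PB * PV = PV := by
  unfold PB PV
  rw [pr_mul_pr, Set.inter_eq_self_of_subset_right sV_sB]
theorem PV_mul_PB : PV * PB = PV := by
  unfold PB PV
  rw [pr_mul_pr, Set.inter_eq_self_of_subset_left sV_sB]
theorem norm_PB_le : ‖PB‖ ≤ 1 := norm_pr_le _
theorem norm_PV_le : ‖PV‖ ≤ 1 := norm_pr_le _

end OE
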