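import Mathlib
import Pool.Agent.Work.MP_06ef15_an.CD

/-!
# Relations (1.1)-(1.7) of /team-store/06ef15_helper37.md

All by `ext_idx` and the formulas of `CD`.  For `R_Y`: check `w = []`, `w = [a]`, `w = a :: (w' ++ [b])`.
-/

set_option autoImplicit false

open scoped ComplexConjugate InnerProductSpace Classical
open ContinuousLinearMap (adjoint)

namespace OE

variable (t t' : T) (k k' : ℤ) (u v : V) (b b' : Bool) (μ ν : List Bool)

private theorem mulE (S S' : BH) (x : H Idx) : (S * S') x = S (S' x) := rfl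
private theorem smulE (c : ℂ) (S : BH) (x : H Idx) : (c • S) x = c • S x := rfl
private theorem addE (S S' : BH) (x : H Idx) : (S + S') x = S x + S' x := rfl
private theorem oneE (x : H Idx) : (1 : BH) x = x := rfl
private theorem zeroE (x : H Idx) : (0 : BH) x = 0 := rfl

theorem star_Sg_mul : star (Sg b) * Sg b' = if b = b' then 1 else 0 := by
  refine ext_idx fun w v n m => ?_
  rw [mulE, Sg_e, star_Sg_e, hd_sM, tl_sM]
  by_cases h : b' = b
  · subst h
    rw [if_pos rfl, if_pos rfl, oneE, add_sub_cancel_right]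
  · rw [if_neg h, if_neg (Ne.symm h), zeroE]

theorem Sg_sum : Sg true * star (Sg true) + Sg false * star (Sg false) = 1 := by
  refine ext_idx fun w v n m => ?_
  rw [addE, mulE, mulE, oneE, star_Sg_e, star_Sg_e]
  have h := sM_hd_tl m
  rcases hb : hd m with _ | _
  · rw [hb] at h
    rw [if_neg (by simp), if_pos rfl, map_zero, zero_add, Sg_e, h, sub_add_cancel]
  · rw [hb] at h
    rw [if_pos rfl, if_neg (by simp), map_zero, add_zero, Sg_e, h, sub_add_cancel]

theorem Y_g : Y t k * g u = ch (xf u * dg1 t) • (g u * Y t k) := by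
  refine ext_idx fun w v n m => ?_
  have e1 : ch (bf u v) * ch (xf (u + v) * dg1 t) =
      ch (xf u * dg1 t) * (ch (xf v * dg1 t) * ch (bf u v)) := by
    rw [xf_add, add_mul, ch_add]
    ring
  rw [smulE, mulE, mulE, g_e, map_smul]
  cases w with
  | nil =>
    rw [Y_e_nil, Y_e_nil, map_smul, g_e]
    simp only [smul_smul]
    rw [e1]
  | cons a w =>
    rw [Y_e_cons, Y_e_cons, map_add, map_smul, g_e]
    by_cases h : a = (bar t, k - n)
    · rw [if_pos h, if_pos h, map_smul, g_e]
      simp only [smul_add, smul_smul]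
      rw [e1]
    · rw [if_neg h, if_neg h, map_zero]
      simp only [smul_add, smul_smul, smul_zero]
      rw [e1]

theorem g_Y : g u * Y t k = ch (-(xf u * dg1 t)) • (Y t k * g u) := by
  rw [Y_g, smul_smul, ← ch_add, neg_add_cancel, ch_zero, one_smul]

theorem Sg_Y : Sg b * Y t k = Y t (k + bn b) * Sg b := by
  refine ext_idx fun w v n m => ?_
  have e1 : k + bn b - (n + bn b) = k - n := add_sub_add_right_eq_sub _ _ _
  rw [mulE, mulE, Sg_e]
  cases w with
  | nil => rw [Y_e_nil, Y_e_nil, map_smul, Sg_e, e1]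
  | cons a w =>
    rw [Y_e_cons, Y_e_cons, map_add, map_smul, Sg_e, e1]
    by_cases h : a = (bar t, k - n)
    · rw [if_pos h, if_pos h, map_smul, Sg_e]
    · rw [if_neg h, if_neg h, map_zero]

theorem star_Sg_Y : star (Sg b) * Y t k = Y t (k - bn b) * star (Sg b) := by
  have h := congrArg star (Sg_Y (bar t) (k - bn b) b)
  rw [star_mul, star_mul, star_Y, star_Y, bar_bar, sub_add_cancel] at h
  exact h.symm

theorem Sg_g : Sg b * g u = g u * Sg b := by
  refine ext_idx fun w v n m => ?_
  rw [mulE, mulE, g_e, map_smul, Sg_e, Sg_e, g_e]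

theorem star_Sg_g : star (Sg b) * g u = g u * star (Sg b) := by
  refine ext_idx fun w v n m => ?_
  rw [mulE, mulE, g_e, map_smul, star_Sg_e, star_Sg_e]
  by_cases h : hd m = b
  · rw [if_pos h, if_pos h, g_e]
  · rw [if_neg h, if_neg h, map_zero, smul_zero]

theorem Sw_Y : Sw μ * Y t k = Y t (k + nn μ) * Sw μ := by
  induction μ with
  | nil => rw [Sw_nil, nn_nil, add_zero, one_mul, mul_one]
  | cons b μ ih =>
    rw [Sw_cons, mul_assoc, ih, ← mul_assoc, Sg_Y, mul_assoc, nn_cons]
    congr 2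
    ring

theorem star_Sw_Y : star (Sw μ) * Y t k = Y t (k - nn μ) * star (Sw μ) := by
  have h := congrArg star (Sw_Y (bar t) (k - nn μ) μ)
  rw [star_mul, star_mul, star_Y, star_Y, bar_bar, sub_add_cancel] at h
  exact h.symm

theorem Sw_g : Sw μ * g u = g u * Sw μ := by
  induction μ with
  | nil => rw [Sw_nil, one_mul, mul_one]
  | cons b μ ih => rw [Sw_cons, mul_assoc, ih, ← mul_assoc, Sg_g, mul_assoc]

theorem star_Sw_g : star (Sw μ) * g u = g u * star (Sw μ) := by
  induction μ with
  | nil => rw [Sw_nil, star_one, one_mul, mul_one]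
  | cons b μ ih => rw [Sw_cons, star_mul, mul_assoc, star_Sg_g, ← mul_assoc, ih, mul_assoc]

theorem star_Sw_mul_self : star (Sw μ) * Sw μ = 1 := by
  induction μ with
  | nil => rw [Sw_nil, star_one, one_mul]
  | cons b μ ih =>
    rw [Sw_cons, star_mul, mul_assoc, ← mul_assoc (star (Sg b)), star_Sg_mul, if_pos rfl, one_mul, ih]

theorem star_Sw_mul_same_length (h : μ.length = ν.length) : star (Sw μ) * Sw ν = if μ = ν then 1 else 0 := by
  induction μ generalizing ν with
  | nil =>
    have h' : ν = [] := List.length_eq_zero_iff.1 (by simpa using h.symm)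
    subst h'
    rw [Sw_nil, star_one, one_mul, if_pos rfl]
  | cons b μ ih =>
    cases ν with
    | nil => simp at h
    | cons b' ν =>
      rw [Sw_cons, Sw_cons, star_mul, mul_assoc, ← mul_assoc (star (Sg b)), star_Sg_mul]
      by_cases hb : b = b'
      · subst hb
        rw [if_pos rfl, one_mul, ih ν (by simpa using h)]
        by_cases hν : μ = ν
        · rw [if_pos hν, if_pos (by rw [hν])]
        · rw [if_neg hν, if_neg (fun h' => hν (List.cons.inj h').2)]
      · rw [if_neg hb, zero_mul, mul_zero, if_neg (fun h' => hb (List.cons.inj h').1)]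

private theorem R_e_cons_concat (w : W) (v : V) (n : ℤ) (m : M) (a b : Lam) :
    R t k (e (a :: (w ++ [b]), (v, (n, m)))) =
      e (a :: (w ++ [b] ++ [(t, k)]), (v, (n, m))) +
        (if b = (bar t, k) then e (a :: w, (v, (n, m))) else 0) :=
  R_e_concat t k (a :: w) v n m b

private theorem R_e_single (v : V) (n : ℤ) (m : M) (b : Lam) :
    R t k (e ([b], (v, (n, m)))) =
      e ([b, (t, k)], (v, (n, m))) + (if b = (bar t, k) then e ([], (v, (n, m))) else 0) :=
  R_e_concat t k [] v n m b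

private theorem R_e_pair (v : V) (n : ℤ) (m : M) (a b : Lam) :
    R t k (e ([a, b], (v, (n, m)))) =
      e ([a, b, (t, k)], (v, (n, m))) + (if b = (bar t, k) then e ([a], (v, (n, m))) else 0) :=
  R_e_concat t k [a] v n m b

private theorem cond_iff (j j' : ℤ) : (t', j') = (bar t, j) ↔ (t, j) = (bar t', j') := by
  rw [Prod.mk.injEq, Prod.mk.injEq]
  constructor
  · rintro ⟨h1, h2⟩
    exact ⟨by rw [h1, bar_bar], h2.symm⟩
  · rintro ⟨h1, h2⟩
    exact ⟨by rw [h1, bar_bar], h2.symm⟩

theorem R_Y : R t k * Y t' k' = Y t' k' * R t k := by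
  refine ext_idx fun w v n m => ?_
  rw [mulE, mulE]
  cases w with
  | nil =>
    rw [Y_e_nil, R_e_nil, map_smul, R_e_single, Y_e_cons, smul_add]
    congr 1
    by_cases h : (t', k' - n) = (bar t, k)
    · rw [if_pos h, if_pos ((cond_iff t t' _ _).1 h)]
    · rw [if_neg h, if_neg (fun h' => h ((cond_iff t t' _ _).2 h')), smul_zero]
  | cons a w =>
    rcases List.eq_nil_or_concat w with rfl | ⟨w, b, rfl⟩
    · rw [Y_e_cons, map_add, map_smul, R_e_pair, R_e_single, map_add, Y_e_cons, smul_add]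
      by_cases h1 : a = (bar t', k' - n)
      · rw [if_pos h1, if_pos h1, map_smul, R_e_nil]
        by_cases h2 : a = (bar t, k)
        · rw [if_pos h2, if_pos h2, Y_e_nil]
          abel
        · rw [if_neg h2, if_neg h2, map_zero, smul_zero]
          abel
      · rw [if_neg h1, if_neg h1, map_zero]
        by_cases h2 : a = (bar t, k)
        · rw [if_pos h2, if_pos h2, Y_e_nil]
          abel
        · rw [if_neg h2, if_neg h2, map_zero, smul_zero]
    · rw [List.concat_eq_append, Y_e_cons, map_add, map_smul, R_e_cons_concat, map_add, Y_e_cons]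
      have h3 : R t k (e ((t', k' - n) :: a :: (w ++ [b]), (v, (n, m)))) =
          e ((t', k' - n) :: a :: (w ++ [b] ++ [(t, k)]), (v, (n, m))) +
          (if b = (bar t, k) then e ((t', k' - n) :: a :: w, (v, (n, m))) else 0) :=
        R_e_concat t k ((t', k' - n) :: a :: w) v n m b
      rw [h3, smul_add]
      by_cases h1 : a = (bar t', k' - n)
      · rw [if_pos h1, if_pos h1, map_smul, R_e_concat]
        by_cases h2 : b = (bar t, k)
        · rw [if_pos h2, if_pos h2, if_pos h2, Y_e_cons, if_pos h1, smul_add]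
          abel
        · rw [if_neg h2, if_neg h2, if_neg h2, map_zero, smul_zero, add_zero, add_zero, add_zero]
      · rw [if_neg h1, if_neg h1, map_zero]
        by_cases h2 : b = (bar t, k)
        · rw [if_pos h2, if_pos h2, Y_e_cons, if_neg h1]
          abel
        · rw [if_neg h2, if_neg h2, map_zero, smul_zero]

theorem R_g : R t k * g u = g u * R t k := by
  refine ext_idx fun w v n m => ?_
  rw [mulE, mulE, g_e, map_smul]
  rcases List.eq_nil_or_concat w with rfl | ⟨w, b, rfl⟩
  · rw [R_e_nil, R_e_nil, g_e]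
  · rw [List.concat_eq_append, R_e_concat, R_e_concat, map_add, g_e, smul_add]
    by_cases h2 : b = (bar t, k)
    · rw [if_pos h2, if_pos h2, g_e]
    · rw [if_neg h2, if_neg h2, map_zero, smul_zero]

theorem R_Sg : R t k * Sg b = Sg b * R t k := by
  refine ext_idx fun w v n m => ?_
  rw [mulE, mulE, Sg_e]
  rcases List.eq_nil_or_concat w with rfl | ⟨w, c, rfl⟩
  · rw [R_e_nil, R_e_nil, Sg_e]
  · rw [List.concat_eq_append, R_e_concat, R_e_concat, map_add, Sg_e]
    by_cases h2 : c = (bar t, k)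
    · rw [if_pos h2, if_pos h2, Sg_e]
    · rw [if_neg h2, if_neg h2, map_zero]

theorem Ut_Y : Ut * Y t k = Y t k * Ut := by
  refine ext_idx fun w v n m => ?_
  have e1 : k - n + -1 = k - (n + 1) := by ring
  rw [mulE, mulE, Ut_e]
  cases w with
  | nil => rw [sh_nil, Y_e_nil, Y_e_nil, map_smul, Ut_e, sh_cons, sh_nil, e1]
  | cons a w =>
    rw [Y_e_cons, map_add, map_smul, Ut_e, sh_cons, sh_cons, Y_e_cons, e1]
    congr 1
    by_cases h : a = (bar t, k - n)
    · rw [if_pos h, if_pos (by rw [h, e1]), map_smul, Ut_e]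
    · rw [if_neg h, if_neg, map_zero]
      intro h'
      apply h
      rw [Prod.mk.injEq] at h'
      refine Prod.ext h'.1 ?_
      have := h'.2
      change a.2 = k - n
      linarith

theorem Ut_g : Ut * g u = g u * Ut := by
  refine ext_idx fun w v n m => ?_
  rw [mulE, mulE, g_e, map_smul, Ut_e, Ut_e, g_e]

theorem Ut_Sg : Ut * Sg b = Sg b * Ut := by
  refine ext_idx fun w v n m => ?_
  rw [mulE, mulE, Sg_e, Ut_e, Ut_e, Sg_e, add_right_comm]

theorem gr_Y : gr u * Y t k = Y t k * gr u := by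
  refine ext_idx fun w v n m => ?_
  rw [mulE, mulE, gr_e, map_smul]
  cases w with
  | nil =>
    rw [Y_e_nil, Y_e_nil, map_smul, gr_e, smul_smul, smul_smul, ← ch_add, ← ch_add, dgw_cons,
      dgw_nil, xf_add]
    congr 2
    ring
  | cons a w =>
    rw [Y_e_cons, Y_e_cons, map_add, map_smul, gr_e, smul_add, smul_smul, smul_smul, ← ch_add,
      ← ch_add, dgw_cons (t, k - n)]
    congr 1
    · rw [xf_add]
      congr 2
      ring
    · by_cases h : a = (bar t, k - n)
      · rw [if_pos h, if_pos h, map_smul, gr_e, smul_smul, smul_smul, ← ch_add, ← ch_add, h,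
          dgw_cons, dg1_bar, xf_add]
        congr 2
        ring
      · rw [if_neg h, if_neg h, map_zero, smul_zero]

theorem gr_g : gr u * g v = g v * gr u := by
  refine ext_idx fun w x n m => ?_
  rw [mulE, mulE, g_e, gr_e, map_smul, map_smul, gr_e, g_e, smul_smul, smul_smul, ← ch_add,
    ← ch_add, add_assoc v x u, bf_add_left, bf_add_right]
  congr 2
  ring

theorem gr_Sg : gr u * Sg b = Sg b * gr u := by
  refine ext_idx fun w x n m => ?_
  rw [mulE, mulE, Sg_e, gr_e, gr_e, map_smul, Sg_e]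

theorem Dchi_Y : Dchi * Y t k = Y t k * Dchi := by
  refine ext_idx fun w v n m => ?_
  rw [mulE, mulE, Dchi_e, map_smul]
  cases w with
  | nil => rw [Y_e_nil, map_smul, Dchi_e, smul_smul, smul_smul, mul_comm]
  | cons a w =>
    rw [Y_e_cons, map_add, map_smul, Dchi_e, smul_add, smul_smul, smul_smul, mul_comm]
    congr 1
    by_cases h : a = (bar t, k - n)
    · rw [if_pos h, map_smul, Dchi_e, smul_smul, smul_smul, mul_comm]
    · rw [if_neg h, map_zero, smul_zero]

theorem Dchi_Sg : Dchi * Sg b = Sg b * Dchi := by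
  refine ext_idx fun w x n m => ?_
  rw [mulE, mulE, Sg_e, Dchi_e, Dchi_e, map_smul, Sg_e]

theorem Dchi_g : Dchi * g u = chi u • (g u * Dchi) := by
  refine ext_idx fun w x n m => ?_
  have h : chi (u + x) = chi u * chi x := by
    unfold chi
    rw [xf_add, ch_add]
  rw [smulE, mulE, mulE, g_e, Dchi_e, map_smul, map_smul, Dchi_e, g_e, h]
  simp only [smul_smul]
  congr 1
  ring

theorem Drho_Y : Drho * Y t k = Y t k * Drho := by
  refine ext_idx fun w v n m => ?_
  rw [mulE, mulE, Drho_e, map_smul]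
  cases w with
  | nil => rw [Y_e_nil, map_smul, Drho_e, smul_smul, smul_smul, mul_comm]
  | cons a w =>
    rw [Y_e_cons, map_add, map_smul, Drho_e, smul_add, smul_smul, smul_smul, mul_comm]
    congr 1
    by_cases h : a = (bar t, k - n)
    · rw [if_pos h, map_smul, Drho_e, smul_smul, smul_smul, mul_comm]
    · rw [if_neg h, map_zero, smul_zero]

theorem Drho_Sg : Drho * Sg b = Sg b * Drho := by
  refine ext_idx fun w x n m => ?_
  rw [mulE, mulE, Sg_e, Drho_e, Drho_e, map_smul, Sg_e]

theorem Drho_g : Drho * g u = rhov u • (g u * Drho) := by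
  refine ext_idx fun w x n m => ?_
  have h : rhov (u + x) = rhov u * rhov x := by
    unfold rhov
    rw [← ch_add, om_add_right, xf_add]
    congr 1
    ring
  rw [smulE, mulE, mulE, g_e, Drho_e, map_smul, map_smul, Drho_e, g_e, h]
  simp only [smul_smul]
  congr 1
  ring

theorem gr_R : gr u * R t k = ch (xf u * dg1 t) • (R t k * gr u) := by
  refine ext_idx fun w v n m => ?_
  rw [smulE, mulE, mulE, gr_e, map_smul]
  rcases List.eq_nil_or_concat w with rfl | ⟨w, a, rfl⟩
  · rw [R_e_nil, R_e_nil, gr_e, smul_smul, ← ch_add, dgw_cons, dgw_nil]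
    congr 2
    ring
  · rw [List.concat_eq_append, R_e_concat, R_e_concat, map_add, gr_e, smul_add, smul_add,
      smul_smul, ← ch_add]
    congr 1
    · rw [dgw_append (w ++ [a]), dgw_cons, dgw_nil]
      congr 2
      ring
    · by_cases h : a = (bar t, k)
      · rw [if_pos h, if_pos h, gr_e, smul_smul, ← ch_add, h, dgw_append, dgw_cons, dgw_nil,
          dg1_bar]
        congr 2
        ring
      · rw [if_neg h, if_neg h, map_zero, smul_zero, smul_zero]

theorem g_PB : g u * PB = PB * g u := by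
  refine ext_idx fun w v n m => ?_
  rw [mulE, mulE, PB_e, g_e, map_smul, PB_e]
  by_cases h : w = [] ∧ n = 0
  · rw [if_pos h, if_pos h, g_e]
  · rw [if_neg h, if_neg h, map_zero, smul_zero]

theorem g_PV : g u * PV = PV * g u := by
  refine ext_idx fun w v n m => ?_
  rw [mulE, mulE, PV_e, g_e, map_smul, PV_e]
  by_cases h : w = [] ∧ n = 0 ∧ m = Sum.inl 0
  · rw [if_pos h, if_pos h, g_e]
  · rw [if_neg h, if_neg h, map_zero, smul_zero]

theorem gr_PB : gr u * PB = PB * gr u := by
  refine ext_idx fun w v n m => ?_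
  rw [mulE, mulE, PB_e, gr_e, map_smul, PB_e]
  by_cases h : w = [] ∧ n = 0
  · rw [if_pos h, if_pos h, gr_e]
  · rw [if_neg h, if_neg h, map_zero, smul_zero]

theorem gr_PV : gr u * PV = PV * gr u := by
  refine ext_idx fun w v n m => ?_
  rw [mulE, mulE, PV_e, gr_e, map_smul, PV_e]
  by_cases h : w = [] ∧ n = 0 ∧ m = Sum.inl 0
  · rw [if_pos h, if_pos h, gr_e]
  · rw [if_neg h, if_neg h, map_zero, smul_zero]

theorem Dchi_PB : Dchi * PB = PB * Dchi := by
  refine ext_idx fun w v n m => ?_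
  rw [mulE, mulE, PB_e, Dchi_e, map_smul, PB_e]
  by_cases h : w = [] ∧ n = 0
  · rw [if_pos h, Dchi_e]
  · rw [if_neg h, map_zero, smul_zero]

theorem Dchi_PV : Dchi * PV = PV * Dchi := by
  refine ext_idx fun w v n m => ?_
  rw [mulE, mulE, PV_e, Dchi_e, map_smul, PV_e]
  by_cases h : w = [] ∧ n = 0 ∧ m = Sum.inl 0
  · rw [if_pos h, Dchi_e]
  · rw [if_neg h, map_zero, smul_zero]

theorem Drho_PB : Drho * PB = PB * Drho := by
  refine ext_idx fun w v n m => ?_
  rw [mulE, mulE, PB_e, Drho_e, map_smul, PB_e]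
  by_cases h : w = [] ∧ n = 0
  · rw [if_pos h, Drho_e]
  · rw [if_neg h, map_zero, smul_zero]

theorem Drho_PV : Drho * PV = PV * Drho := by
  refine ext_idx fun w v n m => ?_
  rw [mulE, mulE, PV_e, Drho_e, map_smul, PV_e]
  by_cases h : w = [] ∧ n = 0 ∧ m = Sum.inl 0
  · rw [if_pos h, Drho_e]
  · rw [if_neg h, map_zero, smul_zero]

/-- `C η = R_{c,0} D_chi η` on `ran P_B`. -/
theorem Cc_PB : Cc * PB = R (Sum.inr true) 0 * Dchi * PB := by
  refine ext_idx fun w v n m => ?_
  rw [mulE, mulE, mulE, PB_e]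
  by_cases h : w = [] ∧ n = 0
  · obtain ⟨rfl, rfl⟩ := h
    rw [if_pos ⟨rfl, rfl⟩, Dchi_e, map_smul, R_e_nil]
    unfold Cc
    rw [Y_e_nil, sub_self]
    have h1 : dg1 (Sum.inr true) = 1 := rfl
    rw [h1, mul_one]
    rfl
  · rw [if_neg h, map_zero, map_zero, map_zero]

theorem X_PB (i : ℕ) : X i * PB = R (Sum.inl i) 0 * PB := by
  refine ext_idx fun w v n m => ?_
  rw [mulE, mulE, PB_e]
  by_cases h : w = [] ∧ n = 0
  · obtain ⟨rfl, rfl⟩ := h
    rw [if_pos ⟨rfl, rfl⟩, R_e_nil]
    unfold X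
    rw [Y_e_nil, sub_self]
    have h1 : dg1 (Sum.inl i) = 0 := rfl
    rw [h1, mul_zero, ch_zero, one_smul]
  · rw [if_neg h, map_zero, map_zero]

private theorem PB_star_R_R_PB : PB * (star (R t k) * (R t k * PB)) = PB := by
  refine ext_idx fun w v n m => ?_
  rw [mulE, mulE, mulE, PB_e, star_R]
  by_cases h : w = [] ∧ n = 0
  · obtain ⟨rfl, rfl⟩ := h
    rw [if_pos ⟨rfl, rfl⟩, R_e_nil, R_e_single, map_add, PB_e, if_neg (by simp), zero_add, bar_bar,
      if_pos rfl, PB_e, if_pos ⟨rfl, rfl⟩]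
  · rw [if_neg h, map_zero, map_zero, map_zero]

/-- `R_{t,k}` is isometric on `ran P_B`. -/
theorem norm_R_PB (x : H Idx) : ‖R t k (PB x)‖ = ‖PB x‖ := by
  have h1 : ⟪R t k (PB x), R t k (PB x)⟫_ℂ = ⟪PB x, PB x⟫_ℂ := by
    have h2 : ⟪R t k (PB x), R t k (PB x)⟫_ℂ = ⟪x, PB (star (R t k) (R t k (PB x)))⟫_ℂ := by
      have h3 : adjoint PB = PB := star_PB
      rw [← h3, ContinuousLinearMap.adjoint_inner_right, h3]
      rw [ContinuousLinearMap.star_eq_adjoint, ContinuousLinearMap.adjoint_inner_right]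
    have h4 : PB (star (R t k) (R t k (PB x))) = PB x :=
      DFunLike.congr_fun (PB_star_R_R_PB t k) x
    have h5 : ⟪PB x, PB x⟫_ℂ = ⟪x, PB x⟫_ℂ := by
      have h3 : adjoint PB = PB := star_PB
      have h6 : PB (PB x) = PB x := DFunLike.congr_fun PB_idem x
      conv_lhs => rw [← ContinuousLinearMap.adjoint_inner_right, h3, h6]
    rw [h2, h4, h5]
  have h7 := congrArg Complex.re h1
  rw [inner_self_eq_norm_sq_to_K, inner_self_eq_norm_sq_to_K] at h7
  have h8 : ‖R t k (PB x)‖ ^ 2 = ‖PB x‖ ^ 2 := by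
    have h9 : ∀ r : ℝ, (((r : ℂ)) ^ 2).re = r ^ 2 := fun r => by
      rw [← Complex.ofReal_pow, Complex.ofReal_re]
    rw [← h9, ← h9]
    exact h7
  exact (sq_eq_sq₀ (norm_nonneg _) (norm_nonneg _)).1 h8

/-- `D_rho = g_{-p_0} gr_{p_0} D_chi` on `ran P_B`. -/
theorem Drho_eq_PB : Drho * PB = g (-pp 0) * gr (pp 0) * Dchi * PB := by
  refine ext_idx fun w v n m => ?_
  rw [mulE, mulE, mulE, mulE, PB_e]
  by_cases h : w = [] ∧ n = 0
  · obtain ⟨rfl, rfl⟩ := h
    rw [if_pos ⟨rfl, rfl⟩, Drho_e, Dchi_e, map_smul, map_smul, gr_e, map_smul, g_e, smul_smul,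
      smul_smul]
    have h1 : -pp 0 + (v + pp 0) = v := by abel
    rw [h1]
    congr 1
    unfold rhov chi
    rw [← ch_add, ← ch_add, dgw_nil, bf_add_right, bf_neg_left, bf_neg_left, bf_pp_pp]
    congr 1
    unfold om
    rw [bf_neg_left, bf_neg_right]
    ring
  · rw [if_neg h, map_zero, map_zero, map_zero, map_zero]

end OE
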