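import Mathlib
import Pool.Agent.Work.MP_06ef15_an.CE

/-!
# End game, definitions (sections 12 and 13 of /team-store/06ef15_helper37.md)

`JV : ℓ²(V) → H`, `e v ↦ e ([], v, 0, 0)`; `cmp x = JV* x JV`; `EgA s` the element `g s` of `A`;
`gcA c = ∑ c_s g_s` in `A`.

`ThetaData`: what section 11 gives.  `PreEnd`: the data `θ' = σ θ σ⁻¹`, `t'_n` with (12.1).  `Mid d`: the data
`θ'' = Ad(t'_m)* ∘ θ'`, `W_N = t'_m* t'_N` with all estimates of (12.2)-(12.4).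
-/

set_option autoImplicit false

open scoped ComplexConjugate InnerProductSpace Classical Topology
open ContinuousLinearMap (adjoint)
open Filter

namespace OE

theorem E_mem_gens {x : BH} (h : x ∈ gens) : x ∈ A :=
  StarSubalgebra.le_topologicalClosure _ (StarAlgebra.subset_adjoin ℂ gens h)

theorem E_mem_Y (t : T) (k : ℤ) : Y t k ∈ A := E_mem_gens (Or.inl ⟨t, k, rfl⟩)
theorem E_mem_g (u : V) : g u ∈ A := E_mem_gens (Or.inr (Or.inl ⟨u, rfl⟩))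

/-- the generators as elements of `A`. -/
noncomputable def EgA (u : V) : A := ⟨g u, E_mem_g u⟩
noncomputable def EXA (i : ℕ) : A := ⟨X i, E_mem_Y _ _⟩
noncomputable def ECA : A := ⟨Cc, E_mem_Y _ _⟩

theorem coe_EgA (u : V) : ((EgA u : A) : BH) = g u := rfl
theorem coe_EXA (i : ℕ) : ((EXA i : A) : BH) = X i := rfl
theorem coe_ECA : ((ECA : A) : BH) = Cc := rfl

/-- `∑ c_s g_s` in `A`. -/
noncomputable def gcA (c : V →₀ ℂ) : A := c.sum (fun s z => z • EgA s)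

/-- `ℓ²(V) → H`, `e v ↦ e ([], v, 0, 0)`. -/
noncomputable def JV : H V →L[ℂ] H Idx := re (fun v : V => (([] : W), (v, ((0 : ℤ), (Sum.inl 0 : M)))))

/-- compression to `ℓ²(V)`. -/
noncomputable def cmp (x : BH) : H V →L[ℂ] H V := (adjoint JV).comp (x.comp JV)

/-- the output of section 11. -/
structure ThetaData where
  th : A →⋆ₐ[ℂ] A
  thi : A →⋆ₐ[ℂ] A
  th_thi : ∀ a, th (thi a) = a
  thi_th : ∀ a, thi (th a) = a
  t : ℕ → A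
  t_unit : ∀ n, star (t n) * t n = 1 ∧ t n * star (t n) = 1
  t_lim : ∀ a : A, Tendsto (fun n => ‖t n * a * star (t n) - th a‖) atTop (𝓝 0)
  th_t : ∀ n, th (t n) = kap • t n
  bound : ∀ (x : A) (d : ℝ), ‖x‖ ≤ 1 → (∀ i < 9, ‖EXA i * x - x * EXA i‖ ≤ d) → ‖ECA * x - x * ECA‖ ≤ d →
    ‖EgA (pp 0) * x - x * EgA (pp 0)‖ ≤ d → ‖((th x : A) : BH) * PB - (x : BH) * PB‖ ≤ 11 * d
  cent : ∀ (a : A) (ε : ℝ), 0 < ε → ∃ k, ∀ w, IsV1 k w → ‖EgA w * a - a * EgA w‖ ≤ ε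

/-- `θ'`, `t'_n` and (12.1). -/
structure PreEnd where
  th : A →⋆ₐ[ℂ] A
  thi : A →⋆ₐ[ℂ] A
  th_thi : ∀ a, th (thi a) = a
  thi_th : ∀ a, thi (th a) = a
  t : ℕ → A
  t_unit : ∀ n, star (t n) * t n = 1 ∧ t n * star (t n) = 1
  t_lim : ∀ a : A, Tendsto (fun n => ‖t n * a * star (t n) - th a‖) atTop (𝓝 0)
  th_t : ∀ n, th (t n) = conj kap • t n
  small : ∀ ε : ℝ, 0 < ε → ∃ k, ∀ w, IsV1 k w → ‖((th (EgA w) : A) : BH) * PV - g w * PV‖ ≤ ε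
  cent : ∀ (a : A) (ε : ℝ), 0 < ε → ∃ k, ∀ w, IsV1 k w → ‖EgA w * a - a * EgA w‖ ≤ ε

/-- `θ''`, `W_N`. -/
structure Mid (d : ℝ) where
  th : A →⋆ₐ[ℂ] A
  W : ℕ → A
  W_unit : ∀ n, star (W n) * W n = 1 ∧ W n * star (W n) = 1
  W_lim : ∀ a : A, Tendsto (fun n => ‖W n * a * star (W n) - th a‖) atTop (𝓝 0)
  inv : ∀ n, ‖(W n : BH) * PV - PV * (W n : BH) * PV‖ ≤ 3 * d
  inv' : ∀ n, ‖star (W n : BH) * PV - PV * star (W n : BH) * PV‖ ≤ 3 * d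
  dchi : ∀ n, ‖Dchi * (PV * (W n : BH) * PV) - (PV * (W n : BH) * PV) * Dchi‖ ≤ 14 * d
  WW : ∀ n, ∀ᶠ n' in atTop, ‖W n' * W n - conj kap • (W n * W n')‖ ≤ 2 * d
  k : ℕ
  V1 : ∀ w, IsV1 k w → ‖((th (EgA w) : A) : BH) * PV - g w * PV‖ ≤ d
  v0 : ‖((th (EgA OE.v0) : A) : BH) - g OE.v0‖ ≤ d

/-- the gap inequality (6.3). -/
def GapV : Prop := ∀ (x : A) (d : ℝ), (∀ i < 9, ‖EXA i * x - x * EXA i‖ ≤ d) →
  ‖(x : BH) * PV - PV * (x : BH) * PV‖ ≤ (3 / 2) * d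

/-- the symmetries commute with `A`. -/
def SymC : Prop := (∀ (a : A) (t : T) (k : ℤ), R t k * (a : BH) = (a : BH) * R t k) ∧
  (∀ (a : A) (u : V), gr u * (a : BH) = (a : BH) * gr u)

/-- Lemma J. -/
def LemJ : Prop := ∀ (σ : Anti) (f : ℕ → A), NC f → (∀ n, 0 ≤ ((f n : A) : BH)) → (∀ n, ((f n : A) : BH) ≤ 1) →
  Tendsto (fun n => ‖((f n : A) : BH) * PB‖) atTop (𝓝 0) →
  Tendsto (fun n => ‖((σ.f (f n) : A) : BH) * PV‖) atTop (𝓝 0)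

/-- anti-automorphisms are isometric. -/
def AntiIso : Prop := ∀ (σ : Anti) (a : A), ‖σ.f a‖ = ‖a‖

end OE
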