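import Mathlib
import Pool.Agent.Work.MP_06ef15_an.CA

/-!
# The operators `lg`, `rg`, `Dx` on `ℓ²(V)`

Everything is checked on the basis vectors `e v` (`ext_e`, `wp_e`, `dg_e`), with the bilinearity of `bf`
(`bf_add_left`, `bf_add_right`), `ch_add`, `xf_add`.

* `lg_e`: `wp_e` with `C = 1`, `PInj` because `u + v = u + v'` gives `v = v'`.
* `star_lg`: `adj_of_coef`, or: `lg (-s) * lg s = ch (bf (-s) s) • 1 = conj (ch (bf s s)) • 1`, so
  `(ch (bf s s) • lg (-s)) * lg s = 1` and likewise on the other side, and `lg s` is isometric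
  (`isometry_of_ortho`: it maps the orthonormal basis to the orthonormal basis up to phases), so `star (lg s) * lg s = 1`
  and hence `star (lg s)` is the two sided inverse.
* `lg_v0`: `bf v0 v = 3 * sumA v = 3 * xf v` (as `3 * tri c = 0`), `bf v v0 = 0`.
-/

set_option autoImplicit false

open scoped ComplexConjugate InnerProductSpace Classical
open ContinuousLinearMap (adjoint)

namespace OE

private theorem pinj_left (u : V) : PInj (fun v : V => some (u + v)) := by
  intro v v' j h h'
  exact add_left_cancel (Option.some_injective _ (h.trans h'.symm))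

private theorem pinj_right (u : V) : PInj (fun v : V => some (v + u)) := by
  intro v v' j h h'
  exact add_right_cancel (Option.some_injective _ (h.trans h'.symm))

theorem lg_e (u v : V) : lg u (e v) = ch (bf u v) • e (u + v) :=
  wp_e zero_le_one (pinj_left u) (fun _ => norm_ch_le _) v

theorem rg_e (u v : V) : rg u (e v) = ch (bf v u) • e (v + u) :=
  wp_e zero_le_one (pinj_right u) (fun _ => norm_ch_le _) v

theorem norm_chi (v : V) : ‖chi v‖ = 1 := norm_ch _

theorem Dx_e (v : V) : Dx (e v) = chi v • e v :=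
  dg_e zero_le_one (fun i => (norm_chi i).le) v

theorem chi_zero : chi 0 = 1 := by
  unfold chi
  rw [xf_zero, ch_zero]

theorem chi_add (u v : V) : chi (u + v) = chi u * chi v := by
  unfold chi
  rw [xf_add, ch_add]

theorem chi_neg (u : V) : chi (-u) = conj (chi u) := by
  unfold chi
  rw [xf_neg, ch_neg]

theorem chi_mul_conj (v : V) : chi v * conj (chi v) = 1 := ch_mul_conj _

theorem conj_mul_chi (v : V) : conj (chi v) * chi v = 1 := conj_mul_ch _

theorem chi_pow_nine (v : V) : chi v ^ 9 = 1 := by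
  unfold chi
  rw [← ch_nsmul, nsmul_eq_mul, show ((9 : ℕ) : ZMod 9) = 0 from by decide, zero_mul, ch_zero]

theorem chi_v0 : chi v0 = conj lam := by
  unfold chi
  rw [xf_v0, ch_neg]
  rfl

theorem chi_of_isV1 {k : ℕ} {w : V} (hw : IsV1 k w) : chi w = 1 := by
  unfold chi
  rw [hw.1, ch_zero]

theorem chi_eq_one_iff (v : V) : chi v = 1 ↔ xf v = 0 := ch_eq_one_iff _

theorem lg_zero : lg 0 = 1 := by
  refine ext_e fun v => ?_
  rw [lg_e, bf_zero_left, ch_zero, one_smul, zero_add]
  rfl

theorem rg_zero : rg 0 = 1 := by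
  refine ext_e fun v => ?_
  rw [rg_e, bf_zero_right, ch_zero, one_smul, add_zero]
  rfl

theorem lg_mul (s t : V) : lg s * lg t = ch (bf s t) • lg (s + t) := by
  refine ext_e fun v => ?_
  show lg s (lg t (e v)) = ch (bf s t) • lg (s + t) (e v)
  rw [lg_e, lg_e, map_smul, lg_e, smul_smul, smul_smul, ← ch_add, ← ch_add, bf_add_left,
    bf_add_right, add_assoc]
  congr 2
  ring

theorem rg_mul (s t : V) : rg s * rg t = ch (bf t s) • rg (s + t) := by
  refine ext_e fun v => ?_
  show rg s (rg t (e v)) = ch (bf t s) • rg (s + t) (e v)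
  rw [rg_e, rg_e, map_smul, rg_e, smul_smul, smul_smul, ← ch_add, ← ch_add, bf_add_left,
    bf_add_right, add_assoc v t s, add_comm t s]
  congr 2
  ring

theorem lg_add (s t : V) : lg (s + t) = conj (ch (bf s t)) • (lg s * lg t) := by
  rw [lg_mul, smul_smul, conj_mul_ch, one_smul]

theorem lg_rg (s u : V) : lg s * rg u = rg u * lg s := by
  refine ext_e fun v => ?_
  show lg s (rg u (e v)) = rg u (lg s (e v))
  rw [rg_e, lg_e, map_smul, map_smul, lg_e, rg_e, smul_smul, smul_smul, ← ch_add, ← ch_add,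
    bf_add_left, bf_add_right, add_assoc]
  congr 2
  ring

private theorem smul_coef (a : ℂ) (x : H V) (i : V) :
    ((a • x : H V) : V → ℂ) i = a * (x : V → ℂ) i := rfl

theorem star_lg (s : V) : star (lg s) = ch (bf s s) • lg (-s) := by
  refine adj_of_coef _ _ fun i j => ?_
  show ((ch (bf s s) • lg (-s) (e j) : H V) : V → ℂ) i = _
  rw [lg_e, lg_e, smul_smul, smul_coef, smul_coef, e_apply, e_apply]
  by_cases h : j = s + i
  · subst h
    rw [if_pos (by abel), if_pos rfl, mul_one, mul_one, ← ch_add, ← ch_neg, bf_neg_left,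
      bf_add_right]
    congr 1
    ring
  · rw [if_neg (fun h2 => h (by rw [h2]; abel)), if_neg h, mul_zero, mul_zero, map_zero]

theorem star_rg (s : V) : star (rg s) = ch (bf s s) • rg (-s) := by
  refine adj_of_coef _ _ fun i j => ?_
  show ((ch (bf s s) • rg (-s) (e j) : H V) : V → ℂ) i = _
  rw [rg_e, rg_e, smul_smul, smul_coef, smul_coef, e_apply, e_apply]
  by_cases h : j = i + s
  · subst h
    rw [if_pos (by abel), if_pos rfl, mul_one, mul_one, ← ch_add, ← ch_neg, bf_neg_right,
      bf_add_left]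
    congr 1
    ring
  · rw [if_neg (fun h2 => h (by rw [h2]; abel)), if_neg h, mul_zero, mul_zero, map_zero]

theorem star_lg_mul (s : V) : star (lg s) * lg s = 1 := by
  rw [star_lg, smul_mul_assoc, lg_mul, smul_smul, ← ch_add, bf_neg_left, neg_add_cancel, lg_zero,
    add_neg_cancel, ch_zero, one_smul]

theorem lg_mul_star (s : V) : lg s * star (lg s) = 1 := by
  rw [star_lg, mul_smul_comm, lg_mul, smul_smul, ← ch_add, bf_neg_right, add_neg_cancel,
    add_neg_cancel, lg_zero, ch_zero, one_smul]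

theorem star_rg_mul (s : V) : star (rg s) * rg s = 1 := by
  rw [star_rg, smul_mul_assoc, rg_mul, smul_smul, ← ch_add, bf_neg_right, neg_add_cancel, rg_zero,
    add_neg_cancel, ch_zero, one_smul]

theorem rg_mul_star (s : V) : rg s * star (rg s) = 1 := by
  rw [star_rg, mul_smul_comm, rg_mul, smul_smul, ← ch_add, bf_neg_left, add_neg_cancel,
    add_neg_cancel, rg_zero, ch_zero, one_smul]

private theorem star_Dx_e (v : V) : star Dx (e v) = conj (chi v) • e v := by
  have h1 : star Dx = dg (fun i : V => conj (chi i)) :=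
    adj_dg zero_le_one (fun i => (norm_chi i).le)
  rw [h1]
  refine dg_e zero_le_one (fun i => ?_) v
  rw [RCLike.norm_conj]
  exact (norm_chi i).le

theorem star_Dx_mul : star Dx * Dx = 1 := by
  refine ext_e fun v => ?_
  show star Dx (Dx (e v)) = e v
  rw [Dx_e, map_smul, star_Dx_e, smul_smul, chi_mul_conj, one_smul]

theorem Dx_mul_star : Dx * star Dx = 1 := by
  refine ext_e fun v => ?_
  show Dx (star Dx (e v)) = e v
  rw [star_Dx_e, map_smul, Dx_e, smul_smul, conj_mul_chi, one_smul]

private theorem norm_apply_of_star {T : H V →L[ℂ] H V} (h : star T * T = 1) (x : H V) :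
    ‖T x‖ = ‖x‖ :=
  (ContinuousLinearMap.norm_map_iff_adjoint_comp_self T).2 h x

private theorem norm_of_apply {T : H V →L[ℂ] H V} (h : ∀ x, ‖T x‖ = ‖x‖) : ‖T‖ = 1 := by
  refine le_antisymm (T.opNorm_le_bound zero_le_one fun x => ?_) ?_
  · rw [h, one_mul]
  · have h1 := T.le_opNorm (e 0)
    rw [h, norm_e, mul_one] at h1
    exact h1

theorem norm_lg_apply (s : V) (x : H V) : ‖lg s x‖ = ‖x‖ := norm_apply_of_star (star_lg_mul s) x

theorem norm_rg_apply (s : V) (x : H V) : ‖rg s x‖ = ‖x‖ := norm_apply_of_star (star_rg_mul s) x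

theorem norm_Dx_apply (x : H V) : ‖Dx x‖ = ‖x‖ := norm_apply_of_star star_Dx_mul x

theorem norm_lg (s : V) : ‖lg s‖ = 1 := norm_of_apply (norm_lg_apply s)

theorem norm_rg (s : V) : ‖rg s‖ = 1 := norm_of_apply (norm_rg_apply s)

theorem norm_Dx_le : ‖Dx‖ ≤ 1 := (norm_of_apply norm_Dx_apply).le

theorem lg_comm (s t : V) : lg s * lg t = ch (om s t) • (lg t * lg s) := by
  rw [lg_mul, lg_mul, smul_smul, ← ch_add, om, sub_add_cancel, add_comm t s]

theorem lg_conj (s t : V) : lg s * lg t * star (lg s) = ch (om s t) • lg t := by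
  rw [lg_comm, smul_mul_assoc, mul_assoc, lg_mul_star, mul_one]

theorem lg_star_conj (s t : V) : lg s * star (lg t) * star (lg s) = ch (om t s) • star (lg t) := by
  have h1 : lg s * star (lg t) * star (lg s) = star (lg s * lg t * star (lg s)) := by
    rw [star_mul, star_mul, star_star, mul_assoc]
  rw [h1, lg_conj, star_smul, om_swap t s, ch_neg]
  rfl

theorem Dx_lg (s : V) : Dx * lg s = chi s • (lg s * Dx) := by
  refine ext_e fun v => ?_
  show Dx (lg s (e v)) = chi s • lg s (Dx (e v))
  rw [lg_e, Dx_e, map_smul, map_smul, Dx_e, lg_e, smul_smul, smul_smul, smul_smul, chi_add]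
  congr 1
  ring

theorem Dx_rg (s : V) : Dx * rg s = chi s • (rg s * Dx) := by
  refine ext_e fun v => ?_
  show Dx (rg s (e v)) = chi s • rg s (Dx (e v))
  rw [rg_e, Dx_e, map_smul, map_smul, Dx_e, rg_e, smul_smul, smul_smul, smul_smul, chi_add]
  congr 1
  ring

theorem Dx_lg_star (s : V) : Dx * lg s * star Dx = chi s • lg s := by
  rw [Dx_lg, smul_mul_assoc, mul_assoc, Dx_mul_star, mul_one]

theorem lg_v0 : lg v0 = rg v0 * (Dx * Dx * Dx) := by
  refine ext_e fun v => ?_
  show lg v0 (e v) = rg v0 (Dx (Dx (Dx (e v))))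
  rw [lg_e, Dx_e, map_smul, Dx_e, smul_smul, map_smul, Dx_e, smul_smul, map_smul, rg_e, smul_smul,
    bf_v0_right, ch_zero, mul_one, add_comm v v0, bf_v0_left]
  congr 1
  unfold chi
  rw [← ch_add, ← ch_add]
  congr 1
  unfold xf
  have h1 := three_mul_tri v.2.2
  linear_combination h1

theorem lgc_zero : lgc 0 = 0 := Finsupp.sum_zero_index

theorem lgc_single (s : V) (z : ℂ) : lgc (Finsupp.single s z) = z • lg s :=
  Finsupp.sum_single_index (zero_smul ℂ (lg s))

theorem lgc_add (c c' : V →₀ ℂ) : lgc (c + c') = lgc c + lgc c' :=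
  Finsupp.sum_add_index' (fun s => zero_smul ℂ (lg s)) (fun s z z' => add_smul z z' (lg s))

/-- any `ρ`-version. -/
theorem sum_eq_sum_single (ρ : V → (H V →L[ℂ] H V)) (F : Finset V) (c : V → ℂ) :
    (∑ s ∈ F, Finsupp.single s (c s) : V →₀ ℂ).sum (fun s z => z • ρ s) = ∑ s ∈ F, c s • ρ s := by
  induction F using Finset.induction_on with
  | empty =>
    rw [Finset.sum_empty, Finset.sum_empty]
    exact Finsupp.sum_zero_index
  | insert a F ha ih =>
    rw [Finset.sum_insert ha, Finset.sum_insert ha,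
      Finsupp.sum_add_index' (fun s => zero_smul ℂ (ρ s)) (fun s z z' => add_smul z z' (ρ s)), ih,
      Finsupp.sum_single_index (zero_smul ℂ (ρ a))]

/-- finite sums as `lgc`. -/
theorem sum_eq_lgc (F : Finset V) (c : V → ℂ) :
    ∑ s ∈ F, c s • lg s = lgc (∑ s ∈ F, Finsupp.single s (c s)) :=
  (sum_eq_sum_single lg F c).symm

end OE
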