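import Mathlib
import Pool.Agent.Work.MP_06ef15_an.EA
import Pool.Agent.Work.MP_06ef15_an.FA

/-!
# The isometry `JV : ℓ²(V) → H` and the compression `cmp x = JV* x JV`

`JV_e`, `star_JV_e` from `re_e`, `adj_re_apply` (or `adj_of_coef`); everything else by `ext_e` / `ext_idx` and the
formulas of `CD`.  `cmp_PV_mid`: `JV JV* = PV`.  `cmp_rg`: `JV* x JV rg u = JV* x gr u JV = JV* gr u x JV = rg u JV* x JV`
(the last step is the adjoint of `star_gr_JV`).
`norm_g_sum_le`: with the equivalence `τ : Idx ≃ V × (W × (ℤ × M))` one has `g u = (re τ)⁻¹ (amp _ (lg u)) (re τ)`, hence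
`∑ c_s g_s = (re τ)⁻¹ (amp _ (lgc c)) (re τ)`, and `norm_amp_le`.
`lgc_eq_zero`: `lgc c (e 0) = ∑ c_s ch (bf s 0) e s = ∑ c_s e s`.
-/

set_option autoImplicit false

open scoped ComplexConjugate InnerProductSpace Classical
open ContinuousLinearMap (adjoint)

namespace OE

private theorem inj_JV : Function.Injective (fun v : V => (([] : W), (v, ((0 : ℤ), (Sum.inl 0 : M))))) := by
  intro v v' h
  exact congrArg (fun x : Idx => x.2.1) h

theorem JV_e (v : V) : JV (e v) = e (([] : W), (v, ((0 : ℤ), (Sum.inl 0 : M)))) := re_e inj_JV v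

theorem star_JV_e (w : W) (v : V) (n : ℤ) (m : M) :
    adjoint JV (e (w, (v, (n, m)))) = if w = [] ∧ n = 0 ∧ m = Sum.inl 0 then e v else 0 := by
  apply ext_pt
  intro v'
  have h1 : (adjoint JV (e (w, (v, (n, m)))) : V → ℂ) v' =
      ((e (w, (v, (n, m))) : H Idx) : Idx → ℂ) (([] : W), (v', ((0 : ℤ), (Sum.inl 0 : M)))) :=
    adj_re_apply inj_JV _ v'
  rw [h1, e_apply]
  by_cases hc : w = [] ∧ n = 0 ∧ m = Sum.inl 0
  · obtain ⟨rfl, rfl, rfl⟩ := hc
    rw [if_pos (show (([] : W) = [] ∧ (0 : ℤ) = 0 ∧ (Sum.inl 0 : M) = Sum.inl 0) from ⟨rfl, rfl, rfl⟩), e_apply]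
    by_cases hv : v' = v
    · subst hv; simp
    · rw [if_neg hv, if_neg]
      intro h
      exact hv (congrArg (fun x : Idx => x.2.1) h)
  · rw [if_neg hc, if_neg]
    · rfl
    · intro h
      apply hc
      refine ⟨(congrArg (fun x : Idx => x.1) h).symm, (congrArg (fun x : Idx => x.2.2.1) h).symm,
        (congrArg (fun x : Idx => x.2.2.2) h).symm⟩

theorem star_JV_comp : (adjoint JV).comp JV = ContinuousLinearMap.id ℂ (H V) := by
  apply ext_e
  intro v
  rw [ContinuousLinearMap.comp_apply, JV_e, star_JV_e, if_pos ⟨rfl, rfl, rfl⟩]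
  rfl

theorem JV_comp_star : JV.comp (adjoint JV) = PV := by
  apply ext_idx
  intro w v n m
  rw [ContinuousLinearMap.comp_apply, star_JV_e, PV_e]
  by_cases hc : w = [] ∧ n = 0 ∧ m = Sum.inl 0
  · rw [if_pos hc, if_pos hc, JV_e]
    obtain ⟨rfl, rfl, rfl⟩ := hc
    rfl
  · rw [if_neg hc, if_neg hc, map_zero]

theorem norm_JV_apply (x : H V) : ‖JV x‖ = ‖x‖ := norm_re inj_JV x
theorem norm_JV_le : ‖JV‖ ≤ 1 := norm_re_le inj_JV
theorem norm_star_JV_le : ‖adjoint JV‖ ≤ 1 := by
  rw [LinearIsometryEquiv.norm_map]; exact norm_JV_le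

private theorem star_JV_JV (x : H V) : adjoint JV (JV x) = x := adj_re_comp inj_JV x

private theorem JV_star_JV (x : H Idx) : JV (adjoint JV x) = PV x := by
  rw [← JV_comp_star]; rfl

theorem PV_JV (x : H V) : PV (JV x) = JV x := by
  rw [← JV_star_JV, star_JV_JV]
theorem star_JV_PV (x : H Idx) : adjoint JV (PV x) = adjoint JV x := by
  rw [← JV_star_JV, star_JV_JV]
theorem g_JV (u : V) : (g u).comp JV = JV.comp (lg u) := by
  apply ext_e
  intro v
  rw [ContinuousLinearMap.comp_apply, ContinuousLinearMap.comp_apply, JV_e, g_e, lg_e, map_smul, JV_e]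
theorem gr_JV (u : V) : (gr u).comp JV = JV.comp (rg u) := by
  apply ext_e
  intro v
  rw [ContinuousLinearMap.comp_apply, ContinuousLinearMap.comp_apply, JV_e, gr_e, rg_e, map_smul, JV_e, dgw_nil,
    mul_zero, add_zero]
theorem star_gr_JV (u : V) : (star (gr u)).comp JV = JV.comp (star (rg u)) := by
  have h := gr_JV u
  have h1 : (star (gr u)).comp ((gr u).comp JV) = JV := by
    rw [← ContinuousLinearMap.comp_assoc]
    have : (star (gr u)).comp (gr u) = (1 : BH) := star_gr_mul u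
    rw [this]; rfl
  have h2 : ((star (gr u)).comp JV).comp (rg u) = JV := by
    rw [ContinuousLinearMap.comp_assoc, ← h, h1]
  have h3 : (rg u).comp (star (rg u)) = (1 : H V →L[ℂ] H V) := rg_mul_star u
  calc (star (gr u)).comp JV = ((star (gr u)).comp JV).comp ((rg u).comp (star (rg u))) := by rw [h3]; rfl
    _ = (((star (gr u)).comp JV).comp (rg u)).comp (star (rg u)) := rfl
    _ = JV.comp (star (rg u)) := by rw [h2]
theorem Dchi_JV : Dchi.comp JV = JV.comp Dx := by
  apply ext_e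
  intro v
  rw [ContinuousLinearMap.comp_apply, ContinuousLinearMap.comp_apply, JV_e, Dchi_e, Dx_e, map_smul, JV_e]

theorem cmp_one : cmp 1 = 1 := by
  ext1 x
  show adjoint JV (JV x) = x
  exact star_JV_JV x
theorem cmp_zero : cmp 0 = 0 := by
  unfold cmp
  rw [ContinuousLinearMap.zero_comp, ContinuousLinearMap.comp_zero]
theorem cmp_add (x y : BH) : cmp (x + y) = cmp x + cmp y := by
  unfold cmp
  rw [ContinuousLinearMap.add_comp, ContinuousLinearMap.comp_add]
theorem cmp_sub (x y : BH) : cmp (x - y) = cmp x - cmp y := by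
  unfold cmp
  rw [ContinuousLinearMap.sub_comp, ContinuousLinearMap.comp_sub]
theorem cmp_smul (c : ℂ) (x : BH) : cmp (c • x) = c • cmp x := by
  unfold cmp
  rw [ContinuousLinearMap.smul_comp, ContinuousLinearMap.comp_smul]
theorem cmp_sum {ι : Type*} (s : Finset ι) (x : ι → BH) : cmp (∑ i ∈ s, x i) = ∑ i ∈ s, cmp (x i) := by
  induction s using Finset.induction_on with
  | empty => simp [cmp_zero]
  | insert a s ha ih => rw [Finset.sum_insert ha, Finset.sum_insert ha, cmp_add, ih]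
theorem cmp_star (x : BH) : cmp (star x) = star (cmp x) := by
  unfold cmp
  rw [ContinuousLinearMap.star_eq_adjoint, ContinuousLinearMap.star_eq_adjoint, ContinuousLinearMap.adjoint_comp,
    ContinuousLinearMap.adjoint_comp, ContinuousLinearMap.adjoint_adjoint, ContinuousLinearMap.comp_assoc]
theorem cmp_PV_mid (x y : BH) : cmp (x * PV * y) = cmp x * cmp y := by
  rw [← JV_comp_star]; rfl
theorem cmp_PV_left (x : BH) : cmp (PV * x) = cmp x := by
  ext1 z
  show adjoint JV (PV (x (JV z))) = adjoint JV (x (JV z))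
  exact star_JV_PV _
theorem cmp_PV_right (x : BH) : cmp (x * PV) = cmp x := by
  ext1 z
  show adjoint JV (x (PV (JV z))) = adjoint JV (x (JV z))
  rw [PV_JV]
theorem norm_cmp_le (x : BH) : ‖cmp x‖ ≤ ‖x‖ := by
  unfold cmp
  calc ‖(adjoint JV).comp (x.comp JV)‖ ≤ ‖adjoint JV‖ * ‖x.comp JV‖ := ContinuousLinearMap.opNorm_comp_le _ _
    _ ≤ 1 * (‖x‖ * 1) := by
        apply mul_le_mul norm_star_JV_le _ (norm_nonneg _) zero_le_one
        exact (ContinuousLinearMap.opNorm_comp_le _ _).trans (mul_le_mul_of_nonneg_left norm_JV_le (norm_nonneg _))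
    _ = ‖x‖ := by ring
theorem norm_cmp_le_PV (x : BH) : ‖cmp x‖ ≤ ‖x * PV‖ := by
  rw [← cmp_PV_right]; exact norm_cmp_le _
theorem cmp_g (u : V) : cmp (g u) = lg u := by
  unfold cmp
  rw [g_JV, ← ContinuousLinearMap.comp_assoc, star_JV_comp, ContinuousLinearMap.id_comp]
theorem cmp_Dchi : cmp Dchi = Dx := by
  unfold cmp
  rw [Dchi_JV, ← ContinuousLinearMap.comp_assoc, star_JV_comp, ContinuousLinearMap.id_comp]

private theorem star_JV_gr (u : V) : (adjoint JV).comp (gr u) = (rg u).comp (adjoint JV) := by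
  have h := star_gr_JV u
  have h2 := congrArg (fun S : H V →L[ℂ] H Idx => adjoint S) h
  simp only [ContinuousLinearMap.adjoint_comp, ContinuousLinearMap.star_eq_adjoint,
    ContinuousLinearMap.adjoint_adjoint] at h2
  exact h2

theorem cmp_rg {x : BH} {u : V} (h : x * gr u = gr u * x) : cmp x * rg u = rg u * cmp x := by
  have h' : x.comp (gr u) = (gr u).comp x := h
  show (((adjoint JV).comp (x.comp JV)).comp (rg u)) = (rg u).comp ((adjoint JV).comp (x.comp JV))
  rw [ContinuousLinearMap.comp_assoc, ContinuousLinearMap.comp_assoc, ← gr_JV, ← ContinuousLinearMap.comp_assoc x,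
    h', ← ContinuousLinearMap.comp_assoc (rg u), ← star_JV_gr, ContinuousLinearMap.comp_assoc,
    ContinuousLinearMap.comp_assoc]

/-- reordering of the coordinates. -/
private def tauE : Idx ≃ V × (W × (ℤ × M)) where
  toFun x := (x.2.1, (x.1, x.2.2))
  invFun y := (y.2.1, (y.1, y.2.2))
  left_inv _ := rfl
  right_inv _ := rfl

private theorem re_tau_g (u : V) :
    (re (tauE : Idx → V × (W × (ℤ × M)))).comp (g u) =
      (amp (W × (ℤ × M)) (lg u)).comp (re (tauE : Idx → V × (W × (ℤ × M)))) := by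
  apply ext_idx
  intro w v n m
  rw [ContinuousLinearMap.comp_apply, ContinuousLinearMap.comp_apply, g_e, map_smul, re_e tauE.injective,
    re_e tauE.injective]
  show ch (bf u v) • e (u + v, (w, (n, m))) = amp (W × (ℤ × M)) (lg u) (e (v, (w, (n, m))))
  rw [amp_e', lg_e, map_smul, emb_e]

private theorem re_tau_sum (c : V →₀ ℂ) :
    (re (tauE : Idx → V × (W × (ℤ × M)))).comp (c.sum (fun s z => z • g s)) =
      (amp (W × (ℤ × M)) (lgc c)).comp (re (tauE : Idx → V × (W × (ℤ × M)))) := by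
  unfold lgc Finsupp.sum
  rw [amp_sum]
  ext1 x
  simp only [ContinuousLinearMap.comp_apply, ContinuousLinearMap.sum_apply, map_sum]
  apply Finset.sum_congr rfl
  intro s _
  rw [amp_smul]
  show re _ (c s • g s x) = c s • amp _ (lg s) (re _ x)
  rw [map_smul]
  congr 1
  exact congrArg (fun S => S x) (re_tau_g s)

theorem norm_g_sum_le (c : V →₀ ℂ) : ‖c.sum (fun s z => z • g s)‖ ≤ ‖lgc c‖ := by
  apply ContinuousLinearMap.opNorm_le_bound _ (norm_nonneg _)
  intro x
  have h := congrArg (fun S => S x) (re_tau_sum c)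
  simp only [ContinuousLinearMap.comp_apply] at h
  calc ‖(c.sum (fun s z => z • g s)) x‖
      = ‖re (tauE : Idx → V × (W × (ℤ × M))) ((c.sum (fun s z => z • g s)) x)‖ := (norm_re tauE.injective _).symm
    _ = ‖amp (W × (ℤ × M)) (lgc c) (re (tauE : Idx → V × (W × (ℤ × M))) x)‖ := by rw [h]
    _ ≤ ‖amp (W × (ℤ × M)) (lgc c)‖ * ‖re (tauE : Idx → V × (W × (ℤ × M))) x‖ := ContinuousLinearMap.le_opNorm _ _
    _ ≤ ‖lgc c‖ * ‖x‖ := by
        rw [norm_re tauE.injective]
        exact mul_le_mul_of_nonneg_right (norm_amp_le _) (norm_nonneg _)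

theorem lgc_eq_zero {c : V →₀ ℂ} (h : lgc c = 0) : c = 0 := by
  ext t
  have h1 : ((lgc c (e 0) : H V) : V → ℂ) t = 0 := by rw [h]; rfl
  have h2 : lgc c (e 0) = c.sum (fun s z => z • e s) := by
    unfold lgc Finsupp.sum
    rw [ContinuousLinearMap.sum_apply]
    apply Finset.sum_congr rfl
    intro s _
    show c s • lg s (e 0) = c s • e s
    rw [lg_e, bf_zero_right, ch_zero, one_smul, add_zero]
  rw [h2] at h1
  unfold Finsupp.sum at h1
  have h3 : ((∑ s ∈ c.support, c s • (e s : H V) : H V) : V → ℂ) t = ∑ s ∈ c.support, c s * (if t = s then 1 else 0) := by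
    have : ((∑ s ∈ c.support, c s • (e s : H V) : H V) : V → ℂ) t
        = ⟪e t, ∑ s ∈ c.support, c s • (e s : H V)⟫_ℂ := (inner_e_left t _).symm
    rw [this, inner_sum]
    apply Finset.sum_congr rfl
    intro s _
    rw [inner_smul_right, inner_e_e]
    by_cases hts : t = s <;> simp [hts]
  rw [h3] at h1
  simp only [mul_ite, mul_one, mul_zero, Finset.sum_ite_eq] at h1
  by_cases ht : t ∈ c.support
  · rw [if_pos ht] at h1; exact h1
  · simpa using ht

theorem coe_gcA (c : V →₀ ℂ) : ((gcA c : A) : BH) = c.sum (fun s z => z • g s) := by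
  unfold gcA Finsupp.sum
  have : ((∑ s ∈ c.support, c s • EgA s : A) : BH) = ∑ s ∈ c.support, ((c s • EgA s : A) : BH) := by
    exact map_sum (A.subtype) _ _
  rw [this]
  rfl
theorem norm_gcA_le (c : V →₀ ℂ) : ‖gcA c‖ ≤ ‖lgc c‖ := by
  have : ‖gcA c‖ = ‖((gcA c : A) : BH)‖ := rfl
  rw [this, coe_gcA]
  exact norm_g_sum_le c
theorem gcA_single (s : V) (z : ℂ) : gcA (Finsupp.single s z) = z • EgA s := by
  unfold gcA
  rw [Finsupp.sum_single_index (by simp)]
theorem cmp_gcA (c : V →₀ ℂ) : cmp ((gcA c : A) : BH) = lgc c := by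
  rw [coe_gcA]
  unfold lgc Finsupp.sum
  rw [cmp_sum]
  apply Finset.sum_congr rfl
  intro s _
  rw [cmp_smul, cmp_g]

end OE
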