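import Mathlib

/-!
# Weak limits of bounded sequences of operators and the averaging lemma (13.0)
-/

set_option autoImplicit false

open scoped ComplexConjugate InnerProductSpace Topology ComplexOrder
open Filter

namespace OE

variable {K : Type*} [NormedAddCommGroup K] [InnerProductSpace ℂ K] [CompleteSpace K]

/-- weak limit along the hyperfilter of a bounded sequence of operators. -/
theorem exists_wlim (T : ℕ → (K →L[ℂ] K)) (C : ℝ) (hC : ∀ n, ‖T n‖ ≤ C) :
    ∃ T₁ : K →L[ℂ] K, ∀ x y : K, Tendsto (fun n => ⟪T n x, y⟫_ℂ) (hyperfilter ℕ) (𝓝 ⟪T₁ x, y⟫_ℂ) := by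
  have hC0 : 0 ≤ C := (norm_nonneg _).trans (hC 0)
  have hb : ∀ x y : K, ∀ n, ‖⟪T n x, y⟫_ℂ‖ ≤ C * ‖x‖ * ‖y‖ := by
    intro x y n
    refine (norm_inner_le_norm _ _).trans ?_
    gcongr
    exact (T n).le_of_opNorm_le (hC n) x
  have hlim : ∀ x y : K, ∃ l : ℂ, Tendsto (fun n => ⟪T n x, y⟫_ℂ) (hyperfilter ℕ) (𝓝 l) := by
    intro x y
    have hcomp : IsCompact (Metric.closedBall (0 : ℂ) (C * ‖x‖ * ‖y‖)) := isCompact_closedBall _ _
    have h1 : ↑((hyperfilter ℕ).map (fun n => ⟪T n x, y⟫_ℂ)) ≤ 𝓟 (Metric.closedBall (0 : ℂ) (C * ‖x‖ * ‖y‖)) := by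
      rw [le_principal_iff]
      show _ ∈ ((hyperfilter ℕ : Filter ℕ).map (fun n => ⟪T n x, y⟫_ℂ))
      rw [mem_map]
      refine univ_mem' ?_
      intro n
      simpa using hb x y n
    obtain ⟨l, _, hl⟩ := hcomp.ultrafilter_le_nhds _ h1
    exact ⟨l, hl⟩
  choose B hB using hlim
  have huniq : ∀ {x y : K} {l : ℂ}, Tendsto (fun n => ⟪T n x, y⟫_ℂ) (hyperfilter ℕ) (𝓝 l) → B x y = l :=
    fun {x y l} h => tendsto_nhds_unique (hB x y) h
  have hBb : ∀ x y, ‖B x y‖ ≤ C * ‖x‖ * ‖y‖ := by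
    intro x y
    refine le_of_tendsto (hB x y).norm ?_
    exact Eventually.of_forall (hb x y)
  have hadd_l : ∀ x x' y, B (x + x') y = B x y + B x' y := by
    intro x x' y
    refine huniq ?_
    simp only [map_add, inner_add_left]
    exact (hB x y).add (hB x' y)
  have hadd_r : ∀ x y y', B x (y + y') = B x y + B x y' := by
    intro x y y'
    refine huniq ?_
    simp only [inner_add_right]
    exact (hB x y).add (hB x y')
  have hsm_l : ∀ (c : ℂ) x y, B (c • x) y = conj c * B x y := by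
    intro c x y
    refine huniq ?_
    simp only [map_smul, inner_smul_left]
    exact (hB x y).const_mul _
  have hsm_r : ∀ (c : ℂ) x y, B x (c • y) = c * B x y := by
    intro c x y
    refine huniq ?_
    simp only [inner_smul_right]
    exact (hB x y).const_mul _
  let Bl : K →ₛₗ[starRingEnd ℂ] K →ₗ[ℂ] ℂ := LinearMap.mk₂'ₛₗ (starRingEnd ℂ) (RingHom.id ℂ) B hadd_l
    (fun c x y => by simpa using hsm_l c x y) hadd_r (fun c x y => by simpa using hsm_r c x y)
  let Bc : K →L⋆[ℂ] K →L[ℂ] ℂ := LinearMap.mkContinuous₂ Bl C (fun x y => hBb x y)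
  refine ⟨InnerProductSpace.continuousLinearMapOfBilin Bc, ?_⟩
  intro x y
  rw [InnerProductSpace.continuousLinearMapOfBilin_apply]
  exact hB x y

/-- averaging lemma. -/
theorem exists_average {G : Type*} [AddCommGroup G] (Gm : ℕ → AddSubgroup G) (hfin : ∀ M, (Gm M : Set G).Finite)
    (hmono : Monotone Gm) (c : G → G → ℂ) (hc : ∀ s t, ‖c s t‖ = 1) (π π' : G → (K →L[ℂ] K))
    (hπ : ∀ M, ∀ s ∈ Gm M, ∀ t ∈ Gm M, π s * π t = c s t • π (s + t))
    (hπ' : ∀ M, ∀ s ∈ Gm M, ∀ t ∈ Gm M, π' s * π' t = c s t • π' (s + t))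
    (hu' : ∀ M, ∀ s ∈ Gm M, star (π' s) * π' s = 1)
    (T T₀ : K →L[ℂ] K) (d : ℝ) (hd : ∀ M, ∀ s ∈ Gm M, ‖π s * T * star (π' s) - T₀‖ ≤ d) :
    ∃ T₁ : K →L[ℂ] K, ‖T₁ - T₀‖ ≤ d ∧ (∀ M, ∀ s ∈ Gm M, π s * T₁ = T₁ * π' s) ∧
      (∀ x : K →L[ℂ] K, x * T = T * x → (∀ M, ∀ s ∈ Gm M, x * π s = π s * x) →
        (∀ M, ∀ s ∈ Gm M, x * star (π' s) = star (π' s) * x) → x * T₁ = T₁ * x) ∧
      ((∀ M, ∀ s ∈ Gm M, π' s = π s) → 0 ≤ T → 0 ≤ T₁) := by
  classical
  have hd0 : 0 ≤ d := (norm_nonneg _).trans (hd 0 0 (Gm 0).zero_mem)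
  let F : ℕ → Finset G := fun M => (hfin M).toFinset
  have hF : ∀ M s, s ∈ F M ↔ s ∈ Gm M := by
    intro M s
    simp [F]
  have hcard : ∀ M, (0 : ℝ) < ((F M).card : ℝ) := by
    intro M
    have : 0 < (F M).card := Finset.card_pos.mpr ⟨0, (hF M 0).2 (Gm M).zero_mem⟩
    exact_mod_cast this
  have hcardC : ∀ M, ((F M).card : ℂ) ≠ 0 := by
    intro M
    have := (hcard M).ne'
    exact_mod_cast this
  let S : ℕ → (K →L[ℂ] K) := fun M => ((F M).card : ℂ)⁻¹ • ∑ s ∈ F M, π s * T * star (π' s)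
  have hS0 : ∀ M, ‖S M - T₀‖ ≤ d := by
    intro M
    have e1 : S M - T₀ = ((F M).card : ℂ)⁻¹ • ∑ s ∈ F M, (π s * T * star (π' s) - T₀) := by
      simp only [S]
      rw [Finset.sum_sub_distrib, smul_sub, Finset.sum_const, ← Nat.cast_smul_eq_nsmul ℂ, smul_smul,
        inv_mul_cancel₀ (hcardC M), one_smul]
    rw [e1, norm_smul, norm_inv]
    have e2 : ‖((F M).card : ℂ)‖ = ((F M).card : ℝ) := by simp
    rw [e2, inv_mul_le_iff₀ (hcard M)]
    refine (norm_sum_le _ _).trans ?_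
    refine (Finset.sum_le_card_nsmul _ _ d ?_).trans ?_
    · intro s hs
      exact hd M s ((hF M s).1 hs)
    · rw [nsmul_eq_mul]
  have hcov : ∀ M, ∀ u ∈ Gm M, π u * S M = S M * π' u := by
    intro M u hu
    simp only [S]
    rw [mul_smul_comm, smul_mul_assoc]
    congr 1
    rw [Finset.mul_sum, Finset.sum_mul]
    refine Finset.sum_bij (fun s _ => u + s) ?_ ?_ ?_ ?_
    · intro s hs
      exact (hF M _).2 ((Gm M).add_mem hu ((hF M s).1 hs))
    · intro s _ t _ h
      exact add_left_cancel h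
    · intro t ht
      exact ⟨-u + t, (hF M _).2 ((Gm M).add_mem ((Gm M).neg_mem hu) ((hF M t).1 ht)), by abel⟩
    · intro s hs
      have hs' := (hF M s).1 hs
      have h1 : star (π' s) = conj (c u s) • (star (π' (u + s)) * π' u) := by
        have h2 : star (π' s) * star (π' u) = conj (c u s) • star (π' (u + s)) := by
          rw [← star_mul, hπ' M u hu s hs', star_smul]; rfl
        calc star (π' s) = star (π' s) * (star (π' u) * π' u) := by rw [hu' M u hu, mul_one]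
          _ = (star (π' s) * star (π' u)) * π' u := by rw [mul_assoc]
          _ = _ := by rw [h2, smul_mul_assoc]
      have h3 : c u s * conj (c u s) = 1 := by
        rw [Complex.mul_conj, Complex.normSq_eq_norm_sq, hc u s]; norm_num
      calc π u * (π s * T * star (π' s)) = (π u * π s) * T * star (π' s) := by simp only [mul_assoc]
        _ = (c u s • π (u + s)) * T * (conj (c u s) • (star (π' (u + s)) * π' u)) := by rw [hπ M u hu s hs', h1]
        _ = (c u s * conj (c u s)) • (π (u + s) * T * (star (π' (u + s)) * π' u)) := by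
            rw [smul_mul_assoc, smul_mul_assoc, mul_smul_comm, smul_smul]
        _ = π (u + s) * T * star (π' (u + s)) * π' u := by rw [h3, one_smul]; simp only [mul_assoc]
  have hSb : ∀ M, ‖S M‖ ≤ d + ‖T₀‖ := by
    intro M
    calc ‖S M‖ = ‖(S M - T₀) + T₀‖ := by congr 1; abel
      _ ≤ ‖S M - T₀‖ + ‖T₀‖ := norm_add_le _ _
      _ ≤ d + ‖T₀‖ := by linarith [hS0 M]
  obtain ⟨T₁, hT₁⟩ := exists_wlim S _ hSb
  refine ⟨T₁, ?_, ?_, ?_, ?_⟩
  · refine ContinuousLinearMap.opNorm_le_bound _ hd0 ?_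
    intro x
    set v : K := (T₁ - T₀) x with hv
    have h1 : ‖⟪(T₁ - T₀) x, v⟫_ℂ‖ ≤ d * ‖x‖ * ‖v‖ := by
      have h2 : Tendsto (fun n => ⟪(S n - T₀) x, v⟫_ℂ) (hyperfilter ℕ) (𝓝 ⟪(T₁ - T₀) x, v⟫_ℂ) := by
        simp only [sub_apply, inner_sub_left]
        exact (hT₁ x v).sub tendsto_const_nhds
      refine le_of_tendsto h2.norm (Eventually.of_forall ?_)
      intro n
      refine (norm_inner_le_norm _ _).trans ?_
      gcongr
      exact (S n - T₀).le_of_opNorm_le (hS0 n) x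
    rw [← hv] at h1
    have h3 : ‖⟪v, v⟫_ℂ‖ = ‖v‖ * ‖v‖ := by
      rw [inner_self_eq_norm_sq_to_K, norm_pow]; simp [sq]
    rw [h3] at h1
    rcases eq_or_lt_of_le (norm_nonneg v) with h4 | h4
    · rw [← h4]; positivity
    · exact le_of_mul_le_mul_right h1 h4
  · intro M s hs
    ext x
    refine ext_inner_right ℂ ?_
    intro y
    have h1 : Tendsto (fun n => ⟪(π s * S n) x, y⟫_ℂ) (hyperfilter ℕ) (𝓝 ⟪(π s * T₁) x, y⟫_ℂ) := by
      have h2 := hT₁ x (ContinuousLinearMap.adjoint (π s) y)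
      simp only [ContinuousLinearMap.adjoint_inner_right] at h2
      exact h2
    have h3 : Tendsto (fun n => ⟪(S n * π' s) x, y⟫_ℂ) (hyperfilter ℕ) (𝓝 ⟪(T₁ * π' s) x, y⟫_ℂ) :=
      hT₁ (π' s x) y
    have h4 : (fun n => ⟪(π s * S n) x, y⟫_ℂ) =ᶠ[hyperfilter ℕ] (fun n => ⟪(S n * π' s) x, y⟫_ℂ) := by
      have h5 : ∀ᶠ n in atTop, M ≤ n := eventually_ge_atTop M
      have h6 : ∀ᶠ n in (hyperfilter ℕ : Filter ℕ), M ≤ n := Nat.hyperfilter_le_atTop h5
      filter_upwards [h6] with n hn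
      rw [hcov n s (hmono hn hs)]
    exact tendsto_nhds_unique h1 (h3.congr' h4.symm)
  · intro x hxT hxπ hxπ'
    have hxS : ∀ M, x * S M = S M * x := by
      intro M
      simp only [S]
      rw [mul_smul_comm, smul_mul_assoc]
      congr 1
      rw [Finset.mul_sum, Finset.sum_mul]
      refine Finset.sum_congr rfl ?_
      intro s hs
      have hs' := (hF M s).1 hs
      calc x * (π s * T * star (π' s)) = (x * π s) * T * star (π' s) := by simp only [mul_assoc]
        _ = π s * (x * T) * star (π' s) := by rw [hxπ M s hs']; simp only [mul_assoc]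
        _ = π s * T * (x * star (π' s)) := by rw [hxT]; simp only [mul_assoc]
        _ = π s * T * star (π' s) * x := by rw [hxπ' M s hs']; simp only [mul_assoc]
    ext a
    refine ext_inner_right ℂ ?_
    intro y
    have h1 : Tendsto (fun n => ⟪(x * S n) a, y⟫_ℂ) (hyperfilter ℕ) (𝓝 ⟪(x * T₁) a, y⟫_ℂ) := by
      have h2 := hT₁ a (ContinuousLinearMap.adjoint x y)
      simp only [ContinuousLinearMap.adjoint_inner_right] at h2
      exact h2
    have h3 : Tendsto (fun n => ⟪(S n * x) a, y⟫_ℂ) (hyperfilter ℕ) (𝓝 ⟪(T₁ * x) a, y⟫_ℂ) :=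
      hT₁ (x a) y
    refine tendsto_nhds_unique h1 (h3.congr ?_)
    intro n
    rw [hxS n]
  · intro hpp hT
    have hSpos : ∀ M, 0 ≤ S M := by
      intro M
      simp only [S]
      have h1 : 0 ≤ ∑ s ∈ F M, π s * T * star (π' s) := by
        refine Finset.sum_nonneg ?_
        intro s hs
        rw [hpp M s ((hF M s).1 hs)]
        exact star_right_conjugate_nonneg hT _
      have h2 : ((F M).card : ℂ)⁻¹ = (((F M).card : ℝ)⁻¹ : ℝ) := by push_cast; rfl
      rw [h2]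
      have h3 : ((((F M).card : ℝ)⁻¹ : ℝ) : ℂ) • ∑ s ∈ F M, π s * T * star (π' s)
          = (((F M).card : ℝ)⁻¹ : ℝ) • ∑ s ∈ F M, π s * T * star (π' s) := by
        exact Complex.coe_smul _ _
      rw [h3]
      exact smul_nonneg (inv_nonneg.mpr (hcard M).le) h1
    rw [ContinuousLinearMap.nonneg_iff_isPositive, ContinuousLinearMap.isPositive_iff_complex]
    intro x
    have h1 := hT₁ x x
    have hpos : ∀ n, 0 ≤ ⟪S n x, x⟫_ℂ := by
      intro n
      have h2 := (ContinuousLinearMap.nonneg_iff_isPositive _).1 (hSpos n)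
      exact h2.inner_nonneg_left x
    have hcl : IsClosed {z : ℂ | 0 ≤ z} := isClosed_Ici
    have h4 : ⟪T₁ x, x⟫_ℂ ∈ {z : ℂ | 0 ≤ z} := hcl.mem_of_tendsto h1 (Eventually.of_forall hpos)
    have h5 := Complex.nonneg_iff.mp h4
    constructor
    · apply Complex.ext
      · simp
      · simpa using h5.2
    · exact h5.1

end OE
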