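import Mathlib

/-!
# Polar unitary near one, perturbation of projections, spectral projection of an almost projection
(general unital C*-algebra)
-/

set_option autoImplicit false

namespace OE

variable {A : Type*} [CStarAlgebra A]

/-- the unitary part of an element near `1`. -/
theorem polar_near (T : A) (δ : ℝ) (h : ‖T - 1‖ ≤ δ) (hδ : δ ≤ 1 / 4) :
    ∃ y : A, star y * y = 1 ∧ y * star y = 1 ∧ ‖y - 1‖ ≤ 8 * δ ∧
      ∀ a b : A, a * T = T * b → star a * T = T * star b → a * y = y * b := by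
  have hδ0 : 0 ≤ δ := (norm_nonneg _).trans h
  rcases subsingleton_or_nontrivial A with hA | hA
  · refine ⟨1, Subsingleton.elim _ _, Subsingleton.elim _ _, ?_, fun a b _ _ => Subsingleton.elim _ _⟩
    simpa using hδ0
  set p : A := star T * T with hp
  have hpsa : IsSelfAdjoint p := IsSelfAdjoint.star_mul_self T
  have hT1 : ‖T‖ ≤ 1 + δ := by
    have : T = (T - 1) + 1 := by abel
    calc ‖T‖ = ‖(T - 1) + 1‖ := by rw [← this]
      _ ≤ ‖T - 1‖ + ‖(1 : A)‖ := norm_add_le _ _
      _ ≤ δ + 1 := by rw [CStarRing.norm_one]; linarith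
      _ = 1 + δ := by ring
  have hstar1 : ‖star T - 1‖ ≤ δ := by
    have : star T - 1 = star (T - 1) := by simp
    rw [this, norm_star]; exact h
  have hp1 : ‖p - 1‖ ≤ (9 / 4) * δ := by
    have : p - 1 = star T * (T - 1) + (star T - 1) := by rw [hp]; noncomm_ring
    rw [this]
    refine (norm_add_le _ _).trans ?_
    have h1 : ‖star T * (T - 1)‖ ≤ (1 + δ) * δ := by
      refine (norm_mul_le _ _).trans ?_
      rw [norm_star]
      exact mul_le_mul hT1 h (norm_nonneg _) (by linarith)
    nlinarith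
  have hspec : ∀ x ∈ spectrum ℝ p, |x - 1| ≤ (9 / 4) * δ := by
    intro x hx
    have h1 : x - 1 ∈ spectrum ℝ (p - algebraMap ℝ A 1) := by
      rw [← spectrum.sub_singleton_eq]
      exact Set.sub_mem_sub hx rfl
    have h2 := spectrum.norm_le_norm_of_mem h1
    rw [map_one] at h2
    rw [Real.norm_eq_abs] at h2
    exact h2.trans hp1
  have hspec' : ∀ x ∈ spectrum ℝ p, 7 / 16 ≤ x ∧ x ≤ 25 / 16 := by
    intro x hx
    have := abs_le.mp (hspec x hx)
    constructor <;> linarith [this.1, this.2]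
  let f : ℝ → ℝ := fun x => (Real.sqrt x)⁻¹
  have hfc : ContinuousOn f (spectrum ℝ p) := by
    refine ContinuousOn.inv₀ (Real.continuous_sqrt.continuousOn) ?_
    intro x hx
    have := (hspec' x hx).1
    exact (Real.sqrt_pos.mpr (by linarith)).ne'
  set hh : A := cfc f p with hhh
  have hhsa : IsSelfAdjoint hh := cfc_predicate f p
  have hhh1 : hh * hh * p = 1 := by
    have e1 : hh * hh = cfc (fun x => f x * f x) p := by
      rw [hhh, ← cfc_mul f f p hfc hfc]
    rw [e1]
    nth_rewrite 2 [← cfc_id' ℝ p]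
    rw [← cfc_mul (fun x => f x * f x) (fun x => x) p (hfc.mul hfc) continuousOn_id]
    rw [show (1 : A) = cfc (fun _ : ℝ => (1 : ℝ)) p from (cfc_const_one ℝ p).symm]
    refine cfc_congr ?_
    intro x hx
    have := (hspec' x hx).1
    have hx0 : (0 : ℝ) < x := by linarith
    show (Real.sqrt x)⁻¹ * (Real.sqrt x)⁻¹ * x = 1
    have hs : Real.sqrt x * Real.sqrt x = x := Real.mul_self_sqrt hx0.le
    have hsne : Real.sqrt x ≠ 0 := (Real.sqrt_pos.mpr hx0).ne'
    field_simp
    nlinarith
  have hcomm : Commute hh p := (Commute.refl p).cfc_real f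
  have hphh : hh * p * hh = 1 := by
    rw [mul_assoc, ← hcomm.eq, ← mul_assoc]; exact hhh1
  have hy1 : star (T * hh) * (T * hh) = 1 := by
    rw [star_mul, hhsa.star_eq]
    calc hh * star T * (T * hh) = hh * (star T * T) * hh := by noncomm_ring
      _ = 1 := hphh
  have hTunit : IsUnit T := by
    have : ‖(1 : A) - T‖ < 1 := by
      rw [norm_sub_rev]; linarith
    have h2 := isUnit_one_sub_of_norm_lt_one this
    simpa using h2
  have hhunit : IsUnit hh := by
    refine ⟨⟨hh, hh * p, ?_, ?_⟩, rfl⟩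
    · rw [← mul_assoc]; exact hhh1
    · rw [mul_assoc, ← hcomm.eq, ← mul_assoc]; exact hhh1
  have hyunit : IsUnit (T * hh) := hTunit.mul hhunit
  have hy2 : (T * hh) * star (T * hh) = 1 := by
    obtain ⟨v, hv⟩ := hyunit
    have h3 : star (T * hh) = ↑v⁻¹ := by
      have h4 := hy1
      rw [← hv] at h4 ⊢
      calc star (v : A) = star (v : A) * (↑v * ↑v⁻¹) := by rw [v.mul_inv, mul_one]
        _ = star (v : A) * ↑v * ↑v⁻¹ := by rw [mul_assoc]
        _ = ↑v⁻¹ := by rw [h4, one_mul]
    rw [h3, ← hv]; exact v.mul_inv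
  refine ⟨T * hh, hy1, hy2, ?_, ?_⟩
  · have hh1 : ‖hh - 1‖ ≤ (9 / 4) * δ := by
      have e1 : hh - 1 = cfc (fun x => f x - 1) p := by
        rw [cfc_sub f (fun _ => (1:ℝ)) p hfc continuousOn_const, cfc_const_one ℝ p]
      rw [e1]
      refine norm_cfc_le (by positivity) ?_
      intro x hx
      obtain ⟨hx1, hx2⟩ := hspec' x hx
      have hx0 : (0 : ℝ) < x := by linarith
      have hs : Real.sqrt x * Real.sqrt x = x := Real.mul_self_sqrt hx0.le
      have hspos : 0 < Real.sqrt x := Real.sqrt_pos.mpr hx0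
      have hs66 : 66 / 100 ≤ Real.sqrt x := by
        by_contra hcon
        rw [not_le] at hcon
        nlinarith
      rw [Real.norm_eq_abs]
      have e2 : (Real.sqrt x)⁻¹ - 1 = (1 - x) / (Real.sqrt x * (1 + Real.sqrt x)) := by
        have : 1 + Real.sqrt x ≠ 0 := by positivity
        field_simp
        nlinarith
      show |(Real.sqrt x)⁻¹ - 1| ≤ _
      rw [e2, abs_div, abs_of_pos (show 0 < Real.sqrt x * (1 + Real.sqrt x) by positivity)]
      rw [div_le_iff₀ (by positivity)]
      have h5 : |1 - x| ≤ (9 / 4) * δ := by rw [abs_sub_comm]; exact hspec x hx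
      have h6 : 1 ≤ Real.sqrt x * (1 + Real.sqrt x) := by nlinarith
      have h7 : 0 ≤ (9 / 4) * δ := by positivity
      nlinarith
    have e3 : T * hh - 1 = T * (hh - 1) + (T - 1) := by noncomm_ring
    rw [e3]
    refine (norm_add_le _ _).trans ?_
    have h8 : ‖T * (hh - 1)‖ ≤ (1 + δ) * ((9 / 4) * δ) :=
      (norm_mul_le _ _).trans (mul_le_mul hT1 hh1 (norm_nonneg _) (by linarith))
    nlinarith
  · intro a b hab hab'
    have hbp : Commute p b := by
      show star T * T * b = b * (star T * T)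
      have h9 : star T * a = b * star T := by
        have := congrArg star hab'
        simpa using this
      calc star T * T * b = star T * (T * b) := by rw [mul_assoc]
        _ = star T * (a * T) := by rw [hab]
        _ = (star T * a) * T := by rw [mul_assoc]
        _ = b * star T * T := by rw [h9]
        _ = b * (star T * T) := by rw [mul_assoc]
    have hbh : Commute hh b := hbp.cfc_real f
    calc a * (T * hh) = (a * T) * hh := by rw [mul_assoc]
      _ = T * b * hh := by rw [hab]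
      _ = T * (b * hh) := by rw [mul_assoc]
      _ = T * (hh * b) := by rw [hbh.eq]
      _ = T * hh * b := by rw [mul_assoc]

/-- two close projections are conjugate by a unitary close to `1` commuting with everything that commutes with both. -/
theorem proj_perturb (P P' : A) (hP : star P = P) (hPP : P * P = P) (hP' : star P' = P') (hPP' : P' * P' = P')
    (δ : ℝ) (h : ‖P' - P‖ ≤ δ) (hδ : δ ≤ 1 / 4) :
    ∃ u : A, star u * u = 1 ∧ u * star u = 1 ∧ ‖u - 1‖ ≤ 8 * δ ∧ P' * u = u * P ∧
      ∀ x : A, x * P = P * x → x * P' = P' * x → x * u = u * x := by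
  have hδ0 : 0 ≤ δ := (norm_nonneg _).trans h
  rcases subsingleton_or_nontrivial A with hA | hA
  · exact ⟨1, Subsingleton.elim _ _, Subsingleton.elim _ _, by simpa using hδ0, Subsingleton.elim _ _,
      fun x _ _ => Subsingleton.elim _ _⟩
  set z : A := P' * P + (1 - P') * (1 - P) with hz
  have hs : star (2 * P' - 1) * (2 * P' - 1) = 1 := by
    have : star (2 * P' - 1) = 2 * P' - 1 := by
      rw [star_sub, star_mul, hP', star_one]
      have h2 : star (2 : A) = 2 := by
        have := star_ofNat (R := A) 2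
        exact this
      rw [h2]; noncomm_ring
    rw [this]
    have : (2 * P' - 1) * (2 * P' - 1) = 4 * (P' * P') - 4 * P' + 1 := by noncomm_ring
    rw [this, hPP']; noncomm_ring
  have hsn : ‖2 * P' - 1‖ ≤ 1 := by
    have h3 := CStarRing.norm_star_mul_self (x := 2 * P' - 1)
    rw [hs, CStarRing.norm_one] at h3
    nlinarith [norm_nonneg (2 * P' - 1)]
  have hz1 : ‖z - 1‖ ≤ δ := by
    have : z - 1 = (2 * P' - 1) * (P - P') := by
      have e1 : (2 * P' - 1) * (P - P') = 2 * (P' * P) - 2 * (P' * P') - P + P' := by noncomm_ring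
      rw [e1, hPP', hz]; noncomm_ring
    rw [this]
    calc ‖(2 * P' - 1) * (P - P')‖ ≤ ‖2 * P' - 1‖ * ‖P - P'‖ := norm_mul_le _ _
      _ ≤ 1 * δ := mul_le_mul hsn (by rw [norm_sub_rev]; exact h) (norm_nonneg _) zero_le_one
      _ = δ := one_mul _
  obtain ⟨u, hu1, hu2, hu3, hu4⟩ := polar_near z δ hz1 hδ
  have hz2 : P' * z = z * P := by
    have e1 : P' * z = P' * P' * P + (P' - P' * P') * (1 - P) := by rw [hz]; noncomm_ring
    have e2 : z * P = P' * (P * P) + (1 - P') * (P - P * P) := by rw [hz]; noncomm_ring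
    rw [e1, e2, hPP', hPP]; noncomm_ring
  refine ⟨u, hu1, hu2, hu3, hu4 P' P hz2 (by rw [hP', hP]; exact hz2), ?_⟩
  intro x hx hx'
  have key : ∀ y : A, y * P = P * y → y * P' = P' * y → y * z = z * y := by
    intro y hy hy'
    have e1 : y * (1 - P') = (1 - P') * y := by rw [mul_sub, sub_mul, hy']; simp
    have e2 : y * (1 - P) = (1 - P) * y := by rw [mul_sub, sub_mul, hy]; simp
    rw [hz, mul_add, add_mul]
    congr 1
    · rw [← mul_assoc, hy', mul_assoc, hy, mul_assoc]
    · rw [← mul_assoc, e1, mul_assoc, e2, mul_assoc]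
  refine hu4 x x (key x hx hx') (key (star x) ?_ ?_)
  · have := congrArg star hx
    rw [star_mul, star_mul, hP] at this
    exact this.symm
  · have := congrArg star hx'
    rw [star_mul, star_mul, hP'] at this
    exact this.symm

/-- the spectral projection of a self-adjoint element near a projection. -/
theorem near_proj (T P : A) (hT : star T = T) (hP : star P = P) (hPP : P * P = P) (δ : ℝ) (h : ‖T - P‖ ≤ δ)
    (hδ : δ ≤ 1 / 64) :
    ∃ P' : A, star P' = P' ∧ P' * P' = P' ∧ ‖P' - P‖ ≤ 16 * δ ∧ ∀ x : A, x * T = T * x → x * P' = P' * x := by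
  have hδ0 : 0 ≤ δ := (norm_nonneg _).trans h
  rcases subsingleton_or_nontrivial A with hA | hA
  · exact ⟨1, Subsingleton.elim _ _, Subsingleton.elim _ _, by
      rw [Subsingleton.elim (1 - P) (0 : A)]; simpa using hδ0, fun x _ => Subsingleton.elim _ _⟩
  have hTsa : IsSelfAdjoint T := hT
  have hPn : ‖P‖ ≤ 1 := by
    have h3 := CStarRing.norm_star_mul_self (x := P)
    rw [hP, hPP] at h3
    rcases eq_or_lt_of_le (norm_nonneg P) with h4 | h4
    · rw [← h4]; norm_num
    · have : ‖P‖ * 1 = ‖P‖ * ‖P‖ := by rw [mul_one]; exact h3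
      exact (mul_left_cancel₀ h4.ne' this).symm.le
  have hTn : ‖T‖ ≤ 1 + δ := by
    have : T = (T - P) + P := by abel
    calc ‖T‖ = ‖(T - P) + P‖ := by rw [← this]
      _ ≤ ‖T - P‖ + ‖P‖ := norm_add_le _ _
      _ ≤ 1 + δ := by linarith
  have hsq : ‖T * T - T‖ ≤ 4 * δ := by
    have e1 : T * T - T = T * (T - P) + (T - P) * P - (T - P) + (P * P - P) := by noncomm_ring
    rw [e1, hPP, sub_self, add_zero]
    have h1 : ‖T * (T - P)‖ ≤ (1 + δ) * δ :=
      (norm_mul_le _ _).trans (mul_le_mul hTn h (norm_nonneg _) (by linarith))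
    have h2 : ‖(T - P) * P‖ ≤ δ * 1 :=
      (norm_mul_le _ _).trans (mul_le_mul h hPn (norm_nonneg _) hδ0)
    calc ‖T * (T - P) + (T - P) * P - (T - P)‖ ≤ ‖T * (T - P) + (T - P) * P‖ + ‖T - P‖ := norm_sub_le _ _
      _ ≤ ‖T * (T - P)‖ + ‖(T - P) * P‖ + ‖T - P‖ := by gcongr; exact norm_add_le _ _
      _ ≤ 4 * δ := by nlinarith
  have hspec : ∀ t ∈ spectrum ℝ T, |t * t - t| ≤ 4 * δ := by
    intro t ht
    have e1 : T * T - T = cfc (fun x : ℝ => x * x - x) T := by
      rw [cfc_sub (fun x : ℝ => x * x) (fun x => x) T, cfc_mul (fun x : ℝ => x) (fun x => x) T, cfc_id' ℝ T]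
    have h2 := norm_apply_le_norm_cfc (fun x : ℝ => x * x - x) T ht
    rw [← e1, Real.norm_eq_abs] at h2
    exact h2.trans hsq
  have hcase : ∀ t ∈ spectrum ℝ T, (t ≤ 1 / 4 ∧ |t| ≤ 6 * δ) ∨ (3 / 4 ≤ t ∧ |t - 1| ≤ 6 * δ) := by
    intro t ht
    have h1 := hspec t ht
    have e1 : |t * t - t| = |t| * |t - 1| := by rw [← abs_mul]; ring_nf
    rw [e1] at h1
    rcases le_total t (1 / 2) with h2 | h2
    · left
      have h3 : 1 / 2 ≤ |t - 1| := by rw [abs_sub_comm, abs_of_nonneg (by linarith)]; linarith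
      have h4 : |t| ≤ 8 * δ := by nlinarith [abs_nonneg t]
      have h5 : |t| ≤ 1 / 8 := by linarith
      have h6 : t ≤ 1 / 8 := (le_abs_self t).trans h5
      refine ⟨by linarith, ?_⟩
      have h7 : 7 / 8 ≤ |t - 1| := by rw [abs_sub_comm, abs_of_nonneg (by linarith)]; linarith
      nlinarith [abs_nonneg t]
    · right
      have h3 : 1 / 2 ≤ |t| := by rw [abs_of_nonneg (by linarith)]; exact h2
      have h4 : |t - 1| ≤ 8 * δ := by nlinarith [abs_nonneg (t - 1)]
      have h5 : |t - 1| ≤ 1 / 8 := by linarith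
      have h6 := (abs_le.mp h5).1
      refine ⟨by linarith, ?_⟩
      have h7 : 7 / 8 ≤ |t| := by rw [abs_of_nonneg (by linarith)]; linarith
      nlinarith [abs_nonneg (t - 1)]
  let f : ℝ → ℝ := fun t => max 0 (min 1 (2 * t - 1 / 2))
  have hf : Continuous f := by fun_prop
  have hfv : ∀ t ∈ spectrum ℝ T, (f t = 0 ∧ |t| ≤ 6 * δ) ∨ (f t = 1 ∧ |t - 1| ≤ 6 * δ) := by
    intro t ht
    rcases hcase t ht with ⟨h1, h2⟩ | ⟨h1, h2⟩
    · left
      refine ⟨?_, h2⟩
      show max 0 (min 1 (2 * t - 1 / 2)) = 0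
      rw [max_eq_left]; exact (min_le_right _ _).trans (by linarith)
    · right
      refine ⟨?_, h2⟩
      show max 0 (min 1 (2 * t - 1 / 2)) = 1
      rw [min_eq_left (by linarith)]; norm_num
  refine ⟨cfc f T, (cfc_predicate f T : IsSelfAdjoint _), ?_, ?_, ?_⟩
  · rw [← cfc_mul f f T hf.continuousOn hf.continuousOn]
    refine cfc_congr ?_
    intro t ht
    rcases hfv t ht with ⟨h1, _⟩ | ⟨h1, _⟩ <;> simp [h1]
  · have h1 : ‖cfc f T - T‖ ≤ 6 * δ := by
      have e1 : cfc f T - T = cfc (fun x => f x - x) T := by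
        rw [cfc_sub f (fun x => x) T hf.continuousOn continuousOn_id, cfc_id' ℝ T]
      rw [e1]
      refine norm_cfc_le (by positivity) ?_
      intro t ht
      rw [Real.norm_eq_abs]
      rcases hfv t ht with ⟨h1, h2⟩ | ⟨h1, h2⟩
      · rw [h1]; simpa using h2
      · rw [h1, abs_sub_comm]; exact h2
    calc ‖cfc f T - P‖ = ‖(cfc f T - T) + (T - P)‖ := by congr 1; abel
      _ ≤ ‖cfc f T - T‖ + ‖T - P‖ := norm_add_le _ _
      _ ≤ 16 * δ := by linarith
  · intro x hx
    have : Commute T x := (show T * x = x * T from hx.symm)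
    exact (this.cfc_real f).eq.symm

end OE
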