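import Mathlib
import Pool.Agent.Work.MP_06ef15_an.EB
import Pool.Agent.Work.MP_06ef15_an.XA
import Pool.Agent.Work.MP_06ef15_an.XB

/-!
# (13.1) first half: `θ''(g_s)` almost commutes with `PV`; the conjugating unitary `u`

`th_norm`: `‖W a W*‖ = ‖a‖` (unitaries) and `W_N a W_N* → th a` in norm.
`comm_PV`: for `W = W_N`, `P = PV`, `x = W g W*`:  `‖W P - P W‖ ≤ ‖W P - P W P‖ + ‖P W - P W P‖ ≤ 3d + 3d`
(`P W - P W P` is the adjoint of `W* P - P W* P`), the same for `W*`; `g` commutes with `P`; so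
`‖x P - P x‖ ≤ ‖W P - P W‖ + ‖W* P - P W*‖ ≤ 12 d`; let `N → ∞`.
`exists_u`: `exists_average` (module `XA`) with `G = V`, `Gm = VF`, `π = π' = fun s => (th (EgA s) : BH)`, `c s t = ch (bf s t)`,
`T = T₀ = PV`, bound `12 d` gives `T₁ ≥ 0` (so `star T₁ = T₁`) with `‖T₁ - PV‖ ≤ 12 d`, commuting with all `th (g s)` and `gr s`
(`gr s` commutes with `PV` by `gr_PV`, with `th (g s) ∈ A` by `SymC`, with its star by taking adjoints of `gr (-s)`, or use that
`star (gr s)` is a multiple of `gr (-s)`: only `gr s * star (th ..) = star (th ..) * gr s` is needed and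
`star (th (EgA t)) = th (star (EgA t))` is again in `A`).  `near_proj` (`12 d ≤ 1/64`): projection `P'`, `‖P' - PV‖ ≤ 192 d`,
commuting with `th (g s)`, `gr s`.  `proj_perturb` (`192 d ≤ 1/4`): `u`, `‖u - 1‖ ≤ 1536 d`, `P' u = u PV`, `u` commutes with `gr s`.
`star u * th(g_s) * u * PV = star u * th(g_s) * P' * u = star u * P' * th(g_s) * u = PV * star u * th(g_s) * u`
(`star u * P' = PV * star u` is the adjoint of `P' u = u PV`).
-/

set_option autoImplicit false

open scoped ComplexConjugate InnerProductSpace Classical Topology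
open ContinuousLinearMap (adjoint)
open Filter

namespace OE

variable {d : ℝ}

private theorem nst (x : BH) : ‖star x‖ = ‖x‖ := norm_star x

theorem EgA_mul (s t : V) : EgA s * EgA t = ch (bf s t) • EgA (s + t) := Subtype.ext (g_mul s t)
theorem EgA_unit (s : V) : star (EgA s) * EgA s = 1 ∧ EgA s * star (EgA s) = 1 := ⟨Subtype.ext (star_g_mul s), Subtype.ext (g_mul_star s)⟩
theorem EgA_zero : EgA 0 = 1 := Subtype.ext g_zero

theorem th_norm (m : Mid d) (a : A) : ‖m.th a‖ = ‖a‖ := by
  have h1 : Tendsto (fun n => m.W n * a * star (m.W n)) atTop (𝓝 (m.th a)) :=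
    tendsto_iff_norm_sub_tendsto_zero.2 (m.W_lim a)
  have h2 : (fun n => ‖m.W n * a * star (m.W n)‖) = fun _ => ‖a‖ := by
    funext n
    have hu : m.W n ∈ unitary A := Unitary.mem_iff.2 (m.W_unit n)
    rw [CStarRing.norm_mul_mem_unitary _ (Unitary.star_mem hu), CStarRing.norm_mem_unitary_mul _ hu]
  have h3 := h1.norm
  rw [h2] at h3
  exact tendsto_nhds_unique h3 tendsto_const_nhds

theorem th_g_mul (m : Mid d) (s t : V) :
    ((m.th (EgA s) : A) : BH) * ((m.th (EgA t) : A) : BH) = ch (bf s t) • ((m.th (EgA (s + t)) : A) : BH) := by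
  have h : m.th (EgA s) * m.th (EgA t) = ch (bf s t) • m.th (EgA (s + t)) := by
    rw [← map_mul, EgA_mul, map_smul]
  exact congrArg Subtype.val h

theorem th_g_unit (m : Mid d) (s : V) :
    star ((m.th (EgA s) : A) : BH) * ((m.th (EgA s) : A) : BH) = 1 ∧
    ((m.th (EgA s) : A) : BH) * star ((m.th (EgA s) : A) : BH) = 1 := by
  have h1 : star (m.th (EgA s)) * m.th (EgA s) = 1 := by
    rw [← map_star, ← map_mul, (EgA_unit s).1, map_one]
  have h2 : m.th (EgA s) * star (m.th (EgA s)) = 1 := by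
    rw [← map_star, ← map_mul, (EgA_unit s).2, map_one]
  exact ⟨congrArg Subtype.val h1, congrArg Subtype.val h2⟩

theorem th_gcA (m : Mid d) (c : V →₀ ℂ) :
    ((m.th (gcA c) : A) : BH) = c.sum (fun s z => z • ((m.th (EgA s) : A) : BH)) := by
  show A.subtype (m.th (c.sum (fun s z => z • EgA s))) = _
  rw [Finsupp.sum, map_sum, map_sum, Finsupp.sum]
  refine Finset.sum_congr rfl (fun s _ => ?_)
  rw [map_smul, map_smul]
  rfl

theorem comm_PV (m : Mid d) (s : V) :
    ‖((m.th (EgA s) : A) : BH) * PV - PV * ((m.th (EgA s) : A) : BH)‖ ≤ 12 * d := by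
  have hP : star PV = PV := star_PV
  have hg : g s * PV = PV * g s := g_PV s
  have hd : ∀ n, ‖(m.W n : BH) * g s * star (m.W n : BH) * PV - PV * ((m.W n : BH) * g s * star (m.W n : BH))‖ ≤ 12 * d := by
    intro n
    set w : BH := (m.W n : BH) with hw
    have hw1 : star w * w = 1 := congrArg Subtype.val (m.W_unit n).1
    have hw2 : w * star w = 1 := congrArg Subtype.val (m.W_unit n).2
    have i1 : ‖w * PV - PV * w * PV‖ ≤ 3 * d := m.inv n
    have i2 : ‖star w * PV - PV * star w * PV‖ ≤ 3 * d := m.inv' n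
    have i3 : ‖PV * w - PV * w * PV‖ ≤ 3 * d := by
      have e1 : PV * w - PV * w * PV = star (star w * PV - PV * star w * PV) := by
        rw [star_sub, star_mul, star_mul, star_mul, star_star, hP]
        noncomm_ring
      rw [e1, nst]
      exact i2
    have i4 : ‖PV * star w - PV * star w * PV‖ ≤ 3 * d := by
      have e1 : PV * star w - PV * star w * PV = star (w * PV - PV * w * PV) := by
        rw [star_sub, star_mul, star_mul, star_mul, hP]
        noncomm_ring
      rw [e1, nst]
      exact i1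
    have j1 : ‖w * PV - PV * w‖ ≤ 6 * d := by
      have e1 : w * PV - PV * w = (w * PV - PV * w * PV) - (PV * w - PV * w * PV) := by abel
      rw [e1]
      refine (norm_sub_le _ _).trans ?_
      linarith
    have j2 : ‖star w * PV - PV * star w‖ ≤ 6 * d := by
      have e1 : star w * PV - PV * star w = (star w * PV - PV * star w * PV) - (PV * star w - PV * star w * PV) := by
        abel
      rw [e1]
      refine (norm_sub_le _ _).trans ?_
      linarith
    have e2 : w * g s * star w * PV - PV * (w * g s * star w) =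
        w * g s * (star w * PV - PV * star w) + (w * PV - PV * w) * (g s * star w) := by
      have e3 : w * PV * (g s * star w) = w * (g s * PV) * star w := by
        rw [hg]
        noncomm_ring
      rw [sub_mul, e3]
      noncomm_ring
    have nw : ‖w‖ ≤ 1 := by
      have h5 := CStarRing.norm_star_mul_self (x := w)
      rw [hw1] at h5
      have h6 : ‖(1 : BH)‖ ≤ 1 := ContinuousLinearMap.norm_id_le
      nlinarith [norm_nonneg w]
    have n1 : ‖w * g s‖ ≤ 1 := (norm_mul_le _ _).trans (mul_le_one₀ nw (norm_nonneg _) (norm_g_le s))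
    have n2 : ‖g s * star w‖ ≤ 1 := (norm_mul_le _ _).trans
      (mul_le_one₀ (norm_g_le s) (norm_nonneg _) (by rw [nst]; exact nw))
    rw [e2]
    refine (norm_add_le _ _).trans ?_
    have k1 : ‖w * g s * (star w * PV - PV * star w)‖ ≤ 1 * (6 * d) :=
      (norm_mul_le _ _).trans (mul_le_mul n1 j2 (norm_nonneg _) zero_le_one)
    have k2 : ‖(w * PV - PV * w) * (g s * star w)‖ ≤ (6 * d) * 1 :=
      (norm_mul_le _ _).trans (mul_le_mul j1 n2 (norm_nonneg _) ((norm_nonneg _).trans j1))
    linarith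
  have h1 : Tendsto (fun n => m.W n * EgA s * star (m.W n)) atTop (𝓝 (m.th (EgA s))) :=
    tendsto_iff_norm_sub_tendsto_zero.2 (m.W_lim (EgA s))
  have h2 : Tendsto (fun n => ((m.W n * EgA s * star (m.W n) : A) : BH)) atTop (𝓝 ((m.th (EgA s) : A) : BH)) :=
    (continuous_subtype_val.tendsto _).comp h1
  have h3 := ((h2.mul_const PV).sub (h2.const_mul PV)).norm
  exact le_of_tendsto h3 (Eventually.of_forall (fun n => hd n))

theorem exists_u (m : Mid d) (hs : SymC) (hd : 0 ≤ d) (hd1 : d ≤ 1 / 768) :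
    ∃ u : BH, star u * u = 1 ∧ u * star u = 1 ∧ ‖u - 1‖ ≤ 1536 * d ∧
      (∀ s, (star u * ((m.th (EgA s) : A) : BH) * u) * PV = PV * (star u * ((m.th (EgA s) : A) : BH) * u)) ∧
      ∀ s, u * gr s = gr s * u := by
  have hcomm : ∀ (M : ℕ), ∀ s ∈ VF M, ‖((m.th (EgA s) : A) : BH) * PV * star ((m.th (EgA s) : A) : BH) - PV‖ ≤ 12 * d := by
    intro M s _
    obtain ⟨u1, u2⟩ := th_g_unit m s
    have e1 : ((m.th (EgA s) : A) : BH) * PV * star ((m.th (EgA s) : A) : BH) - PV =
        (((m.th (EgA s) : A) : BH) * PV - PV * ((m.th (EgA s) : A) : BH)) * star ((m.th (EgA s) : A) : BH) := by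
      rw [sub_mul, mul_assoc PV, u2, mul_one]
    have n1 : ‖star ((m.th (EgA s) : A) : BH)‖ ≤ 1 := by
      rw [nst]
      have h5 := CStarRing.norm_star_mul_self (x := ((m.th (EgA s) : A) : BH))
      rw [u1] at h5
      have h6 : ‖(1 : BH)‖ ≤ 1 := ContinuousLinearMap.norm_id_le
      nlinarith [norm_nonneg ((m.th (EgA s) : A) : BH)]
    rw [e1]
    refine (norm_mul_le _ _).trans ?_
    have h7 := mul_le_mul (comm_PV m s) n1 (norm_nonneg _) (by linarith : (0 : ℝ) ≤ 12 * d)
    linarith
  obtain ⟨T₁, hT1, hT2, hT3, hT4⟩ := exists_average VF finite_VF (fun a b hab => fun v hv => VF_mono hab hv)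
    (fun s t => ch (bf s t)) (fun s t => norm_ch _) (fun s => ((m.th (EgA s) : A) : BH))
    (fun s => ((m.th (EgA s) : A) : BH)) (fun M s _ t _ => th_g_mul m s t) (fun M s _ t _ => th_g_mul m s t)
    (fun M s _ => (th_g_unit m s).1) PV PV (12 * d) hcomm
  have hT5 : 0 ≤ T₁ := by
    refine hT4 (fun M s _ => rfl) ?_
    have h : PV = star PV * PV := by rw [star_PV, PV_idem]
    rw [h]
    exact star_mul_self_nonneg PV
  have hTsa : star T₁ = T₁ := (IsSelfAdjoint.of_nonneg hT5).star_eq
  obtain ⟨P', hP1, hP2, hP3, hP4⟩ := near_proj T₁ PV hTsa star_PV PV_idem (12 * d) hT1 (by linarith)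
  obtain ⟨u, hu1, hu2, hu3, hu4, hu5⟩ := proj_perturb PV P' star_PV PV_idem hP1 hP2 (192 * d) (by linarith) (by linarith)
  refine ⟨u, hu1, hu2, by linarith, fun s => ?_, fun s => ?_⟩
  · obtain ⟨M, hM⟩ := exists_mem_VF s
    have h1 : ((m.th (EgA s) : A) : BH) * P' = P' * ((m.th (EgA s) : A) : BH) := hP4 _ (hT2 M s hM)
    have h2 : star u * P' = PV * star u := by
      have h3 := congrArg star hu4
      rw [star_mul, star_mul, hP1, star_PV] at h3
      exact h3
    calc (star u * ((m.th (EgA s) : A) : BH) * u) * PV = star u * ((m.th (EgA s) : A) : BH) * (u * PV) := by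
          rw [mul_assoc]
      _ = star u * (((m.th (EgA s) : A) : BH) * P') * u := by rw [← hu4]; noncomm_ring
      _ = (star u * P') * ((m.th (EgA s) : A) : BH) * u := by rw [h1]; noncomm_ring
      _ = PV * (star u * ((m.th (EgA s) : A) : BH) * u) := by rw [h2]; noncomm_ring
  · have h1 : gr s * T₁ = T₁ * gr s := by
      refine hT3 (gr s) (gr_PV s) (fun M t _ => hs.2 _ s) (fun M t _ => ?_)
      exact hs.2 (star (m.th (EgA t))) s
    exact (hu5 (gr s) (gr_PV s) (hP4 _ h1)).symm

end OE
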