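import Mathlib
import Pool.Agent.Work.MP_06ef15_an.EC

/-!
# (13.1) second half: the exact projective representation `ρ₀` on `ℓ²(V)`

`ρ₀ s = cmp (star u * th(g_s) * u)`, `u` from `exists_u`.  Multiplicativity: with `x_s = star u * th(g_s) * u`,
`cmp x_s * cmp x_t = cmp (x_s * PV * x_t) = cmp (x_s * x_t * PV) = cmp (x_s * x_t)` (`x_t` commutes with `PV`), and
`x_s * x_t = ch (bf s t) • x_(s+t)`.  Unitarity in the same way (`star x_s * x_s = 1`).  `rg`: `cmp_rg`, `x_s` commutes with
`gr u'` (`u` and `star u` do: for `star u` multiply `u * gr = gr * u` by `star u` on both sides; `th(g_s) ∈ A`).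
Estimate: `∑ c_s x_s = star u * th (gcA c) * u` and
`‖star u * y * u - y‖ ≤ ‖star u * y * (u - 1)‖ + ‖(star u - 1) * y‖ ≤ 2 * 1536 d * ‖y‖`, `‖y‖ = ‖gcA c‖ ≤ ‖lgc c‖`.
-/

set_option autoImplicit false

open scoped ComplexConjugate InnerProductSpace Classical
open ContinuousLinearMap (adjoint)

namespace OE

private theorem norm_le_one_of_star {u : BH} (h : star u * u = 1) : ‖u‖ ≤ 1 := by
  have h1 : ‖u‖ * ‖u‖ ≤ 1 := by
    rw [← CStarRing.norm_star_mul_self, h]
    exact ContinuousLinearMap.norm_id_le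
  nlinarith [norm_nonneg u]

private theorem cmp_fsum (c : V →₀ ℂ) (x : V → BH) :
    cmp (c.sum (fun s z => z • x s)) = c.sum (fun s z => z • cmp (x s)) := by
  rw [Finsupp.sum, cmp_sum, Finsupp.sum]
  exact Finset.sum_congr rfl fun s _ => cmp_smul _ _

private theorem conj_fsum (c : V →₀ ℂ) (u : BH) (x : V → BH) :
    star u * (c.sum (fun s z => z • x s)) * u = c.sum (fun s z => z • (star u * x s * u)) := by
  rw [Finsupp.sum, Finsupp.sum, Finset.mul_sum, Finset.sum_mul]
  exact Finset.sum_congr rfl fun s _ => by rw [mul_smul_comm, smul_mul_assoc]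

theorem exists_rho0 {d : ℝ} (m : Mid d) (hs : SymC) (hd : 0 ≤ d) (hd1 : d ≤ 1 / 768) :
    ∃ ρ0 : V → (H V →L[ℂ] H V),
      (∀ s t, ρ0 s * ρ0 t = ch (bf s t) • ρ0 (s + t)) ∧
      (∀ s, star (ρ0 s) * ρ0 s = 1 ∧ ρ0 s * star (ρ0 s) = 1) ∧
      (∀ s u, ρ0 s * rg u = rg u * ρ0 s) ∧
      (∀ c : V →₀ ℂ, ‖c.sum (fun s z => z • ρ0 s) - cmp ((m.th (gcA c) : A) : BH)‖ ≤ 3072 * d * ‖lgc c‖) ∧
      (∀ c : V →₀ ℂ, ‖c.sum (fun s z => z • ρ0 s)‖ ≤ ‖lgc c‖) := by
  obtain ⟨u, hu1, hu2, hun, hP, hg⟩ := exists_u m hs hd hd1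
  obtain ⟨a, ha⟩ : ∃ a : V → BH, a = fun s => ((m.th (EgA s) : A) : BH) := ⟨_, rfl⟩
  have ha' : ∀ s, ((m.th (EgA s) : A) : BH) = a s := fun s => by rw [ha]
  have hmul : ∀ s t, a s * a t = ch (bf s t) • a (s + t) := fun s t => by
    rw [← ha', ← ha', ← ha']
    exact th_g_mul m s t
  have hun1 : ∀ s, star (a s) * a s = 1 ∧ a s * star (a s) = 1 := fun s => by
    rw [← ha']
    exact th_g_unit m s
  have hP' : ∀ s, (star u * a s * u) * PV = PV * (star u * a s * u) := fun s => by
    rw [← ha']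
    exact hP s
  have hgr : ∀ s t, gr t * a s = a s * gr t := fun s t => by
    rw [← ha']
    exact hs.2 _ t
  have hug : ∀ t, star u * gr t = gr t * star u := by
    intro t
    calc star u * gr t = star u * gr t * (u * star u) := by rw [hu2, mul_one]
      _ = star u * (gr t * u) * star u := by simp only [mul_assoc]
      _ = star u * (u * gr t) * star u := by rw [hg t]
      _ = (star u * u) * gr t * star u := by simp only [mul_assoc]
      _ = gr t * star u := by rw [hu1, one_mul]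
  have hxx : ∀ p q : BH, (star u * p * u) * (star u * q * u) = star u * (p * q) * u := by
    intro p q
    calc (star u * p * u) * (star u * q * u) = star u * p * (u * star u) * q * u := by
          simp only [mul_assoc]
      _ = star u * (p * q) * u := by rw [hu2, mul_one]; simp only [mul_assoc]
  have hst : ∀ p : BH, star (star u * p * u) = star u * star p * u := by
    intro p
    rw [star_mul, star_mul, star_star]
    simp only [mul_assoc]
  have hc : ∀ c : V →₀ ℂ, c.sum (fun s z => z • cmp (star u * a s * u)) =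
      cmp (star u * ((m.th (gcA c) : A) : BH) * u) := by
    intro c
    rw [th_gcA m c, ← cmp_fsum]
    congr 1
    rw [conj_fsum]
    simp only [ha']
  have hY : ∀ c : V →₀ ℂ, ‖((m.th (gcA c) : A) : BH)‖ ≤ ‖lgc c‖ := by
    intro c
    have h1 : ‖((m.th (gcA c) : A) : BH)‖ = ‖gcA c‖ := th_norm m (gcA c)
    rw [h1]
    exact norm_gcA_le c
  have nu : ‖u‖ ≤ 1 := norm_le_one_of_star hu1
  have nu' : ‖star u‖ ≤ 1 := norm_le_one_of_star (by rw [star_star]; exact hu2)
  have nu1 : ‖star u - 1‖ ≤ 1536 * d := by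
    have h1 : star u - 1 = star (u - 1) := by rw [star_sub, star_one]
    have h2 : ‖star (u - 1)‖ = ‖u - 1‖ := norm_star (u - 1)
    rw [h1, h2]
    exact hun
  refine ⟨fun s => cmp (star u * a s * u), fun s t => ?_, fun s => ⟨?_, ?_⟩, fun s t => ?_,
    fun c => ?_, fun c => ?_⟩
  · show cmp (star u * a s * u) * cmp (star u * a t * u) =
      ch (bf s t) • cmp (star u * a (s + t) * u)
    rw [← cmp_PV_mid, mul_assoc (star u * a s * u) PV, ← hP' t, ← mul_assoc, cmp_PV_right, hxx,
      hmul, mul_smul_comm, smul_mul_assoc, cmp_smul]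
  · show star (cmp (star u * a s * u)) * cmp (star u * a s * u) = 1
    rw [← cmp_star, ← cmp_PV_mid, mul_assoc (star (star u * a s * u)) PV, ← hP' s, ← mul_assoc,
      cmp_PV_right, hst, hxx, (hun1 s).1, mul_one, hu1, cmp_one]
  · show cmp (star u * a s * u) * star (cmp (star u * a s * u)) = 1
    rw [← cmp_star, ← cmp_PV_mid, hP' s, mul_assoc PV, cmp_PV_left, hst, hxx, (hun1 s).2, mul_one,
      hu1, cmp_one]
  · show cmp (star u * a s * u) * rg t = rg t * cmp (star u * a s * u)
    refine cmp_rg ?_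
    calc star u * a s * u * gr t = star u * a s * (u * gr t) := by simp only [mul_assoc]
      _ = star u * (a s * gr t) * u := by rw [hg t]; simp only [mul_assoc]
      _ = star u * gr t * (a s * u) := by rw [← hgr s t]; simp only [mul_assoc]
      _ = gr t * (star u * a s * u) := by rw [hug t]; simp only [mul_assoc]
  · show ‖c.sum (fun s z => z • cmp (star u * a s * u)) - cmp ((m.th (gcA c) : A) : BH)‖ ≤ _
    rw [hc c, ← cmp_sub]
    refine (norm_cmp_le _).trans ?_
    obtain ⟨Yc, hYc⟩ : ∃ y : BH, y = ((m.th (gcA c) : A) : BH) := ⟨_, rfl⟩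
    have hYn : ‖Yc‖ ≤ ‖lgc c‖ := by rw [hYc]; exact hY c
    rw [← hYc]
    have e : star u * Yc * u - Yc = star u * Yc * (u - 1) + (star u - 1) * Yc := by noncomm_ring
    rw [e]
    have h1 : ‖star u * Yc * (u - 1)‖ ≤ ‖lgc c‖ * (1536 * d) := by
      refine (norm_mul_le _ _).trans ?_
      refine mul_le_mul ?_ hun (norm_nonneg _) (norm_nonneg _)
      refine (norm_mul_le _ _).trans ?_
      calc ‖star u‖ * ‖Yc‖ ≤ 1 * ‖lgc c‖ :=
            mul_le_mul nu' hYn (norm_nonneg _) zero_le_one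
        _ = ‖lgc c‖ := one_mul _
    have h2 : ‖(star u - 1) * Yc‖ ≤ (1536 * d) * ‖lgc c‖ :=
      (norm_mul_le _ _).trans (mul_le_mul nu1 hYn (norm_nonneg _) (by linarith))
    refine (norm_add_le _ _).trans ?_
    linarith
  · show ‖c.sum (fun s z => z • cmp (star u * a s * u))‖ ≤ _
    rw [hc c]
    refine (norm_cmp_le _).trans ?_
    refine (norm_mul_le _ _).trans ?_
    calc ‖star u * ((m.th (gcA c) : A) : BH)‖ * ‖u‖ ≤ ‖lgc c‖ * 1 := by
          refine mul_le_mul ?_ nu (norm_nonneg _) (norm_nonneg _)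
          refine (norm_mul_le _ _).trans ?_
          calc ‖star u‖ * ‖((m.th (gcA c) : A) : BH)‖ ≤ 1 * ‖lgc c‖ :=
                mul_le_mul nu' (hY c) (norm_nonneg _) zero_le_one
            _ = ‖lgc c‖ := one_mul _
      _ = ‖lgc c‖ := mul_one _

end OE
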