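import Mathlib
import Pool.Agent.Work.MP_06ef15_an.EB
import Pool.Agent.Work.MP_06ef15_an.XA
import Pool.Agent.Work.MP_06ef15_an.XB

/-!
# (13.2): the unitary `y` with `ρ₀ w * y = y * lg w` for `w ∈ V1 k`

`exists_average` on `ℓ²(V)` with `Gm M = V1 k ∩ VF M` (define it as an `AddSubgroup`, `isV1_zero/add/neg`; finite, increasing;
every `w ∈ V1 k` lies in some `VF M` by `exists_mem_VF`), `π = ρ0`, `π' = lg`, `c s t = ch (bf s t)`, `T = T₀ = 1`: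
`‖ρ0 w * star (lg w) - 1‖ = ‖(ρ0 w - lg w) * star (lg w)‖ ≤ δ`.  It gives `T₁` with `‖T₁ - 1‖ ≤ δ`, `ρ0 w T₁ = T₁ lg w`, and `T₁`
commutes with `rg u` (which commutes with `1`, `ρ0 w`, `star (lg w)` (a multiple of `lg (-w)`)).
Then `polar_near T₁ δ`: `y`.  For `a = ρ0 w`, `b = lg w`: `star a * T₁ = T₁ * star b` follows by multiplying
`ρ0 w T₁ = T₁ lg w` by `star (ρ0 w)` on the left and `star (lg w)` on the right.  For `a = b = rg u`: `star (rg u)` is a multiple of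
`rg (-u)`.
-/

set_option autoImplicit false

open scoped ComplexConjugate InnerProductSpace Classical
open ContinuousLinearMap (adjoint)

namespace OE

/-- the finite subgroups of the tail. -/
private def gmS (k M : ℕ) : AddSubgroup V where
  carrier := {v | IsV1 k v ∧ v ∈ VF M}
  zero_mem' := ⟨isV1_zero k, (VF M).zero_mem⟩
  add_mem' := fun ha hb => ⟨isV1_add ha.1 hb.1, (VF M).add_mem ha.2 hb.2⟩
  neg_mem' := fun ha => ⟨isV1_neg ha.1, (VF M).neg_mem ha.2⟩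

theorem exists_y (k : ℕ) (ρ0 : V → (H V →L[ℂ] H V)) (δ : ℝ) (hδ : δ ≤ 1 / 4)
    (hmul : ∀ s t, ρ0 s * ρ0 t = ch (bf s t) • ρ0 (s + t))
    (hun : ∀ s, star (ρ0 s) * ρ0 s = 1 ∧ ρ0 s * star (ρ0 s) = 1)
    (hrg : ∀ s u, ρ0 s * rg u = rg u * ρ0 s)
    (h : ∀ w, IsV1 k w → ‖ρ0 w - lg w‖ ≤ δ) :
    ∃ y : H V →L[ℂ] H V, star y * y = 1 ∧ y * star y = 1 ∧ ‖y - 1‖ ≤ 8 * δ ∧
      (∀ w, IsV1 k w → ρ0 w * y = y * lg w) ∧ ∀ u, y * rg u = rg u * y := by
  have hfin : ∀ M, ((gmS k M : AddSubgroup V) : Set V).Finite := fun M =>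
    (finite_VF M).subset (fun v hv => hv.2)
  have hmono : Monotone (gmS k) := fun M M' hMM v hv => ⟨hv.1, VF_mono hMM hv.2⟩
  have hd : ∀ M, ∀ s ∈ gmS k M, ‖ρ0 s * 1 * star (lg s) - 1‖ ≤ δ := by
    intro M s hs
    have h1 : ρ0 s * 1 * star (lg s) - 1 = (ρ0 s - lg s) * star (lg s) := by
      rw [sub_mul, lg_mul_star, mul_one]
    rw [h1]
    calc ‖(ρ0 s - lg s) * star (lg s)‖ ≤ ‖ρ0 s - lg s‖ * ‖star (lg s)‖ := norm_mul_le _ _
      _ = ‖ρ0 s - lg s‖ := by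
        have h2 : ‖star (lg s)‖ = 1 := (LinearIsometryEquiv.norm_map adjoint (lg s)).trans (norm_lg s)
        rw [h2, mul_one]
      _ ≤ δ := h s hs.1
  obtain ⟨T₁, hT1, hT2, hT3, -⟩ := exists_average (K := H V) (gmS k) hfin hmono (fun s t => ch (bf s t))
    (fun s t => norm_ch _) ρ0 lg (fun M s _ t _ => hmul s t) (fun M s _ t _ => lg_mul s t)
    (fun M s _ => star_lg_mul s) 1 1 δ hd
  obtain ⟨y, hy1, hy2, hy3, hy4⟩ := polar_near T₁ δ hT1 hδ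
  refine ⟨y, hy1, hy2, hy3, fun w hw => ?_, fun u => ?_⟩
  · obtain ⟨M, hM⟩ := exists_mem_VF w
    have h1 : ρ0 w * T₁ = T₁ * lg w := hT2 M w ⟨hw, hM⟩
    refine hy4 (ρ0 w) (lg w) h1 ?_
    calc star (ρ0 w) * T₁ = star (ρ0 w) * (T₁ * (lg w * star (lg w))) := by rw [lg_mul_star, mul_one]
      _ = star (ρ0 w) * ((T₁ * lg w) * star (lg w)) := by rw [mul_assoc T₁]
      _ = star (ρ0 w) * ((ρ0 w * T₁) * star (lg w)) := by rw [h1]
      _ = (star (ρ0 w) * ρ0 w) * (T₁ * star (lg w)) := by simp only [mul_assoc]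
      _ = T₁ * star (lg w) := by rw [(hun w).1, one_mul]
  · have hc : ∀ u, rg u * T₁ = T₁ * rg u := by
      intro u
      refine hT3 (rg u) (by rw [mul_one, one_mul]) (fun M s _ => (hrg s u).symm) (fun M s _ => ?_)
      rw [star_lg, mul_smul_comm, smul_mul_assoc, lg_rg]
    refine (hy4 (rg u) (rg u) (hc u) ?_).symm
    rw [star_rg, smul_mul_assoc, mul_smul_comm, hc]

end OE
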