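import Mathlib
import Pool.Agent.Work.MP_06ef15_an.EB

/-!
# (12.5): the compressions `Z_N = cmp (W_N)`

Write `W = W_N`, `P = PV`, `Z = cmp W`.  `1 - P` is handled by `W P - P W P = (1 - P) W P`.
`Z_iso`: `star Z * Z = cmp (star W * P * W)` and `1 = cmp (star W * W)`; difference `cmp (star W * (W P - P W P))` up to `cmp (x * P) = cmp x`
(`star W * W * P - star W * P * W * P = star W * (W P - P W P)`), norm `≤ 3 d`.  `Z_coiso` the same with `star W`.
`Z_Dx`: `Dx * Z - Z * Dx = cmp (Dchi * (P W P) - (P W P) * Dchi)`.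
`Z_Z`: `cmp (W' * P * W) = Z' Z`, `‖W' W P - W' P W P‖ ≤ 3 d`; same for `Z Z'`; and `WW`: total `3d + 3d + 2d`.
`Z_lim`: `b = gcA c` commutes with `P` (`g_PV`), `Z * lgc c * star Z = cmp (W * P * b * P * star W) = cmp (W * b * P * star W)`;
`‖W b (star W * P - P * star W * P)‖ ≤ 3 d ‖b‖`; `W b star W → th b` in norm: eventually within `d ‖lgc c‖` if `c ≠ 0`
(`lgc c ≠ 0` by `lgc_eq_zero`); for `c = 0` both sides vanish.
-/

set_option autoImplicit false

open scoped ComplexConjugate InnerProductSpace Classical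
open ContinuousLinearMap (adjoint)
open Filter

namespace OE

variable {d : ℝ}

private theorem Wu (m : Mid d) (N : ℕ) : star (m.W N : BH) * (m.W N : BH) = 1 :=
  congrArg Subtype.val (m.W_unit N).1

private theorem Wu' (m : Mid d) (N : ℕ) : (m.W N : BH) * star (m.W N : BH) = 1 :=
  congrArg Subtype.val (m.W_unit N).2

private theorem norm_le_one_of {T : BH} (h : star T * T = 1) : ‖T‖ ≤ 1 := by
  have h1 : ‖T‖ * ‖T‖ ≤ 1 := by
    rw [← CStarRing.norm_star_mul_self, h]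
    exact ContinuousLinearMap.norm_id_le
  nlinarith [norm_nonneg T]

private theorem nW (m : Mid d) (N : ℕ) : ‖(m.W N : BH)‖ ≤ 1 := norm_le_one_of (Wu m N)

private theorem nW' (m : Mid d) (N : ℕ) : ‖star (m.W N : BH)‖ ≤ 1 := by
  refine norm_le_one_of ?_
  rw [star_star]
  exact Wu' m N

private theorem nPV : ‖PV‖ ≤ 1 := norm_pr_le sV

private theorem nml {x y : BH} {a : ℝ} (hx : ‖x‖ ≤ 1) (hy : ‖y‖ ≤ a) : ‖x * y‖ ≤ a := by
  calc ‖x * y‖ ≤ ‖x‖ * ‖y‖ := norm_mul_le _ _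
    _ ≤ 1 * a := mul_le_mul hx hy (norm_nonneg _) zero_le_one
    _ = a := one_mul _

private theorem nmr {x y : BH} {a : ℝ} (hx : ‖x‖ ≤ a) (hy : ‖y‖ ≤ 1) : ‖x * y‖ ≤ a := by
  calc ‖x * y‖ ≤ ‖x‖ * ‖y‖ := norm_mul_le _ _
    _ ≤ a * 1 := mul_le_mul hx hy (norm_nonneg _) ((norm_nonneg _).trans hx)
    _ = a := mul_one _

theorem Z_rg (m : Mid d) (hs : SymC) (N : ℕ) (u : V) :
    cmp (m.W N : BH) * rg u = rg u * cmp (m.W N : BH) := cmp_rg (hs.2 (m.W N) u).symm

theorem Z_norm_le (m : Mid d) (N : ℕ) : ‖cmp (m.W N : BH)‖ ≤ 1 := (norm_cmp_le _).trans (nW m N)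

private theorem iso_aux {W W' : BH} {d : ℝ} (h1 : W' * W = 1) (hn : ‖W'‖ ≤ 1)
    (h : ‖W * PV - PV * W * PV‖ ≤ 3 * d) : ‖cmp W' * cmp W - 1‖ ≤ 3 * d := by
  have h2 : cmp W' * cmp W - 1 = cmp (W' * PV * W - W' * W) := by
    rw [cmp_sub, cmp_PV_mid, h1, cmp_one]
  rw [h2]
  refine (norm_cmp_le_PV _).trans ?_
  have h3 : (W' * PV * W - W' * W) * PV = -(W' * (W * PV - PV * W * PV)) := by
    simp only [mul_sub, sub_mul, mul_assoc, neg_sub]
  rw [h3, norm_neg]
  exact nml hn h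

theorem Z_iso' (m : Mid d) (N : ℕ) : ‖star (cmp (m.W N : BH)) * cmp (m.W N : BH) - 1‖ ≤ 3 * d := by
  rw [← cmp_star]
  exact iso_aux (Wu m N) (nW' m N) (m.inv N)

theorem Z_coiso' (m : Mid d) (N : ℕ) : ‖cmp (m.W N : BH) * star (cmp (m.W N : BH)) - 1‖ ≤ 3 * d := by
  rw [← cmp_star]
  exact iso_aux (Wu' m N) (nW m N) (m.inv' N)

theorem Z_Dx' (m : Mid d) (N : ℕ) : ‖Dx * cmp (m.W N : BH) - cmp (m.W N : BH) * Dx‖ ≤ 14 * d := by
  have h1 : Dx * cmp (m.W N : BH) - cmp (m.W N : BH) * Dx =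
      cmp (Dchi * (PV * (m.W N : BH) * PV) - (PV * (m.W N : BH) * PV) * Dchi) := by
    rw [cmp_sub]
    have e1 : Dchi * (PV * (m.W N : BH) * PV) = (Dchi * PV * (m.W N : BH)) * PV := by
      simp only [mul_assoc]
    have e2 : (PV * (m.W N : BH) * PV) * Dchi = PV * ((m.W N : BH) * PV * Dchi) := by
      simp only [mul_assoc]
    rw [e1, e2, cmp_PV_right, cmp_PV_left, cmp_PV_mid, cmp_PV_mid, cmp_Dchi]
  rw [h1]
  exact (norm_cmp_le _).trans (m.dchi N)

theorem Z_Z' (m : Mid d) (N : ℕ) : ∀ᶠ N' in atTop,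
    ‖cmp (m.W N' : BH) * cmp (m.W N : BH) - conj kap • (cmp (m.W N : BH) * cmp (m.W N' : BH))‖ ≤ 8 * d := by
  filter_upwards [m.WW N] with N' hN
  have h0 : ‖(m.W N' : BH) * (m.W N : BH) - conj kap • ((m.W N : BH) * (m.W N' : BH))‖ ≤ 2 * d := hN
  have hk : ‖conj kap‖ = 1 := by
    rw [RCLike.norm_conj]
    exact norm_ch 1
  have h1 := m.inv N'
  have h2 := m.inv N
  have h3 := nW m N'
  have h4 := nW m N
  have e1 : cmp (m.W N' : BH) * cmp (m.W N : BH) - conj kap • (cmp (m.W N : BH) * cmp (m.W N' : BH)) =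
      cmp ((m.W N' : BH) * PV * (m.W N : BH) - conj kap • ((m.W N : BH) * PV * (m.W N' : BH))) := by
    rw [cmp_sub, cmp_smul, cmp_PV_mid, cmp_PV_mid]
  have e2 : ((m.W N' : BH) * PV * (m.W N : BH) - conj kap • ((m.W N : BH) * PV * (m.W N' : BH))) * PV =
      -((m.W N' : BH) * ((m.W N : BH) * PV - PV * (m.W N : BH) * PV)) +
      conj kap • ((m.W N : BH) * ((m.W N' : BH) * PV - PV * (m.W N' : BH) * PV)) +
      ((m.W N' : BH) * (m.W N : BH) - conj kap • ((m.W N : BH) * (m.W N' : BH))) * PV := by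
    simp only [mul_sub, sub_mul, smul_mul_assoc, smul_sub, mul_assoc]
    abel
  rw [e1]
  refine (norm_cmp_le_PV _).trans ?_
  rw [e2]
  calc _ ≤ ‖-((m.W N' : BH) * ((m.W N : BH) * PV - PV * (m.W N : BH) * PV)) +
      conj kap • ((m.W N : BH) * ((m.W N' : BH) * PV - PV * (m.W N' : BH) * PV))‖ +
      ‖((m.W N' : BH) * (m.W N : BH) - conj kap • ((m.W N : BH) * (m.W N' : BH))) * PV‖ := norm_add_le _ _
    _ ≤ (‖-((m.W N' : BH) * ((m.W N : BH) * PV - PV * (m.W N : BH) * PV))‖ +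
      ‖conj kap • ((m.W N : BH) * ((m.W N' : BH) * PV - PV * (m.W N' : BH) * PV))‖) +
      ‖((m.W N' : BH) * (m.W N : BH) - conj kap • ((m.W N : BH) * (m.W N' : BH))) * PV‖ := by
        gcongr; exact norm_add_le _ _
    _ ≤ (3 * d + 3 * d) + 2 * d := by
        rw [norm_neg, norm_smul, hk, one_mul]
        exact add_le_add (add_le_add (nml h3 h2) (nml h4 h1)) (nmr h0 nPV)
    _ = 8 * d := by ring

theorem Z_lim (m : Mid d) (hd : 0 < d) (c : V →₀ ℂ) : ∀ᶠ N in atTop,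
    ‖cmp (m.W N : BH) * lgc c * star (cmp (m.W N : BH)) - cmp ((m.th (gcA c) : A) : BH)‖ ≤ 4 * d * ‖lgc c‖ := by
  by_cases hc : lgc c = 0
  · have hc0 : c = 0 := lgc_eq_zero hc
    subst hc0
    refine Filter.Eventually.of_forall fun N => ?_
    have h1 : gcA 0 = 0 := Finsupp.sum_zero_index
    rw [hc, h1, map_zero, mul_zero, zero_mul]
    have h2 : cmp (((0 : A) : A) : BH) = 0 := cmp_zero
    rw [h2, sub_zero, norm_zero, mul_zero]
  · have hpos : 0 < d * ‖lgc c‖ := mul_pos hd (norm_pos_iff.2 hc)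
    have hev := (m.W_lim (gcA c)).eventually (eventually_le_nhds hpos)
    filter_upwards [hev] with N hN
    set b : BH := ((gcA c : A) : BH) with hb
    have hbP : b * PV = PV * b := by
      rw [hb, coe_gcA]
      unfold Finsupp.sum
      rw [Finset.sum_mul, Finset.mul_sum]
      refine Finset.sum_congr rfl fun s _ => ?_
      rw [smul_mul_assoc, mul_smul_comm, g_PV]
    have hnb : ‖b‖ ≤ ‖lgc c‖ := norm_gcA_le c
    have hN' : ‖(m.W N : BH) * b * star (m.W N : BH) - ((m.th (gcA c) : A) : BH)‖ ≤ d * ‖lgc c‖ := hN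
    have hPP : PV * PV = PV := pr_idem sV
    have e1 : cmp (m.W N : BH) * lgc c * star (cmp (m.W N : BH)) =
        cmp ((m.W N : BH) * b * PV * star (m.W N : BH)) := by
      rw [← cmp_gcA, ← hb, ← cmp_star, ← cmp_PV_mid, ← cmp_PV_mid]
      congr 1
      have e3 : (m.W N : BH) * PV * b * PV = (m.W N : BH) * b * PV := by
        rw [mul_assoc (m.W N : BH), ← hbP, mul_assoc (m.W N : BH), mul_assoc b, hPP, mul_assoc]
      rw [e3]
    have e2 : cmp (m.W N : BH) * lgc c * star (cmp (m.W N : BH)) - cmp ((m.th (gcA c) : A) : BH) =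
        cmp ((m.W N : BH) * b * PV * star (m.W N : BH) - (m.W N : BH) * b * star (m.W N : BH)) +
        cmp ((m.W N : BH) * b * star (m.W N : BH) - ((m.th (gcA c) : A) : BH)) := by
      rw [e1, cmp_sub, cmp_sub]
      abel
    have e4 : ((m.W N : BH) * b * PV * star (m.W N : BH) - (m.W N : BH) * b * star (m.W N : BH)) * PV =
        -((m.W N : BH) * (b * (star (m.W N : BH) * PV - PV * star (m.W N : BH) * PV))) := by
      simp only [mul_sub, sub_mul, mul_assoc, neg_sub]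
    have h5 : ‖cmp ((m.W N : BH) * b * PV * star (m.W N : BH) - (m.W N : BH) * b * star (m.W N : BH))‖ ≤
        ‖lgc c‖ * (3 * d) := by
      refine (norm_cmp_le_PV _).trans ?_
      rw [e4, norm_neg]
      refine nml (nW m N) ((norm_mul_le _ _).trans ?_)
      exact mul_le_mul hnb (m.inv' N) (norm_nonneg _) (norm_nonneg _)
    rw [e2]
    calc _ ≤ ‖cmp ((m.W N : BH) * b * PV * star (m.W N : BH) - (m.W N : BH) * b * star (m.W N : BH))‖ +
        ‖cmp ((m.W N : BH) * b * star (m.W N : BH) - ((m.th (gcA c) : A) : BH))‖ := norm_add_le _ _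
      _ ≤ ‖lgc c‖ * (3 * d) + d * ‖lgc c‖ := add_le_add h5 ((norm_cmp_le _).trans hN')
      _ = 4 * d * ‖lgc c‖ := by ring

end OE
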