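import Mathlib
import Pool.Agent.Work.MP_06ef15_an.ED
import Pool.Agent.Work.MP_06ef15_an.EE
import Pool.Agent.Work.MP_06ef15_an.EF

/-!
# Section 13, assembly: `Mid d` gives `EndData (60000 d)`

`ρ0` from `exists_rho0`.  For `w ∈ V1 k`: `‖ρ0 w - lg w‖ ≤ ‖ρ0 w - cmp (th g_w)‖ + ‖cmp (th g_w - g_w)‖ ≤ 3072 d + d`
(use `c = single w 1`, `‖lgc (single w 1)‖ = ‖lg w‖ ≤ 1`, `norm_cmp_le_PV`, `Mid.V1`).  `exists_y` with `δ = 3073 d ≤ 1/4`: `y`,
`‖y - 1‖ ≤ 24584 d`.  `ρ s = star y * ρ0 s * y`, `Z N = cmp (W N)`.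
`ρ_V1`: `star y * ρ0 w * y = star y * y * lg w`.  `ρ_v0`: `‖star y * x * y - x‖ ≤ 2 ‖y - 1‖ ‖x‖`, then
`‖ρ0 v0 - cmp (th g_v0)‖ ≤ 3072 d` and `‖cmp (th g_v0) - lg v0‖ ≤ d`: total `49168 d + 3072 d + d ≤ 60000 d`.
`Z_ρ`: `4 d + 3072 d + 49168 d ≤ 60000 d` times `‖lgc c‖` (`‖∑ c_s ρ0 s‖ ≤ ‖lgc c‖`).
-/

set_option autoImplicit false

open scoped ComplexConjugate InnerProductSpace Classical
open ContinuousLinearMap (adjoint)

namespace OE

private theorem norm_le_one_of_iso {E : Type*} [NormedAddCommGroup E] [InnerProductSpace ℂ E] [CompleteSpace E]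
    {T : E →L[ℂ] E} (h : star T * T = 1) : ‖T‖ ≤ 1 := by
  have h1 : ‖T‖ * ‖T‖ ≤ 1 := by
    rw [← CStarRing.norm_star_mul_self, h]
    exact ContinuousLinearMap.norm_id_le
  by_contra h2
  have h3 := not_le.1 h2
  nlinarith [norm_nonneg T]

private theorem conj_near {E : Type*} [NormedAddCommGroup E] [InnerProductSpace ℂ E] [CompleteSpace E]
    {y x : E →L[ℂ] E} {δ : ℝ} (hy : star y * y = 1) (hδ : ‖y - 1‖ ≤ δ) :
    ‖star y * x * y - x‖ ≤ 2 * δ * ‖x‖ := by
  have h0 : 0 ≤ δ := (norm_nonneg _).trans hδ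
  have h1 : star y * x * y - x = star y * x * (y - 1) + star (y - 1) * x := by
    rw [star_sub, star_one]
    noncomm_ring
  have h2 : ‖star y * x * (y - 1)‖ ≤ ‖x‖ * δ := by
    refine (norm_mul_le _ _).trans (mul_le_mul ?_ hδ (norm_nonneg _) (norm_nonneg _))
    refine (norm_mul_le _ _).trans ?_
    rw [norm_star]
    exact mul_le_of_le_one_left (norm_nonneg _) (norm_le_one_of_iso hy)
  have h3 : ‖star (y - 1) * x‖ ≤ δ * ‖x‖ := by
    refine (norm_mul_le _ _).trans ?_
    rw [norm_star]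
    exact mul_le_mul_of_nonneg_right hδ (norm_nonneg _)
  rw [h1]
  refine (norm_add_le _ _).trans ?_
  linarith

private theorem sum_conj (y : H V →L[ℂ] H V) (ρ0 : V → (H V →L[ℂ] H V)) (c : V →₀ ℂ) :
    c.sum (fun s z => z • (star y * ρ0 s * y)) = star y * c.sum (fun s z => z • ρ0 s) * y := by
  unfold Finsupp.sum
  rw [Finset.mul_sum, Finset.sum_mul]
  refine Finset.sum_congr rfl fun s _ => ?_
  rw [mul_smul_comm, smul_mul_assoc]

theorem endData_of_mid {d : ℝ} (m : Mid d) (hs : SymC) (hd : 0 < d) (hd1 : d ≤ 1 / 20000) :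
    Nonempty (EndData (60000 * d)) := by
  obtain ⟨ρ0, hmul, hun, hrg, hest, hnorm⟩ := exists_rho0 m hs hd.le (by linarith)
  have hsingle : ∀ w, ‖ρ0 w - cmp ((m.th (EgA w) : A) : BH)‖ ≤ 3072 * d := by
    intro w
    have h1 := hest (Finsupp.single w 1)
    rw [Finsupp.sum_single_index (zero_smul ℂ (ρ0 w)), one_smul, gcA_single, one_smul, lgc_single,
      one_smul, norm_lg, mul_one] at h1
    exact h1
  have hV1 : ∀ w, IsV1 m.k w → ‖ρ0 w - lg w‖ ≤ 3073 * d := by
    intro w hw
    have h1 : ‖cmp ((m.th (EgA w) : A) : BH) - lg w‖ ≤ d := by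
      rw [← cmp_g, ← cmp_sub]
      refine (norm_cmp_le_PV _).trans ?_
      rw [sub_mul]
      exact m.V1 w hw
    have h2 := hsingle w
    have h3 : ρ0 w - lg w = (ρ0 w - cmp ((m.th (EgA w) : A) : BH)) +
        (cmp ((m.th (EgA w) : A) : BH) - lg w) := by abel
    rw [h3]
    refine (norm_add_le _ _).trans ?_
    linarith
  obtain ⟨y, hy1, hy2, hy3, hy4, hy5⟩ := exists_y m.k ρ0 (3073 * d) (by linarith) hmul hun hrg hV1
  have hys : ∀ u, star y * rg u = rg u * star y := by
    intro u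
    calc star y * rg u = star y * rg u * (y * star y) := by rw [hy2, mul_one]
      _ = star y * (rg u * y) * star y := by noncomm_ring
      _ = star y * (y * rg u) * star y := by rw [hy5]
      _ = (star y * y) * (rg u * star y) := by noncomm_ring
      _ = rg u * star y := by rw [hy1, one_mul]
  have hconj : ∀ x : H V →L[ℂ] H V, ‖star y * x * y - x‖ ≤ 49168 * d * ‖x‖ := by
    intro x
    have h1 := conj_near (x := x) hy1 hy3
    linarith
  refine ⟨{ k := m.k
            ρ := fun s => star y * ρ0 s * y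
            Z := fun N => cmp (m.W N : BH)
            ρ_mul := ?_
            ρ_unitary := ?_
            ρ_comm := ?_
            ρ_V1 := ?_
            ρ_v0 := ?_
            Z_comm := fun N u => Z_rg m hs N u
            Z_norm := fun N => Z_norm_le m N
            Z_iso := fun N => (Z_iso' m N).trans (by linarith)
            Z_coiso := fun N => (Z_coiso' m N).trans (by linarith)
            Z_Dx := fun N => (Z_Dx' m N).trans (by linarith)
            Z_ρ := ?_
            Z_Z := ?_ }⟩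
  · intro s t
    calc star y * ρ0 s * y * (star y * ρ0 t * y)
        = star y * ρ0 s * (y * star y) * ρ0 t * y := by noncomm_ring
      _ = star y * (ρ0 s * ρ0 t) * y := by rw [hy2]; noncomm_ring
      _ = _ := by rw [hmul, mul_smul_comm, smul_mul_assoc]
  · intro s
    have e1 : star (star y * ρ0 s * y) = star y * star (ρ0 s) * y := by
      rw [star_mul, star_mul, star_star]
      noncomm_ring
    rw [e1]
    constructor
    · calc star y * star (ρ0 s) * y * (star y * ρ0 s * y)
          = star y * star (ρ0 s) * (y * star y) * ρ0 s * y := by noncomm_ring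
        _ = star y * (star (ρ0 s) * ρ0 s) * y := by rw [hy2]; noncomm_ring
        _ = 1 := by rw [(hun s).1, mul_one, hy1]
    · calc star y * ρ0 s * y * (star y * star (ρ0 s) * y)
          = star y * ρ0 s * (y * star y) * star (ρ0 s) * y := by noncomm_ring
        _ = star y * (ρ0 s * star (ρ0 s)) * y := by rw [hy2]; noncomm_ring
        _ = 1 := by rw [(hun s).2, mul_one, hy1]
  · intro s u
    calc star y * ρ0 s * y * rg u = star y * ρ0 s * (y * rg u) := by noncomm_ring
      _ = star y * (ρ0 s * rg u) * y := by rw [hy5]; noncomm_ring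
      _ = (star y * rg u) * ρ0 s * y := by rw [hrg]; noncomm_ring
      _ = rg u * (star y * ρ0 s * y) := by rw [hys]; noncomm_ring
  · intro w hw
    show star y * ρ0 w * y = lg w
    rw [mul_assoc, hy4 w hw, ← mul_assoc, hy1, one_mul]
  · show ‖star y * ρ0 v0 * y - lg v0‖ ≤ 60000 * d
    have h1 := hconj (ρ0 v0)
    have h2 : ‖ρ0 v0‖ ≤ 1 := norm_le_one_of_iso (hun v0).1
    have h3 : 49168 * d * ‖ρ0 v0‖ ≤ 49168 * d := mul_le_of_le_one_right (by linarith) h2
    have h4 := hsingle v0
    have h5 : ‖cmp ((m.th (EgA v0) : A) : BH) - lg v0‖ ≤ d := by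
      rw [← cmp_g, ← cmp_sub]
      exact (norm_cmp_le _).trans m.v0
    have h6 : star y * ρ0 v0 * y - lg v0 = (star y * ρ0 v0 * y - ρ0 v0) +
        (ρ0 v0 - cmp ((m.th (EgA v0) : A) : BH)) + (cmp ((m.th (EgA v0) : A) : BH) - lg v0) := by
      abel
    rw [h6]
    refine (norm_add₃_le).trans ?_
    linarith
  · intro c
    filter_upwards [Z_lim m hd c] with N hN
    show ‖cmp (m.W N : BH) * lgc c * star (cmp (m.W N : BH)) -
      c.sum (fun s z => z • (star y * ρ0 s * y))‖ ≤ 60000 * d * ‖lgc c‖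
    rw [sum_conj]
    have h1 := hconj (c.sum (fun s z => z • ρ0 s))
    have h2 : 49168 * d * ‖c.sum (fun s z => z • ρ0 s)‖ ≤ 49168 * d * ‖lgc c‖ :=
      mul_le_mul_of_nonneg_left (hnorm c) (by linarith)
    have h3 := hest c
    have h4 : cmp (m.W N : BH) * lgc c * star (cmp (m.W N : BH)) -
        star y * c.sum (fun s z => z • ρ0 s) * y =
        (cmp (m.W N : BH) * lgc c * star (cmp (m.W N : BH)) - cmp ((m.th (gcA c) : A) : BH)) +
        -(c.sum (fun s z => z • ρ0 s) - cmp ((m.th (gcA c) : A) : BH)) +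
        -(star y * c.sum (fun s z => z • ρ0 s) * y - c.sum (fun s z => z • ρ0 s)) := by
      abel
    rw [h4]
    refine (norm_add₃_le).trans ?_
    rw [norm_neg, norm_neg]
    have h5 : 0 ≤ d * ‖lgc c‖ := mul_nonneg hd.le (norm_nonneg _)
    nlinarith
  · intro N
    filter_upwards [Z_Z' m N] with N' hN'
    exact hN'.trans (by linarith)

theorem endData_mono {ε ε' : ℝ} (h : ε ≤ ε') (E : EndData ε) : Nonempty (EndData ε') := by
  refine ⟨{ k := E.k
            ρ := E.ρ
            Z := E.Z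
            ρ_mul := E.ρ_mul
            ρ_unitary := E.ρ_unitary
            ρ_comm := E.ρ_comm
            ρ_V1 := E.ρ_V1
            ρ_v0 := E.ρ_v0.trans h
            Z_comm := E.Z_comm
            Z_norm := E.Z_norm
            Z_iso := fun N => (E.Z_iso N).trans h
            Z_coiso := fun N => (E.Z_coiso N).trans h
            Z_Dx := fun N => (E.Z_Dx N).trans h
            Z_ρ := ?_
            Z_Z := ?_ }⟩
  · intro c
    filter_upwards [E.Z_ρ c] with N hN
    exact hN.trans (mul_le_mul_of_nonneg_right h (norm_nonneg _))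
  · intro N
    filter_upwards [E.Z_Z N] with N' hN'
    exact hN'.trans h

end OE
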