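import Mathlib
import Pool.Agent.Work.MP_06ef15_an.EA

/-!
# (12.5)(b): the commutator with `Dchi`

`b = P x P`, `P = PV`, `R_c = R (inr true) 0`.  `‖x P - b‖ ≤ 3 d` (`GapV` with `2 d`).  For `ξ ∈ ran P`: `R_c Dchi ξ = C ξ`
(`Cc_PB` and `PB_mul_PV`: `Cc * PV = R_c * Dchi * PV`), and `‖R_c ξ‖ = ‖ξ‖` (`norm_R_PB`).
`z = Dchi b - b Dchi` satisfies `z = P z P` (`Dchi_PV`), so `‖z ξ‖ = ‖R_c z ξ‖`, and
`R_c z = R_c Dchi b - R_c b Dchi = C b - R_c b Dchi`;  `‖C b - C x P‖ ≤ 2 * 3 d`;  `‖R_c b Dchi - R_c x P Dchi‖ ≤ 2 * 3 d`;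
`R_c x P Dchi = x R_c Dchi P = x C P` (`SymC`);  `‖(C x - x C) P‖ ≤ 2 d`.  Total `14 d`.
-/

set_option autoImplicit false

open scoped ComplexConjugate InnerProductSpace Classical
open ContinuousLinearMap (adjoint)

namespace OE

private theorem norm_Dchi_le' : ‖Dchi‖ ≤ 1 := by
  have h1 : ‖Dchi‖ * ‖Dchi‖ ≤ 1 := by
    rw [← CStarRing.norm_star_mul_self, star_Dchi_mul]
    exact ContinuousLinearMap.norm_id_le
  by_contra h2
  have h3 := not_le.1 h2
  nlinarith [norm_nonneg Dchi]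

private theorem norm_Cc_le' : ‖Cc‖ ≤ 2 := norm_Y_le _ _

private theorem alg_id (C x P R D : BH) (h1 : C * P = R * D * P) (h2 : R * x = x * R)
    (h3 : D * P = P * D) :
    R * (D * (P * x * P) - (P * x * P) * D) =
      C * (P * x * P - x * P) + (C * x - x * C) * P + R * (x * P - P * x * P) * D := by
  have e1 : R * (D * (P * x * P)) = C * (P * x * P) := by
    calc R * (D * (P * x * P)) = (R * D * P) * (x * P) := by noncomm_ring
      _ = (C * P) * (x * P) := by rw [h1]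
      _ = C * (P * x * P) := by noncomm_ring
  have e2 : x * (C * P) = R * (x * P) * D := by
    calc x * (C * P) = x * R * (D * P) := by rw [h1]; noncomm_ring
      _ = R * x * (P * D) := by rw [h2, h3]
      _ = R * (x * P) * D := by noncomm_ring
  calc R * (D * (P * x * P) - (P * x * P) * D)
      = R * (D * (P * x * P)) - R * ((P * x * P) * D) := by noncomm_ring
    _ = C * (P * x * P) - R * ((P * x * P) * D) + (R * (x * P) * D - x * (C * P)) := by
        rw [e1, e2]; noncomm_ring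
    _ = _ := by noncomm_ring

theorem dchi_bound (hg : GapV) (hs : SymC) (x : A) (d : ℝ) (h : ∀ i < 9, ‖EXA i * x - x * EXA i‖ ≤ 2 * d)
    (hC : ‖ECA * x - x * ECA‖ ≤ 2 * d) :
    ‖Dchi * (PV * (x : BH) * PV) - (PV * (x : BH) * PV) * Dchi‖ ≤ 14 * d := by
  set X0 : BH := (x : BH) with hX0
  set Rc : BH := R (Sum.inr true) 0 with hRc
  set z : BH := Dchi * (PV * X0 * PV) - (PV * X0 * PV) * Dchi with hz
  have hgap : ‖X0 * PV - PV * X0 * PV‖ ≤ 3 * d := by
    have h1 := hg x (2 * d) h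
    linarith
  have hgap' : ‖PV * X0 * PV - X0 * PV‖ ≤ 3 * d := by
    rw [← norm_neg, neg_sub]
    exact hgap
  have hd : 0 ≤ d := by
    have := norm_nonneg (X0 * PV - PV * X0 * PV)
    linarith
  have hCP : Cc * PV = Rc * Dchi * PV := by
    have h1 := congrArg (fun S : BH => S * PV) Cc_PB
    simp only [mul_assoc, PB_mul_PV] at h1
    rw [h1, mul_assoc]
  have hC' : ‖Cc * X0 - X0 * Cc‖ ≤ 2 * d := hC
  -- the operator `Rc` is isometric on the range of `z`
  have hPz : PB * z = z := by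
    have h1 : z = PV * (Dchi * X0 * PV - X0 * PV * Dchi) := by
      rw [hz]
      calc Dchi * (PV * X0 * PV) - PV * X0 * PV * Dchi
          = (Dchi * PV) * X0 * PV - PV * X0 * PV * Dchi := by noncomm_ring
        _ = (PV * Dchi) * X0 * PV - PV * X0 * PV * Dchi := by rw [Dchi_PV]
        _ = _ := by noncomm_ring
    rw [h1, ← mul_assoc, PB_mul_PV]
  have hiso : ‖z‖ ≤ ‖Rc * z‖ := by
    refine ContinuousLinearMap.opNorm_le_bound _ (norm_nonneg _) fun ξ => ?_
    have h1 : PB (z ξ) = z ξ := DFunLike.congr_fun hPz ξ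
    have h2 := norm_R_PB (Sum.inr true) 0 (z ξ)
    rw [h1] at h2
    rw [← h2]
    exact (Rc * z).le_opNorm ξ
  have hid := alg_id Cc X0 PV Rc Dchi hCP (hs.1 x (Sum.inr true) 0) Dchi_PV
  refine hiso.trans ?_
  rw [hz, hid]
  have n1 : ‖Cc * (PV * X0 * PV - X0 * PV)‖ ≤ 2 * (3 * d) :=
    (norm_mul_le _ _).trans (mul_le_mul norm_Cc_le' hgap' (norm_nonneg _) (by norm_num))
  have n2 : ‖(Cc * X0 - X0 * Cc) * PV‖ ≤ 2 * d := by
    refine (norm_mul_le _ _).trans ?_
    exact (mul_le_of_le_one_right (norm_nonneg _) norm_PV_le).trans hC'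
  have n3 : ‖Rc * (X0 * PV - PV * X0 * PV) * Dchi‖ ≤ 2 * (3 * d) := by
    refine (norm_mul_le _ _).trans ?_
    refine (mul_le_of_le_one_right (norm_nonneg _) norm_Dchi_le').trans ?_
    exact (norm_mul_le _ _).trans (mul_le_mul (norm_R_le _ _) hgap (norm_nonneg _) (by norm_num))
  refine (norm_add_le _ _).trans ?_
  have n4 := norm_add_le (Cc * (PV * X0 * PV - X0 * PV)) ((Cc * X0 - X0 * Cc) * PV)
  linarith

end OE
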