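import Mathlib
import Pool.Agent.Work.MP_06ef15_an.EA

/-!
# (12.2), (12.3): `θ'' = Ad(t'_m)* ∘ θ'`

`conjHom u h th a = star u * th a * u` as a *-homomorphism.
`exists_m`: `‖t n * a * star (t n) - th a‖ = ‖a - star (t n) * th a * t n‖` (unitary `t n`), so for each of the eleven elements the
inequality holds for all large `n`.
`exists_k`: `star u * th (g_w) * u - th (g_w) = star u * (th (g_w) * u - u * th (g_w))`, and with `a = thi u`:
`th (g_w) * u - u * th (g_w) = th (g_w * a - a * g_w)`; the norm of `th b` is `≤ ‖b‖` (limit of `‖t n * b * star (t n)‖`).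
`cent a (d/2)` and `small (d/2)`; take the maximum of the two `k` (`isV1_mono`).
-/

set_option autoImplicit false

open scoped ComplexConjugate InnerProductSpace Classical Topology
open ContinuousLinearMap (adjoint)
open Filter

namespace OE

/-- `a ↦ u* th(a) u`. -/
noncomputable def conjHom (u : A) (h : u * star u = 1) (h' : star u * u = 1) (th : A →⋆ₐ[ℂ] A) : A →⋆ₐ[ℂ] A where
  toFun a := star u * th a * u
  map_one' := by rw [map_one, mul_one, h']
  map_mul' a b := by
    rw [map_mul]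
    calc star u * (th a * th b) * u = star u * th a * (u * star u) * th b * u := by rw [h]; noncomm_ring
      _ = star u * th a * u * (star u * th b * u) := by noncomm_ring
  map_zero' := by rw [map_zero, mul_zero, zero_mul]
  map_add' a b := by rw [map_add]; noncomm_ring
  commutes' c := by
    rw [AlgHomClass.commutes, Algebra.algebraMap_eq_smul_one, mul_smul_comm, mul_one, smul_mul_assoc, h']
  map_star' a := by rw [map_star, star_mul, star_mul, star_star, mul_assoc]

theorem conjHom_apply (u : A) (h : u * star u = 1) (h' : star u * u = 1) (th : A →⋆ₐ[ℂ] A) (a : A) :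
    conjHom u h h' th a = star u * th a * u := rfl

private theorem unit_right {u : A} (h : star u * u = 1 ∧ u * star u = 1) (a : A) : ‖a * u‖ = ‖a‖ :=
  CStarRing.norm_mul_mem_unitary _ (Unitary.mem_iff.2 h)

private theorem unit_left' {u : A} (h : star u * u = 1 ∧ u * star u = 1) (a : A) : ‖star u * a‖ = ‖a‖ :=
  CStarRing.norm_mem_unitary_mul _ (Unitary.star_mem (Unitary.mem_iff.2 h))

theorem exists_m (p : PreEnd) (d : ℝ) (hd : 0 < d) :
    ∃ m, (∀ i < 9, ‖star (p.t m) * p.th (EXA i) * p.t m - EXA i‖ ≤ d) ∧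
      ‖star (p.t m) * p.th ECA * p.t m - ECA‖ ≤ d ∧
      ‖star (p.t m) * p.th (EgA v0) * p.t m - EgA v0‖ ≤ d := by
  have key : ∀ a : A, ∀ᶠ n in atTop, ‖star (p.t n) * p.th a * p.t n - a‖ ≤ d := by
    intro a
    have h1 : ∀ᶠ n in atTop, ‖p.t n * a * star (p.t n) - p.th a‖ < d := (p.t_lim a).eventually (gt_mem_nhds hd)
    filter_upwards [h1] with n hn
    obtain ⟨u1, u2⟩ := p.t_unit n
    have e1 : star (p.t n) * p.th a * p.t n - a = -(star (p.t n) * (p.t n * a * star (p.t n) - p.th a) * p.t n) := by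
      have e2 : star (p.t n) * (p.t n * a * star (p.t n) - p.th a) * p.t n =
          (star (p.t n) * p.t n) * a * (star (p.t n) * p.t n) - star (p.t n) * p.th a * p.t n := by noncomm_ring
      rw [e2, u1, one_mul, mul_one]
      abel
    rw [e1, norm_neg, unit_right (p.t_unit n), unit_left' (p.t_unit n)]
    exact hn.le
  have hX : ∀ᶠ n in atTop, ∀ i ∈ Finset.range 9, ‖star (p.t n) * p.th (EXA i) * p.t n - EXA i‖ ≤ d :=
    (eventually_all_finset _).2 (fun i _ => key _)
  obtain ⟨n, ⟨h1, h2⟩, h3⟩ := ((hX.and (key ECA)).and (key (EgA v0))).exists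
  exact ⟨n, fun i hi => h1 i (Finset.mem_range.2 hi), h2, h3⟩

theorem pre_norm_le (p : PreEnd) (a : A) : ‖p.th a‖ ≤ ‖a‖ := by
  have h1 : Tendsto (fun n => p.t n * a * star (p.t n)) atTop (𝓝 (p.th a)) :=
    tendsto_iff_norm_sub_tendsto_zero.2 (p.t_lim a)
  refine le_of_tendsto h1.norm (Eventually.of_forall (fun n => ?_))
  have hst : star (star (p.t n)) * star (p.t n) = 1 ∧ star (p.t n) * star (star (p.t n)) = 1 := by
    rw [star_star]
    exact ⟨(p.t_unit n).2, (p.t_unit n).1⟩
  rw [unit_right hst]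
  have h2 := unit_left' hst a
  rw [star_star] at h2
  exact h2.le

theorem exists_k (p : PreEnd) (m : ℕ) (d : ℝ) (hd : 0 < d) :
    ∃ k, ∀ w, IsV1 k w →
      ‖((star (p.t m) * p.th (EgA w) * p.t m : A) : BH) * PV - g w * PV‖ ≤ d := by
  obtain ⟨k1, hk1⟩ := p.cent (p.thi (p.t m)) (d / 2) (by linarith)
  obtain ⟨k2, hk2⟩ := p.small (d / 2) (by linarith)
  refine ⟨max k1 k2, fun w hw => ?_⟩
  have h1 := hk1 w (isV1_mono (le_max_left _ _) hw)
  have h2 := hk2 w (isV1_mono (le_max_right _ _) hw)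
  obtain ⟨u1, u2⟩ := p.t_unit m
  have e1 : star (p.t m) * p.th (EgA w) * p.t m - p.th (EgA w) =
      star (p.t m) * p.th (EgA w * p.thi (p.t m) - p.thi (p.t m) * EgA w) := by
    rw [map_sub, map_mul, map_mul, p.th_thi, mul_sub, ← mul_assoc, ← mul_assoc, u1, one_mul]
  have h3 : ‖star (p.t m) * p.th (EgA w) * p.t m - p.th (EgA w)‖ ≤ d / 2 := by
    rw [e1, unit_left' (p.t_unit m)]
    exact (pre_norm_le p _).trans h1
  have e2 : ((star (p.t m) * p.th (EgA w) * p.t m : A) : BH) * PV - g w * PV =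
      ((star (p.t m) * p.th (EgA w) * p.t m - p.th (EgA w) : A) : BH) * PV +
        (((p.th (EgA w) : A) : BH) * PV - g w * PV) := by
    have e3 : ((star (p.t m) * p.th (EgA w) * p.t m - p.th (EgA w) : A) : BH) =
        ((star (p.t m) * p.th (EgA w) * p.t m : A) : BH) - ((p.th (EgA w) : A) : BH) := rfl
    rw [e3, sub_mul]
    abel
  rw [e2]
  refine (norm_add_le _ _).trans ?_
  have h4 : ‖((star (p.t m) * p.th (EgA w) * p.t m - p.th (EgA w) : A) : BH) * PV‖ ≤ d / 2 * 1 :=
    (norm_mul_le _ _).trans (mul_le_mul h3 norm_PV_le (norm_nonneg _) (by linarith))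
  linarith

end OE
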