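import Mathlib
import Pool.Agent.Work.MP_06ef15_an.EH
import Pool.Agent.Work.MP_06ef15_an.EI

/-!
# (12.4): from `PreEnd` to `Mid d`

`m` from `exists_m`, `u = t m`, `th2 = conjHom u`, `W' n = star u * t n`.  `W' n * a * star (W' n) → th2 a`.
For the eleven `a`: eventually `‖W' n * a * star (W' n) - a‖ ≤ 2 d`, so `‖W' n * a - a * W' n‖ ≤ 2 d` (`a` on either side), also
`‖star (W' n) * a - a * star (W' n)‖ ≤ 2 d`.  Let `N₁` be such that all this holds for `n ≥ N₁` and
`‖star u * W' n * u - conj kap • W' n‖ ≤ d` for `n ≥ N₁`:  `W' n * u * star (W' n) → th2 u = star u * th u * u = conj kap • u`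
(`th u = conj kap • u`), so `‖W' n * u - conj kap • (u * W' n)‖ → 0` and `star u * W' n * u - conj kap • W' n → 0`.
`th (W' n) = star (th u) * th (t n) = (kap • star u) * (conj kap • t n) = W' n`, so `th2 (W' n) = star u * W' n * u`.
Define `W n = W' (n + N₁)`.
`inv`, `inv'`: `GapV` with `2 d`.  `dchi`: `dchi_bound`.
`WW`: `W n' * W n * star (W n') → th2 (W n)`, which is within `d` of `conj kap • W n`; multiply by `W n'` on the right.
`V1`: `exists_k`.  `v0`: `exists_m`.
-/

set_option autoImplicit false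

open scoped ComplexConjugate InnerProductSpace Classical Topology
open ContinuousLinearMap (adjoint)
open Filter

namespace OE

private theorem unit_right {u : A} (h : star u * u = 1 ∧ u * star u = 1) (a : A) : ‖a * u‖ = ‖a‖ :=
  CStarRing.norm_mul_mem_unitary _ (Unitary.mem_iff.2 h)

private theorem unit_left {u : A} (h : star u * u = 1 ∧ u * star u = 1) (a : A) : ‖u * a‖ = ‖a‖ :=
  CStarRing.norm_mem_unitary_mul _ (Unitary.mem_iff.2 h)

private theorem unit_conj' {u : A} (h : star u * u = 1 ∧ u * star u = 1) (a : A) : ‖star u * a * u‖ = ‖a‖ := by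
  rw [unit_right h]
  exact CStarRing.norm_mem_unitary_mul _ (Unitary.star_mem (Unitary.mem_iff.2 h))

theorem mid_of_pre (p : PreEnd) (hg : GapV) (hs : SymC) (d : ℝ) (hd : 0 < d) : Nonempty (Mid d) := by
  obtain ⟨m, hm1, hm2, hm3⟩ := exists_m p d hd
  obtain ⟨k, hk⟩ := exists_k p m d hd
  obtain ⟨hu1, hu2⟩ := p.t_unit m
  set u : A := p.t m with hu
  set th2 : A →⋆ₐ[ℂ] A := conjHom u hu2 hu1 p.th with hth2
  have th2a : ∀ a, th2 a = star u * p.th a * u := fun a => rfl
  have hkap : kap * conj kap = 1 := by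
    rw [Complex.mul_conj, Complex.normSq_eq_norm_sq, norm_kap]
    norm_num
  let W' : ℕ → A := fun n => star u * p.t n
  have hW' : ∀ n, W' n = star u * p.t n := fun n => rfl
  have hWu : ∀ n, star (W' n) * W' n = 1 ∧ W' n * star (W' n) = 1 := by
    intro n
    obtain ⟨h1, h2⟩ := p.t_unit n
    rw [hW', star_mul, star_star]
    constructor
    · calc star (p.t n) * u * (star u * p.t n) = star (p.t n) * (u * star u) * p.t n := by noncomm_ring
        _ = 1 := by rw [hu2, mul_one, h1]
    · calc star u * p.t n * (star (p.t n) * u) = star u * (p.t n * star (p.t n)) * u := by noncomm_ring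
        _ = 1 := by rw [h2, mul_one, hu1]
  have hWl : ∀ a : A, Tendsto (fun n => ‖W' n * a * star (W' n) - th2 a‖) atTop (𝓝 0) := by
    intro a
    refine squeeze_zero (fun n => norm_nonneg _) (fun n => ?_) (p.t_lim a)
    have e1 : W' n * a * star (W' n) - th2 a = star u * (p.t n * a * star (p.t n) - p.th a) * u := by
      rw [hW', th2a, star_mul, star_star]
      noncomm_ring
    rw [e1]
    exact le_of_eq (unit_conj' ⟨hu1, hu2⟩ _)
  have hcl : ∀ a : A, ‖star u * p.th a * u - a‖ ≤ d → ∀ᶠ n in atTop,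
      ‖a * W' n - W' n * a‖ ≤ 2 * d ∧ ‖a * star (W' n) - star (W' n) * a‖ ≤ 2 * d := by
    intro a ha
    have h1 : ∀ᶠ n in atTop, ‖W' n * a * star (W' n) - th2 a‖ < d := (hWl a).eventually (gt_mem_nhds hd)
    filter_upwards [h1] with n hn
    have h2 : ‖W' n * a * star (W' n) - a‖ ≤ 2 * d := by
      have e1 : W' n * a * star (W' n) - a = (W' n * a * star (W' n) - th2 a) + (th2 a - a) := by abel
      rw [e1]
      refine (norm_add_le _ _).trans ?_
      rw [← th2a] at ha
      linarith
    have h3 : ‖a * W' n - W' n * a‖ ≤ 2 * d := by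
      have e1 : W' n * a - a * W' n = (W' n * a * star (W' n) - a) * W' n := by
        rw [sub_mul, mul_assoc (W' n * a), (hWu n).1, mul_one]
      rw [norm_sub_rev, e1, unit_right (hWu n)]
      exact h2
    refine ⟨h3, ?_⟩
    have e2 : a * star (W' n) - star (W' n) * a = star (W' n) * (W' n * a - a * W' n) * star (W' n) := by
      rw [mul_sub, sub_mul, ← mul_assoc (star (W' n)) (W' n) a, (hWu n).1, one_mul, ← mul_assoc (star (W' n)) a (W' n),
        mul_assoc (star (W' n) * a) (W' n), (hWu n).2, mul_one]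
    have hst : star (star (W' n)) * star (W' n) = 1 ∧ star (W' n) * star (star (W' n)) = 1 := by
      rw [star_star]
      exact ⟨(hWu n).2, (hWu n).1⟩
    rw [e2, unit_right hst, unit_left hst, norm_sub_rev]
    exact h3
  have hX : ∀ᶠ n in atTop, ∀ i ∈ Finset.range 9,
      ‖EXA i * W' n - W' n * EXA i‖ ≤ 2 * d ∧ ‖EXA i * star (W' n) - star (W' n) * EXA i‖ ≤ 2 * d := by
    refine (eventually_all_finset _).2 (fun i hi => hcl _ (hm1 i (Finset.mem_range.1 hi)))
  have hC := hcl _ hm2
  have hthu : p.th u = conj kap • u := p.th_t m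
  have hth2u : th2 u = conj kap • u := by
    rw [th2a, hthu, mul_smul_comm, smul_mul_assoc, hu1, one_mul]
  have hthW : ∀ n, p.th (W' n) = W' n := by
    intro n
    rw [hW', map_mul, map_star, hthu, p.th_t n, star_smul, smul_mul_smul_comm]
    have h5 : star (conj kap) * conj kap = (1 : ℂ) := by
      show star (star kap) * conj kap = 1
      rw [star_star]
      exact hkap
    rw [h5, one_smul]
  have hK : ∀ᶠ n in atTop, ‖th2 (W' n) - conj kap • W' n‖ ≤ d := by
    have h1 : ∀ᶠ n in atTop, ‖W' n * u * star (W' n) - th2 u‖ < d := (hWl u).eventually (gt_mem_nhds hd)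
    filter_upwards [h1] with n hn
    have e1 : th2 (W' n) - conj kap • W' n = star u * (W' n * u * star (W' n) - th2 u) * W' n := by
      rw [hth2u, th2a, hthW, mul_sub, sub_mul, mul_smul_comm, smul_mul_assoc, hu1, one_mul]
      have e2 : star u * (W' n * u * star (W' n)) * W' n = star u * W' n * u * (star (W' n) * W' n) := by noncomm_ring
      rw [e2, (hWu n).1, mul_one]
    have hst : star (star u) * star u = 1 ∧ star u * star (star u) = 1 := by
      rw [star_star]
      exact ⟨hu2, hu1⟩
    rw [e1, unit_right (hWu n), unit_left hst]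
    exact hn.le
  obtain ⟨N₁, hN₁⟩ := eventually_atTop.1 ((hX.and hC).and hK)
  have hWW : ∀ n, ∀ᶠ n' in atTop, ‖W' (n' + N₁) * W' (n + N₁) - conj kap • (W' (n + N₁) * W' (n' + N₁))‖ ≤ 2 * d := by
    intro n
    have h1 : ∀ᶠ n' in atTop, ‖W' n' * W' (n + N₁) * star (W' n') - th2 (W' (n + N₁))‖ < d :=
      (hWl _).eventually (gt_mem_nhds hd)
    have h2 := (tendsto_add_atTop_nat N₁).eventually h1
    filter_upwards [h2] with n' hn'
    have h3 : ‖th2 (W' (n + N₁)) - conj kap • W' (n + N₁)‖ ≤ d := (hN₁ _ (Nat.le_add_left _ _)).2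
    have e1 : W' (n' + N₁) * W' (n + N₁) - conj kap • (W' (n + N₁) * W' (n' + N₁)) =
        ((W' (n' + N₁) * W' (n + N₁) * star (W' (n' + N₁)) - th2 (W' (n + N₁))) +
          (th2 (W' (n + N₁)) - conj kap • W' (n + N₁))) * W' (n' + N₁) := by
      rw [sub_add_sub_cancel, sub_mul, mul_assoc (W' (n' + N₁) * W' (n + N₁)), (hWu _).1, mul_one, smul_mul_assoc]
    rw [e1, unit_right (hWu _)]
    refine (norm_add_le _ _).trans ?_
    linarith
  refine ⟨{ th := th2
            W := fun n => W' (n + N₁)
            W_unit := fun n => hWu _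
            W_lim := fun a => (hWl a).comp (tendsto_add_atTop_nat N₁)
            inv := fun n => ?_
            inv' := fun n => ?_
            dchi := fun n => ?_
            WW := hWW
            k := k
            V1 := fun w hw => hk w hw
            v0 := hm3 }⟩
  · have h := hg (W' (n + N₁)) (2 * d)
      (fun i hi => ((hN₁ _ (Nat.le_add_left _ _)).1.1 i (Finset.mem_range.2 hi)).1)
    linarith
  · have h := hg (star (W' (n + N₁))) (2 * d)
      (fun i hi => ((hN₁ _ (Nat.le_add_left _ _)).1.1 i (Finset.mem_range.2 hi)).2)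
    have h2 : ((star (W' (n + N₁)) : A) : BH) = star (W' (n + N₁) : BH) := rfl
    rw [h2] at h
    linarith
  · exact dchi_bound hg hs _ d (fun i hi => ((hN₁ _ (Nat.le_add_left _ _)).1.1 i (Finset.mem_range.2 hi)).1)
      (hN₁ _ (Nat.le_add_left _ _)).1.2.1

end OE
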