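import Mathlib
import Pool.Agent.Work.MP_06ef15_an.CE

/-!
# `A` is a C*-algebra; membership of the generators; the interface statements about anti-automorphisms
-/

set_option autoImplicit false

open scoped ComplexConjugate InnerProductSpace Classical
open ContinuousLinearMap (adjoint)

namespace OE

theorem isClosed_A : IsClosed ((A : StarSubalgebra ℂ BH) : Set BH) :=
  StarSubalgebra.isClosed_topologicalClosure _

instance instIsClosedA : IsClosed ((A : StarSubalgebra ℂ BH) : Set BH) := isClosed_A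

noncomputable instance instCStarAlgebraA : CStarAlgebra A := inferInstance

theorem gens_sub_A {x : BH} (hx : x ∈ gens) : x ∈ A :=
  StarSubalgebra.le_topologicalClosure _ (StarAlgebra.subset_adjoin ℂ gens hx)

theorem Y_mem (t : T) (k : ℤ) : Y t k ∈ A := gens_sub_A (Or.inl ⟨t, k, rfl⟩)
theorem X_mem (i : ℕ) : X i ∈ A := Y_mem _ _
theorem Cc_mem : Cc ∈ A := Y_mem _ _
theorem g_mem (u : V) : g u ∈ A := gens_sub_A (Or.inr (Or.inl ⟨u, rfl⟩))
theorem Sg_mem (b : Bool) : Sg b ∈ A := gens_sub_A (Or.inr (Or.inr ⟨b, rfl⟩))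

theorem Sw_mem (μ : List Bool) : Sw μ ∈ A := by
  induction μ with
  | nil => rw [Sw_nil]; exact A.one_mem
  | cons b μ ih => rw [Sw_cons]; exact A.mul_mem (Sg_mem b) ih

theorem Yw_mem (y : List (T × ℤ)) : Yw y ∈ A := by
  induction y with
  | nil => rw [Yw_nil]; exact A.one_mem
  | cons a y ih => rw [Yw_cons]; exact A.mul_mem (Y_mem _ _) ih

theorem Nw_mem (y : List (T × ℤ)) (v : V) (μ ν : List Bool) : Nw y v μ ν ∈ A :=
  A.mul_mem (A.mul_mem (A.mul_mem (Yw_mem y) (g_mem v)) (Sw_mem μ)) (A.star_mem' (Sw_mem ν))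

/-- the semicircular elements in `A`. -/
noncomputable def XA (i : ℕ) : A := ⟨X i, X_mem i⟩
/-- the circular element in `A`. -/
noncomputable def CA' : A := ⟨Cc, Cc_mem⟩
/-- the unitaries `g u` in `A`. -/
noncomputable def gA (u : V) : A := ⟨g u, g_mem u⟩

end OE
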