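import Mathlib
import Pool.Agent.Work.MP_06ef15_an.AN0

/-!
# Anti-automorphisms of `A`: basic facts

`norm_f`: `a ↦ op (f a)` is an injective *-homomorphism of C*-algebras `A → Aᵐᵒᵖ`, hence isometric.
`f_nonneg`: `0 ≤ a` in `B(H)` with `a ∈ A`: `a = star b * b` with `b ∈ A` (square root), `f a = f b * star (f b)`.
`commute_A`: the commutant of a star-closed set of generators is closed under everything.
-/

set_option autoImplicit false

open scoped ComplexConjugate InnerProductSpace Classical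
open ContinuousLinearMap (adjoint)

namespace OE

/-- an anti-automorphism from a *-isomorphism onto the opposite algebra. -/
noncomputable def antiOfEquiv (φ : A ≃⋆ₐ[ℂ] Aᵐᵒᵖ) : Anti where
  f := { toFun := fun a => (φ a).unop
         map_add' := by intro a b; rw [map_add]; rfl
         map_smul' := by intro c a; rw [map_smul]; rfl }
  g := { toFun := fun a => φ.symm (MulOpposite.op a)
         map_add' := by intro a b; rw [MulOpposite.op_add, map_add]
         map_smul' := by intro c a; rw [MulOpposite.op_smul, map_smul]; rfl }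
  fg := by intro a; show (φ (φ.symm (MulOpposite.op a))).unop = a; rw [StarAlgEquiv.apply_symm_apply]; rfl
  gf := by intro a; show φ.symm (MulOpposite.op (φ a).unop) = a; rw [MulOpposite.op_unop, StarAlgEquiv.symm_apply_apply]
  map_mul := by intro a b; show (φ (a * b)).unop = _; rw [map_mul]; rfl
  map_star := by intro a; show (φ (star a)).unop = _; rw [map_star]; rfl

private theorem an1_sqrt {B : Type*} [CStarAlgebra B] [PartialOrder B] [StarOrderedRing B]
    (S : StarSubalgebra ℂ B) (hS : IsClosed (S : Set B)) {a : B} (ha : a ∈ S) (h : 0 ≤ a) :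
    ∃ b ∈ S, star b = b ∧ b * b = a := by
  refine ⟨cfc Real.sqrt a, cfc_mem (𝕜 := ℝ) (𝕜' := ℂ) (s := S) Real.sqrt ha,
    (cfc_predicate Real.sqrt a : IsSelfAdjoint _), ?_⟩
  rw [← cfc_mul Real.sqrt Real.sqrt a]
  have h1 : cfc (fun x => Real.sqrt x * Real.sqrt x) a = cfc (id : ℝ → ℝ) a :=
    cfc_congr fun x hx => Real.mul_self_sqrt (spectrum_nonneg_of_nonneg h hx)
  rw [h1, cfc_id ℝ a]

namespace Anti

variable (σ : Anti)

theorem g_mul (a b : A) : σ.g (a * b) = σ.g b * σ.g a := by
  have h : σ.f (σ.g b * σ.g a) = a * b := by rw [σ.map_mul, σ.fg, σ.fg]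
  rw [← h, σ.gf]
theorem g_star (a : A) : σ.g (star a) = star (σ.g a) := by
  have h : σ.f (star (σ.g a)) = star a := by rw [σ.map_star, σ.fg]
  rw [← h, σ.gf]
theorem f_one : σ.f 1 = 1 := by
  have h : σ.f (σ.g 1) * σ.f 1 = σ.f (σ.g 1) := by rw [← σ.map_mul, one_mul]
  rwa [σ.fg, one_mul] at h
theorem g_one : σ.g 1 = 1 := by
  have h := σ.gf 1
  rwa [σ.f_one] at h
theorem norm_f (a : A) : ‖σ.f a‖ = ‖a‖ := by
  have hu : ∀ x : A, IsUnit x → IsUnit (σ.f x) := by
    intro x hx
    obtain ⟨y, hy1, hy2⟩ := isUnit_iff_exists.1 hx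
    refine isUnit_iff_exists.2 ⟨σ.f y, ?_, ?_⟩
    · rw [← σ.map_mul, hy2, σ.f_one]
    · rw [← σ.map_mul, hy1, σ.f_one]
  have hug : ∀ x : A, IsUnit x → IsUnit (σ.g x) := by
    intro x hx
    obtain ⟨y, hy1, hy2⟩ := isUnit_iff_exists.1 hx
    refine isUnit_iff_exists.2 ⟨σ.g y, ?_, ?_⟩
    · rw [← σ.g_mul, hy2, σ.g_one]
    · rw [← σ.g_mul, hy1, σ.g_one]
  have hsp : ∀ x : A, spectrum ℂ (σ.f x) = spectrum ℂ x := by
    intro x
    have hal : ∀ c : ℂ, σ.f (algebraMap ℂ A c) = algebraMap ℂ A c := by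
      intro c
      rw [Algebra.algebraMap_eq_smul_one, map_smul, σ.f_one]
    ext c
    rw [spectrum.mem_iff, spectrum.mem_iff, not_iff_not]
    constructor
    · intro h
      have h1 := hug _ h
      rw [map_sub, σ.gf, ← hal c, σ.gf] at h1
      exact h1
    · intro h
      have h1 := hu _ h
      rw [map_sub, hal] at h1
      exact h1
  have hsa : ∀ x : A, IsSelfAdjoint x → ‖σ.f x‖ = ‖x‖ := by
    intro x hx
    have hx' : IsSelfAdjoint (σ.f x) := by
      have h1 := σ.map_star x
      rw [hx.star_eq] at h1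
      exact h1.symm
    have h2 := hx.spectralRadius_eq_nnnorm
    have h3 := hx'.spectralRadius_eq_nnnorm
    rw [spectralRadius, hsp x] at h3
    rw [spectralRadius, h3] at h2
    have h4 : ‖σ.f x‖₊ = ‖x‖₊ := by exact_mod_cast h2
    exact congrArg NNReal.toReal h4
  have h5 : ‖σ.f a‖ * ‖σ.f a‖ = ‖a‖ * ‖a‖ := by
    rw [← CStarRing.norm_self_mul_star, ← CStarRing.norm_star_mul_self, ← σ.map_star,
      ← σ.map_mul]
    exact hsa _ (IsSelfAdjoint.star_mul_self a)
  nlinarith [norm_nonneg (σ.f a), norm_nonneg a, mul_self_inj_of_nonneg (norm_nonneg (σ.f a))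
    (norm_nonneg a)]
theorem norm_g (a : A) : ‖σ.g a‖ = ‖a‖ := by
  rw [← σ.norm_f (σ.g a), σ.fg]

/-- the inverse anti-automorphism. -/
noncomputable def inv : Anti := ⟨σ.g, σ.f, σ.gf, σ.fg, σ.g_mul, σ.g_star⟩

theorem f_nonneg {a : A} (h : 0 ≤ (a : BH)) : 0 ≤ ((σ.f a : A) : BH) := by
  obtain ⟨b0, hb, hbs, hbb⟩ := an1_sqrt A isClosed_A a.2 h
  set b : A := ⟨b0, hb⟩ with hbdef
  have h2 : a = b * b := Subtype.ext hbb.symm
  have h3 : star b = b := Subtype.ext hbs
  have h4 : σ.f a = star (σ.f b) * σ.f b := by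
    rw [← σ.map_star, h3, ← σ.map_mul, ← h2]
  rw [h4]
  exact star_mul_self_nonneg ((σ.f b : A) : BH)
theorem f_mono {a b : A} (h : (a : BH) ≤ (b : BH)) : ((σ.f a : A) : BH) ≤ ((σ.f b : A) : BH) := by
  have h1 : 0 ≤ ((b - a : A) : BH) := by
    show (0 : BH) ≤ (b : BH) - (a : BH)
    exact sub_nonneg.2 h
  have h2 := σ.f_nonneg h1
  rw [map_sub] at h2
  exact sub_nonneg.1 h2
theorem f_pow (a : A) (n : ℕ) : σ.f (a ^ n) = (σ.f a) ^ n := by
  induction n with
  | zero => rw [pow_zero, pow_zero, σ.f_one]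
  | succ n ih => rw [pow_succ, σ.map_mul, ih, pow_succ']
theorem nc_f {x : ℕ → A} (h : NC x) : NC (fun n => σ.f (x n)) := by
  intro a
  have h1 := h (σ.g a)
  refine h1.congr fun n => ?_
  have h2 : σ.f (x n) * a - a * σ.f (x n) = -(σ.f (x n * σ.g a - σ.g a * x n)) := by
    rw [map_sub, σ.map_mul, σ.map_mul, σ.fg]
    abel
  rw [h2, norm_neg, σ.norm_f]

end Anti

/-- operators commuting with the generators and their adjoints commute with `A`. -/
theorem commute_A {S : BH} (h1 : ∀ x ∈ gens, S * x = x * S) (h2 : ∀ x ∈ gens, S * star x = star x * S) (a : A) :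
    S * (a : BH) = (a : BH) * S := by
  have hcl : IsClosed {T : BH | S * T = T * S} :=
    isClosed_eq (continuous_const.mul continuous_id) (continuous_id.mul continuous_const)
  have h3 : ∀ T ∈ StarAlgebra.adjoin ℂ gens, S * T = T * S := by
    intro T hT
    have h4 : T ∈ Algebra.adjoin ℂ (gens ∪ star gens) := by
      have h5 : T ∈ (StarAlgebra.adjoin ℂ gens).toSubalgebra := hT
      rwa [StarAlgebra.adjoin_toSubalgebra] at h5
    have h6 : Algebra.adjoin ℂ (gens ∪ star gens) ≤ Subalgebra.centralizer ℂ {S} := by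
      refine Algebra.adjoin_le ?_
      rintro x (hx | hx)
      · refine Subalgebra.mem_centralizer_iff ℂ |>.2 ?_
        rintro y rfl
        exact h1 x hx
      · refine Subalgebra.mem_centralizer_iff ℂ |>.2 ?_
        rintro y rfl
        have h7 := h2 (star x) hx
        rwa [star_star] at h7
    exact (Subalgebra.mem_centralizer_iff ℂ).1 (h6 h4) S rfl
  have h8 : closure ((StarAlgebra.adjoin ℂ gens : StarSubalgebra ℂ BH) : Set BH) ⊆
      {T : BH | S * T = T * S} := closure_minimal h3 hcl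
  exact h8 a.2

theorem nc_star {x : ℕ → A} (h : NC x) : NC (fun n => star (x n)) := by
  intro a
  refine (h (star a)).congr fun n => ?_
  have h2 : star (x n) * a - a * star (x n) = -star (x n * star a - star a * x n) := by
    rw [star_sub, star_mul, star_mul, star_star]
    abel
  rw [h2, norm_neg, norm_star]
theorem nc_add {x y : ℕ → A} (hx : NC x) (hy : NC y) : NC (fun n => x n + y n) := by
  intro a
  have h1 := (hx a).add (hy a)
  rw [add_zero] at h1
  refine squeeze_zero (fun _ => norm_nonneg _) (fun n => ?_) h1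
  have h2 : (x n + y n) * a - a * (x n + y n) = (x n * a - a * x n) + (y n * a - a * y n) := by
    rw [add_mul, mul_add]
    abel
  rw [h2]
  exact norm_add_le _ _
theorem nc_smul {x : ℕ → A} (c : ℂ) (hx : NC x) : NC (fun n => c • x n) := by
  intro a
  have h1 := (hx a).const_mul ‖c‖
  rw [mul_zero] at h1
  refine h1.congr fun n => ?_
  rw [smul_mul_assoc, mul_smul_comm, ← smul_sub, norm_smul]
theorem nc_mul {x y : ℕ → A} {C : ℝ} (hx : NC x) (hy : NC y) (bx : ∀ n, ‖x n‖ ≤ C) (by' : ∀ n, ‖y n‖ ≤ C) :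
    NC (fun n => x n * y n) := by
  intro a
  have h1 := ((hy a).const_mul C).add ((hx a).mul_const C)
  rw [mul_zero, zero_mul, add_zero] at h1
  refine squeeze_zero (fun _ => norm_nonneg _) (fun n => ?_) h1
  have h2 : x n * y n * a - a * (x n * y n) =
      x n * (y n * a - a * y n) + (x n * a - a * x n) * y n := by
    noncomm_ring
  rw [h2]
  refine (norm_add_le _ _).trans (add_le_add ?_ ?_)
  · exact (norm_mul_le _ _).trans (mul_le_mul_of_nonneg_right (bx n) (norm_nonneg _))
  · exact (norm_mul_le _ _).trans (mul_le_mul_of_nonneg_left (by' n) (norm_nonneg _))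

/-- `P_B`, `P_V` in a form convenient for norms: `‖x * PB‖` is the operator norm on `ran P_B`. -/
theorem norm_mul_PB_le_iff (x : BH) {c : ℝ} (hc : 0 ≤ c) :
    ‖x * PB‖ ≤ c ↔ ∀ y : H Idx, PB y = y → ‖x y‖ ≤ c * ‖y‖ := by
  constructor
  · intro h y hy
    have h1 : x y = (x * PB) y := by
      show x y = x (PB y)
      rw [hy]
    rw [h1]
    exact ((x * PB).le_opNorm y).trans (mul_le_mul_of_nonneg_right h (norm_nonneg _))
  · intro h
    refine ContinuousLinearMap.opNorm_le_bound _ hc fun z => ?_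
    have h1 : PB (PB z) = PB z := DFunLike.congr_fun (pr_idem sB) z
    refine (h (PB z) h1).trans (mul_le_mul_of_nonneg_left ?_ hc)
    have h2 := (PB).le_opNorm z
    have h3 : ‖PB‖ ≤ 1 := norm_pr_le sB
    nlinarith [norm_nonneg z]
theorem norm_mul_PV_le_iff (x : BH) {c : ℝ} (hc : 0 ≤ c) :
    ‖x * PV‖ ≤ c ↔ ∀ y : H Idx, PV y = y → ‖x y‖ ≤ c * ‖y‖ := by
  constructor
  · intro h y hy
    have h1 : x y = (x * PV) y := by
      show x y = x (PV y)
      rw [hy]
    rw [h1]
    exact ((x * PV).le_opNorm y).trans (mul_le_mul_of_nonneg_right h (norm_nonneg _))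
  · intro h
    refine ContinuousLinearMap.opNorm_le_bound _ hc fun z => ?_
    have h1 : PV (PV z) = PV z := DFunLike.congr_fun (pr_idem sV) z
    refine (h (PV z) h1).trans (mul_le_mul_of_nonneg_left ?_ hc)
    have h2 := (PV).le_opNorm z
    have h3 : ‖PV‖ ≤ 1 := norm_pr_le sV
    nlinarith [norm_nonneg z]

end OE
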