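import Mathlib
import Pool.Agent.Work.MP_06ef15_an.EA
import Pool.Agent.Work.MP_06ef15_an.AN1

/-!
# Section 12, beginning: `θ' = σ θ σ⁻¹` and `t'_n = σ(t_n*)`; (12.1)
-/

set_option autoImplicit false

open scoped ComplexConjugate InnerProductSpace Classical Topology ComplexOrder
open ContinuousLinearMap (adjoint)
open Filter

namespace OE

theorem anti_g_mul (σ : Anti) (a b : A) : σ.g (a * b) = σ.g b * σ.g a := by
  have h : σ.f (σ.g b * σ.g a) = a * b := by rw [σ.map_mul, σ.fg, σ.fg]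
  rw [← h, σ.gf]

theorem anti_g_star (σ : Anti) (a : A) : σ.g (star a) = star (σ.g a) := by
  have h : σ.f (star (σ.g a)) = star a := by rw [σ.map_star, σ.fg]
  rw [← h, σ.gf]

theorem anti_f_one (σ : Anti) : σ.f 1 = 1 := by
  have h : σ.f (σ.g 1 * 1) = σ.f 1 * 1 := by rw [σ.map_mul, σ.fg]
  rw [mul_one, mul_one, σ.fg] at h
  exact h.symm

theorem anti_g_one (σ : Anti) : σ.g 1 = 1 := by
  have h := σ.gf 1
  rw [anti_f_one] at h
  exact h

theorem anti_g_norm (hi : AntiIso) (σ : Anti) (a : A) : ‖σ.g a‖ = ‖a‖ := by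
  rw [← hi σ (σ.g a), σ.fg]

/-- `σ ∘ φ ∘ σ⁻¹`. -/
noncomputable def sth (σ : Anti) (φ : A →⋆ₐ[ℂ] A) : A →⋆ₐ[ℂ] A where
  toFun a := σ.f (φ (σ.g a))
  map_one' := by rw [anti_g_one, map_one, anti_f_one]
  map_mul' a b := by rw [anti_g_mul, map_mul, σ.map_mul]
  map_zero' := by rw [map_zero, map_zero, map_zero]
  map_add' a b := by rw [map_add, map_add, map_add]
  commutes' c := by
    rw [Algebra.algebraMap_eq_smul_one, map_smul, anti_g_one, map_smul, map_one, map_smul, anti_f_one]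
  map_star' a := by rw [anti_g_star, map_star, σ.map_star]

theorem sth_apply (σ : Anti) (φ : A →⋆ₐ[ℂ] A) (a : A) : sth σ φ a = σ.f (φ (σ.g a)) := rfl

private theorem smul_nonneg_gen {K : Type*} [NormedAddCommGroup K] [InnerProductSpace ℂ K] [CompleteSpace K]
    (T' : K →L[ℂ] K) (h : 0 ≤ T') (c : ℝ) (hc : 0 ≤ c) : 0 ≤ ((c : ℝ) : ℂ) • T' := by
  have e1 : ((c : ℝ) : ℂ) • T' = c • T' := Complex.coe_smul _ _
  rw [e1]; exact smul_nonneg hc h

private theorem norm_star_le_BH (x : BH) : ‖star x‖ ≤ ‖x‖ := by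
  show ‖adjoint x‖ ≤ ‖x‖
  rw [LinearIsometryEquiv.norm_map]

/-- multiplication by unitaries is contractive. -/
private theorem norm_conj_le {u a : A} (h1 : star u * u = 1) : ‖u * a * star u‖ ≤ ‖a‖ := by
  have hu : ‖u‖ ≤ 1 := by
    have h := CStarRing.norm_star_mul_self (x := u)
    rw [h1] at h
    rcases subsingleton_or_nontrivial A with hA | hA
    · rw [Subsingleton.elim u 0, norm_zero]; exact zero_le_one
    · rw [CStarRing.norm_one] at h
      nlinarith [norm_nonneg u]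
  calc ‖u * a * star u‖ ≤ ‖u * a‖ * ‖star u‖ := norm_mul_le _ _
    _ ≤ (‖u‖ * ‖a‖) * ‖star u‖ := by gcongr; exact norm_mul_le _ _
    _ ≤ (1 * ‖a‖) * 1 := by
        rw [norm_star]
        gcongr
    _ = ‖a‖ := by ring

private theorem theta_norm_le (Θ : ThetaData) (a : A) : ‖Θ.th a‖ ≤ ‖a‖ := by
  have h1 : Tendsto (fun n => ‖Θ.t n * a * star (Θ.t n) - Θ.th a‖ + ‖a‖) atTop (𝓝 (0 + ‖a‖)) :=
    (Θ.t_lim a).add tendsto_const_nhds
  rw [zero_add] at h1
  refine ge_of_tendsto h1 (Eventually.of_forall ?_)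
  intro n
  calc ‖Θ.th a‖ = ‖Θ.t n * a * star (Θ.t n) - (Θ.t n * a * star (Θ.t n) - Θ.th a)‖ := by congr 1; abel
    _ ≤ ‖Θ.t n * a * star (Θ.t n)‖ + ‖Θ.t n * a * star (Θ.t n) - Θ.th a‖ := norm_sub_le _ _
    _ ≤ ‖Θ.t n * a * star (Θ.t n) - Θ.th a‖ + ‖a‖ := by
        have := norm_conj_le (a := a) (Θ.t_unit n).1
        linarith

/-- (12.1) -/
theorem small_12_1 (Θ : ThetaData) (σ : Anti) (hJ : LemJ) (hi : AntiIso) (ε : ℝ) (hε : 0 < ε) :
    ∃ k, ∀ w, IsV1 k w → ‖((sth σ Θ.th (EgA w) : A) : BH) * PV - g w * PV‖ ≤ ε := by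
  by_contra hcon
  have hcon' : ∀ k, ∃ w, IsV1 k w ∧ ε < ‖((sth σ Θ.th (EgA w) : A) : BH) * PV - g w * PV‖ := by
    intro k
    by_contra h
    refine hcon ⟨k, fun w hw => ?_⟩
    by_contra h2
    exact h ⟨w, hw, not_le.mp h2⟩
  choose w hw hbad using hcon'
  -- the sequence `x`
  let x : ℕ → A := fun k => σ.g (EgA (w k))
  have hgn : ∀ u, ‖EgA u‖ ≤ 1 := fun u => norm_g_le u
  have hx1 : ∀ k, ‖x k‖ ≤ 1 := fun k => by
    show ‖σ.g (EgA (w k))‖ ≤ 1
    rw [anti_g_norm hi]; exact hgn _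
  have hxnc : NC x := by
    intro a
    have key : ∀ k, ‖x k * a - a * x k‖ = ‖EgA (w k) * σ.f a - σ.f a * EgA (w k)‖ := by
      intro k
      rw [← hi σ (x k * a - a * x k), map_sub, σ.map_mul, σ.map_mul]
      show ‖σ.f a * σ.f (σ.g (EgA (w k))) - σ.f (σ.g (EgA (w k))) * σ.f a‖ = _
      rw [σ.fg, norm_sub_rev]
    simp only [key]
    rw [Metric.tendsto_atTop]
    intro η hη
    obtain ⟨k0, hk0⟩ := Θ.cent (σ.f a) (η / 2) (half_pos hη)
    refine ⟨k0, fun k hk => ?_⟩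
    rw [dist_zero_right, norm_norm]
    have h3 := hk0 (w k) (isV1_mono hk (hw k))
    linarith
  have hxsnc : NC (fun k => star (x k)) := nc_star hxnc
  have hthnc : NC (fun k => Θ.th (x k)) := by
    intro a
    have h0 := hxnc (Θ.thi a)
    refine squeeze_zero (fun _ => norm_nonneg _) (fun k => ?_) h0
    calc ‖Θ.th (x k) * a - a * Θ.th (x k)‖ = ‖Θ.th (x k * Θ.thi a - Θ.thi a * x k)‖ := by
          rw [map_sub, map_mul, map_mul, Θ.th_thi]
      _ ≤ _ := theta_norm_le Θ _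
  let D : ℕ → A := fun k => Θ.th (x k) + (-1 : ℂ) • x k
  have hDnc : NC D := nc_add hthnc (nc_smul (-1) hxnc)
  have hDeq : ∀ k, D k = Θ.th (x k) - x k := fun k => by
    show Θ.th (x k) + (-1 : ℂ) • x k = _
    rw [neg_smul, one_smul, sub_eq_add_neg]
  have hD2 : ∀ k, ‖D k‖ ≤ 2 := fun k => by
    rw [hDeq]
    have h1 := norm_sub_le (Θ.th (x k)) (x k)
    have h2 := theta_norm_le Θ (x k)
    have h3 := hx1 k
    linarith
  have hDs2 : ∀ k, ‖star (D k)‖ ≤ 2 := fun k => by rw [norm_star]; exact hD2 k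
  have hDsnc : NC (fun k => star (D k)) := nc_star hDnc
  let f : ℕ → A := fun k => (1 / 8 : ℂ) • (star (D k) * D k + D k * star (D k))
  have hfnc : NC f := nc_smul (1 / 8) (nc_add (nc_mul hDsnc hDnc hDs2 hD2) (nc_mul hDnc hDsnc hD2 hDs2))
  have h8 : (1 / 8 : ℂ) = ((1 / 8 : ℝ) : ℂ) := by push_cast; rfl
  have hfcoe : ∀ k, ((f k : A) : BH) =
      ((1 / 8 : ℝ) : ℂ) • (star (D k : BH) * (D k : BH) + (D k : BH) * star (D k : BH)) := by
    intro k
    show (1 / 8 : ℂ) • (star (D k : BH) * (D k : BH) + (D k : BH) * star (D k : BH)) = _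
    rw [h8]
  have hf0 : ∀ k, 0 ≤ ((f k : A) : BH) := by
    intro k
    rw [hfcoe]
    exact smul_nonneg_gen _ (add_nonneg (star_mul_self_nonneg _) (mul_star_self_nonneg _)) _ (by norm_num)
  have hfn : ∀ k, ‖((f k : A) : BH)‖ ≤ 1 := by
    intro k
    rw [hfcoe, norm_smul]
    have h1 : ‖(D k : BH)‖ ≤ 2 := hD2 k
    have h2 : ‖star (D k : BH)‖ ≤ 2 := (norm_star_le_BH _).trans h1
    have h3 : ‖star (D k : BH) * (D k : BH) + (D k : BH) * star (D k : BH)‖ ≤ 8 := by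
      refine (norm_add_le _ _).trans ?_
      have h4 : ‖star (D k : BH) * (D k : BH)‖ ≤ 2 * 2 :=
        (norm_mul_le _ _).trans (mul_le_mul h2 h1 (norm_nonneg _) (by norm_num))
      have h5 : ‖(D k : BH) * star (D k : BH)‖ ≤ 2 * 2 :=
        (norm_mul_le _ _).trans (mul_le_mul h1 h2 (norm_nonneg _) (by norm_num))
      linarith
    have h6 : ‖((1 / 8 : ℝ) : ℂ)‖ = 1 / 8 := by rw [← h8]; norm_num
    rw [h6]; linarith
  have hf1 : ∀ k, ((f k : A) : BH) ≤ 1 := by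
    intro k
    exact CStarAlgebra.norm_le_one_iff_of_nonneg _ (hf0 k) |>.mp (hfn k)
  -- `f k PB → 0`
  have hcomm : ∀ y : ℕ → A, (∀ k, ‖y k‖ ≤ 1) → NC y →
      Tendsto (fun k => ‖((Θ.th (y k) : A) : BH) * PB - (y k : BH) * PB‖) atTop (𝓝 0) := by
    intro y hy1 hy
    let δ : ℕ → ℝ := fun k => (∑ i ∈ Finset.range 9, ‖EXA i * y k - y k * EXA i‖) + ‖ECA * y k - y k * ECA‖ +
      ‖EgA (pp 0) * y k - y k * EgA (pp 0)‖
    have hδ : Tendsto δ atTop (𝓝 (((∑ i ∈ Finset.range 9, (0 : ℝ)) + 0) + 0)) := by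
      refine Tendsto.add (Tendsto.add (tendsto_finsetSum _ fun i _ => ?_) ?_) ?_
      · simpa only [norm_sub_rev] using hy (EXA i)
      · simpa only [norm_sub_rev] using hy ECA
      · simpa only [norm_sub_rev] using hy (EgA (pp 0))
    have hδ' : Tendsto (fun k => 11 * δ k) atTop (𝓝 0) := by
      have h1 := hδ.const_mul 11
      simpa using h1
    refine squeeze_zero (fun _ => norm_nonneg _) (fun k => ?_) hδ'
    have hS : ∀ i ∈ Finset.range 9, (0 : ℝ) ≤ ‖EXA i * y k - y k * EXA i‖ := fun i _ => norm_nonneg _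
    refine Θ.bound (y k) (δ k) (hy1 k) ?_ ?_ ?_
    · intro i hi9
      have h2 := Finset.single_le_sum hS (Finset.mem_range.mpr hi9)
      have h3 := norm_nonneg (ECA * y k - y k * ECA)
      have h4 := norm_nonneg (EgA (pp 0) * y k - y k * EgA (pp 0))
      show ‖EXA i * y k - y k * EXA i‖ ≤ _ + _ + _
      linarith
    · have h2 := Finset.sum_nonneg hS
      have h4 := norm_nonneg (EgA (pp 0) * y k - y k * EgA (pp 0))
      show _ ≤ _ + _ + _
      linarith
    · have h2 := Finset.sum_nonneg hS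
      have h3 := norm_nonneg (ECA * y k - y k * ECA)
      show _ ≤ _ + _ + _
      linarith
  have hDP : Tendsto (fun k => ‖(D k : BH) * PB‖) atTop (𝓝 0) := by
    have h1 := hcomm x hx1 hxnc
    refine h1.congr ?_
    intro k
    rw [hDeq k]
    show _ = ‖(((Θ.th (x k) : A) : BH) - (x k : BH)) * PB‖
    rw [sub_mul]
  have hDsP : Tendsto (fun k => ‖star (D k : BH) * PB‖) atTop (𝓝 0) := by
    have h1 := hcomm (fun k => star (x k)) (fun k => by rw [norm_star]; exact hx1 k) hxsnc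
    refine h1.congr ?_
    intro k
    rw [hDeq k]
    show _ = ‖star (((Θ.th (x k) : A) : BH) - (x k : BH)) * PB‖
    rw [map_star, star_sub, sub_mul]
    rfl
  have hfP : Tendsto (fun k => ‖((f k : A) : BH) * PB‖) atTop (𝓝 0) := by
    have h1 : Tendsto (fun k => 2 * ‖(D k : BH) * PB‖ + 2 * ‖star (D k : BH) * PB‖) atTop (𝓝 0) := by
      simpa using (hDP.const_mul 2).add (hDsP.const_mul 2)
    refine squeeze_zero (fun _ => norm_nonneg _) (fun k => ?_) h1
    rw [hfcoe, smul_mul_assoc, norm_smul, add_mul, mul_assoc, mul_assoc]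
    have h6 : ‖((1 / 8 : ℝ) : ℂ)‖ = 1 / 8 := by rw [← h8]; norm_num
    rw [h6]
    have h2 : ‖(D k : BH)‖ ≤ 2 := hD2 k
    have h3 : ‖star (D k : BH)‖ ≤ 2 := (norm_star_le_BH _).trans h2
    have h4 : ‖star (D k : BH) * ((D k : BH) * PB)‖ ≤ 2 * ‖(D k : BH) * PB‖ :=
      (norm_mul_le _ _).trans (mul_le_mul_of_nonneg_right h3 (norm_nonneg _))
    have h5 : ‖(D k : BH) * (star (D k : BH) * PB)‖ ≤ 2 * ‖star (D k : BH) * PB‖ :=
      (norm_mul_le _ _).trans (mul_le_mul_of_nonneg_right h2 (norm_nonneg _))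
    have h7 := norm_add_le (star (D k : BH) * ((D k : BH) * PB)) ((D k : BH) * (star (D k : BH) * PB))
    have h8' := norm_nonneg (star (D k : BH) * ((D k : BH) * PB) + (D k : BH) * (star (D k : BH) * PB))
    linarith
  have hJ' := hJ σ f hfnc hf0 hf1 hfP
  -- conclusion
  have hbound : ∀ k, ‖((sth σ Θ.th (EgA (w k)) : A) : BH) * PV - g (w k) * PV‖ ^ 2 ≤
      8 * ‖((σ.f (f k) : A) : BH) * PV‖ := by
    intro k
    set E : BH := ((sth σ Θ.th (EgA (w k)) : A) : BH) - g (w k) with hE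
    have hσD : ((σ.f (D k) : A) : BH) = E := by
      rw [hDeq, map_sub]
      show ((σ.f (Θ.th (x k)) : A) : BH) - ((σ.f (x k) : A) : BH) = _
      rw [hE]
      show _ - ((σ.f (σ.g (EgA (w k))) : A) : BH) = _
      rw [σ.fg]; rfl
    have hσf : ((σ.f (f k) : A) : BH) = (1 / 8 : ℂ) • (E * star E + star E * E) := by
      show ((σ.f ((1 / 8 : ℂ) • (star (D k) * D k + D k * star (D k))) : A) : BH) = _
      rw [map_smul, map_add, σ.map_mul, σ.map_mul, σ.map_star]
      show (1 / 8 : ℂ) • (((σ.f (D k) : A) : BH) * star ((σ.f (D k) : A) : BH) +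
        star ((σ.f (D k) : A) : BH) * ((σ.f (D k) : A) : BH)) = _
      rw [hσD]
    rw [← sub_mul, ← hE]
    have hsq : ‖E * PV‖ ≤ Real.sqrt (8 * ‖((σ.f (f k) : A) : BH) * PV‖) := by
      refine ContinuousLinearMap.opNorm_le_bound _ (Real.sqrt_nonneg _) ?_
      intro ξ
      have h1 : ‖(E * PV) ξ‖ ^ 2 ≤ (8 * ‖((σ.f (f k) : A) : BH) * PV‖) * ‖ξ‖ ^ 2 := by
        set η : H Idx := PV ξ with hη
        have h2 : ‖E η‖ ^ 2 + ‖star E η‖ ^ 2 = (⟪(8 : ℂ) • ((σ.f (f k) : A) : BH) η, η⟫_ℂ).re := by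
          rw [hσf]
          have h3 : (8 : ℂ) • ((1 / 8 : ℂ) • (E * star E + star E * E)) η = (E * star E + star E * E) η := by
            rw [smul_apply, smul_smul]; norm_num
          rw [h3, add_apply, inner_add_left, Complex.add_re]
          have h4 : ⟪(star E * E) η, η⟫_ℂ = ⟪E η, E η⟫_ℂ := by
            show ⟪(adjoint E) (E η), η⟫_ℂ = _
            rw [ContinuousLinearMap.adjoint_inner_left]
          have h5 : ⟪(E * star E) η, η⟫_ℂ = ⟪star E η, star E η⟫_ℂ := by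
            show ⟪E ((adjoint E) η), η⟫_ℂ = ⟪(adjoint E) η, (adjoint E) η⟫_ℂ
            rw [ContinuousLinearMap.adjoint_inner_right]
          rw [h4, h5]
          have h6 : ∀ z : H Idx, (⟪z, z⟫_ℂ).re = ‖z‖ ^ 2 := by
            intro z
            rw [inner_self_eq_norm_sq_to_K]
            norm_cast
          rw [h6, h6]; ring
        have h7 : (⟪(8 : ℂ) • ((σ.f (f k) : A) : BH) η, η⟫_ℂ).re ≤ 8 * ‖((σ.f (f k) : A) : BH) * PV‖ * ‖ξ‖ ^ 2 := by
          have h8'' : ‖η‖ ≤ ‖ξ‖ := by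
            have := PV.le_of_opNorm_le norm_PV_le ξ
            rw [one_mul] at this
            exact this
          calc (⟪(8 : ℂ) • ((σ.f (f k) : A) : BH) η, η⟫_ℂ).re ≤ ‖⟪(8 : ℂ) • ((σ.f (f k) : A) : BH) η, η⟫_ℂ‖ :=
                Complex.re_le_norm _
            _ ≤ ‖(8 : ℂ) • ((σ.f (f k) : A) : BH) η‖ * ‖η‖ := norm_inner_le_norm _ _
            _ = 8 * ‖(((σ.f (f k) : A) : BH) * PV) ξ‖ * ‖η‖ := by
                rw [norm_smul]
                have h88 : ‖(8 : ℂ)‖ = 8 := by norm_num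
                rw [h88]; rfl
            _ ≤ 8 * (‖((σ.f (f k) : A) : BH) * PV‖ * ‖ξ‖) * ‖ξ‖ := by
                gcongr
                exact ContinuousLinearMap.le_opNorm _ _
            _ = _ := by ring
        have h9 : 0 ≤ ‖star E η‖ ^ 2 := by positivity
        calc ‖(E * PV) ξ‖ ^ 2 = ‖E η‖ ^ 2 := rfl
          _ ≤ _ := by linarith
      rw [← Real.sqrt_sq (norm_nonneg ((E * PV) ξ)), ← Real.sqrt_sq (norm_nonneg ξ), ← Real.sqrt_mul (by positivity)]
      exact Real.sqrt_le_sqrt h1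
    calc ‖E * PV‖ ^ 2 ≤ (Real.sqrt (8 * ‖((σ.f (f k) : A) : BH) * PV‖)) ^ 2 := by gcongr
      _ = _ := Real.sq_sqrt (by positivity)
  have hlim : Tendsto (fun k => 8 * ‖((σ.f (f k) : A) : BH) * PV‖) atTop (𝓝 0) := by
    simpa using hJ'.const_mul 8
  have hev := hlim.eventually (gt_mem_nhds (show (0 : ℝ) < ε ^ 2 by positivity))
  obtain ⟨k, hk⟩ := hev.exists
  have h1 := hbound k
  have h2 := hbad k
  have h3 : ε ^ 2 < ‖((sth σ Θ.th (EgA (w k)) : A) : BH) * PV - g (w k) * PV‖ ^ 2 := by gcongr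
  linarith

theorem pre_of_theta (Θ : ThetaData) (σ : Anti) (hJ : LemJ) (hi : AntiIso) : Nonempty PreEnd := by
  refine ⟨{ th := sth σ Θ.th
            thi := sth σ Θ.thi
            th_thi := ?_
            thi_th := ?_
            t := fun n => σ.f (star (Θ.t n))
            t_unit := ?_
            t_lim := ?_
            th_t := ?_
            small := fun ε hε => small_12_1 Θ σ hJ hi ε hε
            cent := Θ.cent }⟩
  · intro a
    rw [sth_apply, sth_apply, σ.gf, Θ.th_thi, σ.fg]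
  · intro a
    rw [sth_apply, sth_apply, σ.gf, Θ.thi_th, σ.fg]
  · intro n
    constructor
    · rw [σ.map_star, star_star, ← σ.map_star, ← σ.map_mul, (Θ.t_unit n).1, anti_f_one]
    · rw [σ.map_star, star_star, ← σ.map_star, ← σ.map_mul, (Θ.t_unit n).2, anti_f_one]
  · intro a
    refine (Θ.t_lim (σ.g a)).congr ?_
    intro n
    rw [← hi σ, map_sub, σ.map_mul, σ.map_mul, σ.fg, σ.map_star, star_star, sth_apply, ← mul_assoc]
  · intro n
    rw [sth_apply, σ.gf, map_star, Θ.th_t, star_smul, map_smul]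
    rfl

end OE
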