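import Mathlib
import Pool.Agent.Work.MP_06ef15_an.EG
import Pool.Agent.Work.MP_06ef15_an.EJ
import Pool.Agent.Work.MP_06ef15_an.EL

/-!
# Sections 11-13: end data from an anti-automorphism
-/

set_option autoImplicit false

namespace OE

theorem exists_endData_of (Θ : ThetaData) (hJ : LemJ) (hi : AntiIso) (hg : GapV) (hs : SymC) (σ : Anti) (ε : ℝ)
    (hε : 0 < ε) : Nonempty (EndData ε) := by
  obtain ⟨p⟩ := pre_of_theta Θ σ hJ hi
  have hd : 0 < min (ε / 60000) (1 / 20000) := lt_min (by positivity) (by norm_num)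
  obtain ⟨m⟩ := mid_of_pre p hg hs _ hd
  obtain ⟨E⟩ := endData_of_mid m hs hd (min_le_right _ _)
  refine endData_mono ?_ E
  have := min_le_left (ε / 60000) (1 / 20000)
  linarith [this]

end OE
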