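import Mathlib
import Pool.Agent.Work.MP_06ef15_an.AN1

/-!
# Assembly: the frozen statement from the block theorems
-/

set_option autoImplicit false

open scoped ComplexConjugate InnerProductSpace Classical

namespace OE

/-- the exactness clause of the frozen statement, for `A`. -/
def ExactClause : Prop :=
  ∃ (H : Type) (_ : NormedAddCommGroup H) (_ : InnerProductSpace ℂ H) (_ : CompleteSpace H)
    (π : A →⋆ₐ[ℂ] (H →L[ℂ] H)), Function.Injective π ∧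
    ∀ (F : Finset A) (ε : ℝ), 0 < ε →
      ∃ (n : ℕ)
        (φ : A →ₗ[ℂ] (EuclideanSpace ℂ (Fin n) →L[ℂ] EuclideanSpace ℂ (Fin n)))
        (ψ : (EuclideanSpace ℂ (Fin n) →L[ℂ] EuclideanSpace ℂ (Fin n)) →ₗ[ℂ] (H →L[ℂ] H)),
        (∀ (k : ℕ) (a : Fin k → A)
            (b : Fin k → (EuclideanSpace ℂ (Fin n) →L[ℂ] EuclideanSpace ℂ (Fin n))),
            0 ≤ ∑ i, ∑ j, star (b i) * φ (star (a i) * a j) * b j) ∧
        (∀ (k : ℕ)
            (a : Fin k → (EuclideanSpace ℂ (Fin n) →L[ℂ] EuclideanSpace ℂ (Fin n)))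
            (b : Fin k → (H →L[ℂ] H)),
            0 ≤ ∑ i, ∑ j, star (b i) * ψ (star (a i) * a j) * b j) ∧
        (∀ a : A, ‖φ a‖ ≤ ‖a‖) ∧
        (∀ x : EuclideanSpace ℂ (Fin n) →L[ℂ] EuclideanSpace ℂ (Fin n), ‖ψ x‖ ≤ ‖x‖) ∧
        ∀ a ∈ F, ‖ψ (φ a) - π a‖ < ε

/-- the frozen statement from separability, exactness, pure infiniteness, non-scalarity, absence of anti-automorphisms. -/
theorem assembly (hsep : TopologicalSpace.SeparableSpace A) (hex : ExactClause)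
    (hns : ∃ a : A, ∀ c : ℂ, a ≠ algebraMap ℂ A c) (hpi : ∀ a : A, a ≠ 0 → ∃ x y : A, x * a * y = 1)
    (hno : IsEmpty Anti) :
    ∃ (A : Type) (_ : CStarAlgebra A),
      TopologicalSpace.SeparableSpace A ∧ IsSimpleRing A ∧
      (∃ (H : Type) (_ : NormedAddCommGroup H) (_ : InnerProductSpace ℂ H) (_ : CompleteSpace H)
          (π : A →⋆ₐ[ℂ] (H →L[ℂ] H)), Function.Injective π ∧
        ∀ (F : Finset A) (ε : ℝ), 0 < ε →
          ∃ (n : ℕ)
            (φ : A →ₗ[ℂ] (EuclideanSpace ℂ (Fin n) →L[ℂ] EuclideanSpace ℂ (Fin n)))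
            (ψ : (EuclideanSpace ℂ (Fin n) →L[ℂ] EuclideanSpace ℂ (Fin n)) →ₗ[ℂ] (H →L[ℂ] H)),
            (∀ (k : ℕ) (a : Fin k → A)
                (b : Fin k → (EuclideanSpace ℂ (Fin n) →L[ℂ] EuclideanSpace ℂ (Fin n))),
                0 ≤ ∑ i, ∑ j, star (b i) * φ (star (a i) * a j) * b j) ∧
            (∀ (k : ℕ)
                (a : Fin k → (EuclideanSpace ℂ (Fin n) →L[ℂ] EuclideanSpace ℂ (Fin n)))
                (b : Fin k → (H →L[ℂ] H)),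
                0 ≤ ∑ i, ∑ j, star (b i) * ψ (star (a i) * a j) * b j) ∧
            (∀ a : A, ‖φ a‖ ≤ ‖a‖) ∧
            (∀ x : EuclideanSpace ℂ (Fin n) →L[ℂ] EuclideanSpace ℂ (Fin n), ‖ψ x‖ ≤ ‖x‖) ∧
            ∀ a ∈ F, ‖ψ (φ a) - π a‖ < ε) ∧
      (∃ a : A, ∀ c : ℂ, a ≠ algebraMap ℂ A c) ∧
      (∀ a : A, a ≠ 0 → ∃ x y : A, x * a * y = 1) ∧
      ¬ Nonempty (A ≃⋆ₐ[ℂ] Aᵐᵒᵖ) := by
  refine ⟨A, inferInstance, hsep, ?_, hex, hns, hpi, ?_⟩
  · have hnt : Nontrivial A := by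
      obtain ⟨a, ha⟩ := hns
      refine ⟨⟨a, algebraMap ℂ A 0, ha 0⟩⟩
    rw [isSimpleRing_iff_isTwoSided_imp]
    refine ⟨hnt, fun I hI => ?_⟩
    by_cases h : I = ⊥
    · exact Or.inl h
    · right
      obtain ⟨a, haI, ha0⟩ := Submodule.exists_mem_ne_zero_of_ne_bot h
      obtain ⟨x, y, hxy⟩ := hpi a ha0
      rw [Ideal.eq_top_iff_one, ← hxy]
      exact hI.mul_mem_of_left y (I.mul_mem_left x haI)
  · rintro ⟨φ⟩
    exact hno.false (antiOfEquiv φ)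

/-- `A` is not `ℂ` (the isometry `Sg true` is not scalar). -/
theorem not_scalar : ∃ a : A, ∀ c : ℂ, a ≠ algebraMap ℂ A c := by
  refine ⟨gA (pp 0), fun c hc => ?_⟩
  have h1 : g (pp 0) = algebraMap ℂ BH c := congrArg Subtype.val hc
  have h2 : g (pp 0) (e (([] : W), ((0 : V), ((0 : ℤ), (Sum.inl 0 : M))))) =
      c • e (([] : W), ((0 : V), ((0 : ℤ), (Sum.inl 0 : M)))) := by
    rw [h1, Algebra.algebraMap_eq_smul_one]; rfl
  rw [g_e, add_zero, bf_zero_right, ch_zero, one_smul] at h2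
  have h3 := congrArg (fun x : H Idx => (x : Idx → ℂ) (([] : W), ((pp 0 : V), ((0 : ℤ), (Sum.inl 0 : M))))) h2
  have hne : (([] : W), ((pp 0 : V), ((0 : ℤ), (Sum.inl 0 : M)))) ≠ (([] : W), ((0 : V), ((0 : ℤ), (Sum.inl 0 : M)))) := by
    intro h
    have h4 : (pp 0 : V) = 0 := congrArg (fun x : Idx => x.2.1) h
    have h5 := congrArg (fun v : V => v.1 0) h4
    simp [pp] at h5
    exact absurd h5 (by decide)
  have h6 : ((c • e (([] : W), ((0 : V), ((0 : ℤ), (Sum.inl 0 : M)))) : H Idx) : Idx → ℂ)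
      (([] : W), ((pp 0 : V), ((0 : ℤ), (Sum.inl 0 : M)))) = 0 := by
    rw [lp.coeFn_smul, Pi.smul_apply, e_ne hne, smul_zero]
  simp only at h3
  rw [h6, e_self] at h3
  exact one_ne_zero h3

end OE
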