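import Mathlib
import Pool.Agent.Work.MP_06ef15_an.AN0

/-!
# Induction principle for `A`

`A` is the closure of the (non-star) algebra generated by all `Y t k`, `g u`, `Sg b`, `star (Sg b)`.
-/

set_option autoImplicit false

open scoped ComplexConjugate InnerProductSpace Classical
open ContinuousLinearMap (adjoint)

namespace OE

theorem A_induction {p : BH → Prop} (hY : ∀ t k, p (Y t k)) (hg : ∀ u, p (g u)) (hS : ∀ b, p (Sg b))
    (hS' : ∀ b, p (star (Sg b))) (h1 : p 1) (hadd : ∀ x y, p x → p y → p (x + y))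
    (hmul : ∀ x y, p x → p y → p (x * y)) (hsmul : ∀ (c : ℂ) x, p x → p (c • x))
    (hclosed : IsClosed {x : BH | p x}) {a : BH} (ha : a ∈ A) : p a := by
  have key0 : ∀ x, x ∈ Algebra.adjoin ℂ (gens ∪ star gens) → p x := by
    intro x hx
    induction hx using Algebra.adjoin_induction with
    | mem x hx =>
      rcases hx with hx | hx
      · rcases hx with ⟨t, k, rfl⟩ | ⟨u, rfl⟩ | ⟨b, rfl⟩
        · exact hY t k
        · exact hg u
        · exact hS b
      · have hx2 : star x ∈ gens := hx
        rcases hx2 with ⟨t, k, h⟩ | ⟨u, h⟩ | ⟨b, h⟩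
        · have h2 : x = Y (bar t) k := by rw [← star_Y, ← h, star_star]
          rw [h2]; exact hY _ _
        · have h2 : x = ch (bf u u) • g (-u) := by rw [← star_g, ← h, star_star]
          rw [h2]; exact hsmul _ _ (hg _)
        · have h2 : x = star (Sg b) := by rw [← h, star_star]
          rw [h2]; exact hS' _
    | algebraMap r =>
      rw [Algebra.algebraMap_eq_smul_one]; exact hsmul _ _ h1
    | add x y _ _ ihx ihy => exact hadd _ _ ihx ihy
    | mul x y _ _ ihx ihy => exact hmul _ _ ihx ihy
  have key : ∀ x ∈ StarAlgebra.adjoin ℂ gens, p x := fun x hx => key0 x hx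
  have h2 : a ∈ closure ((StarAlgebra.adjoin ℂ gens : StarSubalgebra ℂ BH) : Set BH) := ha
  have h3 : closure ((StarAlgebra.adjoin ℂ gens : StarSubalgebra ℂ BH) : Set BH) ⊆ {x : BH | p x} :=
    hclosed.closure_subset_iff.mpr key
  exact h3 h2

end OE
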