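import Mathlib
import Pool.Agent.Work.MP_06ef15_an.AN1
import Pool.Agent.Work.MP_06ef15_an.AN2

/-!
# The commutant symmetries commute with `A`  (S-M)

`R_A`: `commute_A` with `R_Y, R_g, R_Sg`; for the adjoints of the generators use `star_Y`, `star_g`, and for `star (Sg b)`:
take `star` of `R_Sg (bar t)` and `star_R`, `bar_bar`.
`Ut_A`, `gr_A`: unitaries: `Ut * x = x * Ut` gives `star Ut * x = x * star Ut` (multiply by `star Ut` on both sides,
`star_Ut_mul`, `Ut_mul_star`); taking `star` gives the commutation with `star x`; then `commute_A`.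
-/

set_option autoImplicit false

open scoped ComplexConjugate InnerProductSpace Classical Topology
open ContinuousLinearMap (adjoint)
open Filter

namespace OE

private theorem comm_ind {S : BH} (hY : ∀ t k, S * Y t k = Y t k * S) (hg : ∀ u, S * g u = g u * S)
    (hS : ∀ b, S * Sg b = Sg b * S) (hS' : ∀ b, S * star (Sg b) = star (Sg b) * S) (a : A) :
    S * (a : BH) = (a : BH) * S := by
  refine A_induction (p := fun x => S * x = x * S) hY hg hS hS' (by rw [one_mul, mul_one]) ?_ ?_ ?_ ?_ a.2
  · intro x y hx hy
    rw [mul_add, add_mul, hx, hy]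
  · intro x y hx hy
    rw [← mul_assoc, hx, mul_assoc, hy, mul_assoc]
  · intro c x hx
    rw [mul_smul_comm, smul_mul_assoc, hx]
  · exact isClosed_eq (continuous_const.mul continuous_id) (continuous_id.mul continuous_const)

private theorem comm_star_unit {U x : BH} (h1 : star U * U = 1) (h2 : U * star U = 1)
    (h : U * x = x * U) : star U * x = x * star U := by
  calc star U * x = star U * (x * U) * star U := by
        rw [mul_assoc, mul_assoc, h2, mul_one]
    _ = star U * U * x * star U := by rw [← h]; simp only [mul_assoc]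
    _ = x * star U := by rw [h1, one_mul]

theorem R_A (t : T) (k : ℤ) (a : A) : R t k * (a : BH) = (a : BH) * R t k := by
  refine comm_ind (fun t' k' => R_Y t t' k k') (fun u => R_g t k u) (fun b => R_Sg t k b) (fun b => ?_) a
  have h := congrArg star (R_Sg (bar t) k b)
  rw [star_mul, star_mul, star_R, bar_bar] at h
  exact h.symm
theorem Ut_A (a : A) : Ut * (a : BH) = (a : BH) * Ut := by
  refine comm_ind (fun t k => Ut_Y t k) (fun u => Ut_g u) (fun b => Ut_Sg b) (fun b => ?_) a
  have h := congrArg star (comm_star_unit star_Ut_mul Ut_mul_star (Ut_Sg b))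
  rw [star_mul, star_mul, star_star] at h
  exact h.symm
theorem star_Ut_A (a : A) : star Ut * (a : BH) = (a : BH) * star Ut := comm_star_unit star_Ut_mul Ut_mul_star (Ut_A a)
theorem gr_A (u : V) (a : A) : gr u * (a : BH) = (a : BH) * gr u := by
  refine comm_ind (fun t k => gr_Y t k u) (fun v => gr_g u v) (fun b => gr_Sg u b) (fun b => ?_) a
  have h := congrArg star (comm_star_unit (star_gr_mul u) (gr_mul_star u) (gr_Sg u b))
  rw [star_mul, star_mul, star_star] at h
  exact h.symm
theorem star_gr_A (u : V) (a : A) : star (gr u) * (a : BH) = (a : BH) * star (gr u) := comm_star_unit (star_gr_mul u) (gr_mul_star u) (gr_A u a)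

end OE
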