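import Mathlib
import Pool.Agent.Work.MP_06ef15_an.CF

/-!
# Faithfulness, first form (3.1)  (S-M)

`ker_m`: fix `m`.  (i) `a e(w,0,0,m) = 0` for all words `w`, by strong induction on the length of `w`: for `w = w' ++ [x]`,
`x = (t,k)`: if `w' = []`, `e([x],..) = R t k e([],..)` (`R_e_nil`), so `a e([x],..) = R t k (a e([],..)) = 0` (`R_A`); if
`w' = w'' ++ [b]`: `e(w' ++ [x],..) = R t k e(w',..) - [b = (bar t,k)] e(w'',..)` (`R_e_concat`) and both vectors on the right
are mapped to `0` (`List.eq_nil_or_concat`, lengths).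
(ii) `a e(w,0,n,m) = 0` for all `n : ℤ`, all `w` (`Int.induction_on`): `e(w,v,n+1,m) = Ut e(sh 1 w,v,n,m)` (`Ut_e`, `sh_sh`,
`sh_zero`), `e(w,v,n-1,m) = star Ut e(sh (-1) w,v,n,m)`, and `Ut_A`, `star_Ut_A`.
(iii) `gr v e(w,0,n,m) = phase • e(w,v,n,m)` (`gr_e`, `zero_add`), `gr_A`; the phase is not `0` (`ch_ne_zero`).
`faithful_vac`: `ext_idx`.
-/

set_option autoImplicit false

open scoped ComplexConjugate InnerProductSpace Classical Topology
open ContinuousLinearMap (adjoint)
open Filter

namespace OE

theorem ker_m (a : A) {m : M} (h : (a : BH) (e (([] : W), ((0 : V), ((0 : ℤ), m)))) = 0)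
    (w : W) (v : V) (n : ℤ) : (a : BH) (e (w, (v, (n, m)))) = 0 := by
  have hR : ∀ t k (x : H Idx), (a : BH) (R t k x) = R t k ((a : BH) x) := fun t k x =>
    (DFunLike.congr_fun (R_A t k a) x).symm
  -- (i)
  have h1 : ∀ (n : ℕ) (w : W), w.length = n → (a : BH) (e (w, ((0 : V), ((0 : ℤ), m)))) = 0 := by
    intro n
    induction n using Nat.strong_induction_on with
    | _ n ih =>
      intro w hw
      rcases List.eq_nil_or_concat w with rfl | ⟨w', x, rfl⟩
      · exact h
      · obtain ⟨t, k⟩ := x
        simp only [List.concat_eq_append] at hw ⊢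
        rcases List.eq_nil_or_concat w' with rfl | ⟨w'', b, rfl⟩
        · have h2 := R_e_nil t k (0 : V) (0 : ℤ) m
          rw [List.nil_append, ← h2, hR, h, map_zero]
        · simp only [List.concat_eq_append] at hw ⊢
          have h2 := R_e_concat t k w'' (0 : V) (0 : ℤ) m b
          have h3 : (a : BH) (e (w'' ++ [b], ((0 : V), ((0 : ℤ), m)))) = 0 :=
            ih (w'' ++ [b]).length (by simp only [List.length_append] at hw ⊢; simp at hw ⊢; omega)
              _ rfl
          have h4 := congrArg (a : BH) h2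
          rw [hR, h3, map_zero, map_add] at h4
          split_ifs at h4 with hb
          · have h5 : (a : BH) (e (w'', ((0 : V), ((0 : ℤ), m)))) = 0 :=
              ih w''.length (by simp only [List.length_append] at hw; simp at hw; omega) _ rfl
            rw [h5, add_zero] at h4
            exact h4.symm
          · rw [map_zero, add_zero] at h4
            exact h4.symm
  -- (ii)
  have hU : ∀ x : H Idx, (a : BH) (Ut x) = Ut ((a : BH) x) := fun x =>
    (DFunLike.congr_fun (Ut_A a) x).symm
  have hU' : ∀ x : H Idx, (a : BH) (star Ut x) = star Ut ((a : BH) x) := fun x =>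
    (DFunLike.congr_fun (star_Ut_A a) x).symm
  have h6 : ∀ (n : ℤ) (w : W), (a : BH) (e (w, ((0 : V), (n, m)))) = 0 := by
    intro n
    induction n using Int.induction_on with
    | zero => exact fun w => h1 _ w rfl
    | succ n ih =>
      intro w
      have h7 := Ut_e (sh 1 w) (0 : V) (n : ℤ) m
      rw [sh_sh, add_neg_cancel, sh_zero] at h7
      rw [← h7, hU, ih, map_zero]
    | pred n ih =>
      intro w
      have h7 := star_Ut_e (sh (-1) w) (0 : V) (-(n : ℤ)) m
      rw [sh_sh, neg_add_cancel, sh_zero] at h7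
      rw [← h7, hU', ih, map_zero]
  -- (iii)
  have h8 := gr_e w (0 : V) v n m
  rw [zero_add] at h8
  have h9 := congrArg (a : BH) h8
  have h10 : (a : BH) (gr v (e (w, ((0 : V), (n, m))))) = gr v ((a : BH) (e (w, ((0 : V), (n, m))))) :=
    (DFunLike.congr_fun (gr_A v a) _).symm
  rw [h10, h6, map_zero, map_smul] at h9
  exact (smul_eq_zero.1 h9.symm).resolve_left (ch_ne_zero _)

theorem faithful_vac (a : A) (h : ∀ m : M, (a : BH) (e (([] : W), ((0 : V), ((0 : ℤ), m)))) = 0) : a = 0 := by
  apply Subtype.ext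
  show (a : BH) = 0
  refine ext_idx fun w v n m => ?_
  rw [ker_m a (h m) w v n]
  rfl

end OE
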