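import Mathlib
import Pool.Agent.Work.MP_06ef15_an.CH

/-!
# Faithfulness, second form (3.2)  (M)

`io l : e(w,v,n,inl m) ↦ e(w,v,n,inr (m,l))`, `0` on the other basis vectors; `VL' L = L^{-1/2} ∑_{l < L} io l`;
`PN` = projection onto the span of the `e(w,v,n,inl m)`.

* `io_e_inl`, `io_e_inr`: `wp_e` (the map is a partial injection).
* `star_io_io`: `star (io l) * io l' = if l = l' then PN else 0`: on basis vectors with `adj_wp_e_some`, `adj_wp_e_none`.
* Exact relations, by `ext_idx` and a case distinction on the last coordinate (`sM b (inl m) = inl (bit b m)`,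
  `sM b (inr (m,l)) = inr (bit b m, l+1)`; `hd`, `tl` by definition):
  `Sg b * io l = io (l+1) * Sg b`, `star (Sg b) * io (l+1) = io l * star (Sg b)`, `io l` commutes with `Y t k`, `g u`;
  `PN` commutes with all generators and with `star (Sg b)` (`commute_A` or `commute_pr`), so `PN_A`.
* `norm_VV`: `‖VV L x‖ = ‖PN x‖` for `L ≥ 1`: `star (VV L) * VV L = L⁻¹ ∑_{l,l'} star (io l) * io l' = PN`, and `PN` is a
  self-adjoint idempotent.
* `VV_comm`: by `A_induction` (AN2) with `p x := Tendsto (fun L => ‖VV L * x - x * VV L‖) atTop (𝓝 0)`.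
  `[VV L, Y] = [VV L, g] = 0`; `Sg b * VV L - VV L * Sg b = L^{-1/2} (io L - io 0) * Sg b` (telescoping sum) has norm at most
  `2 L^{-1/2}`; `star (Sg b) * VV L - VV L * star (Sg b) = L^{-1/2} (io (-1) - io (L-1)) * star (Sg b)`.  Products:
  `‖[V, x y]‖ ≤ ‖[V,x]‖ ‖y‖ + ‖x‖ ‖[V,y]‖`.  Closedness: `‖[V,x] - [V,y]‖ ≤ 2 ‖x - y‖` as `‖VV L‖ ≤ 1` (also for `L = 0`).
* `faithful_inr` (with `x = a`): let `m : ℕ`, `e_m = e([],0,0,inl m)`.  `VV L e_m = L^{-1/2} ∑_{l<L} e([],0,0,inr (m,l))`, so `x (VV L e_m) = 0`.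
  `‖x e_m‖ = ‖PN (x e_m)‖ = ‖VV L (x e_m)‖ = ‖(VV L * x - x * VV L) e_m‖ → 0`.  So `x e_m = 0` for all `m : ℕ`, and
  `faithful_vac`.
-/

set_option autoImplicit false

open scoped ComplexConjugate InnerProductSpace Classical Topology
open ContinuousLinearMap (adjoint)
open Filter

namespace OE

private theorem mulE (S S' : BH) (x : H Idx) : (S * S') x = S (S' x) := rfl

noncomputable def io (l : ℤ) : BH :=
  wp (fun x : Idx => match x.2.2.2 with
    | Sum.inl m => some (x.1, (x.2.1, (x.2.2.1, Sum.inr (m, l))))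
    | Sum.inr _ => none) (fun _ => 1)

noncomputable def VV (L : ℕ) : BH := (((L : ℝ) ^ (-(1 / 2 : ℝ)) : ℝ) : ℂ) • ∑ l ∈ Finset.range L, io (l : ℤ)

noncomputable def PN : BH := pr {x : Idx | ∃ m : ℕ, x.2.2.2 = Sum.inl m}

private theorem io_pinj (l : ℤ) : PInj (fun x : Idx => match x.2.2.2 with
    | Sum.inl m => some (x.1, (x.2.1, (x.2.2.1, (Sum.inr (m, l) : M))))
    | Sum.inr _ => none) := by
  rintro ⟨w, v, n, m⟩ ⟨w', v', n', m'⟩ j h h'
  rcases m with m | m
  · rcases m' with m' | m'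
    · simp only [Option.some.injEq] at h h'
      rw [← h'] at h
      simp only [Prod.mk.injEq, Sum.inr.injEq] at h
      obtain ⟨h1, h2, h3, h4, -⟩ := h
      rw [h1, h2, h3, h4]
    · simp at h'
  · simp at h

theorem io_e_inl (l : ℤ) (w : W) (v : V) (n : ℤ) (m : ℕ) :
    io l (e (w, (v, (n, (Sum.inl m : M))))) = e (w, (v, (n, (Sum.inr (m, l) : M)))) := by
  unfold io
  rw [wp_e (C := 1) zero_le_one (io_pinj l) (fun _ => by simp), one_smul]
  rfl

theorem io_e_inr (l : ℤ) (w : W) (v : V) (n : ℤ) (p : ℕ × ℤ) :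
    io l (e (w, (v, (n, (Sum.inr p : M))))) = 0 := by
  unfold io
  rw [wp_e (C := 1) zero_le_one (io_pinj l) (fun _ => by simp), one_smul]
  rfl

private theorem norm_io (l : ℤ) : ‖io l‖ ≤ 1 :=
  norm_wp_le zero_le_one (io_pinj l) (fun _ => by simp)

private theorem star_io_e (l : ℤ) (w : W) (v : V) (n : ℤ) (m : ℕ) (l' : ℤ) :
    star (io l) (e (w, (v, (n, (Sum.inr (m, l') : M))))) =
      if l' = l then e (w, (v, (n, (Sum.inl m : M)))) else 0 := by
  have h0 : star (io l) = adjoint (io l) := rfl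
  rw [h0]
  by_cases h : l' = l
  · subst h
    rw [if_pos rfl]
    unfold io
    rw [adj_wp_e_some (C := 1) zero_le_one (io_pinj l') (fun _ => by simp)
      (i := (w, (v, (n, (Sum.inl m : M))))) rfl]
    simp
  · rw [if_neg h]
    unfold io
    refine adj_wp_e_none (C := 1) zero_le_one (io_pinj l) (fun _ => by simp) ?_
    rintro ⟨w', v', n', m'⟩ hh
    rcases m' with m' | m'
    · simp only [Option.some.injEq, Prod.mk.injEq, Sum.inr.injEq] at hh
      exact h hh.2.2.2.2.symm
    · simp at hh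

private theorem PN_e_inl (w : W) (v : V) (n : ℤ) (m : ℕ) :
    PN (e (w, (v, (n, (Sum.inl m : M))))) = e (w, (v, (n, (Sum.inl m : M)))) := by
  unfold PN
  rw [pr_e_mem]
  exact ⟨m, rfl⟩

private theorem PN_e_inr (w : W) (v : V) (n : ℤ) (p : ℕ × ℤ) :
    PN (e (w, (v, (n, (Sum.inr p : M))))) = 0 := by
  unfold PN
  rw [pr_e_notMem]
  rintro ⟨m, hm⟩
  simp at hm

private theorem star_io_io' (l l' : ℤ) : star (io l') * io l = if l = l' then PN else 0 := by
  refine ext_idx fun w v n m => ?_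
  rw [mulE]
  rcases m with m | p
  · rw [io_e_inl, star_io_e]
    by_cases h : l = l'
    · rw [if_pos h, if_pos h, PN_e_inl]
    · rw [if_neg h, if_neg h]
      rfl
  · rw [io_e_inr, map_zero]
    by_cases h : l = l'
    · rw [if_pos h, PN_e_inr]
    · rw [if_neg h]
      rfl

theorem star_io_io (l l' : ℤ) : star (io l) * io l' = if l = l' then PN else 0 := by
  rw [star_io_io' l' l]
  by_cases h : l = l'
  · rw [if_pos h, if_pos h.symm]
  · rw [if_neg h, if_neg (Ne.symm h)]

private theorem sM_inl (b : Bool) (m : ℕ) : sM b (Sum.inl m) = Sum.inl (Nat.bit b m) := rfl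
private theorem sM_inr (b : Bool) (m : ℕ) (l : ℤ) : sM b (Sum.inr (m, l)) = Sum.inr (Nat.bit b m, l + 1) := rfl

private theorem Sg_io (b : Bool) (l : ℤ) : Sg b * io l = io (l + 1) * Sg b := by
  refine ext_idx fun w v n m => ?_
  rw [mulE, mulE, Sg_e]
  rcases m with m | ⟨m, l'⟩
  · rw [io_e_inl, Sg_e, sM_inl, sM_inr, io_e_inl]
  · rw [io_e_inr, sM_inr, io_e_inr, map_zero]

private theorem star_Sg_io (b : Bool) (l : ℤ) : star (Sg b) * io (l + 1) = io l * star (Sg b) := by
  refine ext_idx fun w v n m => ?_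
  rw [mulE, mulE, star_Sg_e]
  rcases m with m | ⟨m, l'⟩
  · rw [io_e_inl, star_Sg_e]
    have h1 : hd (Sum.inr (m, l + 1)) = hd (Sum.inl m) := rfl
    have h2 : tl (Sum.inr (m, l + 1)) = Sum.inr (m.div2, l) := by
      show Sum.inr (m.div2, l + 1 - 1) = _
      rw [add_sub_cancel_right]
    rw [h1]
    by_cases h : hd (Sum.inl m) = b
    · rw [if_pos h, if_pos h, h2]
      exact (io_e_inl l w v (n - bn b) m.div2).symm
    · rw [if_neg h, if_neg h, map_zero]
  · rw [io_e_inr, map_zero]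
    by_cases h : hd (Sum.inr (m, l')) = b
    · rw [if_pos h]
      exact (io_e_inr l w v (n - bn b) (m.div2, l' - 1)).symm
    · rw [if_neg h, map_zero]

private theorem Y_io (t : T) (k l : ℤ) : Y t k * io l = io l * Y t k := by
  refine ext_idx fun w v n m => ?_
  rw [mulE, mulE]
  rcases m with m | p
  · rw [io_e_inl]
    cases w with
    | nil => rw [Y_e_nil, Y_e_nil, map_smul, io_e_inl]
    | cons a w =>
      rw [Y_e_cons, Y_e_cons, map_add, map_smul, io_e_inl]
      by_cases h : a = (bar t, k - n)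
      · rw [if_pos h, if_pos h, map_smul, io_e_inl]
      · rw [if_neg h, if_neg h, map_zero]
  · rw [io_e_inr, map_zero]
    cases w with
    | nil => rw [Y_e_nil, map_smul, io_e_inr, smul_zero]
    | cons a w =>
      rw [Y_e_cons, map_add, map_smul, io_e_inr, smul_zero, zero_add]
      by_cases h : a = (bar t, k - n)
      · rw [if_pos h, map_smul, io_e_inr, smul_zero]
      · rw [if_neg h, map_zero]

private theorem g_io (u : V) (l : ℤ) : g u * io l = io l * g u := by
  refine ext_idx fun w v n m => ?_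
  rw [mulE, mulE]
  rcases m with m | p
  · rw [io_e_inl, g_e, g_e, map_smul, io_e_inl]
  · rw [io_e_inr, map_zero, g_e, map_smul, io_e_inr, smul_zero]

private theorem rp_mul (L : ℕ) : (L : ℝ) ^ (-(1 / 2 : ℝ)) * (L : ℝ) ^ (-(1 / 2 : ℝ)) = (L : ℝ)⁻¹ := by
  rcases Nat.eq_zero_or_pos L with h | h
  · subst h
    rw [Nat.cast_zero, Real.zero_rpow (by norm_num), mul_zero, inv_zero]
  · have h1 : (0 : ℝ) < L := by exact_mod_cast h
    rw [← Real.rpow_add h1, ← Real.rpow_neg_one]
    norm_num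

private theorem rp_nonneg (L : ℕ) : 0 ≤ (L : ℝ) ^ (-(1 / 2 : ℝ)) := Real.rpow_nonneg (Nat.cast_nonneg _) _

private theorem norm_sq_VL (L : ℕ) (hL : 0 < L) (y : H Idx) : ‖VV L y‖ ^ 2 = ‖PN y‖ ^ 2 := by
  have h1 : star (VV L) * VV L = PN := by
    unfold VV
    rw [star_smul, smul_mul_smul_comm, star_sum, Finset.sum_mul]
    have h2 : ∀ l ∈ Finset.range L, star (io (l : ℤ)) * ∑ l' ∈ Finset.range L, io (l' : ℤ) = PN := by
      intro l hl
      rw [Finset.mul_sum]
      have h3 : ∀ l' ∈ Finset.range L, star (io (l : ℤ)) * io (l' : ℤ) = if l' = l then PN else 0 := by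
        intro l' _
        rw [star_io_io']
        by_cases h : l' = l
        · rw [if_pos h, if_pos (by exact_mod_cast h)]
        · rw [if_neg h, if_neg (by exact_mod_cast h)]
      rw [Finset.sum_congr rfl h3, Finset.sum_ite_eq' , if_pos hl]
    rw [Finset.sum_congr rfl h2, Finset.sum_const, Finset.card_range, ← Nat.cast_smul_eq_nsmul ℂ,
      smul_smul]
    have h4 : star ((((L : ℝ) ^ (-(1 / 2 : ℝ)) : ℝ) : ℂ)) = (((L : ℝ) ^ (-(1 / 2 : ℝ)) : ℝ) : ℂ) := Complex.conj_ofReal _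
    rw [h4, ← Complex.ofReal_mul, rp_mul]
    have h5 : (((L : ℝ)⁻¹ : ℝ) : ℂ) * (L : ℂ) = 1 := by
      rw [Complex.ofReal_inv, Complex.ofReal_natCast]
      exact inv_mul_cancel₀ (by exact_mod_cast hL.ne')
    rw [h5, one_smul]
  have h2 : ⟪VV L y, VV L y⟫_ℂ = ⟪PN y, PN y⟫_ℂ := by
    have h3 : ⟪VV L y, VV L y⟫_ℂ = ⟪y, (star (VV L) * VV L) y⟫_ℂ := by
      rw [mulE, ContinuousLinearMap.star_eq_adjoint, ContinuousLinearMap.adjoint_inner_right]
    have h4 : ⟪PN y, PN y⟫_ℂ = ⟪y, (PN * PN) y⟫_ℂ := by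
      rw [mulE]
      have h5 : adjoint PN = PN := adj_pr _
      conv_rhs => rw [← h5, ContinuousLinearMap.adjoint_inner_right, h5]
    rw [h3, h4, h1]
    have h6 : PN * PN = PN := pr_idem _
    rw [h6]
  rw [← inner_self_eq_norm_sq (𝕜 := ℂ), ← inner_self_eq_norm_sq (𝕜 := ℂ), h2]

private theorem norm_VL_le (L : ℕ) (hL : 0 < L) : ‖VV L‖ ≤ 1 := by
  refine ContinuousLinearMap.opNorm_le_bound _ zero_le_one fun y => ?_
  rw [one_mul]
  have h1 := norm_sq_VL L hL y
  have h2 : ‖PN y‖ ≤ ‖y‖ := by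
    have h3 := (PN).le_opNorm y
    have h4 : ‖PN‖ ≤ 1 := norm_pr_le _
    nlinarith [norm_nonneg y]
  have h5 : ‖VV L y‖ ^ 2 ≤ ‖y‖ ^ 2 := by
    rw [h1]
    exact pow_le_pow_left₀ (norm_nonneg _) h2 2
  exact (sq_le_sq₀ (norm_nonneg _) (norm_nonneg _)).1 h5

private def Good (x : BH) : Prop :=
  Tendsto (fun L : ℕ => ‖VV L * x - x * VV L‖) atTop (𝓝 0)

private theorem good_of_comm {x : BH} (h : ∀ l : ℤ, x * io l = io l * x) : Good x := by
  unfold Good
  have h1 : ∀ L : ℕ, VV L * x - x * VV L = 0 := by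
    intro L
    unfold VV
    rw [smul_mul_assoc, mul_smul_comm, Finset.sum_mul, Finset.mul_sum, sub_eq_zero]
    congr 1
    exact Finset.sum_congr rfl fun l _ => (h l).symm
  simp only [h1, norm_zero]
  exact tendsto_const_nhds

private theorem good_of_bdd {x : BH} (C : ℝ)
    (h : ∀ L : ℕ, ‖(∑ l ∈ Finset.range L, io (l : ℤ)) * x - x * ∑ l ∈ Finset.range L, io (l : ℤ)‖ ≤ C) :
    Good x := by
  unfold Good
  have h0 : Tendsto (fun L : ℕ => (L : ℝ) ^ (-(1 / 2 : ℝ)) * C) atTop (𝓝 0) := by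
    have h2 := ((tendsto_rpow_neg_atTop (y := 1 / 2) (by norm_num)).comp
      (tendsto_natCast_atTop_atTop (R := ℝ))).mul_const C
    rw [zero_mul] at h2
    exact h2
  refine squeeze_zero (fun L => norm_nonneg _) (fun L => ?_) h0
  have h1 : VV L * x - x * VV L = (((L : ℝ) ^ (-(1 / 2 : ℝ)) : ℝ) : ℂ) •
      ((∑ l ∈ Finset.range L, io (l : ℤ)) * x - x * ∑ l ∈ Finset.range L, io (l : ℤ)) := by
    unfold VV
    rw [smul_mul_assoc, mul_smul_comm, smul_sub]
  rw [h1, norm_smul, Complex.norm_real, Real.norm_of_nonneg (rp_nonneg L)]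
  exact mul_le_mul_of_nonneg_left (h L) (rp_nonneg L)

private theorem good_Sg (b : Bool) : Good (Sg b) := by
  refine good_of_bdd 2 fun L => ?_
  have h1 : (∑ l ∈ Finset.range L, io (l : ℤ)) * Sg b - Sg b * ∑ l ∈ Finset.range L, io (l : ℤ) =
      (io 0 - io (L : ℤ)) * Sg b := by
    rw [Finset.mul_sum]
    have h2 : ∀ l ∈ Finset.range L, Sg b * io (l : ℤ) = io ((l + 1 : ℕ) : ℤ) * Sg b := by
      intro l _
      rw [Sg_io]
      push_cast
      rfl
    rw [Finset.sum_congr rfl h2, ← Finset.sum_mul, ← sub_mul]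
    congr 1
    have h3 := Finset.sum_range_succ (fun l : ℕ => io (l : ℤ)) L
    have h4 := Finset.sum_range_succ' (fun l : ℕ => io (l : ℤ)) L
    rw [h3] at h4
    simp only [Nat.cast_zero] at h4
    rw [sub_eq_sub_iff_add_eq_add, h4, add_comm]
  rw [h1]
  calc ‖(io 0 - io (L : ℤ)) * Sg b‖ ≤ ‖io 0 - io (L : ℤ)‖ * ‖Sg b‖ := norm_mul_le _ _
    _ ≤ 2 * 1 := by
        refine mul_le_mul ?_ (norm_Sg_le b) (norm_nonneg _) (by norm_num)
        refine (norm_sub_le _ _).trans ?_
        linarith [norm_io 0, norm_io (L : ℤ)]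
    _ = 2 := by norm_num

private theorem good_star_Sg (b : Bool) : Good (star (Sg b)) := by
  refine good_of_bdd 2 fun L => ?_
  have h1 : (∑ l ∈ Finset.range L, io (l : ℤ)) * star (Sg b) -
      star (Sg b) * ∑ l ∈ Finset.range L, io (l : ℤ) =
      (io ((L : ℤ) - 1) - io (-1)) * star (Sg b) := by
    rw [Finset.mul_sum]
    have h2 : ∀ l ∈ Finset.range L, star (Sg b) * io (l : ℤ) = io ((l : ℤ) - 1) * star (Sg b) := by
      intro l _
      have h3 := star_Sg_io b ((l : ℤ) - 1)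
      rw [sub_add_cancel] at h3
      exact h3
    rw [Finset.sum_congr rfl h2, ← Finset.sum_mul, ← sub_mul]
    congr 1
    have h3 := Finset.sum_range_succ (fun l : ℕ => io ((l : ℤ) - 1)) L
    have h4 := Finset.sum_range_succ' (fun l : ℕ => io ((l : ℤ) - 1)) L
    rw [h3] at h4
    simp only [Nat.cast_zero, Nat.cast_add, Nat.cast_one, add_sub_cancel_right, zero_sub] at h4
    rw [sub_eq_sub_iff_add_eq_add, ← h4, add_comm]
  rw [h1]
  have hn : ‖star (Sg b)‖ ≤ 1 := by
    rw [ContinuousLinearMap.star_eq_adjoint, LinearIsometryEquiv.norm_map]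
    exact norm_Sg_le b
  calc ‖(io ((L : ℤ) - 1) - io (-1)) * star (Sg b)‖ ≤ ‖io ((L : ℤ) - 1) - io (-1)‖ * ‖star (Sg b)‖ :=
        norm_mul_le _ _
    _ ≤ 2 * 1 := by
        refine mul_le_mul ?_ hn (norm_nonneg _) (by norm_num)
        refine (norm_sub_le _ _).trans ?_
        linarith [norm_io ((L : ℤ) - 1), norm_io (-1)]
    _ = 2 := by norm_num

private theorem good_one : Good 1 := good_of_comm fun l => by rw [one_mul, mul_one]

private theorem good_add {x y : BH} (hx : Good x) (hy : Good y) : Good (x + y) := by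
  unfold Good at *
  have h := hx.add hy
  rw [add_zero] at h
  refine squeeze_zero (fun L => norm_nonneg _) (fun L => ?_) h
  have h1 : VV L * (x + y) - (x + y) * VV L = (VV L * x - x * VV L) + (VV L * y - y * VV L) := by
    rw [mul_add, add_mul]
    abel
  rw [h1]
  exact norm_add_le _ _

private theorem good_mul {x y : BH} (hx : Good x) (hy : Good y) : Good (x * y) := by
  unfold Good at *
  have h := (hx.mul_const ‖y‖).add (hy.const_mul ‖x‖)
  rw [zero_mul, mul_zero, add_zero] at h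
  refine squeeze_zero (fun L => norm_nonneg _) (fun L => ?_) h
  have h1 : VV L * (x * y) - (x * y) * VV L = (VV L * x - x * VV L) * y + x * (VV L * y - y * VV L) := by
    simp only [sub_mul, mul_sub, mul_assoc]
    abel
  rw [h1]
  exact (norm_add_le _ _).trans (add_le_add (norm_mul_le _ _) (norm_mul_le _ _))

private theorem good_smul (c : ℂ) {x : BH} (hx : Good x) : Good (c • x) := by
  unfold Good at *
  have h := hx.const_mul ‖c‖
  rw [mul_zero] at h
  refine squeeze_zero (fun L => norm_nonneg _) (fun L => ?_) h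
  have h1 : VV L * (c • x) - (c • x) * VV L = c • (VV L * x - x * VV L) := by
    rw [mul_smul_comm, smul_mul_assoc, smul_sub]
  rw [h1, norm_smul]

private theorem good_closed : IsClosed {x : BH | Good x} := by
  refine isClosed_of_closure_subset fun x hx => ?_
  show Good x
  unfold Good
  rw [Metric.tendsto_atTop]
  intro ε hε
  rw [Metric.mem_closure_iff] at hx
  obtain ⟨y, hy, hxy⟩ := hx (ε / 4) (by linarith)
  have hy' : Good y := hy
  unfold Good at hy'
  rw [Metric.tendsto_atTop] at hy'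
  obtain ⟨N, hN⟩ := hy' (ε / 2) (by linarith)
  refine ⟨N + 1, fun L hL => ?_⟩
  have h1 := hN L (by omega)
  rw [Real.dist_eq, sub_zero, abs_of_nonneg (norm_nonneg _)] at h1 ⊢
  have h2 : VV L * x - x * VV L = (VV L * y - y * VV L) + (VV L * (x - y) - (x - y) * VV L) := by
    rw [mul_sub, sub_mul]
    abel
  rw [dist_eq_norm] at hxy
  have h3 := norm_VL_le L (by omega)
  have h4 : ‖VV L * (x - y)‖ ≤ 1 * (ε / 4) :=
    (norm_mul_le _ _).trans (mul_le_mul h3 hxy.le (norm_nonneg _) zero_le_one)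
  have h5 : ‖(x - y) * VV L‖ ≤ (ε / 4) * 1 :=
    (norm_mul_le _ _).trans (mul_le_mul hxy.le h3 (norm_nonneg _) (by linarith))
  rw [h2]
  have h6 := norm_add_le (VV L * y - y * VV L) (VV L * (x - y) - (x - y) * VV L)
  have h7 := norm_sub_le (VV L * (x - y)) ((x - y) * VV L)
  linarith

private theorem good_A {a : BH} (ha : a ∈ A) : Good a :=
  A_induction (p := Good) (fun t k => good_of_comm fun l => Y_io t k l)
    (fun u => good_of_comm fun l => g_io u l) good_Sg good_star_Sg good_one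
    (fun _ _ => good_add) (fun _ _ => good_mul) (fun c _ => good_smul c) good_closed ha

private theorem PN_A' {a : BH} (ha : a ∈ A) : PN * a = a * PN := by
  refine A_induction (p := fun x : BH => PN * x = x * PN) (fun t k => ?_) (fun u => ?_) (fun b => ?_)
    (fun b => ?_) ?_ ?_ ?_ ?_ ?_ ha
  · show PN * Y t k = Y t k * PN
    refine ext_idx fun w v n m => ?_
    rw [mulE, mulE]
    rcases m with m | p
    · rw [PN_e_inl]
      cases w with
      | nil => rw [Y_e_nil, map_smul, PN_e_inl]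
      | cons a w =>
        rw [Y_e_cons, map_add, map_smul, PN_e_inl]
        by_cases h : a = (bar t, k - n)
        · rw [if_pos h, map_smul, PN_e_inl]
        · rw [if_neg h, map_zero]
    · rw [PN_e_inr, map_zero]
      cases w with
      | nil => rw [Y_e_nil, map_smul, PN_e_inr, smul_zero]
      | cons a w =>
        rw [Y_e_cons, map_add, map_smul, PN_e_inr, smul_zero, zero_add]
        by_cases h : a = (bar t, k - n)
        · rw [if_pos h, map_smul, PN_e_inr, smul_zero]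
        · rw [if_neg h, map_zero]
  · show PN * g u = g u * PN
    refine ext_idx fun w v n m => ?_
    rw [mulE, mulE, g_e, map_smul]
    rcases m with m | p
    · rw [PN_e_inl, PN_e_inl, g_e]
    · rw [PN_e_inr, PN_e_inr, map_zero, smul_zero]
  · show PN * Sg b = Sg b * PN
    refine ext_idx fun w v n m => ?_
    rw [mulE, mulE, Sg_e]
    rcases m with m | ⟨m, l⟩
    · rw [PN_e_inl, sM_inl, PN_e_inl, Sg_e, sM_inl]
    · rw [PN_e_inr, sM_inr, PN_e_inr, map_zero]
  · show PN * star (Sg b) = star (Sg b) * PN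
    refine ext_idx fun w v n m => ?_
    rw [mulE, mulE, star_Sg_e]
    rcases m with m | ⟨m, l⟩
    · rw [PN_e_inl, star_Sg_e]
      by_cases h : hd (Sum.inl m) = b
      · rw [if_pos h]
        exact PN_e_inl w v (n - bn b) m.div2
      · rw [if_neg h, map_zero]
    · rw [PN_e_inr, map_zero]
      by_cases h : hd (Sum.inr (m, l)) = b
      · rw [if_pos h]
        exact PN_e_inr w v (n - bn b) (m.div2, l - 1)
      · rw [if_neg h, map_zero]
  · show PN * 1 = 1 * PN
    rw [mul_one, one_mul]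
  · intro x y hx hy
    show PN * (x + y) = (x + y) * PN
    have hx' : PN * x = x * PN := hx
    have hy' : PN * y = y * PN := hy
    rw [mul_add, add_mul, hx', hy']
  · intro x y hx hy
    show PN * (x * y) = (x * y) * PN
    have hx' : PN * x = x * PN := hx
    have hy' : PN * y = y * PN := hy
    rw [← mul_assoc, hx', mul_assoc, hy', mul_assoc]
  · intro c x hx
    show PN * (c • x) = (c • x) * PN
    have hx' : PN * x = x * PN := hx
    rw [mul_smul_comm, hx', smul_mul_assoc]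
  · exact isClosed_eq (continuous_const.mul continuous_id) (continuous_id.mul continuous_const)

theorem PN_A (a : A) : PN * (a : BH) = (a : BH) * PN := PN_A' a.2

theorem norm_VV {L : ℕ} (hL : 1 ≤ L) (x : H Idx) : ‖VV L x‖ = ‖PN x‖ :=
  (sq_eq_sq₀ (norm_nonneg _) (norm_nonneg _)).1 (norm_sq_VL L hL x)

theorem VV_comm (a : A) : Tendsto (fun L : ℕ => ‖VV L * (a : BH) - (a : BH) * VV L‖) atTop (𝓝 0) :=
  good_A a.2

private theorem inl_of_inr (a : A)
    (h : ∀ p : ℕ × ℤ, (a : BH) (e (([] : W), ((0 : V), ((0 : ℤ), (Sum.inr p : M))))) = 0) (m : M) :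
    (a : BH) (e (([] : W), ((0 : V), ((0 : ℤ), m)))) = 0 := by
  rcases m with m | p
  swap
  · exact h p
  have h1 : ∀ L : ℕ, 0 < L → ‖(a : BH) (e (([] : W), ((0 : V), ((0 : ℤ), (Sum.inl m : M)))))‖ ≤
      ‖VV L * (a : BH) - (a : BH) * VV L‖ := by
    intro L hL
    have h2 : (a : BH) (VV L (e (([] : W), ((0 : V), ((0 : ℤ), (Sum.inl m : M)))))) = 0 := by
      unfold VV
      have h3 : ((((L : ℝ) ^ (-(1 / 2 : ℝ)) : ℝ) : ℂ) • ∑ l ∈ Finset.range L, io (l : ℤ))
          (e (([] : W), ((0 : V), ((0 : ℤ), (Sum.inl m : M))))) =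
          (((L : ℝ) ^ (-(1 / 2 : ℝ)) : ℝ) : ℂ) • ∑ l ∈ Finset.range L,
            e (([] : W), ((0 : V), ((0 : ℤ), (Sum.inr (m, (l : ℤ)) : M)))) := by
        show (((L : ℝ) ^ (-(1 / 2 : ℝ)) : ℝ) : ℂ) • ((∑ l ∈ Finset.range L, io (l : ℤ))
          (e (([] : W), ((0 : V), ((0 : ℤ), (Sum.inl m : M)))))) = _
        rw [sum_apply]
        congr 1
        exact Finset.sum_congr rfl fun l _ => io_e_inl _ _ _ _ _
      rw [h3, map_smul, map_sum]
      have h4 : ∀ l ∈ Finset.range L,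
          (a : BH) (e (([] : W), ((0 : V), ((0 : ℤ), (Sum.inr (m, (l : ℤ)) : M))))) = 0 :=
        fun l _ => h _
      rw [Finset.sum_congr rfl h4, Finset.sum_const_zero, smul_zero]
    have h3 : PN ((a : BH) (e (([] : W), ((0 : V), ((0 : ℤ), (Sum.inl m : M)))))) =
        (a : BH) (e (([] : W), ((0 : V), ((0 : ℤ), (Sum.inl m : M))))) := by
      rw [← mulE, PN_A a, mulE, PN_e_inl]
    have h4 := norm_sq_VL L hL ((a : BH) (e (([] : W), ((0 : V), ((0 : ℤ), (Sum.inl m : M))))))
    rw [h3] at h4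
    have h5 : ‖VV L ((a : BH) (e (([] : W), ((0 : V), ((0 : ℤ), (Sum.inl m : M))))))‖ =
        ‖(a : BH) (e (([] : W), ((0 : V), ((0 : ℤ), (Sum.inl m : M)))))‖ :=
      (sq_eq_sq₀ (norm_nonneg _) (norm_nonneg _)).1 h4
    rw [← h5]
    have h6 : VV L ((a : BH) (e (([] : W), ((0 : V), ((0 : ℤ), (Sum.inl m : M)))))) =
        (VV L * (a : BH) - (a : BH) * VV L) (e (([] : W), ((0 : V), ((0 : ℤ), (Sum.inl m : M))))) := by
      show _ = VV L ((a : BH) (e (([] : W), ((0 : V), ((0 : ℤ), (Sum.inl m : M)))))) -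
        (a : BH) (VV L (e (([] : W), ((0 : V), ((0 : ℤ), (Sum.inl m : M))))))
      rw [h2, sub_zero]
    rw [h6]
    refine (ContinuousLinearMap.le_opNorm _ _).trans ?_
    rw [norm_e, mul_one]
  have h2 : ‖(a : BH) (e (([] : W), ((0 : V), ((0 : ℤ), (Sum.inl m : M)))))‖ ≤ 0 := by
    refine ge_of_tendsto (good_A a.2) ?_
    filter_upwards [eventually_gt_atTop 0] with L hL
    exact h1 L hL
  exact norm_le_zero_iff.1 h2

theorem faithful_inr (a : A)
    (h : ∀ p : ℕ × ℤ, (a : BH) (e (([] : W), ((0 : V), ((0 : ℤ), (Sum.inr p : M))))) = 0) : a = 0 :=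
  faithful_vac a (inl_of_inr a h)

end OE
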