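import Mathlib
import Pool.Agent.Work.MP_06ef15_an.CF

/-!
# The reducing subspace `KK` (3.3)  (M)

`sK` = set of all `(w,v,n,inl m)` with `n = popcount m`.
* `popcount (bit b m) = popcount m + bn b` (also for `b = false`, `m = 0`; `Nat.bits`, `Nat.bit`, or strong induction).
* `prK_A`: `commute_A` with `commute_pr`: the generators `Y t k`, `g u` do not change the coordinates `n, m`;
  `Sg b : (n, inl m) ↦ (n + bn b, inl (bit b m))` and `(n, inr p) ↦ (n + bn b, inr _)`, so `Sg b` maps `ℓ²(sK)` and `ℓ²(sKᶜ)`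
  into themselves.  For the adjoints take `star` (`star_pr`).
* `PB_prK`: `pr_mul_pr` and equality of sets: `n = 0 = popcount m` means `m = 0`.
* `PB_A_PV`: `PV = PB * pr sK`, `pr sK * PV = PV` (`pr_mul_pr`), so `PB a PV = PB a (pr sK) PV = PB (pr sK) a PV = PV a PV`.
-/

set_option autoImplicit false

open scoped ComplexConjugate InnerProductSpace Classical
open ContinuousLinearMap (adjoint)

namespace OE

def sK : Set Idx := {x | ∃ m : ℕ, x.2.2.2 = Sum.inl m ∧ x.2.2.1 = ((m.bits.count true : ℕ) : ℤ)}

theorem count_bits_bit (b : Bool) (m : ℕ) :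
    (((Nat.bit b m).bits.count true : ℕ) : ℤ) = ((m.bits.count true : ℕ) : ℤ) + bn b := by
  by_cases h : m = 0 → b = true
  · rw [Nat.bits_append_bit m b h, List.count_cons]
    cases b with
    | true => simp [bn]
    | false => simp [bn]
  · push Not at h
    obtain ⟨h1, h2⟩ := h
    have h3 : b = false := by simpa using h2
    subst h1 h3
    simp [bn]

private theorem prK_e (w : W) (v : V) (n : ℤ) (m : M) : pr sK (e (w, (v, (n, m)))) =
    if (∃ p : ℕ, m = Sum.inl p ∧ n = ((p.bits.count true : ℕ) : ℤ)) then e (w, (v, (n, m)))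
    else 0 := by
  by_cases h : ∃ p : ℕ, m = Sum.inl p ∧ n = ((p.bits.count true : ℕ) : ℤ)
  · rw [if_pos h, pr_e_mem]
    exact h
  · rw [if_neg h, pr_e_notMem]
    exact h

private theorem cj_zero (p : ℕ) : p.bits.count true = 0 → p = 0 := by
  induction p using Nat.strong_induction_on with
  | _ p ih =>
    intro h
    by_contra hne
    have h1 := count_bits_bit p.bodd p.div2
    rw [Nat.bit_bodd_div2, h] at h1
    have h2 : 0 ≤ bn p.bodd := by
      unfold bn; split_ifs <;> norm_num
    have h3 : p.div2.bits.count true = 0 := by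
      push_cast at h1
      omega
    have h4 : p.div2 < p := by
      rw [Nat.div2_val]; omega
    have h5 := ih _ h4 h3
    have h6 : bn p.bodd = 0 := by
      push_cast at h1
      omega
    have h7 : p.bodd = false := by
      by_contra hb
      rw [Bool.not_eq_false] at hb
      rw [hb] at h6
      simp [bn] at h6
    have h8 := Nat.bit_bodd_div2 p
    rw [h5, h7] at h8
    exact hne h8.symm

theorem prK_A (a : A) : pr sK * (a : BH) = (a : BH) * pr sK := by
  have hS : ∀ b, pr sK * Sg b = Sg b * pr sK := by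
    intro b
    refine ext_idx fun w v n m => ?_
    change pr sK (Sg b (e (w, (v, (n, m))))) = Sg b (pr sK (e (w, (v, (n, m)))))
    rw [Sg_e, prK_e, prK_e]
    have hP : (∃ p : ℕ, sM b m = Sum.inl p ∧ n + bn b = ((p.bits.count true : ℕ) : ℤ)) ↔
        ∃ p : ℕ, m = Sum.inl p ∧ n = ((p.bits.count true : ℕ) : ℤ) := by
      cases m with
      | inl q =>
        constructor
        · rintro ⟨p, h1, h2⟩
          have h3 : Nat.bit b q = p := Sum.inl.inj h1
          rw [← h3, count_bits_bit] at h2
          exact ⟨q, rfl, by omega⟩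
        · rintro ⟨p, h1, h2⟩
          have h3 : q = p := Sum.inl.inj h1
          subst h3
          exact ⟨Nat.bit b q, rfl, by rw [count_bits_bit, h2]⟩
      | inr q =>
        constructor
        · rintro ⟨p, h1, h2⟩
          exact absurd h1 (by simp [sM])
        · rintro ⟨p, h1, h2⟩
          exact absurd h1 (by simp)
    by_cases h : ∃ p : ℕ, m = Sum.inl p ∧ n = ((p.bits.count true : ℕ) : ℤ)
    · rw [if_pos h, if_pos (hP.2 h), Sg_e]
    · rw [if_neg h, if_neg (fun h' => h (hP.1 h')), map_zero]
  refine A_induction (p := fun x => pr sK * x = x * pr sK) ?_ ?_ hS ?_ (by rw [one_mul, mul_one])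
    ?_ ?_ ?_ ?_ a.2
  · intro t k
    refine ext_idx fun w v n m => ?_
    change pr sK (Y t k (e (w, (v, (n, m))))) = Y t k (pr sK (e (w, (v, (n, m)))))
    rw [prK_e]
    by_cases h : ∃ p : ℕ, m = Sum.inl p ∧ n = ((p.bits.count true : ℕ) : ℤ)
    · rw [if_pos h]
      cases w with
      | nil => rw [Y_e_nil, map_smul, prK_e, if_pos h]
      | cons c w =>
        rw [Y_e_cons, map_add, map_smul, prK_e, if_pos h]
        split_ifs
        · rw [map_smul, prK_e, if_pos h]
        · rw [map_zero]
    · rw [if_neg h, map_zero]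
      cases w with
      | nil => rw [Y_e_nil, map_smul, prK_e, if_neg h, smul_zero]
      | cons c w =>
        rw [Y_e_cons, map_add, map_smul, prK_e, if_neg h, smul_zero, zero_add]
        split_ifs
        · rw [map_smul, prK_e, if_neg h, smul_zero]
        · rw [map_zero]
  · intro u
    refine ext_idx fun w v n m => ?_
    change pr sK (g u (e (w, (v, (n, m))))) = g u (pr sK (e (w, (v, (n, m)))))
    rw [prK_e, g_e, map_smul, prK_e]
    by_cases h : ∃ p : ℕ, m = Sum.inl p ∧ n = ((p.bits.count true : ℕ) : ℤ)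
    · rw [if_pos h, if_pos h, g_e]
    · rw [if_neg h, if_neg h, smul_zero, map_zero]
  · intro b
    have h := congrArg star (hS b)
    rw [star_mul, star_mul, star_pr] at h
    exact h.symm
  · intro x y hx hy
    rw [mul_add, add_mul, hx, hy]
  · intro x y hx hy
    rw [← mul_assoc, hx, mul_assoc, hy, mul_assoc]
  · intro c x hx
    rw [mul_smul_comm, smul_mul_assoc, hx]
  · exact isClosed_eq (continuous_const.mul continuous_id) (continuous_id.mul continuous_const)

theorem PB_prK : PB * pr sK = PV := by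
  unfold PB PV
  rw [pr_mul_pr]
  congr 1
  ext x
  constructor
  · rintro ⟨⟨h1, h2⟩, p, h3, h4⟩
    refine ⟨h1, h2, ?_⟩
    rw [h2] at h4
    have h5 : p = 0 := cj_zero p (by exact_mod_cast h4.symm)
    rw [h3, h5]
  · rintro ⟨h1, h2, h3⟩
    exact ⟨⟨h1, h2⟩, 0, h3, by rw [h2]; simp⟩

theorem prK_PV : pr sK * PV = PV := by
  unfold PV
  rw [pr_mul_pr]
  congr 1
  refine Set.inter_eq_self_of_subset_right ?_
  rintro x ⟨h1, h2, h3⟩
  exact ⟨0, h3, by rw [h2]; simp⟩

theorem PB_A_PV (a : A) : PB * (a : BH) * PV = PV * (a : BH) * PV := by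
  calc PB * (a : BH) * PV = PB * (a : BH) * (pr sK * PV) := by rw [prK_PV]
    _ = PB * ((a : BH) * pr sK) * PV := by simp only [mul_assoc]
    _ = PB * (pr sK * (a : BH)) * PV := by rw [prK_A]
    _ = (PB * pr sK) * (a : BH) * PV := by simp only [mul_assoc]
    _ = PV * (a : BH) * PV := by rw [PB_prK]

end OE
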