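import Mathlib
import Pool.Agent.Work.MP_06ef15_an.AN2

/-!
# Normal words span a dense *-subalgebra  (M)

`Nw y v μ ν = Yw y * g v * Sw μ * star (Sw ν)`.
* `Y_mul_NS`: `Y a.1 a.2 * Yw y = Yw (a :: y)` (all left multiplications: `Submodule.span_induction`).
* `g_mul_NS`: `g u * Yw y = c • (Yw y * g u)` with a phase `c` (induction on `y`, `g_Y`), then `g_mul`.
* `Sg_mul_NS`: `Sg b * Yw y = Yw (y with all labels + bn b) * Sg b` (induction, `Sg_Y`), `Sg_g`, `Sw_cons`.
* `star_Sg_mul_NS`: the same with `star_Sg_Y`, `star_Sg_g`; `star (Sg b) * Sw (b' :: μ) = if b = b' then Sw μ else 0`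
  (`star_Sg_mul`); for `μ = []`: `star (Sg b) * star (Sw ν) = star (Sw ν * Sg b) = star (Sw (ν ++ [b]))`.
* `NS_mul`: `span_induction` in the left factor; a normal word is a product of generators and adjoints of `Sg`'s, so it maps
  `NS` to `NS` from the left (inductions on `y`, `μ`, `ν`; `star (Sw (b :: ν)) = star (Sw ν) * star (Sg b)`).
* `dense_Nw`: `A_induction` with `p x := x ∈ closure (NS : Set BH)`: a generator is a normal word (`Nw [(t,k)] 0 [] []`,
  `Nw [] u [] []`, `Nw [] 0 [b] []`, `Nw [] 0 [] [b]`, `g_zero`), the closure of `NS` is closed under sums, multiples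
  (`NS.topologicalClosure` is a submodule) and products (`map_mem_closure₂ continuous_mul`, `NS_mul`); `Metric.mem_closure_iff`.
-/

set_option autoImplicit false

open scoped ComplexConjugate InnerProductSpace Classical Topology
open ContinuousLinearMap (adjoint)
open Filter

namespace OE

/-- linear span of the normal words. -/
noncomputable def NS : Submodule ℂ BH := Submodule.span ℂ {x : BH | ∃ y v μ ν, x = Nw y v μ ν}

theorem Nw_mem_NS (y : List (T × ℤ)) (v : V) (μ ν : List Bool) : Nw y v μ ν ∈ NS := Submodule.subset_span ⟨y, v, μ, ν, rfl⟩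
theorem one_mem_NS : (1 : BH) ∈ NS := by
  have h : Nw [] 0 [] [] = 1 := by
    rw [Nw, Yw_nil, g_zero, Sw_nil, star_one, mul_one, mul_one, mul_one]
  rw [← h]
  exact Nw_mem_NS _ _ _ _
private theorem mul_NS_of {S : BH} (h : ∀ y v μ ν, S * Nw y v μ ν ∈ NS) {x : BH} (hx : x ∈ NS) :
    S * x ∈ NS := by
  refine Submodule.span_induction (p := fun x _ => S * x ∈ NS) ?_ ?_ ?_ ?_ hx
  · rintro x ⟨y, v, μ, ν, rfl⟩
    exact h y v μ ν
  · rw [mul_zero]
    exact NS.zero_mem
  · intro x x' _ _ hx hx'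
    rw [mul_add]
    exact NS.add_mem hx hx'
  · intro c x _ hx
    rw [mul_smul_comm]
    exact NS.smul_mem c hx

private theorem cn_g_Yw (u : V) (y : List (T × ℤ)) : ∃ c : ℂ, g u * Yw y = c • (Yw y * g u) := by
  induction y with
  | nil => exact ⟨1, by rw [Yw_nil, one_mul, mul_one, one_smul]⟩
  | cons a y ih =>
    obtain ⟨c, hc⟩ := ih
    refine ⟨ch (-(xf u * dg1 a.1)) * c, ?_⟩
    rw [Yw_cons, ← mul_assoc, g_Y, smul_mul_assoc, mul_assoc, hc, mul_smul_comm, smul_smul,
      mul_assoc]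

private theorem cn_Sg_Yw (b : Bool) (y : List (T × ℤ)) :
    Sg b * Yw y = Yw (y.map fun a => (a.1, a.2 + bn b)) * Sg b := by
  induction y with
  | nil => rw [List.map_nil, Yw_nil, one_mul, mul_one]
  | cons a y ih =>
    rw [List.map_cons, Yw_cons, Yw_cons, ← mul_assoc, Sg_Y, mul_assoc, ih, mul_assoc]

private theorem cn_sSg_Yw (b : Bool) (y : List (T × ℤ)) :
    star (Sg b) * Yw y = Yw (y.map fun a => (a.1, a.2 - bn b)) * star (Sg b) := by
  induction y with
  | nil => rw [List.map_nil, Yw_nil, one_mul, mul_one]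
  | cons a y ih =>
    rw [List.map_cons, Yw_cons, Yw_cons, ← mul_assoc, star_Sg_Y, mul_assoc, ih, mul_assoc]

theorem Y_mul_NS (t : T) (k : ℤ) {x : BH} (hx : x ∈ NS) : Y t k * x ∈ NS := by
  refine mul_NS_of (fun y v μ ν => ?_) hx
  have h : Y t k * Nw y v μ ν = Nw ((t, k) :: y) v μ ν := by
    rw [Nw, Nw, Yw_cons]
    simp only [mul_assoc]
  rw [h]
  exact Nw_mem_NS _ _ _ _
theorem g_mul_NS (u : V) {x : BH} (hx : x ∈ NS) : g u * x ∈ NS := by
  refine mul_NS_of (fun y v μ ν => ?_) hx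
  obtain ⟨c, hc⟩ := cn_g_Yw u y
  have h : g u * Nw y v μ ν = (c * ch (bf u v)) • Nw y (u + v) μ ν := by
    have h2 : g u * Nw y v μ ν = (g u * Yw y) * g v * Sw μ * star (Sw ν) := by
      rw [Nw]; simp only [mul_assoc]
    rw [h2, hc, smul_mul_assoc, mul_assoc (Yw y), g_mul, mul_smul_comm, smul_smul, Nw,
      smul_mul_assoc, smul_mul_assoc]
  rw [h]
  exact NS.smul_mem _ (Nw_mem_NS _ _ _ _)
theorem Sg_mul_NS (b : Bool) {x : BH} (hx : x ∈ NS) : Sg b * x ∈ NS := by
  refine mul_NS_of (fun y v μ ν => ?_) hx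
  have h : Sg b * Nw y v μ ν = Nw (y.map fun a => (a.1, a.2 + bn b)) v (b :: μ) ν := by
    have h2 : Sg b * Nw y v μ ν = (Sg b * Yw y) * g v * Sw μ * star (Sw ν) := by
      rw [Nw]; simp only [mul_assoc]
    rw [h2, cn_Sg_Yw, mul_assoc (Yw _), Sg_g, Nw, Sw_cons]
    simp only [mul_assoc]
  rw [h]
  exact Nw_mem_NS _ _ _ _
theorem star_Sg_mul_NS (b : Bool) {x : BH} (hx : x ∈ NS) : star (Sg b) * x ∈ NS := by
  refine mul_NS_of (fun y v μ ν => ?_) hx
  have h2 : star (Sg b) * Nw y v μ ν = Yw (y.map fun a => (a.1, a.2 - bn b)) * g v *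
      (star (Sg b) * Sw μ) * star (Sw ν) := by
    have h3 : star (Sg b) * Nw y v μ ν = (star (Sg b) * Yw y) * g v * Sw μ * star (Sw ν) := by
      rw [Nw]; simp only [mul_assoc]
    rw [h3, cn_sSg_Yw, mul_assoc (Yw _), star_Sg_g]
    simp only [mul_assoc]
  rw [h2]
  cases μ with
  | nil =>
    have h4 : star (Sg b) * star (Sw ν) = star (Sw (ν ++ [b])) := by
      rw [Sw_append, Sw_cons, Sw_nil, mul_one, star_mul]
    rw [Sw_nil, mul_one, mul_assoc, h4]
    have h5 := Nw_mem_NS (y.map fun a => (a.1, a.2 - bn b)) v [] (ν ++ [b])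
    rwa [Nw, Sw_nil, mul_one] at h5
  | cons b' μ' =>
    rw [Sw_cons, ← mul_assoc (star (Sg b)), star_Sg_mul]
    split_ifs
    · rw [one_mul]
      exact Nw_mem_NS (y.map fun a => (a.1, a.2 - bn b)) v μ' ν
    · rw [zero_mul, mul_zero, zero_mul]
      exact NS.zero_mem
theorem NS_mul {x y : BH} (hx : x ∈ NS) (hy : y ∈ NS) : x * y ∈ NS := by
  have h1 : ∀ (ν : List Bool) {x : BH}, x ∈ NS → star (Sw ν) * x ∈ NS := by
    intro ν
    induction ν with
    | nil => intro x hx; rw [Sw_nil, star_one, one_mul]; exact hx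
    | cons b ν ih =>
      intro x hx
      rw [Sw_cons, star_mul, mul_assoc]
      exact ih (star_Sg_mul_NS b hx)
  have h2 : ∀ (μ : List Bool) {x : BH}, x ∈ NS → Sw μ * x ∈ NS := by
    intro μ
    induction μ with
    | nil => intro x hx; rw [Sw_nil, one_mul]; exact hx
    | cons b μ ih =>
      intro x hx
      rw [Sw_cons, mul_assoc]
      exact Sg_mul_NS b (ih hx)
  have h3 : ∀ (y : List (T × ℤ)) {x : BH}, x ∈ NS → Yw y * x ∈ NS := by
    intro y
    induction y with
    | nil => intro x hx; rw [Yw_nil, one_mul]; exact hx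
    | cons a y ih =>
      intro x hx
      rw [Yw_cons, mul_assoc]
      exact Y_mul_NS a.1 a.2 (ih hx)
  refine Submodule.span_induction (p := fun x _ => x * y ∈ NS) ?_ ?_ ?_ ?_ hx
  · rintro x ⟨z, v, μ, ν, rfl⟩
    have h4 : Nw z v μ ν * y = Yw z * (g v * (Sw μ * (star (Sw ν) * y))) := by
      rw [Nw]; simp only [mul_assoc]
    rw [h4]
    exact h3 z (g_mul_NS v (h2 μ (h1 ν hy)))
  · rw [zero_mul]
    exact NS.zero_mem
  · intro x x' _ _ hx hx'
    rw [add_mul]
    exact NS.add_mem hx hx'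
  · intro c x _ hx
    rw [smul_mul_assoc]
    exact NS.smul_mem c hx
theorem NS_sub_A {x : BH} (hx : x ∈ NS) : x ∈ A := by
  have h : NS ≤ Subalgebra.toSubmodule A.toSubalgebra := by
    refine Submodule.span_le.2 ?_
    rintro x ⟨y, v, μ, ν, rfl⟩
    exact Nw_mem y v μ ν
  exact h hx

theorem dense_Nw (a : A) (ε : ℝ) (hε : 0 < ε) : ∃ x ∈ NS, ‖(a : BH) - x‖ < ε := by
  have hmem : (a : BH) ∈ closure ((NS : Submodule ℂ BH) : Set BH) := by
    refine A_induction (p := fun x => x ∈ closure ((NS : Submodule ℂ BH) : Set BH)) ?_ ?_ ?_ ?_ ?_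
      ?_ ?_ ?_ isClosed_closure a.2
    · intro t k
      have h := Y_mul_NS t k one_mem_NS
      rw [mul_one] at h
      exact subset_closure h
    · intro u
      have h := g_mul_NS u one_mem_NS
      rw [mul_one] at h
      exact subset_closure h
    · intro b
      have h := Sg_mul_NS b one_mem_NS
      rw [mul_one] at h
      exact subset_closure h
    · intro b
      have h := star_Sg_mul_NS b one_mem_NS
      rw [mul_one] at h
      exact subset_closure h
    · exact subset_closure one_mem_NS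
    · intro x y hx hy
      exact NS.topologicalClosure.add_mem hx hy
    · intro x y hx hy
      exact map_mem_closure₂ continuous_mul hx hy fun p hp q hq => NS_mul hp hq
    · intro c x hx
      exact NS.topologicalClosure.smul_mem c hx
  obtain ⟨x, hx, hd⟩ := Metric.mem_closure_iff.1 hmem ε hε
  exact ⟨x, hx, by rwa [dist_eq_norm] at hd⟩

end OE
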