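import Mathlib
import Pool.Agent.Work.MP_06ef15_an.CN

/-!
# `A` is separable  (S-M)

The set of normal words is the range of a function on the countable type `List (T × ℤ) × V × List Bool × List Bool`
(`countable_V`; `Set.countable_range`), so it is separable, its span is separable (`TopologicalSpace.IsSeparable.span`), the
closure of a separable set is separable (`IsSeparable.closure`), and `A` is contained in that closure by `dense_Nw`
(`Metric.mem_closure_iff`).  A subspace of a metric space whose carrier is a separable set is a separable space
(`TopologicalSpace.IsSeparable.separableSpace`, `IsSeparable.mono`).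
-/

set_option autoImplicit false

open scoped ComplexConjugate InnerProductSpace Classical Topology
open ContinuousLinearMap (adjoint)
open Filter

namespace OE

theorem separable_A : TopologicalSpace.SeparableSpace A := by
  have : Countable V := countable_V
  have h1 : {x : BH | ∃ y v μ ν, x = Nw y v μ ν} =
      Set.range fun p : List (T × ℤ) × V × List Bool × List Bool => Nw p.1 p.2.1 p.2.2.1 p.2.2.2 := by
    ext x
    constructor
    · rintro ⟨y, v, μ, ν, rfl⟩
      exact ⟨(y, v, μ, ν), rfl⟩
    · rintro ⟨p, rfl⟩
      exact ⟨_, _, _, _, rfl⟩
  have h2 : TopologicalSpace.IsSeparable {x : BH | ∃ y v μ ν, x = Nw y v μ ν} := by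
    rw [h1]
    exact (Set.countable_range _).isSeparable
  have h3 : TopologicalSpace.IsSeparable ((NS : Submodule ℂ BH) : Set BH) := h2.span
  have h4 : TopologicalSpace.IsSeparable ((A : StarSubalgebra ℂ BH) : Set BH) := by
    refine h3.closure.mono fun x hx => ?_
    rw [Metric.mem_closure_iff]
    intro ε hε
    obtain ⟨z, hz, hd⟩ := dense_Nw ⟨x, hx⟩ ε hε
    exact ⟨z, hz, by rw [dist_eq_norm]; exact hd⟩
  exact h4.separableSpace

end OE
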