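import Mathlib
import Pool.Agent.Work.MP_06ef15_an.ASM
import Pool.Agent.Work.MP_06ef15_an.CS
import Pool.Agent.Work.MP_06ef15_an.CI
import Pool.Agent.Work.MP_06ef15_an.CJ

/-!
# Interface of sections 2 and 3 (owner: helper72)

Normal form (`NS`, `dense_Nw`, `NS_sub_A`: CN), separability (`separable_A`: CS), commutant (`R_A`, `Ut_A`, `star_Ut_A`, `gr_A`: CF),
faithfulness (`faithful_vac`: CH, `faithful_inr`: CI), invariance (`PB_A_PV`: CJ).
-/
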