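import Mathlib
import Pool.Agent.Work.MP_06ef15_an.CF

/-!
# Spectral gap (6.1)  (M)

`l i = Yc (inl i) 0` (`dg1 (inl i) = 0`, so `l i e(w,v,n,m) = e((i,-n)::w,v,n,m)`), `r i e(w,..) = e(w ++ [(i,0)],..)`.
`X i = l i + star (l i)` (`star_Yc`), `R (inl i) 0 = r i + star (r i)` (`adj_wp_e_some`, `adj_wp_e_none`: the second summand of
`R` is the adjoint of the first one).
(a) `star (l i) * l j = δ`, `star (r i) * r j = δ`.
(b) `∑_{i<9} ‖star (l i) η‖² ≤ ‖η‖²`: with `S` the left side and `ζ = ∑ l i (star (l i) η)`: `‖ζ‖² = S = ⟪ζ, η⟫` by (a), so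
    `S ≤ √S ‖η‖`.  The same for `r`.
(c) if `PB η = 0` then `star (r i) (l i η) = l i (star (r i) η)`: `star (r i) * l i * (1 - PB) = l i * star (r i) * (1 - PB)` by
    `ext_idx` (word `[]`: both `0` if `n ≠ 0`; word `w' ++ [a]`: both are `e((i,-n)::w',..)` if `a = (i,0)`, else `0`).
(d) `|∑ ⟪l i η, r i η⟫| = |∑ ⟪star (r i) η, star (l i) η⟫| ≤ ∑ (‖star (r i) η‖² + ‖star (l i) η‖²)/2 ≤ ‖η‖²`.
(e) `∑_{i<9} ‖(l i - r i) η‖² = 18 ‖η‖² - 2 re ∑ ⟪l i η, r i η⟫ ≥ 16 ‖η‖²`.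
(f) `∑_{i<9} ‖(star (l i) - star (r i)) η‖² ≤ ∑ 2 (‖star (l i) η‖² + ‖star (r i) η‖²) ≤ 4 ‖η‖²`.
(g) `‖a‖² ≤ 2 ‖a + b‖² + 2 ‖b‖²` with `a = (l i - r i) η`, `b = (star (l i) - star (r i)) η`: sum over `i`:
    `16 ‖η‖² ≤ 2 ∑ ‖(X i - R i) η‖² + 8 ‖η‖²`.
-/

set_option autoImplicit false

open scoped ComplexConjugate InnerProductSpace Classical
open ContinuousLinearMap (adjoint)

namespace OE

/-- `r i e(w,..) = e(w ++ [(i,0)],..)`. -/
noncomputable def rc (i : ℕ) : BH := wp (fun x : Idx => some (x.1 ++ [((Sum.inl i : T), (0 : ℤ))], x.2)) (fun _ => 1)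

private theorem ga_pinj (i : ℕ) :
    PInj (fun x : Idx => some ((x.1 ++ [((Sum.inl i : T), (0 : ℤ))], x.2) : Idx)) := by
  intro x x' j h h'
  simp only [Option.some.injEq] at h h'
  rw [← h'] at h
  simp only [Prod.mk.injEq, List.append_cancel_right_eq] at h
  exact Prod.ext h.1 h.2

private theorem ga_one {I : Type} : ∀ _ : I, ‖(1 : ℂ)‖ ≤ 1 := fun _ => by simp

theorem rc_e (i : ℕ) (w : W) (q : Q) : rc i (e (w, q)) = e (w ++ [((Sum.inl i : T), (0 : ℤ))], q) := by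
  unfold rc
  rw [wp_e zero_le_one (ga_pinj i) ga_one, one_smul]
  rfl

private theorem star_rc_nil (i : ℕ) (q : Q) : star (rc i) (e (([] : W), q)) = 0 := by
  rw [ContinuousLinearMap.star_eq_adjoint]
  unfold rc
  rw [adj_wp_e_none zero_le_one (ga_pinj i) ga_one]
  intro x hx
  simp at hx

private theorem star_rc_concat (i : ℕ) (w : W) (a : Lam) (q : Q) :
    star (rc i) (e (w ++ [a], q)) = if a = ((Sum.inl i : T), (0 : ℤ)) then e (w, q) else 0 := by
  rw [ContinuousLinearMap.star_eq_adjoint]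
  unfold rc
  split_ifs with h
  · subst h
    rw [adj_wp_e_some (i := ((w, q) : Idx)) zero_le_one (ga_pinj i) ga_one rfl, map_one, one_smul]
  · refine adj_wp_e_none zero_le_one (ga_pinj i) ga_one fun x hx => h ?_
    simp only [Option.some.injEq, Prod.mk.injEq] at hx
    have h3 := (List.append_inj' hx.1 rfl).2
    simpa using h3.symm

theorem R_eq_rc (i : ℕ) : R (Sum.inl i) 0 = rc i + star (rc i) := by
  refine ext_idx fun w v n m => ?_
  rw [add_apply, rc_e]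
  rcases List.eq_nil_or_concat w with h1 | ⟨l, a, h1⟩
  · subst h1
    rw [R_e_nil, star_rc_nil, add_zero]
    rfl
  · rw [List.concat_eq_append] at h1
    subst h1
    rw [R_e_concat, star_rc_concat]
    rfl

theorem X_eq_Yc (i : ℕ) : X i = Yc (Sum.inl i) 0 + star (Yc (Sum.inl i) 0) := by
  rw [star_Yc]
  rfl

theorem star_rc_mul_rc (i j : ℕ) : star (rc i) * rc j = if i = j then 1 else 0 := by
  refine ext_idx fun w v n m => ?_
  rw [mul_apply_eq_comp, rc_e, star_rc_concat]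
  by_cases h : i = j
  · subst h
    rw [if_pos rfl, if_pos rfl]
    rfl
  · rw [if_neg h, if_neg]
    · rfl
    · intro h2
      exact h (Sum.inl_injective (congrArg Prod.fst h2)).symm

private theorem ga_ch (v : V) (i : ℕ) : ch (xf v * dg1 (Sum.inl i)) = 1 := by
  have : dg1 (Sum.inl i) = 0 := rfl
  rw [this, mul_zero, ch_zero]

theorem star_rc_Yc (i : ℕ) {η : H Idx} (h : PB η = 0) :
    star (rc i) (Yc (Sum.inl i) 0 η) = Yc (Sum.inl i) 0 (star (rc i) η) := by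
  have h1 : star (rc i) * Yc (Sum.inl i) 0 * (1 - PB) = Yc (Sum.inl i) 0 * star (rc i) * (1 - PB) := by
    refine ext_idx fun w v n m => ?_
    rw [mul_apply_eq_comp, mul_apply_eq_comp, mul_apply_eq_comp, mul_apply_eq_comp, sub_apply, PB_e]
    by_cases h2 : w = [] ∧ n = 0
    · rw [if_pos h2]
      have h3 : (1 : BH) (e (w, (v, (n, m)))) = e (w, (v, (n, m))) := rfl
      rw [h3, sub_self, map_zero, map_zero, map_zero]
    · rw [if_neg h2]
      have h3 : (1 : BH) (e (w, (v, (n, m)))) = e (w, (v, (n, m))) := rfl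
      rw [h3, sub_zero, Yc_e, ga_ch, one_smul]
      rcases List.eq_nil_or_concat w with h4 | ⟨l, a, h4⟩
      · subst h4
        have h5 : ([((Sum.inl i : T), 0 - n)] : W) = [] ++ [((Sum.inl i : T), 0 - n)] := rfl
        rw [h5, star_rc_concat, star_rc_nil, map_zero, if_neg]
        intro h6
        have h7 : 0 - n = 0 := congrArg Prod.snd h6
        exact h2 ⟨rfl, by omega⟩
      · rw [List.concat_eq_append] at h4
        subst h4
        rw [← List.cons_append, star_rc_concat, star_rc_concat]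
        by_cases h6 : a = ((Sum.inl i : T), (0 : ℤ))
        · rw [if_pos h6, if_pos h6, Yc_e, ga_ch, one_smul]
        · rw [if_neg h6, if_neg h6, map_zero]
  have h2 : (1 - PB) η = η := by
    rw [sub_apply, h, sub_zero]
    rfl
  have h3 := congrArg (fun S : BH => S η) h1
  simp only [mul_apply_eq_comp] at h3
  rw [h2] at h3
  exact h3

/-- (b) for general isometries with orthogonal ranges. -/
theorem bessel_iso {S : ℕ → BH} (hS : ∀ i j, star (S i) * S j = if i = j then 1 else 0) (N : ℕ) (η : H Idx) :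
    ∑ i ∈ Finset.range N, ‖star (S i) η‖ ^ 2 ≤ ‖η‖ ^ 2 := by
  set x : ℕ → H Idx := fun i => star (S i) η with hx
  set ζ : H Idx := ∑ i ∈ Finset.range N, S i (x i) with hζ
  have h1 : ∀ i (y z : H Idx), ⟪S i y, z⟫_ℂ = ⟪y, star (S i) z⟫_ℂ := by
    intro i y z
    rw [ContinuousLinearMap.star_eq_adjoint, ContinuousLinearMap.adjoint_inner_right]
  have h2 : ⟪ζ, η⟫_ℂ = ((∑ i ∈ Finset.range N, ‖x i‖ ^ 2 : ℝ) : ℂ) := by
    rw [hζ, sum_inner]
    push_cast
    refine Finset.sum_congr rfl fun i _ => ?_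
    rw [h1, inner_self_eq_norm_sq_to_K]
    rfl
  have h3 : ⟪ζ, ζ⟫_ℂ = ((∑ i ∈ Finset.range N, ‖x i‖ ^ 2 : ℝ) : ℂ) := by
    rw [hζ, sum_inner]
    push_cast
    refine Finset.sum_congr rfl fun i hi => ?_
    rw [h1, map_sum, inner_sum, Finset.sum_eq_single i]
    · have h4 : star (S i) (S i (x i)) = x i := by
        have h5 := congrArg (fun T : BH => T (x i)) (hS i i)
        rw [if_pos rfl] at h5
        exact h5
      rw [h4, inner_self_eq_norm_sq_to_K]
      rfl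
    · intro j _ hj
      have h4 : star (S i) (S j (x j)) = 0 := by
        have h5 := congrArg (fun T : BH => T (x j)) (hS i j)
        rw [if_neg (Ne.symm hj)] at h5
        exact h5
      rw [h4, inner_zero_right]
    · intro h4
      exact absurd hi h4
  obtain ⟨s, hs⟩ : ∃ s : ℝ, s = ∑ i ∈ Finset.range N, ‖x i‖ ^ 2 := ⟨_, rfl⟩
  rw [← hs] at h2 h3 ⊢
  have h6 : ‖ζ - η‖ ^ 2 = s - 2 * s + ‖η‖ ^ 2 := by
    rw [@norm_sub_sq ℂ, h2]
    have h7 : ‖ζ‖ ^ 2 = s := by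
      have h8 : ((‖ζ‖ ^ 2 : ℝ) : ℂ) = (s : ℂ) := by
        rw [← h3, inner_self_eq_norm_sq_to_K]
        push_cast
        rfl
      exact_mod_cast h8
    rw [h7]
    simp
  have h7 := sq_nonneg ‖ζ - η‖
  linarith

private theorem ga_norm {S : BH} (hS : star S * S = 1) (η : H Idx) : ‖S η‖ ^ 2 = ‖η‖ ^ 2 := by
  have h1 : ⟪S η, S η⟫_ℂ = ⟪η, η⟫_ℂ := by
    have h2 : star S (S η) = η := congrArg (fun T : BH => T η) hS
    conv_rhs => rw [← h2]
    rw [ContinuousLinearMap.star_eq_adjoint, ContinuousLinearMap.adjoint_inner_right, ← ContinuousLinearMap.star_eq_adjoint, h2]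
  have h2 : ((‖S η‖ ^ 2 : ℝ) : ℂ) = ((‖η‖ ^ 2 : ℝ) : ℂ) := by
    rw [inner_self_eq_norm_sq_to_K, inner_self_eq_norm_sq_to_K] at h1
    push_cast
    exact h1
  exact_mod_cast h2

theorem gap (η : H Idx) (h : PB η = 0) :
    4 * ‖η‖ ^ 2 ≤ ∑ i ∈ Finset.range 9, ‖(X i - R (Sum.inl i) 0) η‖ ^ 2 := by
  have hl : ∀ i j : ℕ, star (Yc (Sum.inl i) 0) * Yc (Sum.inl j) 0 = if i = j then 1 else 0 := by
    intro i j
    rw [star_Yc_mul_Yc]
    by_cases h1 : i = j
    · rw [if_pos h1, if_pos ⟨by rw [h1], rfl⟩]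
    · rw [if_neg h1, if_neg]
      intro h2
      exact h1 (Sum.inl_injective h2.1)
  have b1 := bessel_iso hl 9 η
  have b2 := bessel_iso star_rc_mul_rc 9 η
  have key : ∀ i : ℕ, ‖η‖ ^ 2 - 5 / 2 * (‖star (Yc (Sum.inl i) 0) η‖ ^ 2 + ‖star (rc i) η‖ ^ 2) ≤
      ‖(X i - R (Sum.inl i) 0) η‖ ^ 2 := by
    intro i
    obtain ⟨l, hl'⟩ : ∃ l, l = Yc (Sum.inl i) 0 := ⟨_, rfl⟩
    have hli : star l * l = 1 := by rw [hl', hl, if_pos rfl]
    have hri : star (rc i) * rc i = 1 := by rw [star_rc_mul_rc, if_pos rfl]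
    have e1 : (X i - R (Sum.inl i) 0) η = (l η - rc i η) + (star l η - star (rc i) η) := by
      rw [X_eq_Yc, R_eq_rc, ← hl', sub_apply, add_apply, add_apply]
      abel
    have hcomm : star (rc i) (l η) = l (star (rc i) η) := by
      rw [hl']
      exact star_rc_Yc i h
    rw [← hl', e1]
    obtain ⟨a, ha⟩ : ∃ a, a = l η - rc i η := ⟨_, rfl⟩
    obtain ⟨b, hb⟩ : ∃ b, b = star l η - star (rc i) η := ⟨_, rfl⟩
    rw [← ha, ← hb]
    have n1 : ‖a‖ ≤ ‖a + b‖ + ‖b‖ := by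
      have := norm_sub_le (a + b) b
      rwa [add_sub_cancel_right] at this
    have n2 : ‖b‖ ≤ ‖star l η‖ + ‖star (rc i) η‖ := by
      rw [hb]
      exact norm_sub_le _ _
    have n3 : ‖a‖ ^ 2 = 2 * ‖η‖ ^ 2 - 2 * (⟪l η, rc i η⟫_ℂ).re := by
      rw [ha, @norm_sub_sq ℂ, ga_norm hli, ga_norm hri]
      simp
      ring
    have n4 : (⟪l η, rc i η⟫_ℂ).re ≤ ‖star (rc i) η‖ * ‖star l η‖ := by
      have h5 : ⟪l η, rc i η⟫_ℂ = ⟪star (rc i) η, star l η⟫_ℂ := by
        calc ⟪l η, rc i η⟫_ℂ = ⟪star (rc i) (l η), η⟫_ℂ := by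
              rw [ContinuousLinearMap.star_eq_adjoint, ContinuousLinearMap.adjoint_inner_left]
          _ = ⟪l (star (rc i) η), η⟫_ℂ := by rw [hcomm]
          _ = ⟪star (rc i) η, star l η⟫_ℂ := by
              rw [ContinuousLinearMap.star_eq_adjoint l, ContinuousLinearMap.adjoint_inner_right]
      rw [h5]
      exact (Complex.re_le_norm _).trans (norm_inner_le_norm _ _)
    have p1 := norm_nonneg a
    have p2 := norm_nonneg b
    have p3 := norm_nonneg (a + b)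
    have p4 := norm_nonneg (star l η)
    have p5 := norm_nonneg (star (rc i) η)
    have q1 : ‖a‖ ^ 2 ≤ 2 * ‖a + b‖ ^ 2 + 2 * ‖b‖ ^ 2 := by
      nlinarith [sq_nonneg (‖a + b‖ - ‖b‖)]
    have q2 : ‖b‖ ^ 2 ≤ 2 * (‖star l η‖ ^ 2 + ‖star (rc i) η‖ ^ 2) := by
      nlinarith [sq_nonneg (‖star l η‖ - ‖star (rc i) η‖)]
    nlinarith [sq_nonneg (‖star l η‖ - ‖star (rc i) η‖)]
  calc 4 * ‖η‖ ^ 2 ≤ ∑ i ∈ Finset.range 9,
        (‖η‖ ^ 2 - 5 / 2 * (‖star (Yc (Sum.inl i) 0) η‖ ^ 2 + ‖star (rc i) η‖ ^ 2)) := by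
        rw [Finset.sum_sub_distrib, ← Finset.mul_sum, Finset.sum_add_distrib, Finset.sum_const,
          Finset.card_range, nsmul_eq_mul]
        push_cast
        linarith
    _ ≤ _ := Finset.sum_le_sum fun i _ => key i

end OE
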