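import Mathlib
import Pool.Agent.Work.MP_06ef15_an.GA
import Pool.Agent.Work.MP_06ef15_an.CJ

/-!
# Spectral gap for elements of `A` (6.2), (6.3)  (S-M)

`gap_PB_sq`: for `y : H Idx` put `η = PB y`, `ζ = x η - PB (x η)`, `PB ζ = 0` (`PB_idem`).  `(X i - R i) (PB z) = 0` for all `z`
(`X_PB`), and `(X i - R i) (x η) = X i x η - x R i η = (X i x - x X i) η` (`R_A`, `X_PB`).  So `(X i - R i) ζ = (X i x - x X i) η`
and `gap` gives `4 ‖ζ‖² ≤ ∑ ‖X i x - x X i‖² ‖η‖²`, `‖η‖ ≤ ‖y‖` (`norm_PB_le`); `‖x PB y - PB x PB y‖ = ‖ζ‖`.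
`gap_PB`: the right side is at most `(1/4) 9 δ² = (3/2 δ)²`.
`gap_PV`: `x PV - PV x PV = (x PB - PB x PB) PV` (`PB_mul_PV`, `PB_A_PV`), `norm_PV_le`.
`nc_gap_*`: squeeze with `d n = ∑_{i<9} ‖X i x n - x n X i‖` (or the maximum), `h (XA i)`; norms in `A` are norms in `BH`.
-/

set_option autoImplicit false

open scoped ComplexConjugate InnerProductSpace Classical
open ContinuousLinearMap (adjoint)

namespace OE

private theorem PB_PB (z : H Idx) : PB (PB z) = PB z := by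
  have h := congrArg (fun S : BH => S z) PB_idem
  exact h

private theorem X_R_PB (i : ℕ) (z : H Idx) : (X i - R (Sum.inl i) 0) (PB z) = 0 := by
  have h := congrArg (fun S : BH => S z) (X_PB i)
  show X i (PB z) - R (Sum.inl i) 0 (PB z) = 0
  have h' : X i (PB z) = R (Sum.inl i) 0 (PB z) := h
  rw [h', sub_self]

private theorem key_pt (a : A) (y : H Idx) :
    ‖((a : BH) * PB - PB * (a : BH) * PB) y‖ ^ 2 ≤
      ((1 / 4) * ∑ i ∈ Finset.range 9, ‖X i * (a : BH) - (a : BH) * X i‖ ^ 2) * ‖y‖ ^ 2 := by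
  set η := PB y with hη
  set ζ := (a : BH) η - PB ((a : BH) η) with hζ
  have h1 : ((a : BH) * PB - PB * (a : BH) * PB) y = ζ := rfl
  have h2 : PB ζ = 0 := by
    rw [hζ, map_sub, PB_PB, sub_self]
  have h3 := gap ζ h2
  have hPBη : PB η = η := PB_PB y
  have h4 : ∀ i ∈ Finset.range 9, ‖(X i - R (Sum.inl i) 0) ζ‖ ^ 2 ≤
      ‖X i * (a : BH) - (a : BH) * X i‖ ^ 2 * ‖η‖ ^ 2 := by
    intro i _
    have h5 : (X i - R (Sum.inl i) 0) ζ = (X i * (a : BH) - (a : BH) * X i) η := by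
      have e1 : (X i - R (Sum.inl i) 0) ζ = (X i - R (Sum.inl i) 0) ((a : BH) η) := by
        rw [hζ, map_sub, X_R_PB, sub_zero]
      rw [e1]
      show X i ((a : BH) η) - R (Sum.inl i) 0 ((a : BH) η) = X i ((a : BH) η) - (a : BH) (X i η)
      have e2 : R (Sum.inl i) 0 ((a : BH) η) = (a : BH) (R (Sum.inl i) 0 η) :=
        congrArg (fun S : BH => S η) (R_A (Sum.inl i) 0 a)
      have e3 : R (Sum.inl i) 0 η = X i η := by
        have h := congrArg (fun S : BH => S y) (X_PB i)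
        exact h.symm
      rw [e2, e3]
    rw [h5, ← mul_pow]
    exact pow_le_pow_left₀ (norm_nonneg _) (ContinuousLinearMap.le_opNorm _ _) 2
  have h6 : ∑ i ∈ Finset.range 9, ‖(X i - R (Sum.inl i) 0) ζ‖ ^ 2 ≤
      (∑ i ∈ Finset.range 9, ‖X i * (a : BH) - (a : BH) * X i‖ ^ 2) * ‖η‖ ^ 2 := by
    rw [Finset.sum_mul]
    exact Finset.sum_le_sum h4
  have h7 : ‖η‖ ≤ ‖y‖ := by
    calc ‖η‖ ≤ ‖PB‖ * ‖y‖ := ContinuousLinearMap.le_opNorm _ _
      _ ≤ 1 * ‖y‖ := mul_le_mul_of_nonneg_right norm_PB_le (norm_nonneg _)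
      _ = ‖y‖ := one_mul _
  have h8 : ‖η‖ ^ 2 ≤ ‖y‖ ^ 2 := pow_le_pow_left₀ (norm_nonneg _) h7 2
  rw [h1]
  have h9 : (0 : ℝ) ≤ ∑ i ∈ Finset.range 9, ‖X i * (a : BH) - (a : BH) * X i‖ ^ 2 :=
    Finset.sum_nonneg (fun i _ => sq_nonneg _)
  have h10 := mul_le_mul_of_nonneg_left h8 h9
  nlinarith

theorem gap_PB_sq (a : A) :
    ‖(a : BH) * PB - PB * (a : BH) * PB‖ ^ 2 ≤ (1 / 4) * ∑ i ∈ Finset.range 9, ‖X i * (a : BH) - (a : BH) * X i‖ ^ 2 := by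
  set S := (1 / 4 : ℝ) * ∑ i ∈ Finset.range 9, ‖X i * (a : BH) - (a : BH) * X i‖ ^ 2 with hS
  have hS0 : 0 ≤ S := by
    rw [hS]
    exact mul_nonneg (by norm_num) (Finset.sum_nonneg (fun i _ => sq_nonneg _))
  have h1 : ‖(a : BH) * PB - PB * (a : BH) * PB‖ ≤ Real.sqrt S := by
    apply ContinuousLinearMap.opNorm_le_bound _ (Real.sqrt_nonneg _)
    intro y
    have h := key_pt a y
    rw [← hS] at h
    have h2 : (Real.sqrt S * ‖y‖) ^ 2 = S * ‖y‖ ^ 2 := by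
      rw [mul_pow, Real.sq_sqrt hS0]
    rw [← h2] at h
    exact le_of_sq_le_sq h (mul_nonneg (Real.sqrt_nonneg _) (norm_nonneg _))
  calc ‖(a : BH) * PB - PB * (a : BH) * PB‖ ^ 2 ≤ (Real.sqrt S) ^ 2 := pow_le_pow_left₀ (norm_nonneg _) h1 2
    _ = S := Real.sq_sqrt hS0

theorem gap_PB (a : A) {δ : ℝ} (hδ : 0 ≤ δ) (h : ∀ i < 9, ‖X i * (a : BH) - (a : BH) * X i‖ ≤ δ) :
    ‖(a : BH) * PB - PB * (a : BH) * PB‖ ≤ 3 / 2 * δ := by
  have h1 := gap_PB_sq a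
  have h2 : ∑ i ∈ Finset.range 9, ‖X i * (a : BH) - (a : BH) * X i‖ ^ 2 ≤ ∑ i ∈ Finset.range 9, δ ^ 2 := by
    apply Finset.sum_le_sum
    intro i hi
    exact pow_le_pow_left₀ (norm_nonneg _) (h i (Finset.mem_range.mp hi)) 2
  rw [Finset.sum_const, Finset.card_range, nsmul_eq_mul] at h2
  apply le_of_sq_le_sq _ (by positivity)
  calc ‖(a : BH) * PB - PB * (a : BH) * PB‖ ^ 2 ≤ (1 / 4) * ∑ i ∈ Finset.range 9, ‖X i * (a : BH) - (a : BH) * X i‖ ^ 2 := h1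
    _ ≤ (1 / 4) * (((9 : ℕ) : ℝ) * δ ^ 2) := mul_le_mul_of_nonneg_left h2 (by norm_num)
    _ = (3 / 2 * δ) ^ 2 := by push_cast; ring

private theorem PV_eq (a : A) :
    (a : BH) * PV - PV * (a : BH) * PV = ((a : BH) * PB - PB * (a : BH) * PB) * PV := by
  rw [sub_mul, mul_assoc (a : BH) PB PV, PB_mul_PV, mul_assoc (PB * (a : BH)) PB PV, PB_mul_PV, PB_A_PV]

theorem gap_PV (a : A) {δ : ℝ} (hδ : 0 ≤ δ) (h : ∀ i < 9, ‖X i * (a : BH) - (a : BH) * X i‖ ≤ δ) :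
    ‖(a : BH) * PV - PV * (a : BH) * PV‖ ≤ 3 / 2 * δ := by
  rw [PV_eq]
  calc ‖((a : BH) * PB - PB * (a : BH) * PB) * PV‖ ≤ ‖(a : BH) * PB - PB * (a : BH) * PB‖ * ‖PV‖ := norm_mul_le _ _
    _ ≤ (3 / 2 * δ) * 1 := mul_le_mul (gap_PB a hδ h) norm_PV_le (norm_nonneg _) (by positivity)
    _ = 3 / 2 * δ := mul_one _

private theorem nc_sum {x : ℕ → A} (h : NC x) :
    Filter.Tendsto (fun n => ∑ i ∈ Finset.range 9, ‖X i * (x n : BH) - (x n : BH) * X i‖) Filter.atTop (nhds 0) := by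
  have h1 : ∀ i ∈ Finset.range 9,
      Filter.Tendsto (fun n => ‖X i * (x n : BH) - (x n : BH) * X i‖) Filter.atTop (nhds 0) := by
    intro i _
    have h2 := h (XA i)
    refine h2.congr (fun n => ?_)
    show ‖(x n : BH) * X i - X i * (x n : BH)‖ = _
    rw [norm_sub_rev]
  have h3 := tendsto_finset_sum (Finset.range 9) h1
  simpa using h3

theorem nc_gap_PB {x : ℕ → A} (h : NC x) :
    Filter.Tendsto (fun n => ‖(x n : BH) * PB - PB * (x n : BH) * PB‖) Filter.atTop (nhds 0) := by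
  have h1 := (nc_sum h).const_mul (3 / 2 : ℝ)
  rw [mul_zero] at h1
  refine squeeze_zero (fun n => norm_nonneg _) (fun n => ?_) h1
  apply gap_PB (x n) (Finset.sum_nonneg (fun i _ => norm_nonneg _))
  intro i hi
  exact Finset.single_le_sum (f := fun i => ‖X i * (x n : BH) - (x n : BH) * X i‖) (fun i _ => norm_nonneg _)
    (Finset.mem_range.mpr hi)

theorem nc_gap_PV {x : ℕ → A} (h : NC x) :
    Filter.Tendsto (fun n => ‖(x n : BH) * PV - PV * (x n : BH) * PV‖) Filter.atTop (nhds 0) := by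
  refine squeeze_zero (fun n => norm_nonneg _) (fun n => ?_) (nc_gap_PB h)
  rw [PV_eq]
  calc ‖((x n : BH) * PB - PB * (x n : BH) * PB) * PV‖ ≤ ‖(x n : BH) * PB - PB * (x n : BH) * PB‖ * ‖PV‖ := norm_mul_le _ _
    _ ≤ ‖(x n : BH) * PB - PB * (x n : BH) * PB‖ * 1 := mul_le_mul_of_nonneg_left norm_PV_le (norm_nonneg _)
    _ = _ := mul_one _

end OE
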