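import Mathlib
import Pool.Agent.Work.MP_06ef15_an.CX
import Pool.Agent.Work.MP_06ef15_an.GB

/-!
# Interface of section 6 (owner: helper72): spectral gap

`gap_PB`, `gap_PV`, `nc_gap_PB`, `nc_gap_PV`: GB.
-/
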