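import Mathlib
import Pool.Agent.Work.MP_06ef15_an.CX

/-!
# Block J, (8.1): the functionals `a ↦ ⟪X_i ζ, σ(a) ζ⟫`   (size S-M)

`PV ζ = ζ`, so `X i ζ = R (inl i) 0 ζ` (`X_PB`, `PB_mul_PV`).  `X_ortho`: `⟪X i ζ, X j ζ⟫ = δ_ij ‖ζ‖²` (`X i ζ = ℓ_i ζ`: `Ya (inl i) 0` kills
`ran PV`, `star_Yc_mul_Yc`).
`sum_le_right`: Bessel: `∑ |⟪X_i ζ, b ζ⟫|² ≤ ‖b ζ‖²` for every `b`, `‖σ(a) ζ‖² = ⟪ζ, star (σ a) (σ a) ζ⟫ = ⟪ζ, σ (a * star a) ζ⟫`.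
`sum_le_left`: `⟪X_i ζ, b ζ⟫ = ⟪R_i ζ, b ζ⟫ = ⟪ζ, R_i (b ζ)⟫ = ⟪ζ, b (R_i ζ)⟫ = ⟪star b ζ, X_i ζ⟫` for `b = σ a` (`star_R`, `R_A` of file CX), Bessel again:
`≤ ‖star b ζ‖² = ⟪ζ, b (star b) ζ⟫ = ⟪ζ, σ (star a * a) ζ⟫`.
-/

set_option autoImplicit false

open scoped ComplexConjugate InnerProductSpace Classical
open ContinuousLinearMap (adjoint)

namespace OE

private theorem adj_inner (b : BH) (x y : H Idx) : ⟪x, star b y⟫_ℂ = ⟪b x, y⟫_ℂ := by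
  rw [ContinuousLinearMap.star_eq_adjoint]
  exact ContinuousLinearMap.adjoint_inner_right b x y

private theorem inner_self' (x : H Idx) : ⟪x, x⟫_ℂ = ((‖x‖ ^ 2 : ℝ) : ℂ) := by
  rw [inner_self_eq_norm_sq_to_K]
  norm_cast

private theorem inner_star_mul (b : BH) (x : H Idx) :
    ⟪x, (star b * b) x⟫_ℂ = ((‖b x‖ ^ 2 : ℝ) : ℂ) := by
  change ⟪x, star b (b x)⟫_ℂ = _
  rw [adj_inner, inner_self_eq_norm_sq_to_K]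
  norm_cast

private theorem PB_of_PV {ζ : H Idx} (hζ : PV ζ = ζ) : PB ζ = ζ := by
  have h : (PB * PV) ζ = PV ζ := by rw [PB_mul_PV]
  change PB (PV ζ) = PV ζ at h
  rw [hζ] at h
  exact h

theorem X_PV {ζ : H Idx} (hζ : PV ζ = ζ) (i : ℕ) : X i ζ = R (Sum.inl i) 0 ζ := by
  have h : (X i * PB) ζ = (R (Sum.inl i) 0 * PB) ζ := by rw [X_PB]
  change X i (PB ζ) = R (Sum.inl i) 0 (PB ζ) at h
  rw [PB_of_PV hζ] at h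
  exact h

private theorem Ya_PV (i : ℕ) : Ya (Sum.inl i) 0 * PV = 0 := by
  refine ext_idx fun w v n m => ?_
  change Ya (Sum.inl i) 0 (PV (e (w, (v, (n, m))))) = 0
  rw [PV_e]
  by_cases h : w = [] ∧ n = 0 ∧ m = Sum.inl 0
  · rw [if_pos h, h.1]
    exact Ya_e_nil _ _ _ _ _
  · rw [if_neg h, map_zero]

private theorem X_PV' {ζ : H Idx} (hζ : PV ζ = ζ) (i : ℕ) : X i ζ = Yc (Sum.inl i) 0 ζ := by
  have h : (Ya (Sum.inl i) 0 * PV) ζ = 0 := by rw [Ya_PV]; rfl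
  change Ya (Sum.inl i) 0 (PV ζ) = 0 at h
  rw [hζ] at h
  change (Yc (Sum.inl i) 0 + Ya (Sum.inl i) 0) ζ = _
  rw [add_apply, h, add_zero]

theorem X_ortho {ζ : H Idx} (hζ : PV ζ = ζ) (i j : ℕ) :
    ⟪X i ζ, X j ζ⟫_ℂ = if i = j then ((‖ζ‖ ^ 2 : ℝ) : ℂ) else 0 := by
  rw [X_PV' hζ, X_PV' hζ, ← adj_inner]
  change ⟪ζ, (star (Yc (Sum.inl i) 0) * Yc (Sum.inl j) 0) ζ⟫_ℂ = _
  rw [star_Yc_mul_Yc]
  by_cases h : i = j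
  · rw [if_pos h, if_pos ⟨by rw [h], rfl⟩]
    change ⟪ζ, ζ⟫_ℂ = _
    rw [inner_self_eq_norm_sq_to_K]
    norm_cast
  · rw [if_neg h, if_neg fun h2 => h (Sum.inl.inj h2.1)]
    change ⟪ζ, (0 : H Idx)⟫_ℂ = _
    rw [inner_zero_right]

theorem bessel_X {ζ : H Idx} (hζ : PV ζ = ζ) (h1 : ‖ζ‖ = 1) (y : H Idx) :
    ∑ i : Fin 9, ‖⟪X (i : ℕ) ζ, y⟫_ℂ‖ ^ 2 ≤ ‖y‖ ^ 2 := by
  have h : OrthoBdd (fun i : Fin 9 => X (i : ℕ) ζ) 1 := by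
    refine ⟨zero_le_one, ?_, ?_⟩
    · intro i j hij
      rw [X_ortho hζ, if_neg fun h2 => hij (Fin.ext h2)]
    · intro i
      have h2 := X_ortho hζ (i : ℕ) (i : ℕ)
      rw [if_pos rfl, h1, inner_self'] at h2
      have h3 : ‖X (i : ℕ) ζ‖ ^ 2 = (1 : ℝ) ^ 2 := Complex.ofReal_injective h2
      exact le_of_eq ((sq_eq_sq₀ (norm_nonneg _) zero_le_one).1 h3)
  have := bessel h Finset.univ y
  rwa [one_pow, one_mul] at this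

theorem sum_le_right (σ : Anti) {ζ : H Idx} (hζ : PV ζ = ζ) (h1 : ‖ζ‖ = 1) (a : A) :
    ∃ r : ℝ, ⟪ζ, ((σ.f (a * star a) : A) : BH) ζ⟫_ℂ = (r : ℂ) ∧
      ∑ i : Fin 9, ‖⟪X (i : ℕ) ζ, ((σ.f a : A) : BH) ζ⟫_ℂ‖ ^ 2 ≤ r := by
  refine ⟨‖((σ.f a : A) : BH) ζ‖ ^ 2, ?_, bessel_X hζ h1 _⟩
  have e : ((σ.f (a * star a) : A) : BH) = star ((σ.f a : A) : BH) * ((σ.f a : A) : BH) := by
    rw [σ.map_mul, σ.map_star]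
    rfl
  rw [e, inner_star_mul]

theorem sum_le_left (σ : Anti) {ζ : H Idx} (hζ : PV ζ = ζ) (h1 : ‖ζ‖ = 1) (a : A) :
    ∃ r : ℝ, ⟪ζ, ((σ.f (star a * a) : A) : BH) ζ⟫_ℂ = (r : ℂ) ∧
      ∑ i : Fin 9, ‖⟪X (i : ℕ) ζ, ((σ.f a : A) : BH) ζ⟫_ℂ‖ ^ 2 ≤ r := by
  set b : A := σ.f a with hb
  refine ⟨‖star (b : BH) ζ‖ ^ 2, ?_, ?_⟩
  · have e : ((σ.f (star a * a) : A) : BH) = star (star (b : BH)) * star (b : BH) := by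
      rw [σ.map_mul, σ.map_star, star_star]
      rfl
    rw [e, inner_star_mul]
  · refine le_trans (le_of_eq ?_) (bessel_X hζ h1 (star (b : BH) ζ))
    refine Finset.sum_congr rfl fun i _ => ?_
    have h2 : ⟪X (i : ℕ) ζ, (b : BH) ζ⟫_ℂ = ⟪star (b : BH) ζ, X (i : ℕ) ζ⟫_ℂ := by
      have hR : star (R (Sum.inl (i : ℕ)) 0) = R (Sum.inl (i : ℕ)) 0 := star_R _ _
      have hc : R (Sum.inl (i : ℕ)) 0 ((b : BH) ζ) = (b : BH) (R (Sum.inl (i : ℕ)) 0 ζ) := by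
        have := congrArg (fun S : BH => S ζ) (R_A (Sum.inl (i : ℕ)) 0 b)
        exact this
      rw [X_PV hζ, ← adj_inner, hR, hc, ← adj_inner (star (b : BH)), star_star]
    rw [h2, norm_inner_symm]

end OE
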