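import Mathlib

/-!
# Block J, (8.6): geometric mean of commuting positive operators   (size M)

`geo_mean`.  For `d > 0` let `a' = a + d`, `b' = b + d` (invertible, commuting, `C ≤ a² ≤ a'²`, `C ≤ b'²`).  Then
`a'⁻¹ C a'⁻¹ ≤ 1`, so `‖C^{1/2} a'⁻¹‖ ≤ 1`, likewise `‖C^{1/2} b'⁻¹‖ ≤ 1`, so `k = b'⁻¹ C a'⁻¹` is a contraction.
`m = (a' b')^{1/2}`: `m⁻¹ C m⁻¹ = w k w⁻¹` with `w = b'^{1/2} a'^{-1/2}` (everything commutes except `C`) is self-adjoint, so its norm is
its spectral radius, which is that of `k` (`spectrum.nonzero_mul_comm`-type lemma, or `‖x‖ = ‖x^(2^n)‖^(1/2^n) ≤ (‖w‖ ‖w⁻¹‖)^(1/2^n)`),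
at most `1`.  Hence `C ≤ m² = a' b' = a b + d (a + b) + d²`; let `d → 0` (quadratic forms).
(Shorter variant: it is enough to show `⟪x, C x⟫ ≤ ⟪x, a' b' x⟫`.)
-/

set_option autoImplicit false

open scoped ComplexConjugate InnerProductSpace Classical

namespace OE

private theorem conj_inv_le {K : Type*} [NormedAddCommGroup K] [InnerProductSpace ℂ K] [CompleteSpace K]
    {a C : K →L[ℂ] K} (ha : 0 ≤ a) (u : (K →L[ℂ] K)ˣ) (hu : (u : K →L[ℂ] K) = a) (hC : 0 ≤ C) (h1 : C ≤ a * a) :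
    ‖CFC.sqrt C * (↑(u⁻¹) : K →L[ℂ] K)‖ ≤ 1 := by
  have hsa : star (↑(u⁻¹) : K →L[ℂ] K) = ↑(u⁻¹) := by
    have h2 : star a = a := (IsSelfAdjoint.of_nonneg ha).star_eq
    have h3 : star (↑(u⁻¹) : K →L[ℂ] K) * a = 1 := by
      have h4 : a * (↑(u⁻¹) : K →L[ℂ] K) = 1 := by rw [← hu]; exact u.mul_inv
      have h5 := congrArg star h4
      rw [star_mul, star_one, h2] at h5
      exact h5
    rw [← hu] at h3
    exact (Units.eq_inv_of_mul_eq_one_right h3)
  have hsq : star (CFC.sqrt C) = CFC.sqrt C := (IsSelfAdjoint.of_nonneg (CFC.sqrt_nonneg C)).star_eq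
  have h6 : star (CFC.sqrt C * (↑(u⁻¹) : K →L[ℂ] K)) * (CFC.sqrt C * (↑(u⁻¹) : K →L[ℂ] K)) =
      (↑(u⁻¹) : K →L[ℂ] K) * C * ↑(u⁻¹) := by
    rw [star_mul, hsq, hsa]
    calc (↑(u⁻¹) : K →L[ℂ] K) * CFC.sqrt C * (CFC.sqrt C * ↑(u⁻¹)) =
        ↑(u⁻¹) * (CFC.sqrt C * CFC.sqrt C) * ↑(u⁻¹) := by simp only [mul_assoc]
      _ = _ := by rw [CFC.sqrt_mul_sqrt_self C hC]
  have h7 : (↑(u⁻¹) : K →L[ℂ] K) * C * ↑(u⁻¹) ≤ 1 := by
    have h8 := star_left_conjugate_le_conjugate h1 (↑(u⁻¹) : K →L[ℂ] K)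
    rw [hsa] at h8
    have h9 : (↑(u⁻¹) : K →L[ℂ] K) * (a * a) * ↑(u⁻¹) = 1 := by
      rw [← hu]
      calc (↑(u⁻¹) : K →L[ℂ] K) * (↑u * ↑u) * ↑(u⁻¹) = (↑(u⁻¹) * ↑u) * (↑u * ↑(u⁻¹)) := by simp only [mul_assoc]
        _ = 1 := by rw [u.inv_mul, u.mul_inv, one_mul]
    rw [h9] at h8
    exact h8
  have h10 : 0 ≤ (↑(u⁻¹) : K →L[ℂ] K) * C * ↑(u⁻¹) := by
    rw [← h6]
    exact star_mul_self_nonneg _
  have h11 : ‖(↑(u⁻¹) : K →L[ℂ] K) * C * ↑(u⁻¹)‖ ≤ 1 := (CStarAlgebra.norm_le_one_iff_of_nonneg _ h10).2 h7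
  rw [← h6, CStarRing.norm_star_mul_self] at h11
  by_contra hlt
  push Not at hlt
  nlinarith [norm_nonneg (CFC.sqrt C * (↑(u⁻¹) : K →L[ℂ] K))]

private theorem geo_mean_unit {K : Type*} [NormedAddCommGroup K] [InnerProductSpace ℂ K] [CompleteSpace K]
    {a b C : K →L[ℂ] K} (ha : 0 ≤ a) (hb : 0 ≤ b) (hua : IsUnit a) (hub : IsUnit b) (hab : a * b = b * a) (hC : 0 ≤ C)
    (h1 : C ≤ a * a) (h2 : C ≤ b * b) : C ≤ a * b := by
  obtain ⟨u, hu⟩ := hua
  obtain ⟨v, hv⟩ := hub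
  have hm : 0 ≤ a * b := Commute.mul_nonneg ha hb hab
  have hr0 : 0 ≤ CFC.sqrt (a * b) := CFC.sqrt_nonneg _
  have hrr : CFC.sqrt (a * b) * CFC.sqrt (a * b) = a * b := CFC.sqrt_mul_sqrt_self _ hm
  have hrs : star (CFC.sqrt (a * b)) = CFC.sqrt (a * b) := (IsSelfAdjoint.of_nonneg hr0).star_eq
  have hcb : Commute (a * b) b := by
    show a * b * b = b * (a * b)
    rw [← mul_assoc, ← hab]
  have hrb : Commute (CFC.sqrt (a * b)) b := by
    unfold CFC.sqrt
    exact hcb.cfcₙ_nnreal _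
  have hru : IsUnit (CFC.sqrt (a * b)) := by
    rw [CFC.isUnit_sqrt_iff _ hm, ← hu, ← hv]
    exact (u * v).isUnit
  obtain ⟨r, hr⟩ := hru
  -- abbreviations
  set S : K →L[ℂ] K := CFC.sqrt (a * b) with hS
  set ui : K →L[ℂ] K := ↑(u⁻¹) with hui
  set vi : K →L[ℂ] K := ↑(v⁻¹) with hvi
  set ri : K →L[ℂ] K := ↑(r⁻¹) with hri
  have hua1 : a * ui = 1 := by rw [← hu]; exact u.mul_inv
  have hua2 : ui * a = 1 := by rw [← hu]; exact u.inv_mul
  have hvb1 : b * vi = 1 := by rw [← hv]; exact v.mul_inv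
  have hvb2 : vi * b = 1 := by rw [← hv]; exact v.inv_mul
  have hrS1 : S * ri = 1 := by rw [← hr]; exact r.mul_inv
  have hrS2 : ri * S = 1 := by rw [← hr]; exact r.inv_mul
  -- `k`
  have hk : ‖vi * C * ui‖ ≤ 1 := by
    have hA := conj_inv_le ha u hu hC h1
    have hB := conj_inv_le hb v hv hC h2
    have hvs : star vi = vi := by
      have h3 : star b = b := (IsSelfAdjoint.of_nonneg hb).star_eq
      have h5 := congrArg star hvb1
      rw [star_mul, star_one, h3, ← hv] at h5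
      exact (Units.eq_inv_of_mul_eq_one_right h5)
    have hsq : star (CFC.sqrt C) = CFC.sqrt C := (IsSelfAdjoint.of_nonneg (CFC.sqrt_nonneg C)).star_eq
    have h3 : vi * C * ui = star (CFC.sqrt C * vi) * (CFC.sqrt C * ui) := by
      rw [star_mul, hsq, hvs]
      calc vi * C * ui = vi * (CFC.sqrt C * CFC.sqrt C) * ui := by rw [CFC.sqrt_mul_sqrt_self C hC]
        _ = _ := by simp only [mul_assoc]
    rw [h3]
    calc ‖star (CFC.sqrt C * vi) * (CFC.sqrt C * ui)‖ ≤ ‖star (CFC.sqrt C * vi)‖ * ‖CFC.sqrt C * ui‖ :=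
          norm_mul_le _ _
      _ ≤ 1 * 1 := by
          refine mul_le_mul ?_ hA (norm_nonneg _) zero_le_one
          rw [norm_star]
          exact hB
      _ = 1 := one_mul 1
  -- the self-adjoint element
  have hris : star ri = ri := by
    have h5 := congrArg star hrS1
    rw [star_mul, star_one, hrs, ← hr] at h5
    exact (Units.eq_inv_of_mul_eq_one_right h5)
  have hT0 : 0 ≤ ri * C * ri := by
    have h8 := star_left_conjugate_nonneg hC ri
    rw [hris] at h8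
    exact h8
  have hsim : ri * C * ri = (↑(r⁻¹ * v) : K →L[ℂ] K) * (vi * C * ui) * (↑((r⁻¹ * v)⁻¹) : K →L[ℂ] K) := by
    have h3 : (↑((r⁻¹ * v)⁻¹) : K →L[ℂ] K) = vi * S := by
      rw [mul_inv_rev, inv_inv, Units.val_mul, hr]
    have h4 : (↑(r⁻¹ * v) : K →L[ℂ] K) = ri * b := by
      rw [Units.val_mul, hv]
    rw [h3, h4]
    have h5 : ui * vi * S = ri := by
      have h6 : S * b = b * S := hrb
      have h7 : a * b * ri = S := by rw [← hrr, mul_assoc, hrS1, mul_one]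
      have h8 : ri = (ui * (vi * (b * a))) * ri := by
        rw [← mul_assoc vi b a, hvb2, one_mul, hua2, one_mul]
      rw [h8, ← hab, mul_assoc, mul_assoc, mul_assoc, h7]
    calc ri * C * ri = ri * (b * vi) * C * (ui * vi * S) := by rw [hvb1, mul_one, h5]
      _ = ri * b * (vi * C * ui) * (vi * S) := by simp only [mul_assoc]
  have hT1 : ‖ri * C * ri‖ ≤ 1 := by
    have h3 : spectralRadius ℂ (ri * C * ri) = spectralRadius ℂ (vi * C * ui) := by
      unfold spectralRadius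
      rw [hsim, spectrum.units_conjugate]
    have h4 : spectralRadius ℂ (ri * C * ri) = ‖ri * C * ri‖₊ :=
      (IsSelfAdjoint.of_nonneg hT0).spectralRadius_eq_nnnorm
    rcases subsingleton_or_nontrivial (K →L[ℂ] K) with hs | hn
    · have h5 : ri * C * ri = 0 := Subsingleton.elim _ _
      rw [h5, norm_zero]
      exact zero_le_one
    · have h5 : spectralRadius ℂ (vi * C * ui) ≤ ‖vi * C * ui‖₊ := spectrum.spectralRadius_le_nnnorm _
      rw [← h3, h4] at h5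
      have h6 : ‖ri * C * ri‖ ≤ ‖vi * C * ui‖ := by exact_mod_cast h5
      exact h6.trans hk
  have hT2 : ri * C * ri ≤ 1 := (CStarAlgebra.norm_le_one_iff_of_nonneg _ hT0).1 hT1
  have h8 := star_left_conjugate_le_conjugate hT2 S
  rw [hrs, mul_one, hrr] at h8
  have h9 : S * (ri * C * ri) * S = C := by
    calc S * (ri * C * ri) * S = (S * ri) * C * (ri * S) := by simp only [mul_assoc]
      _ = C := by rw [hrS1, hrS2, one_mul, mul_one]
  rw [h9] at h8
  exact h8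

theorem geo_mean {K : Type*} [NormedAddCommGroup K] [InnerProductSpace ℂ K] [CompleteSpace K] {a b C : K →L[ℂ] K}
    (ha : 0 ≤ a) (hb : 0 ≤ b) (hab : a * b = b * a) (hC : 0 ≤ C) (h1 : C ≤ a * a) (h2 : C ≤ b * b) :
    C ≤ a * b := by
  have key : ∀ d : ℝ, 0 < d → C ≤ (a + (d : ℂ) • 1) * (b + (d : ℂ) • 1) := by
    intro d hd
    have hd1 : 0 ≤ ((d : ℂ) • (1 : K →L[ℂ] K)) := by
      have h3 : ((d : ℂ) • (1 : K →L[ℂ] K)) = d • (1 : K →L[ℂ] K) := by
        ext x; simp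
      rw [h3]
      exact smul_nonneg hd.le zero_le_one
    have hun : ∀ x : K →L[ℂ] K, 0 ≤ x → IsUnit (x + (d : ℂ) • (1 : K →L[ℂ] K)) := by
      intro x hx
      by_contra hnu
      have hr : ∀ (r : ℝ) (z : K →L[ℂ] K), r • z = (r : ℂ) • z := fun r z => by ext y; simp
      have h4 : (-d) ∈ spectrum ℝ x := by
        rw [spectrum.mem_iff]
        intro h5
        apply hnu
        have h6 : algebraMap ℝ (K →L[ℂ] K) (-d) - x = -(x + (d : ℂ) • (1 : K →L[ℂ] K)) := by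
          rw [Algebra.algebraMap_eq_smul_one, neg_smul, hr]; abel
        rw [h6] at h5
        exact (IsUnit.neg_iff _).1 h5
      have h5 := spectrum_nonneg_of_nonneg (𝕜 := ℝ) hx h4
      linarith
    have hle : ∀ x : K →L[ℂ] K, 0 ≤ x → x * x ≤ (x + (d : ℂ) • (1 : K →L[ℂ] K)) * (x + (d : ℂ) • (1 : K →L[ℂ] K)) := by
      intro x hx
      have h3 : (x + (d : ℂ) • (1 : K →L[ℂ] K)) * (x + (d : ℂ) • (1 : K →L[ℂ] K)) =
          x * x + ((2 * d : ℝ) • x + (d * d : ℝ) • (1 : K →L[ℂ] K)) := by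
        have hr : ∀ (r : ℝ) (z : K →L[ℂ] K), r • z = (r : ℂ) • z := fun r z => by ext y; simp
        have h4 : (2 * d : ℝ) • x = (((2 * d : ℝ)) : ℂ) • x := hr _ _
        have h5 : (d * d : ℝ) • (1 : K →L[ℂ] K) = (((d * d : ℝ)) : ℂ) • (1 : K →L[ℂ] K) := hr _ _
        rw [h4, h5, add_mul, mul_add, mul_add, smul_mul_smul_comm, smul_mul_assoc, mul_smul_comm, one_mul, mul_one, mul_one]
        push_cast
        module
      rw [h3]
      refine le_add_of_nonneg_right (add_nonneg (smul_nonneg (by positivity) hx) (smul_nonneg (by positivity) zero_le_one))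
    refine geo_mean_unit (add_nonneg ha hd1) (add_nonneg hb hd1) (hun a ha) (hun b hb) ?_ hC (h1.trans (hle a ha))
      (h2.trans (hle b hb))
    rw [add_mul, add_mul, mul_add, mul_add, mul_add, mul_add, hab]
    simp only [smul_mul_assoc, mul_smul_comm, one_mul, mul_one]
    abel
  have hlim : Filter.Tendsto (fun d : ℝ => (a + (d : ℂ) • (1 : K →L[ℂ] K)) * (b + (d : ℂ) • 1)) (nhdsWithin 0 (Set.Ioi 0))
      (nhds (a * b)) := by
    have hcont : Continuous (fun d : ℝ => (a + (d : ℂ) • (1 : K →L[ℂ] K)) * (b + (d : ℂ) • 1)) := by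
      have h3 : Continuous (fun d : ℝ => (d : ℂ)) := Complex.continuous_ofReal
      exact (continuous_const.add (h3.smul continuous_const)).mul (continuous_const.add (h3.smul continuous_const))
    have h4 := hcont.tendsto 0
    simp only [Complex.ofReal_zero, zero_smul, add_zero] at h4
    exact h4.mono_left nhdsWithin_le_nhds
  refine ge_of_tendsto hlim ?_
  filter_upwards [self_mem_nhdsWithin] with d hd
  exact key d hd

end OE
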