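import Mathlib
import Pool.Agent.Work.MP_06ef15_an.JJ

/-!
# Block J, (8.7): an abstract consequence of the geometric mean lemma   (size M)

`l i` is bounded for the norm of `hat x` (`h1`: `|l i x|² ≤ ‖a (hat x)‖²`), so `l i x = ⟪c_i, hat x⟫` with `c_i` in the closure of the range of `hat`
(extend by continuity to the closure of the range (`LinearMap.range hat`).topologicalClosure, Riesz there; or: the map `hat x ↦ l i x` is well defined
on the range, extend by Hahn-Banach `exists_extension_norm_eq`, Riesz `InnerProductSpace.toDual`, and replace `c_i` by `P c_i`: since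
`P (hat x) = hat x` nothing changes).  So `c_i = P c_i`.
`C = ∑ |c_i⟩⟨c_i|` (for example `∑ i, (innerSL ℂ (c i)).smulRight (c i)`) is positive and
`re ⟪η, C η⟫ = ∑ |⟪c_i, η⟫|² = ∑ |⟪c_i, P η⟫|² ≤ ‖a (P η)‖² = ‖P (a η)‖² ≤ ‖a η‖² = re ⟪η, a a η⟫` (the inequality holds for `P η` replaced by vectors in
the range of `hat`, hence in its closure, by continuity); the same for `b`.  `geo_mean` gives `C ≤ a b`; apply it to `hat x`.
-/

set_option autoImplicit false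

open scoped ComplexConjugate InnerProductSpace Classical

namespace OE

section aux

variable {K : Type*} [NormedAddCommGroup K] [InnerProductSpace ℂ K] [CompleteSpace K]

private theorem inner_of_star {T : K →L[ℂ] K} (h : star T = T) (x y : K) : ⟪T x, y⟫_ℂ = ⟪x, T y⟫_ℂ := by
  have h1 : ContinuousLinearMap.adjoint T = T := h
  calc ⟪T x, y⟫_ℂ = ⟪ContinuousLinearMap.adjoint T x, y⟫_ℂ := by rw [h1]
    _ = ⟪x, T y⟫_ℂ := ContinuousLinearMap.adjoint_inner_left T y x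

private theorem le_of_re {S T : K →L[ℂ] K} (hS : star S = S) (hT : star T = T)
    (h : ∀ y, (⟪y, S y⟫_ℂ).re ≤ (⟪y, T y⟫_ℂ).re) : S ≤ T := by
  rw [ContinuousLinearMap.le_def]
  refine ⟨?_, fun y => ?_⟩
  · intro x y
    change ⟪(T - S) x, y⟫_ℂ = ⟪x, (T - S) y⟫_ℂ
    have hTS : star (T - S) = T - S := by rw [star_sub, hS, hT]
    exact inner_of_star hTS x y
  · rw [ContinuousLinearMap.reApplyInnerSelf_apply]
    have h1 : (RCLike.re ⟪(T - S) y, y⟫_ℂ : ℝ) = (⟪y, (T - S) y⟫_ℂ).re := by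
      rw [← inner_conj_symm y ((T - S) y)]
      exact (Complex.conj_re _).symm
    rw [h1]
    have h2 : (T - S) y = T y - S y := rfl
    rw [h2, inner_sub_right, Complex.sub_re]
    linarith [h y]

private theorem re_le_of_le {S T : K →L[ℂ] K} (h : S ≤ T) (y : K) : (⟪y, S y⟫_ℂ).re ≤ (⟪y, T y⟫_ℂ).re := by
  rw [ContinuousLinearMap.le_def] at h
  have h1 := h.2 y
  rw [ContinuousLinearMap.reApplyInnerSelf_apply] at h1
  have h2 : (RCLike.re ⟪(T - S) y, y⟫_ℂ : ℝ) = (⟪y, (T - S) y⟫_ℂ).re := by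
    rw [← inner_conj_symm y ((T - S) y)]
    exact (Complex.conj_re _).symm
  rw [h2] at h1
  have h3 : (T - S) y = T y - S y := rfl
  rw [h3, inner_sub_right, Complex.sub_re] at h1
  linarith

private theorem re_sq {a : K →L[ℂ] K} (ha : star a = a) (y : K) : (⟪y, a (a y)⟫_ℂ).re = ‖a y‖ ^ 2 := by
  rw [← inner_of_star ha]
  exact (inner_self_eq_norm_sq (𝕜 := ℂ) (a y))

private theorem norm_proj_le {P : K →L[ℂ] K} (hP : star P = P) (hPP : P * P = P) (y : K) : ‖P y‖ ≤ ‖y‖ := by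
  have h1 : ⟪P y, P y⟫_ℂ = ⟪y, P y⟫_ℂ := by
    rw [inner_of_star hP]
    have h2 : P (P y) = P y := DFunLike.congr_fun hPP y
    rw [h2]
  have h3 : ‖P y‖ ^ 2 ≤ ‖y‖ * ‖P y‖ := by
    have h4 : (‖P y‖ ^ 2 : ℝ) = (⟪y, P y⟫_ℂ).re := by
      rw [← h1]
      exact (inner_self_eq_norm_sq (𝕜 := ℂ) (P y)).symm
    rw [h4]
    exact (Complex.re_le_norm _).trans (norm_inner_le_norm _ _)
  by_contra hlt
  push Not at hlt
  have h5 : 0 < ‖P y‖ := lt_of_le_of_lt (norm_nonneg _) hlt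
  nlinarith

private theorem exists_riesz {X : Type*} [AddCommGroup X] [Module ℂ X] (hat : X →ₗ[ℂ] K) (l : X →ₗ[ℂ] ℂ) {M : ℝ}
    (hM : ∀ x, ‖l x‖ ≤ M * ‖hat x‖) : ∃ c : K, ∀ x, l x = ⟪c, hat x⟫_ℂ := by
  have hker : LinearMap.ker hat ≤ LinearMap.ker l := by
    intro x hx
    rw [LinearMap.mem_ker] at hx ⊢
    have h1 := hM x
    rw [hx, norm_zero, mul_zero] at h1
    exact norm_le_zero_iff.1 h1
  let φ : LinearMap.range hat →ₗ[ℂ] ℂ :=
    ((LinearMap.ker hat).liftQ l hker).comp (hat.quotKerEquivRange.symm : LinearMap.range hat →ₗ[ℂ] (X ⧸ LinearMap.ker hat))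
  have hφ : ∀ x, φ ⟨hat x, LinearMap.mem_range_self hat x⟩ = l x := by
    intro x
    have h1 : hat.quotKerEquivRange.symm ⟨hat x, LinearMap.mem_range_self hat x⟩ = (LinearMap.ker hat).mkQ x := by
      rw [LinearEquiv.symm_apply_eq]
      rfl
    change ((LinearMap.ker hat).liftQ l hker) (hat.quotKerEquivRange.symm ⟨hat x, LinearMap.mem_range_self hat x⟩) = l x
    rw [h1]
    exact Submodule.liftQ_apply _ _ _
  have hb : ∀ y : LinearMap.range hat, ‖φ y‖ ≤ M * ‖y‖ := by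
    rintro ⟨y, x, rfl⟩
    have h1 := hφ x
    rw [show φ ⟨hat x, _⟩ = l x from h1]
    exact hM x
  let ψ : LinearMap.range hat →L[ℂ] ℂ := φ.mkContinuous M hb
  obtain ⟨g, hg, -⟩ := exists_extension_norm_eq (LinearMap.range hat) ψ
  refine ⟨(InnerProductSpace.toDual ℂ K).symm g, fun x => ?_⟩
  rw [InnerProductSpace.toDual_symm_apply]
  have h1 := hg ⟨hat x, LinearMap.mem_range_self hat x⟩
  have h2 : ψ ⟨hat x, LinearMap.mem_range_self hat x⟩ = l x := hφ x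
  rw [h2] at h1
  exact h1.symm

end aux

theorem abs_mean {K : Type*} [NormedAddCommGroup K] [InnerProductSpace ℂ K] [CompleteSpace K] {X : Type*}
    [AddCommGroup X] [Module ℂ X] {ι : Type*} [Fintype ι] (hat : X →ₗ[ℂ] K) (l : ι → X →ₗ[ℂ] ℂ) {a b P : K →L[ℂ] K}
    (ha : 0 ≤ a) (hb : 0 ≤ b) (hab : a * b = b * a) (hP : star P = P) (hPP : P * P = P) (hPa : P * a = a * P)
    (hPb : P * b = b * P) (hd : ∀ η : K, P η ∈ closure (Set.range hat))
    (hr : ∀ x, P (hat x) = hat x)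
    (h1 : ∀ x, ∑ i, ‖l i x‖ ^ 2 ≤ (⟪hat x, a (a (hat x))⟫_ℂ).re)
    (h2 : ∀ x, ∑ i, ‖l i x‖ ^ 2 ≤ (⟪hat x, b (b (hat x))⟫_ℂ).re) (x : X) :
    ∑ i, ‖l i x‖ ^ 2 ≤ (⟪hat x, a (b (hat x))⟫_ℂ).re := by
  have hsa : star a = a := (IsSelfAdjoint.of_nonneg ha).star_eq
  have hsb : star b = b := (IsSelfAdjoint.of_nonneg hb).star_eq
  -- Riesz vectors
  have hex : ∀ i, ∃ c : K, ∀ x, l i x = ⟪c, hat x⟫_ℂ := by
    intro i
    refine exists_riesz hat (l i) (M := ‖a‖) fun x => ?_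
    have h3 : ‖l i x‖ ^ 2 ≤ ‖a (hat x)‖ ^ 2 := by
      rw [← re_sq hsa]
      refine le_trans ?_ (h1 x)
      exact Finset.single_le_sum (f := fun i => ‖l i x‖ ^ 2) (fun j _ => by positivity) (Finset.mem_univ i)
    have h4 : ‖l i x‖ ≤ ‖a (hat x)‖ := by
      by_contra hlt
      push Not at hlt
      nlinarith [norm_nonneg (a (hat x)), norm_nonneg (l i x)]
    exact h4.trans (a.le_opNorm _)
  choose c' hc' using hex
  set c : ι → K := fun i => P (c' i) with hc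
  have hcl : ∀ i x, l i x = ⟪c i, hat x⟫_ℂ := by
    intro i x
    rw [hc' i x, hc]
    change _ = ⟪P (c' i), hat x⟫_ℂ
    rw [inner_of_star hP, hr]
  have hcP : ∀ i η, ⟪c i, η⟫_ℂ = ⟪c i, P η⟫_ℂ := by
    intro i η
    rw [hc]
    change ⟪P (c' i), η⟫_ℂ = ⟪P (c' i), P η⟫_ℂ
    rw [inner_of_star hP, inner_of_star hP]
    have h3 : P (P η) = P η := DFunLike.congr_fun hPP η
    rw [h3]
  -- the operator
  set C : K →L[ℂ] K := ∑ i, (innerSL ℂ (c i)).smulRight (c i) with hCdef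
  have hCa : ∀ y, C y = ∑ i, ⟪c i, y⟫_ℂ • c i := by
    intro y
    rw [hCdef, ContinuousLinearMap.sum_apply]
    rfl
  have hCre : ∀ y, (⟪y, C y⟫_ℂ).re = ∑ i, ‖⟪c i, y⟫_ℂ‖ ^ 2 := by
    intro y
    rw [hCa, inner_sum, Complex.re_sum]
    refine Finset.sum_congr rfl fun i _ => ?_
    rw [inner_smul_right, ← inner_conj_symm y (c i), Complex.mul_conj, Complex.ofReal_re, Complex.normSq_eq_norm_sq]
  have hCs : star C = C := by
    have h3 : ContinuousLinearMap.adjoint C = C := by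
      refine ContinuousLinearMap.ext fun y => ?_
      refine ext_inner_left ℂ fun z => ?_
      rw [ContinuousLinearMap.adjoint_inner_right, hCa, hCa, sum_inner, inner_sum]
      refine Finset.sum_congr rfl fun i _ => ?_
      rw [inner_smul_left, inner_smul_right, inner_conj_symm, mul_comm]
    exact h3
  have hC0 : 0 ≤ C := by
    refine le_of_re (star_zero _) hCs fun y => ?_
    rw [hCre]
    have h3 : (⟪y, (0 : K →L[ℂ] K) y⟫_ℂ).re = 0 := by
      rw [ContinuousLinearMap.zero_apply, inner_zero_right, Complex.zero_re]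
    rw [h3]
    exact Finset.sum_nonneg fun i _ => by positivity
  have hbound : ∀ (d : K →L[ℂ] K), star d = d → P * d = d * P →
      (∀ x, ∑ i, ‖l i x‖ ^ 2 ≤ (⟪hat x, d (d (hat x))⟫_ℂ).re) → C ≤ d * d := by
    intro d hd' hPd h3
    refine le_of_re hCs (by rw [star_mul, hd']) fun η => ?_
    have hclosed : IsClosed {y : K | ∑ i, ‖⟪c i, y⟫_ℂ‖ ^ 2 ≤ ‖d y‖ ^ 2} := by
      refine isClosed_le ?_ ?_
      · refine continuous_finset_sum _ fun i _ => ?_
        exact ((continuous_const.inner continuous_id).norm).pow 2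
      · exact (d.continuous.norm).pow 2
    have hsub : Set.range hat ⊆ {y : K | ∑ i, ‖⟪c i, y⟫_ℂ‖ ^ 2 ≤ ‖d y‖ ^ 2} := by
      rintro _ ⟨x, rfl⟩
      change ∑ i, ‖⟪c i, hat x⟫_ℂ‖ ^ 2 ≤ ‖d (hat x)‖ ^ 2
      rw [← re_sq hd']
      have h4 := h3 x
      simp only [hcl] at h4
      exact h4
    have h5 : P η ∈ {y : K | ∑ i, ‖⟪c i, y⟫_ℂ‖ ^ 2 ≤ ‖d y‖ ^ 2} := hclosed.closure_subset_iff.2 hsub (hd η)
    have h6 : ∑ i, ‖⟪c i, P η⟫_ℂ‖ ^ 2 ≤ ‖d (P η)‖ ^ 2 := h5
    rw [hCre]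
    have h7 : ∑ i, ‖⟪c i, η⟫_ℂ‖ ^ 2 = ∑ i, ‖⟪c i, P η⟫_ℂ‖ ^ 2 :=
      Finset.sum_congr rfl fun i _ => by rw [hcP i η]
    rw [h7]
    have h8 : d (P η) = P (d η) := (DFunLike.congr_fun hPd η).symm
    have h9 : ‖P (d η)‖ ≤ ‖d η‖ := norm_proj_le hP hPP _
    have h10 : (⟪η, (d * d) η⟫_ℂ).re = ‖d η‖ ^ 2 := re_sq hd' η
    rw [h10]
    refine h6.trans ?_
    rw [h8]
    exact pow_le_pow_left₀ (norm_nonneg _) h9 2
  have hfin := geo_mean ha hb hab hC0 (hbound a hsa hPa h1) (hbound b hsb hPb h2)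
  have h3 := re_le_of_le hfin (hat x)
  rw [hCre] at h3
  simp only [hcl]
  exact h3

end OE
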