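import Mathlib
import Pool.Agent.Work.MP_06ef15_an.CB

/-!
# Block J, section 7.1-7.2: creation of words and Wick words on `ℓ²(W)`   (size M)

`Lw u (e x) = e (u ++ x)` (`re_e`, the map is injective).  `YY_mul_Wk`: expand
`Wk w = ∑_{j ≤ |w|} Lw (take j w) (Lw (ws (drop j w)))†`.  `Lw [a] * (term j) = (term j+1 of Wk (a :: w))`.
For `j ≥ 1` and `w = b :: w'`: `(Lw [barL a])† Lw (b :: take (j-1) w') = [barL a = b] Lw (take (j-1) w')`, which gives
`[b = barL a] Wk w'`; for `j = 0`: `(Lw [barL a])† (Lw (ws w))† = (Lw (ws w ++ [barL a]))† = (Lw (ws (a :: w)))†` is the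
term `j = 0` of `Wk (a :: w)`.
`adj_Wk`: reindex `j ↦ |w| - j` (`ws_take`, `ws_drop`).  `trp_Wk`: all matrix entries are real (`trp_re`,
`trp_adj`, `trp_comp`).  `Wk_e_nil`: only `j = |w|` survives (`(Lw u)† (e []) = 0` for `u ≠ []`).
`Wk_mul_mem`: `Wk (a :: u) = YY a * Wk u - [..] Wk u.tail`, strong induction on the length of `u`.
-/

set_option autoImplicit false

open scoped ComplexConjugate InnerProductSpace Classical
open ContinuousLinearMap (adjoint)

namespace OE

private theorem jb_inj (u : W) : Function.Injective fun x : W => u ++ x :=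
  fun _ _ h => List.append_cancel_left h

private theorem jb_adj_one : adjoint (1 : H W →L[ℂ] H W) = 1 := by
  rw [← ContinuousLinearMap.star_eq_adjoint, star_one]

private theorem jb_adj_mul (S T : H W →L[ℂ] H W) : adjoint (S * T) = adjoint T * adjoint S := by
  rw [← ContinuousLinearMap.star_eq_adjoint, star_mul, ContinuousLinearMap.star_eq_adjoint,
    ContinuousLinearMap.star_eq_adjoint]

private theorem jb_Wk (w : W) :
    Wk w = ∑ j ∈ Finset.range (w.length + 1), Lw (w.take j) * adjoint (Lw (ws (w.drop j))) := rfl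

theorem Lw_e (u x : W) : Lw u (e x) = e (u ++ x) := re_e (jb_inj u) x

theorem norm_Lw (u : W) (x : H W) : ‖Lw u x‖ = ‖x‖ := norm_re (jb_inj u) x

theorem adj_Lw_e_append (u x : W) : adjoint (Lw u) (e (u ++ x)) = e x := by
  rw [← Lw_e]
  exact adj_re_comp (jb_inj u) (e x)

theorem adj_Lw_e_of_not (u y : W) (h : ∀ x, y ≠ u ++ x) : adjoint (Lw u) (e y) = 0 := by
  refine ext_pt fun i => ?_
  have h1 : (adjoint (Lw u) (e y) : W → ℂ) i = (e y : W → ℂ) (u ++ i) := adj_re_apply (jb_inj u) (e y) i
  rw [h1, e_ne (h i).symm]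
  rfl

theorem Lw_nil : Lw [] = 1 := by
  refine ext_e fun x => ?_
  rw [Lw_e]
  rfl

theorem Lw_append (u v : W) : Lw (u ++ v) = Lw u * Lw v := by
  refine ext_e fun x => ?_
  show Lw (u ++ v) (e x) = Lw u (Lw v (e x))
  rw [Lw_e, Lw_e, Lw_e, List.append_assoc]

theorem adj_Lw_mul_Lw (u : W) : adjoint (Lw u) * Lw u = 1 := by
  refine ext_e fun x => ?_
  show adjoint (Lw u) (Lw u (e x)) = e x
  rw [Lw_e, adj_Lw_e_append]

theorem adj_Lw_cons (a b : Lam) (u : W) : adjoint (Lw [a]) * Lw (b :: u) = if a = b then Lw u else 0 := by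
  refine ext_e fun x => ?_
  show adjoint (Lw [a]) (Lw (b :: u) (e x)) = _
  rw [Lw_e]
  split_ifs with h
  · subst h
    rw [Lw_e]
    exact adj_Lw_e_append [a] (u ++ x)
  · refine adj_Lw_e_of_not _ _ fun x' hx => h ?_
    simp only [List.cons_append, List.nil_append, List.cons.injEq] at hx
    exact hx.1.symm

theorem Wk_nil : Wk [] = 1 := by
  rw [Wk, List.length_nil, zero_add, Finset.sum_range_one, List.take_nil, List.drop_nil, ws_nil, Lw_nil,
    jb_adj_one]
  rfl

theorem YY_mul_Wk (a : Lam) (w : W) :
    YY a * Wk w = Wk (a :: w) + (if w.head? = some (barL a) then Wk w.tail else 0) := by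
  have h1 : Wk (a :: w) = Lw [a] * Wk w + adjoint (Lw [barL a]) * adjoint (Lw (ws w)) := by
    rw [jb_Wk (a :: w), List.length_cons, Finset.sum_range_succ', jb_Wk w, Finset.mul_sum]
    congr 1
    · refine Finset.sum_congr rfl fun j _ => ?_
      rw [List.take_succ_cons, List.drop_succ_cons, ← mul_assoc, ← Lw_append, List.singleton_append]
    · rw [List.take_zero, List.drop_zero, Lw_nil, one_mul, ws_cons, Lw_append, jb_adj_mul]
  rw [h1, YY, add_mul, add_assoc]
  congr 1
  cases w with
  | nil =>
    rw [Wk_nil, mul_one, ws_nil, Lw_nil, jb_adj_one, mul_one]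
    simp
  | cons b w =>
    rw [jb_Wk (b :: w), List.length_cons, Finset.sum_range_succ', mul_add, add_comm]
    congr 1
    · rw [List.take_zero, List.drop_zero, Lw_nil, one_mul]
    · rw [Finset.mul_sum, List.head?_cons, List.tail_cons]
      have h2 : ∀ j, adjoint (Lw [barL a]) * (Lw (List.take (j + 1) (b :: w)) *
          adjoint (Lw (ws (List.drop (j + 1) (b :: w))))) =
          if barL a = b then Lw (w.take j) * adjoint (Lw (ws (w.drop j))) else 0 := by
        intro j
        rw [List.take_succ_cons, List.drop_succ_cons, ← mul_assoc, adj_Lw_cons]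
        split_ifs
        · rfl
        · rw [zero_mul]
      simp only [h2]
      by_cases h : barL a = b
      · rw [if_pos (by rw [h])]
        simp only [h, if_true]
        rw [jb_Wk]
      · rw [if_neg (fun h' => h (Option.some.inj h').symm)]
        simp only [h, if_false, Finset.sum_const_zero]

theorem YY_eq_Wk (a : Lam) : YY a = Wk [a] := by
  have h := YY_mul_Wk a []
  rw [Wk_nil, mul_one] at h
  simpa using h

theorem Wk_e_nil (w : W) : Wk w (e ([] : W)) = e w := by
  rw [Wk, ContinuousLinearMap.sum_apply, Finset.sum_range_succ, Finset.sum_eq_zero, zero_add]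
  · show Lw (w.take w.length) (adjoint (Lw (ws (w.drop w.length))) (e ([] : W))) = e w
    rw [List.take_length, List.drop_length, ws_nil]
    have h1 := adj_Lw_e_append [] []
    rw [List.nil_append] at h1
    rw [h1, Lw_e, List.append_nil]
  · intro j hj
    rw [Finset.mem_range] at hj
    show Lw (w.take j) (adjoint (Lw (ws (w.drop j))) (e ([] : W))) = 0
    rw [adj_Lw_e_of_not, map_zero]
    intro x hx
    have h2 := congrArg List.length hx
    rw [List.length_nil, List.length_append, length_ws, List.length_drop] at h2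
    omega

theorem adj_Wk (w : W) : adjoint (Wk w) = Wk (ws w) := by
  rw [jb_Wk, jb_Wk, map_sum, length_ws,
    ← Finset.sum_range_reflect (fun j => Lw ((ws w).take j) * adjoint (Lw (ws ((ws w).drop j))))]
  refine Finset.sum_congr rfl fun j hj => ?_
  rw [Finset.mem_range] at hj
  have h1 : w.length + 1 - 1 - j = w.length - j := by omega
  rw [h1, jb_adj_mul, ContinuousLinearMap.adjoint_adjoint, ← ws_drop w j (by omega), ← ws_take w j, ws_ws]

theorem trp_Wk (w : W) : trp (Wk w) = Wk (ws w) := by
  have h1 : ∀ (s : Finset ℕ) (f : ℕ → (H W →L[ℂ] H W)), trp (∑ j ∈ s, f j) = ∑ j ∈ s, trp (f j) := by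
    intro s f
    induction s using Finset.induction_on with
    | empty => rw [Finset.sum_empty, Finset.sum_empty, trp_zero]
    | insert a s ha ih => rw [Finset.sum_insert ha, Finset.sum_insert ha, trp_add, ih]
  have h2 : ∀ u : W, trp (Lw u) = adjoint (Lw u) := fun u => trp_re (jb_inj u)
  rw [← adj_Wk, jb_Wk, h1, map_sum]
  refine Finset.sum_congr rfl fun j _ => ?_
  rw [trp_mul, trp_adj, h2, h2, jb_adj_mul]

theorem adj_YY (a : Lam) : adjoint (YY a) = YY (barL a) := by
  rw [YY_eq_Wk, YY_eq_Wk, adj_Wk, ws_cons, ws_nil, List.nil_append]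

theorem trp_YY (a : Lam) : trp (YY a) = YY (barL a) := by
  rw [YY_eq_Wk, YY_eq_Wk, trp_Wk, ws_cons, ws_nil, List.nil_append]

theorem norm_YY_le (a : Lam) : ‖YY a‖ ≤ 2 := by
  have h1 : ∀ u : W, ‖Lw u‖ ≤ 1 := fun u => norm_re_le (jb_inj u)
  have h2 : ‖adjoint (Lw [barL a])‖ ≤ 1 := by
    rw [LinearIsometryEquiv.norm_map]
    exact h1 _
  rw [YY]
  refine (norm_add_le _ _).trans ?_
  linarith [h1 [a]]

theorem YY_mul_mem (a : Lam) {x : H W →L[ℂ] H W} (hx : x ∈ Submodule.span ℂ (Set.range Wk)) :
    YY a * x ∈ Submodule.span ℂ (Set.range Wk) := by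
  refine Submodule.span_induction (p := fun x _ => YY a * x ∈ Submodule.span ℂ (Set.range Wk))
    ?_ ?_ ?_ ?_ hx
  · rintro x ⟨w, rfl⟩
    rw [YY_mul_Wk]
    refine Submodule.add_mem _ (Submodule.subset_span ⟨_, rfl⟩) ?_
    split_ifs
    · exact Submodule.subset_span ⟨_, rfl⟩
    · exact Submodule.zero_mem _
  · rw [mul_zero]
    exact Submodule.zero_mem _
  · intro x y _ _ hx hy
    rw [mul_add]
    exact Submodule.add_mem _ hx hy
  · intro c x _ hx
    rw [mul_smul_comm]
    exact Submodule.smul_mem _ c hx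

theorem prod_YY_mem (y : List Lam) : (y.map YY).prod ∈ Submodule.span ℂ (Set.range Wk) := by
  induction y with
  | nil =>
    rw [List.map_nil, List.prod_nil, ← Wk_nil]
    exact Submodule.subset_span ⟨_, rfl⟩
  | cons a y ih =>
    rw [List.map_cons, List.prod_cons]
    exact YY_mul_mem a ih

theorem Wk_mul_mem (u w : W) : Wk u * Wk w ∈ Submodule.span ℂ (Set.range Wk) := by
  have key : ∀ (n : ℕ) (u : W), u.length = n → Wk u * Wk w ∈ Submodule.span ℂ (Set.range Wk) := by
    intro n
    induction n using Nat.strong_induction_on with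
    | _ n ih =>
      intro u hu
      cases u with
      | nil =>
        rw [Wk_nil, one_mul]
        exact Submodule.subset_span ⟨_, rfl⟩
      | cons a u =>
        rw [List.length_cons] at hu
        have h1 : Wk (a :: u) = YY a * Wk u - (if u.head? = some (barL a) then Wk u.tail else 0) := by
          rw [YY_mul_Wk, add_sub_cancel_right]
        rw [h1, sub_mul, mul_assoc]
        refine Submodule.sub_mem _ (YY_mul_mem a (ih u.length (by omega) u rfl)) ?_
        split_ifs
        · exact ih u.tail.length (by rw [List.length_tail]; omega) u.tail rfl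
        · rw [zero_mul]
          exact Submodule.zero_mem _
  exact key _ u rfl

/-- every Wick word is a polynomial in the `YY a`. -/
theorem Wk_mem_adjoin (w : W) : Wk w ∈ Algebra.adjoin ℂ (Set.range YY) := by
  have key : ∀ (n : ℕ) (u : W), u.length = n → Wk u ∈ Algebra.adjoin ℂ (Set.range YY) := by
    intro n
    induction n using Nat.strong_induction_on with
    | _ n ih =>
      intro u hu
      cases u with
      | nil =>
        rw [Wk_nil]
        exact Subalgebra.one_mem _
      | cons a u =>
        rw [List.length_cons] at hu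
        have h1 : Wk (a :: u) = YY a * Wk u - (if u.head? = some (barL a) then Wk u.tail else 0) := by
          rw [YY_mul_Wk, add_sub_cancel_right]
        rw [h1]
        refine Subalgebra.sub_mem _ (Subalgebra.mul_mem _ (Algebra.subset_adjoin ⟨a, rfl⟩)
          (ih u.length (by omega) u rfl)) ?_
        split_ifs
        · exact ih u.tail.length (by rw [List.length_tail]; omega) u.tail rfl
        · exact Subalgebra.zero_mem _
  exact key _ w rfl

end OE
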