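import Mathlib
import Pool.Agent.Work.MP_06ef15_an.JB

/-!
# Block J, section 7.4 on `ℓ²(W)`: left and right multiplication commute   (size M)

`flW (e w) = e (ws w)`, `rW x = flW * trp x * flW`.  `rW (YY b)` is the right action:
`rW (YY b) (e w) = e (w ++ [b]) + [w = w' ++ [barL b]] e w'` (`trp (YY b) = YY (barL b)`, `ws_append`).
`YY_comm_rW`: check on `e []`, `e [x]`, `e (x :: w ++ [y])`.
`Wk_comm_rW`: the set of `x` commuting with `rW (YY b)` for all `b` is an algebra containing all `YY a`, hence all `Wk w`
(`Wk_mem_adjoin`); for fixed `w` the set of `y` with `Wk w * rW y = rW y * Wk w` is closed under sums, scalars,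
products (`rW (x * y) = rW y * rW x`) and contains the `YY b`, hence contains `Wk u`.
`rW_Wk_e_nil`: `flW (trp (Wk w) (flW (e []))) = flW (Wk (ws w) (e [])) = flW (e (ws w)) = e w`.
-/

set_option autoImplicit false

open scoped ComplexConjugate InnerProductSpace Classical
open ContinuousLinearMap (adjoint)

namespace OE

noncomputable def flW : H W →L[ℂ] H W := re ws

noncomputable def rW (x : H W →L[ℂ] H W) : H W →L[ℂ] H W := flW * trp x * flW

theorem flW_e (w : W) : flW (e w) = e (ws w) := re_e ws_injective w

theorem flW_mul_flW : flW * flW = 1 := by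
  refine ext_e fun x => ?_
  show flW (flW (e x)) = e x
  rw [flW_e, flW_e, ws_ws]

theorem rW_mul (x y : H W →L[ℂ] H W) : rW (x * y) = rW y * rW x := by
  rw [rW, rW, rW, trp_mul]
  calc flW * (trp y * trp x) * flW = flW * trp y * 1 * trp x * flW := by
        rw [mul_one]; simp only [mul_assoc]
    _ = flW * trp y * flW * (flW * trp x * flW) := by
        rw [← flW_mul_flW]; simp only [mul_assoc]

theorem rW_add (x y : H W →L[ℂ] H W) : rW (x + y) = rW x + rW y := by rw [rW, rW, rW, trp_add, mul_add, add_mul]

theorem rW_smul (c : ℂ) (x : H W →L[ℂ] H W) : rW (c • x) = c • rW x := by rw [rW, rW, trp_smul, mul_smul_comm, smul_mul_assoc]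

theorem rW_one : rW 1 = 1 := by rw [rW, trp_one, mul_one, flW_mul_flW]

private theorem jc_YY_e_cons (a c : Lam) (w : W) :
    YY a (e (c :: w)) = e (a :: c :: w) + (if c = barL a then e w else 0) := by
  rw [YY, add_apply, Lw_e]
  congr 1
  by_cases h : c = barL a
  · rw [if_pos h, h]
    exact adj_Lw_e_append [barL a] w
  · rw [if_neg h]
    refine adj_Lw_e_of_not _ _ fun x hx => h ?_
    simp only [List.cons_append, List.nil_append, List.cons.injEq] at hx
    exact hx.1

theorem rW_YY_e_nil (b : Lam) : rW (YY b) (e ([] : W)) = e [b] := by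
  show flW (trp (YY b) (flW (e ([] : W)))) = e [b]
  rw [flW_e, ws_nil, trp_YY, YY_eq_Wk, Wk_e_nil, flW_e, ws_cons, ws_nil, List.nil_append, barL_barL]

theorem rW_YY_e_concat (b a : Lam) (w : W) :
    rW (YY b) (e (w ++ [a])) = e (w ++ [a] ++ [b]) + (if a = barL b then e w else 0) := by
  show flW (trp (YY b) (flW (e (w ++ [a])))) = _
  have h1 : ws (w ++ [a]) = barL a :: ws w := by
    rw [ws_append, ws_cons, ws_nil, List.nil_append, List.singleton_append]
  rw [flW_e, h1, trp_YY, jc_YY_e_cons, map_add, flW_e, ws_cons, ws_cons, ws_ws, barL_barL, barL_barL]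
  congr 1
  by_cases h : a = barL b
  · rw [if_pos h, if_pos (by rw [h, barL_barL]), flW_e, ws_ws]
  · rw [if_neg h, if_neg, map_zero]
    intro h'
    exact h ((barL_eq_iff _ _).1 h')

theorem YY_comm_rW (a b : Lam) : YY a * rW (YY b) = rW (YY b) * YY a := by
  refine ext_e fun x => ?_
  show YY a (rW (YY b) (e x)) = rW (YY b) (YY a (e x))
  rcases List.eq_nil_or_concat x with rfl | ⟨w, y, rfl⟩
  · have h1 : YY a (e ([] : W)) = e [a] := by rw [YY_eq_Wk, Wk_e_nil]
    have h2 := rW_YY_e_concat b a []
    simp only [List.nil_append] at h2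
    rw [rW_YY_e_nil, h1, h2, jc_YY_e_cons]
    congr 1
    by_cases h : a = barL b
    · rw [if_pos h, if_pos (by rw [h, barL_barL])]
    · rw [if_neg h, if_neg (fun h' => h (by rw [h', barL_barL]))]
  · rw [List.concat_eq_append, rW_YY_e_concat, map_add]
    cases w with
    | nil =>
      simp only [List.nil_append]
      rw [List.singleton_append, jc_YY_e_cons, jc_YY_e_cons, map_add]
      have h3 := rW_YY_e_concat b y [a]
      simp only [List.singleton_append] at h3
      rw [h3]
      have h4 : YY a (if y = barL b then e ([] : W) else 0) = if y = barL b then e [a] else 0 := by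
        split_ifs
        · rw [YY_eq_Wk, Wk_e_nil]
        · rw [map_zero]
      have h5 : rW (YY b) (if y = barL a then e ([] : W) else 0) = if y = barL a then e [b] else 0 := by
        split_ifs
        · rw [rW_YY_e_nil]
        · rw [map_zero]
      rw [h4, h5]
      simp only [List.cons_append, List.nil_append]
      abel
    | cons c w =>
      rw [List.cons_append, List.cons_append, jc_YY_e_cons, jc_YY_e_cons, map_add]
      have h3 := rW_YY_e_concat b y (a :: c :: w)
      simp only [List.cons_append] at h3
      rw [h3]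
      have h4 : YY a (if y = barL b then e (c :: w) else 0) =
          if y = barL b then e (a :: c :: w) + (if c = barL a then e w else 0) else 0 := by
        split_ifs with h6 h7
        · rw [jc_YY_e_cons, if_pos h7]
        · rw [jc_YY_e_cons, if_neg h7]
        · rw [map_zero]
      have h5 : rW (YY b) (if c = barL a then e (w ++ [y]) else 0) =
          if c = barL a then e (w ++ [y] ++ [b]) + (if y = barL b then e w else 0) else 0 := by
        split_ifs with h6 h7
        · rw [rW_YY_e_concat, if_pos h7]
        · rw [rW_YY_e_concat, if_neg h7]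
        · rw [map_zero]
      rw [h4, h5]
      by_cases h6 : c = barL a <;> by_cases h7 : y = barL b <;>
        simp only [h6, h7, if_true, if_false, add_zero, zero_add] <;> abel

theorem Wk_comm_rW (w u : W) : Wk w * rW (Wk u) = rW (Wk u) * Wk w := by
  have h1 : ∀ (b : Lam) (w : W), Wk w * rW (YY b) = rW (YY b) * Wk w := by
    intro b w
    refine Algebra.adjoin_induction (p := fun x _ => x * rW (YY b) = rW (YY b) * x) ?_ ?_ ?_ ?_
      (Wk_mem_adjoin w)
    · rintro x ⟨a, rfl⟩
      exact YY_comm_rW a b
    · intro r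
      rw [Algebra.algebraMap_eq_smul_one, smul_mul_assoc, mul_smul_comm, one_mul, mul_one]
    · intro x y _ _ hx hy
      rw [add_mul, mul_add, hx, hy]
    · intro x y _ _ hx hy
      rw [mul_assoc, hy, ← mul_assoc, hx, mul_assoc]
  refine Algebra.adjoin_induction (p := fun y _ => Wk w * rW y = rW y * Wk w) ?_ ?_ ?_ ?_
    (Wk_mem_adjoin u)
  · rintro x ⟨a, rfl⟩
    exact h1 a w
  · intro r
    rw [Algebra.algebraMap_eq_smul_one, rW_smul, rW_one, smul_mul_assoc, mul_smul_comm, one_mul, mul_one]
  · intro x y _ _ hx hy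
    rw [rW_add, add_mul, mul_add, hx, hy]
  · intro x y _ _ hx hy
    rw [rW_mul, ← mul_assoc, hy, mul_assoc, hx, mul_assoc]

theorem rW_Wk_e_nil (w : W) : rW (Wk w) (e ([] : W)) = e w := by
  show flW (trp (Wk w) (flW (e ([] : W)))) = e w
  rw [flW_e, ws_nil, trp_Wk, Wk_e_nil, flW_e, ws_ws]

end OE
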