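import Mathlib
import Pool.Agent.Work.MP_06ef15_an.JB

/-!
# Block J, section 7.3: Haagerup inequality for Wick words   (size M)

`sum_adj_Lw_le`: for words of the same length the vectors `e (u ++ x)` are different for different `u`;
`‖(Lw u)† x‖² = ∑_y |x (u ++ y)|²` (`adj_re_apply`), so the sum over `u ∈ S` is a sum over distinct indices, at most
`‖x‖²` (or: the operators `Lw u (Lw u)†` are pairwise orthogonal projections; or use `bessel`).

`haagerup`: `T = ∑_{w ∈ F} α_w Wk w = ∑_{j ≤ n} T_j`, `T_j = ∑_{w ∈ F} α_w Lw (take j w) (Lw (ws (drop j w)))†`.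
`|⟪y, T_j x⟫| ≤ ∑_w |α_w| ‖(Lw (take j w))† y‖ ‖(Lw (ws (drop j w)))† x‖ ≤ ‖α‖ (∑_w ‖(Lw (take j w))† y‖² ‖(Lw (ws (drop j w)))† x‖²)^{1/2}`
and `w ↦ (take j w, ws (drop j w))` is injective into words of length `j` times words of length `n - j`, so the last sum
is at most `(∑_{u} ‖(Lw u)† y‖²) (∑_{u'} ‖(Lw u')† x‖²) ≤ ‖y‖² ‖x‖²`.  Hence `‖T_j‖ ≤ ‖α‖_2`, and there are `n + 1` values
of `j`.
-/

set_option autoImplicit false

open scoped ComplexConjugate InnerProductSpace Classical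
open ContinuousLinearMap (adjoint)

namespace OE

private theorem jd_orth : ∀ (u v : W), u.length = v.length → u ≠ v →
    adjoint (Lw u) * Lw v = 0 := by
  intro u v hl hne
  refine ext_e fun x => ?_
  show adjoint (Lw u) (Lw v (e x)) = 0
  rw [Lw_e]
  refine adj_Lw_e_of_not _ _ fun y hy => hne ?_
  exact ((List.append_inj hy hl.symm).1).symm

theorem sum_adj_Lw_le (r : ℕ) (S : Finset W) (hS : ∀ u ∈ S, u.length = r) (x : H W) :
    ∑ u ∈ S, ‖adjoint (Lw u) x‖ ^ 2 ≤ ‖x‖ ^ 2 := by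
  set z : H W := ∑ u ∈ S, Lw u (adjoint (Lw u) x) with hz
  set s : ℝ := ∑ u ∈ S, ‖adjoint (Lw u) x‖ ^ 2 with hs
  have h1 : ⟪z, z⟫_ℂ = (s : ℂ) := by
    rw [hz, sum_inner, hs, Complex.ofReal_sum]
    refine Finset.sum_congr rfl fun u hu => ?_
    rw [inner_sum, Finset.sum_eq_single u]
    · rw [← ContinuousLinearMap.adjoint_inner_right]
      have h2 : adjoint (Lw u) (Lw u (adjoint (Lw u) x)) = adjoint (Lw u) x :=
        DFunLike.congr_fun (adj_Lw_mul_Lw u) _
      rw [h2, inner_self_eq_norm_sq_to_K]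
      norm_cast
    · intro v hv hvu
      rw [← ContinuousLinearMap.adjoint_inner_right]
      have h2 : adjoint (Lw u) (Lw v (adjoint (Lw v) x)) = 0 :=
        DFunLike.congr_fun (jd_orth u v (by rw [hS u hu, hS v hv]) hvu.symm) _
      rw [h2, inner_zero_right]
    · exact fun h => absurd hu h
  have h3 : ⟪x, z⟫_ℂ = (s : ℂ) := by
    rw [hz, inner_sum, hs, Complex.ofReal_sum]
    refine Finset.sum_congr rfl fun u _ => ?_
    rw [← ContinuousLinearMap.adjoint_inner_left, inner_self_eq_norm_sq_to_K]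
    norm_cast
  have h4 : ‖z‖ ^ 2 = s := by
    have h5 := congrArg Complex.re h1
    rw [inner_self_eq_norm_sq_to_K, Complex.ofReal_re] at h5
    rw [← h5]
    norm_cast
  have h5 : s ≤ ‖x‖ * ‖z‖ := by
    have h6 := norm_inner_le_norm (𝕜 := ℂ) x z
    rw [h3, Complex.norm_real] at h6
    exact (le_abs_self s).trans h6
  rw [← h4] at h5 ⊢
  have h7 : ‖z‖ ≤ ‖x‖ := by
    by_contra h8
    push Not at h8
    nlinarith [norm_nonneg x, norm_nonneg z]
  exact pow_le_pow_left₀ (norm_nonneg z) h7 2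

theorem haagerup_piece (n j : ℕ) (hj : j ≤ n) (F : Finset W) (hF : ∀ w ∈ F, w.length = n) (α : W → ℂ) :
    ‖∑ w ∈ F, α w • (Lw (w.take j) * adjoint (Lw (ws (w.drop j))))‖ ≤
      Real.sqrt (∑ w ∈ F, ‖α w‖ ^ 2) := by
  set T : H W →L[ℂ] H W := ∑ w ∈ F, α w • (Lw (w.take j) * adjoint (Lw (ws (w.drop j)))) with hT
  set C : ℝ := Real.sqrt (∑ w ∈ F, ‖α w‖ ^ 2) with hC
  have hC0 : 0 ≤ C := Real.sqrt_nonneg _
  refine ContinuousLinearMap.opNorm_le_bound _ hC0 fun x => ?_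
  have key : ∀ y : H W, ‖⟪y, T x⟫_ℂ‖ ≤ C * (‖y‖ * ‖x‖) := by
    intro y
    set A : W → ℝ := fun u => ‖adjoint (Lw u) y‖ ^ 2 with hA
    set B : W → ℝ := fun u => ‖adjoint (Lw u) x‖ ^ 2 with hB
    have h1 : ‖⟪y, T x⟫_ℂ‖ ≤ ∑ w ∈ F, ‖α w‖ *
        (‖adjoint (Lw (w.take j)) y‖ * ‖adjoint (Lw (ws (w.drop j))) x‖) := by
      have h2 : T x = ∑ w ∈ F, α w • Lw (w.take j) (adjoint (Lw (ws (w.drop j))) x) := by
        rw [hT, sum_apply]
        rfl
      rw [h2, inner_sum]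
      refine (norm_sum_le _ _).trans (Finset.sum_le_sum fun w _ => ?_)
      rw [inner_smul_right, norm_mul, ← ContinuousLinearMap.adjoint_inner_left]
      exact mul_le_mul_of_nonneg_left (norm_inner_le_norm _ _) (norm_nonneg _)
    have h3 : ∑ w ∈ F, (‖adjoint (Lw (w.take j)) y‖ * ‖adjoint (Lw (ws (w.drop j))) x‖) ^ 2 ≤
        (‖y‖ * ‖x‖) ^ 2 := by
      have h4 : ∑ w ∈ F, (‖adjoint (Lw (w.take j)) y‖ * ‖adjoint (Lw (ws (w.drop j))) x‖) ^ 2 =
          ∑ p ∈ F.image (fun w => (w.take j, ws (w.drop j))), A p.1 * B p.2 := by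
        rw [Finset.sum_image]
        · refine Finset.sum_congr rfl fun w _ => ?_
          rw [mul_pow]
        · intro w _ w' _ hww
          simp only [Prod.mk.injEq] at hww
          rw [← List.take_append_drop j w, ← List.take_append_drop j w', hww.1,
            ws_injective hww.2]
      have h5 : ∑ p ∈ F.image (fun w => (w.take j, ws (w.drop j))), A p.1 * B p.2 ≤
          ∑ p ∈ (F.image fun w => w.take j) ×ˢ (F.image fun w => ws (w.drop j)), A p.1 * B p.2 := by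
        refine Finset.sum_le_sum_of_subset_of_nonneg ?_ fun p _ _ => by positivity
        intro p hp
        obtain ⟨w, hw, rfl⟩ := Finset.mem_image.1 hp
        exact Finset.mem_product.2 ⟨Finset.mem_image_of_mem _ hw, Finset.mem_image_of_mem _ hw⟩
      have h6 : ∑ p ∈ (F.image fun w => w.take j) ×ˢ (F.image fun w => ws (w.drop j)), A p.1 * B p.2 =
          (∑ u ∈ F.image fun w => w.take j, A u) * ∑ v ∈ F.image fun w => ws (w.drop j), B v := by
        rw [Finset.sum_product, Finset.sum_mul_sum]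
      have h7 : ∑ u ∈ F.image (fun w => w.take j), A u ≤ ‖y‖ ^ 2 := by
        refine sum_adj_Lw_le j _ (fun u hu => ?_) y
        obtain ⟨w, hw, rfl⟩ := Finset.mem_image.1 hu
        rw [List.length_take, hF w hw]
        omega
      have h8 : ∑ v ∈ F.image (fun w => ws (w.drop j)), B v ≤ ‖x‖ ^ 2 := by
        refine sum_adj_Lw_le (n - j) _ (fun u hu => ?_) x
        obtain ⟨w, hw, rfl⟩ := Finset.mem_image.1 hu
        rw [length_ws, List.length_drop, hF w hw]
      rw [h4]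
      refine h5.trans ?_
      rw [h6, mul_pow]
      exact mul_le_mul h7 h8 (Finset.sum_nonneg fun _ _ => by positivity) (by positivity)
    refine h1.trans ((Real.sum_mul_le_sqrt_mul_sqrt F _ _).trans ?_)
    refine mul_le_mul_of_nonneg_left ?_ hC0
    rw [← Real.sqrt_sq (show 0 ≤ ‖y‖ * ‖x‖ by positivity)]
    exact Real.sqrt_le_sqrt h3
  have h9 := key (T x)
  rw [inner_self_eq_norm_sq_to_K] at h9
  have h10 : ‖(((‖T x‖ : ℝ) : ℂ)) ^ 2‖ = ‖T x‖ * ‖T x‖ := by
    rw [norm_pow, Complex.norm_real, norm_norm, sq]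
  have h11 : ‖T x‖ * ‖T x‖ ≤ C * (‖T x‖ * ‖x‖) := by
    rw [← h10]
    exact h9
  by_cases h0 : ‖T x‖ = 0
  · rw [h0]
    positivity
  · have h12 : 0 < ‖T x‖ := lt_of_le_of_ne (norm_nonneg _) (Ne.symm h0)
    have h13 : ‖T x‖ * ‖T x‖ ≤ ‖T x‖ * (C * ‖x‖) := by linarith
    exact le_of_mul_le_mul_left h13 h12

theorem haagerup (n : ℕ) (F : Finset W) (hF : ∀ w ∈ F, w.length = n) (α : W → ℂ) :
    ‖∑ w ∈ F, α w • Wk w‖ ≤ ((n : ℝ) + 1) * Real.sqrt (∑ w ∈ F, ‖α w‖ ^ 2) := by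
  have h1 : ∑ w ∈ F, α w • Wk w = ∑ j ∈ Finset.range (n + 1),
      ∑ w ∈ F, α w • (Lw (w.take j) * adjoint (Lw (ws (w.drop j)))) := by
    rw [Finset.sum_comm]
    refine Finset.sum_congr rfl fun w hw => ?_
    rw [Wk, hF w hw, Finset.smul_sum]
    rfl
  rw [h1]
  refine (norm_sum_le _ _).trans ?_
  have h2 : ∀ j ∈ Finset.range (n + 1),
      ‖∑ w ∈ F, α w • (Lw (w.take j) * adjoint (Lw (ws (w.drop j))))‖ ≤
        Real.sqrt (∑ w ∈ F, ‖α w‖ ^ 2) := fun j hj =>
    haagerup_piece n j (by rw [Finset.mem_range] at hj; omega) F hF α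
  refine (Finset.sum_le_sum h2).trans ?_
  rw [Finset.sum_const, Finset.card_range, nsmul_eq_mul]
  push_cast
  exact le_rfl

end OE
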