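import Mathlib
import Pool.Agent.Work.MP_06ef15_an.CD

/-!
# Basic facts on `lamb`, `rho` and the flip `Fl` on `HH = ℓ²(Idx × Q)`

`lamb x = amp Q x`.  `rho x = Fl * amp Q (trp x) * Fl`.

Proofs.  `Fl_e`: `re_e` (the map `x ↦ ((ws x.1.1, x.2), x.1.2)` is an involution by `ws_ws`, so injective).
`Fl_mul_Fl`: on basis vectors.  `star_Fl`: `adj_re_equiv` for the involution as an equivalence, or `adj_of_coef`.
`rho_mul`: `trp_mul`, `amp_mul` and `Fl * Fl = 1`.  `rho_star`: `trp_star`, `amp_star`, `star_Fl`.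
`norm_rho`: `‖Fl * S * Fl‖ ≤ ‖S‖` for every `S`, and `S = Fl * (Fl * S * Fl) * Fl`; then `norm_amp`, `norm_trp`.
-/

set_option autoImplicit false

open scoped ComplexConjugate InnerProductSpace Classical
open ContinuousLinearMap (adjoint)

namespace OE

/-- the involution of the flip. -/
private def o1f (x : Idx × Q) : Idx × Q := ((ws x.1.1, x.2), x.1.2)

private theorem o1f_o1f (x : Idx × Q) : o1f (o1f x) = x := by
  obtain ⟨⟨w, p⟩, q⟩ := x
  unfold o1f
  simp only [ws_ws]

private theorem o1f_inj : Function.Injective o1f := by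
  intro x y h
  rw [← o1f_o1f x, h, o1f_o1f]

private def o1eq : (Idx × Q) ≃ (Idx × Q) := ⟨o1f, o1f, o1f_o1f, o1f_o1f⟩

private theorem Fl_eq : Fl = re o1f := rfl

theorem Fl_e (w : W) (p q : Q) : Fl (e ((w, p), q)) = e ((ws w, q), p) := by
  rw [Fl_eq, re_e o1f_inj]
  rfl
private theorem Fl_e' (x : Idx × Q) : Fl (e x) = e (o1f x) := by
  rw [Fl_eq, re_e o1f_inj]
theorem Fl_mul_Fl : Fl * Fl = 1 := by
  refine ext_e fun x => ?_
  show Fl (Fl (e x)) = e x
  rw [Fl_e', Fl_e', o1f_o1f]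
theorem star_Fl : star Fl = Fl := by
  rw [ContinuousLinearMap.star_eq_adjoint]
  exact adj_re_equiv o1eq
theorem norm_Fl_le : ‖Fl‖ ≤ 1 := norm_re_le o1f_inj
theorem norm_Fl_apply (x : HH) : ‖Fl x‖ = ‖x‖ := norm_re o1f_inj x
theorem inner_Fl (x y : HH) : ⟪Fl x, Fl y⟫_ℂ = ⟪x, y⟫_ℂ := by
  rw [← ContinuousLinearMap.adjoint_inner_right, Fl_eq, adj_re_comp o1f_inj]

theorem lamb_mul (a b : BH) : lamb (a * b) = lamb a * lamb b := amp_mul a b
theorem lamb_one : lamb 1 = 1 := amp_one
theorem lamb_zero : lamb 0 = 0 := amp_zero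
theorem lamb_add (a b : BH) : lamb (a + b) = lamb a + lamb b := amp_add a b
theorem lamb_sub (a b : BH) : lamb (a - b) = lamb a - lamb b := amp_sub a b
theorem lamb_smul (c : ℂ) (a : BH) : lamb (c • a) = c • lamb a := amp_smul c a
theorem lamb_sum {ι : Type*} (s : Finset ι) (a : ι → BH) : lamb (∑ i ∈ s, a i) = ∑ i ∈ s, lamb (a i) := amp_sum s a
theorem lamb_star (a : BH) : lamb (star a) = star (lamb a) := amp_star a
theorem norm_lamb (a : BH) : ‖lamb a‖ = ‖a‖ := norm_amp a
theorem lamb_nonneg {a : BH} (h : 0 ≤ a) : 0 ≤ lamb a := amp_nonneg h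
theorem lamb_e (a : BH) (x : Idx) (q : Q) : lamb a (e (x, q)) = emb q (a (e x)) := amp_e' a x q
theorem slice_lamb (a : BH) (q : Q) (x : HH) : slice q (lamb a x) = a (slice q x) := slice_amp a q x

theorem rho_mul (a b : BH) : rho (a * b) = rho b * rho a := by
  unfold rho
  rw [trp_mul, amp_mul]
  calc Fl * (amp Q (trp b) * amp Q (trp a)) * Fl = Fl * amp Q (trp b) * 1 * amp Q (trp a) * Fl := by
        rw [mul_one, mul_assoc Fl]
        simp only [mul_assoc]
    _ = Fl * amp Q (trp b) * Fl * (Fl * amp Q (trp a) * Fl) := by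
        rw [← Fl_mul_Fl]
        simp only [mul_assoc]
theorem rho_one : rho 1 = 1 := by
  unfold rho
  rw [trp_one, amp_one, mul_one, Fl_mul_Fl]
theorem rho_zero : rho 0 = 0 := by
  unfold rho
  rw [trp_zero, amp_zero, mul_zero, zero_mul]
theorem rho_add (a b : BH) : rho (a + b) = rho a + rho b := by
  unfold rho
  rw [trp_add, amp_add, mul_add, add_mul]
theorem rho_sub (a b : BH) : rho (a - b) = rho a - rho b := by
  unfold rho
  rw [trp_sub, amp_sub, mul_sub, sub_mul]
theorem rho_smul (c : ℂ) (a : BH) : rho (c • a) = c • rho a := by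
  unfold rho
  rw [trp_smul, amp_smul, mul_smul_comm, smul_mul_assoc]
theorem rho_sum {ι : Type*} (s : Finset ι) (a : ι → BH) : rho (∑ i ∈ s, a i) = ∑ i ∈ s, rho (a i) := by
  induction s using Finset.induction_on with
  | empty => rw [Finset.sum_empty, Finset.sum_empty, rho_zero]
  | insert i s hi ih => rw [Finset.sum_insert hi, Finset.sum_insert hi, rho_add, ih]
theorem rho_star (a : BH) : rho (star a) = star (rho a) := by
  unfold rho
  rw [trp_star, amp_star, star_mul, star_mul, star_Fl, mul_assoc]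
private theorem o1_norm (S : HH →L[ℂ] HH) : ‖Fl * S * Fl‖ ≤ ‖S‖ := by
  refine (norm_mul_le _ _).trans ?_
  refine (mul_le_mul (norm_mul_le _ _) norm_Fl_le (norm_nonneg _) (by positivity)).trans ?_
  rw [mul_one]
  exact (mul_le_mul_of_nonneg_right norm_Fl_le (norm_nonneg _)).trans (one_mul _).le
theorem norm_rho (a : BH) : ‖rho a‖ = ‖a‖ := by
  have h1 : ‖amp Q (trp a)‖ = ‖a‖ := by rw [norm_amp, norm_trp]
  refine le_antisymm ((o1_norm _).trans h1.le) ?_
  rw [← h1]
  have h2 : amp Q (trp a) = Fl * rho a * Fl := by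
    unfold rho
    calc amp Q (trp a) = 1 * amp Q (trp a) * 1 := by rw [one_mul, mul_one]
      _ = Fl * (Fl * amp Q (trp a) * Fl) * Fl := by
          rw [← Fl_mul_Fl]
          simp only [mul_assoc]
  rw [h2]
  exact o1_norm _

/-- matrix coefficients of `rho`. -/
theorem rho_coef (a : BH) (w w' : W) (p q p' q' : Q) :
    ((rho a (e ((w, p), q)) : HH) : Idx × Q → ℂ) ((w', p'), q') =
      if p' = p then (a (e (ws w', q')) : Idx → ℂ) (ws w, q) else 0 := by
  have h1 : rho a (e ((w, p), q)) = Fl (emb p (trp a (e (ws w, q)))) := by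
    show Fl (amp Q (trp a) (Fl (e ((w, p), q)))) = _
    rw [Fl_e, amp_e']
  have h2 : ((w', p'), q') = o1f ((ws w', q'), p') := by
    unfold o1f
    simp only [ws_ws]
  rw [h1, h2, Fl_eq, re_apply o1f_inj, emb_apply]
  by_cases h : p' = p
  · rw [if_pos h, if_pos h, trp_coef]
  · rw [if_neg h, if_neg h]

end OE
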