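import Mathlib
import Pool.Agent.Work.MP_06ef15_an.O1

/-!
# Block J: more facts on `lamb`, `rho` (the basic ones are in O1)   (size S-M)

`rho_nonneg`: write `x = star y * y` (for instance `y = CFC.sqrt x`), `rho x = rho y * star (rho y)`.
`lamb_Pi`: `amp_pr`.  `rho_Pi`: `trp (pr s) = pr s`, on basis vectors (`Fl_e`, `lamb_e`, or `rho_coef`).
`lamb_comm_rho_Pi`: `rho (Pi s)` is the projection onto the basis vectors `((w,p),q)` with `q ∈ s`, and `lamb a` maps
`e ((w,p),q)` to `emb q (..)` (`commute_pr` or on basis vectors).  `rho_comm_lamb_Pi`: conjugate with `Fl`, or take matrix coefficients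
(`rho_coef`: first `Q`-coordinate unchanged).
-/

set_option autoImplicit false

open scoped ComplexConjugate InnerProductSpace Classical
open ContinuousLinearMap (adjoint)

namespace OE

theorem continuous_lamb : Continuous lamb := by
  refine Isometry.continuous (Isometry.of_dist_eq fun a b => ?_)
  rw [dist_eq_norm, dist_eq_norm, ← lamb_sub, norm_lamb]

theorem continuous_rho : Continuous rho := by
  refine Isometry.continuous (Isometry.of_dist_eq fun a b => ?_)
  rw [dist_eq_norm, dist_eq_norm, ← rho_sub, norm_rho]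

theorem rho_nonneg {x : BH} (h : 0 ≤ x) : 0 ≤ rho x := by
  rw [StarOrderedRing.nonneg_iff] at h
  induction h using AddSubmonoid.closure_induction with
  | mem x hx =>
    obtain ⟨y, rfl⟩ := hx
    show 0 ≤ rho (star y * y)
    rw [rho_mul, rho_star]
    exact mul_star_self_nonneg _
  | zero => rw [rho_zero]
  | add x y _ _ hx hy =>
    rw [rho_add]
    exact add_nonneg hx hy

theorem lamb_Pi (s : Finset Q) : lamb (Pi s) = pr {x : Idx × Q | x.1.2 ∈ s} := amp_pr _

private theorem trp_pr {I : Type} (S : Set I) : trp (pr S) = pr S := by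
  refine trp_of_coef _ _ fun i j => ?_
  rw [pr_apply, pr_apply, e_apply, e_apply]
  by_cases h : i = j
  · subst h
    rfl
  · rw [if_neg h, if_neg (Ne.symm h)]
    split_ifs <;> rfl

private theorem rho_Pi' (s : Finset Q) : rho (Pi s) = Fl * lamb (Pi s) * Fl := by
  show Fl * amp Q (trp (Pi s)) * Fl = Fl * amp Q (Pi s) * Fl
  have h1 : trp (Pi s) = Pi s := trp_pr _
  rw [h1]

theorem rho_Pi (s : Finset Q) : rho (Pi s) = pr {x : Idx × Q | x.2 ∈ s} := by
  rw [rho_Pi']
  refine ext_e fun x => ?_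
  obtain ⟨⟨w, p⟩, q⟩ := x
  show Fl (lamb (Pi s) (Fl (e ((w, p), q)))) = _
  rw [Fl_e, lamb_Pi, pr_e, pr_e]
  by_cases h : q ∈ s
  · rw [if_pos (show ((ws w, q), p) ∈ {x : Idx × Q | x.1.2 ∈ s} from h),
      if_pos (show ((w, p), q) ∈ {x : Idx × Q | x.2 ∈ s} from h), Fl_e, ws_ws]
  · rw [if_neg (show ((ws w, q), p) ∉ {x : Idx × Q | x.1.2 ∈ s} from h),
      if_neg (show ((w, p), q) ∉ {x : Idx × Q | x.2 ∈ s} from h), map_zero]

private theorem pr_emb (s : Finset Q) (q : Q) (y : H Idx) :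
    pr {x : Idx × Q | x.2 ∈ s} (emb q y) = if q ∈ s then (emb q y : HH) else 0 := by
  refine ext_pt fun z => ?_
  rw [pr_apply, emb_apply]
  by_cases hq : q ∈ s
  · rw [if_pos hq, emb_apply]
    by_cases hz : z.2 = q
    · rw [if_pos (show z ∈ {x : Idx × Q | x.2 ∈ s} from by show z.2 ∈ s; rw [hz]; exact hq)]
    · rw [if_neg hz]
      split_ifs <;> rfl
  · rw [if_neg hq]
    by_cases hz : z.2 = q
    · rw [if_neg (show z ∉ {x : Idx × Q | x.2 ∈ s} from by show ¬ z.2 ∈ s; rw [hz]; exact hq)]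
      rfl
    · rw [if_neg hz]
      split_ifs <;> rfl

theorem lamb_comm_rho_Pi (a : BH) (s : Finset Q) : lamb a * rho (Pi s) = rho (Pi s) * lamb a := by
  rw [rho_Pi]
  refine ext_e fun x => ?_
  obtain ⟨x, q⟩ := x
  show lamb a (pr {x : Idx × Q | x.2 ∈ s} (e (x, q))) = pr {x : Idx × Q | x.2 ∈ s} (lamb a (e (x, q)))
  rw [lamb_e, pr_emb, pr_e]
  by_cases h : q ∈ s
  · rw [if_pos (show (x, q) ∈ {x : Idx × Q | x.2 ∈ s} from h), if_pos h, lamb_e]
  · rw [if_neg (show (x, q) ∉ {x : Idx × Q | x.2 ∈ s} from h), if_neg h, map_zero]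

theorem rho_comm_lamb_Pi (a : BH) (s : Finset Q) : rho a * lamb (Pi s) = lamb (Pi s) * rho a := by
  have h1 : lamb (Pi s) = Fl * rho (Pi s) * Fl := by
    rw [rho_Pi']
    calc lamb (Pi s) = (Fl * Fl) * lamb (Pi s) * (Fl * Fl) := by rw [Fl_mul_Fl, one_mul, mul_one]
      _ = Fl * (Fl * lamb (Pi s) * Fl) * Fl := by noncomm_ring
  have h2 : rho a = Fl * lamb (trp a) * Fl := rfl
  rw [h1, h2]
  calc Fl * lamb (trp a) * Fl * (Fl * rho (Pi s) * Fl)
      = Fl * lamb (trp a) * (Fl * Fl) * rho (Pi s) * Fl := by noncomm_ring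
    _ = Fl * (lamb (trp a) * rho (Pi s)) * Fl := by rw [Fl_mul_Fl]; noncomm_ring
    _ = Fl * (rho (Pi s) * lamb (trp a)) * Fl := by rw [lamb_comm_rho_Pi]
    _ = Fl * rho (Pi s) * (Fl * Fl) * lamb (trp a) * Fl := by rw [Fl_mul_Fl]; noncomm_ring
    _ = _ := by noncomm_ring

end OE
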