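import Mathlib
import Pool.Agent.Work.MP_06ef15_an.JD
import Pool.Agent.Work.MP_06ef15_an.JE

/-!
# Block J: the elements `WE w p q = amp(Wk w) E_pq`   (size M)

On basis vectors: `Eu p q (e (w,q')) = [q' = q] e (w,p)`, `WE w p q (e (x,q')) = [q' = q] emb p (Wk w (e x))`.
`Wh w` commutes with `Eu p q` (check on `e (x,q')`; `Wh w (emb p y) = emb p (Wk w y)`).
Hence `WE w p q * WE u r t = [q = r] amp(Wk w * Wk u) E_pt`, in the span by `Wk_mul_mem` (apply the linear map
`x ↦ amp Q x * Eu p t`).  `star (WE w p q) = Eu q p * amp(Wk (ws w)) = WE (ws w) q p`.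
`Pi_eq_sum`: `Pi s = ∑_{p ∈ s} WE [] p p` on basis vectors.
`haagerup_WE`: `∑ α_w WE w p q = amp Q (∑ α_w Wk w) * Eu p q`.
-/

set_option autoImplicit false

open scoped ComplexConjugate InnerProductSpace Classical
open ContinuousLinearMap (adjoint)

namespace OE

private theorem jf_pinj (p q : Q) :
    PInj (fun x : Idx => if x.2 = q then some ((x.1, p) : Idx) else none) := by
  intro i i' j h h'
  by_cases h1 : i.2 = q
  · by_cases h2 : i'.2 = q
    · simp only [h1, if_true, Option.some.injEq] at h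
      simp only [h2, if_true, Option.some.injEq] at h'
      have h3 : ((i.1, p) : Idx) = (i'.1, p) := h.trans h'.symm
      exact Prod.ext (Prod.mk.inj h3).1 (h1.trans h2.symm)
    · simp only [h2, if_false] at h'
      exact absurd h' (by simp)
  · simp only [h1, if_false] at h
    exact absurd h (by simp)

theorem Eu_e (p q : Q) (w : W) (q' : Q) :
    Eu p q (e ((w, q') : Idx)) = if q' = q then e ((w, p) : Idx) else 0 := by
  have h := wp_e (f := fun x : Idx => if x.2 = q then some (x.1, p) else none) (c := fun _ => 1)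
    zero_le_one (jf_pinj p q) (fun _ => by simp) ((w, q') : Idx)
  rw [Eu]
  refine h.trans ?_
  rw [one_smul]
  by_cases hq : q' = q
  · rw [if_pos hq, if_pos hq]
    rfl
  · rw [if_neg hq, if_neg hq]
    rfl

theorem Eu_emb (p q q' : Q) (x : H W) : Eu p q (emb q' x) = if q' = q then emb p x else 0 := by
  have h : (Eu p q).comp (emb q') = if q' = q then emb p else 0 := by
    refine ext_e fun w => ?_
    rw [ContinuousLinearMap.comp_apply, emb_e, Eu_e]
    split_ifs
    · rw [emb_e]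
    · rfl
  have h2 := DFunLike.congr_fun h x
  rw [ContinuousLinearMap.comp_apply] at h2
  rw [h2]
  split_ifs
  · rfl
  · rfl

theorem norm_Eu_le (p q : Q) : ‖Eu p q‖ ≤ 1 := norm_wp_le zero_le_one (jf_pinj p q) (fun _ => by simp)

theorem star_Eu (p q : Q) : star (Eu p q) = Eu q p := by
  refine ext_e ?_
  rintro ⟨w, q'⟩
  rw [ContinuousLinearMap.star_eq_adjoint]
  by_cases h : q' = p
  · subst h
    rw [Eu_e, if_pos rfl]
    have h2 := adj_wp_e_some (f := fun x : Idx => if x.2 = q then some (x.1, q') else none)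
      (c := fun _ => (1 : ℂ)) zero_le_one (jf_pinj q' q) (fun _ => by simp) (i := ((w, q) : Idx))
      (j := ((w, q') : Idx)) (if_pos rfl)
    rw [map_one, one_smul] at h2
    exact h2
  · rw [Eu_e, if_neg h]
    refine adj_wp_e_none (f := fun x : Idx => if x.2 = q then some (x.1, p) else none)
      (c := fun _ => (1 : ℂ)) zero_le_one (jf_pinj p q) (fun _ => by simp) (j := ((w, q') : Idx)) ?_
    intro i hi
    by_cases h3 : i.2 = q
    · simp only [h3, if_true, Option.some.injEq, Prod.mk.injEq] at hi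
      exact h hi.2.symm
    · simp only [h3, if_false] at hi
      exact absurd hi (by simp)

theorem Eu_mul (p q r t : Q) : Eu p q * Eu r t = if q = r then Eu p t else 0 := by
  refine ext_e ?_
  rintro ⟨w, q'⟩
  show Eu p q (Eu r t (e ((w, q') : Idx))) = _
  rw [Eu_e]
  by_cases h1 : q' = t
  · rw [if_pos h1, Eu_e]
    by_cases h2 : r = q
    · rw [if_pos h2, if_pos h2.symm, Eu_e, if_pos h1]
    · rw [if_neg h2, if_neg (fun h => h2 h.symm)]
      rfl
  · rw [if_neg h1, map_zero]
    by_cases h2 : q = r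
    · rw [if_pos h2, Eu_e, if_neg h1]
    · rw [if_neg h2]
      rfl

theorem Wh_mul_Eu (x : H W →L[ℂ] H W) (p q : Q) : amp Q x * Eu p q = Eu p q * amp Q x := by
  refine ext_e ?_
  rintro ⟨w, q'⟩
  show amp Q x (Eu p q (e ((w, q') : Idx))) = Eu p q (amp Q x (e ((w, q') : Idx)))
  rw [Eu_e, amp_e', Eu_emb]
  split_ifs
  · rw [amp_e']
  · rw [map_zero]

theorem WE_e (w : W) (p q : Q) (x : W) (q' : Q) :
    WE w p q (e ((x, q') : Idx)) = if q' = q then emb p (Wk w (e x)) else 0 := by
  show amp Q (Wk w) (Eu p q (e ((x, q') : Idx))) = _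
  rw [Eu_e]
  split_ifs
  · rw [amp_e']
  · rw [map_zero]

theorem WE_mul (w u : W) (p q r t : Q) :
    WE w p q * WE u r t = if q = r then amp Q (Wk w * Wk u) * Eu p t else 0 := by
  have h1 : WE w p q * WE u r t = amp Q (Wk w) * (Eu p q * amp Q (Wk u)) * Eu r t := by
    rw [WE, WE, Wh, Wh]; simp only [mul_assoc]
  rw [h1, ← Wh_mul_Eu, ← mul_assoc, ← amp_mul, mul_assoc, Eu_mul]
  split_ifs
  · rfl
  · rw [mul_zero]

theorem star_WE (w : W) (p q : Q) : star (WE w p q) = WE (ws w) q p := by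
  rw [WE, WE, star_mul, star_Eu, Wh, Wh, ← amp_star, ContinuousLinearMap.star_eq_adjoint, adj_Wk,
    Wh_mul_Eu]

theorem amp_mul_Eu_mem {x : H W →L[ℂ] H W} (hx : x ∈ Submodule.span ℂ (Set.range Wk)) {s : Finset Q} {p q : Q}
    (hp : p ∈ s) (hq : q ∈ s) : amp Q x * Eu p q ∈ Submodule.span ℂ (ccGens s) := by
  refine Submodule.span_induction (p := fun x _ => amp Q x * Eu p q ∈ Submodule.span ℂ (ccGens s))
    ?_ ?_ ?_ ?_ hx
  · rintro x ⟨w, rfl⟩
    exact Submodule.subset_span ⟨w, p, hp, q, hq, rfl⟩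
  · rw [amp_zero, zero_mul]
    exact Submodule.zero_mem _
  · intro x y _ _ hx hy
    rw [amp_add, add_mul]
    exact Submodule.add_mem _ hx hy
  · intro c x _ hx
    rw [amp_smul, smul_mul_assoc]
    exact Submodule.smul_mem _ c hx

theorem span_mul_mem {s : Finset Q} {x y : BH} (hx : x ∈ Submodule.span ℂ (ccGens s))
    (hy : y ∈ Submodule.span ℂ (ccGens s)) : x * y ∈ Submodule.span ℂ (ccGens s) := by
  refine Submodule.span_induction (p := fun x _ => x * y ∈ Submodule.span ℂ (ccGens s))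
    ?_ ?_ ?_ ?_ hx
  · rintro x ⟨w, p, hp, q, _, rfl⟩
    refine Submodule.span_induction (p := fun y _ => WE w p q * y ∈ Submodule.span ℂ (ccGens s))
      ?_ ?_ ?_ ?_ hy
    · rintro y ⟨u, r, _, t, ht, rfl⟩
      rw [WE_mul]
      split_ifs
      · exact amp_mul_Eu_mem (Wk_mul_mem w u) hp ht
      · exact Submodule.zero_mem _
    · rw [mul_zero]
      exact Submodule.zero_mem _
    · intro y y' _ _ hy hy'
      rw [mul_add]
      exact Submodule.add_mem _ hy hy'
    · intro c y _ hy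
      rw [mul_smul_comm]
      exact Submodule.smul_mem _ c hy
  · rw [zero_mul]
    exact Submodule.zero_mem _
  · intro x x' _ _ hx hx'
    rw [add_mul]
    exact Submodule.add_mem _ hx hx'
  · intro c x _ hx
    rw [smul_mul_assoc]
    exact Submodule.smul_mem _ c hx

theorem span_star_mem {s : Finset Q} {x : BH} (hx : x ∈ Submodule.span ℂ (ccGens s)) :
    star x ∈ Submodule.span ℂ (ccGens s) := by
  refine Submodule.span_induction (p := fun x _ => star x ∈ Submodule.span ℂ (ccGens s))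
    ?_ ?_ ?_ ?_ hx
  · rintro x ⟨w, p, hp, q, hq, rfl⟩
    rw [star_WE]
    exact Submodule.subset_span ⟨_, q, hq, p, hp, rfl⟩
  · rw [star_zero]
    exact Submodule.zero_mem _
  · intro x x' _ _ hx hx'
    rw [star_add]
    exact Submodule.add_mem _ hx hx'
  · intro c x _ hx
    rw [star_smul]
    exact Submodule.smul_mem _ _ hx

theorem Pi_eq_sum (s : Finset Q) : Pi s = ∑ p ∈ s, WE [] p p := by
  refine ext_e ?_
  rintro ⟨w, q'⟩
  rw [sum_apply, Pi, pr_e]
  have h : ∀ p ∈ s, WE [] p p (e ((w, q') : Idx)) = if q' = p then e ((w, q') : Idx) else 0 := by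
    intro p _
    rw [WE_e, Wk_nil]
    by_cases h : q' = p
    · rw [if_pos h, if_pos h, h]
      exact emb_e p w
    · rw [if_neg h, if_neg h]
  rw [Finset.sum_congr rfl h, Finset.sum_ite_eq]
  by_cases hq : q' ∈ s
  · rw [if_pos hq]
    exact if_pos hq
  · rw [if_neg hq]
    exact if_neg hq

theorem star_Pi (s : Finset Q) : star (Pi s) = Pi s := star_pr _

theorem Pi_mul_Pi (s : Finset Q) : Pi s * Pi s = Pi s := pr_idem _

theorem Pi_mem_span (s : Finset Q) : Pi s ∈ Submodule.span ℂ (ccGens s) := by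
  rw [Pi_eq_sum]
  exact Submodule.sum_mem _ fun p hp => Submodule.subset_span ⟨[], p, hp, p, hp, rfl⟩

theorem Pi_mul_WE {s : Finset Q} (w : W) {p q : Q} (hp : p ∈ s) : Pi s * WE w p q = WE w p q := by
  have h1 : (Pi s).comp (emb p) = emb p := by
    refine ext_e fun x => ?_
    rw [ContinuousLinearMap.comp_apply, emb_e, Pi, pr_e_mem]
    exact hp
  refine ext_e ?_
  rintro ⟨x, q'⟩
  show Pi s (WE w p q (e ((x, q') : Idx))) = WE w p q (e ((x, q') : Idx))
  rw [WE_e]
  split_ifs
  · exact DFunLike.congr_fun h1 _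
  · rw [map_zero]

theorem WE_mul_Pi {s : Finset Q} (w : W) {p q : Q} (hq : q ∈ s) : WE w p q * Pi s = WE w p q := by
  have h1 := congrArg star (Pi_mul_WE (s := s) (ws w) (p := q) (q := p) hq)
  rw [star_mul, star_WE, ws_ws, star_Pi] at h1
  exact h1

theorem haagerup_WE (n : ℕ) (F : Finset W) (hF : ∀ w ∈ F, w.length = n) (α : W → ℂ) (p q : Q) :
    ‖∑ w ∈ F, α w • WE w p q‖ ≤ ((n : ℝ) + 1) * Real.sqrt (∑ w ∈ F, ‖α w‖ ^ 2) := by
  have h1 : ∑ w ∈ F, α w • WE w p q = amp Q (∑ w ∈ F, α w • Wk w) * Eu p q := by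
    rw [amp_sum, Finset.sum_mul]
    refine Finset.sum_congr rfl fun w _ => ?_
    rw [amp_smul, smul_mul_assoc]
    rfl
  rw [h1]
  have h2 := haagerup n F hF α
  have h3 : ‖amp Q (∑ w ∈ F, α w • Wk w)‖ ≤ ‖∑ w ∈ F, α w • Wk w‖ := norm_amp_le _
  have h4 := norm_Eu_le p q
  refine (norm_mul_le _ _).trans ?_
  have h5 := norm_nonneg (amp Q (∑ w ∈ F, α w • Wk w))
  nlinarith [norm_nonneg (Eu p q)]

end OE
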