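import Mathlib
import Pool.Agent.Work.MP_06ef15_an.JF

/-!
# Block J: closures `A0 s` and `CC s`, square roots   (size M)

`A0 s` is the norm closure of the span of the `WE w p q` (`p, q ∈ s`), closed under products and `star`
(`span_mul_mem`, `span_star_mem`, continuity).  `CC s` is the closed unital *-algebra generated by them.
`mem_adjoin`: the set of all `c • 1 + y`, `y ∈ span`, is closed under the operations (`StarAlgebra.adjoin_induction`).
`exists_sqrt`: `kk = CFC.sqrt h` (or `cfc`/`cfcHom` of the square root): continuous functional calculus of a self-adjoint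
element of a closed unital *-subalgebra stays in the subalgebra (for example `cfc_mem_elemental`-type lemmas, or
approximate `√` uniformly on `[0, ‖h‖]` by real polynomials, `polynomialFunctions` dense, `cfc_polynomial`).
-/

set_option autoImplicit false

open scoped ComplexConjugate InnerProductSpace Classical
open ContinuousLinearMap (adjoint)

namespace OE

variable {s : Finset Q}

private theorem jg_sqrt {B : Type*} [CStarAlgebra B] [PartialOrder B] [StarOrderedRing B]
    (S : StarSubalgebra ℂ B) (hS : IsClosed (S : Set B)) {a : B} (ha : a ∈ S) (h : 0 ≤ a) :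
    ∃ b ∈ S, 0 ≤ b ∧ b * b = a := by
  refine ⟨cfc Real.sqrt a, cfc_mem (𝕜 := ℝ) (𝕜' := ℂ) (s := S) Real.sqrt ha,
    cfc_nonneg (fun x _ => Real.sqrt_nonneg x), ?_⟩
  rw [← cfc_mul Real.sqrt Real.sqrt a]
  have h1 : cfc (fun x => Real.sqrt x * Real.sqrt x) a = cfc (id : ℝ → ℝ) a :=
    cfc_congr fun x hx => Real.mul_self_sqrt (spectrum_nonneg_of_nonneg h hx)
  rw [h1, cfc_id ℝ a]

private theorem jg_zero {x P : BH} (hP : star P = P) (hx : star x = x) (h : (1 - P) * (x * x) = 0) :
    x * (1 - P) = 0 := by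
  have h1 : star (x * (1 - P)) * (x * (1 - P)) = 0 := by
    rw [star_mul, hx, star_sub, star_one, hP]
    calc (1 - P) * x * (x * (1 - P)) = (1 - P) * (x * x) * (1 - P) := by simp only [mul_assoc]
      _ = 0 := by rw [h, zero_mul]
  exact (CStarRing.star_mul_self_eq_zero_iff _).1 h1

theorem isClosed_A0 (s : Finset Q) : IsClosed ((A0 s : Submodule ℂ BH) : Set BH) := by
  rw [A0]
  exact Submodule.isClosed_topologicalClosure _

theorem isClosed_CC (s : Finset Q) : IsClosed ((CC s : StarSubalgebra ℂ BH) : Set BH) := by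
  rw [CC]
  exact StarSubalgebra.isClosed_topologicalClosure _

theorem span_le_A0 {x : BH} (hx : x ∈ Submodule.span ℂ (ccGens s)) : x ∈ A0 s := by
  rw [A0]
  exact Submodule.le_topologicalClosure _ hx

theorem WE_mem_A0 (w : W) {p q : Q} (hp : p ∈ s) (hq : q ∈ s) : WE w p q ∈ A0 s := 
  span_le_A0 (Submodule.subset_span ⟨w, p, hp, q, hq, rfl⟩)

/-- closure induction for `A0`. -/
theorem A0_induction {P : BH → Prop} (h1 : ∀ x ∈ Submodule.span ℂ (ccGens s), P x) (h2 : IsClosed {x | P x})
    {x : BH} (hx : x ∈ A0 s) : P x := by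
  have h3 : ((A0 s : Submodule ℂ BH) : Set BH) ⊆ {x | P x} := by
    rw [A0, Submodule.topologicalClosure_coe]
    exact closure_minimal (fun y hy => h1 y hy) h2
  exact h3 hx

theorem A0_mul_mem {x y : BH} (hx : x ∈ A0 s) (hy : y ∈ A0 s) : x * y ∈ A0 s := by
  have h1 : ∀ y ∈ Submodule.span ℂ (ccGens s), x * y ∈ A0 s := by
    intro y hy
    refine A0_induction (P := fun x => x * y ∈ A0 s) ?_ ?_ hx
    · intro x hx
      exact span_le_A0 (span_mul_mem hx hy)
    · exact (isClosed_A0 s).preimage (continuous_mul_const y)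
  refine A0_induction (P := fun y => x * y ∈ A0 s) h1 ?_ hy
  exact (isClosed_A0 s).preimage (continuous_const_mul x)

theorem A0_star_mem {x : BH} (hx : x ∈ A0 s) : star x ∈ A0 s := by
  refine A0_induction (P := fun x => star x ∈ A0 s) ?_ ?_ hx
  · intro x hx
    exact span_le_A0 (span_star_mem hx)
  · exact (isClosed_A0 s).preimage continuous_star

theorem Pi_mem_A0 (s : Finset Q) : Pi s ∈ A0 s := span_le_A0 (Pi_mem_span s)

theorem Pi_mul_A0 {x : BH} (hx : x ∈ A0 s) : Pi s * x = x := by
  refine A0_induction (P := fun x => Pi s * x = x) ?_ ?_ hx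
  · intro x hx
    induction hx using Submodule.span_induction with
    | mem x hx =>
      obtain ⟨w, p, hp, q, hq, rfl⟩ := hx
      exact Pi_mul_WE w hp
    | zero => exact mul_zero _
    | add x y _ _ hx hy => rw [mul_add, hx, hy]
    | smul c x _ hx => rw [mul_smul_comm, hx]
  · exact isClosed_eq (continuous_const_mul (Pi s)) continuous_id

theorem A0_mul_Pi {x : BH} (hx : x ∈ A0 s) : x * Pi s = x := by
  refine A0_induction (P := fun x => x * Pi s = x) ?_ ?_ hx
  · intro x hx
    induction hx using Submodule.span_induction with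
    | mem x hx =>
      obtain ⟨w, p, hp, q, hq, rfl⟩ := hx
      exact WE_mul_Pi w hq
    | zero => exact zero_mul _
    | add x y _ _ hx hy => rw [add_mul, hx, hy]
    | smul c x _ hx => rw [smul_mul_assoc, hx]
  · exact isClosed_eq (continuous_mul_const (Pi s)) continuous_id

theorem A0_le_CC {x : BH} (hx : x ∈ A0 s) : x ∈ CC s := by
  refine A0_induction (P := fun x => x ∈ CC s) ?_ (isClosed_CC s) hx
  intro x hx
  have h1 : Submodule.span ℂ (ccGens s) ≤ Subalgebra.toSubmodule (StarAlgebra.adjoin ℂ (ccGens s)).toSubalgebra :=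
    Submodule.span_le.2 (fun y hy => StarAlgebra.subset_adjoin ℂ (ccGens s) hy)
  rw [CC]
  exact StarSubalgebra.le_topologicalClosure _ (h1 hx)

theorem mem_adjoin {x : BH} (hx : x ∈ StarAlgebra.adjoin ℂ (ccGens s)) :
    ∃ c : ℂ, ∃ y ∈ Submodule.span ℂ (ccGens s), x = c • 1 + y := by
  induction hx using StarAlgebra.adjoin_induction with
  | mem x hx => exact ⟨0, x, Submodule.subset_span hx, by rw [zero_smul, zero_add]⟩
  | algebraMap c => exact ⟨c, 0, Submodule.zero_mem _, by rw [Algebra.algebraMap_eq_smul_one, add_zero]⟩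
  | add x y _ _ hx hy =>
    obtain ⟨c, u, hu, rfl⟩ := hx
    obtain ⟨d, v, hv, rfl⟩ := hy
    exact ⟨c + d, u + v, Submodule.add_mem _ hu hv, by rw [add_smul]; abel⟩
  | mul x y _ _ hx hy =>
    obtain ⟨c, u, hu, rfl⟩ := hx
    obtain ⟨d, v, hv, rfl⟩ := hy
    refine ⟨c * d, c • v + d • u + u * v, Submodule.add_mem _ (Submodule.add_mem _ (Submodule.smul_mem _ _ hv)
      (Submodule.smul_mem _ _ hu)) (span_mul_mem hu hv), ?_⟩
    rw [add_mul, mul_add, mul_add, smul_mul_smul_comm, mul_one, smul_mul_assoc, one_mul, mul_smul_comm, mul_one]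
    abel
  | star x _ hx =>
    obtain ⟨c, u, hu, rfl⟩ := hx
    exact ⟨star c, star u, span_star_mem hu, by rw [star_add, star_smul, star_one]⟩

/-- closure induction for `CC`. -/
theorem CC_induction {P : BH → Prop} (h1 : ∀ (c : ℂ), ∀ y ∈ Submodule.span ℂ (ccGens s), P (c • 1 + y))
    (h2 : IsClosed {x | P x}) {x : BH} (hx : x ∈ CC s) : P x := by
  have h3 : ((CC s : StarSubalgebra ℂ BH) : Set BH) ⊆ {x | P x} := by
    rw [CC, StarSubalgebra.topologicalClosure_coe]
    refine closure_minimal (fun y hy => ?_) h2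
    obtain ⟨c, u, hu, rfl⟩ := mem_adjoin hy
    exact h1 c u hu
  exact h3 hx

theorem exists_sqrt {h : BH} (hh : h ∈ CC s) (h0 : 0 ≤ h) : ∃ kk ∈ CC s, 0 ≤ kk ∧ kk * kk = h := 
  jg_sqrt (CC s) (isClosed_CC s) hh h0

/-- `‖(1 - Pi) kk‖² = ‖(1 - Pi) h (1 - Pi)‖ = 0`. -/
theorem sqrt_Pi {h kk : BH} (hP : Pi s * h = h) (hk : 0 ≤ kk) (hkk : kk * kk = h) :
    Pi s * kk = kk ∧ kk * Pi s = kk := by
  have hs : star kk = kk := (IsSelfAdjoint.of_nonneg hk).star_eq
  have h1 : kk * (1 - Pi s) = 0 := by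
    refine jg_zero (star_Pi s) hs ?_
    rw [hkk, sub_mul, one_mul, hP, sub_self]
  have h2 : kk * Pi s = kk := by
    rw [mul_sub, mul_one, sub_eq_zero] at h1
    exact h1.symm
  refine ⟨?_, h2⟩
  have h3 := congrArg star h2
  rwa [star_mul, star_Pi, hs] at h3

end OE
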