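import Mathlib
import Pool.Agent.Work.MP_06ef15_an.JC
import Pool.Agent.Work.MP_06ef15_an.JG

/-!
# Block J, (7.4)-(7.6): `lamb` and `rho` commute on `CC s`, the vector `oneh s`, the trace   (size M-L)

`lamb (WE w p q) (e ((x,p'),q')) = [p' = q] emb q' (emb p (Wk w (e x)))`.
`rho (WE u r t) (e ((x,p'),q')) = [q' = r] (rW (Wk u) (e x)) in the word coordinate, first coordinate p', second t`
(`trp (Eu r t) = Eu t r`, `trp_amp`, `trp_mul`; `Fl` exchanges the two `Q`-coordinates and applies `flW` to the word).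
So the two commute by `Wk_comm_rW`; linear combinations and limits: `CC_induction` twice (`lamb 1 = rho 1 = 1`).
`lamb_WE_oneh`, `rho_WE_oneh`: `Wk_e_nil`, `rW_Wk_e_nil`; both are `e ((w,p),q)`.
`lamb_oneh_eq_rho_oneh`: linear, closed condition.
`tr_comm`: `⟪1^, lamb x (lamb y 1^)⟫ = ⟪1^, lamb x (rho y 1^)⟫ = ⟪1^, rho y (lamb x 1^)⟫ = ⟪rho (star y) 1^, lamb x 1^⟫
= ⟪lamb (star y) 1^, lamb x 1^⟫ = ⟪1^, lamb y (lamb x 1^)⟫`.
`dense_hat`: the range of `lamb (Pi s) * rho (Pi s)` is the closed span of the `e ((w,p),q)`, `p, q ∈ s`.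
-/

set_option autoImplicit false

open scoped ComplexConjugate InnerProductSpace Classical
open ContinuousLinearMap (adjoint)

namespace OE

variable {s : Finset Q}

private theorem jh_trp_Eu (p q : Q) : trp (Eu p q) = Eu q p := by
  refine trp_of_coef (Eu p q) (Eu q p) ?_
  rintro ⟨w, a⟩ ⟨w', b⟩
  rw [Eu_e, Eu_e]
  by_cases h1 : b = p
  · by_cases h2 : a = q
    · rw [if_pos h1, if_pos h2, e_apply, e_apply]
      by_cases h3 : w = w'
      · rw [if_pos (by rw [h3, h2]), if_pos (by rw [h3, h1])]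
      · rw [if_neg (fun h => h3 (congrArg Prod.fst h)), if_neg (fun h => h3 (congrArg Prod.fst h).symm)]
    · rw [if_pos h1, if_neg h2, e_apply, if_neg (fun h => h2 (congrArg Prod.snd h))]
      rfl
  · by_cases h2 : a = q
    · rw [if_neg h1, if_pos h2, e_apply, if_neg (fun h => h1 (congrArg Prod.snd h))]
      rfl
    · rw [if_neg h1, if_neg h2]
      rfl

private theorem jh_trp_WE (w : W) (p q : Q) : trp (WE w p q) = WE (ws w) q p := by
  rw [WE, trp_mul, jh_trp_Eu, Wh, trp_amp, trp_Wk, ← Wh_mul_Eu]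
  rfl

private theorem jh_WE_emb (w : W) (p q : Q) (p' : Q) (y : H W) :
    WE w p q (emb p' y) = if p' = q then emb p (Wk w y) else 0 := by
  have h : (WE w p q).comp (emb p') = if p' = q then (emb p).comp (Wk w) else 0 := by
    refine ext_e (fun x => ?_)
    rw [ContinuousLinearMap.comp_apply, emb_e, WE_e]
    by_cases h : p' = q
    · rw [if_pos h, if_pos h]; rfl
    · rw [if_neg h, if_neg h]; rfl
  have h' := congrArg (fun T : H W →L[ℂ] H Idx => T y) h
  simp only [ContinuousLinearMap.comp_apply] at h'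
  rw [h']
  by_cases h : p' = q
  · rw [if_pos h, if_pos h]; rfl
  · rw [if_neg h, if_neg h]; rfl

private theorem jh_lamb (w : W) (p q : Q) (p' q' : Q) (y : H W) :
    lamb (WE w p q) (emb q' (emb p' y)) = if p' = q then emb q' (emb p (Wk w y)) else 0 := by
  rw [lamb, amp_emb, jh_WE_emb]
  by_cases h : p' = q
  · rw [if_pos h, if_pos h]
  · rw [if_neg h, if_neg h, map_zero]

private theorem jh_Fl (p' q : Q) (y : H W) : Fl (emb p' (emb q y)) = emb q (emb p' (flW y)) := by
  have h : Fl.comp ((emb p').comp (emb q)) = ((emb q).comp (emb p' : H W →L[ℂ] H Idx)).comp flW := by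
    refine ext_e (fun x => ?_)
    simp only [ContinuousLinearMap.comp_apply]
    rw [emb_e, emb_e, Fl_e, flW_e, emb_e, emb_e]
  exact congrArg (fun T : H W →L[ℂ] HH => T y) h

private theorem jh_rho (w : W) (p q : Q) (p' q' : Q) (y : H W) :
    rho (WE w p q) (emb q' (emb p' y)) = if q' = p then emb q (emb p' (rW (Wk w) y)) else 0 := by
  rw [rho, jh_trp_WE]
  show Fl (amp Q (WE (ws w) q p) (Fl (emb q' (emb p' y)))) = _
  rw [jh_Fl, amp_emb, jh_WE_emb]
  by_cases h : q' = p
  · rw [if_pos h, if_pos h, jh_Fl]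
    have : rW (Wk w) y = flW (Wk (ws w) (flW y)) := by
      rw [rW, trp_Wk]; rfl
    rw [this]
  · rw [if_neg h, if_neg h, map_zero, map_zero]

private theorem jh_e (x : W) (p q : Q) : (e (((x, p), q) : Idx × Q) : HH) = emb q (emb p (e x)) := by
  rw [emb_e, emb_e]

theorem lamb_WE_oneh (w : W) {p q : Q} (hq : q ∈ s) :
    lamb (WE w p q) (oneh s) = e (((w, p), q) : Idx × Q) := by
  rw [oneh, map_sum, Finset.sum_eq_single q]
  · rw [jh_e, jh_lamb, if_pos rfl, Wk_e_nil, ← jh_e]
  · intro b _ hb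
    rw [jh_e, jh_lamb, if_neg hb]
  · intro h; exact absurd hq h

theorem rho_WE_oneh (w : W) {p q : Q} (hp : p ∈ s) :
    rho (WE w p q) (oneh s) = e (((w, p), q) : Idx × Q) := by
  rw [oneh, map_sum, Finset.sum_eq_single p]
  · rw [jh_e, jh_rho, if_pos rfl, rW_Wk_e_nil, ← jh_e]
  · intro b _ hb
    rw [jh_e, jh_rho, if_neg hb]
  · intro h; exact absurd hp h

theorem lamb_rho_WE (w u : W) (p q r t : Q) :
    lamb (WE w p q) * rho (WE u r t) = rho (WE u r t) * lamb (WE w p q) := by
  refine ext_e ?_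
  rintro ⟨⟨x, p'⟩, q'⟩
  rw [jh_e]
  show lamb (WE w p q) (rho (WE u r t) _) = rho (WE u r t) (lamb (WE w p q) _)
  rw [jh_rho, jh_lamb]
  have hc : Wk w (rW (Wk u) (e x)) = rW (Wk u) (Wk w (e x)) :=
    congrArg (fun T : H W →L[ℂ] H W => T (e x)) (Wk_comm_rW w u)
  by_cases h1 : q' = r
  · by_cases h2 : p' = q
    · rw [if_pos h1, if_pos h2, jh_rho, jh_lamb, if_pos h1, if_pos h2, hc]
    · rw [if_pos h1, if_neg h2, jh_lamb, if_neg h2, map_zero]
  · by_cases h2 : p' = q
    · rw [if_neg h1, if_pos h2, jh_rho, if_neg h1, map_zero]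
    · rw [if_neg h1, if_neg h2, map_zero, map_zero]

private theorem jh_span (P : BH → BH → Prop)
    (hg : ∀ w u p q r t, P (WE w p q) (WE u r t)) (h0l : ∀ y, P 0 y) (h0r : ∀ x, P x 0)
    (hal : ∀ x x' y, P x y → P x' y → P (x + x') y) (har : ∀ x y y', P x y → P x y' → P x (y + y'))
    (hsl : ∀ (c : ℂ) x y, P x y → P (c • x) y) (hsr : ∀ (c : ℂ) x y, P x y → P x (c • y))
    {x y : BH} (hx : x ∈ Submodule.span ℂ (ccGens s)) (hy : y ∈ Submodule.span ℂ (ccGens s)) : P x y := by
  induction hx using Submodule.span_induction with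
  | mem x hx =>
    obtain ⟨w, p, _, q, _, rfl⟩ := hx
    induction hy using Submodule.span_induction with
    | mem y hy =>
      obtain ⟨u, r, _, t, _, rfl⟩ := hy
      exact hg w u p q r t
    | zero => exact h0r _
    | add y y' _ _ h h' => exact har _ _ _ h h'
    | smul c y _ h => exact hsr c _ _ h
  | zero => exact h0l _
  | add x x' _ _ h h' => exact hal _ _ _ h h'
  | smul c x _ h => exact hsl c _ _ h

private theorem jh_comm_span {x y : BH} (hx : x ∈ Submodule.span ℂ (ccGens s))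
    (hy : y ∈ Submodule.span ℂ (ccGens s)) : lamb x * rho y = rho y * lamb x := by
  refine jh_span (s := s) (fun x y => lamb x * rho y = rho y * lamb x) ?_ ?_ ?_ ?_ ?_ ?_ ?_ hx hy
  · intro w u p q r t; exact lamb_rho_WE w u p q r t
  · intro y; simp only [lamb_zero, zero_mul, mul_zero]
  · intro x; simp only [rho_zero, zero_mul, mul_zero]
  · intro x x' y h h'; simp only [lamb_add, add_mul, mul_add, h, h']
  · intro x y y' h h'; simp only [rho_add, add_mul, mul_add, h, h']
  · intro c x y h; simp only [lamb_smul, smul_mul_assoc, mul_smul_comm, h]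
  · intro c x y h; simp only [rho_smul, smul_mul_assoc, mul_smul_comm, h]

theorem lamb_rho_comm {x y : BH} (hx : x ∈ CC s) (hy : y ∈ CC s) : lamb x * rho y = rho y * lamb x := by
  refine CC_induction (s := s) (P := fun x => lamb x * rho y = rho y * lamb x) ?_ ?_ hx
  · intro c x' hx'
    refine CC_induction (s := s) (P := fun y => lamb (c • 1 + x') * rho y = rho y * lamb (c • 1 + x')) ?_ ?_ hy
    · intro c' y' hy'
      have h := jh_comm_span hx' hy'
      simp only [lamb_add, lamb_smul, lamb_one, rho_add, rho_smul, rho_one, add_mul, mul_add, smul_mul_assoc, mul_smul_comm,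
        one_mul, mul_one, h, smul_add, smul_smul, mul_comm c' c]
      abel
    · exact isClosed_eq (continuous_const.mul continuous_rho) (continuous_rho.mul continuous_const)
  · exact isClosed_eq (continuous_lamb.mul continuous_const) (continuous_const.mul continuous_lamb)

theorem lamb_oneh_eq_rho_oneh {x : BH} (hx : x ∈ CC s) : lamb x (oneh s) = rho x (oneh s) := by
  refine CC_induction (s := s) (P := fun x => lamb x (oneh s) = rho x (oneh s)) ?_ ?_ hx
  · intro c y hy
    have h : lamb y (oneh s) = rho y (oneh s) := by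
      induction hy using Submodule.span_induction with
      | mem x hx =>
        obtain ⟨w, p, hp, q, hq, rfl⟩ := hx
        rw [lamb_WE_oneh w hq, rho_WE_oneh w hp]
      | zero => rw [lamb_zero, rho_zero]
      | add x y _ _ h h' =>
        rw [lamb_add, rho_add]
        show lamb x (oneh s) + lamb y (oneh s) = rho x (oneh s) + rho y (oneh s)
        rw [h, h']
      | smul c x _ h =>
        rw [lamb_smul, rho_smul]
        show c • lamb x (oneh s) = c • rho x (oneh s)
        rw [h]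
    rw [lamb_add, rho_add, lamb_smul, rho_smul, lamb_one, rho_one]
    show c • oneh s + lamb y (oneh s) = c • oneh s + rho y (oneh s)
    rw [h]
  · exact isClosed_eq (continuous_lamb.clm_apply continuous_const) (continuous_rho.clm_apply continuous_const)

theorem tr_comm {x y : BH} (hx : x ∈ CC s) (hy : y ∈ CC s) :
    ⟪oneh s, lamb (x * y) (oneh s)⟫_ℂ = ⟪oneh s, lamb (y * x) (oneh s)⟫_ℂ := by
  have hys : star y ∈ CC s := star_mem hy
  have e1 : lamb (x * y) (oneh s) = rho y (lamb x (oneh s)) := by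
    rw [lamb_mul]
    show lamb x (lamb y (oneh s)) = _
    rw [lamb_oneh_eq_rho_oneh hy]
    exact congrArg (fun T : HH →L[ℂ] HH => T (oneh s)) (lamb_rho_comm hx hy)
  have e2 : ∀ (T : HH →L[ℂ] HH) (a b : HH), ⟪a, T b⟫_ℂ = ⟪star T a, b⟫_ℂ := by
    intro T a b
    rw [ContinuousLinearMap.star_eq_adjoint, ContinuousLinearMap.adjoint_inner_left]
  rw [e1, e2, ← rho_star, ← lamb_oneh_eq_rho_oneh hys, lamb_star, ← e2, lamb_mul]
  rfl

theorem inner_WE_oneh (w u : W) {p q r t : Q} (hq : q ∈ s) (ht : t ∈ s) :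
    ⟪lamb (WE w p q) (oneh s), lamb (WE u r t) (oneh s)⟫_ℂ = if w = u ∧ p = r ∧ q = t then 1 else 0 := by
  rw [lamb_WE_oneh w hq, lamb_WE_oneh u ht, inner_e_e]
  by_cases h : w = u ∧ p = r ∧ q = t
  · rw [if_pos h, if_pos]
    rw [h.1, h.2.1, h.2.2]
  · rw [if_neg h, if_neg]
    intro h'
    apply h
    simp only [Prod.mk.injEq] at h'
    exact ⟨h'.1.1, h'.1.2, h'.2⟩

/-- the value of the trace on `WE u r t * WE w q p`. -/
theorem tr_WE_WE (w u : W) {p q r t : Q} (hp : p ∈ s) (hq : q ∈ s) (hr : r ∈ s) (ht : t ∈ s) :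
    ⟪oneh s, lamb (WE u r t * WE (ws w) q p) (oneh s)⟫_ℂ = if w = u ∧ p = r ∧ q = t then 1 else 0 := by
  have e2 : ∀ (T : HH →L[ℂ] HH) (a b : HH), ⟪a, T b⟫_ℂ = ⟪star T a, b⟫_ℂ := by
    intro T a b
    rw [ContinuousLinearMap.star_eq_adjoint, ContinuousLinearMap.adjoint_inner_left]
  rw [lamb_mul]
  show ⟪oneh s, lamb (WE u r t) (lamb (WE (ws w) q p) (oneh s))⟫_ℂ = _
  rw [e2, ← lamb_star, star_WE, inner_WE_oneh (ws u) (ws w) hr hp]
  by_cases h : w = u ∧ p = r ∧ q = t
  · rw [if_pos h, if_pos]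
    exact ⟨by rw [h.1], h.2.2.symm, h.2.1.symm⟩
  · rw [if_neg h, if_neg]
    intro h'
    exact h ⟨(ws_injective h'.1).symm, h'.2.2.symm, h'.2.1.symm⟩

theorem Pi_oneh (s : Finset Q) : lamb (Pi s) (oneh s) = oneh s ∧ rho (Pi s) (oneh s) = oneh s := by
  constructor
  · rw [lamb_Pi, oneh, map_sum]
    refine Finset.sum_congr rfl (fun q hq => ?_)
    exact pr_e_mem (by exact hq)
  · rw [rho_Pi, oneh, map_sum]
    refine Finset.sum_congr rfl (fun q hq => ?_)
    exact pr_e_mem (by exact hq)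

theorem hat_mem {x : BH} (hx : x ∈ A0 s) :
    lamb (Pi s) (lamb x (oneh s)) = lamb x (oneh s) ∧ rho (Pi s) (lamb x (oneh s)) = lamb x (oneh s) := by
  constructor
  · have h : lamb (Pi s * x) = lamb (Pi s) * lamb x := lamb_mul _ _
    rw [Pi_mul_A0 hx] at h
    conv_rhs => rw [h]
    rfl
  · have h := congrArg (fun T : HH →L[ℂ] HH => T (oneh s)) (lamb_comm_rho_Pi x s)
    have h' : lamb x (rho (Pi s) (oneh s)) = rho (Pi s) (lamb x (oneh s)) := h
    rw [← h', (Pi_oneh s).2]

theorem dense_hat (η : HH) : lamb (Pi s) (rho (Pi s) η) ∈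
    closure {ξ : HH | ∃ x ∈ Submodule.span ℂ (ccGens s), ξ = lamb x (oneh s)} := by
  let L : BH →ₗ[ℂ] HH :=
    { toFun := fun x => lamb x (oneh s)
      map_add' := by intro x y; rw [lamb_add]; rfl
      map_smul' := by intro c x; rw [lamb_smul]; rfl }
  let S : Submodule ℂ HH := (Submodule.span ℂ (ccGens s)).map L
  have hS : ((S : Submodule ℂ HH) : Set HH) = {ξ : HH | ∃ x ∈ Submodule.span ℂ (ccGens s), ξ = lamb x (oneh s)} := by
    ext ξ
    constructor
    · rintro ⟨x, hx, rfl⟩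
      exact ⟨x, hx, rfl⟩
    · rintro ⟨x, hx, rfl⟩
      exact ⟨x, hx, rfl⟩
  rw [← hS, ← Submodule.topologicalClosure_coe]
  have key := mem_of_e (S.topologicalClosure.comap ((lamb (Pi s) * rho (Pi s) : HH →L[ℂ] HH) : HH →ₗ[ℂ] HH)) ?_ ?_ η
  · exact key
  · have := S.isClosed_topologicalClosure
    exact this.preimage (lamb (Pi s) * rho (Pi s) : HH →L[ℂ] HH).continuous
  · rintro ⟨⟨w, p⟩, q⟩
    show lamb (Pi s) (rho (Pi s) (e ((w, p), q))) ∈ S.topologicalClosure
    rw [rho_Pi, pr_e]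
    by_cases hq : q ∈ s
    · rw [if_pos (by exact hq), lamb_Pi, pr_e]
      by_cases hp : p ∈ s
      · rw [if_pos (by exact hp)]
        refine S.le_topologicalClosure ?_
        refine ⟨WE w p q, Submodule.subset_span ⟨w, p, hp, q, hq, rfl⟩, ?_⟩
        exact lamb_WE_oneh w hq
      · rw [if_neg (by exact hp)]
        exact S.topologicalClosure.zero_mem
    · rw [if_neg (by exact hq), map_zero]
      exact S.topologicalClosure.zero_mem

end OE
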