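import Mathlib
import Pool.Agent.Work.MP_06ef15_an.JH

/-!
# Block J: identities for the vector `ξ = lamb kk (oneh s)`   (size M)

All `x, kk ∈ CC s`, `star kk = kk`; `1^ = oneh s`.
`xi_lamb`: `⟪lamb kk 1^, lamb x (lamb kk 1^)⟫ = ⟪1^, lamb (kk * x * kk) 1^⟫ = ⟪1^, lamb (x * (kk * kk)) 1^⟫` (`tr_comm`).
`xi_lamb_rho`: `rho x (lamb kk 1^) = lamb kk (rho x 1^) = lamb kk (lamb x 1^)`, so the left side is `⟪1^, lamb (kk * x * kk * x) 1^⟫`;
`rho kk (lamb x 1^) = lamb x (lamb kk 1^)`, so the right side is `⟪1^, lamb (star x * kk * x * kk) 1^⟫`; `tr_comm`.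
`hat_lamb`: `⟪lamb x 1^, lamb (kk * kk) (lamb x 1^)⟫ = tr (star x * h * x) = tr (x * star x * h)`;
`hat_rho`: `rho h (lamb x 1^) = lamb x (rho h 1^) = lamb (x * h) 1^`, so `⟪lamb x 1^, rho h (lamb x 1^)⟫ = tr (star x * x * h)`.
`xi_cut`: `Pi s * kk = kk`, `kk * Pi s = kk`: `ξ = lamb (Pi s) ξ = rho (Pi s) ξ` (`rho (Pi s) 1^ = 1^`, `lamb_comm_rho_Pi`), `lamb a` commutes with
`rho (Pi s)`, `rho a` with `lamb (Pi s)`.
-/

set_option autoImplicit false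

open scoped ComplexConjugate InnerProductSpace Classical
open ContinuousLinearMap (adjoint)

namespace OE

variable {s : Finset Q}

private theorem lmul (a b : BH) (v : HH) : lamb (a * b) v = lamb a (lamb b v) := by
  rw [lamb_mul]; rfl

private theorem rmul (a b : BH) (v : HH) : rho (a * b) v = rho b (rho a v) := by
  rw [rho_mul]; rfl

private theorem ladj (a : BH) (v w : HH) : ⟪lamb a v, w⟫_ℂ = ⟪v, lamb (star a) w⟫_ℂ := by
  rw [lamb_star, ContinuousLinearMap.star_eq_adjoint, ContinuousLinearMap.adjoint_inner_right]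

private theorem radj (a : BH) (v w : HH) : ⟪rho a v, w⟫_ℂ = ⟪v, rho (star a) w⟫_ℂ := by
  rw [rho_star, ContinuousLinearMap.star_eq_adjoint, ContinuousLinearMap.adjoint_inner_right]

private theorem lrc {x y : BH} (hx : x ∈ CC s) (hy : y ∈ CC s) (v : HH) :
    rho y (lamb x v) = lamb x (rho y v) :=
  (congrArg (fun T : HH →L[ℂ] HH => T v) (lamb_rho_comm hx hy)).symm

private theorem star_Pi' (s : Finset Q) : star (Pi s) = Pi s := by
  exact star_Pi s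

private theorem lPc (a : BH) (s : Finset Q) (v : HH) :
    rho (Pi s) (lamb a v) = lamb a (rho (Pi s) v) :=
  (congrArg (fun T : HH →L[ℂ] HH => T v) (lamb_comm_rho_Pi a s)).symm

private theorem rPc (a : BH) (s : Finset Q) (v : HH) :
    lamb (Pi s) (rho a v) = rho a (lamb (Pi s) v) :=
  (congrArg (fun T : HH →L[ℂ] HH => T v) (rho_comm_lamb_Pi a s)).symm

theorem xi_lamb {kk x : BH} (hk : kk ∈ CC s) (hx : x ∈ CC s) (hsa : star kk = kk) :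
    ⟪lamb kk (oneh s), lamb x (lamb kk (oneh s))⟫_ℂ = ⟪oneh s, lamb (x * (kk * kk)) (oneh s)⟫_ℂ := by
  have h := tr_comm (s := s) hk (mul_mem hx hk)
  rw [ladj, hsa, ← lmul, ← lmul]
  simp only [mul_assoc] at h ⊢
  exact h

theorem xi_lamb_rho {kk x : BH} (hk : kk ∈ CC s) (hx : x ∈ CC s) (hsa : star kk = kk) (hxs : star x = x) :
    ⟪lamb kk (oneh s), lamb x (rho x (lamb kk (oneh s)))⟫_ℂ =
      ⟪lamb x (oneh s), lamb kk (rho kk (lamb x (oneh s)))⟫_ℂ := by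
  have e1 : rho x (lamb kk (oneh s)) = lamb kk (lamb x (oneh s)) := by
    rw [lrc hk hx, lamb_oneh_eq_rho_oneh hx]
  have e2 : rho kk (lamb x (oneh s)) = lamb x (lamb kk (oneh s)) := by
    rw [lrc hx hk, lamb_oneh_eq_rho_oneh hk]
  have h := tr_comm (s := s) hx (mul_mem hk (mul_mem hx hk))
  rw [e1, e2, ladj, hsa, ladj, hxs, ← lmul, ← lmul, ← lmul, ← lmul, ← lmul, ← lmul]
  simp only [mul_assoc] at h ⊢
  exact h.symm

theorem hat_lamb {kk x : BH} (hk : kk ∈ CC s) (hx : x ∈ CC s) :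
    ⟪lamb x (oneh s), lamb kk (lamb kk (lamb x (oneh s)))⟫_ℂ =
      ⟪oneh s, lamb (x * star x * (kk * kk)) (oneh s)⟫_ℂ := by
  have h := tr_comm (s := s) (mul_mem (star_mem hx) (mul_mem hk hk)) hx
  rw [ladj, ← lmul, ← lmul, ← lmul]
  simp only [mul_assoc] at h ⊢
  exact h

theorem hat_rho {kk x : BH} (hk : kk ∈ CC s) (hx : x ∈ CC s) :
    ⟪lamb x (oneh s), rho kk (rho kk (lamb x (oneh s)))⟫_ℂ =
      ⟪oneh s, lamb (star x * x * (kk * kk)) (oneh s)⟫_ℂ := by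
  have e2 : rho kk (rho kk (lamb x (oneh s))) = lamb x (lamb kk (lamb kk (oneh s))) := by
    rw [lrc hx hk, lrc hx hk, ← lamb_oneh_eq_rho_oneh hk, lrc hk hk, ← lamb_oneh_eq_rho_oneh hk]
  rw [e2, ladj, ← lmul, ← lmul, ← lmul]
  simp only [mul_assoc]

theorem xi_Pi {kk : BH} (hk : kk ∈ CC s) (h1 : Pi s * kk = kk) :
    lamb (Pi s) (lamb kk (oneh s)) = lamb kk (oneh s) ∧ rho (Pi s) (lamb kk (oneh s)) = lamb kk (oneh s) := by
  refine ⟨by rw [← lmul, h1], ?_⟩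
  rw [lPc, (Pi_oneh s).2]

theorem xi_cut {ξ : HH} (h1 : lamb (Pi s) ξ = ξ) (a : BH) :
    ⟪ξ, lamb a ξ⟫_ℂ = ⟪ξ, lamb (Pi s * a * Pi s) ξ⟫_ℂ := by
  conv_lhs => rw [← h1]
  rw [ladj, star_Pi', ← lmul, ← lmul, mul_assoc]

theorem xi_cut_rho {ξ : HH} (h1 : lamb (Pi s) ξ = ξ) (h2 : rho (Pi s) ξ = ξ) (a : BH) :
    ⟪ξ, lamb a (rho a ξ)⟫_ℂ = ⟪ξ, lamb (Pi s * a * Pi s) (rho (Pi s * a * Pi s) ξ)⟫_ℂ := by
  have e1 : rho (Pi s * a * Pi s) ξ = rho (Pi s) (rho a ξ) := by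
    rw [rmul, rmul, h2]
  have e2 : lamb (Pi s) (rho (Pi s) (rho a ξ)) = rho (Pi s) (rho a ξ) := by
    rw [rPc, rPc, h1]
  have e3 : lamb (Pi s * a * Pi s) (rho (Pi s) (rho a ξ)) =
      lamb (Pi s) (rho (Pi s) (lamb a (rho a ξ))) := by
    rw [lmul, e2, lmul, lPc]
  have h4 : ⟪ξ, lamb (Pi s) (rho (Pi s) (lamb a (rho a ξ)))⟫_ℂ =
      ⟪rho (Pi s) (lamb (Pi s) ξ), lamb a (rho a ξ)⟫_ℂ := by
    rw [radj, ladj, star_Pi']
  rw [e1, e3, h4, h1, h2]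

end OE
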