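import Mathlib
import Pool.Agent.Work.MP_06ef15_an.JG
import Pool.Agent.Work.MP_06ef15_an.CX

/-!
# Block J, (8.3): `Pi s * a * Pi s ∈ A0 s` for `a ∈ A`   (size M)

`Y_Eu`: `Y t k * (amp Q x * Eu p q) = ch (xf p.1 * dg1 t) • (amp Q (YY (t, k - p.2.1) * x) * Eu p q)` (on basis vectors: the
letters created on the level `n = p.2.1` are `(t, k - n)`; `Y_e_nil`, `Y_e_cons` compared with `Lw_e`, `adj_Lw_e_append`).
`Nw_Eu`: `Nw y v μ ν * Eu q q` is zero or a scalar multiple of `amp Q ((y'.map YY).prod) * Eu p q` with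
`p = (v + q.1, (q.2.1 - nn ν + nn μ, actM μ (tl^[|ν|] q.2.2)))` (if `dig |ν| q.2.2 = ν`; otherwise `star (Sw ν) * Eu q q = 0`), where `y'` are the
letters of `y` with `k` replaced by `k - p.2.1`; `prod_YY_mem`, `amp_mul_Eu_mem`.
`Pi_Nw_Pi`: `Pi s = ∑_{p ∈ s} Eu p p`.   `Pi_A_Pi`: `dense_Nw` (file CX) (`A0 s` closed, `x ↦ Pi s * x * Pi s` continuous and linear).
-/

set_option autoImplicit false

open scoped ComplexConjugate InnerProductSpace Classical
open ContinuousLinearMap (adjoint)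

namespace OE

private theorem jq_adj_nil (a : Lam) : adjoint (Lw [a]) (e ([] : W)) = 0 :=
  adj_Lw_e_of_not _ _ fun x h => by simp at h

private theorem jq_adj_cons (a b : Lam) (w : W) :
    adjoint (Lw [a]) (e (b :: w)) = if b = a then e w else 0 := by
  by_cases h : b = a
  · subst h
    rw [if_pos rfl]
    exact adj_Lw_e_append [b] w
  · rw [if_neg h]
    refine adj_Lw_e_of_not _ _ fun x hx => h ?_
    rw [List.singleton_append, List.cons.injEq] at hx
    exact hx.1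

private theorem jq_Y_emb (t : T) (k : ℤ) (p : Q) :
    (Y t k).comp (emb p) = ch (xf p.1 * dg1 t) • (emb p).comp (YY (t, k - p.2.1)) := by
  obtain ⟨v, n, m⟩ := p
  refine ext_e fun w => ?_
  rw [ContinuousLinearMap.comp_apply, emb_e, smul_apply, ContinuousLinearMap.comp_apply, YY, add_apply,
    Lw_e, map_add, List.singleton_append, emb_e]
  rcases w with _ | ⟨b, w⟩
  · rw [Y_e_nil, jq_adj_nil, map_zero, add_zero]
  · rw [Y_e_cons, jq_adj_cons, smul_add]
    congr 1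
    by_cases h : b = (bar t, k - n)
    · rw [if_pos h, if_pos (show b = barL (t, k - n) from h), emb_e]
    · rw [if_neg h, if_neg (show ¬ b = barL (t, k - n) from h), map_zero, smul_zero]

theorem Y_Eu (t : T) (k : ℤ) (x : H W →L[ℂ] H W) (p q : Q) :
    Y t k * (amp Q x * Eu p q) = ch (xf p.1 * dg1 t) • (amp Q (YY (t, k - p.2.1) * x) * Eu p q) := by
  refine ext_e fun i => ?_
  obtain ⟨w, q'⟩ := i
  change Y t k (amp Q x (Eu p q (e ((w, q') : Idx)))) =
    ch (xf p.1 * dg1 t) • (amp Q (YY (t, k - p.2.1) * x) (Eu p q (e ((w, q') : Idx))))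
  rw [Eu_e]
  by_cases h : q' = q
  · rw [if_pos h, amp_e', amp_e']
    have h1 := congrArg (fun S : H W →L[ℂ] H Idx => S (x (e w))) (jq_Y_emb t k p)
    exact h1
  · rw [if_neg h, map_zero, map_zero, map_zero, smul_zero]

private theorem jq_Yw (y : List (T × ℤ)) (p q : Q) :
    ∃ (z : ℂ) (x : H W →L[ℂ] H W), x ∈ Submodule.span ℂ (Set.range Wk) ∧
      Yw y * Eu p q = z • (amp Q x * Eu p q) := by
  induction y with
  | nil =>
    refine ⟨1, 1, ?_, ?_⟩
    · rw [← Wk_nil]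
      exact Submodule.subset_span ⟨[], rfl⟩
    · rw [Yw_nil, amp_one, one_smul]
  | cons a y ih =>
    obtain ⟨z, x, hx, h⟩ := ih
    refine ⟨z * ch (xf p.1 * dg1 a.1), YY (a.1, a.2 - p.2.1) * x, YY_mul_mem _ hx, ?_⟩
    rw [Yw_cons, mul_assoc, h, mul_smul_comm, Y_Eu, smul_smul]

private theorem jq_Sw (μ : List Bool) (v : V) (n : ℤ) (m : M) (q : Q) :
    Sw μ * Eu (v, (n, m)) q = Eu (v, (n + nn μ, actM μ m)) q := by
  refine ext_e fun i => ?_
  obtain ⟨w, q'⟩ := i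
  change Sw μ (Eu (v, (n, m)) q (e ((w, q') : Idx))) = Eu (v, (n + nn μ, actM μ m)) q (e ((w, q') : Idx))
  rw [Eu_e, Eu_e]
  by_cases h : q' = q
  · rw [if_pos h, if_pos h, Sw_e]
  · rw [if_neg h, if_neg h, map_zero]

private theorem jq_star_Sw (ν : List Bool) (v : V) (n : ℤ) (m : M) (q : Q) :
    star (Sw ν) * Eu (v, (n, m)) q =
      if dig ν.length m = ν then Eu (v, (n - nn ν, tl^[ν.length] m)) q else 0 := by
  refine ext_e fun i => ?_
  obtain ⟨w, q'⟩ := i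
  change star (Sw ν) (Eu (v, (n, m)) q (e ((w, q') : Idx))) = _
  rw [Eu_e]
  by_cases h : q' = q
  · rw [if_pos h, star_Sw_e]
    by_cases h2 : dig ν.length m = ν
    · rw [if_pos h2, if_pos h2, Eu_e, if_pos h]
    · rw [if_neg h2, if_neg h2]
      rfl
  · rw [if_neg h, map_zero]
    by_cases h2 : dig ν.length m = ν
    · rw [if_pos h2, Eu_e, if_neg h]
    · rw [if_neg h2]
      rfl

private theorem jq_g (u v : V) (n : ℤ) (m : M) (q : Q) :
    g u * Eu (v, (n, m)) q = ch (bf u v) • Eu (u + v, (n, m)) q := by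
  refine ext_e fun i => ?_
  obtain ⟨w, q'⟩ := i
  change g u (Eu (v, (n, m)) q (e ((w, q') : Idx))) = ch (bf u v) • (Eu (u + v, (n, m)) q (e ((w, q') : Idx)))
  rw [Eu_e, Eu_e]
  by_cases h : q' = q
  · rw [if_pos h, if_pos h, g_e]
  · rw [if_neg h, if_neg h, map_zero, smul_zero]

theorem Nw_Eu (y : List (T × ℤ)) (v : V) (μ ν : List Bool) (q : Q) :
    Nw y v μ ν * Eu q q = 0 ∨ ∃ (z : ℂ) (p : Q) (x : H W →L[ℂ] H W), x ∈ Submodule.span ℂ (Set.range Wk) ∧
      Nw y v μ ν * Eu q q = z • (amp Q x * Eu p q) := by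
  obtain ⟨v', n, m⟩ := q
  rw [Nw, mul_assoc, jq_star_Sw]
  by_cases h : dig ν.length m = ν
  · rw [if_pos h, mul_assoc, jq_Sw, mul_assoc, jq_g, mul_smul_comm]
    obtain ⟨z, x, hx, hz⟩ := jq_Yw y (v + v', (n - nn ν + nn μ, actM μ (tl^[ν.length] m))) (v', (n, m))
    refine Or.inr ⟨ch (bf v v') * z, (v + v', (n - nn ν + nn μ, actM μ (tl^[ν.length] m))), x, hx, ?_⟩
    rw [hz, smul_smul]
  · rw [if_neg h, mul_zero]
    exact Or.inl rfl

private theorem jq_WE (p q : Q) : WE [] p q = Eu p q := by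
  rw [WE, Wh, Wk_nil, amp_one, one_mul]

private theorem jq_Pi_Eu (s : Finset Q) (p q : Q) :
    Pi s * Eu p q = if p ∈ s then Eu p q else 0 := by
  rw [Pi_eq_sum, Finset.sum_mul]
  have h : ∀ r ∈ s, WE [] r r * Eu p q = if p = r then Eu p q else 0 := by
    intro r _
    rw [jq_WE, Eu_mul]
    by_cases h : r = p
    · rw [if_pos h, if_pos h.symm, h]
    · rw [if_neg h, if_neg (Ne.symm h)]
  rw [Finset.sum_congr rfl h, Finset.sum_ite_eq]

theorem Pi_Nw_Pi (s : Finset Q) (y : List (T × ℤ)) (v : V) (μ ν : List Bool) :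
    Pi s * Nw y v μ ν * Pi s ∈ Submodule.span ℂ (ccGens s) := by
  have h : Pi s * Nw y v μ ν * Pi s = ∑ q ∈ s, Pi s * (Nw y v μ ν * Eu q q) := by
    conv_lhs => rw [Pi_eq_sum s]
    rw [Finset.mul_sum]
    refine Finset.sum_congr rfl fun q _ => ?_
    rw [jq_WE, mul_assoc, ← Pi_eq_sum]
  rw [h]
  refine Submodule.sum_mem _ fun q hq => ?_
  rcases Nw_Eu y v μ ν q with h1 | ⟨z, p, x, hx, h1⟩
  · rw [h1, mul_zero]
    exact Submodule.zero_mem _
  · rw [h1, mul_smul_comm]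
    refine Submodule.smul_mem _ _ ?_
    by_cases hp : p ∈ s
    · have h2 : Pi s * (amp Q x * Eu p q) = amp Q x * Eu p q := by
        rw [Wh_mul_Eu, ← mul_assoc, jq_Pi_Eu, if_pos hp]
      rw [h2]
      exact amp_mul_Eu_mem hx hp hq
    · have h2 : Pi s * (amp Q x * Eu p q) = 0 := by
        rw [Wh_mul_Eu, ← mul_assoc, jq_Pi_Eu, if_neg hp, zero_mul]
      rw [h2]
      exact Submodule.zero_mem _

theorem Pi_A_Pi (s : Finset Q) (a : A) : Pi s * (a : BH) * Pi s ∈ A0 s := by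
  have h1 : ∀ x ∈ NS, Pi s * x * Pi s ∈ A0 s := by
    intro x hx
    refine Submodule.span_induction (p := fun x _ => Pi s * x * Pi s ∈ A0 s) ?_ ?_ ?_ ?_ hx
    · rintro _ ⟨y, v, μ, ν, rfl⟩
      exact span_le_A0 (Pi_Nw_Pi s y v μ ν)
    · rw [mul_zero, zero_mul]
      exact Submodule.zero_mem _
    · intro x y _ _ h2 h3
      rw [mul_add, add_mul]
      exact Submodule.add_mem _ h2 h3
    · intro c x _ h2
      rw [mul_smul_comm, smul_mul_assoc]
      exact Submodule.smul_mem _ _ h2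
  have hP : ‖Pi s‖ ≤ 1 := norm_pr_le _
  have h2 : Pi s * (a : BH) * Pi s ∈ closure ((A0 s : Submodule ℂ BH) : Set BH) := by
    rw [Metric.mem_closure_iff]
    intro ε hε
    obtain ⟨x, hx, hxa⟩ := dense_Nw a ε hε
    refine ⟨Pi s * x * Pi s, h1 x hx, ?_⟩
    rw [dist_eq_norm]
    have h3 : Pi s * (a : BH) * Pi s - Pi s * x * Pi s = Pi s * ((a : BH) - x) * Pi s := by
      rw [mul_sub, sub_mul]
    rw [h3]
    calc ‖Pi s * ((a : BH) - x) * Pi s‖ ≤ ‖Pi s * ((a : BH) - x)‖ * ‖Pi s‖ := norm_mul_le _ _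
      _ ≤ (‖Pi s‖ * ‖(a : BH) - x‖) * ‖Pi s‖ := by
          gcongr
          exact norm_mul_le _ _
      _ ≤ (1 * ‖(a : BH) - x‖) * 1 := by gcongr
      _ = ‖(a : BH) - x‖ := by ring
      _ < ε := hxa
  rwa [(isClosed_A0 s).closure_eq] at h2

end OE
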