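import Mathlib
import Pool.Agent.Work.MP_06ef15_an.JH

/-!
# Block J, (7.7): the density of a smooth functional   (size L)

`density_exists`.  For `p, q ∈ s` put `γ_w = φ (WE w p q)`, `β_w = γ_w c^{-|w|}`.  Taking `α_w = conj β_w` on a finite set `F`
of words of length `n` in `hH` gives `∑_F |β_w|² ≤ (n+1) √(∑_F |β_w|²)`, hence `∑_F |β_w|² ≤ (n+1)²`.  By `haagerup_WE` the finite
sums of `∑_{|w| = n} γ_w WE (ws w) q p` (these words have again length `n`, `ws` is injective) are Cauchy, the sum `h_n^{pq}` has norm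
at most `c^n (n+1)^2`, and `h = ∑_n ∑_{p,q} h_n^{pq}` converges absolutely, `h ∈ A0 s`.  (Convenient: show that
`w ↦ γ_w WE (ws w) q p` is summable over words of length `n` with `summable_iff_cauchySeq_finset` and `haagerup_WE`, or choose `h_n`
as the limit over an increasing sequence of finite sets exhausting the countable set of words of length `n`.)
For `x = WE u r t` (`r, t ∈ s`): `⟪1^, lamb (x * h) 1^⟫ = ∑ γ_w [w = u, p = r, q = t] = φ x` by `tr_WE_WE` and continuity; both sides are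
linear and continuous on `A0 s` (`hφ`), so they agree on `A0 s`.
-/

set_option autoImplicit false

open scoped ComplexConjugate InnerProductSpace Classical
open ContinuousLinearMap (adjoint)

namespace OE

variable {s : Finset Q}

private theorem ji_summable {E : Type*} [NormedAddCommGroup E] [CompleteSpace E] {f : W → E} {γ : W → ℂ} {c : ℝ}
    (hc0 : 0 < c) (hc1 : c < 1)
    (h1 : ∀ (n : ℕ) (F : Finset W), (∀ w ∈ F, w.length = n) →
      ‖∑ w ∈ F, f w‖ ≤ ((n : ℝ) + 1) * Real.sqrt (∑ w ∈ F, ‖γ w‖ ^ 2))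
    (h2 : ∀ (n : ℕ) (F : Finset W), (∀ w ∈ F, w.length = n) →
      Real.sqrt (∑ w ∈ F, ‖γ w‖ ^ 2) ≤ c ^ n * ((n : ℝ) + 1)) : Summable f := by
  have hKs : Summable (fun n : ℕ => c ^ n * ((n : ℝ) + 1) ^ 2) := by
    have hn : ‖c‖ < 1 := by rw [Real.norm_eq_abs, abs_of_pos hc0]; exact hc1
    have e2 := summable_pow_mul_geometric_of_norm_lt_one (R := ℝ) 2 hn
    have e1 := summable_pow_mul_geometric_of_norm_lt_one (R := ℝ) 1 hn
    have e0 := summable_pow_mul_geometric_of_norm_lt_one (R := ℝ) 0 hn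
    have e := (e2.add (e1.mul_left 2)).add e0
    refine e.congr ?_
    intro n
    ring
  obtain ⟨K, hK⟩ : ∃ K : ℝ, K = ∑' n : ℕ, c ^ n * ((n : ℝ) + 1) ^ 2 := ⟨_, rfl⟩
  have hterm : ∀ n : ℕ, 0 ≤ c ^ n * ((n : ℝ) + 1) ^ 2 := fun n => by positivity
  have hK0 : 0 ≤ K := by rw [hK]; exact tsum_nonneg hterm
  have hKle : ∀ I : Finset ℕ, ∑ n ∈ I, c ^ n * ((n : ℝ) + 1) ^ 2 ≤ K := by
    intro I
    rw [hK]
    exact hKs.sum_le_tsum I (fun i _ => hterm i)
  obtain ⟨g, hg⟩ : ∃ g : W → ℝ, g = fun w => ‖γ w‖ ^ 2 * (c ^ w.length)⁻¹ := ⟨_, rfl⟩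
  have hg0 : ∀ w, 0 ≤ g w := by
    intro w
    rw [hg]
    positivity
  have hgF : ∀ (n : ℕ) (F : Finset W), (∀ w ∈ F, w.length = n) →
      ∑ w ∈ F, g w = (c ^ n)⁻¹ * ∑ w ∈ F, ‖γ w‖ ^ 2 := by
    intro n F hF
    rw [Finset.mul_sum]
    refine Finset.sum_congr rfl fun w hw => ?_
    rw [hg]
    simp only
    rw [hF w hw, mul_comm]
  have hgn : ∀ (n : ℕ) (F : Finset W), (∀ w ∈ F, w.length = n) →
      ∑ w ∈ F, g w ≤ c ^ n * ((n : ℝ) + 1) ^ 2 := by
    intro n F hF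
    rw [hgF n F hF]
    have h3 := h2 n F hF
    have h4 : ∑ w ∈ F, ‖γ w‖ ^ 2 ≤ (c ^ n * ((n : ℝ) + 1)) ^ 2 := by
      have h5 : 0 ≤ ∑ w ∈ F, ‖γ w‖ ^ 2 := Finset.sum_nonneg fun w _ => by positivity
      rw [← Real.sq_sqrt h5]
      exact pow_le_pow_left₀ (Real.sqrt_nonneg _) h3 2
    have hcn : 0 < c ^ n := pow_pos hc0 n
    calc (c ^ n)⁻¹ * ∑ w ∈ F, ‖γ w‖ ^ 2 ≤ (c ^ n)⁻¹ * (c ^ n * ((n : ℝ) + 1)) ^ 2 :=
          mul_le_mul_of_nonneg_left h4 (by positivity)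
      _ = c ^ n * ((n : ℝ) + 1) ^ 2 := by field_simp
  have hfib : ∀ t : Finset W, ∀ n ∈ t.image List.length,
      ∀ w ∈ t.filter (fun w => w.length = n), w.length = n := by
    intro t n _ w hw
    exact (Finset.mem_filter.1 hw).2
  have hsumg : ∀ t : Finset W, ∑ w ∈ t, g w ≤ K := by
    intro t
    rw [← Finset.sum_fiberwise_of_maps_to (t := t.image List.length) (g := List.length)
      (fun w hw => Finset.mem_image_of_mem _ hw) g]
    refine (Finset.sum_le_sum fun n hn => hgn n _ (hfib t n hn)).trans (hKle _)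
  have hgs : Summable g := summable_of_sum_le hg0 hsumg
  have hfn : ∀ t : Finset W, ‖∑ w ∈ t, f w‖ ^ 2 ≤ K * ∑ w ∈ t, g w := by
    intro t
    have e1 : ∑ w ∈ t, f w = ∑ n ∈ t.image List.length, ∑ w ∈ t with w.length = n, f w :=
      (Finset.sum_fiberwise_of_maps_to (t := t.image List.length) (g := List.length)
        (fun w hw => Finset.mem_image_of_mem _ hw) f).symm
    have e2 : ∑ w ∈ t, g w = ∑ n ∈ t.image List.length, ∑ w ∈ t with w.length = n, g w :=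
      (Finset.sum_fiberwise_of_maps_to (t := t.image List.length) (g := List.length)
        (fun w hw => Finset.mem_image_of_mem _ hw) g).symm
    rw [e1, e2]
    have h3 : ‖∑ n ∈ t.image List.length, ∑ w ∈ t with w.length = n, f w‖ ≤
        ∑ n ∈ t.image List.length, (((n : ℝ) + 1) * Real.sqrt (c ^ n)) *
          Real.sqrt (∑ w ∈ t with w.length = n, g w) := by
      refine (norm_sum_le _ _).trans (Finset.sum_le_sum fun n hn => ?_)
      refine (h1 n _ (hfib t n hn)).trans (le_of_eq ?_)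
      rw [hgF n _ (hfib t n hn), mul_assoc, ← Real.sqrt_mul (pow_pos hc0 n).le]
      congr 2
      have hcn : c ^ n ≠ 0 := (pow_pos hc0 n).ne'
      field_simp
    have h4 := Finset.sum_mul_sq_le_sq_mul_sq (t.image List.length)
      (fun n : ℕ => ((n : ℝ) + 1) * Real.sqrt (c ^ n))
      (fun n : ℕ => Real.sqrt (∑ w ∈ t with w.length = n, g w))
    have h5 : ∑ n ∈ t.image List.length, (((n : ℝ) + 1) * Real.sqrt (c ^ n)) ^ 2 ≤ K := by
      refine le_trans (le_of_eq ?_) (hKle (t.image List.length))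
      refine Finset.sum_congr rfl fun n _ => ?_
      rw [mul_pow, Real.sq_sqrt (pow_pos hc0 n).le]
      ring
    have h6 : ∑ n ∈ t.image List.length, Real.sqrt (∑ w ∈ t with w.length = n, g w) ^ 2 =
        ∑ n ∈ t.image List.length, ∑ w ∈ t with w.length = n, g w := by
      refine Finset.sum_congr rfl fun n _ => ?_
      exact Real.sq_sqrt (Finset.sum_nonneg fun w _ => hg0 w)
    rw [h6] at h4
    have h7 : 0 ≤ ∑ n ∈ t.image List.length, ∑ w ∈ t with w.length = n, g w :=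
      Finset.sum_nonneg fun n _ => Finset.sum_nonneg fun w _ => hg0 w
    calc ‖∑ n ∈ t.image List.length, ∑ w ∈ t with w.length = n, f w‖ ^ 2 ≤
        (∑ n ∈ t.image List.length, (((n : ℝ) + 1) * Real.sqrt (c ^ n)) *
          Real.sqrt (∑ w ∈ t with w.length = n, g w)) ^ 2 :=
          pow_le_pow_left₀ (norm_nonneg _) h3 2
      _ ≤ (∑ n ∈ t.image List.length, (((n : ℝ) + 1) * Real.sqrt (c ^ n)) ^ 2) *
          ∑ n ∈ t.image List.length, ∑ w ∈ t with w.length = n, g w := h4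
      _ ≤ _ := mul_le_mul_of_nonneg_right h5 h7
  rw [summable_iff_vanishing_norm]
  intro ε hε
  have hε' : 0 < ε ^ 2 / (K + 1) := by positivity
  obtain ⟨s0, hs0⟩ := summable_iff_vanishing_norm.1 hgs _ hε'
  refine ⟨s0, fun t ht => ?_⟩
  have h3 := hs0 t ht
  have h4 : ∑ w ∈ t, g w < ε ^ 2 / (K + 1) := lt_of_le_of_lt (le_abs_self _) h3
  have h5 := hfn t
  have h6 : K * ∑ w ∈ t, g w < ε ^ 2 := by
    have h7 : 0 ≤ ∑ w ∈ t, g w := Finset.sum_nonneg fun w _ => hg0 w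
    have h8 : (K + 1) * ∑ w ∈ t, g w < ε ^ 2 := by
      rw [lt_div_iff₀ (by positivity)] at h4
      linarith
    nlinarith
  exact lt_of_pow_lt_pow_left₀ 2 hε.le (lt_of_le_of_lt h5 h6)

theorem density_exists (φ : A0 s →ₗ[ℂ] ℂ) {c : ℝ} (hc0 : 0 < c) (hc1 : c < 1) {B : ℝ}
    (hφ : ∀ x : A0 s, ‖φ x‖ ≤ B * ‖(x : BH)‖)
    (hH : ∀ (n : ℕ) (p q : Q), p ∈ s → q ∈ s → ∀ (F : Finset W) (α : W → ℂ), (∀ w ∈ F, w.length = n) →
      ∀ y : A0 s, (y : BH) = ∑ w ∈ F, α w • WE w p q →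
        ‖φ y‖ ≤ c ^ n * ((n : ℝ) + 1) * Real.sqrt (∑ w ∈ F, ‖α w‖ ^ 2)) :
    ∃ h ∈ A0 s, ∀ x : A0 s, φ x = ⟪oneh s, lamb ((x : BH) * h) (oneh s)⟫_ℂ := by
  -- the coefficients
  obtain ⟨gam, hgam⟩ : ∃ gam : Q → Q → W → ℂ, gam = fun p q w =>
      if h : p ∈ s ∧ q ∈ s then φ ⟨WE w p q, WE_mem_A0 w h.1 h.2⟩ else 0 := ⟨_, rfl⟩
  have hgam' : ∀ (p q : Q) (hp : p ∈ s) (hq : q ∈ s) (w : W),
      gam p q w = φ ⟨WE w p q, WE_mem_A0 w hp hq⟩ := by
    intro p q hp hq w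
    rw [hgam]
    exact dif_pos ⟨hp, hq⟩
  have hb : ∀ (p q : Q), p ∈ s → q ∈ s → ∀ (n : ℕ) (F : Finset W), (∀ w ∈ F, w.length = n) →
      Real.sqrt (∑ w ∈ F, ‖gam p q w‖ ^ 2) ≤ c ^ n * ((n : ℝ) + 1) := by
    intro p q hp hq n F hF
    obtain ⟨y, hy⟩ : ∃ y : A0 s, y = ∑ w ∈ F, (starRingEnd ℂ) (gam p q w) •
        (⟨WE w p q, WE_mem_A0 w hp hq⟩ : A0 s) := ⟨_, rfl⟩
    have hy' : (y : BH) = ∑ w ∈ F, (starRingEnd ℂ) (gam p q w) • WE w p q := by
      rw [hy]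
      simp
    have h1 := hH n p q hp hq F (fun w => (starRingEnd ℂ) (gam p q w)) hF y hy'
    have h2 : φ y = ((∑ w ∈ F, ‖gam p q w‖ ^ 2 : ℝ) : ℂ) := by
      rw [hy, map_sum]
      push_cast
      refine Finset.sum_congr rfl fun w _ => ?_
      rw [map_smul, ← hgam' p q hp hq w, smul_eq_mul, mul_comm, Complex.mul_conj,
        Complex.normSq_eq_norm_sq]
      push_cast
      rfl
    have h3 : 0 ≤ ∑ w ∈ F, ‖gam p q w‖ ^ 2 := Finset.sum_nonneg fun w _ => by positivity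
    rw [h2, Complex.norm_real, Real.norm_eq_abs, abs_of_nonneg h3] at h1
    simp only [RCLike.norm_conj] at h1
    have h4 := Real.mul_self_sqrt h3
    rcases eq_or_lt_of_le (Real.sqrt_nonneg (∑ w ∈ F, ‖gam p q w‖ ^ 2)) with h5 | h5
    · rw [← h5]
      positivity
    · have h6 : Real.sqrt (∑ w ∈ F, ‖gam p q w‖ ^ 2) * Real.sqrt (∑ w ∈ F, ‖gam p q w‖ ^ 2) ≤
          c ^ n * ((n : ℝ) + 1) * Real.sqrt (∑ w ∈ F, ‖gam p q w‖ ^ 2) := by
        rw [h4]
        exact h1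
      exact le_of_mul_le_mul_right h6 h5
  have hsum : ∀ p ∈ s, ∀ q ∈ s, Summable (fun w => gam p q w • WE (ws w) q p) := by
    intro p hp q hq
    refine ji_summable (γ := gam p q) hc0 hc1 ?_ (hb p q hp hq)
    intro n F hF
    have h1 := haagerup_WE n (F.image ws) (by
      intro u hu
      obtain ⟨w, hw, rfl⟩ := Finset.mem_image.1 hu
      rw [length_ws]
      exact hF w hw) (fun u => gam p q (ws u)) q p
    rw [Finset.sum_image (fun a _ b _ hab => ws_injective hab),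
      Finset.sum_image (fun a _ b _ hab => ws_injective hab)] at h1
    simp only [ws_ws] at h1
    exact h1
  obtain ⟨hpq, hhpq⟩ : ∃ hpq : Q → Q → BH, hpq = fun p q => ∑' w, gam p q w • WE (ws w) q p := ⟨_, rfl⟩
  have hHS : ∀ p ∈ s, ∀ q ∈ s, HasSum (fun w => gam p q w • WE (ws w) q p) (hpq p q) := by
    intro p hp q hq
    rw [hhpq]
    exact (hsum p hp q hq).hasSum
  have hmem : ∀ p ∈ s, ∀ q ∈ s, hpq p q ∈ A0 s := by
    intro p hp q hq
    have h1 : ∀ t : Finset W, ∑ w ∈ t, gam p q w • WE (ws w) q p ∈ ((A0 s : Submodule ℂ BH) : Set BH) := by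
      intro t
      exact Submodule.sum_mem _ fun w _ => Submodule.smul_mem _ _ (WE_mem_A0 _ hq hp)
    exact (isClosed_A0 s).mem_of_tendsto (hHS p hp q hq) (Filter.Eventually.of_forall h1)
  refine ⟨∑ p ∈ s, ∑ q ∈ s, hpq p q, Submodule.sum_mem _ fun p hp => Submodule.sum_mem _ fun q hq =>
    hmem p hp q hq, ?_⟩
  obtain ⟨h, hh⟩ : ∃ h : BH, h = ∑ p ∈ s, ∑ q ∈ s, hpq p q := ⟨_, rfl⟩
  rw [← hh]
  -- the functional on the right
  have hR : ∀ x : BH, ∃ T : BH →L[ℂ] ℂ, ∀ y : BH, T y = ⟪oneh s, lamb (x * y) (oneh s)⟫_ℂ := by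
    intro x
    refine ⟨LinearMap.mkContinuous
      { toFun := fun y => ⟪oneh s, lamb (x * y) (oneh s)⟫_ℂ
        map_add' := by
          intro y z
          rw [mul_add, lamb_add, ContinuousLinearMap.add_apply, inner_add_right]
        map_smul' := by
          intro z y
          rw [mul_smul_comm, lamb_smul, ContinuousLinearMap.smul_apply, inner_smul_right]
          rfl } (‖oneh s‖ * (‖x‖ * ‖oneh s‖)) ?_, fun y => rfl⟩
    intro y
    show ‖⟪oneh s, lamb (x * y) (oneh s)⟫_ℂ‖ ≤ _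
    refine (norm_inner_le_norm _ _).trans ?_
    have h1 : ‖lamb (x * y) (oneh s)‖ ≤ (‖x‖ * ‖y‖) * ‖oneh s‖ := by
      refine (ContinuousLinearMap.le_opNorm _ _).trans ?_
      rw [norm_lamb]
      exact mul_le_mul_of_nonneg_right (norm_mul_le _ _) (norm_nonneg _)
    calc ‖oneh s‖ * ‖lamb (x * y) (oneh s)‖ ≤ ‖oneh s‖ * ((‖x‖ * ‖y‖) * ‖oneh s‖) :=
          mul_le_mul_of_nonneg_left h1 (norm_nonneg _)
      _ = ‖oneh s‖ * (‖x‖ * ‖oneh s‖) * ‖y‖ := by ring
  -- equality on the generators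
  have hgen : ∀ (u : W) (r t : Q) (hr : r ∈ s) (ht : t ∈ s),
      φ ⟨WE u r t, WE_mem_A0 u hr ht⟩ = ⟪oneh s, lamb (WE u r t * h) (oneh s)⟫_ℂ := by
    intro u r t hr ht
    obtain ⟨T, hT⟩ := hR (WE u r t)
    rw [← hT h, hh, map_sum]
    have h1 : ∀ p ∈ s, ∀ q ∈ s, T (hpq p q) = if p = r ∧ q = t then gam r t u else 0 := by
      intro p hp q hq
      have h2 : HasSum (fun w => T (gam p q w • WE (ws w) q p)) (T (hpq p q)) := (hHS p hp q hq).mapL T
      have h3 : (fun w => T (gam p q w • WE (ws w) q p)) =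
          fun w => if w = u then (if p = r ∧ q = t then gam r t u else 0) else 0 := by
        funext w
        rw [map_smul, hT, tr_WE_WE w u hp hq hr ht]
        by_cases hw : w = u
        · subst hw
          by_cases hpr : p = r ∧ q = t
          · rw [if_pos ⟨rfl, hpr.1, hpr.2⟩, if_pos rfl, if_pos hpr, hpr.1, hpr.2]
            simp
          · rw [if_neg (fun hcon => hpr ⟨hcon.2.1, hcon.2.2⟩), if_pos rfl, if_neg hpr]
            simp
        · rw [if_neg (fun hcon => hw hcon.1), if_neg hw]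
          simp
      rw [h3] at h2
      exact h2.unique (hasSum_ite_eq u _)
    have h2 : ∑ p ∈ s, T (∑ q ∈ s, hpq p q) = ∑ p ∈ s, ∑ q ∈ s, if p = r ∧ q = t then gam r t u else 0 := by
      refine Finset.sum_congr rfl fun p hp => ?_
      rw [map_sum]
      exact Finset.sum_congr rfl fun q hq => h1 p hp q hq
    rw [h2, ← hgam' r t hr ht u]
    rw [Finset.sum_eq_single_of_mem r hr, Finset.sum_eq_single_of_mem t ht]
    · rw [if_pos ⟨rfl, rfl⟩]
    · intro q _ hq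
      rw [if_neg (fun hcon => hq hcon.2)]
    · intro p _ hp
      refine Finset.sum_eq_zero fun q _ => ?_
      rw [if_neg (fun hcon => hp hcon.1)]
  -- equality on the span
  have hspan : ∀ x ∈ Submodule.span ℂ (ccGens s), ∀ hx : x ∈ A0 s,
      φ ⟨x, hx⟩ = ⟪oneh s, lamb (x * h) (oneh s)⟫_ℂ := by
    intro x hx
    induction hx using Submodule.span_induction with
    | mem x hx =>
      intro hx'
      obtain ⟨w, p, hp, q, hq, rfl⟩ := hx
      exact hgen w p q hp hq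
    | zero =>
      intro hx'
      have : (⟨0, hx'⟩ : A0 s) = 0 := rfl
      rw [this, map_zero, zero_mul, lamb_zero, ContinuousLinearMap.zero_apply, inner_zero_right]
    | add x y hx hy ihx ihy =>
      intro hxy
      have h1 : (⟨x + y, hxy⟩ : A0 s) = ⟨x, span_le_A0 hx⟩ + ⟨y, span_le_A0 hy⟩ := rfl
      rw [h1, map_add, ihx (span_le_A0 hx), ihy (span_le_A0 hy), add_mul, lamb_add,
        ContinuousLinearMap.add_apply, inner_add_right]
    | smul z x hx ihx =>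
      intro hxy
      have h1 : (⟨z • x, hxy⟩ : A0 s) = z • ⟨x, span_le_A0 hx⟩ := rfl
      rw [h1, map_smul, ihx (span_le_A0 hx), smul_mul_assoc, lamb_smul,
        ContinuousLinearMap.smul_apply, inner_smul_right, smul_eq_mul]
  -- equality on the closure
  intro x
  obtain ⟨C, hC⟩ : ∃ C : ℝ, C = |B| + ‖oneh s‖ * ‖h‖ * ‖oneh s‖ := ⟨_, rfl⟩
  have hC0 : 0 ≤ C := by rw [hC]; positivity
  have hbound : ∀ ε : ℝ, 0 < ε → ‖φ x - ⟪oneh s, lamb ((x : BH) * h) (oneh s)⟫_ℂ‖ ≤ C * ε := by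
    intro ε hε
    have hx : (x : BH) ∈ closure ((Submodule.span ℂ (ccGens s) : Submodule ℂ BH) : Set BH) := x.2
    obtain ⟨y, hy, hxy⟩ := Metric.mem_closure_iff.1 hx ε hε
    have hyA : y ∈ A0 s := span_le_A0 hy
    have h1 := hspan y hy hyA
    have h2 : φ x - ⟪oneh s, lamb ((x : BH) * h) (oneh s)⟫_ℂ =
        φ (x - ⟨y, hyA⟩) - ⟪oneh s, lamb (((x : BH) - y) * h) (oneh s)⟫_ℂ := by
      rw [map_sub, h1, sub_mul, lamb_sub, ContinuousLinearMap.sub_apply, inner_sub_right]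
      ring
    rw [h2]
    have hd : ‖(x : BH) - y‖ ≤ ε := by
      rw [← dist_eq_norm]
      exact hxy.le
    have h3 : ‖φ (x - ⟨y, hyA⟩)‖ ≤ |B| * ε := by
      refine (hφ _).trans ?_
      have h4 : ((x - ⟨y, hyA⟩ : A0 s) : BH) = (x : BH) - y := rfl
      rw [h4]
      calc B * ‖(x : BH) - y‖ ≤ |B| * ‖(x : BH) - y‖ :=
            mul_le_mul_of_nonneg_right (le_abs_self _) (norm_nonneg _)
        _ ≤ |B| * ε := mul_le_mul_of_nonneg_left hd (abs_nonneg _)
    have h5 : ‖⟪oneh s, lamb (((x : BH) - y) * h) (oneh s)⟫_ℂ‖ ≤ ‖oneh s‖ * ‖h‖ * ‖oneh s‖ * ε := by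
      refine (norm_inner_le_norm _ _).trans ?_
      have h6 : ‖lamb (((x : BH) - y) * h) (oneh s)‖ ≤ (ε * ‖h‖) * ‖oneh s‖ := by
        refine (ContinuousLinearMap.le_opNorm _ _).trans ?_
        rw [norm_lamb]
        refine mul_le_mul_of_nonneg_right ((norm_mul_le _ _).trans ?_) (norm_nonneg _)
        exact mul_le_mul_of_nonneg_right hd (norm_nonneg _)
      calc ‖oneh s‖ * ‖lamb (((x : BH) - y) * h) (oneh s)‖ ≤ ‖oneh s‖ * ((ε * ‖h‖) * ‖oneh s‖) :=
            mul_le_mul_of_nonneg_left h6 (norm_nonneg _)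
        _ = ‖oneh s‖ * ‖h‖ * ‖oneh s‖ * ε := by ring
    calc _ ≤ ‖φ (x - ⟨y, hyA⟩)‖ + ‖⟪oneh s, lamb (((x : BH) - y) * h) (oneh s)⟫_ℂ‖ := norm_sub_le _ _
      _ ≤ |B| * ε + ‖oneh s‖ * ‖h‖ * ‖oneh s‖ * ε := add_le_add h3 h5
      _ = C * ε := by rw [hC]; ring
  have hzero : ‖φ x - ⟪oneh s, lamb ((x : BH) * h) (oneh s)⟫_ℂ‖ ≤ 0 := by
    refine le_of_forall_pos_le_add fun δ hδ => ?_
    have h1 := hbound (δ / (C + 1)) (by positivity)
    rw [zero_add]
    refine h1.trans ?_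
    rw [mul_div_assoc', div_le_iff₀ (by positivity)]
    nlinarith
  exact sub_eq_zero.1 (norm_le_zero_iff.1 hzero)

end OE
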