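import Mathlib
import Pool.Agent.Work.MP_06ef15_an.JH

/-!
# Block J, (7.7): positivity of the density   (size M)

`density_nonneg`.  For `y ∈ span`, `y = star x`: `⟪lamb y 1^, lamb h (lamb y 1^)⟫ = ⟪1^, lamb (x * h * star x) 1^⟫ =
⟪1^, lamb (star x * x * h) 1^⟫ ≥ 0` (`tr_comm`).  By `dense_hat` `⟪ξ, lamb h ξ⟫ ≥ 0` for `ξ` in the range of `lamb (Pi s) rho (Pi s)`;
apply this to `ξ = e`-type vectors `emb q η` with `η = Pi s η`, `q ∈ s` (needs `s` non-empty): `⟪η, h η⟫ ≥ 0` for `η = Pi s η`,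
and `h = Pi s * h * Pi s` gives `0 ≤ h`.
-/

set_option autoImplicit false

open scoped ComplexConjugate InnerProductSpace Classical
open ContinuousLinearMap (adjoint)

namespace OE

variable {s : Finset Q}

/-- the property of being a non-negative real number -/
private def jibP (z : ℂ) : Prop := z.im = 0 ∧ 0 ≤ z.re

private theorem jib_closed : IsClosed {z : ℂ | jibP z} :=
  (isClosed_eq Complex.continuous_im continuous_const).inter
    (isClosed_le continuous_const Complex.continuous_re)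

private theorem jib_span {h : BH} (hh : h ∈ A0 s)
    (hpos : ∀ x ∈ A0 s, ∃ r : ℝ, 0 ≤ r ∧ ⟪oneh s, lamb (star x * x * h) (oneh s)⟫_ℂ = (r : ℂ))
    {y : BH} (hy : y ∈ Submodule.span ℂ (ccGens s)) :
    jibP ⟪lamb y (oneh s), lamb h (lamb y (oneh s))⟫_ℂ := by
  have hyA : y ∈ A0 s := span_le_A0 hy
  have hsy : star y ∈ A0 s := A0_star_mem hyA
  obtain ⟨r, hr, h1⟩ := hpos (star y) hsy
  rw [star_star, mul_assoc, tr_comm (A0_le_CC hyA) (A0_le_CC (A0_mul_mem hsy hh))] at h1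
  have h2 : ⟪lamb y (oneh s), lamb h (lamb y (oneh s))⟫_ℂ =
      ⟪oneh s, lamb (star y * h * y) (oneh s)⟫_ℂ := by
    rw [lamb_mul, lamb_mul, lamb_star, ContinuousLinearMap.star_eq_adjoint]
    show _ = ⟪oneh s, adjoint (lamb y) (lamb h (lamb y (oneh s)))⟫_ℂ
    rw [ContinuousLinearMap.adjoint_inner_right]
  rw [h2, h1]
  exact ⟨Complex.ofReal_im r, by rw [Complex.ofReal_re]; exact hr⟩

private theorem jib_emb {h : BH} (hh : h ∈ A0 s)
    (hpos : ∀ x ∈ A0 s, ∃ r : ℝ, 0 ≤ r ∧ ⟪oneh s, lamb (star x * x * h) (oneh s)⟫_ℂ = (r : ℂ))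
    (ξ : HH) : jibP ⟪lamb (Pi s) (rho (Pi s) ξ), lamb h (lamb (Pi s) (rho (Pi s) ξ))⟫_ℂ := by
  have hcl : IsClosed {ξ : HH | jibP ⟪ξ, lamb h ξ⟫_ℂ} :=
    jib_closed.preimage (continuous_id.inner (lamb h).continuous)
  refine hcl.closure_subset_iff.2 ?_ (dense_hat ξ)
  rintro _ ⟨y, hy, rfl⟩
  exact jib_span hh hpos hy

private theorem jib_Pi {h : BH} (hh : h ∈ A0 s)
    (hpos : ∀ x ∈ A0 s, ∃ r : ℝ, 0 ≤ r ∧ ⟪oneh s, lamb (star x * x * h) (oneh s)⟫_ℂ = (r : ℂ))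
    {q : Q} (hq : q ∈ s) (η : H Idx) : jibP ⟪Pi s η, h (Pi s η)⟫_ℂ := by
  have h1 := jib_emb hh hpos (emb q η)
  have h2 : rho (Pi s) (emb q η) = emb q η := by
    rw [rho_Pi, pr_eq_self_iff]
    intro i hi
    rw [emb_apply, if_neg]
    intro h3
    exact hi (by show i.2 ∈ s; rw [h3]; exact hq)
  have h3 : ∀ (a : BH) (x : H Idx), lamb a (emb q x) = emb q (a x) := fun a x => amp_emb a q x
  rw [h2, h3, h3, inner_emb_emb, if_pos rfl] at h1
  exact h1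

theorem density_nonneg (hs : s.Nonempty) {h : BH} (hh : h ∈ A0 s)
    (hpos : ∀ x ∈ A0 s, ∃ r : ℝ, 0 ≤ r ∧ ⟪oneh s, lamb (star x * x * h) (oneh s)⟫_ℂ = (r : ℂ)) : 0 ≤ h := by
  obtain ⟨q, hq⟩ := hs
  have h1 : ∀ η : H Idx, jibP ⟪η, h η⟫_ℂ := by
    intro η
    have h2 := jib_Pi hh hpos hq η
    have h3 : h (Pi s η) = h η := by
      conv_rhs => rw [← A0_mul_Pi hh]
      rfl
    have h4 : ⟪Pi s η, h η⟫_ℂ = ⟪η, h η⟫_ℂ := by
      have h5 : Pi s (h η) = h η := by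
        conv_rhs => rw [← Pi_mul_A0 hh]
        rfl
      have h6 : ⟪adjoint (Pi s) η, h η⟫_ℂ = ⟪η, Pi s (h η)⟫_ℂ :=
        ContinuousLinearMap.adjoint_inner_left _ _ _
      rw [← ContinuousLinearMap.star_eq_adjoint, star_Pi, h5] at h6
      exact h6
    rw [h3, h4] at h2
    exact h2
  rw [ContinuousLinearMap.nonneg_iff_isPositive, ContinuousLinearMap.isPositive_iff_complex]
  intro η
  obtain ⟨h2, h3⟩ := h1 η
  have h4 : ⟪h η, η⟫_ℂ = (((⟪η, h η⟫_ℂ).re : ℝ) : ℂ) := by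
    rw [← inner_conj_symm]
    apply Complex.ext
    · rw [Complex.conj_re, Complex.ofReal_re]
    · rw [Complex.conj_im, Complex.ofReal_im, h2, neg_zero]
  rw [h4]
  refine ⟨?_, ?_⟩
  · simp
  · simpa using h3

end OE
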