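import Mathlib
import Pool.Agent.Work.MP_06ef15_an.AN0

/-!
# Block J: the Wick words `Wt w` in `A`, normal ordering   (size M)

`Wo w = ∑_{j ≤ |w|} Yc(w_1) .. Yc(w_j) Ya(w_{j+1}) .. Ya(w_r)`.
`Ya_mul_Yc`: from `star_Yc_mul_Yc` and `star_Yc` (`Ya t k = star (Yc (bar t) k)`).
`Y_mul_Wo`: `Y = Yc + Ya`; `Yc a * (term j of Wo w) = term j+1 of Wo (a :: w)`; `Ya a * Ya-part (term 0)` is the term `0` of
`Wo (a :: w)`; for `j ≥ 1`, `w = b :: w'`: `Ya a * Yc b = [b = barL a]`.
`Wt_cons`: cases on `w` (`[]`: `Wt [a] = Y a.1 a.2`, `Wt [] = 1`).  `Wt_eq_Wo`: strong induction on the length.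
`Wt_mem_A`: `Y_mem` (file AN0).  `norm_Wt_le`: `Wo` is a sum of `|w| + 1` contractions (`norm_Yc_le`, `norm_Ya_le`).
`Wt_e_nil`: only the term `j = |w|` survives on `e ([],..)` (`Ya` kills it), `Yc` creates the letters `(t, k - n)` with the phase
`ch (xf v * dg1 t)`.
-/

set_option autoImplicit false

open scoped ComplexConjugate InnerProductSpace Classical
open ContinuousLinearMap (adjoint)

namespace OE

noncomputable def Ycw (w : W) : BH := (w.map (fun a => Yc a.1 a.2)).prod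

noncomputable def Yaw (w : W) : BH := (w.map (fun a => Ya a.1 a.2)).prod

noncomputable def Wo (w : W) : BH := ∑ j ∈ Finset.range (w.length + 1), Ycw (w.take j) * Yaw (w.drop j)

private theorem Ycw_nil : Ycw [] = 1 := rfl
private theorem Yaw_nil : Yaw [] = 1 := rfl
private theorem Ycw_cons (a : Lam) (w : W) : Ycw (a :: w) = Yc a.1 a.2 * Ycw w := by simp [Ycw]
private theorem Yaw_cons (a : Lam) (w : W) : Yaw (a :: w) = Ya a.1 a.2 * Yaw w := by simp [Yaw]

private theorem Wo_nil : Wo [] = 1 := by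
  simp [Wo, Ycw_nil, Yaw_nil]

private theorem Wo_cons (a : Lam) (w : W) :
    Wo (a :: w) = Yc a.1 a.2 * Wo w + Ya a.1 a.2 * Yaw w := by
  unfold Wo
  rw [List.length_cons, Finset.sum_range_succ', Finset.mul_sum]
  congr 1

theorem Ya_mul_Yc (t t' : T) (k k' : ℤ) : Ya t k * Yc t' k' = if t' = bar t ∧ k' = k then 1 else 0 := by
  have h := star_Yc_mul_Yc (bar t) k (t' := t') (k' := k')
  rw [star_Yc, bar_bar] at h
  rw [h]
  by_cases h1 : t' = bar t ∧ k' = k
  · rw [if_pos h1, if_pos ⟨h1.1.symm, h1.2.symm⟩]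
  · rw [if_neg h1, if_neg fun h2 => h1 ⟨h2.1.symm, h2.2.symm⟩]

private theorem Ya_mul_Wo (a : Lam) (w : W) :
    Ya a.1 a.2 * Wo w = Ya a.1 a.2 * Yaw w + (if w.head? = some (barL a) then Wo w.tail else 0) := by
  rcases w with _ | ⟨b, w⟩
  · rw [Wo_nil, Yaw_nil]
    simp
  · have h1 : Ya a.1 a.2 * Yc b.1 b.2 = if b = barL a then 1 else 0 := by
      rw [Ya_mul_Yc]
      by_cases h : b = barL a
      · rw [if_pos h, if_pos (by rw [h]; exact ⟨rfl, rfl⟩)]
      · rw [if_neg h, if_neg fun h2 => h (Prod.ext h2.1 h2.2)]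
    rw [Wo_cons, mul_add, ← mul_assoc, h1, add_comm, Yaw_cons]
    congr 1
    by_cases h : b = barL a
    · rw [if_pos h, if_pos (by rw [h]; rfl), one_mul]
      rfl
    · rw [if_neg h, if_neg (show ¬ (b :: w).head? = some (barL a) from
        fun h2 => h (Option.some.inj h2)), zero_mul]

theorem Y_mul_Wo (a : Lam) (w : W) :
    Y a.1 a.2 * Wo w = Wo (a :: w) + (if w.head? = some (barL a) then Wo w.tail else 0) := by
  rw [Wo_cons, add_assoc, ← Ya_mul_Wo, Y, add_mul]

theorem Wt_cons (a : Lam) (w : W) :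
    Wt (a :: w) = Y a.1 a.2 * Wt w - (if w.head? = some (barL a) then Wt w.tail else 0) := by
  rcases w with _ | ⟨b, w⟩
  · simp [Wt]
  · rw [Wt]
    congr 1
    by_cases h : b = (bar a.1, a.2)
    · rw [if_pos h, if_pos (by rw [h]; rfl)]
      rfl
    · rw [if_neg h, if_neg (show ¬ (b :: w).head? = some (barL a) from
        fun h2 => h (Option.some.inj h2))]

private theorem Wt_nil : Wt [] = 1 := by rw [Wt]

private theorem Wt_eq_Wo_aux (N : ℕ) : ∀ w : W, w.length ≤ N → Wt w = Wo w := by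
  induction N with
  | zero =>
    intro w hw
    rw [List.length_eq_zero_iff.1 (Nat.le_zero.1 hw), Wt_nil, Wo_nil]
  | succ N ih =>
    intro w hw
    rcases w with _ | ⟨a, w⟩
    · rw [Wt_nil, Wo_nil]
    · have hw' : w.length ≤ N := by
        rw [List.length_cons] at hw
        omega
      have ht : w.tail.length ≤ N := by
        rw [List.length_tail]
        omega
      rw [Wt_cons, ih w hw', ih w.tail ht, Y_mul_Wo, add_sub_cancel_right]

theorem Wt_eq_Wo (w : W) : Wt w = Wo w := Wt_eq_Wo_aux w.length w le_rfl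

private theorem Wt_mem_aux (N : ℕ) : ∀ w : W, w.length ≤ N → Wt w ∈ A := by
  induction N with
  | zero =>
    intro w hw
    rw [List.length_eq_zero_iff.1 (Nat.le_zero.1 hw), Wt_nil]
    exact A.one_mem
  | succ N ih =>
    intro w hw
    rcases w with _ | ⟨a, w⟩
    · rw [Wt_nil]
      exact A.one_mem
    · have hw' : w.length ≤ N := by
        rw [List.length_cons] at hw
        omega
      have ht : w.tail.length ≤ N := by
        rw [List.length_tail]
        omega
      rw [Wt_cons]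
      refine A.sub_mem (A.mul_mem (Y_mem _ _) (ih w hw')) ?_
      split_ifs
      · exact ih _ ht
      · exact A.zero_mem

theorem Wt_mem_A (w : W) : Wt w ∈ A := Wt_mem_aux w.length w le_rfl

private theorem norm_Ycw_le (w : W) : ‖Ycw w‖ ≤ 1 := by
  induction w with
  | nil => rw [Ycw_nil]; exact ContinuousLinearMap.norm_id_le
  | cons a w ih =>
    rw [Ycw_cons]
    calc ‖Yc a.1 a.2 * Ycw w‖ ≤ ‖Yc a.1 a.2‖ * ‖Ycw w‖ := norm_mul_le _ _
      _ ≤ 1 * 1 := mul_le_mul (norm_Yc_le _ _) ih (norm_nonneg _) zero_le_one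
      _ = 1 := one_mul 1

private theorem norm_Yaw_le (w : W) : ‖Yaw w‖ ≤ 1 := by
  induction w with
  | nil => rw [Yaw_nil]; exact ContinuousLinearMap.norm_id_le
  | cons a w ih =>
    rw [Yaw_cons]
    calc ‖Ya a.1 a.2 * Yaw w‖ ≤ ‖Ya a.1 a.2‖ * ‖Yaw w‖ := norm_mul_le _ _
      _ ≤ 1 * 1 := mul_le_mul (norm_Ya_le _ _) ih (norm_nonneg _) zero_le_one
      _ = 1 := one_mul 1

theorem norm_Wt_le (w : W) : ‖Wt w‖ ≤ (w.length : ℝ) + 1 := by
  rw [Wt_eq_Wo, Wo]
  calc ‖∑ j ∈ Finset.range (w.length + 1), Ycw (w.take j) * Yaw (w.drop j)‖ ≤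
        ∑ j ∈ Finset.range (w.length + 1), ‖Ycw (w.take j) * Yaw (w.drop j)‖ := norm_sum_le _ _
    _ ≤ ∑ _j ∈ Finset.range (w.length + 1), (1 : ℝ) := by
        refine Finset.sum_le_sum fun j _ => ?_
        calc ‖Ycw (w.take j) * Yaw (w.drop j)‖ ≤ ‖Ycw (w.take j)‖ * ‖Yaw (w.drop j)‖ :=
              norm_mul_le _ _
          _ ≤ 1 * 1 := mul_le_mul (norm_Ycw_le _) (norm_Yaw_le _) (norm_nonneg _) zero_le_one
          _ = 1 := one_mul 1
    _ = (w.length : ℝ) + 1 := by
        rw [Finset.sum_const, Finset.card_range, nsmul_eq_mul, mul_one]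
        push_cast
        ring

private theorem Yaw_e_nil {u : W} (hu : u ≠ []) (v : V) (n : ℤ) (m : M) :
    Yaw u (e (([] : W), (v, (n, m)))) = 0 := by
  induction u with
  | nil => exact absurd rfl hu
  | cons a u ih =>
    rw [Yaw_cons]
    change Ya a.1 a.2 (Yaw u (e (([] : W), (v, (n, m))))) = 0
    by_cases h : u = []
    · subst h
      change Ya a.1 a.2 (e (([] : W), (v, (n, m)))) = 0
      exact Ya_e_nil _ _ _ _ _
    · rw [ih h, map_zero]

private theorem Ycw_e_nil (w : W) (v : V) (n : ℤ) (m : M) :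
    Ycw w (e (([] : W), (v, (n, m)))) = ch (xf v * dgw w) • e (sh (-n) w, (v, (n, m))) := by
  induction w with
  | nil =>
    rw [Ycw_nil, dgw_nil, mul_zero, ch_zero, one_smul, sh_nil]
    rfl
  | cons a w ih =>
    rw [Ycw_cons]
    change Yc a.1 a.2 (Ycw w (e (([] : W), (v, (n, m))))) = _
    rw [ih, map_smul, Yc_e, smul_smul, ← ch_add, dgw_cons, sh_cons, ← mul_add, add_comm (dgw w)]
    rfl

theorem Wt_e_nil (w : W) (v : V) (n : ℤ) (m : M) :
    Wt w (e (([] : W), (v, (n, m)))) = ch (xf v * dgw w) • e (sh (-n) w, (v, (n, m))) := by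
  rw [Wt_eq_Wo, Wo, Finset.sum_range_succ, add_apply]
  have h1 : (∑ j ∈ Finset.range w.length, Ycw (w.take j) * Yaw (w.drop j))
      (e (([] : W), (v, (n, m)))) = 0 := by
    rw [sum_apply]
    refine Finset.sum_eq_zero fun j hj => ?_
    rw [Finset.mem_range] at hj
    change Ycw (w.take j) (Yaw (w.drop j) (e (([] : W), (v, (n, m))))) = 0
    rw [Yaw_e_nil, map_zero]
    intro h
    rw [List.drop_eq_nil_iff] at h
    omega
  rw [h1, zero_add, List.take_length, List.drop_length, Yaw_nil, mul_one, Ycw_e_nil]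

end OE
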