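import Mathlib
import Pool.Agent.Work.MP_06ef15_an.AN0

/-!
# ZA (block Z, size S-M): finite combinations of basis vectors, norms of sums of orthogonal families

Pure `ℓ²` lemmas (tools of BA: `inner_e_e`, `norm_le_of_ortho`, `exists_mk`, `mk_e`, `norm_mk_le`, `ext_e`).
* `inner_sum_e_zero`: expand both sums (`sum_inner`, `inner_sum`, `inner_smul_left/right`, `inner_e_e`), all terms vanish.
* `norm_sq_sum_e`: `‖x‖^2 = re ⟪x,x⟫`, expand, only the diagonal survives because `ι` is injective on `S`.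
* `orthoBdd_sum_e`: from the two lemmas above (`‖x‖ ≤ C` from `‖x‖^2 ≤ C^2`, `0 ≤ C`; `abs_le_of_sq_le_sq'` or
  `pow_le_pow_left_iff`).
* `norm_le_three`: `T = mk a + mk b + mk c` by `ext_e` and `mk_e`; then `norm_add₃_le` and `norm_mk_le`.
-/

set_option autoImplicit false

open scoped ComplexConjugate InnerProductSpace Classical

namespace OE

theorem inner_sum_e_zero {J P P' : Type} (S : Finset P) (S' : Finset P') (c : P → ℂ) (c' : P' → ℂ)
    (ι : P → J) (ι' : P' → J) (h : ∀ p ∈ S, ∀ p' ∈ S', ι p ≠ ι' p') :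
    ⟪∑ p ∈ S, c p • e (ι p), ∑ p ∈ S', c' p • e (ι' p)⟫_ℂ = 0 := by
  rw [sum_inner]
  refine Finset.sum_eq_zero fun p hp => ?_
  rw [inner_sum]
  refine Finset.sum_eq_zero fun p' hp' => ?_
  rw [inner_smul_left, inner_smul_right, inner_e_e, if_neg (h p hp p' hp'), mul_zero, mul_zero]

theorem norm_sq_sum_e {J P : Type} (S : Finset P) (c : P → ℂ) (ι : P → J)
    (h : ∀ p ∈ S, ∀ p' ∈ S, ι p = ι p' → p = p') :
    ‖∑ p ∈ S, c p • e (ι p)‖ ^ 2 = ∑ p ∈ S, ‖c p‖ ^ 2 := by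
  have h1 : ((‖∑ p ∈ S, c p • e (ι p)‖ ^ 2 : ℝ) : ℂ) = ((∑ p ∈ S, ‖c p‖ ^ 2 : ℝ) : ℂ) := by
    have h2 := inner_self_eq_norm_sq_to_K (𝕜 := ℂ) (∑ p ∈ S, c p • e (ι p))
    have h3 : ((‖∑ p ∈ S, c p • e (ι p)‖ ^ 2 : ℝ) : ℂ) =
        ⟪∑ p ∈ S, c p • e (ι p), ∑ p ∈ S, c p • e (ι p)⟫_ℂ := by
      rw [h2]
      push_cast
      rfl
    rw [h3, sum_inner]
    push_cast
    refine Finset.sum_congr rfl fun p hp => ?_
    rw [inner_sum, Finset.sum_eq_single p]
    · rw [inner_smul_left, inner_smul_right, inner_e_e, if_pos rfl, mul_one]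
      exact Complex.conj_mul' _
    · intro p' hp' hne
      rw [inner_smul_left, inner_smul_right, inner_e_e, if_neg, mul_zero, mul_zero]
      intro h4
      exact hne (h p hp p' hp' h4).symm
    · intro h4
      exact absurd hp h4
  exact_mod_cast h1

theorem orthoBdd_sum_e {I J P : Type} (S : I → Finset P) (c : I → P → ℂ) (ι : I → P → J) {C : ℝ} (hC : 0 ≤ C)
    (hinj : ∀ x x' p p', p ∈ S x → p' ∈ S x' → ι x p = ι x' p' → x = x' ∧ p = p')
    (hc : ∀ x, ∑ p ∈ S x, ‖c x p‖ ^ 2 ≤ C ^ 2) :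
    OrthoBdd (fun x => ∑ p ∈ S x, c x p • e (ι x p)) C := by
  refine ⟨hC, fun x x' hne => ?_, fun x => ?_⟩
  · exact inner_sum_e_zero _ _ _ _ _ _ fun p hp p' hp' h => hne (hinj x x' p p' hp hp' h).1
  · have h1 := norm_sq_sum_e (S x) (c x) (ι x) fun p hp p' hp' h => (hinj x x p p' hp hp' h).2
    have h2 : ‖∑ p ∈ S x, c x p • e (ι x p)‖ ^ 2 ≤ C ^ 2 := by
      rw [h1]
      exact hc x
    exact (pow_le_pow_iff_left₀ (norm_nonneg _) hC two_ne_zero).1 h2

theorem norm_le_three {I J : Type} (T : H I →L[ℂ] H J) (a b c : I → H J) {α β γ : ℝ}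
    (ha : OrthoBdd a α) (hb : OrthoBdd b β) (hc : OrthoBdd c γ) (h : ∀ i, T (e i) = a i + b i + c i) :
    ‖T‖ ≤ α + β + γ := by
  have h1 : T = mk a + mk b + mk c := by
    refine ext_e fun i => ?_
    rw [add_apply, add_apply, mk_e ha, mk_e hb, mk_e hc, h]
  rw [h1]
  refine norm_add₃_le.trans ?_
  have h2 := norm_mk_le ha
  have h3 := norm_mk_le hb
  have h4 := norm_mk_le hc
  linarith

theorem norm_le_two {I J : Type} (T : H I →L[ℂ] H J) (a b : I → H J) {α β : ℝ}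
    (ha : OrthoBdd a α) (hb : OrthoBdd b β) (h : ∀ i, T (e i) = a i + b i) :
    ‖T‖ ≤ α + β := by
  have h1 : T = mk a + mk b := by
    refine ext_e fun i => ?_
    rw [add_apply, mk_e ha, mk_e hb, h]
  rw [h1]
  refine (norm_add_le _ _).trans ?_
  have h2 := norm_mk_le ha
  have h3 := norm_mk_le hb
  linarith

theorem orthoBdd_neg {I J : Type} {a : I → H J} {α : ℝ} (ha : OrthoBdd a α) : OrthoBdd (fun i => -a i) α := by
  refine ⟨ha.1, fun i j hij => ?_, fun i => ?_⟩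
  · rw [inner_neg_left, inner_neg_right, ha.2.1 i j hij, neg_zero, neg_zero]
  · rw [norm_neg]
    exact ha.2.2 i

/-- images of an orthogonal bounded family under a contraction that preserves inner products. -/
theorem orthoBdd_map {I J J' : Type} {a : I → H J} {α : ℝ} (ha : OrthoBdd a α) (U : H J →L[ℂ] H J')
    (hU : ∀ x y : H J, ⟪U x, U y⟫_ℂ = ⟪x, y⟫_ℂ) : OrthoBdd (fun i => U (a i)) α := by
  refine ⟨ha.1, fun i j hij => ?_, fun i => ?_⟩
  · rw [hU, ha.2.1 i j hij]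
  · have h1 : ‖U (a i)‖ = ‖a i‖ := by
      have h2 : ((‖U (a i)‖ ^ 2 : ℝ) : ℂ) = ((‖a i‖ ^ 2 : ℝ) : ℂ) := by
        have h3 := hU (a i) (a i)
        rw [inner_self_eq_norm_sq_to_K, inner_self_eq_norm_sq_to_K] at h3
        push_cast
        exact h3
      have h4 : ‖U (a i)‖ ^ 2 = ‖a i‖ ^ 2 := by exact_mod_cast h2
      exact (pow_left_inj₀ (norm_nonneg _) (norm_nonneg _) two_ne_zero).1 h4
    rw [h1]
    exact ha.2.2 i

end OE
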