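import Mathlib
import Pool.Agent.Work.MP_06ef15_an.AN0

/-!
# ZB (block Z, size M): the index map of the splitting isometry and the normalisation of the weights

`x = (w,(v,(n,m)))`, `p = (v', j1, j)`.  With `μ = dig j1 m`, `q = n - nn μ`, `zi x p` is
`((sh q (w.take j), v', nn μ, actM μ m1), (w.drop j, v - v', q, tl^[j1] m))`.

* `zi_inj`: from the 4th component of the first index `actM (dig j1 m) m1 = actM (dig j1' m') m1`, hence
  `dig j1 m = dig j1' m'` (`actM_m1_inj`), so `j1 = j1'` (`length_dig`), `tl^[j1] m = tl^[j1'] m'` gives `m = m'`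
  (`actM_dig`), `q = q'` gives `n = n'`, `v' = v''` and `v - v' = ..` give `v = ..`, `sh_injective` gives equality of
  the `take`s, the `drop`s agree, so `w = take ++ drop` agrees, and `j = (w.take j).length` because `j ≤ w.length`.
* `sum_zS`: `Finset.sum_product` twice.
* `zal_sq`: `Real.rpow` with exponent `-1/2`: `(a ^ (-(1/2))) ^ 2 = a⁻¹` for `a > 0` (`card_VFin_pos`, `hL`).
* `sum_zcoef`: `‖(r:ℂ) * zph‖ = |r|` (`norm_zph`), `sum_zS`, for fixed `v', j1` the inner sum is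
  `zal^2 * ∑ j, f w q j ^2 = zal^2` (`hf.sum`), so the total is `zal^2 * card * L = 1`.
* `sum_zcoef_le`: the same computation with a bound: if for every `q` of the form `n - nn (dig j1 m)`, `j1 < L`, the
  inner sum of `F` is `≤ ε^2` then the total is `≤ ε^2`.
-/

set_option autoImplicit false

open scoped ComplexConjugate InnerProductSpace Classical

namespace OE

/-- parameters `(v', j1, j)`. -/
abbrev ZP : Type := V × ℕ × ℕ

/-- the output index. -/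
noncomputable def zi (x : Idx) (p : ZP) : Idx × Idx :=
  ((sh (x.2.2.1 - nn (dig p.2.1 x.2.2.2)) (x.1.take p.2.2),
      (p.1, (nn (dig p.2.1 x.2.2.2), actM (dig p.2.1 x.2.2.2) m1))),
   (x.1.drop p.2.2, (x.2.1 - p.1, (x.2.2.1 - nn (dig p.2.1 x.2.2.2), tl^[p.2.1] x.2.2.2))))

/-- normalisation constant. -/
noncomputable def zal (k L : ℕ) : ℝ := ((VFin k).card : ℝ) ^ (-(1 / 2 : ℝ)) * (L : ℝ) ^ (-(1 / 2 : ℝ))

/-- the phase. -/
noncomputable def zph (x : Idx) (p : ZP) : ℂ :=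
  ch (-bf p.1 (x.2.1 - p.1) - xf (x.2.1 - p.1) * dgw (x.1.take p.2.2))

/-- the parameter set. -/
noncomputable def zS (k L : ℕ) (w : W) : Finset ZP :=
  VFin k ×ˢ (Finset.range L ×ˢ Finset.range (w.length + 1))

theorem mem_zS {k L : ℕ} {w : W} {p : ZP} : p ∈ zS k L w ↔ p.1 ∈ VFin k ∧ p.2.1 < L ∧ p.2.2 ≤ w.length := by
  unfold zS
  rw [Finset.mem_product, Finset.mem_product, Finset.mem_range, Finset.mem_range, Nat.lt_succ_iff]

theorem zi_inj {x x' : Idx} {p p' : ZP} (hp : p.2.2 ≤ x.1.length) (hp' : p'.2.2 ≤ x'.1.length)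
    (h : zi x p = zi x' p') : x = x' ∧ p = p' := by
  obtain ⟨w, v, n, m⟩ := x
  obtain ⟨w', v', n', m'⟩ := x'
  obtain ⟨a, i, j⟩ := p
  obtain ⟨a', i', j'⟩ := p'
  simp only [zi, Prod.mk.injEq] at h hp hp'
  obtain ⟨⟨h1, h2, h3, h4⟩, h5, h6, h7, h8⟩ := h
  have h9 : dig i m = dig i' m' := actM_m1_inj h4
  have hi : i = i' := by
    have := congrArg List.length h9
    rwa [length_dig, length_dig] at this
  subst hi
  have hm : m = m' := by
    rw [← actM_dig i m, h9, h8, actM_dig]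
  subst hm
  have hn : n = n' := by
    have := h7
    linarith
  subst hn
  subst h2
  have hv : v = v' := by
    have := congrArg (fun z => z + a) h6
    simpa using this
  subst hv
  have h10 : w.take j = w'.take j' := sh_injective _ h1
  have hw : w = w' := by
    rw [← List.take_append_drop j w, h10, h5, List.take_append_drop]
  subst hw
  have hj : j = j' := by
    have := congrArg List.length h10
    rw [List.length_take, List.length_take, min_eq_left hp, min_eq_left hp'] at this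
    exact this
  subst hj
  exact ⟨rfl, rfl⟩

theorem zal_nonneg (k L : ℕ) : 0 ≤ zal k L := by
  unfold zal
  positivity

private theorem rpow_half_sq {a : ℝ} (ha : 0 < a) : (a ^ (-(1 / 2 : ℝ))) ^ 2 = a⁻¹ := by
  rw [← Real.rpow_natCast, ← Real.rpow_mul ha.le, ← Real.rpow_neg_one]
  norm_num

theorem zal_sq (k : ℕ) {L : ℕ} (hL : 0 < L) : zal k L ^ 2 * ((VFin k).card * (L : ℝ)) = 1 := by
  have h1 : (0 : ℝ) < ((VFin k).card : ℝ) := by exact_mod_cast card_VFin_pos k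
  have h2 : (0 : ℝ) < (L : ℝ) := by exact_mod_cast hL
  unfold zal
  rw [mul_pow, rpow_half_sq h1, rpow_half_sq h2]
  field_simp

theorem sum_zS {E : Type*} [AddCommMonoid E] (k L : ℕ) (w : W) (F : ZP → E) :
    ∑ p ∈ zS k L w, F p = ∑ v' ∈ VFin k, ∑ j1 ∈ Finset.range L, ∑ j ∈ Finset.range (w.length + 1), F (v', (j1, j)) := by
  unfold zS
  rw [Finset.sum_product]
  refine Finset.sum_congr rfl fun v' _ => ?_
  rw [Finset.sum_product]

theorem norm_zph (x : Idx) (p : ZP) : ‖zph x p‖ = 1 := norm_ch _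

private theorem norm_coef (r : ℝ) {z : ℂ} (hz : ‖z‖ = 1) : ‖((r : ℝ) : ℂ) * z‖ ^ 2 = r ^ 2 := by
  rw [norm_mul, hz, mul_one, Complex.norm_real, Real.norm_eq_abs, sq_abs]

theorem sum_zcoef {k L : ℕ} {f : W → ℤ → ℕ → ℝ} (hL : 0 < L) (hf : IsWeight f) (x : Idx) :
    ∑ p ∈ zS k L x.1, ‖((zal k L * f x.1 (x.2.2.1 - nn (dig p.2.1 x.2.2.2)) p.2.2 : ℝ) : ℂ) * zph x p‖ ^ 2 = 1 := by
  rw [sum_zS]
  have h1 : ∀ v' ∈ VFin k, (∑ j1 ∈ Finset.range L, ∑ j ∈ Finset.range (x.1.length + 1),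
      ‖((zal k L * f x.1 (x.2.2.1 - nn (dig ((v', (j1, j)) : ZP).2.1 x.2.2.2)) ((v', (j1, j)) : ZP).2.2 : ℝ) : ℂ) *
        zph x (v', (j1, j))‖ ^ 2) = (L : ℝ) * zal k L ^ 2 := by
    intro v' _
    have h2 : ∀ j1 ∈ Finset.range L, (∑ j ∈ Finset.range (x.1.length + 1),
      ‖((zal k L * f x.1 (x.2.2.1 - nn (dig ((v', (j1, j)) : ZP).2.1 x.2.2.2)) ((v', (j1, j)) : ZP).2.2 : ℝ) : ℂ) *
        zph x (v', (j1, j))‖ ^ 2) = zal k L ^ 2 := by
      intro j1 _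
      have h3 : ∀ j ∈ Finset.range (x.1.length + 1),
        ‖((zal k L * f x.1 (x.2.2.1 - nn (dig ((v', (j1, j)) : ZP).2.1 x.2.2.2)) ((v', (j1, j)) : ZP).2.2 : ℝ) : ℂ) *
        zph x (v', (j1, j))‖ ^ 2 = zal k L ^ 2 * f x.1 (x.2.2.1 - nn (dig j1 x.2.2.2)) j ^ 2 := by
        intro j _
        rw [norm_coef _ (norm_zph x _), mul_pow]
      rw [Finset.sum_congr rfl h3, ← Finset.mul_sum, hf.sum, mul_one]
    rw [Finset.sum_congr rfl h2, Finset.sum_const, Finset.card_range, nsmul_eq_mul]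
  rw [Finset.sum_congr rfl h1, Finset.sum_const, nsmul_eq_mul, ← zal_sq k hL]
  ring

/-- general bound: coefficients `zal * F j1 j` times a phase `θ`. -/
theorem sum_zcoef_le {k L : ℕ} (hL : 0 < L) (N : ℕ) (F : ℕ → ℕ → ℝ) (θ : ZP → ℂ) (hθ : ∀ p, ‖θ p‖ = 1) {ε : ℝ}
    (h : ∀ j1 < L, ∑ j ∈ Finset.range N, F j1 j ^ 2 ≤ ε ^ 2) :
    ∑ p ∈ VFin k ×ˢ (Finset.range L ×ˢ Finset.range N), ‖((zal k L * F p.2.1 p.2.2 : ℝ) : ℂ) * θ p‖ ^ 2 ≤ ε ^ 2 := by
  rw [Finset.sum_product]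
  have h1 : ∀ v' ∈ VFin k, (∑ y ∈ Finset.range L ×ˢ Finset.range N,
      ‖((zal k L * F ((v', y) : ZP).2.1 ((v', y) : ZP).2.2 : ℝ) : ℂ) * θ (v', y)‖ ^ 2) ≤ (L : ℝ) * (zal k L ^ 2 * ε ^ 2) := by
    intro v' _
    rw [Finset.sum_product]
    have h2 : ∀ j1 ∈ Finset.range L, (∑ j ∈ Finset.range N,
      ‖((zal k L * F ((v', (j1, j)) : ZP).2.1 ((v', (j1, j)) : ZP).2.2 : ℝ) : ℂ) * θ (v', (j1, j))‖ ^ 2) ≤
        zal k L ^ 2 * ε ^ 2 := by
      intro j1 hj1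
      have h3 : ∀ j ∈ Finset.range N,
        ‖((zal k L * F ((v', (j1, j)) : ZP).2.1 ((v', (j1, j)) : ZP).2.2 : ℝ) : ℂ) * θ (v', (j1, j))‖ ^ 2 =
          zal k L ^ 2 * F j1 j ^ 2 := by
        intro j _
        rw [norm_coef _ (hθ _), mul_pow]
      rw [Finset.sum_congr rfl h3, ← Finset.mul_sum]
      exact mul_le_mul_of_nonneg_left (h j1 (Finset.mem_range.1 hj1)) (sq_nonneg _)
    refine (Finset.sum_le_sum h2).trans ?_
    rw [Finset.sum_const, Finset.card_range, nsmul_eq_mul]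
  refine (Finset.sum_le_sum h1).trans ?_
  rw [Finset.sum_const, nsmul_eq_mul]
  have h4 := zal_sq k hL
  have h5 : ((VFin k).card : ℝ) * ((L : ℝ) * (zal k L ^ 2 * ε ^ 2)) =
      (zal k L ^ 2 * ((VFin k).card * (L : ℝ))) * ε ^ 2 := by ring
  rw [h5, h4, one_mul]

/-- the same for one value of `j1`: the total is at most `1 / L` times the bound. -/
theorem sum_zcoef_one {k L : ℕ} (hL : 0 < L) (N : ℕ) (F : ℕ → ℝ) (θ : V × ℕ → ℂ) (hθ : ∀ p, ‖θ p‖ = 1)
    (h : ∑ j ∈ Finset.range N, F j ^ 2 ≤ 1) :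
    ∑ p ∈ VFin k ×ˢ Finset.range N, ‖((zal k L * F p.2 : ℝ) : ℂ) * θ p‖ ^ 2 ≤ ((L : ℝ) ^ (-(1 / 2 : ℝ))) ^ 2 := by
  have hL' : (0 : ℝ) < (L : ℝ) := by exact_mod_cast hL
  have h1 : (0 : ℝ) < ((VFin k).card : ℝ) := by exact_mod_cast card_VFin_pos k
  rw [Finset.sum_product]
  have h2 : ∀ v' ∈ VFin k, (∑ y ∈ Finset.range N,
      ‖((zal k L * F ((v', y) : V × ℕ).2 : ℝ) : ℂ) * θ (v', y)‖ ^ 2) ≤ zal k L ^ 2 := by
    intro v' _
    have h3 : ∀ j ∈ Finset.range N,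
      ‖((zal k L * F ((v', j) : V × ℕ).2 : ℝ) : ℂ) * θ (v', j)‖ ^ 2 = zal k L ^ 2 * F j ^ 2 := by
      intro j _
      rw [norm_coef _ (hθ _), mul_pow]
    rw [Finset.sum_congr rfl h3, ← Finset.mul_sum]
    calc zal k L ^ 2 * ∑ j ∈ Finset.range N, F j ^ 2 ≤ zal k L ^ 2 * 1 :=
          mul_le_mul_of_nonneg_left h (sq_nonneg _)
      _ = zal k L ^ 2 := mul_one _
  refine (Finset.sum_le_sum h2).trans ?_
  rw [Finset.sum_const, nsmul_eq_mul, rpow_half_sq hL']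
  have h4 := zal_sq k hL
  have h5 : ((VFin k).card : ℝ) * zal k L ^ 2 = (L : ℝ)⁻¹ := by
    field_simp
    linarith
  exact h5.le

end OE
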