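import Mathlib
import Pool.Agent.Work.MP_06ef15_an.ZA
import Pool.Agent.Work.MP_06ef15_an.ZB

/-!
# ZC (block Z, size M): `Zop` on basis vectors, `Zop` is an isometry

Put `ξ x = ∑ p ∈ zS k L x.1, c x p • e (zi x p)`, `c x p = (zal k L * f x.1 (x.2.2.1 - nn (dig p.2.1 x.2.2.2)) p.2.2) * zph x p`.
By `sum_zS` and `smul_smul` the family in the definition of `Zop` is `ξ` (unfold `Zop`, `zal`, `zph`, `zi`;
`Finset.sum_congr`).  `OrthoBdd ξ 1` by `orthoBdd_sum_e`, `zi_inj` (with `mem_zS`) and `sum_zcoef`.  Hence `mk_e` gives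
`Zop_e'`; `Zop_e` is its unfolded form.  `⟪ξ x, ξ x⟫ = 1` by `norm_sq_sum_e` and `sum_zcoef`
(`inner_self_eq_norm_sq_to_K`), `⟪ξ x, ξ y⟫ = 0` for `x ≠ y` by `inner_sum_e_zero`; so `isometry_of_ortho` and
`norm_isometry_of_ortho` (BA) give `Zop_inner`, `norm_Zop`.
-/

set_option autoImplicit false

open scoped ComplexConjugate InnerProductSpace Classical
open ContinuousLinearMap (adjoint)

namespace OE

private noncomputable def zxi (k L : ℕ) (f : W → ℤ → ℕ → ℝ) (x : Idx) : H (Idx × Idx) :=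
  ∑ p ∈ zS k L x.1,
    (((zal k L * f x.1 (x.2.2.1 - nn (dig p.2.1 x.2.2.2)) p.2.2 : ℝ) : ℂ) * zph x p) • e (zi x p)

private theorem Zop_eq (k L : ℕ) (f : W → ℤ → ℕ → ℝ) : Zop k L f = mk (zxi k L f) := by
  unfold Zop
  congr 1
  funext x
  unfold zxi
  rw [sum_zS]
  refine Finset.sum_congr rfl fun v' _ => Finset.sum_congr rfl fun j1 _ => Finset.sum_congr rfl fun j _ => ?_
  rw [smul_smul]
  rfl

private theorem zxi_inj {k L : ℕ} {x x' : Idx} {p p' : ZP} (hp : p ∈ zS k L x.1) (hp' : p' ∈ zS k L x'.1)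
    (h : zi x p = zi x' p') : x = x' ∧ p = p' :=
  zi_inj (mem_zS.1 hp).2.2 (mem_zS.1 hp').2.2 h

private theorem zxi_ob {k L : ℕ} {f : W → ℤ → ℕ → ℝ} (hL : 0 < L) (hf : IsWeight f) : OrthoBdd (zxi k L f) 1 :=
  orthoBdd_sum_e (fun x : Idx => zS k L x.1)
    (fun x p => ((zal k L * f x.1 (x.2.2.1 - nn (dig p.2.1 x.2.2.2)) p.2.2 : ℝ) : ℂ) * zph x p) zi zero_le_one
    (fun _ _ _ _ hp hp' h => zxi_inj hp hp' h) (fun x => by
      rw [one_pow]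
      exact (sum_zcoef hL hf x).le)

theorem Zop_e' {k L : ℕ} {f : W → ℤ → ℕ → ℝ} (hL : 0 < L) (hf : IsWeight f) (x : Idx) :
    Zop k L f (e x) = ∑ p ∈ zS k L x.1,
      (((zal k L * f x.1 (x.2.2.1 - nn (dig p.2.1 x.2.2.2)) p.2.2 : ℝ) : ℂ) * zph x p) • e (zi x p) := by
  rw [Zop_eq]
  exact mk_e (zxi_ob hL hf) x

/-- formula for `Z` on basis vectors. -/
theorem Zop_e {k L : ℕ} {f : W → ℤ → ℕ → ℝ} (hL : 0 < L) (hf : IsWeight f) (w : W) (v : V) (n : ℤ) (m : M) :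
    Zop k L f (e (w, (v, (n, m)))) =
    ∑ v' ∈ VFin k, ∑ j1 ∈ Finset.range L, ∑ j ∈ Finset.range (w.length + 1),
    ((((VFin k).card : ℝ) ^ (-(1 / 2 : ℝ)) * (L : ℝ) ^ (-(1 / 2 : ℝ)) * f w (n - nn (dig j1 m)) j : ℝ) : ℂ) •
    (ch (-bf v' (v - v') - xf (v - v') * dgw (w.take j)) •
      e (((sh (n - nn (dig j1 m)) (w.take j), (v', (nn (dig j1 m), actM (dig j1 m) m1))),
         (w.drop j, (v - v', (n - nn (dig j1 m), tl^[j1] m)))) : Idx × Idx)) := by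
  rw [Zop_e' hL hf, sum_zS]
  refine Finset.sum_congr rfl fun v' _ => Finset.sum_congr rfl fun j1 _ => Finset.sum_congr rfl fun j _ => ?_
  rw [smul_smul]
  rfl

private theorem Zop_inner_e {k L : ℕ} {f : W → ℤ → ℕ → ℝ} (hL : 0 < L) (hf : IsWeight f) (x y : Idx) :
    ⟪Zop k L f (e x), Zop k L f (e y)⟫_ℂ = if x = y then 1 else 0 := by
  rw [Zop_e' hL hf, Zop_e' hL hf]
  split_ifs with hxy
  · subst hxy
    have h1 := norm_sq_sum_e (zS k L x.1)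
      (fun p => ((zal k L * f x.1 (x.2.2.1 - nn (dig p.2.1 x.2.2.2)) p.2.2 : ℝ) : ℂ) * zph x p) (zi x)
      (fun p hp p' hp' h => (zxi_inj hp hp' h).2)
    have h2 := h1.trans (sum_zcoef hL hf x)
    rw [inner_self_eq_norm_sq_to_K]
    have h3 : ((‖∑ p ∈ zS k L x.1,
        (((zal k L * f x.1 (x.2.2.1 - nn (dig p.2.1 x.2.2.2)) p.2.2 : ℝ) : ℂ) * zph x p) • e (zi x p)‖ ^ 2 : ℝ) : ℂ)
          = 1 := by
      rw [h2, Complex.ofReal_one]
    rw [← h3]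
    push_cast
    rfl
  · exact inner_sum_e_zero _ _ _ _ _ _ fun p hp p' hp' h => hxy (zxi_inj hp hp' h).1

theorem Zop_inner {k L : ℕ} {f : W → ℤ → ℕ → ℝ} (hL : 0 < L) (hf : IsWeight f) (x y : H Idx) :
    ⟪Zop k L f x, Zop k L f y⟫_ℂ = ⟪x, y⟫_ℂ :=
  isometry_of_ortho (Zop k L f) (fun i j => (Zop_inner_e hL hf i j).trans (by split_ifs <;> rfl)) x y

theorem norm_Zop {k L : ℕ} {f : W → ℤ → ℕ → ℝ} (hL : 0 < L) (hf : IsWeight f) (x : H Idx) :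
    ‖Zop k L f x‖ = ‖x‖ :=
  norm_isometry_of_ortho (Zop k L f) (fun i j => (Zop_inner_e hL hf i j).trans (by split_ifs <;> rfl)) x

theorem norm_Zop_le {k L : ℕ} {f : W → ℤ → ℕ → ℝ} (hL : 0 < L) (hf : IsWeight f) : ‖Zop k L f‖ ≤ 1 :=
  ContinuousLinearMap.opNorm_le_bound _ zero_le_one fun x => by rw [norm_Zop hL hf, one_mul]

theorem adj_Zop_comp {k L : ℕ} {f : W → ℤ → ℕ → ℝ} (hL : 0 < L) (hf : IsWeight f) :
    (adjoint (Zop k L f)).comp (Zop k L f) = 1 := by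
  refine ContinuousLinearMap.ext fun x => ext_inner_left ℂ fun y => ?_
  change ⟪y, adjoint (Zop k L f) (Zop k L f x)⟫_ℂ = ⟪y, x⟫_ℂ
  rw [ContinuousLinearMap.adjoint_inner_right, Zop_inner hL hf]

end OE
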