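import Mathlib
import Pool.Agent.Work.MP_06ef15_an.ZC

/-!
# ZD (block Z, size M): (5.1) `Z` and `g u`, (5.2) `Z` and `S_b`

* `Zop_g` (exact for `u ∈ VF k`): `ext_e`, on `e (w,(v,(n,m)))`.  Left side: `ch (bf u v) • Z e(w,u+v,n,m)`.  In the sum
  over `v' ∈ VFin k` substitute `v' = u + v''` (`VFin k` is closed under adding `u` and `-u`: `mem_VFin`,
  `Finset.sum_bij'` or `Finset.sum_nbij'`); `u + v - (u + v'') = v - v''`.  Right side (`amp_e'`, `emb_e`, `g_e`):
  `∑ v'', .. ch (-bf v'' (v-v'') - ..) ch (bf u v'') e(.. u+v'' ..)`.  Phases: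
  `bf u v - bf (u+v'') (v-v'') = bf u v'' - bf v'' (v-v'')` by biadditivity (`bf_add_left`, `bf_sub_right`); the term
  `xf (v-v'') * dgw ..` is unchanged.
* `Zop_Sg`: `Z S_b e(w,v,n,m) = Z e(w,v,n + bn b, sM b m)`.  For `j1 = i+1`: `dig (i+1) (sM b m) = b :: dig i m`
  (`dig_succ_sM`), `nn (b :: ..) = bn b + nn ..`, so `n + bn b - nn (b :: dig i m) = n - nn (dig i m)`,
  `actM (b :: μ) m1 = sM b (actM μ m1)`, `tl^[i+1] (sM b m) = tl^[i] m`: this term is `amp S_b` of the term `j1 = i` of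
  `Z e(w,v,n,m)`.  So (`Finset.sum_range_succ'` for the first, `Finset.sum_range_succ` for the second, `L = L'+1`)
  the difference on `e x` is `a x + b x`, `a x` = the term `j1 = 0` of `Z S_b e x`, `b x` = minus `amp S_b` of the term
  `j1 = L-1` of `Z e x`.  Both families are orthogonal (`zi_inj`, `orthoBdd_sum_e` with parameters `(v',j) : V × ℕ`,
  `orthoBdd_map`/`orthoBdd_neg` for `amp S_b`, which preserves inner products because `star (Sg b) * Sg b = 1`) with norm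
  at most `L^(-1/2)` (`sum_zcoef_one` and `hf.sum`).  `norm_le_two`.
* `Zop_star_Sg`: with `b'` the other letter, `S_b^* S_b = 1`, `S_b^* S_b' = 0`, `S_b S_b^* + S_b' S_b'^* = 1`
  (`star_Sg_mul`, `Sg_sum`):
  `Z S_b^* - amp(S_b^*) Z = amp(S_b^*) (amp(S_b) Z - Z S_b) S_b^* - amp(S_b^*) (Z S_b' - amp(S_b') Z) S_b'^*`.
  (Expand with `Z = Z S_b S_b^* + Z S_b' S_b'^*`.)  Norm `≤ 2 L^(-1/2) + 2 L^(-1/2)` (`norm_Sg_le`, `norm_amp_le`).
-/

set_option autoImplicit false

open scoped ComplexConjugate InnerProductSpace Classical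
open ContinuousLinearMap (adjoint)

namespace OE

theorem Zop_g {k L : ℕ} {f : W → ℤ → ℕ → ℝ} (hL : 0 < L) (hf : IsWeight f) {u : V} (hu : u ∈ VF k) :
    (Zop k L f).comp (g u) = (amp Idx (g u)).comp (Zop k L f) := by
  refine ext_idx fun w v n m => ?_
  rw [ContinuousLinearMap.comp_apply, ContinuousLinearMap.comp_apply, g_e, map_smul, Zop_e hL hf,
    Zop_e hL hf, map_sum, Finset.smul_sum]
  refine (Finset.sum_equiv (Equiv.addLeft u) (fun i => ?_) (fun i _ => ?_)).symm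
  · rw [mem_VFin, mem_VFin, Equiv.coe_addLeft]
    exact (AddSubgroup.add_mem_cancel_left _ hu).symm
  · rw [Equiv.coe_addLeft, map_sum, Finset.smul_sum]
    refine Finset.sum_congr rfl fun j1 _ => ?_
    rw [map_sum, Finset.smul_sum]
    refine Finset.sum_congr rfl fun j _ => ?_
    rw [map_smul, map_smul, amp_e', g_e, map_smul, emb_e, add_sub_add_left_eq_sub,
      smul_comm (ch (bf u v)), smul_smul (ch _) (ch _), smul_smul (ch _) (ch _), ← ch_add, ← ch_add]
    congr 3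
    rw [bf_add_left, bf_sub_right u v i]
    ring

/-- `S_b` on indices. -/
private noncomputable def sx (b : Bool) (x : Idx) : Idx :=
  (x.1, (x.2.1, (x.2.2.1 + bn b, sM b x.2.2.2)))

private theorem sx_inj {b : Bool} {x y : Idx} (h : sx b x = sx b y) : x = y := by
  unfold sx at h
  simp only [Prod.mk.injEq, add_left_inj, sM_inj, true_and] at h
  exact Prod.ext h.1 (Prod.ext h.2.1 (Prod.ext h.2.2.1 h.2.2.2))

private noncomputable def tm (k L : ℕ) (f : W → ℤ → ℕ → ℝ) (b : Bool) (x : Idx) (i : ℕ) (p : V × ℕ) :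
    H (Idx × Idx) :=
  (((zal k L * f x.1 ((sx b x).2.2.1 - nn (dig i (sx b x).2.2.2)) p.2 : ℝ) : ℂ) *
    zph (sx b x) (p.1, (i, p.2))) • e (zi (sx b x) (p.1, (i, p.2)))

private theorem tm_ortho {k L : ℕ} {f : W → ℤ → ℕ → ℝ} (hL : 0 < L) (hf : IsWeight f) (b : Bool)
    (i : ℕ) : OrthoBdd (fun x : Idx => ∑ p ∈ VFin k ×ˢ Finset.range (x.1.length + 1),
      tm k L f b x i p) ((L : ℝ) ^ (-(1 / 2 : ℝ))) := by
  unfold tm
  refine orthoBdd_sum_e (fun x : Idx => VFin k ×ˢ Finset.range (x.1.length + 1)) _ _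
    (Real.rpow_nonneg (Nat.cast_nonneg L) _) ?_ ?_
  · intro x x' p p' hp hp' h
    rw [Finset.mem_product, Finset.mem_range] at hp hp'
    obtain ⟨h1, h2⟩ := zi_inj (x := sx b x) (x' := sx b x') (p := (p.1, (i, p.2)))
      (p' := (p'.1, (i, p'.2))) (Nat.lt_succ_iff.1 hp.2) (Nat.lt_succ_iff.1 hp'.2) h
    refine ⟨sx_inj h1, ?_⟩
    simp only [Prod.mk.injEq, true_and] at h2
    exact Prod.ext h2.1 h2.2
  · intro x
    refine sum_zcoef_one hL (x.1.length + 1)
      (fun j => f x.1 ((sx b x).2.2.1 - nn (dig i (sx b x).2.2.2)) j)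
      (fun p => zph (sx b x) (p.1, (i, p.2))) (fun p => norm_zph _ _) ?_
    exact (hf.sum _ _).le

private theorem key {k L : ℕ} {f : W → ℤ → ℕ → ℝ} (b : Bool) (x : Idx) (v' : V) (j1 j : ℕ) :
    (((zal k L * f x.1 (x.2.2.1 - nn (dig j1 x.2.2.2)) j : ℝ) : ℂ) * zph x (v', (j1, j))) •
      amp Idx (Sg b) (e (zi x (v', (j1, j)))) = tm k L f b x (j1 + 1) (v', j) := by
  obtain ⟨w, v, n, m⟩ := x
  unfold tm zi sx zph
  simp only
  rw [amp_e', Sg_e, emb_e, dig_succ_sM, nn_cons, actM_cons, tl_succ_sM]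
  have h1 : n + bn b - (bn b + nn (dig j1 m)) = n - nn (dig j1 m) := by ring
  rw [h1, add_comm (nn (dig j1 m)) (bn b)]

theorem Zop_Sg {k L : ℕ} {f : W → ℤ → ℕ → ℝ} (hL : 0 < L) (hf : IsWeight f) (b : Bool) :
    ‖(Zop k L f).comp (Sg b) - (amp Idx (Sg b)).comp (Zop k L f)‖ ≤ 2 * (L : ℝ) ^ (-(1 / 2 : ℝ)) := by
  have h1 : ∀ x : Idx, ((Zop k L f).comp (Sg b) - (amp Idx (Sg b)).comp (Zop k L f)) (e x) =
      (∑ p ∈ VFin k ×ˢ Finset.range (x.1.length + 1), tm k L f b x 0 p) +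
        -(∑ p ∈ VFin k ×ˢ Finset.range (x.1.length + 1), tm k L f b x L p) := by
    intro x
    have e1 : Zop k L f (Sg b (e x)) = ∑ v' ∈ VFin k, ∑ j1 ∈ Finset.range L,
        ∑ j ∈ Finset.range (x.1.length + 1), tm k L f b x j1 (v', j) := by
      have h2 : Sg b (e x) = e (sx b x) := by
        obtain ⟨w, v, n, m⟩ := x
        exact Sg_e w v n m b
      rw [h2, Zop_e' hL hf]
      exact sum_zS k L x.1 _
    have e2 : amp Idx (Sg b) (Zop k L f (e x)) = ∑ v' ∈ VFin k, ∑ j1 ∈ Finset.range L,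
        ∑ j ∈ Finset.range (x.1.length + 1), tm k L f b x (j1 + 1) (v', j) := by
      rw [Zop_e' hL hf, map_sum, sum_zS]
      refine Finset.sum_congr rfl fun v' _ => Finset.sum_congr rfl fun j1 _ =>
        Finset.sum_congr rfl fun j _ => ?_
      rw [map_smul]
      exact key b x v' j1 j
    rw [sub_apply, ContinuousLinearMap.comp_apply, ContinuousLinearMap.comp_apply, e1, e2,
      ← Finset.sum_sub_distrib, Finset.sum_product, Finset.sum_product, ← sub_eq_add_neg,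
      ← Finset.sum_sub_distrib]
    refine Finset.sum_congr rfl fun v' _ => ?_
    rw [← Finset.sum_sub_distrib]
    exact Finset.sum_range_sub' (fun j1 => ∑ j ∈ Finset.range (x.1.length + 1),
      tm k L f b x j1 (v', j)) L
  have h2 := norm_le_two _ _ _ (tm_ortho hL hf b 0) (orthoBdd_neg (tm_ortho hL hf b L)) h1
  linarith

private theorem comp_norm_le {T1 : H (Idx × Idx) →L[ℂ] H (Idx × Idx)} {T3 : BH}
    {T2 : H Idx →L[ℂ] H (Idx × Idx)} {c : ℝ} (h1 : ‖T1‖ ≤ 1) (h3 : ‖T3‖ ≤ 1) (h2 : ‖T2‖ ≤ c) :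
    ‖T1.comp (T2.comp T3)‖ ≤ c := by
  have hc : 0 ≤ c := (norm_nonneg _).trans h2
  calc ‖T1.comp (T2.comp T3)‖ ≤ ‖T1‖ * ‖T2.comp T3‖ := ContinuousLinearMap.opNorm_comp_le _ _
    _ ≤ 1 * (‖T2‖ * ‖T3‖) := mul_le_mul h1 (ContinuousLinearMap.opNorm_comp_le _ _) (norm_nonneg _)
        zero_le_one
    _ ≤ 1 * (c * 1) := by
        refine mul_le_mul_of_nonneg_left ?_ zero_le_one
        exact mul_le_mul h2 h3 (norm_nonneg _) hc
    _ = c := by ring

theorem Zop_star_Sg {k L : ℕ} {f : W → ℤ → ℕ → ℝ} (hL : 0 < L) (hf : IsWeight f) (b : Bool) :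
    ‖(Zop k L f).comp (star (Sg b)) - (amp Idx (star (Sg b))).comp (Zop k L f)‖ ≤ 4 * (L : ℝ) ^ (-(1 / 2 : ℝ)) := by
  obtain ⟨Z, hZ⟩ : ∃ Z, Z = Zop k L f := ⟨_, rfl⟩
  obtain ⟨D, hD⟩ : ∃ D : Bool → (H Idx →L[ℂ] H (Idx × Idx)),
      D = fun b => Z.comp (Sg b) - (amp Idx (Sg b)).comp Z := ⟨_, rfl⟩
  have hDn : ∀ b, ‖D b‖ ≤ 2 * (L : ℝ) ^ (-(1 / 2 : ℝ)) := by
    intro b
    rw [hD, hZ]
    exact Zop_Sg hL hf b
  have hsum : Sg b * star (Sg b) + Sg (!b) * star (Sg (!b)) = 1 := by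
    cases b
    · rw [add_comm]
      exact Sg_sum
    · exact Sg_sum
  have hne : b ≠ !b := by cases b <;> decide
  have e1 : Z.comp (star (Sg b)) - (amp Idx (star (Sg b))).comp Z =
      -((amp Idx (star (Sg b))).comp ((D b).comp (star (Sg b)))) -
        (amp Idx (star (Sg b))).comp ((D (!b)).comp (star (Sg (!b)))) := by
    have h1 : Z = (Z.comp (Sg b)).comp (star (Sg b)) + (Z.comp (Sg (!b))).comp (star (Sg (!b))) := by
      have h2 : Z.comp (Sg b * star (Sg b) + Sg (!b) * star (Sg (!b))) = Z := by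
        rw [hsum]
        exact ContinuousLinearMap.comp_id Z
      conv_lhs => rw [← h2]
      rw [ContinuousLinearMap.comp_add]
      rfl
    have h3 : ∀ c : Bool, Z.comp (Sg c) = D c + (amp Idx (Sg c)).comp Z := by
      intro c
      rw [hD]
      simp
    have h4 : (amp Idx (star (Sg b))).comp ((amp Idx (Sg b)).comp Z) = Z := by
      rw [← ContinuousLinearMap.comp_assoc]
      have h5 : (amp Idx (star (Sg b))).comp (amp Idx (Sg b)) = 1 := by
        rw [← amp_comp]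
        have h6 : (star (Sg b)).comp (Sg b) = star (Sg b) * Sg b := rfl
        rw [h6, star_Sg_mul, if_pos rfl, amp_one]
      rw [h5]
      exact ContinuousLinearMap.id_comp Z
    have h4' : (amp Idx (star (Sg b))).comp ((amp Idx (Sg (!b))).comp Z) = 0 := by
      rw [← ContinuousLinearMap.comp_assoc]
      have h5 : (amp Idx (star (Sg b))).comp (amp Idx (Sg (!b))) = 0 := by
        rw [← amp_comp]
        have h6 : (star (Sg b)).comp (Sg (!b)) = star (Sg b) * Sg (!b) := rfl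
        rw [h6, star_Sg_mul, if_neg hne, amp_zero]
      rw [h5]
      exact ContinuousLinearMap.zero_comp Z
    have h7 : (amp Idx (star (Sg b))).comp Z =
        (amp Idx (star (Sg b))).comp ((D b).comp (star (Sg b))) + Z.comp (star (Sg b)) +
        (amp Idx (star (Sg b))).comp ((D (!b)).comp (star (Sg (!b)))) := by
      conv_lhs => rw [h1]
      rw [h3 b, h3 (!b), ContinuousLinearMap.comp_add, ContinuousLinearMap.add_comp,
        ContinuousLinearMap.add_comp, ContinuousLinearMap.comp_add, ContinuousLinearMap.comp_add]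
      have h8 : (amp Idx (star (Sg b))).comp (((amp Idx (Sg b)).comp Z).comp (star (Sg b))) =
          Z.comp (star (Sg b)) := by
        rw [← ContinuousLinearMap.comp_assoc, h4]
      have h9 : (amp Idx (star (Sg b))).comp (((amp Idx (Sg (!b))).comp Z).comp (star (Sg (!b)))) =
          0 := by
        rw [← ContinuousLinearMap.comp_assoc, h4', ContinuousLinearMap.zero_comp]
      rw [h8, h9, add_zero]
    rw [h7]
    abel
  rw [hZ] at e1
  rw [e1]
  have n1 : ‖amp Idx (star (Sg b))‖ ≤ 1 := by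
    refine (norm_amp_le _).trans ?_
    rw [ContinuousLinearMap.star_eq_adjoint, LinearIsometryEquiv.norm_map]
    exact norm_Sg_le b
  have n2 : ∀ c : Bool, ‖star (Sg c)‖ ≤ 1 := by
    intro c
    rw [ContinuousLinearMap.star_eq_adjoint, LinearIsometryEquiv.norm_map]
    exact norm_Sg_le c
  have n3 := comp_norm_le n1 (n2 b) (hDn b)
  have n4 := comp_norm_le n1 (n2 (!b)) (hDn (!b))
  refine (norm_sub_le _ _).trans ?_
  rw [norm_neg]
  linarith

end OE
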