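import Mathlib
import Pool.Agent.Work.MP_06ef15_an.ZC

/-!
# ZE (block Z, size M-L): (5.3) `Z` and `Y t k1`

On `e x`, `x = (w,(v,(n,m)))`; `μ = dig j1 m`, `n' = nn μ` (`0 ≤ n' ≤ j1 < L`), `q = n - n'`, `v'' = v - v'`,
`a = (t, k1 - n)`, `abar = (bar t, k1 - n)`, `α = zal k L`.
`Z Y e x = ch (xf v * dg1 t) • (Z e(a::w,..) + [w = abar::w'] Z e(w',..))`,
`amp(Y) Z e x = ∑ α f(w,q,j) phase(j) Y e(sh q (w.take j), v', n', ..) ⊗ e(w.drop j, v'', q, ..)`.
Let `δ = ch (xf v * dg1 t)`.
(vac) the term `j = 0` of `δ • Z e(a::w)`: `∑_{v',j1} α f(a::w,q,0) δ phase e(zi (a::w,v,n,m) (v',j1,0))`.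
(cre) the term `j = i+1` of `δ • Z e(a::w)` has index `zi (a::w,..) (v',j1,i+1)`
   `= (((t,k1-n') :: sh q (w.take i), v', n', ..), (w.drop i, v'', q, ..))` because `k1 - n + q = k1 - n'`, which is the
   index of the creation part of `Y` on the term `j = i` of `Z e x`; phases agree:
   `xf v * dg1 t - xf v'' * (dg1 t + dgw (w.take i)) = xf v' * dg1 t - xf v'' * dgw (w.take i)` (`v = v' + v''`).
   So (cre) `= ∑_{v',j1,i ≤ |w|} α (f(a::w,q,i+1) - f(w,q,i)) θ e(zi (a::w,..) (v',j1,i+1))`.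
(ann) if `w = abar::w'`: the annihilation part of `Y` on the term `j = i+1` of `Z e x` (first letter of
   `sh q (w.take (i+1))` is `(bar t, k1-n+q) = (bar t, k1-n')`) has index `zi (w',v,n,m) (v',j1,i)`, the same as the term
   `i` of `δ • Z e(w',..)`; phases agree: `xf v' * dg1 t - xf v'' * (dg1 (bar t) + dgw (w'.take i))
   = xf v * dg1 t - xf v'' * dgw (w'.take i)`.  So (ann) `= ∑_{v',j1,i ≤ |w'|} α (f(w',q,i) - f(abar::w',q,i+1)) θ e(zi (w',..) (v',j1,i))`.
   If `w` is `[]` or has another first letter then both annihilation parts vanish (the first letter `b` of `w` becomes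
   `(b.1, b.2+q)`, equal to `(bar t, k1-n')` iff `b = abar`).
Each of the three families satisfies `OrthoBdd .. ε`: `orthoBdd_sum_e` with `zi_inj` (the input index is determined:
`a` depends only on `n`, and `n` is part of the output by `zi_inj`), and `sum_zcoef_le` with the hypothesis `CondY`
(`l + q = k1 - n'`, `|k1 - n'| ≤ |k1| + L`; for (vac) use `N = 1`).  Then `norm_le_three`.
SUGGESTION: state the three families as `∑ p ∈ VFin k ×ˢ (range L ×ˢ range N x), (..) • e (ι x p)`, with `N x = 1`,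
`w.length + 1`, and `(ann)` defined by cases (`0` unless `w = abar::w'`; e.g. with `w.tail` and an `if`).
-/

set_option autoImplicit false

open scoped ComplexConjugate InnerProductSpace Classical
open ContinuousLinearMap (adjoint)

namespace OE

/-- the weight hypothesis of (5.3). -/
def CondY (f : W → ℤ → ℕ → ℝ) (t : T) (N : ℤ) (ε : ℝ) : Prop :=
  ∀ (s : T) (l q : ℤ) (w : W), (s = t ∨ s = bar t) → |l + q| ≤ N →
    (∑ j ∈ Finset.range (w.length + 1), (f ((s, l) :: w) q (j + 1) - f w q j) ^ 2 ≤ ε ^ 2) ∧ f ((s, l) :: w) q 0 ≤ ε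

/-- creation on the index. -/
private noncomputable def aa (t : T) (k1 : ℤ) (x : Idx) : Idx := ((t, k1 - x.2.2.1) :: x.1, x.2)

private theorem amp_Yc_zi (t : T) (k1 : ℤ) (x : Idx) (p : ZP) :
    amp Idx (Yc t k1) (e (zi x p)) =
      ch (xf p.1 * dg1 t) • e (zi (aa t k1 x) (p.1, (p.2.1, p.2.2 + 1))) := by
  have h1 : zi (aa t k1 x) (p.1, (p.2.1, p.2.2 + 1)) =
      (((t, k1 - nn (dig p.2.1 x.2.2.2)) :: sh (x.2.2.1 - nn (dig p.2.1 x.2.2.2)) (x.1.take p.2.2),
      (p.1, (nn (dig p.2.1 x.2.2.2), actM (dig p.2.1 x.2.2.2) m1))),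
   (x.1.drop p.2.2, (x.2.1 - p.1, (x.2.2.1 - nn (dig p.2.1 x.2.2.2), tl^[p.2.1] x.2.2.2)))) := by
    unfold zi aa
    simp only [List.take_succ_cons, List.drop_succ_cons, sh_cons]
    rw [show k1 - x.2.2.1 + (x.2.2.1 - nn (dig p.2.1 x.2.2.2)) = k1 - nn (dig p.2.1 x.2.2.2) by ring]
  rw [h1]
  unfold zi
  rw [amp_e', Yc_e, map_smul, emb_e]

private theorem amp_Ya_zi_zero (t : T) (k1 : ℤ) (x : Idx) (v' : V) (j1 : ℕ) :
    amp Idx (Ya t k1) (e (zi x (v', (j1, 0)))) = 0 := by
  unfold zi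
  simp only [List.take_zero, List.drop_zero, sh_nil]
  rw [amp_e', Ya_e_nil, map_zero]

private theorem amp_Ya_zi_succ (t : T) (k1 : ℤ) (b : Lam) (w : W) (z : Q) (v' : V) (j1 i : ℕ) :
    amp Idx (Ya t k1) (e (zi (b :: w, z) (v', (j1, i + 1)))) =
      if b = (bar t, k1 - z.2.1) then ch (xf v' * dg1 t) • e (zi (w, z) (v', (j1, i))) else 0 := by
  unfold zi
  simp only [List.take_succ_cons, List.drop_succ_cons, sh_cons]
  rw [amp_e', Ya_e_cons]
  have hiff : ((b.1, b.2 + (z.2.1 - nn (dig j1 z.2.2))) = (bar t, k1 - nn (dig j1 z.2.2))) ↔ b = (bar t, k1 - z.2.1) := by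
    constructor
    · intro h
      have h1 := congrArg Prod.fst h
      have h2 := congrArg Prod.snd h
      simp only at h1 h2
      exact Prod.ext h1 (by simp only; linarith)
    · rintro rfl
      refine Prod.ext rfl ?_
      simp only
      ring
  by_cases hb : b = (bar t, k1 - z.2.1)
  · rw [if_pos (hiff.2 hb), if_pos hb, map_smul, emb_e]
  · rw [if_neg (fun h => hb (hiff.1 h)), if_neg hb, map_zero]

private theorem hq (L : ℕ) (k1 n : ℤ) (m : M) {j1 : ℕ} (hj : j1 < L) :
    |(k1 - n) + (n - nn (dig j1 m))| ≤ |k1| + (L : ℤ) := by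
  have h1 := nn_nonneg (dig j1 m)
  have h2 := nn_le_length (dig j1 m)
  rw [length_dig] at h2
  have h3 : (j1 : ℤ) < (L : ℤ) := by exact_mod_cast hj
  have h4 : (k1 - n) + (n - nn (dig j1 m)) = k1 - nn (dig j1 m) := by ring
  rw [h4]
  have h5 := neg_abs_le k1
  have h6 := le_abs_self k1
  rw [abs_le]
  constructor <;> linarith

private theorem creation_part {k L : ℕ} {f : W → ℤ → ℕ → ℝ} (hL : 0 < L) (hf : IsWeight f) (t : T) (k1 : ℤ) {ε : ℝ}
    (hε : 0 ≤ ε) (h : CondY f t (|k1| + (L : ℤ)) ε) :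
    ‖(Zop k L f).comp (Yc t k1) - (amp Idx (Yc t k1)).comp (Zop k L f)‖ ≤ ε + ε := by
  refine norm_le_two _
    (fun x : Idx => ∑ p ∈ VFin k ×ˢ (Finset.range L ×ˢ Finset.range 1),
      (((zal k L * f ((t, k1 - x.2.2.1) :: x.1) (x.2.2.1 - nn (dig p.2.1 x.2.2.2)) 0 : ℝ) : ℂ) *
        (ch (xf x.2.1 * dg1 t) * zph (aa t k1 x) (p.1, (p.2.1, 0)))) • e (zi (aa t k1 x) (p.1, (p.2.1, 0))))
    (fun x : Idx => ∑ p ∈ VFin k ×ˢ (Finset.range L ×ˢ Finset.range (x.1.length + 1)),
      (((zal k L * (f ((t, k1 - x.2.2.1) :: x.1) (x.2.2.1 - nn (dig p.2.1 x.2.2.2)) (p.2.2 + 1) -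
          f x.1 (x.2.2.1 - nn (dig p.2.1 x.2.2.2)) p.2.2) : ℝ) : ℂ) *
        (ch (xf x.2.1 * dg1 t) * zph (aa t k1 x) (p.1, (p.2.1, p.2.2 + 1)))) •
          e (zi (aa t k1 x) (p.1, (p.2.1, p.2.2 + 1)))) ?_ ?_ ?_
  · -- vacuum family
    refine orthoBdd_sum_e _ _ _ hε ?_ ?_
    · intro x x' p p' hp hp' heq
      rw [Finset.mem_product, Finset.mem_product] at hp hp'
      have h0 : p.2.2 = 0 := by simpa using hp.2.2
      have h0' : p'.2.2 = 0 := by simpa using hp'.2.2
      obtain ⟨h1, h2⟩ := zi_inj (Nat.zero_le _) (Nat.zero_le _) heq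
      have h3 : x.2 = x'.2 := by have h := congrArg (fun z : Idx => z.2) h1; exact h
      have h4 : (t, k1 - x.2.2.1) :: x.1 = (t, k1 - x'.2.2.1) :: x'.1 := by have h := congrArg (fun z : Idx => z.1) h1; exact h
      have h5 : x.1 = x'.1 := (List.cons.inj h4).2
      have h6 : p.1 = p'.1 := by have h := congrArg (fun z : ZP => z.1) h2; exact h
      have h7 : p.2.1 = p'.2.1 := by have h := congrArg (fun z : ZP => z.2.1) h2; exact h
      exact ⟨Prod.ext h5 h3, Prod.ext h6 (Prod.ext h7 (by rw [h0, h0']))⟩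
    · intro x
      refine sum_zcoef_le hL 1
        (fun j1 _ => f ((t, k1 - x.2.2.1) :: x.1) (x.2.2.1 - nn (dig j1 x.2.2.2)) 0)
        (fun p => ch (xf x.2.1 * dg1 t) * zph (aa t k1 x) (p.1, (p.2.1, 0))) ?_ ?_
      · intro p
        rw [norm_mul, norm_ch, norm_zph, one_mul]
      · intro j1 hj1
        rw [Finset.sum_range_one]
        have h1 := (h t (k1 - x.2.2.1) (x.2.2.1 - nn (dig j1 x.2.2.2)) x.1 (Or.inl rfl) (hq L k1 _ _ hj1)).2
        exact pow_le_pow_left₀ (hf.nonneg _ _ _) h1 2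
  · -- creation family
    refine orthoBdd_sum_e _ _ _ hε ?_ ?_
    · intro x x' p p' hp hp' heq
      rw [Finset.mem_product, Finset.mem_product, Finset.mem_range] at hp hp'
      have hl : p.2.2 + 1 ≤ (aa t k1 x).1.length := by
        change p.2.2 + 1 ≤ (_ :: x.1).length
        rw [List.length_cons]
        have := hp.2.2
        rw [Finset.mem_range] at this
        omega
      have hl' : p'.2.2 + 1 ≤ (aa t k1 x').1.length := by
        change p'.2.2 + 1 ≤ (_ :: x'.1).length
        rw [List.length_cons]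
        have := hp'.2.2
        rw [Finset.mem_range] at this
        omega
      obtain ⟨h1, h2⟩ := zi_inj (p := (p.1, (p.2.1, p.2.2 + 1))) (p' := (p'.1, (p'.2.1, p'.2.2 + 1))) hl hl' heq
      have h3 : x.2 = x'.2 := by have h := congrArg (fun z : Idx => z.2) h1; exact h
      have h4 : (t, k1 - x.2.2.1) :: x.1 = (t, k1 - x'.2.2.1) :: x'.1 := by have h := congrArg (fun z : Idx => z.1) h1; exact h
      have h5 : x.1 = x'.1 := (List.cons.inj h4).2
      have h6 : p.1 = p'.1 := by have h := congrArg (fun z : ZP => z.1) h2; exact h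
      have h7 : p.2.1 = p'.2.1 := by have h := congrArg (fun z : ZP => z.2.1) h2; exact h
      have h8 : p.2.2 + 1 = p'.2.2 + 1 := by have h := congrArg (fun z : ZP => z.2.2) h2; exact h
      exact ⟨Prod.ext h5 h3, Prod.ext h6 (Prod.ext h7 (Nat.succ.inj h8))⟩
    · intro x
      refine sum_zcoef_le hL (x.1.length + 1)
        (fun j1 j => f ((t, k1 - x.2.2.1) :: x.1) (x.2.2.1 - nn (dig j1 x.2.2.2)) (j + 1) -
          f x.1 (x.2.2.1 - nn (dig j1 x.2.2.2)) j)
        (fun p => ch (xf x.2.1 * dg1 t) * zph (aa t k1 x) (p.1, (p.2.1, p.2.2 + 1))) ?_ ?_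
      · intro p
        rw [norm_mul, norm_ch, norm_zph, one_mul]
      · intro j1 hj1
        exact (h t (k1 - x.2.2.1) (x.2.2.1 - nn (dig j1 x.2.2.2)) x.1 (Or.inl rfl) (hq L k1 _ _ hj1)).1
  · -- the identity
    intro x
    have hY : Yc t k1 (e x) = ch (xf x.2.1 * dg1 t) • e (aa t k1 x) := Yc_e t k1 x.1 x.2.1 x.2.2.1 x.2.2.2
    have hA : Zop k L f (Yc t k1 (e x)) = ∑ v' ∈ VFin k, ∑ j1 ∈ Finset.range L, ∑ j ∈ Finset.range (x.1.length + 1 + 1),
        (((zal k L * f ((t, k1 - x.2.2.1) :: x.1) (x.2.2.1 - nn (dig j1 x.2.2.2)) j : ℝ) : ℂ) *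
          (ch (xf x.2.1 * dg1 t) * zph (aa t k1 x) (v', (j1, j)))) • e (zi (aa t k1 x) (v', (j1, j))) := by
      rw [hY, map_smul, Zop_e' hL hf, sum_zS, Finset.smul_sum]
      refine Finset.sum_congr rfl fun v' _ => ?_
      rw [Finset.smul_sum]
      refine Finset.sum_congr rfl fun j1 _ => ?_
      rw [Finset.smul_sum]
      refine Finset.sum_congr rfl fun j _ => ?_
      rw [smul_smul]
      congr 1
      change _ * ((((zal k L * f ((t, k1 - x.2.2.1) :: x.1) (x.2.2.1 - nn (dig j1 x.2.2.2)) j : ℝ) : ℂ)) * _) = _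
      ring
    have hB : amp Idx (Yc t k1) (Zop k L f (e x)) = ∑ v' ∈ VFin k, ∑ j1 ∈ Finset.range L,
        ∑ j ∈ Finset.range (x.1.length + 1),
        (((zal k L * f x.1 (x.2.2.1 - nn (dig j1 x.2.2.2)) j : ℝ) : ℂ) *
          (ch (xf x.2.1 * dg1 t) * zph (aa t k1 x) (v', (j1, j + 1)))) • e (zi (aa t k1 x) (v', (j1, j + 1))) := by
      rw [Zop_e' hL hf, sum_zS, map_sum]
      refine Finset.sum_congr rfl fun v' _ => ?_
      rw [map_sum]
      refine Finset.sum_congr rfl fun j1 _ => ?_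
      rw [map_sum]
      refine Finset.sum_congr rfl fun j _ => ?_
      rw [map_smul, amp_Yc_zi, smul_smul]
      congr 1
      have hph : zph x (v', (j1, j)) * ch (xf v' * dg1 t) =
          ch (xf x.2.1 * dg1 t) * zph (aa t k1 x) (v', (j1, j + 1)) := by
        unfold zph aa
        simp only [List.take_succ_cons, dgw_cons]
        rw [← ch_add, ← ch_add]
        congr 1
        rw [xf_sub]
        ring
      change (((zal k L * f x.1 (x.2.2.1 - nn (dig j1 x.2.2.2)) j : ℝ) : ℂ) * zph x (v', (j1, j))) * ch (xf v' * dg1 t) = _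
      rw [mul_assoc, hph]
    change Zop k L f (Yc t k1 (e x)) - amp Idx (Yc t k1) (Zop k L f (e x)) = _
    rw [hA, hB]
    simp only [Finset.sum_product, Finset.sum_range_one]
    rw [← Finset.sum_add_distrib, ← Finset.sum_sub_distrib]
    refine Finset.sum_congr rfl fun v' _ => ?_
    rw [← Finset.sum_add_distrib, ← Finset.sum_sub_distrib]
    refine Finset.sum_congr rfl fun j1 _ => ?_
    rw [Finset.sum_range_succ', add_comm, add_sub_assoc, ← Finset.sum_sub_distrib]
    congr 1
    refine Finset.sum_congr rfl fun j _ => ?_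
    rw [← sub_smul]
    congr 1
    push_cast
    ring

private theorem annihilation_part {k L : ℕ} {f : W → ℤ → ℕ → ℝ} (hL : 0 < L) (hf : IsWeight f) (t : T) (k1 : ℤ) {ε : ℝ}
    (hε : 0 ≤ ε) (h : CondY f t (|k1| + (L : ℤ)) ε) :
    ‖(Zop k L f).comp (Ya t k1) - (amp Idx (Ya t k1)).comp (Zop k L f)‖ ≤ ε := by
  have key : ∀ x : Idx, ((Zop k L f).comp (Ya t k1) - (amp Idx (Ya t k1)).comp (Zop k L f)) (e x) =
      ∑ p ∈ (if x.1.head? = some (bar t, k1 - x.2.2.1) then
          VFin k ×ˢ (Finset.range L ×ˢ Finset.range (x.1.tail.length + 1)) else ∅),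
      (((zal k L * (f x.1.tail (x.2.2.1 - nn (dig p.2.1 x.2.2.2)) p.2.2 -
          f x.1 (x.2.2.1 - nn (dig p.2.1 x.2.2.2)) (p.2.2 + 1)) : ℝ) : ℂ) *
        (ch (xf x.2.1 * dg1 t) * zph (x.1.tail, x.2) p)) • e (zi (x.1.tail, x.2) p) := by
    rintro ⟨w, v, n, m⟩
    change Zop k L f (Ya t k1 (e (w, (v, (n, m))))) - amp Idx (Ya t k1) (Zop k L f (e (w, (v, (n, m))))) = _
    cases w with
    | nil =>
      rw [Ya_e_nil, map_zero, Zop_e' hL hf, sum_zS, map_sum]
      rw [if_neg (by simp), Finset.sum_empty]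
      rw [Finset.sum_eq_zero, sub_zero]
      intro v' _
      rw [map_sum]
      refine Finset.sum_eq_zero fun j1 _ => ?_
      rw [map_sum]
      refine Finset.sum_eq_zero fun j hj => ?_
      have hj0 : j = 0 := by
        simp only [List.length_nil, zero_add, Finset.range_one, Finset.mem_singleton] at hj
        exact hj
      rw [hj0, map_smul, amp_Ya_zi_zero, smul_zero]
    | cons b w =>
      have hB : amp Idx (Ya t k1) (Zop k L f (e (b :: w, (v, (n, m))))) =
          ∑ v' ∈ VFin k, ∑ j1 ∈ Finset.range L, ∑ i ∈ Finset.range (w.length + 1),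
          (((zal k L * f (b :: w) (n - nn (dig j1 m)) (i + 1) : ℝ) : ℂ) * zph (b :: w, (v, (n, m))) (v', (j1, i + 1))) •
            (if b = (bar t, k1 - n) then ch (xf v' * dg1 t) • e (zi (w, (v, (n, m))) (v', (j1, i))) else 0) := by
        rw [Zop_e' hL hf, sum_zS, map_sum]
        refine Finset.sum_congr rfl fun v' _ => ?_
        rw [map_sum]
        refine Finset.sum_congr rfl fun j1 _ => ?_
        rw [map_sum, Finset.sum_range_succ', map_smul, amp_Ya_zi_zero, smul_zero, add_zero]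
        refine Finset.sum_congr rfl fun i _ => ?_
        rw [map_smul, amp_Ya_zi_succ]
      rw [hB, Ya_e_cons]
      by_cases hb : b = (bar t, k1 - n)
      · rw [if_pos hb, map_smul, Zop_e' hL hf, sum_zS, Finset.smul_sum]
        rw [if_pos (by simp [hb])]
        simp only [Finset.sum_product]
        change _ = ∑ v' ∈ VFin k, ∑ j1 ∈ Finset.range L, ∑ i ∈ Finset.range (w.length + 1), _
        rw [← Finset.sum_sub_distrib]
        refine Finset.sum_congr rfl fun v' _ => ?_
        rw [Finset.smul_sum, ← Finset.sum_sub_distrib]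
        refine Finset.sum_congr rfl fun j1 _ => ?_
        rw [Finset.smul_sum, ← Finset.sum_sub_distrib]
        refine Finset.sum_congr rfl fun i _ => ?_
        rw [if_pos hb, smul_smul, smul_smul, ← sub_smul]
        congr 1
        have hph : zph (b :: w, (v, (n, m))) (v', (j1, i + 1)) * ch (xf v' * dg1 t) =
            ch (xf v * dg1 t) * zph (w, (v, (n, m))) (v', (j1, i)) := by
          unfold zph
          simp only [List.take_succ_cons, dgw_cons]
          rw [← ch_add, ← ch_add, hb]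
          congr 1
          rw [xf_sub, dg1_bar]
          ring
        rw [mul_assoc, hph]
        simp only [List.tail_cons]
        push_cast
        ring
      · rw [if_neg hb, map_zero, zero_sub]
        rw [if_neg (by simpa using hb), Finset.sum_empty, neg_eq_zero]
        refine Finset.sum_eq_zero fun v' _ => Finset.sum_eq_zero fun j1 _ => Finset.sum_eq_zero fun i _ => ?_
        rw [if_neg hb, smul_zero]
  refine norm_le_of_ortho _ ?_
  have hob := orthoBdd_sum_e
    (fun x : Idx => (if x.1.head? = some (bar t, k1 - x.2.2.1) then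
          VFin k ×ˢ (Finset.range L ×ˢ Finset.range (x.1.tail.length + 1)) else ∅ : Finset ZP))
    (fun x p => (((zal k L * (f x.1.tail (x.2.2.1 - nn (dig p.2.1 x.2.2.2)) p.2.2 -
          f x.1 (x.2.2.1 - nn (dig p.2.1 x.2.2.2)) (p.2.2 + 1)) : ℝ) : ℂ) *
        (ch (xf x.2.1 * dg1 t) * zph (x.1.tail, x.2) p)))
    (fun x p => zi (x.1.tail, x.2) p) (C := ε) hε ?_ ?_
  · have hfun : (fun x : Idx => ((Zop k L f).comp (Ya t k1) - (amp Idx (Ya t k1)).comp (Zop k L f)) (e x)) =
        (fun x : Idx => ∑ p ∈ (if x.1.head? = some (bar t, k1 - x.2.2.1) then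
          VFin k ×ˢ (Finset.range L ×ˢ Finset.range (x.1.tail.length + 1)) else ∅),
      (((zal k L * (f x.1.tail (x.2.2.1 - nn (dig p.2.1 x.2.2.2)) p.2.2 -
          f x.1 (x.2.2.1 - nn (dig p.2.1 x.2.2.2)) (p.2.2 + 1)) : ℝ) : ℂ) *
        (ch (xf x.2.1 * dg1 t) * zph (x.1.tail, x.2) p)) • e (zi (x.1.tail, x.2) p)) := funext key
    rw [hfun]
    exact hob
  · intro x x' p p' hp hp' heq
    by_cases hx : x.1.head? = some (bar t, k1 - x.2.2.1)
    · by_cases hx' : x'.1.head? = some (bar t, k1 - x'.2.2.1)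
      · simp only [if_pos hx, if_pos hx', Finset.mem_product, Finset.mem_range] at hp hp'
        obtain ⟨h1, h2⟩ := zi_inj (x := (x.1.tail, x.2)) (x' := (x'.1.tail, x'.2)) (by simpa using Nat.lt_succ_iff.1 hp.2.2)
          (by simpa using Nat.lt_succ_iff.1 hp'.2.2) heq
        have h3 : x.2 = x'.2 := by have h := congrArg (fun z : Idx => z.2) h1; exact h
        have h4 : x.1.tail = x'.1.tail := by have h := congrArg (fun z : Idx => z.1) h1; exact h
        refine ⟨Prod.ext ?_ h3, h2⟩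
        obtain ⟨w, z⟩ := x
        obtain ⟨w', z'⟩ := x'
        cases w with
        | nil => simp at hx
        | cons b w =>
          cases w' with
          | nil => simp at hx'
          | cons b' w' =>
            simp only [List.head?_cons, Option.some.injEq] at hx hx'
            simp only [List.tail_cons] at h4
            simp only at h3
            rw [hx, hx', h4, h3]
      · simp only [if_neg hx', Finset.notMem_empty] at hp'
    · simp only [if_neg hx, Finset.notMem_empty] at hp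
  · intro x
    by_cases hx : x.1.head? = some (bar t, k1 - x.2.2.1)
    · simp only [if_pos hx]
      refine sum_zcoef_le hL (x.1.tail.length + 1)
        (fun j1 j => f x.1.tail (x.2.2.1 - nn (dig j1 x.2.2.2)) j -
          f x.1 (x.2.2.1 - nn (dig j1 x.2.2.2)) (j + 1))
        (fun p => ch (xf x.2.1 * dg1 t) * zph (x.1.tail, x.2) p) ?_ ?_
      · intro p
        rw [norm_mul, norm_ch, norm_zph, one_mul]
      · intro j1 hj1
        have h1 := (h (bar t) (k1 - x.2.2.1) (x.2.2.1 - nn (dig j1 x.2.2.2)) x.1.tail (Or.inr rfl) (hq L k1 _ _ hj1)).1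
        have hxe : x.1 = (bar t, k1 - x.2.2.1) :: x.1.tail := by
          obtain ⟨w, z⟩ := x
          cases w with
          | nil => simp at hx
          | cons b w =>
            simp only [List.head?_cons, Option.some.injEq] at hx
            simp only [List.tail_cons]
            rw [hx]
        refine le_trans (le_of_eq ?_) h1
        refine Finset.sum_congr rfl fun j _ => ?_
        rw [← hxe]
        ring
    · simp only [if_neg hx, Finset.sum_empty]
      positivity

theorem Zop_Y {k L : ℕ} {f : W → ℤ → ℕ → ℝ} (hL : 0 < L) (hf : IsWeight f) (t : T) (k1 : ℤ) {ε : ℝ} (hε : 0 ≤ ε)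
    (h : CondY f t (|k1| + (L : ℤ)) ε) :
    ‖(Zop k L f).comp (Y t k1) - (amp Idx (Y t k1)).comp (Zop k L f)‖ ≤ 3 * ε := by
  have h1 := creation_part (k := k) hL hf t k1 hε h
  have h2 := annihilation_part (k := k) hL hf t k1 hε h
  have h3 : (Zop k L f).comp (Y t k1) - (amp Idx (Y t k1)).comp (Zop k L f) =
      ((Zop k L f).comp (Yc t k1) - (amp Idx (Yc t k1)).comp (Zop k L f)) +
      ((Zop k L f).comp (Ya t k1) - (amp Idx (Ya t k1)).comp (Zop k L f)) := by
    unfold Y
    rw [amp_add, ContinuousLinearMap.comp_add, ContinuousLinearMap.add_comp]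
    abel
  rw [h3]
  refine (norm_add_le _ _).trans ?_
  linarith

end OE
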