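import Mathlib
import Pool.Agent.Work.MP_06ef15_an.ZE

/-!
# ZF (block Z, size S-M): (5.4) the `c`-weights

`fc c w q j = c^j * sqrt (1-c^2)` (`j < |w|`), `c^|w|` (`j = |w|`), `0` otherwise.
* `isWeight_fc`: `∑_{j<|w|} c^(2j) (1-c^2) + c^(2|w|) = 1` (induction on `|w|` or `geom_sum_mul_neg`);
  `Finset.sum_range_succ`.
* `condY_fc`: for `j < |w|`: `c^(j+1) s - c^j s = -(1-c) c^j s`; for `j = |w|`: `c^(|w|+1) - c^|w| = -(1-c) c^|w|`; so the sum is
  `(1-c)^2 * ∑ f(w,j)^2 = (1-c)^2 ≤ 1 - c^2` (`(1-c) ≤ (1+c)`), and `f(a::w,0) = s`.  `ε = sqrt (1-c^2)`.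
* `tendsto_fc`: `sqrt (1-c^2) → 0` as `c → 1` from below (continuity).
-/

set_option autoImplicit false

open scoped ComplexConjugate InnerProductSpace Classical Topology
open Filter

namespace OE

private theorem one_sub_sq_nonneg {c : ℝ} (h0 : 0 < c) (h1 : c ≤ 1) : 0 ≤ 1 - c ^ 2 := by
  nlinarith

private theorem fc_lt {c : ℝ} {w : W} {q : ℤ} {j : ℕ} (h : j < w.length) :
    fc c w q j = c ^ j * Real.sqrt (1 - c ^ 2) := by
  unfold fc
  rw [if_pos h]

private theorem fc_eq {c : ℝ} {w : W} {q : ℤ} {j : ℕ} (h : j = w.length) : fc c w q j = c ^ j := by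
  unfold fc
  rw [if_neg (by omega), if_pos h]

private theorem fc_gt {c : ℝ} {w : W} {q : ℤ} {j : ℕ} (h : w.length < j) : fc c w q j = 0 := by
  unfold fc
  rw [if_neg (by omega), if_neg (by omega)]

private theorem geo (c : ℝ) (n : ℕ) : ∑ j ∈ Finset.range n, (c ^ j) ^ 2 * (1 - c ^ 2) = 1 - (c ^ n) ^ 2 := by
  induction n with
  | zero => simp
  | succ n ih =>
    rw [Finset.sum_range_succ, ih]
    ring

theorem isWeight_fc {c : ℝ} (h0 : 0 < c) (h1 : c ≤ 1) : IsWeight (fc c) where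
  nonneg w q j := by
    unfold fc
    split_ifs
    · positivity
    · positivity
    · exact le_rfl
  zero w q j h := fc_gt h
  sum w q := by
    rw [Finset.sum_range_succ, fc_eq rfl]
    have h2 : ∑ j ∈ Finset.range w.length, fc c w q j ^ 2 =
        ∑ j ∈ Finset.range w.length, (c ^ j) ^ 2 * (1 - c ^ 2) := by
      refine Finset.sum_congr rfl fun j hj => ?_
      rw [fc_lt (Finset.mem_range.1 hj), mul_pow, Real.sq_sqrt (one_sub_sq_nonneg h0 h1)]
    rw [h2, geo]
    ring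

private theorem fc_succ (c : ℝ) (a : Lam) (w : W) (q : ℤ) (j : ℕ) : fc c (a :: w) q (j + 1) = c * fc c w q j := by
  rcases lt_trichotomy j w.length with h | h | h
  · rw [fc_lt h, fc_lt (by rw [List.length_cons]; omega)]
    ring
  · rw [fc_eq h, fc_eq (by rw [List.length_cons, h])]
    ring
  · rw [fc_gt h, fc_gt (by rw [List.length_cons]; omega), mul_zero]

theorem condY_fc {c : ℝ} (h0 : 0 < c) (h1 : c ≤ 1) (t : T) (N : ℤ) : CondY (fc c) t N (Real.sqrt (1 - c ^ 2)) := by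
  intro s l q w _ _
  constructor
  · rw [Real.sq_sqrt (one_sub_sq_nonneg h0 h1)]
    have h2 : ∑ j ∈ Finset.range (w.length + 1), (fc c ((s, l) :: w) q (j + 1) - fc c w q j) ^ 2 =
        (1 - c) ^ 2 * ∑ j ∈ Finset.range (w.length + 1), fc c w q j ^ 2 := by
      rw [Finset.mul_sum]
      refine Finset.sum_congr rfl fun j _ => ?_
      rw [fc_succ]
      ring
    rw [h2, (isWeight_fc h0 h1).sum]
    nlinarith
  · rw [fc_lt (by rw [List.length_cons]; omega), pow_zero, one_mul]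

theorem tendsto_fc : Tendsto (fun c : ℝ => Real.sqrt (1 - c ^ 2)) (𝓝[<] 1) (𝓝 0) := by
  have h1 : Continuous (fun c : ℝ => Real.sqrt (1 - c ^ 2)) := by fun_prop
  have h2 := h1.tendsto 1
  simp only [one_pow, sub_self, Real.sqrt_zero] at h2
  exact h2.mono_left nhdsWithin_le_nhds

end OE
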