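import Mathlib
import Pool.Agent.Work.MP_06ef15_an.ZE

/-!
# ZG (block Z, size M): (5.5) the window weights

`p = pw K q w = (w.takeWhile (win K q)).length ≤ |w|`.  `fw K M0 w q j = M0^(-1/2)` if `j < min p M0`, `sqrt ((M0-p)/M0)` if
`j = p < M0`, `0` otherwise.
* `isWeight_fw`: nonneg clear; zero for `j > |w|` since `p ≤ |w|`; sum of squares: if `M0 ≤ p` it is `M0 * (1/M0) = 1`
  (the indices `j < M0 ≤ |w|+1`), if `p < M0` it is `p/M0 + (M0-p)/M0 = 1`.
* `pw_cons`: if `win K q a` then `pw K q (a::w) = pw K q w + 1` (`List.takeWhile_cons`).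
* `condY_fw`: `a = (s,l)` is in the window (`s = t` or `bar t`, `|l+q| ≤ N ≤ K`), so `pw (a::w) = p+1`.
  `f(a::w,q,0) = M0^(-1/2)` (`0 < min (p+1) M0`).  If `M0 ≤ p`: `f(a::w,j+1) - f(w,j) = 0` except for `j = M0-1` where it is
  `-M0^(-1/2)`.  If `p < M0`: the difference is `0` except for `j = p` where it is
  `sqrt((M0-p-1)/M0) - sqrt((M0-p)/M0)` (for `p+1 = M0` the first term is `0`, consistent), of absolute value
  `≤ sqrt(1/M0)` (`sqrt x - sqrt y ≤ sqrt (x-y)`).  So the sum of squares is at most `1/M0 = (M0^(-1/2))^2`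
  (`Finset.sum_eq_single_of_mem` or bound by `Finset.sum_ite_eq`).
* `fw_ne_zero`: support: if `fw K M0 w q j ≠ 0` then `j ≤ M0` and every letter of `w.take j` is in the window
  (`j ≤ pw K q w`; `w.take j` is a prefix of `w.takeWhile ..`, `List.mem_takeWhile_imp`).
-/

set_option autoImplicit false

open scoped ComplexConjugate InnerProductSpace Classical Topology
open Filter

namespace OE

private theorem pw_le (K : ℕ) (q : ℤ) (w : W) : pw K q w ≤ w.length :=
  (List.takeWhile_prefix _).length_le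

private theorem zg_c {M0 : ℕ} (h : 0 < M0) : ((M0 : ℝ) ^ (-(1 / 2 : ℝ))) ^ 2 = 1 / (M0 : ℝ) := by
  have h1 : (0 : ℝ) < M0 := by exact_mod_cast h
  rw [← Real.rpow_natCast, ← Real.rpow_mul h1.le]
  norm_num
  rw [Real.rpow_neg_one]

private theorem fw_lt {K M0 : ℕ} {q : ℤ} {w : W} {j : ℕ} (h1 : j < pw K q w) (h2 : j < M0) :
    fw K M0 w q j = (M0 : ℝ) ^ (-(1 / 2 : ℝ)) := by
  unfold fw
  rw [if_pos (lt_min h1 h2)]

private theorem fw_eq {K M0 : ℕ} {q : ℤ} {w : W} {j : ℕ} (h1 : j = pw K q w) (h2 : j < M0) :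
    fw K M0 w q j = Real.sqrt (((M0 : ℝ) - (pw K q w : ℝ)) / (M0 : ℝ)) := by
  unfold fw
  rw [if_neg, if_pos ⟨h1, h1 ▸ h2⟩]
  rw [lt_min_iff]
  omega

private theorem fw_gt {K M0 : ℕ} {q : ℤ} {w : W} {j : ℕ} (h : pw K q w < j ∨ M0 ≤ j) :
    fw K M0 w q j = 0 := by
  unfold fw
  rw [if_neg, if_neg]
  · omega
  · rw [lt_min_iff]
    omega

theorem isWeight_fw (K : ℕ) {M0 : ℕ} (h : 0 < M0) : IsWeight (fw K M0) := by
  have hM : (0 : ℝ) < M0 := by exact_mod_cast h
  refine ⟨fun w q j => ?_, fun w q j hj => ?_, fun w q => ?_⟩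
  · unfold fw
    split_ifs
    · exact Real.rpow_nonneg hM.le _
    · exact Real.sqrt_nonneg _
    · exact le_rfl
  · exact fw_gt (Or.inl (lt_of_le_of_lt (pw_le K q w) hj))
  · have hp := pw_le K q w
    obtain ⟨p, hpd⟩ : ∃ p, p = pw K q w := ⟨_, rfl⟩
    rw [← hpd] at hp
    rcases Nat.lt_or_ge p M0 with h1 | h1
    · obtain ⟨r, hr⟩ : ∃ r, w.length + 1 = (p + 1) + r := ⟨w.length - p, by omega⟩
      rw [hr, Finset.sum_range_add, Finset.sum_range_succ]
      have e1 : ∑ x ∈ Finset.range p, fw K M0 w q x ^ 2 = ∑ _x ∈ Finset.range p, 1 / (M0 : ℝ) := by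
        refine Finset.sum_congr rfl fun x hx => ?_
        rw [Finset.mem_range] at hx
        rw [fw_lt (by omega) (by omega), zg_c h]
      have e2 : ∑ x ∈ Finset.range r, fw K M0 w q (p + 1 + x) ^ 2 = 0 := by
        refine Finset.sum_eq_zero fun x _ => ?_
        rw [fw_gt (Or.inl (by omega))]
        norm_num
      rw [e1, e2, fw_eq hpd h1, Real.sq_sqrt, ← hpd, Finset.sum_const, Finset.card_range,
        nsmul_eq_mul]
      · field_simp
        ring
      · rw [← hpd]
        have h2 : (p : ℝ) ≤ M0 := by exact_mod_cast h1.le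
        exact div_nonneg (by linarith) hM.le
    · obtain ⟨r, hr⟩ : ∃ r, w.length + 1 = M0 + r := ⟨w.length + 1 - M0, by omega⟩
      rw [hr, Finset.sum_range_add]
      have e1 : ∑ x ∈ Finset.range M0, fw K M0 w q x ^ 2 = ∑ _x ∈ Finset.range M0, 1 / (M0 : ℝ) := by
        refine Finset.sum_congr rfl fun x hx => ?_
        rw [Finset.mem_range] at hx
        rw [fw_lt (by omega) (by omega), zg_c h]
      have e2 : ∑ x ∈ Finset.range r, fw K M0 w q (M0 + x) ^ 2 = 0 := by
        refine Finset.sum_eq_zero fun x _ => ?_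
        rw [fw_gt (Or.inr (by omega))]
        norm_num
      rw [e1, e2, Finset.sum_const, Finset.card_range, nsmul_eq_mul]
      field_simp
      ring

private theorem pw_cons {K : ℕ} {q : ℤ} {a : Lam} (w : W) (h : win K q a) :
    pw K q (a :: w) = pw K q w + 1 := by
  unfold pw
  rw [List.takeWhile_cons, if_pos (by simpa using h), List.length_cons]

private theorem sum_single (S : Finset ℕ) (g : ℕ → ℝ) (j0 : ℕ) (h : ∀ j, j ≠ j0 → g j = 0) :
    ∑ j ∈ S, g j ^ 2 ≤ g j0 ^ 2 := by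
  by_cases h1 : j0 ∈ S
  · rw [Finset.sum_eq_single_of_mem j0 h1 fun j _ hj => by rw [h j hj]; norm_num]
  · rw [Finset.sum_eq_zero fun j hj => by
      rw [h j fun h2 => h1 (h2 ▸ hj)]; norm_num]
    exact sq_nonneg _

theorem condY_fw {K M0 : ℕ} (h : 0 < M0) (t : T) (ht : ∀ i : ℕ, t = Sum.inl i → i < K) {N : ℤ} (hN : N ≤ (K : ℤ)) :
    CondY (fw K M0) t N ((M0 : ℝ) ^ (-(1 / 2 : ℝ))) := by
  have hM : (0 : ℝ) < M0 := by exact_mod_cast h
  intro s l q w hs hl
  have hwin : win K q (s, l) := by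
    refine ⟨?_, hl.trans hN⟩
    rcases s with i | b
    · show i < K
      rcases hs with hs | hs
      · exact ht i hs.symm
      · refine ht i ?_
        rw [← bar_bar t, ← hs]
        rfl
    · trivial
  have hpc := pw_cons w hwin
  obtain ⟨p, hp⟩ : ∃ p, p = pw K q w := ⟨_, rfl⟩
  rw [← hp] at hpc
  constructor
  · rw [zg_c h]
    rcases Nat.lt_or_ge p M0 with h1 | h1
    · refine (sum_single _ (fun j => fw K M0 ((s, l) :: w) q (j + 1) - fw K M0 w q j) p
        fun j hj => ?_).trans ?_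
      · rcases Nat.lt_or_gt_of_ne hj with h2 | h2
        · rw [fw_lt (by omega) (by omega), fw_lt (by omega) (by omega), sub_self]
        · rw [fw_gt (Or.inl (by omega)), fw_gt (Or.inl (by omega)), sub_self]
      · show (fw K M0 ((s, l) :: w) q (p + 1) - fw K M0 w q p) ^ 2 ≤ 1 / (M0 : ℝ)
        have e1 : fw K M0 ((s, l) :: w) q (p + 1) = Real.sqrt (((M0 : ℝ) - (p + 1 : ℝ)) / (M0 : ℝ)) := by
          rcases Nat.lt_or_ge (p + 1) M0 with h2 | h2
          · rw [fw_eq hpc.symm h2, hpc]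
            push_cast
            rfl
          · have h3 : M0 = p + 1 := by omega
            rw [fw_gt (Or.inr h2), h3]
            push_cast
            rw [sub_self, zero_div, Real.sqrt_zero]
        have e2 : fw K M0 w q p = Real.sqrt (((M0 : ℝ) - (p : ℝ)) / (M0 : ℝ)) := by
          rw [fw_eq hp h1, ← hp]
        rw [e1, e2]
        obtain ⟨x, hx⟩ : ∃ x : ℝ, x = ((M0 : ℝ) - (p + 1 : ℝ)) / (M0 : ℝ) := ⟨_, rfl⟩
        obtain ⟨y, hy⟩ : ∃ y : ℝ, y = ((M0 : ℝ) - (p : ℝ)) / (M0 : ℝ) := ⟨_, rfl⟩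
        have hxy : y = x + 1 / M0 := by
          rw [hx, hy]
          field_simp
          ring
        have hx0 : 0 ≤ x := by
          rw [hx]
          have h3 : ((p + 1 : ℕ) : ℝ) ≤ M0 := by exact_mod_cast h1
          push_cast at h3
          exact div_nonneg (by linarith) hM.le
        have h1M : 0 ≤ 1 / (M0 : ℝ) := by positivity
        have hy0 : 0 ≤ y := by rw [hxy]; linarith
        rw [← hx, ← hy]
        have s1 := Real.sq_sqrt hx0
        have s2 := Real.sq_sqrt hy0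
        have s3 : Real.sqrt x ≤ Real.sqrt y := Real.sqrt_le_sqrt (by rw [hxy]; linarith)
        have s4 := Real.sqrt_nonneg x
        nlinarith [mul_nonneg s4 (sub_nonneg.2 s3)]
    · refine (sum_single _ (fun j => fw K M0 ((s, l) :: w) q (j + 1) - fw K M0 w q j) (M0 - 1)
        fun j hj => ?_).trans ?_
      · rcases Nat.lt_or_gt_of_ne hj with h2 | h2
        · rw [fw_lt (by omega) (by omega), fw_lt (by omega) (by omega), sub_self]
        · rw [fw_gt (Or.inr (by omega)), fw_gt (Or.inr (by omega)), sub_self]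
      · show (fw K M0 ((s, l) :: w) q (M0 - 1 + 1) - fw K M0 w q (M0 - 1)) ^ 2 ≤ 1 / (M0 : ℝ)
        rw [fw_gt (Or.inr (by omega)), fw_lt (by omega) (by omega), zero_sub, neg_sq, zg_c h]
  · rw [fw_lt (by omega) h]

theorem fw_ne_zero {K M0 : ℕ} {w : W} {q : ℤ} {j : ℕ} (h : fw K M0 w q j ≠ 0) :
    j ≤ M0 ∧ ∀ a ∈ w.take j, win K q a := by
  have h1 : ¬ (pw K q w < j ∨ M0 ≤ j) := fun h2 => h (fw_gt h2)
  refine ⟨by omega, fun a ha => ?_⟩
  have h2 : w.takeWhile (fun a => decide (win K q a)) = w.take (pw K q w) :=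
    List.prefix_iff_eq_take.1 (List.takeWhile_prefix _)
  have h3 : a ∈ w.takeWhile (fun a => decide (win K q a)) := by
    rw [h2]
    exact (List.take_subset_take_left w (by omega)) ha
  have h4 := List.mem_takeWhile_imp h3
  simpa using h4

end OE
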