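import Mathlib
import Pool.Agent.Work.MP_06ef15_an.AN0

/-!
# ZH (block Z, size S-M): from the generators to `A`

`D i a = (Z i).comp a - (amp Idx a).comp (Z i)`.  Let `S` be the set of `a : BH` with `‖D i a‖ → 0` along `l`.
`S` contains `1` (`amp_one`), scalars, is closed under `+` (`amp_add`), and under products:
`D i (a b) = D i a ∘ b + amp a ∘ D i b` (`amp_mul`), `‖..‖ ≤ ‖D i a‖ ‖b‖ + ‖a‖ ‖D i b‖` (`norm_amp_le`).
It is closed in norm: if `‖a - b‖ ≤ δ` then `‖D i a‖ ≤ ‖D i b‖ + 2 δ` for the `i` with `‖Z i‖ ≤ 1` (`amp_sub`).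
`StarAlgebra.adjoin ℂ gens` is the algebra generated by `gens ∪ star gens`: use
`StarAlgebra.adjoin_eq` / `StarAlgebra.adjoin_toSubalgebra` and `Algebra.adjoin_induction` (or define the subalgebra of `a`
with both `a ∈ S` and `star a ∈ S`, which is a star subalgebra, and use `StarAlgebra.adjoin_induction`); finally
`A` is the topological closure (`mem_closure`, `Metric.mem_closure_iff`).
-/

set_option autoImplicit false

open scoped ComplexConjugate InnerProductSpace Classical Topology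
open Filter

namespace OE

private noncomputable abbrev DD (Z : H Idx →L[ℂ] H (Idx × Idx)) (a : BH) : H Idx →L[ℂ] H (Idx × Idx) :=
  Z.comp a - (amp Idx a).comp Z

private theorem DD_mul (Z : H Idx →L[ℂ] H (Idx × Idx)) (a b : BH) :
    DD Z (a * b) = (DD Z a).comp b + (amp Idx a).comp (DD Z b) := by
  unfold DD
  rw [amp_mul]
  refine ContinuousLinearMap.ext fun x => ?_
  show Z (a (b x)) - (amp Idx a) ((amp Idx b) (Z x)) =
    (Z (a (b x)) - (amp Idx a) (Z (b x))) + (amp Idx a) (Z (b x) - (amp Idx b) (Z x))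
  rw [map_sub]
  abel

private theorem norm_DD_mul (Z : H Idx →L[ℂ] H (Idx × Idx)) (a b : BH) :
    ‖DD Z (a * b)‖ ≤ ‖DD Z a‖ * ‖b‖ + ‖a‖ * ‖DD Z b‖ := by
  rw [DD_mul]
  refine (norm_add_le _ _).trans (add_le_add (ContinuousLinearMap.opNorm_comp_le _ _) ?_)
  exact (ContinuousLinearMap.opNorm_comp_le _ _).trans
    (mul_le_mul_of_nonneg_right (norm_amp_le a) (norm_nonneg _))

private theorem DD_add (Z : H Idx →L[ℂ] H (Idx × Idx)) (a b : BH) : DD Z (a + b) = DD Z a + DD Z b := by
  unfold DD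
  rw [amp_add]
  refine ContinuousLinearMap.ext fun x => ?_
  show Z (a x + b x) - ((amp Idx a) (Z x) + (amp Idx b) (Z x)) =
    (Z (a x) - (amp Idx a) (Z x)) + (Z (b x) - (amp Idx b) (Z x))
  rw [map_add]
  abel

private theorem norm_DD_le (Z : H Idx →L[ℂ] H (Idx × Idx)) (hZ : ‖Z‖ ≤ 1) (a : BH) : ‖DD Z a‖ ≤ 2 * ‖a‖ := by
  unfold DD
  refine (norm_sub_le _ _).trans ?_
  have h1 : ‖Z.comp a‖ ≤ ‖a‖ := by
    refine (ContinuousLinearMap.opNorm_comp_le _ _).trans ?_
    calc ‖Z‖ * ‖a‖ ≤ 1 * ‖a‖ := mul_le_mul_of_nonneg_right hZ (norm_nonneg _)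
      _ = ‖a‖ := one_mul _
  have h2 : ‖(amp Idx a).comp Z‖ ≤ ‖a‖ := by
    refine (ContinuousLinearMap.opNorm_comp_le _ _).trans ?_
    calc ‖amp Idx a‖ * ‖Z‖ ≤ ‖a‖ * 1 :=
          mul_le_mul (norm_amp_le a) hZ (norm_nonneg _) (norm_nonneg _)
      _ = ‖a‖ := mul_one _
  linarith

private theorem DD_one (Z : H Idx →L[ℂ] H (Idx × Idx)) : DD Z 1 = 0 := by
  unfold DD
  rw [amp_one]
  refine ContinuousLinearMap.ext fun x => ?_
  show Z x - Z x = 0
  exact sub_self _

private theorem DD_smul (Z : H Idx →L[ℂ] H (Idx × Idx)) (c : ℂ) (a : BH) : DD Z (c • a) = c • DD Z a := by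
  unfold DD
  rw [amp_smul]
  refine ContinuousLinearMap.ext fun x => ?_
  show Z (c • a x) - c • (amp Idx a) (Z x) = c • (Z (a x) - (amp Idx a) (Z x))
  rw [map_smul, smul_sub]

theorem approx_A {ι : Type} (l : Filter ι) (Z : ι → (H Idx →L[ℂ] H (Idx × Idx))) (hZ : ∀ᶠ i in l, ‖Z i‖ ≤ 1)
    (hg : ∀ x ∈ gens, Tendsto (fun i => ‖(Z i).comp x - (amp Idx x).comp (Z i)‖) l (𝓝 0))
    (hs : ∀ x ∈ gens, Tendsto (fun i => ‖(Z i).comp (star x) - (amp Idx (star x)).comp (Z i)‖) l (𝓝 0)) (a : A) :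
    Tendsto (fun i => ‖(Z i).comp (a : BH) - (amp Idx (a : BH)).comp (Z i)‖) l (𝓝 0) := by
  -- elements of the algebra generated by the generators and their adjoints
  have key : ∀ x : BH, x ∈ StarAlgebra.adjoin ℂ gens → Tendsto (fun i => ‖DD (Z i) x‖) l (𝓝 0) := by
    intro x hx
    have hx' : x ∈ Algebra.adjoin ℂ (gens ∪ star gens) := by
      rw [← StarAlgebra.adjoin_toSubalgebra]
      exact hx
    induction hx' using Algebra.adjoin_induction with
    | mem y hy =>
      rcases hy with hy | hy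
      · exact hg y hy
      · have h1 := hs (star y) hy
        rw [star_star] at h1
        exact h1
    | algebraMap r =>
      have h1 : (fun i => ‖DD (Z i) (algebraMap ℂ BH r)‖) = fun _ => (0 : ℝ) := by
        funext i
        rw [Algebra.algebraMap_eq_smul_one, DD_smul, DD_one, smul_zero, norm_zero]
      rw [h1]
      exact tendsto_const_nhds
    | add y z hy hz ihy ihz =>
      have hy' : y ∈ StarAlgebra.adjoin ℂ gens := by
        have : y ∈ (StarAlgebra.adjoin ℂ gens).toSubalgebra := by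
          rw [StarAlgebra.adjoin_toSubalgebra]; exact hy
        exact this
      have hz' : z ∈ StarAlgebra.adjoin ℂ gens := by
        have : z ∈ (StarAlgebra.adjoin ℂ gens).toSubalgebra := by
          rw [StarAlgebra.adjoin_toSubalgebra]; exact hz
        exact this
      have h1 := (ihy hy').add (ihz hz')
      rw [add_zero] at h1
      refine squeeze_zero (fun _ => norm_nonneg _) (fun i => ?_) h1
      rw [DD_add]
      exact norm_add_le _ _
    | mul y z hy hz ihy ihz =>
      have hy' : y ∈ StarAlgebra.adjoin ℂ gens := by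
        have : y ∈ (StarAlgebra.adjoin ℂ gens).toSubalgebra := by
          rw [StarAlgebra.adjoin_toSubalgebra]; exact hy
        exact this
      have hz' : z ∈ StarAlgebra.adjoin ℂ gens := by
        have : z ∈ (StarAlgebra.adjoin ℂ gens).toSubalgebra := by
          rw [StarAlgebra.adjoin_toSubalgebra]; exact hz
        exact this
      have h1 := ((ihy hy').mul_const ‖z‖).add ((ihz hz').const_mul ‖y‖)
      rw [zero_mul, mul_zero, add_zero] at h1
      exact squeeze_zero (fun _ => norm_nonneg _) (fun i => norm_DD_mul _ _ _) h1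
  have ha : (a : BH) ∈ closure ((StarAlgebra.adjoin ℂ gens : StarSubalgebra ℂ BH) : Set BH) := by
    have h1 : (a : BH) ∈ (StarAlgebra.adjoin ℂ gens).topologicalClosure := a.2
    rwa [← SetLike.mem_coe, StarSubalgebra.topologicalClosure_coe] at h1
  rw [Metric.tendsto_nhds]
  intro ε hε
  obtain ⟨b, hb, hab⟩ := Metric.mem_closure_iff.1 ha (ε / 4) (by linarith)
  have h2 := (Metric.tendsto_nhds.1 (key b hb)) (ε / 2) (by linarith)
  filter_upwards [hZ, h2] with i hi h3
  rw [Real.dist_eq, sub_zero, abs_of_nonneg (norm_nonneg _)] at h3 ⊢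
  have h4 : DD (Z i) (a : BH) = DD (Z i) b + DD (Z i) ((a : BH) - b) := by
    rw [← DD_add, add_sub_cancel]
  have h5 : ‖DD (Z i) ((a : BH) - b)‖ ≤ 2 * ‖(a : BH) - b‖ := norm_DD_le _ hi _
  rw [dist_eq_norm] at hab
  calc ‖DD (Z i) (a : BH)‖ ≤ ‖DD (Z i) b‖ + ‖DD (Z i) ((a : BH) - b)‖ := by
        rw [h4]; exact norm_add_le _ _
    _ < ε / 2 + 2 * (ε / 4) := by linarith
    _ = ε := by ring

end OE
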