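import Mathlib
import Pool.Agent.Work.MP_06ef15_an.ZD
import Pool.Agent.Work.MP_06ef15_an.ZF
import Pool.Agent.Work.MP_06ef15_an.ZG
import Pool.Agent.Work.MP_06ef15_an.ZH

/-!
# ZI (block Z, size M): (5.6), (8.4) approximation on finite subsets of `A`

Use `approx_A` with the iterated filter: `l = (atTop : Filter ℕ).curry ((atTop : Filter ℕ).curry ((atTop : Filter ℕ).curry atTop))`
on `ℕ × ℕ × ℕ × ℕ` (parameters `(k, L, K, M0)`; `Filter.eventually_curry_iff`: eventually in `k`, eventually in `L`,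
eventually in `K`, eventually in `M0`), and `Z (k,L,K,M0) = Zop k L (fw K M0)`.
Generators (`metric_tendsto` / `squeeze` by hand: to show `Tendsto (‖..‖) l (𝓝 0)` show for `ε > 0` eventually `≤ ε`):
 `g u`: for `k ≥ k0`, `u ∈ VF k` (`exists_mem_VF`, `VF_mono`), the difference is `0` (`Zop_g`); `star (g u)` is a multiple of
 `g (-u)` (`star_g`).  `Sg b`, `star (Sg b)`: `Zop_Sg`, `Zop_star_Sg`, `L^(-1/2) → 0`.  `Y t k1`: `Zop_Y` with `condY_fw`
 for `K ≥ |k1| + L` and `K > i` if `t = inl i`; bound `3 * M0^(-1/2) → 0`; `star (Y t k1) = Y (bar t) k1` (`star_Y`).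
 `‖Z‖ ≤ 1` for `L > 0`, `M0 > 0` (`norm_Zop_le`, `isWeight_fw`).
Then for the finite set `F` (`Finset.eventually_all` / `eventually_all_finset`) and the extra conditions `0 < L`, `0 < M0`,
`K' ≤ K`, take a point of the filter: unfold `eventually_curry_iff` and use `Eventually.exists` four times.
For the `c`-weights: `l = atTop.curry (atTop.curry (𝓝[<] 1))`, `Z (k,L,c) = Zop k L (fc c)`, eventually `0 < c < 1`
(`Ioo_mem_nhdsLT`), `Zop_Y` with `condY_fc`, bound `3 * sqrt (1-c^2) → 0` (`tendsto_fc`).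
-/

set_option autoImplicit false

open scoped ComplexConjugate InnerProductSpace Classical Topology
open Filter

namespace OE

private theorem ev_small (C : ℝ) {ε : ℝ} (hε : 0 < ε) :
    ∀ᶠ L : ℕ in atTop, C * (L : ℝ) ^ (-(1 / 2 : ℝ)) < ε := by
  have h : Tendsto (fun L : ℕ => C * (L : ℝ) ^ (-(1 / 2 : ℝ))) atTop (𝓝 (C * 0)) :=
    ((tendsto_rpow_neg_atTop (by norm_num : (0 : ℝ) < 1 / 2)).comp
      tendsto_natCast_atTop_atTop).const_mul C
  rw [mul_zero] at h
  exact h.eventually_lt_const hε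

private theorem tendsto_of {ι : Type} {l : Filter ι} {f : ι → ℝ} (h0 : ∀ i, 0 ≤ f i)
    (h : ∀ ε : ℝ, 0 < ε → ∀ᶠ i in l, f i < ε) : Tendsto f l (𝓝 0) := by
  rw [Metric.tendsto_nhds]
  intro ε hε
  filter_upwards [h ε hε] with i hi
  rw [Real.dist_eq, sub_zero, abs_of_nonneg (h0 i)]
  exact hi

/-- the difference for a star of `g`. -/
private theorem Zop_star_g {k L : ℕ} {f : W → ℤ → ℕ → ℝ} (hL : 0 < L) (hf : IsWeight f) {u : V}
    (hu : u ∈ VF k) :
    (Zop k L f).comp (star (g u)) = (amp Idx (star (g u))).comp (Zop k L f) := by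
  have h := Zop_g hL hf ((VF k).neg_mem hu)
  rw [star_g, amp_smul, ContinuousLinearMap.comp_smul, ContinuousLinearMap.smul_comp, h]

/-- abstract form: a filter `l1` of weights for each `L`. -/
private theorem approx_gen {P : Type} (lP : Filter P) (f : P → W → ℤ → ℕ → ℝ)
    (hf : ∀ᶠ p in lP, IsWeight (f p))
    (hY : ∀ (t : T) (N : ℤ) (ε : ℝ), 0 < ε → ∀ᶠ p in lP, CondY (f p) t N ε) (a : A) :
    Tendsto (fun i : ℕ × ℕ × P => ‖(Zop i.1 i.2.1 (f i.2.2)).comp (a : BH) -
      (amp Idx (a : BH)).comp (Zop i.1 i.2.1 (f i.2.2))‖)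
      ((atTop : Filter ℕ).curry ((atTop : Filter ℕ).curry lP)) (𝓝 0) := by
  have hYt : ∀ (t : T) (k1 : ℤ), Tendsto (fun i : ℕ × ℕ × P =>
      ‖(Zop i.1 i.2.1 (f i.2.2)).comp (Y t k1) -
        (amp Idx (Y t k1)).comp (Zop i.1 i.2.1 (f i.2.2))‖)
      ((atTop : Filter ℕ).curry ((atTop : Filter ℕ).curry lP)) (𝓝 0) := by
    intro t k1
    refine tendsto_of (fun _ => norm_nonneg _) fun ε hε => ?_
    rw [eventually_curry_iff]
    refine Eventually.of_forall fun k => ?_
    rw [eventually_curry_iff]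
    filter_upwards [eventually_gt_atTop 0] with L hL
    filter_upwards [hf, hY t (|k1| + (L : ℤ)) (ε / 6) (by positivity)] with p hp hc
    have := Zop_Y (k := k) hL hp t k1 (by positivity) hc
    show ‖(Zop k L (f p)).comp (Y t k1) - (amp Idx (Y t k1)).comp (Zop k L (f p))‖ < ε
    linarith
  refine approx_A _ (fun i : ℕ × ℕ × P => Zop i.1 i.2.1 (f i.2.2)) ?_ ?_ ?_ a
  · rw [eventually_curry_iff]
    refine Eventually.of_forall fun k => ?_
    rw [eventually_curry_iff]
    filter_upwards [eventually_gt_atTop 0] with L hL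
    filter_upwards [hf] with p hp
    exact norm_Zop_le hL hp
  · rintro x (⟨t, k1, rfl⟩ | ⟨u, rfl⟩ | ⟨b, rfl⟩)
    · exact hYt t k1
    · refine tendsto_of (fun _ => norm_nonneg _) fun ε hε => ?_
      obtain ⟨k0, hk0⟩ := exists_mem_VF u
      rw [eventually_curry_iff]
      filter_upwards [eventually_ge_atTop k0] with k hk
      rw [eventually_curry_iff]
      filter_upwards [eventually_gt_atTop 0] with L hL
      filter_upwards [hf] with p hp
      show ‖(Zop k L (f p)).comp (g u) - (amp Idx (g u)).comp (Zop k L (f p))‖ < ε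
      rw [Zop_g hL hp (VF_mono hk hk0), sub_self, norm_zero]
      exact hε
    · refine tendsto_of (fun _ => norm_nonneg _) fun ε hε => ?_
      rw [eventually_curry_iff]
      refine Eventually.of_forall fun k => ?_
      rw [eventually_curry_iff]
      filter_upwards [eventually_gt_atTop 0, ev_small 2 hε] with L hL hL2
      filter_upwards [hf] with p hp
      exact (Zop_Sg hL hp b).trans_lt hL2
  · rintro x (⟨t, k1, rfl⟩ | ⟨u, rfl⟩ | ⟨b, rfl⟩)
    · rw [star_Y]
      exact hYt (bar t) k1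
    · refine tendsto_of (fun _ => norm_nonneg _) fun ε hε => ?_
      obtain ⟨k0, hk0⟩ := exists_mem_VF u
      rw [eventually_curry_iff]
      filter_upwards [eventually_ge_atTop k0] with k hk
      rw [eventually_curry_iff]
      filter_upwards [eventually_gt_atTop 0] with L hL
      filter_upwards [hf] with p hp
      show ‖(Zop k L (f p)).comp (star (g u)) - (amp Idx (star (g u))).comp (Zop k L (f p))‖ < ε
      rw [Zop_star_g hL hp (VF_mono hk hk0), sub_self, norm_zero]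
      exact hε
    · refine tendsto_of (fun _ => norm_nonneg _) fun ε hε => ?_
      rw [eventually_curry_iff]
      refine Eventually.of_forall fun k => ?_
      rw [eventually_curry_iff]
      filter_upwards [eventually_gt_atTop 0, ev_small 4 hε] with L hL hL2
      filter_upwards [hf] with p hp
      exact (Zop_star_Sg hL hp b).trans_lt hL2

/-- (5.6) for window weights, `K` and `M0` as large as wanted. -/
theorem approx_fw (F : Finset A) (K' : ℕ) (ε : ℝ) (hε : 0 < ε) :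
    ∃ k L K M0 : ℕ, 0 < L ∧ 0 < M0 ∧ K' ≤ K ∧ ∀ a ∈ F,
      ‖(Zop k L (fw K M0)).comp (a : BH) - (amp Idx (a : BH)).comp (Zop k L (fw K M0))‖ ≤ ε := by
  set lP : Filter (ℕ × ℕ) := (atTop : Filter ℕ).curry (atTop : Filter ℕ) with hlP
  have h1 : ∀ᶠ p : ℕ × ℕ in lP, IsWeight (fw p.1 p.2) := by
    rw [hlP, eventually_curry_iff]
    refine Eventually.of_forall fun K => ?_
    filter_upwards [eventually_gt_atTop 0] with M0 hM0
    exact isWeight_fw K hM0
  have h2 : ∀ (t : T) (N : ℤ) (ε : ℝ), 0 < ε → ∀ᶠ p : ℕ × ℕ in lP,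
      CondY (fw p.1 p.2) t N ε := by
    intro t N ε hε
    have hK : ∀ᶠ K : ℕ in atTop, ∀ i : ℕ, t = Sum.inl i → i < K := by
      rcases t with i | b
      · filter_upwards [eventually_gt_atTop i] with K hK j hj
        rw [Sum.inl.injEq] at hj
        omega
      · exact Eventually.of_forall fun K i hi => by cases hi
    rw [hlP, eventually_curry_iff]
    filter_upwards [hK, eventually_ge_atTop N.toNat] with K hK1 hK2
    filter_upwards [eventually_gt_atTop 0, ev_small 1 hε] with M0 hM0 hM1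
    rw [one_mul] at hM1
    have h3 := condY_fw hM0 t hK1 (N := N) (by omega)
    intro s l q w hs hlq
    obtain ⟨h4, h5⟩ := h3 s l q w hs hlq
    refine ⟨h4.trans ?_, h5.trans hM1.le⟩
    have h0 : 0 ≤ (M0 : ℝ) ^ (-(1 / 2 : ℝ)) := by positivity
    exact pow_le_pow_left₀ h0 hM1.le 2
  have h3 : ∀ᶠ i : ℕ × ℕ × ℕ × ℕ in (atTop : Filter ℕ).curry ((atTop : Filter ℕ).curry lP),
      ∀ a ∈ F, ‖(Zop i.1 i.2.1 (fw i.2.2.1 i.2.2.2)).comp (a : BH) -
        (amp Idx (a : BH)).comp (Zop i.1 i.2.1 (fw i.2.2.1 i.2.2.2))‖ < ε := by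
    rw [eventually_all_finset]
    intro a _
    exact (approx_gen lP (fun p => fw p.1 p.2) h1 h2 a).eventually_lt_const hε
  rw [eventually_curry_iff] at h3
  obtain ⟨k, h4⟩ := h3.exists
  rw [eventually_curry_iff] at h4
  obtain ⟨L, h5, hL⟩ := (h4.and (eventually_gt_atTop 0)).exists
  rw [hlP, eventually_curry_iff] at h5
  obtain ⟨K, h6, hK⟩ := (h5.and (eventually_ge_atTop K')).exists
  obtain ⟨M0, h7, hM0⟩ := (h6.and (eventually_gt_atTop 0)).exists
  exact ⟨k, L, K, M0, hL, hM0, hK, fun a ha => (h7 a ha).le⟩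

/-- (8.4): the same for the `c`-weights. -/
theorem approx_fc (F : Finset A) (ε : ℝ) (hε : 0 < ε) :
    ∃ (k L : ℕ) (c : ℝ), 0 < L ∧ 0 < c ∧ c < 1 ∧ ∀ a ∈ F,
      ‖(Zop k L (fc c)).comp (a : BH) - (amp Idx (a : BH)).comp (Zop k L (fc c))‖ ≤ ε := by
  have h0 : ∀ᶠ c : ℝ in 𝓝[<] 1, 0 < c ∧ c < 1 := Ioo_mem_nhdsLT (by norm_num : (0 : ℝ) < 1)
  have h1 : ∀ᶠ c : ℝ in 𝓝[<] 1, IsWeight (fc c) := by
    filter_upwards [h0] with c hc
    exact isWeight_fc hc.1 hc.2.le
  have h2 : ∀ (t : T) (N : ℤ) (ε : ℝ), 0 < ε → ∀ᶠ c : ℝ in 𝓝[<] 1, CondY (fc c) t N ε := by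
    intro t N ε hε
    filter_upwards [h0, tendsto_fc.eventually_lt_const hε] with c hc hc2
    have h3 := condY_fc hc.1 hc.2.le t N
    intro s l q w hs hlq
    obtain ⟨h4, h5⟩ := h3 s l q w hs hlq
    exact ⟨h4.trans (pow_le_pow_left₀ (Real.sqrt_nonneg _) hc2.le 2), h5.trans hc2.le⟩
  have h3 : ∀ᶠ i : ℕ × ℕ × ℝ in (atTop : Filter ℕ).curry ((atTop : Filter ℕ).curry (𝓝[<] (1 : ℝ))),
      ∀ a ∈ F, ‖(Zop i.1 i.2.1 (fc i.2.2)).comp (a : BH) -
        (amp Idx (a : BH)).comp (Zop i.1 i.2.1 (fc i.2.2))‖ < ε := by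
    rw [eventually_all_finset]
    intro a _
    exact (approx_gen (𝓝[<] (1 : ℝ)) fc h1 h2 a).eventually_lt_const hε
  rw [eventually_curry_iff] at h3
  obtain ⟨k, h4⟩ := h3.exists
  rw [eventually_curry_iff] at h4
  obtain ⟨L, h5, hL⟩ := (h4.and (eventually_gt_atTop 0)).exists
  obtain ⟨c, h6, hc⟩ := (h5.and h0).exists
  exact ⟨k, L, c, hL, hc.1, hc.2, fun a ha => (h6 a ha).le⟩

end OE
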