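import Mathlib
import Pool.Agent.Work.MP_06ef15_an.ZG

/-!
# ZJ (block Z, size M): the window isometry has range in `ℓ²(G) ⊗ H`, `G` finite

`G` = all `(u,(v',(n',m')))` with `u` a word of length `≤ M0` in the letters `(t,l)`, `t = inl i`, `i < K`, or `t = inr b`,
`|l| ≤ K` (finitely many letters; words: e.g. `(Finset.range (M0+1)).biUnion fun r => (Finset.univ : Finset (Fin r → letters)).image ..`
or simply `Set.Finite` via `List.finite_length_le` on a finite alphabet and `Set.Finite.toFinset`), `v' ∈ VFin k`, and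
`(n',m') = (nn μ, actM μ m1)` for a list `μ` of length `< L` (`List.finite_length_lt`).
For `p ∈ zS k L x.1` with non-zero coefficient (`fw_ne_zero`), the first component of `zi x p` lies in `G`: the letters of
`sh q (w.take j)` are `(a.1, a.2 + q)`, `a ∈ w.take j`, `win K q a`.
Proof of the identity: `ext_e`, `Zop_e'`, `map_sum`, `map_smul`, `amp_pr` (BE): `amp (pr G) (e (i,j)) = e (i,j)` if `i ∈ G`
(`pr_e_mem`), and terms with coefficient `0` vanish on both sides.
-/

set_option autoImplicit false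

open scoped ComplexConjugate InnerProductSpace Classical
open ContinuousLinearMap (adjoint)

namespace OE

private theorem finite_letters (K : ℕ) : {a : Lam | win K 0 a}.Finite := by
  have h : ((Set.range (fun i : Fin K => (Sum.inl (i : ℕ) : T)) ∪
      Set.range (fun b : Bool => (Sum.inr b : T))) ×ˢ Set.Icc (-(K : ℤ)) K).Finite :=
    ((Set.finite_range _).union (Set.finite_range _)).prod (Set.finite_Icc _ _)
  refine h.subset ?_
  rintro ⟨t, l⟩ ⟨h1, h2⟩
  refine ⟨?_, ?_⟩
  · rcases t with i | b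
    · exact Or.inl ⟨⟨i, h1⟩, rfl⟩
    · exact Or.inr ⟨b, rfl⟩
  · have h3 : |l| ≤ (K : ℤ) := by simpa using h2
    exact abs_le.1 h3

private theorem finite_words {P : Lam → Prop} (h : {a | P a}.Finite) (N : ℕ) :
    {w : W | w.length ≤ N ∧ ∀ a ∈ w, P a}.Finite := by
  have : Finite {a // P a} := h
  refine ((List.finite_length_le {a // P a} N).image (List.map Subtype.val)).subset ?_
  rintro w ⟨h1, h2⟩
  refine ⟨w.attachWith P h2, ?_, ?_⟩
  · simpa using h1
  · simp only [List.map_attachWith, List.map_attach_eq_pmap, List.pmap_eq_map, List.map_id']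

private theorem finite_q (k L : ℕ) :
    {x : Q | x.1 ∈ VFin k ∧ ∃ μ : List Bool, μ.length < L ∧ x.2 = (nn μ, actM μ m1)}.Finite := by
  refine (((VFin k).finite_toSet).prod
    ((List.finite_length_lt Bool L).image (fun μ => ((nn μ, actM μ m1) : ℤ × M)))).subset ?_
  rintro ⟨v, y⟩ ⟨h1, μ, h2, h3⟩
  exact ⟨h1, μ, h2, h3.symm⟩

theorem exists_window_set (k : ℕ) {L : ℕ} (hL : 0 < L) (K : ℕ) {M0 : ℕ} (hM : 0 < M0) :
    ∃ G : Finset Idx, (amp Idx (pr (G : Set Idx))).comp (Zop k L (fw K M0)) = Zop k L (fw K M0) := by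
  have hfin := (finite_words (finite_letters K) M0).prod (finite_q k L)
  refine ⟨hfin.toFinset, ?_⟩
  apply ext_e
  intro x
  rw [ContinuousLinearMap.comp_apply, Zop_e' hL (isWeight_fw K hM) x, map_sum]
  refine Finset.sum_congr rfl fun p hp => ?_
  rw [map_smul]
  by_cases hc : fw K M0 x.1 (x.2.2.1 - nn (dig p.2.1 x.2.2.2)) p.2.2 = 0
  · rw [hc]
    simp
  · congr 1
    rw [amp_pr]
    apply pr_e_mem
    obtain ⟨h1, h2⟩ := fw_ne_zero hc
    obtain ⟨h3, h4, h5⟩ := mem_zS.1 hp
    rw [Set.mem_ofPred_eq, Set.Finite.coe_toFinset]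
    refine ⟨⟨?_, ?_⟩, h3, dig p.2.1 x.2.2.2, ?_, rfl⟩
    · show (sh _ (x.1.take p.2.2)).length ≤ M0
      unfold sh
      rw [List.length_map, List.length_take]
      omega
    · intro a ha
      change a ∈ sh _ (x.1.take p.2.2) at ha
      unfold sh at ha
      rw [List.mem_map] at ha
      obtain ⟨b, hb, rfl⟩ := ha
      obtain ⟨h6, h7⟩ := h2 b hb
      refine ⟨h6, ?_⟩
      simpa using h7
    · rw [length_dig]
      exact h4

end OE
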