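import Mathlib
import Pool.Agent.Work.MP_06ef15_an.ASM

/-!
# ZK (block Z, size M): the two completely positive maps from a splitting isometry with finite first window

`N = G.card`, `J : EuclideanSpace ℂ (Fin N) →L[ℂ] H Idx` the isometry sending the standard basis to `e i`, `i ∈ G`
(`G.equivFin`; e.g. `J x = ∑ i : Fin N, x i • e (G.equivFin.symm i)`), so `J* J = 1` and `J J* = pr G` (`ext_e`, `pr_e`).
`φ a = J* a J`, `ψ x = Z* amp(J x J*) Z`, both linear.
* complete positivity of `φ`: `∑ star (b i) φ (star (a i) a j) b j = adjoint X ∘ X` with `X = ∑ j, a j ∘ J ∘ b j`, which is `≥ 0`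
  (`ContinuousLinearMap.isPositive_adjoint_comp_self`, `ContinuousLinearMap.nonneg_iff_isPositive`; in Mathlib the order on
  `E →L[ℂ] E` is the Loewner order).
* of `ψ`: `J (star (a i) a j) J* = star (J a_i J*) (J a_j J*)` since `J* J = 1`; `amp` is multiplicative and compatible with
  `star`; `X = ∑ j, amp (J a_j J*) ∘ Z ∘ b j : H Idx →L[ℂ] H (Idx × Idx)`.
* norms: `‖J‖ ≤ 1`, `‖Z‖ ≤ 1`, `norm_amp_le`.
* `ψ (φ a) = Z* amp(pr G * a * pr G) Z = Z* amp(a) Z` by `hG` (and its adjoint `Z* amp(pr G) = Z*`, `star_pr`), and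
  `Z* amp(a) Z - a = Z* (amp(a) Z - Z a)` because `Z* Z = 1` (`hZ`), norm `≤ ε / 2 < ε`.
-/

set_option autoImplicit false

open scoped ComplexConjugate InnerProductSpace Classical
open ContinuousLinearMap (adjoint)

namespace OE

private noncomputable def JJ {n : ℕ} (f : Fin n → Idx) : EuclideanSpace ℂ (Fin n) →L[ℂ] H Idx :=
  ∑ i : Fin n, (EuclideanSpace.proj i : EuclideanSpace ℂ (Fin n) →L[ℂ] ℂ).smulRight (e (f i))

private theorem JJ_apply {n : ℕ} (f : Fin n → Idx) (x : EuclideanSpace ℂ (Fin n)) :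
    JJ f x = ∑ i : Fin n, x i • (e (f i) : H Idx) := by
  unfold JJ
  rw [ContinuousLinearMap.sum_apply]
  rfl

private theorem JJ_inner {n : ℕ} {f : Fin n → Idx} (hf : Function.Injective f)
    (x y : EuclideanSpace ℂ (Fin n)) : ⟪JJ f x, JJ f y⟫_ℂ = ⟪x, y⟫_ℂ := by
  rw [JJ_apply, JJ_apply, sum_inner, PiLp.inner_apply]
  refine Finset.sum_congr rfl fun i _ => ?_
  rw [inner_sum, Finset.sum_eq_single i]
  · rw [inner_smul_left, inner_smul_right, inner_e_e, if_pos rfl, mul_one]
    simp [mul_comm]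
  · intro j _ hj
    rw [inner_smul_left, inner_smul_right, inner_e_e, if_neg fun h => hj (hf h).symm, mul_zero,
      mul_zero]
  · intro h
    exact absurd (Finset.mem_univ i) h

private theorem JJ_comp {n : ℕ} {f : Fin n → Idx} (hf : Function.Injective f) :
    (adjoint (JJ f)).comp (JJ f) = 1 := by
  refine ContinuousLinearMap.ext fun x => ext_inner_left ℂ fun y => ?_
  rw [ContinuousLinearMap.comp_apply, ContinuousLinearMap.adjoint_inner_right, JJ_inner hf]
  rfl

private theorem JJ_single {n : ℕ} (f : Fin n → Idx) (k : Fin n) :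
    JJ f (EuclideanSpace.single k (1 : ℂ)) = e (f k) := by
  rw [JJ_apply, Finset.sum_eq_single k]
  · simp
  · intro j _ hj
    simp [hj]
  · intro h
    exact absurd (Finset.mem_univ k) h

private theorem JJ_adj {n : ℕ} {f : Fin n → Idx} (x : Idx) (k : Fin n) :
    (adjoint (JJ f) (e x)) k = if f k = x then 1 else 0 := by
  have h := EuclideanSpace.inner_single_left k (1 : ℂ) (adjoint (JJ f) (e x))
  rw [ContinuousLinearMap.adjoint_inner_right, JJ_single, inner_e_e, map_one, one_mul] at h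
  by_cases hk : f k = x
  · rw [if_pos hk]
    rw [if_pos hk] at h
    exact h.symm
  · rw [if_neg hk]
    rw [if_neg hk] at h
    exact h.symm

private theorem JJ_proj {n : ℕ} {f : Fin n → Idx} (hf : Function.Injective f) :
    (JJ f).comp (adjoint (JJ f)) = pr (Set.range f) := by
  refine ext_e fun x => ?_
  rw [ContinuousLinearMap.comp_apply, JJ_apply, pr_e]
  by_cases hx : x ∈ Set.range f
  · obtain ⟨k, rfl⟩ := hx
    rw [if_pos ⟨k, rfl⟩, Finset.sum_eq_single k]
    · rw [JJ_adj, if_pos rfl, one_smul]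
    · intro j _ hj
      rw [JJ_adj, if_neg fun h => hj (hf h), zero_smul]
    · intro h
      exact absurd (Finset.mem_univ k) h
  · rw [if_neg hx]
    refine Finset.sum_eq_zero fun k _ => ?_
    rw [JJ_adj, if_neg fun h => hx ⟨k, h⟩, zero_smul]

private theorem norm_le_one_of_adj {E F : Type*} [NormedAddCommGroup E] [InnerProductSpace ℂ E]
    [CompleteSpace E] [NormedAddCommGroup F] [InnerProductSpace ℂ F] [CompleteSpace F]
    {T : E →L[ℂ] F} (h : (adjoint T).comp T = 1) : ‖T‖ ≤ 1 := by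
  have h1 : ‖T‖ * ‖T‖ ≤ 1 := by
    rw [← ContinuousLinearMap.norm_adjoint_comp_self, h]
    exact ContinuousLinearMap.norm_id_le
  nlinarith [norm_nonneg T]

private theorem norm_adj_le_one {E F : Type*} [NormedAddCommGroup E] [InnerProductSpace ℂ E]
    [CompleteSpace E] [NormedAddCommGroup F] [InnerProductSpace ℂ F] [CompleteSpace F]
    {T : E →L[ℂ] F} (h : (adjoint T).comp T = 1) : ‖adjoint T‖ ≤ 1 := by
  have h1 : ‖adjoint T‖ = ‖T‖ := LinearIsometryEquiv.norm_map adjoint T
  rw [h1]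
  exact norm_le_one_of_adj h

private theorem norm_comp3 {E F : Type*} [NormedAddCommGroup E] [InnerProductSpace ℂ E]
    [CompleteSpace E] [NormedAddCommGroup F] [InnerProductSpace ℂ F] [CompleteSpace F]
    {T : E →L[ℂ] F} (h : (adjoint T).comp T = 1) (y : F →L[ℂ] F) :
    ‖(adjoint T).comp (y.comp T)‖ ≤ ‖y‖ := by
  refine (ContinuousLinearMap.opNorm_comp_le _ _).trans ?_
  have h1 : ‖y.comp T‖ ≤ ‖y‖ := by
    refine (ContinuousLinearMap.opNorm_comp_le _ _).trans ?_
    calc ‖y‖ * ‖T‖ ≤ ‖y‖ * 1 := mul_le_mul_of_nonneg_left (norm_le_one_of_adj h) (norm_nonneg _)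
      _ = ‖y‖ := mul_one _
  calc ‖adjoint T‖ * ‖y.comp T‖ ≤ 1 * ‖y‖ :=
        mul_le_mul (norm_adj_le_one h) h1 (norm_nonneg _) zero_le_one
    _ = ‖y‖ := one_mul _

private theorem norm_comp3' {E F : Type*} [NormedAddCommGroup E] [InnerProductSpace ℂ E]
    [CompleteSpace E] [NormedAddCommGroup F] [InnerProductSpace ℂ F] [CompleteSpace F]
    {T : E →L[ℂ] F} (h : (adjoint T).comp T = 1) (y : E →L[ℂ] E) :
    ‖T.comp (y.comp (adjoint T))‖ ≤ ‖y‖ := by
  refine (ContinuousLinearMap.opNorm_comp_le _ _).trans ?_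
  have h1 : ‖y.comp (adjoint T)‖ ≤ ‖y‖ := by
    refine (ContinuousLinearMap.opNorm_comp_le _ _).trans ?_
    calc ‖y‖ * ‖adjoint T‖ ≤ ‖y‖ * 1 :=
          mul_le_mul_of_nonneg_left (norm_adj_le_one h) (norm_nonneg _)
      _ = ‖y‖ := mul_one _
  calc ‖T‖ * ‖y.comp (adjoint T)‖ ≤ 1 * ‖y‖ :=
        mul_le_mul (norm_le_one_of_adj h) h1 (norm_nonneg _) zero_le_one
    _ = ‖y‖ := one_mul _

/-- positivity of `∑ star (b i) (T i)* (T j) (b j)`. -/
private theorem pos_aux {E F : Type*} [NormedAddCommGroup E] [InnerProductSpace ℂ E]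
    [CompleteSpace E] [NormedAddCommGroup F] [InnerProductSpace ℂ F] [CompleteSpace F] {k : ℕ}
    (X : Fin k → (E →L[ℂ] F)) : 0 ≤ ∑ i, ∑ j, (adjoint (X i)).comp (X j) := by
  have h : ∑ i, ∑ j, (adjoint (X i)).comp (X j) = (adjoint (∑ i, X i)).comp (∑ j, X j) := by
    refine ContinuousLinearMap.ext fun x => ?_
    rw [map_sum]
    simp only [ContinuousLinearMap.sum_apply, ContinuousLinearMap.comp_apply, map_sum]
    exact Finset.sum_comm
  rw [h, ContinuousLinearMap.nonneg_iff_isPositive]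
  exact ContinuousLinearMap.isPositive_adjoint_comp_self _

private theorem e2_aux {E F : Type*} [NormedAddCommGroup E] [InnerProductSpace ℂ E]
    [CompleteSpace E] [NormedAddCommGroup F] [InnerProductSpace ℂ F] [CompleteSpace F]
    (Z : E →L[ℂ] F) (P B : F →L[ℂ] F) (a : E →L[ℂ] E) (hZ : (adjoint Z).comp Z = 1)
    (hp : P.comp Z = Z) (hp' : (adjoint Z).comp P = adjoint Z) :
    (adjoint Z).comp ((P * B * P).comp Z) - a =
      -((adjoint Z).comp (Z.comp a - B.comp Z)) := by
  have h1 : ∀ v, P (Z v) = Z v := fun v => DFunLike.congr_fun hp v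
  have h2 : ∀ v, (adjoint Z) (P v) = (adjoint Z) v := fun v => DFunLike.congr_fun hp' v
  have h3 : ∀ v, (adjoint Z) (Z v) = v := fun v => DFunLike.congr_fun hZ v
  refine ContinuousLinearMap.ext fun v => ?_
  show (adjoint Z) (P (B (P (Z v)))) - a v = -((adjoint Z) (Z (a v) - B (Z v)))
  rw [h1, h2, map_sub, h3]
  abel

private theorem e5_aux {E F : Type*} [NormedAddCommGroup E] [InnerProductSpace ℂ E]
    [CompleteSpace E] [NormedAddCommGroup F] [InnerProductSpace ℂ F] [CompleteSpace F]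
    (Z : E →L[ℂ] F) (P B : F →L[ℂ] F) (a : E →L[ℂ] E) (hZ : (adjoint Z).comp Z = 1)
    (hp : P.comp Z = Z) (hp' : (adjoint Z).comp P = adjoint Z) {ε : ℝ} (hε : 0 < ε)
    (h : ‖Z.comp a - B.comp Z‖ ≤ ε / 2) :
    ‖(adjoint Z).comp ((P * B * P).comp Z) - a‖ < ε := by
  rw [e2_aux Z P B a hZ hp hp', norm_neg]
  refine lt_of_le_of_lt (ContinuousLinearMap.opNorm_comp_le _ _) ?_
  calc ‖adjoint Z‖ * ‖Z.comp a - B.comp Z‖ ≤ 1 * (ε / 2) :=
        mul_le_mul (norm_adj_le_one hZ) h (norm_nonneg _) zero_le_one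
    _ < ε := by linarith

theorem exact_aux (G : Finset Idx) (Z : H Idx →L[ℂ] H (Idx × Idx)) (hZ : (adjoint Z).comp Z = 1)
    (hG : (amp Idx (pr (G : Set Idx))).comp Z = Z) (F : Finset A) (ε : ℝ) (hε : 0 < ε)
    (h : ∀ a ∈ F, ‖Z.comp (a : BH) - (amp Idx (a : BH)).comp Z‖ ≤ ε / 2) :
    ∃ (n : ℕ)
      (φ : A →ₗ[ℂ] (EuclideanSpace ℂ (Fin n) →L[ℂ] EuclideanSpace ℂ (Fin n)))
      (ψ : (EuclideanSpace ℂ (Fin n) →L[ℂ] EuclideanSpace ℂ (Fin n)) →ₗ[ℂ] (H Idx →L[ℂ] H Idx)),
      (∀ (k : ℕ) (a : Fin k → A)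
          (b : Fin k → (EuclideanSpace ℂ (Fin n) →L[ℂ] EuclideanSpace ℂ (Fin n))),
          0 ≤ ∑ i, ∑ j, star (b i) * φ (star (a i) * a j) * b j) ∧
      (∀ (k : ℕ)
          (a : Fin k → (EuclideanSpace ℂ (Fin n) →L[ℂ] EuclideanSpace ℂ (Fin n)))
          (b : Fin k → (H Idx →L[ℂ] H Idx)),
          0 ≤ ∑ i, ∑ j, star (b i) * ψ (star (a i) * a j) * b j) ∧
      (∀ a : A, ‖φ a‖ ≤ ‖a‖) ∧
      (∀ x : EuclideanSpace ℂ (Fin n) →L[ℂ] EuclideanSpace ℂ (Fin n), ‖ψ x‖ ≤ ‖x‖) ∧
      ∀ a ∈ F, ‖ψ (φ a) - (a : BH)‖ < ε := by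
  obtain ⟨f, hf, hfG⟩ : ∃ f : Fin G.card → Idx, Function.Injective f ∧ Set.range f = (G : Set Idx) := by
    refine ⟨fun i => (G.equivFin.symm i : Idx), fun i j hij => ?_, ?_⟩
    · exact G.equivFin.symm.injective (Subtype.ext hij)
    · ext x
      constructor
      · rintro ⟨i, rfl⟩
        exact (G.equivFin.symm i).2
      · intro hx
        exact ⟨G.equivFin ⟨x, hx⟩, by simp⟩
  obtain ⟨J, hJ1, hJ2⟩ : ∃ J : EuclideanSpace ℂ (Fin G.card) →L[ℂ] H Idx,
      (adjoint J).comp J = 1 ∧ J.comp (adjoint J) = pr (G : Set Idx) :=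
    ⟨JJ f, JJ_comp hf, by rw [JJ_proj hf, hfG]⟩
  let φ : A →ₗ[ℂ] (EuclideanSpace ℂ (Fin G.card) →L[ℂ] EuclideanSpace ℂ (Fin G.card)) :=
    { toFun := fun a => (adjoint J).comp ((a : BH).comp J)
      map_add' := fun a b => by
        refine ContinuousLinearMap.ext fun x => ?_
        show adjoint J (((a + b : A) : BH) (J x)) = adjoint J ((a : BH) (J x)) + adjoint J ((b : BH) (J x))
        rw [← map_add]
        rfl
      map_smul' := fun c a => by
        refine ContinuousLinearMap.ext fun x => ?_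
        show adjoint J (((c • a : A) : BH) (J x)) = c • adjoint J ((a : BH) (J x))
        rw [← map_smul]
        rfl }
  let ψ : (EuclideanSpace ℂ (Fin G.card) →L[ℂ] EuclideanSpace ℂ (Fin G.card)) →ₗ[ℂ]
      (H Idx →L[ℂ] H Idx) :=
    { toFun := fun x => (adjoint Z).comp ((amp Idx (J.comp (x.comp (adjoint J)))).comp Z)
      map_add' := fun x y => by
        have e1 : J.comp ((x + y).comp (adjoint J)) =
            J.comp (x.comp (adjoint J)) + J.comp (y.comp (adjoint J)) := by
          refine ContinuousLinearMap.ext fun v => ?_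
          show J (x (adjoint J v) + y (adjoint J v)) = J (x (adjoint J v)) + J (y (adjoint J v))
          rw [map_add]
        rw [e1, amp_add]
        refine ContinuousLinearMap.ext fun v => ?_
        show adjoint Z (amp Idx (J.comp (x.comp (adjoint J))) (Z v) +
          amp Idx (J.comp (y.comp (adjoint J))) (Z v)) = _
        rw [map_add]
        rfl
      map_smul' := fun c x => by
        have e1 : J.comp ((c • x).comp (adjoint J)) = c • J.comp (x.comp (adjoint J)) := by
          refine ContinuousLinearMap.ext fun v => ?_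
          show J (c • x (adjoint J v)) = c • J (x (adjoint J v))
          rw [map_smul]
        rw [e1, amp_smul]
        refine ContinuousLinearMap.ext fun v => ?_
        show adjoint Z (c • amp Idx (J.comp (x.comp (adjoint J))) (Z v)) = _
        rw [map_smul]
        rfl }
  have hφ : ∀ a : A, φ a = (adjoint J).comp ((a : BH).comp J) := fun a => rfl
  have hψ : ∀ x, ψ x = (adjoint Z).comp ((amp Idx (J.comp (x.comp (adjoint J)))).comp Z) :=
    fun x => rfl
  refine ⟨G.card, φ, ψ, fun k a b => ?_, fun k a b => ?_, fun a => ?_, fun x => ?_, fun a ha => ?_⟩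
  · have e : ∑ i, ∑ j, star (b i) * φ (star (a i) * a j) * b j =
        ∑ i, ∑ j, (adjoint ((a i : BH).comp (J.comp (b i)))).comp ((a j : BH).comp (J.comp (b j))) := by
      refine Finset.sum_congr rfl fun i _ => Finset.sum_congr rfl fun j _ => ?_
      rw [ContinuousLinearMap.adjoint_comp, ContinuousLinearMap.adjoint_comp]
      rfl
    rw [e]
    exact pos_aux _
  · have hJ3 : ∀ i j, J.comp ((star (a i) * a j).comp (adjoint J)) =
        star (J.comp ((a i).comp (adjoint J))) * (J.comp ((a j).comp (adjoint J))) := by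
      intro i j
      have h1 : star (J.comp ((a i).comp (adjoint J))) = J.comp ((star (a i)).comp (adjoint J)) := by
        show adjoint (J.comp ((a i).comp (adjoint J))) = _
        rw [ContinuousLinearMap.adjoint_comp, ContinuousLinearMap.adjoint_comp,
          ContinuousLinearMap.adjoint_adjoint]
        rfl
      rw [h1]
      refine ContinuousLinearMap.ext fun v => ?_
      show J (star (a i) (a j (adjoint J v))) = J (star (a i) ((adjoint J) (J (a j (adjoint J v)))))
      have h2 : ∀ y, (adjoint J) (J y) = y := fun y => DFunLike.congr_fun hJ1 y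
      rw [h2]
    have e : ∑ i, ∑ j, star (b i) * ψ (star (a i) * a j) * b j =
        ∑ i, ∑ j, (adjoint ((amp Idx (J.comp ((a i).comp (adjoint J)))).comp (Z.comp (b i)))).comp
          ((amp Idx (J.comp ((a j).comp (adjoint J)))).comp (Z.comp (b j))) := by
      refine Finset.sum_congr rfl fun i _ => Finset.sum_congr rfl fun j _ => ?_
      rw [hψ, hJ3, amp_mul, amp_star, ContinuousLinearMap.adjoint_comp,
        ContinuousLinearMap.adjoint_comp]
      rfl
    rw [e]
    exact pos_aux _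
  · rw [hφ]
    exact norm_comp3 hJ1 _
  · rw [hψ]
    exact (norm_comp3 hZ _).trans ((norm_amp_le _).trans (norm_comp3' hJ1 x))
  · have hp' : (adjoint Z).comp (amp Idx (pr (G : Set Idx))) = adjoint Z := by
      have h1 := congrArg adjoint hG
      rw [ContinuousLinearMap.adjoint_comp, ← amp_adj, adj_pr] at h1
      exact h1
    have e1 : J.comp ((φ a).comp (adjoint J)) = pr (G : Set Idx) * (a : BH) * pr (G : Set Idx) := by
      rw [hφ, ← hJ2]
      rfl
    have e3 : amp Idx (pr (G : Set Idx) * (a : BH) * pr (G : Set Idx)) =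
        amp Idx (pr (G : Set Idx)) * amp Idx (a : BH) * amp Idx (pr (G : Set Idx)) := by
      rw [amp_mul, amp_mul]
    have ha' := h a ha
    rw [hψ (φ a), e1, e3]
    exact e5_aux Z _ _ _ hZ hG hp' hε ha'

end OE
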