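import Mathlib
import Pool.Agent.Work.MP_06ef15_an.ZI
import Pool.Agent.Work.MP_06ef15_an.ZJ
import Pool.Agent.Work.MP_06ef15_an.ZK

/-!
# ZL (block Z, size S): the exactness clause

`H := H Idx`, `π := A.subtype` (`StarSubalgebra.subtype`), injective.  For `F`, `ε`: `approx_fw F 0 (ε/2)`, `exists_window_set`,
`adj_Zop_comp` with `isWeight_fw`, then `exact_aux`.
-/

set_option autoImplicit false

open scoped ComplexConjugate InnerProductSpace Classical
open ContinuousLinearMap (adjoint)

namespace OE

theorem exact_thm : ExactClause := by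
  refine ⟨H Idx, inferInstance, inferInstance, inferInstance, A.subtype, Subtype.val_injective, ?_⟩
  intro F ε hε
  obtain ⟨k, L, K, M0, hL, hM, -, h⟩ := approx_fw F 0 (ε / 2) (half_pos hε)
  obtain ⟨G, hG⟩ := exists_window_set k hL K hM
  exact exact_aux G (Zop k L (fw K M0)) (adj_Zop_comp hL (isWeight_fw K hM)) hG F ε hε h

end OE
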