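import Mathlib
import Pool.Agent.Work.MP_06ef15_an.CX
import Pool.Agent.Work.MP_06ef15_an.ZL

/-!
# Interface of section 5 (owner: helper79): the splitting isometry, exactness

The statements are in the sub-modules: `Zop_e`, `Zop_inner`, `norm_Zop`, `norm_Zop_le`, `adj_Zop_comp` (ZC), `Zop_g`, `Zop_Sg`,
`Zop_star_Sg` (ZD), `CondY`, `Zop_Y` (ZE), `isWeight_fc`, `condY_fc` (ZF), `isWeight_fw`, `condY_fw`, `fw_ne_zero` (ZG),
`approx_A` (ZH), `approx_fw`, `approx_fc` (ZI), `exists_window_set` (ZJ), `exact_aux` (ZK), `exact_thm` (ZL).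
-/
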