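import Mathlib
import Pool.Agent.Work.MP_06ef15_an.JB
import Pool.Agent.Work.MP_06ef15_an.JM
import Pool.Agent.Work.MP_06ef15_an.ZX

/-!
# Block J, (8.2), word part: the splitting of words   (size M-L)

`Dop c (e (x,(v,(n,m)))) = ∑_{j ≤ |x|} fc c x 0 j • ch (-(xf v * dgw (take j x))) • e (sh n (take j x), (drop j x, (v,(n,m))))`.
The output determines `j` and the input, the coefficients have `∑ fc² = 1`, so `Dop c` is isometric (`mk_e`).
`isWeight_fc` (file ZX): `fc ≥ 0`, `∑ fc² = 1`.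
`adj_Lw_Dop`: on `e (x,(v,(n,m)))`: the term `j = 0` (empty word) is killed, for `x = b :: x'` the terms `j + 1` start with
`(b.1, b.2 + n)`; this is `a` iff `b = (a.1, a.2 - n)`; `fc c (b :: x') 0 (j+1) = c * fc c x' 0 j`, and the phase splits off
`ch (-(xf v * dg1 a.1)) = ch (xf v * dg1 (bar a.1))`.
`Dop_Wk`: by `adj_Lw_Dop` (iterated) `amp Idx (adjoint (Lw (ws u))) * Dop = c^|u| Dop * Yaw u` (`ws (b :: u) = ws u ++ [barL b]`), and
taking adjoints `adjoint Dop * amp Idx (Lw u) = c^|u| Ycw u * adjoint Dop` (`star (Ya (bar t) k) = Yc t k`); so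
`adjoint Dop * amp Idx (Lw (take j w) (Lw (ws (drop j w)))†) * Dop = c^|w| Ycw (take j w) * Yaw (drop j w)`; sum over `j`, `Wt_eq_Wo`.
-/

set_option autoImplicit false

open scoped ComplexConjugate InnerProductSpace Classical
open ContinuousLinearMap (adjoint)

namespace OE

noncomputable def Dop (c : ℝ) : H Idx →L[ℂ] H (W × Idx) :=
  mk (fun x : Idx => ∑ j ∈ Finset.range (x.1.length + 1), ((fc c x.1 0 j : ℝ) : ℂ) •
    (ch (-(xf x.2.1 * dgw (x.1.take j))) • e ((sh x.2.2.1 (x.1.take j), (x.1.drop j, x.2)) : W × Idx)))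

theorem fc_cons_succ {c : ℝ} (a : Lam) (w : W) (q : ℤ) (j : ℕ) : fc c (a :: w) q (j + 1) = c * fc c w q j := by
  unfold fc
  rw [List.length_cons]
  rcases lt_trichotomy j w.length with h | h | h
  · rw [if_pos (by omega), if_pos h, pow_succ]; ring
  · rw [if_neg (by omega), if_pos (by omega), if_neg (by omega), if_pos h, pow_succ]; ring
  · rw [if_neg (by omega), if_neg (by omega), if_neg (by omega), if_neg (by omega), mul_zero]

private theorem jn_norm_coef (r : ℝ) (z : ZMod 9) : ‖((r : ℝ) : ℂ) * ch z‖ ^ 2 = r ^ 2 := by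
  rw [norm_mul, norm_ch, mul_one, Complex.norm_real, Real.norm_eq_abs, sq_abs]

private theorem jn_inj (x x' : Idx) (p p' : ℕ) (hp : p ∈ Finset.range (x.1.length + 1))
    (hp' : p' ∈ Finset.range (x'.1.length + 1))
    (h : ((sh x.2.2.1 (x.1.take p), (x.1.drop p, x.2)) : W × Idx) = (sh x'.2.2.1 (x'.1.take p'), (x'.1.drop p', x'.2))) :
    x = x' ∧ p = p' := by
  obtain ⟨w, q⟩ := x
  obtain ⟨w', q'⟩ := x'
  simp only [Prod.mk.injEq] at h hp hp'
  obtain ⟨h1, h2, h3⟩ := h
  subst h3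
  have h4 := sh_injective _ h1
  have h5 : w = w' := by
    rw [← List.take_append_drop p w, ← List.take_append_drop p' w', h4, h2]
  subst h5
  refine ⟨rfl, ?_⟩
  have h6 := congrArg List.length h4
  rw [List.length_take, List.length_take] at h6
  rw [Finset.mem_range] at hp hp'
  omega

private noncomputable def jnc (c : ℝ) (x : Idx) (j : ℕ) : ℂ := ((fc c x.1 0 j : ℝ) : ℂ) * ch (-(xf x.2.1 * dgw (x.1.take j)))

private theorem jn_sum {c : ℝ} (h0 : 0 < c) (h1 : c ≤ 1) (x : Idx) :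
    ∑ j ∈ Finset.range (x.1.length + 1), ‖jnc c x j‖ ^ 2 = 1 := by
  rw [← (isWeight_fc h0 h1).sum x.1 0]
  exact Finset.sum_congr rfl (fun j _ => jn_norm_coef _ _)

private theorem Dop_eq (c : ℝ) : Dop c = mk (fun x : Idx => ∑ j ∈ Finset.range (x.1.length + 1), jnc c x j •
    e ((sh x.2.2.1 (x.1.take j), (x.1.drop j, x.2)) : W × Idx)) := by
  unfold Dop
  congr 1
  funext x
  refine Finset.sum_congr rfl (fun j _ => ?_)
  rw [smul_smul]; rfl

private theorem Dop_ob {c : ℝ} (h0 : 0 < c) (h1 : c ≤ 1) : OrthoBdd (fun x : Idx => ∑ j ∈ Finset.range (x.1.length + 1), jnc c x j •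
    e ((sh x.2.2.1 (x.1.take j), (x.1.drop j, x.2)) : W × Idx)) 1 :=
  orthoBdd_sum_e (fun x : Idx => Finset.range (x.1.length + 1)) (jnc c)
    (fun x j => ((sh x.2.2.1 (x.1.take j), (x.1.drop j, x.2)) : W × Idx)) zero_le_one jn_inj
    (fun x => by rw [one_pow]; exact (jn_sum h0 h1 x).le)

private theorem Dop_e' {c : ℝ} (h0 : 0 < c) (h1 : c ≤ 1) (x : Idx) :
    Dop c (e x) = ∑ j ∈ Finset.range (x.1.length + 1), jnc c x j •
      e ((sh x.2.2.1 (x.1.take j), (x.1.drop j, x.2)) : W × Idx) := by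
  rw [Dop_eq]
  exact mk_e (Dop_ob h0 h1) x

theorem Dop_e {c : ℝ} (h0 : 0 < c) (h1 : c ≤ 1) (x : W) (v : V) (n : ℤ) (m : M) :
    Dop c (e ((x, (v, (n, m))) : Idx)) = ∑ j ∈ Finset.range (x.length + 1), ((fc c x 0 j : ℝ) : ℂ) •
      (ch (-(xf v * dgw (x.take j))) • e ((sh n (x.take j), (x.drop j, (v, (n, m)))) : W × Idx)) := by
  rw [Dop_e' h0 h1]
  refine Finset.sum_congr rfl (fun j _ => ?_)
  rw [smul_smul]; rfl

private theorem Dop_inner_e {c : ℝ} (h0 : 0 < c) (h1 : c ≤ 1) (x y : Idx) :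
    ⟪Dop c (e x), Dop c (e y)⟫_ℂ = if x = y then 1 else 0 := by
  rw [Dop_e' h0 h1, Dop_e' h0 h1]
  split_ifs with hxy
  · subst hxy
    have h1' := norm_sq_sum_e (Finset.range (x.1.length + 1)) (jnc c x)
      (fun j => ((sh x.2.2.1 (x.1.take j), (x.1.drop j, x.2)) : W × Idx))
      (fun p hp p' hp' h => (jn_inj x x p p' hp hp' h).2)
    have h2 := h1'.trans (jn_sum h0 h1 x)
    rw [inner_self_eq_norm_sq_to_K]
    have h3 : ((‖∑ j ∈ Finset.range (x.1.length + 1), jnc c x j •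
      e ((sh x.2.2.1 (x.1.take j), (x.1.drop j, x.2)) : W × Idx)‖ ^ 2 : ℝ) : ℂ) = 1 := by
      rw [h2, Complex.ofReal_one]
    rw [← h3]
    push_cast
    rfl
  · exact inner_sum_e_zero _ _ _ _ _ _ fun p hp p' hp' h => hxy (jn_inj x y p p' hp hp' h).1

private theorem Dop_inner {c : ℝ} (h0 : 0 < c) (h1 : c ≤ 1) (x y : H Idx) :
    ⟪Dop c x, Dop c y⟫_ℂ = ⟪x, y⟫_ℂ :=
  isometry_of_ortho (Dop c) (fun i j => (Dop_inner_e h0 h1 i j).trans (by split_ifs <;> rfl)) x y

theorem adj_Dop_comp {c : ℝ} (h0 : 0 < c) (h1 : c ≤ 1) : (adjoint (Dop c)).comp (Dop c) = 1 := by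
  refine ContinuousLinearMap.ext fun x => ext_inner_left ℂ fun y => ?_
  change ⟪y, adjoint (Dop c) (Dop c x)⟫_ℂ = ⟪y, x⟫_ℂ
  rw [ContinuousLinearMap.adjoint_inner_right, Dop_inner h0 h1]

theorem norm_Dop {c : ℝ} (h0 : 0 < c) (h1 : c ≤ 1) (x : H Idx) : ‖Dop c x‖ = ‖x‖ :=
  norm_isometry_of_ortho (Dop c) (fun i j => (Dop_inner_e h0 h1 i j).trans (by split_ifs <;> rfl)) x

private theorem jn_adj_e (a b : Lam) (w : W) : adjoint (Lw [a]) (e (b :: w)) = if a = b then e w else 0 := by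
  by_cases h : a = b
  · subst h
    rw [if_pos rfl]
    exact adj_Lw_e_append [a] w
  · rw [if_neg h]
    refine adj_Lw_e_of_not [a] (b :: w) (fun x hx => h ?_)
    simp only [List.cons_append, List.nil_append, List.cons.injEq] at hx
    exact hx.1.symm

private theorem jn_adj_nil (a : Lam) : adjoint (Lw [a]) (e ([] : W)) = 0 :=
  adj_Lw_e_of_not [a] [] (fun x hx => by simp at hx)

theorem adj_Lw_Dop {c : ℝ} (h0 : 0 < c) (h1 : c ≤ 1) (a : Lam) :
    (amp Idx (adjoint (Lw [a]))).comp (Dop c) = (c : ℂ) • (Dop c).comp (Ya (bar a.1) a.2) := by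
  refine ext_e ?_
  rintro ⟨x, v, n, m⟩
  rw [ContinuousLinearMap.comp_apply, Dop_e h0 h1, map_sum]
  show _ = (c : ℂ) • (Dop c) (Ya (bar a.1) a.2 (e (x, (v, (n, m)))))
  rw [Finset.sum_range_succ']
  have hz : (amp Idx (adjoint (Lw [a]))) (((fc c x 0 0 : ℝ) : ℂ) •
      (ch (-(xf v * dgw (x.take 0))) • e ((sh n (x.take 0), (x.drop 0, (v, (n, m)))) : W × Idx))) = 0 := by
    rw [map_smul, map_smul, amp_e', List.take_zero, sh_nil, jn_adj_nil, map_zero, smul_zero, smul_zero]
  rw [hz, add_zero]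
  cases x with
  | nil =>
    rw [Ya_e_nil, map_zero, smul_zero]
    rfl
  | cons b x' =>
    rw [Ya_e_cons, List.length_cons]
    have hterm : ∀ j, (amp Idx (adjoint (Lw [a]))) (((fc c (b :: x') 0 (j + 1) : ℝ) : ℂ) •
        (ch (-(xf v * dgw ((b :: x').take (j + 1)))) •
          e ((sh n ((b :: x').take (j + 1)), ((b :: x').drop (j + 1), (v, (n, m)))) : W × Idx))) =
        ((c : ℂ) * ((fc c x' 0 j : ℝ) : ℂ)) • ((ch (-(xf v * dg1 b.1)) * ch (-(xf v * dgw (x'.take j)))) •
          (if a = (b.1, b.2 + n) then e ((sh n (x'.take j), (x'.drop j, (v, (n, m)))) : W × Idx) else 0)) := by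
      intro j
      rw [map_smul, map_smul, amp_e', List.take_succ_cons, List.drop_succ_cons, sh_cons, jn_adj_e, fc_cons_succ,
        dgw_cons, ← ch_add, Complex.ofReal_mul]
      congr 2
      · congr 1; ring
      · by_cases h : a = (b.1, b.2 + n)
        · rw [if_pos h, if_pos h, emb_e]
        · rw [if_neg h, if_neg h, map_zero]
    rw [Finset.sum_congr rfl (fun j _ => hterm j)]
    have hiff : b = (bar (bar a.1), a.2 - n) ↔ a = (b.1, b.2 + n) := by
      rw [bar_bar]
      constructor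
      · intro h
        rw [h]
        ext
        · rfl
        · show a.2 = a.2 - n + n
          ring
      · intro h
        rw [h]
        ext
        · rfl
        · show b.2 = b.2 + n - n
          ring
    by_cases h : a = (b.1, b.2 + n)
    · rw [if_pos (hiff.2 h), map_smul, Dop_e h0 h1, Finset.smul_sum, Finset.smul_sum]
      refine Finset.sum_congr rfl (fun j _ => ?_)
      have ha : dg1 (bar a.1) = - dg1 b.1 := by rw [dg1_bar, h]
      rw [if_pos h, smul_smul, smul_smul, smul_smul, smul_smul, ha, mul_neg]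
      congr 1
      ring
    · rw [if_neg (fun h' => h (hiff.1 h')), map_zero, smul_zero]
      refine Finset.sum_eq_zero (fun j _ => ?_)
      rw [if_neg h, smul_zero, smul_zero]

theorem adj_Lw_ws_Dop {c : ℝ} (h0 : 0 < c) (h1 : c ≤ 1) (u : W) :
    (amp Idx (adjoint (Lw (ws u)))).comp (Dop c) = ((c : ℂ) ^ u.length) • (Dop c).comp (Yaw u) := by
  induction u with
  | nil =>
    rw [ws_nil, Lw_nil, ← ContinuousLinearMap.star_eq_adjoint, star_one, amp_one]
    show _ = (c : ℂ) ^ 0 • (Dop c).comp (1 : BH)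
    rw [pow_zero, one_smul]
    rfl
  | cons b u ih =>
    have e1 : adjoint (Lw (ws (b :: u))) = (adjoint (Lw [barL b])).comp (adjoint (Lw (ws u))) := by
      rw [ws_cons, Lw_append]
      exact ContinuousLinearMap.adjoint_comp _ _
    have e2 : Yaw (b :: u) = Ya b.1 b.2 * Yaw u := by
      rw [Yaw, List.map_cons, List.prod_cons]; rfl
    have e3 : bar (barL b).1 = b.1 := bar_bar _
    have e4 : (barL b).2 = b.2 := rfl
    rw [e1, amp_comp, ContinuousLinearMap.comp_assoc, ih, ContinuousLinearMap.comp_smul, ← ContinuousLinearMap.comp_assoc,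
      adj_Lw_Dop h0 h1, e2, e3, e4, ContinuousLinearMap.smul_comp, smul_smul, List.length_cons, pow_succ]
    rfl

private theorem jn_adj_Yaw (u : W) : adjoint (Yaw (ws u)) = Ycw u := by
  induction u with
  | nil =>
    show star (Yaw []) = _
    have : Yaw [] = 1 := rfl
    rw [this, star_one]; rfl
  | cons b u ih =>
    have e1 : Yaw (ws (b :: u)) = Yaw (ws u) * Ya (bar b.1) b.2 := by
      rw [ws_cons, Yaw, List.map_append, List.prod_append]
      simp only [List.map_cons, List.map_nil, List.prod_cons, List.prod_nil, mul_one]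
      rfl
    have e2 : Ycw (b :: u) = Yc b.1 b.2 * Ycw u := by
      rw [Ycw, List.map_cons, List.prod_cons]; rfl
    rw [e1, e2, ← ih]
    show star (Yaw (ws u) * Ya (bar b.1) b.2) = _
    rw [star_mul, star_Ya, bar_bar]
    rfl

theorem adj_Dop_Lw {c : ℝ} (h0 : 0 < c) (h1 : c ≤ 1) (u : W) :
    (adjoint (Dop c)).comp (amp Idx (Lw u)) = ((c : ℂ) ^ u.length) • (Ycw u).comp (adjoint (Dop c)) := by
  have h := congrArg (fun T => adjoint T) (adj_Lw_ws_Dop h0 h1 (ws u))
  rw [ws_ws, length_ws, ContinuousLinearMap.adjoint_comp, ← amp_adj, ContinuousLinearMap.adjoint_adjoint, map_smulₛₗ,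
    ContinuousLinearMap.adjoint_comp, jn_adj_Yaw, map_pow, Complex.conj_ofReal] at h
  exact h

theorem Dop_Wk {c : ℝ} (h0 : 0 < c) (h1 : c ≤ 1) (w : W) :
    (adjoint (Dop c)).comp ((amp Idx (Wk w)).comp (Dop c)) = ((c : ℂ) ^ w.length) • Wt w := by
  have hterm : ∀ j ∈ Finset.range (w.length + 1), (adjoint (Dop c)).comp
      ((amp Idx ((Lw (w.take j)).comp (adjoint (Lw (ws (w.drop j)))))).comp (Dop c)) =
      ((c : ℂ) ^ w.length) • (Ycw (w.take j) * Yaw (w.drop j)) := by
    intro j hj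
    rw [Finset.mem_range] at hj
    rw [amp_comp, ContinuousLinearMap.comp_assoc, adj_Lw_ws_Dop h0 h1, ← ContinuousLinearMap.comp_assoc,
      adj_Dop_Lw h0 h1, ContinuousLinearMap.smul_comp, ContinuousLinearMap.comp_smul, smul_smul, ← pow_add,
      ContinuousLinearMap.comp_assoc, ← ContinuousLinearMap.comp_assoc (adjoint (Dop c)), adj_Dop_comp h0 h1]
    have hl : (w.take j).length + (w.drop j).length = w.length := by
      rw [List.length_take, List.length_drop]; omega
    rw [hl]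
    rfl
  have h : (adjoint (Dop c)).comp ((amp Idx (Wk w)).comp (Dop c)) =
      ∑ j ∈ Finset.range (w.length + 1), (adjoint (Dop c)).comp
      ((amp Idx ((Lw (w.take j)).comp (adjoint (Lw (ws (w.drop j)))))).comp (Dop c)) := by
    rw [Wk, amp_sum]
    refine ContinuousLinearMap.ext (fun x => ?_)
    simp only [ContinuousLinearMap.comp_apply, ContinuousLinearMap.sum_apply, map_sum]
  rw [h, Finset.sum_congr rfl hterm, ← Finset.smul_sum, Wt_eq_Wo]
  rfl

end OE
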