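import Mathlib
import Pool.Agent.Work.MP_06ef15_an.JN
import Pool.Agent.Work.MP_06ef15_an.JG

/-!
# Block J, (8.2), `Q` part: slices of the splitting isometry   (size L)

`pick p (e ((w,p'),y)) = [p' = p] e (w,y)`.
`mem_QQ`: unfold (`List.ofFn`, every list of length `j` is `List.ofFn f`).
`Zop_e`, `norm_Zop`, `Zop_inner`, `adj_Zop_comp` (block Z) with `isWeight_fc`.
`pick_Zop`: on `e (x,(w,(n,m)))`: only the summands with `v' = v`, `nn (dig j1 m) = nn μ` and `actM (dig j1 m) m1 = actM μ m1` survive;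
`actM_m1_inj` gives `dig j1 m = μ`, `j1 = |μ|`; if `dig |μ| m ≠ μ` everything vanishes and `star (Sw μ) (e ..) = 0`.  Otherwise
`star (g v) (star (Sw μ) (e (x,(w,(n,m))))) = ch (-bf v (w - v)) • e (x,(w - v,(n - nn μ, tl^[|μ|] m)))`, and `Dop c` of this vector is exactly the
surviving sum (`fc` does not depend on `q`).
`amp_WE`: on basis vectors `e ((x,p'),y)`.   `pick_adj_pick`, `sum_pick`: `∑_{p ∈ s} (pick p)† pick p = amp Idx (Pi s)`.
-/

set_option autoImplicit false

open scoped ComplexConjugate InnerProductSpace Classical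
open ContinuousLinearMap (adjoint)

namespace OE

noncomputable def pick (p : Q) : H (Idx × Idx) →L[ℂ] H (W × Idx) :=
  wp (fun x : Idx × Idx => if x.1.2 = p then some (x.1.1, x.2) else none) (fun _ => 1)

private theorem pinj_pick (p : Q) :
    PInj (fun x : Idx × Idx => if x.1.2 = p then some ((x.1.1, x.2) : W × Idx) else none) := by
  rintro ⟨⟨w, q⟩, y⟩ ⟨⟨w', q'⟩, y'⟩ z h h'
  simp only at h h'
  by_cases hq : q = p
  · by_cases hq' : q' = p
    · rw [if_pos hq] at h
      rw [if_pos hq'] at h'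
      have h1 := h.trans h'.symm
      simp only [Option.some.injEq, Prod.mk.injEq] at h1
      obtain ⟨h2, h3⟩ := h1
      subst hq hq' h2 h3
      rfl
    · rw [if_neg hq'] at h'
      exact absurd h' (by simp)
  · rw [if_neg hq] at h
    exact absurd h (by simp)

theorem pick_e (p : Q) (w : W) (p' : Q) (y : Idx) :
    pick p (e (((w, p'), y) : Idx × Idx)) = if p' = p then e ((w, y) : W × Idx) else 0 := by
  unfold pick
  rw [wp_e zero_le_one (pinj_pick p) (fun _ => by simp)]
  by_cases h : p' = p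
  · simp only [h, if_true]
    rw [one_smul]
    rfl
  · simp only [h, if_false]
    rw [one_smul]
    rfl

theorem adj_pick_e (p : Q) (w : W) (y : Idx) :
    adjoint (pick p) (e ((w, y) : W × Idx)) = e (((w, p), y) : Idx × Idx) := by
  unfold pick
  rw [adj_wp_e_some (i := (((w, p), y) : Idx × Idx)) zero_le_one (pinj_pick p) (fun _ => by simp) (by simp)]
  simp

private theorem pinj_Eu (p q : Q) :
    PInj (fun x : Idx => if x.2 = q then some ((x.1, p) : Idx) else none) := by
  rintro ⟨w, r⟩ ⟨w', r'⟩ z h h'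
  simp only at h h'
  by_cases hq : r = q
  · by_cases hq' : r' = q
    · rw [if_pos hq] at h
      rw [if_pos hq'] at h'
      have h1 := h.trans h'.symm
      simp only [Option.some.injEq, Prod.mk.injEq] at h1
      obtain ⟨h2, _⟩ := h1
      subst hq hq' h2
      rfl
    · rw [if_neg hq'] at h'
      exact absurd h' (by simp)
  · rw [if_neg hq] at h
    exact absurd h (by simp)

private theorem Eu_e' (p q : Q) (x : W) (p' : Q) :
    Eu p q (e ((x, p') : Idx)) = if p' = q then e ((x, p) : Idx) else 0 := by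
  unfold Eu
  rw [wp_e zero_le_one (pinj_Eu p q) (fun _ => by simp)]
  by_cases h : p' = q
  · simp only [h, if_true]
    rw [one_smul]
    rfl
  · simp only [h, if_false]
    rw [one_smul]
    rfl

private theorem adj_pick_emb (p : Q) (y : Idx) (z : H W) :
    adjoint (pick p) (emb y z : H (W × Idx)) = emb y (emb p z : H Idx) := by
  have h : (adjoint (pick p)).comp (emb y : H W →L[ℂ] H (W × Idx)) =
      (emb y : H Idx →L[ℂ] H (Idx × Idx)).comp (emb p : H W →L[ℂ] H Idx) := by
    apply ext_e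
    intro x
    rw [ContinuousLinearMap.comp_apply, ContinuousLinearMap.comp_apply, emb_e, emb_e, emb_e, adj_pick_e]
  exact congrArg (fun S : H W →L[ℂ] H (Idx × Idx) => S z) h

theorem amp_WE (w : W) (p q : Q) :
    amp Idx (WE w p q) = (adjoint (pick p)).comp ((amp Idx (Wk w)).comp (pick q)) := by
  apply ext_e
  rintro ⟨⟨x, p'⟩, y⟩
  rw [amp_e', ContinuousLinearMap.comp_apply, ContinuousLinearMap.comp_apply, pick_e]
  show emb y (Wh w (Eu p q (e ((x, p') : Idx)))) = _
  rw [Eu_e']
  by_cases h : p' = q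
  · rw [if_pos h, if_pos h, amp_e', adj_pick_emb]
    unfold Wh
    rw [show (e ((x, p) : Idx) : H Idx) = e ((x, p) : W × Q) from rfl, amp_e']
  · rw [if_neg h, if_neg h]
    simp

theorem mem_QQ {k L : ℕ} {q : Q} :
    q ∈ QQ k L ↔ ∃ v ∈ VF k, ∃ μ : List Bool, μ.length < L ∧ q = (v, (nn μ, actM μ m1)) := by
  unfold QQ
  constructor
  · intro h
    rw [Finset.mem_image] at h
    obtain ⟨⟨v, μ⟩, h1, h2⟩ := h
    rw [Finset.mem_product] at h1
    obtain ⟨h3, h4⟩ := h1
    rw [Finset.mem_biUnion] at h4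
    obtain ⟨j, hj, h5⟩ := h4
    rw [Finset.mem_image] at h5
    obtain ⟨f, _, h6⟩ := h5
    refine ⟨v, mem_VFin.mp h3, μ, ?_, h2.symm⟩
    simp only at h6
    rw [← h6, List.length_ofFn]
    exact Finset.mem_range.mp hj
  · rintro ⟨v, hv, μ, hμ, rfl⟩
    rw [Finset.mem_image]
    refine ⟨(v, μ), ?_, rfl⟩
    rw [Finset.mem_product]
    refine ⟨mem_VFin.mpr hv, ?_⟩
    rw [Finset.mem_biUnion]
    refine ⟨μ.length, Finset.mem_range.mpr hμ, ?_⟩
    rw [Finset.mem_image]
    exact ⟨fun i => μ.get i, Finset.mem_univ _, List.ofFn_get μ⟩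

theorem QQ_nonempty (k : ℕ) {L : ℕ} (hL : 0 < L) : (QQ k L).Nonempty :=
  ⟨((0 : V), (nn [], actM [] m1)), mem_QQ.mpr ⟨0, (VF k).zero_mem, [], hL, rfl⟩⟩

/-- the scaling constant `|VF k|^{-1/2} L^{-1/2}`. -/
noncomputable def zc (k L : ℕ) : ℂ := ((((VFin k).card : ℝ) ^ (-(1 / 2 : ℝ)) * (L : ℝ) ^ (-(1 / 2 : ℝ)) : ℝ) : ℂ)

theorem pick_Zop {k L : ℕ} (hL : 0 < L) {c : ℝ} (h0 : 0 < c) (h1 : c ≤ 1) {v : V} (hv : v ∈ VF k) {μ : List Bool}
    (hμ : μ.length < L) :
    (pick (v, (nn μ, actM μ m1))).comp (Zop k L (fc c)) = zc k L • (Dop c).comp (star (g v) * star (Sw μ)) := by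
  apply ext_idx
  intro x w n m
  rw [ContinuousLinearMap.comp_apply, Zop_e hL (isWeight_fc h0 h1)]
  simp only [map_sum, map_smul, pick_e]
  show _ = zc k L • Dop c (star (g v) (star (Sw μ) (e (x, (w, (n, m))))))
  rw [star_Sw_e]
  by_cases hd : dig μ.length m = μ
  · rw [if_pos hd, star_g_e, map_smul, Dop_e h0 h1]
    rw [Finset.sum_eq_single v]
    · rw [Finset.sum_eq_single μ.length]
      · rw [Finset.smul_sum, Finset.smul_sum]
        apply Finset.sum_congr rfl
        intro j _
        rw [hd, if_pos rfl, smul_smul, smul_smul, smul_smul, smul_smul]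
        congr 1
        unfold zc
        rw [sub_eq_add_neg (-bf v (w - v)), ch_add]
        push_cast
        have hfc : fc c x (n - nn μ) j = fc c x 0 j := rfl
        rw [hfc]
        ring
      · intro j1 _ hj1
        apply Finset.sum_eq_zero
        intro j _
        rw [if_neg, smul_zero, smul_zero]
        intro h
        have h2 := actM_m1_inj (congrArg (fun q : Q => q.2.2) h)
        apply hj1
        rw [← h2, length_dig]
      · intro h
        exact absurd (Finset.mem_range.mpr hμ) h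
    · intro v' _ hv'
      apply Finset.sum_eq_zero
      intro j1 _
      apply Finset.sum_eq_zero
      intro j _
      rw [if_neg, smul_zero, smul_zero]
      intro h
      exact hv' (congrArg (fun q : Q => q.1) h)
    · intro h
      exact absurd (mem_VFin.mpr hv) h
  · rw [if_neg hd, map_zero, map_zero, smul_zero]
    apply Finset.sum_eq_zero
    intro v' _
    apply Finset.sum_eq_zero
    intro j1 _
    apply Finset.sum_eq_zero
    intro j _
    rw [if_neg, smul_zero, smul_zero]
    intro h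
    have h2 := actM_m1_inj (congrArg (fun q : Q => q.2.2) h)
    apply hd
    rw [← h2, length_dig]

private theorem Pi_e' (s : Finset Q) (a : W) (p : Q) :
    Pi s (e ((a, p) : Idx)) = if p ∈ s then e ((a, p) : Idx) else 0 := by
  unfold Pi
  by_cases h : p ∈ s
  · rw [if_pos h, pr_e_mem]
    exact h
  · rw [if_neg h, pr_e_notMem]
    exact h

theorem Pi_Zop {k L : ℕ} (hL : 0 < L) {c : ℝ} (h0 : 0 < c) (h1 : c ≤ 1) :
    (amp Idx (Pi (QQ k L))).comp (Zop k L (fc c)) = Zop k L (fc c) := by
  apply ext_idx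
  intro x w n m
  rw [ContinuousLinearMap.comp_apply, Zop_e hL (isWeight_fc h0 h1)]
  simp only [map_sum, map_smul]
  apply Finset.sum_congr rfl
  intro v' hv'
  apply Finset.sum_congr rfl
  intro j1 hj1
  apply Finset.sum_congr rfl
  intro j _
  congr 2
  rw [amp_e', Pi_e', if_pos, emb_e]
  exact mem_QQ.mpr ⟨v', mem_VFin.mp hv', dig j1 m, by rw [length_dig]; exact Finset.mem_range.mp hj1, rfl⟩

end OE
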