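import Mathlib
import Pool.Agent.Work.MP_06ef15_an.JO

/-!
# Block J, (8.2): the smoothing map `Sc`   (size M)

`Sc k L c x = Z† (x ⊗ 1) Z` with `Z† Z = 1` (`adj_Zop_comp hL (isWeight_fc h0 h1)`): linear, unital, positive, contractive, and
`star (Sc x) * Sc x = Z† (x ⊗ 1)† Z Z† (x ⊗ 1) Z ≤ Z† (star x * x ⊗ 1) Z` since `Z Z† ≤ 1`.
-/

set_option autoImplicit false

open scoped ComplexConjugate InnerProductSpace Classical
open ContinuousLinearMap (adjoint)

namespace OE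

variable {k L : ℕ} {c : ℝ}

private theorem inner_of_star {K : Type*} [NormedAddCommGroup K] [InnerProductSpace ℂ K] [CompleteSpace K]
    {T : K →L[ℂ] K} (h : star T = T) (x y : K) : ⟪T x, y⟫_ℂ = ⟪x, T y⟫_ℂ := by
  have h1 : ContinuousLinearMap.adjoint T = T := h
  calc ⟪T x, y⟫_ℂ = ⟪ContinuousLinearMap.adjoint T x, y⟫_ℂ := by rw [h1]
    _ = ⟪x, T y⟫_ℂ := ContinuousLinearMap.adjoint_inner_left T y x

private theorem le_of_re {K : Type*} [NormedAddCommGroup K] [InnerProductSpace ℂ K] [CompleteSpace K]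
    {S T : K →L[ℂ] K} (hS : star S = S) (hT : star T = T)
    (h : ∀ y, (⟪y, S y⟫_ℂ).re ≤ (⟪y, T y⟫_ℂ).re) : S ≤ T := by
  rw [ContinuousLinearMap.le_def]
  refine ⟨?_, fun y => ?_⟩
  · intro x y
    change ⟪(T - S) x, y⟫_ℂ = ⟪x, (T - S) y⟫_ℂ
    have hTS : star (T - S) = T - S := by rw [star_sub, hS, hT]
    exact inner_of_star hTS x y
  · rw [ContinuousLinearMap.reApplyInnerSelf_apply]
    have h1 : (RCLike.re ⟪(T - S) y, y⟫_ℂ : ℝ) = (⟪y, (T - S) y⟫_ℂ).re := by
      rw [← inner_conj_symm y ((T - S) y)]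
      exact (Complex.conj_re _).symm
    rw [h1]
    have h2 : (T - S) y = T y - S y := rfl
    rw [h2, inner_sub_right, Complex.sub_re]
    linarith [h y]

theorem Sc_add (x y : BH) : Sc k L c (x + y) = Sc k L c x + Sc k L c y := by
  unfold Sc
  rw [amp_add, ContinuousLinearMap.add_comp, ContinuousLinearMap.comp_add]

theorem Sc_sub (x y : BH) : Sc k L c (x - y) = Sc k L c x - Sc k L c y := by
  unfold Sc
  rw [amp_sub, ContinuousLinearMap.sub_comp, ContinuousLinearMap.comp_sub]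

theorem Sc_smul (z : ℂ) (x : BH) : Sc k L c (z • x) = z • Sc k L c x := by
  unfold Sc
  rw [amp_smul, ContinuousLinearMap.smul_comp, ContinuousLinearMap.comp_smul]

theorem Sc_star (x : BH) : Sc k L c (star x) = star (Sc k L c x) := by
  have h1 : star (Sc k L c x) = adjoint (Sc k L c x) := rfl
  rw [h1]
  unfold Sc
  rw [ContinuousLinearMap.adjoint_comp, ContinuousLinearMap.adjoint_comp, ContinuousLinearMap.adjoint_adjoint,
    ContinuousLinearMap.comp_assoc, amp_star]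
  rfl

theorem Sc_sum {ι : Type*} (s : Finset ι) (T : ι → BH) : Sc k L c (∑ i ∈ s, T i) = ∑ i ∈ s, Sc k L c (T i) := by
  induction s using Finset.induction_on with
  | empty =>
    rw [Finset.sum_empty, Finset.sum_empty]
    unfold Sc
    rw [amp_zero, ContinuousLinearMap.zero_comp, ContinuousLinearMap.comp_zero]
  | insert a s ha ih => rw [Finset.sum_insert ha, Finset.sum_insert ha, Sc_add, ih]

theorem Sc_one (hL : 0 < L) (h0 : 0 < c) (h1 : c ≤ 1) : Sc k L c 1 = 1 := by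
  unfold Sc
  rw [amp_one]
  change (adjoint (Zop k L (fc c))).comp (Zop k L (fc c)) = 1
  exact adj_Zop_comp hL (isWeight_fc h0 h1)

theorem norm_Sc_le (hL : 0 < L) (h0 : 0 < c) (h1 : c ≤ 1) (x : BH) : ‖Sc k L c x‖ ≤ ‖x‖ := by
  have hZ : ‖Zop k L (fc c)‖ ≤ 1 := norm_Zop_le hL (isWeight_fc h0 h1)
  have hZ' : ‖adjoint (Zop k L (fc c))‖ ≤ 1 := by
    rw [LinearIsometryEquiv.norm_map]
    exact hZ
  unfold Sc
  calc ‖(adjoint (Zop k L (fc c))).comp ((amp Idx x).comp (Zop k L (fc c)))‖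
      ≤ ‖adjoint (Zop k L (fc c))‖ * ‖(amp Idx x).comp (Zop k L (fc c))‖ := ContinuousLinearMap.opNorm_comp_le _ _
    _ ≤ 1 * (‖amp Idx x‖ * ‖Zop k L (fc c)‖) :=
        mul_le_mul hZ' (ContinuousLinearMap.opNorm_comp_le _ _) (norm_nonneg _) zero_le_one
    _ ≤ 1 * (‖x‖ * 1) := by
        refine mul_le_mul_of_nonneg_left ?_ zero_le_one
        exact mul_le_mul (norm_amp_le x) hZ (norm_nonneg _) (norm_nonneg _)
    _ = ‖x‖ := by ring

theorem continuous_Sc (hL : 0 < L) (h0 : 0 < c) (h1 : c ≤ 1) : Continuous (Sc k L c) := by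
  refine LipschitzWith.continuous (K := 1) (LipschitzWith.of_dist_le_mul fun x y => ?_)
  rw [dist_eq_norm, dist_eq_norm, ← Sc_sub, NNReal.coe_one, one_mul]
  exact norm_Sc_le hL h0 h1 _

theorem Sc_nonneg {x : BH} (hx : 0 ≤ x) : 0 ≤ Sc k L c x := by
  have h1 : (amp Idx x).IsPositive := (ContinuousLinearMap.nonneg_iff_isPositive _).1 (amp_nonneg hx)
  rw [ContinuousLinearMap.nonneg_iff_isPositive]
  exact h1.adjoint_conj (Zop k L (fc c))

theorem Sc_kadison (hL : 0 < L) (h0 : 0 < c) (h1 : c ≤ 1) (x : BH) :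
    star (Sc k L c x) * Sc k L c x ≤ Sc k L c (star x * x) := by
  refine le_of_re ?_ ?_ fun η => ?_
  · rw [star_mul, star_star]
  · rw [← Sc_star, star_mul, star_star]
  · have hZ' : ∀ y, ‖adjoint (Zop k L (fc c)) y‖ ≤ ‖y‖ := by
      intro y
      have h2 : ‖adjoint (Zop k L (fc c))‖ ≤ 1 := by
        rw [LinearIsometryEquiv.norm_map]
        exact norm_Zop_le hL (isWeight_fc h0 h1)
      refine (ContinuousLinearMap.le_opNorm _ _).trans ?_
      calc ‖adjoint (Zop k L (fc c))‖ * ‖y‖ ≤ 1 * ‖y‖ := mul_le_mul_of_nonneg_right h2 (norm_nonneg _)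
        _ = ‖y‖ := one_mul _
    have hA : (⟪η, (star (Sc k L c x) * Sc k L c x) η⟫_ℂ).re = ‖Sc k L c x η‖ ^ 2 := by
      change (⟪η, adjoint (Sc k L c x) (Sc k L c x η)⟫_ℂ).re = _
      rw [ContinuousLinearMap.adjoint_inner_right]
      exact inner_self_eq_norm_sq (𝕜 := ℂ) (Sc k L c x η)
    have hB : (⟪η, Sc k L c (star x * x) η⟫_ℂ).re = ‖amp Idx x (Zop k L (fc c) η)‖ ^ 2 := by
      have h3 : Sc k L c (star x * x) η = adjoint (Zop k L (fc c)) (adjoint (amp Idx x) (amp Idx x (Zop k L (fc c) η))) := by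
        unfold Sc
        rw [amp_mul, amp_star]
        rfl
      rw [h3, ContinuousLinearMap.adjoint_inner_right, ContinuousLinearMap.adjoint_inner_right]
      exact inner_self_eq_norm_sq (𝕜 := ℂ) _
    rw [hA, hB]
    exact pow_le_pow_left₀ (norm_nonneg _) (hZ' (amp Idx x (Zop k L (fc c) η))) 2

theorem Sc_kadison' (hL : 0 < L) (h0 : 0 < c) (h1 : c ≤ 1) (x : BH) :
    Sc k L c x * star (Sc k L c x) ≤ Sc k L c (x * star x) := by
  have h2 := Sc_kadison (k := k) hL h0 h1 (star x)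
  rw [Sc_star, star_star, star_star] at h2
  exact h2

end OE
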