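import Mathlib
import Pool.Agent.Work.MP_06ef15_an.JP

/-!
# Block J, (8.2): `Sc` maps `A0` into `A`   (size M)

`Sc_WE`: `amp_WE`, `pick_Zop` (twice, and its adjoint), `Dop_Wk`.  `Sc_WE_scale`: compare `Sc_WE` for `c` and for `1`.
`Sc_mem`: closure of the span (`Sc_WE`, `Wt_mem_A`, `g_mem`, `Sw_mem`, `isClosed_A`, `mem_QQ`), `Sc` is continuous.
`Sc_Pi`: `Pi_Zop` and its adjoint.   `norm_Sc_sub_le`: `Z† (a ⊗ 1) Z - a = Z† ((a ⊗ 1) Z - Z a)`.
-/

set_option autoImplicit false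

open scoped ComplexConjugate InnerProductSpace Classical
open ContinuousLinearMap (adjoint)

namespace OE

variable {k L : ℕ} {c : ℝ}

private theorem jpb_adj (hL : 0 < L) (h0 : 0 < c) (h1 : c ≤ 1) {v : V} (hv : v ∈ VF k) {μ : List Bool}
    (hμ : μ.length < L) :
    (adjoint (Zop k L (fc c))).comp (adjoint (pick (v, (nn μ, actM μ m1)))) =
      zc k L • ((Sw μ * g v).comp (adjoint (Dop c))) := by
  have hzc : conj (zc k L) = zc k L := by
    unfold zc
    exact Complex.conj_ofReal _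
  have h := congrArg adjoint (pick_Zop (k := k) hL h0 h1 hv hμ)
  rw [ContinuousLinearMap.adjoint_comp] at h
  rw [h, LinearIsometryEquiv.map_smulₛₗ, hzc, ContinuousLinearMap.adjoint_comp]
  congr 2
  show star (star (g v) * star (Sw μ)) = Sw μ * g v
  rw [star_mul, star_star, star_star]

theorem Sc_WE (hL : 0 < L) (h0 : 0 < c) (h1 : c ≤ 1) (w : W) {v v' : V} (hv : v ∈ VF k) (hv' : v' ∈ VF k)
    {μ ν : List Bool} (hμ : μ.length < L) (hν : ν.length < L) :
    Sc k L c (WE w (v, (nn μ, actM μ m1)) (v', (nn ν, actM ν m1))) =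
      ((c : ℂ) ^ w.length * (zc k L * zc k L)) • (Sw μ * g v * Wt w * star (g v') * star (Sw ν)) := by
  unfold Sc
  rw [amp_WE]
  have hp := jpb_adj (k := k) hL h0 h1 hv hμ
  have hq := pick_Zop (k := k) hL h0 h1 hv' hν
  calc (adjoint (Zop k L (fc c))).comp
        (((adjoint (pick (v, (nn μ, actM μ m1)))).comp ((amp Idx (Wk w)).comp
          (pick (v', (nn ν, actM ν m1))))).comp (Zop k L (fc c)))
      = ((adjoint (Zop k L (fc c))).comp (adjoint (pick (v, (nn μ, actM μ m1))))).comp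
          ((amp Idx (Wk w)).comp ((pick (v', (nn ν, actM ν m1))).comp (Zop k L (fc c)))) := rfl
    _ = (zc k L • ((Sw μ * g v).comp (adjoint (Dop c)))).comp
          ((amp Idx (Wk w)).comp (zc k L • (Dop c).comp (star (g v') * star (Sw ν)))) := by rw [hp, hq]
    _ = (zc k L * zc k L) • ((Sw μ * g v).comp (((adjoint (Dop c)).comp ((amp Idx (Wk w)).comp (Dop c))).comp
          (star (g v') * star (Sw ν)))) := by
        rw [ContinuousLinearMap.smul_comp, ContinuousLinearMap.comp_smul, ContinuousLinearMap.comp_smul,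
          smul_smul]
        rfl
    _ = (zc k L * zc k L) • ((Sw μ * g v).comp ((((c : ℂ) ^ w.length) • Wt w).comp
          (star (g v') * star (Sw ν)))) := by rw [Dop_Wk h0 h1]
    _ = ((c : ℂ) ^ w.length * (zc k L * zc k L)) • (Sw μ * g v * (Wt w * (star (g v') * star (Sw ν)))) := by
        rw [ContinuousLinearMap.smul_comp, ContinuousLinearMap.comp_smul, smul_smul, mul_comm (zc k L * zc k L)]
        rfl
    _ = _ := by simp only [mul_assoc]

theorem Sc_WE_scale (hL : 0 < L) (h0 : 0 < c) (h1 : c ≤ 1) (w : W) {p q : Q} (hp : p ∈ QQ k L) (hq : q ∈ QQ k L) :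
    Sc k L c (WE w p q) = ((c : ℂ) ^ w.length) • Sc k L 1 (WE w p q) := by
  obtain ⟨v, hv, μ, hμ, rfl⟩ := mem_QQ.1 hp
  obtain ⟨v', hv', ν, hν, rfl⟩ := mem_QQ.1 hq
  rw [Sc_WE hL h0 h1 w hv hv' hμ hν, Sc_WE hL one_pos le_rfl w hv hv' hμ hν, smul_smul]
  congr 1
  push_cast
  ring

theorem Sc_mem (hL : 0 < L) (h0 : 0 < c) (h1 : c ≤ 1) {x : BH} (hx : x ∈ A0 (QQ k L)) : Sc k L c x ∈ A := by
  refine A0_induction (P := fun x => Sc k L c x ∈ A) (fun x hx => ?_) ?_ hx
  · induction hx using Submodule.span_induction with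
    | mem x hx =>
      obtain ⟨w, p, hp, q, hq, rfl⟩ := hx
      obtain ⟨v, hv, μ, hμ, rfl⟩ := mem_QQ.1 hp
      obtain ⟨v', hv', ν, hν, rfl⟩ := mem_QQ.1 hq
      rw [Sc_WE hL h0 h1 w hv hv' hμ hν]
      exact SMulMemClass.smul_mem _ (A.mul_mem (A.mul_mem (A.mul_mem (A.mul_mem (Sw_mem μ) (g_mem v))
        (Wt_mem_A w)) (A.star_mem' (g_mem v'))) (A.star_mem' (Sw_mem ν)))
    | zero =>
      have h2 : Sc k L c (0 : BH) = 0 := by
        have h3 := Sc_smul (k := k) (L := L) (c := c) (0 : ℂ) (0 : BH)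
        rwa [zero_smul, zero_smul] at h3
      rw [h2]
      exact A.zero_mem
    | add x y _ _ hx hy =>
      rw [Sc_add]
      exact A.add_mem hx hy
    | smul a x _ hx =>
      rw [Sc_smul]
      exact SMulMemClass.smul_mem _ hx
  · exact isClosed_A.preimage (continuous_Sc hL h0 h1)

theorem Sc_Pi (hL : 0 < L) (h0 : 0 < c) (h1 : c ≤ 1) (x : BH) :
    Sc k L c (Pi (QQ k L) * x * Pi (QQ k L)) = Sc k L c x := by
  have h2 := Pi_Zop (k := k) hL h0 h1
  have h3 : (adjoint (Zop k L (fc c))).comp (amp Idx (Pi (QQ k L))) = adjoint (Zop k L (fc c)) := by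
    have h4 := congrArg adjoint h2
    rw [ContinuousLinearMap.adjoint_comp, ← amp_adj] at h4
    have h5 : adjoint (Pi (QQ k L)) = Pi (QQ k L) := adj_pr _
    rwa [h5] at h4
  unfold Sc
  rw [amp_mul, amp_mul]
  calc (adjoint (Zop k L (fc c))).comp ((amp Idx (Pi (QQ k L)) * amp Idx x * amp Idx (Pi (QQ k L))).comp
        (Zop k L (fc c)))
      = ((adjoint (Zop k L (fc c))).comp (amp Idx (Pi (QQ k L)))).comp ((amp Idx x).comp
        ((amp Idx (Pi (QQ k L))).comp (Zop k L (fc c)))) := rfl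
    _ = _ := by rw [h2, h3]

theorem norm_Sc_sub_le (hL : 0 < L) (h0 : 0 < c) (h1 : c ≤ 1) (a : BH) :
    ‖Sc k L c a - a‖ ≤ ‖(Zop k L (fc c)).comp a - (amp Idx a).comp (Zop k L (fc c))‖ := by
  have h2 : Sc k L c a - a = -((adjoint (Zop k L (fc c))).comp
      ((Zop k L (fc c)).comp a - (amp Idx a).comp (Zop k L (fc c)))) := by
    have h3 : (adjoint (Zop k L (fc c))).comp ((Zop k L (fc c)).comp a) = a := by
      rw [← ContinuousLinearMap.comp_assoc, adj_Zop_comp hL (isWeight_fc h0 h1)]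
      rfl
    rw [ContinuousLinearMap.comp_sub, neg_sub, h3]
    rfl
  have h4 : ‖adjoint (Zop k L (fc c))‖ ≤ 1 := by
    rw [LinearIsometryEquiv.norm_map]
    exact norm_Zop_le hL (isWeight_fc h0 h1)
  rw [h2, norm_neg]
  refine (ContinuousLinearMap.opNorm_comp_le _ _).trans ?_
  exact mul_le_of_le_one_left (norm_nonneg _) h4

end OE
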