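import Mathlib
import Pool.Agent.Work.MP_06ef15_an.JI
import Pool.Agent.Work.MP_06ef15_an.JIb
import Pool.Agent.Work.MP_06ef15_an.JPb

/-!
# Block J, (8.5): density of the smoothed state   (size M)

`φ0 x = φ (Sc x)` on `A0 (QQ k L)` (`Sc_mem`), linear, `‖φ0 x‖ ≤ ‖x‖`.  Hypothesis `hH` of `density_exists`: for `y = ∑ α_w WE w p q`, all words
of length `n`: `Sc k L c y = c^n • Sc k L 1 y` (`Sc_WE_scale`), so `‖φ0 y‖ ≤ c^n ‖Sc k L 1 y‖ ≤ c^n ‖y‖ ≤ c^n (n+1) ‖α‖` (`haagerup_WE`; `Sc k L 1 y ∈ A`).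
`density_nonneg`: `⟪1^, lamb (star x * x * h) 1^⟫ = φ0 (star x * x)`, `Sc (star x * x) ≥ 0`, `hφp`.
-/

set_option autoImplicit false

open scoped ComplexConjugate InnerProductSpace Classical
open ContinuousLinearMap (adjoint)

namespace OE

/-- the functional on `A0`. -/
private noncomputable def phi0 {k L : ℕ} {c : ℝ} (hL : 0 < L) (h0 : 0 < c) (h1 : c ≤ 1) (φ : A →ₗ[ℂ] ℂ) :
    A0 (QQ k L) →ₗ[ℂ] ℂ where
  toFun x := φ ⟨Sc k L c (x : BH), Sc_mem hL h0 h1 x.2⟩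
  map_add' x y := by
    rw [← map_add]
    congr 1
    apply Subtype.ext
    exact Sc_add (x : BH) (y : BH)
  map_smul' z x := by
    rw [RingHom.id_apply, ← map_smul]
    congr 1
    apply Subtype.ext
    exact Sc_smul z (x : BH)

theorem smooth_density {k L : ℕ} {c : ℝ} (hL : 0 < L) (h0 : 0 < c) (h1 : c < 1) (φ : A →ₗ[ℂ] ℂ)
    (hφn : ∀ a : A, ‖φ a‖ ≤ ‖(a : BH)‖)
    (hφp : ∀ a : A, 0 ≤ (a : BH) → ∃ r : ℝ, 0 ≤ r ∧ φ a = (r : ℂ)) :
    ∃ h ∈ A0 (QQ k L), 0 ≤ h ∧ ∀ x ∈ A0 (QQ k L), ∀ b : A, (b : BH) = Sc k L c x →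
      φ b = ⟪oneh (QQ k L), lamb (x * h) (oneh (QQ k L))⟫_ℂ := by
  have hval : ∀ x : A0 (QQ k L), phi0 hL h0 h1.le φ x = φ ⟨Sc k L c (x : BH), Sc_mem hL h0 h1.le x.2⟩ := fun _ => rfl
  obtain ⟨h, hh, hx⟩ := density_exists (s := QQ k L) (phi0 hL h0 h1.le φ) h0 h1 (B := 1)
    (fun x => by
      rw [hval, one_mul]
      exact (hφn _).trans (norm_Sc_le hL h0 h1.le (x : BH)))
    (fun n p q hp hq F α hF y hy => by
      rw [hval]
      have hc : Sc k L c (y : BH) = ((c : ℂ) ^ n) • Sc k L 1 (y : BH) := by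
        rw [hy, Sc_sum, Sc_sum, Finset.smul_sum]
        apply Finset.sum_congr rfl
        intro w hw
        rw [Sc_smul, Sc_smul, Sc_WE_scale hL h0 h1.le w hp hq, hF w hw, smul_comm]
      have hm : Sc k L 1 (y : BH) ∈ A := Sc_mem hL one_pos le_rfl y.2
      have he : (⟨Sc k L c (y : BH), Sc_mem hL h0 h1.le y.2⟩ : A) = ((c : ℂ) ^ n) • (⟨Sc k L 1 (y : BH), hm⟩ : A) := by
        apply Subtype.ext
        exact hc
      rw [he, map_smul, smul_eq_mul, norm_mul, norm_pow, Complex.norm_real, Real.norm_of_nonneg h0.le, mul_assoc]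
      apply mul_le_mul_of_nonneg_left _ (pow_nonneg h0.le n)
      calc ‖φ (⟨Sc k L 1 (y : BH), hm⟩ : A)‖ ≤ ‖Sc k L 1 (y : BH)‖ := hφn _
        _ ≤ ‖(y : BH)‖ := norm_Sc_le hL one_pos le_rfl _
        _ ≤ ((n : ℝ) + 1) * Real.sqrt (∑ w ∈ F, ‖α w‖ ^ 2) := by
            rw [hy]
            exact haagerup_WE n F hF α p q)
  refine ⟨h, hh, ?_, ?_⟩
  · apply density_nonneg (QQ_nonempty k hL) hh
    intro x hxm
    have hm : star x * x ∈ A0 (QQ k L) := A0_mul_mem (A0_star_mem hxm) hxm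
    have h2 := hx ⟨star x * x, hm⟩
    have h3 : 0 ≤ Sc k L c (star x * x) := Sc_nonneg (star_mul_self_nonneg x)
    obtain ⟨r, hr0, hr⟩ := hφp ⟨Sc k L c (star x * x), Sc_mem hL h0 h1.le hm⟩ h3
    exact ⟨r, hr0, h2.symm.trans hr⟩
  · intro x hxm b hb
    have h2 := hx ⟨x, hxm⟩
    have h3 : b = ⟨Sc k L c x, Sc_mem hL h0 h1.le hxm⟩ := Subtype.ext hb
    rw [h3]
    exact h2

end OE
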