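import Mathlib
import Pool.Agent.Work.MP_06ef15_an.JS
import Pool.Agent.Work.MP_06ef15_an.JK
import Pool.Agent.Work.MP_06ef15_an.JL
import Pool.Agent.Work.MP_06ef15_an.JQ

/-!
# Block J, (8.5) + (8.7): the vector of the bimodule   (size M)

Let `s = QQ k L`, `h` from `smooth_density`, `kk` from `exists_sqrt` (`A0_le_CC`), `ξ = lamb kk (oneh s)`.  `Pi s * h = h` (`Pi_mul_A0`), so
`Pi s * kk = kk` (`sqrt_Pi`), `lamb (Pi s) ξ = ξ = rho (Pi s) ξ` (`xi_Pi`).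
(1) for `a ∈ A`, `x = Pi s * a * Pi s ∈ A0 s` (`Pi_A_Pi`), `b = Sc a = Sc x` (`Sc_Pi`): `⟪ξ, lamb a ξ⟫ = ⟪ξ, lamb x ξ⟫ = ⟪1^, lamb (x * h) 1^⟫ = φ b`
(`xi_cut`, `xi_lamb`).  For `a = 1`: `‖ξ‖² = φ 1 = 1`.
(2) `abs_mean` with `K = HH`, `X = A0 s`, `hat x = lamb x 1^`, `l i x = l_i (Sc x)`, `a = lamb kk`, `b = rho kk` (`lamb_rho_comm`), `P = lamb (Pi s) * rho (Pi s)`
(`dense_hat`, `hat_mem`): `∑ |l_i (Sc x)|² ≤ re φ (Sc x * star (Sc x)) ≤ re φ (Sc (x * star x)) = tr (x * star x * h) = re ⟪x^, lamb kk (lamb kk x^)⟫`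
(`hl1`, `Sc_kadison'`, positivity of `φ`, `hat_lamb`), and the same with `star x * x` (`hl2`, `Sc_kadison`, `hat_rho`).
So `∑ |l_i (Sc x)|² ≤ re ⟪x^, lamb kk (rho kk x^)⟫ = re ⟪ξ, lamb x (rho x ξ)⟫ = re ⟪ξ, lamb a (rho a ξ)⟫` for `x = Pi s * a * Pi s`, `star a = a`
(`xi_lamb_rho`, `xi_cut_rho`).
-/

set_option autoImplicit false

open scoped ComplexConjugate InnerProductSpace Classical
open ContinuousLinearMap (adjoint)

namespace OE

theorem mean_vector {k L : ℕ} {c : ℝ} (hL : 0 < L) (h0 : 0 < c) (h1 : c < 1) (φ : A →ₗ[ℂ] ℂ)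
    (l : Fin 9 → A →ₗ[ℂ] ℂ)
    (hφ1 : φ 1 = 1) (hφn : ∀ a : A, ‖φ a‖ ≤ ‖(a : BH)‖)
    (hφp : ∀ a : A, 0 ≤ (a : BH) → ∃ r : ℝ, 0 ≤ r ∧ φ a = (r : ℂ))
    (hl1 : ∀ a : A, ∃ r : ℝ, φ (a * star a) = (r : ℂ) ∧ ∑ i, ‖l i a‖ ^ 2 ≤ r)
    (hl2 : ∀ a : A, ∃ r : ℝ, φ (star a * a) = (r : ℂ) ∧ ∑ i, ‖l i a‖ ^ 2 ≤ r) :
    ∃ ξ : HH, ‖ξ‖ = 1 ∧
      (∀ a b : A, (b : BH) = Sc k L c (a : BH) → ⟪ξ, lamb (a : BH) ξ⟫_ℂ = φ b) ∧
      (∀ a b : A, star a = a → (b : BH) = Sc k L c (a : BH) →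
        ∑ i, ‖l i b‖ ^ 2 ≤ (⟪ξ, lamb (a : BH) (rho (a : BH) ξ)⟫_ℂ).re) := by
  obtain ⟨h, hhA, hh0, hhφ⟩ := smooth_density (k := k) hL h0 h1 φ hφn hφp
  obtain ⟨kk, hkC, hk0, hkk⟩ := exists_sqrt (A0_le_CC hhA) hh0
  have hPh : Pi (QQ k L) * h = h := Pi_mul_A0 hhA
  obtain ⟨hPk, hkP⟩ := sqrt_Pi hPh hk0 hkk
  have hsa : star kk = kk := (IsSelfAdjoint.of_nonneg hk0).star_eq
  obtain ⟨ξ, hξ⟩ : ∃ ξ : HH, ξ = lamb kk (oneh (QQ k L)) := ⟨_, rfl⟩
  obtain ⟨hξ1, hξ2⟩ := xi_Pi hkC hPk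
  rw [← hξ] at hξ1 hξ2
  have hPx : ∀ a : A, Pi (QQ k L) * (a : BH) * Pi (QQ k L) ∈ A0 (QQ k L) := fun a => Pi_A_Pi _ a
  have hone : ∀ a b : A, (b : BH) = Sc k L c (a : BH) → ⟪ξ, lamb (a : BH) ξ⟫_ℂ = φ b := by
    intro a b hb
    rw [xi_cut hξ1 (a : BH), hξ, xi_lamb hkC (A0_le_CC (hPx a)) hsa, hkk]
    exact (hhφ _ (hPx a) b (by rw [hb, Sc_Pi hL h0 h1.le])).symm
  refine ⟨ξ, ?_, hone, ?_⟩
  · have e1 : ⟪ξ, lamb ((1 : A) : BH) ξ⟫_ℂ = φ 1 := by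
      refine hone 1 1 ?_
      show (1 : BH) = Sc k L c (1 : BH)
      exact (Sc_one hL h0 h1.le).symm
    have e2 : ((1 : A) : BH) = 1 := rfl
    rw [hφ1, e2, lamb_one, ContinuousLinearMap.one_apply] at e1
    have e4 := inner_self_eq_norm_sq (𝕜 := ℂ) ξ
    rw [e1, RCLike.one_re] at e4
    have e3 : ‖ξ‖ ^ 2 = 1 := e4.symm
    nlinarith [norm_nonneg ξ]
  · intro a b ha hb
    -- the data of `abs_mean`
    have hSm : ∀ x : A0 (QQ k L), Sc k L c (x : BH) ∈ A := fun x => Sc_mem hL h0 h1.le x.2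
    obtain ⟨hat, hhat⟩ : ∃ hat : A0 (QQ k L) →ₗ[ℂ] HH, ∀ x : A0 (QQ k L), hat x = lamb (x : BH) (oneh (QQ k L)) := by
      refine ⟨{ toFun := fun x => lamb (x : BH) (oneh (QQ k L))
                map_add' := ?_
                map_smul' := ?_ }, fun x => rfl⟩
      · intro x y
        show lamb ((x : BH) + (y : BH)) _ = _
        rw [lamb_add]
        rfl
      · intro z x
        show lamb (z • (x : BH)) _ = _
        rw [lamb_smul]
        rfl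
    obtain ⟨l', hl'⟩ : ∃ l' : Fin 9 → A0 (QQ k L) →ₗ[ℂ] ℂ, ∀ (i : Fin 9) (x : A0 (QQ k L)),
        l' i x = l i ⟨Sc k L c (x : BH), hSm x⟩ := by
      refine ⟨fun i => { toFun := fun x => l i ⟨Sc k L c (x : BH), hSm x⟩
                         map_add' := ?_
                         map_smul' := ?_ }, fun i x => rfl⟩
      · intro x y
        rw [← map_add]
        congr 1
        apply Subtype.ext
        show Sc k L c ((x : BH) + (y : BH)) = Sc k L c (x : BH) + Sc k L c (y : BH)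
        exact Sc_add _ _
      · intro z x
        rw [RingHom.id_apply, ← map_smul]
        congr 1
        apply Subtype.ext
        show Sc k L c (z • (x : BH)) = z • Sc k L c (x : BH)
        exact Sc_smul _ _
    have hab : lamb kk * rho kk = rho kk * lamb kk := lamb_rho_comm hkC hkC
    have hPlr : lamb (Pi (QQ k L)) * rho (Pi (QQ k L)) = rho (Pi (QQ k L)) * lamb (Pi (QQ k L)) :=
      lamb_comm_rho_Pi _ _
    have hP : star (lamb (Pi (QQ k L)) * rho (Pi (QQ k L))) = lamb (Pi (QQ k L)) * rho (Pi (QQ k L)) := by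
      rw [star_mul, ← rho_star, ← lamb_star, star_Pi, hPlr]
    have hlPP : lamb (Pi (QQ k L)) * lamb (Pi (QQ k L)) = lamb (Pi (QQ k L)) := by
      rw [← lamb_mul, Pi_mul_Pi]
    have hrPP : rho (Pi (QQ k L)) * rho (Pi (QQ k L)) = rho (Pi (QQ k L)) := by
      rw [← rho_mul, Pi_mul_Pi]
    have hPP : (lamb (Pi (QQ k L)) * rho (Pi (QQ k L))) * (lamb (Pi (QQ k L)) * rho (Pi (QQ k L))) =
        lamb (Pi (QQ k L)) * rho (Pi (QQ k L)) := by
      calc (lamb (Pi (QQ k L)) * rho (Pi (QQ k L))) * (lamb (Pi (QQ k L)) * rho (Pi (QQ k L)))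
          = lamb (Pi (QQ k L)) * (rho (Pi (QQ k L)) * lamb (Pi (QQ k L))) * rho (Pi (QQ k L)) := by
            simp only [mul_assoc]
        _ = lamb (Pi (QQ k L)) * (lamb (Pi (QQ k L)) * rho (Pi (QQ k L))) * rho (Pi (QQ k L)) := by rw [hPlr]
        _ = (lamb (Pi (QQ k L)) * lamb (Pi (QQ k L))) * (rho (Pi (QQ k L)) * rho (Pi (QQ k L))) := by
            simp only [mul_assoc]
        _ = _ := by rw [hlPP, hrPP]
    have hlk1 : lamb (Pi (QQ k L)) * lamb kk = lamb kk := by rw [← lamb_mul, hPk]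
    have hlk2 : lamb kk * lamb (Pi (QQ k L)) = lamb kk := by rw [← lamb_mul, hkP]
    have hrk1 : rho (Pi (QQ k L)) * rho kk = rho kk := by rw [← rho_mul, hkP]
    have hrk2 : rho kk * rho (Pi (QQ k L)) = rho kk := by rw [← rho_mul, hPk]
    have hPa : (lamb (Pi (QQ k L)) * rho (Pi (QQ k L))) * lamb kk =
        lamb kk * (lamb (Pi (QQ k L)) * rho (Pi (QQ k L))) := by
      rw [mul_assoc, ← lamb_comm_rho_Pi kk, ← mul_assoc, hlk1, ← mul_assoc, hlk2]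
    have hPb : (lamb (Pi (QQ k L)) * rho (Pi (QQ k L))) * rho kk =
        rho kk * (lamb (Pi (QQ k L)) * rho (Pi (QQ k L))) := by
      rw [mul_assoc, hrk1, ← rho_comm_lamb_Pi, hPlr, ← mul_assoc, hrk2]
    have hd : ∀ η : HH, (lamb (Pi (QQ k L)) * rho (Pi (QQ k L))) η ∈ closure (Set.range hat) := by
      intro η
      refine closure_mono ?_ (dense_hat (s := QQ k L) η)
      rintro _ ⟨x, hx, rfl⟩
      exact ⟨⟨x, span_le_A0 hx⟩, hhat _⟩
    have hr : ∀ x : A0 (QQ k L), (lamb (Pi (QQ k L)) * rho (Pi (QQ k L))) (hat x) = hat x := by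
      intro x
      rw [hhat x]
      show lamb (Pi (QQ k L)) (rho (Pi (QQ k L)) _) = _
      rw [(hat_mem x.2).2, (hat_mem x.2).1]
    have hpos : ∀ u v : A, (u : BH) ≤ (v : BH) → ∀ r : ℝ, φ u = (r : ℂ) → r ≤ (φ v).re := by
      intro u v huv r hr'
      obtain ⟨r', hr0, hr1⟩ := hφp (v - u) (by
        show (0 : BH) ≤ (v : BH) - (u : BH)
        exact sub_nonneg.2 huv)
      rw [map_sub, hr'] at hr1
      have h5 : φ v = ((r' + r : ℝ) : ℂ) := by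
        push_cast
        rw [← hr1]
        ring
      rw [h5, Complex.ofReal_re]
      linarith
    have hh1 : ∀ x : A0 (QQ k L), ∑ i, ‖l' i x‖ ^ 2 ≤ (⟪hat x, lamb kk (lamb kk (hat x))⟫_ℂ).re := by
      intro x
      obtain ⟨r, hr1, hr2⟩ := hl1 ⟨Sc k L c (x : BH), hSm x⟩
      have hxx : (x : BH) * star (x : BH) ∈ A0 (QQ k L) := A0_mul_mem x.2 (A0_star_mem x.2)
      simp only [hl']
      refine hr2.trans ?_
      have h5 := hpos _ ⟨Sc k L c ((x : BH) * star (x : BH)), Sc_mem hL h0 h1.le hxx⟩ (by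
        show Sc k L c (x : BH) * star (Sc k L c (x : BH)) ≤ Sc k L c ((x : BH) * star (x : BH))
        exact Sc_kadison' hL h0 h1.le _) r hr1
      refine h5.trans (le_of_eq ?_)
      rw [hhat x, hat_lamb hkC (A0_le_CC x.2), hkk]
      rw [← hhφ _ hxx ⟨Sc k L c ((x : BH) * star (x : BH)), Sc_mem hL h0 h1.le hxx⟩ rfl]
    have hh2 : ∀ x : A0 (QQ k L), ∑ i, ‖l' i x‖ ^ 2 ≤ (⟪hat x, rho kk (rho kk (hat x))⟫_ℂ).re := by
      intro x
      obtain ⟨r, hr1, hr2⟩ := hl2 ⟨Sc k L c (x : BH), hSm x⟩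
      have hxx : star (x : BH) * (x : BH) ∈ A0 (QQ k L) := A0_mul_mem (A0_star_mem x.2) x.2
      simp only [hl']
      refine hr2.trans ?_
      have h5 := hpos _ ⟨Sc k L c (star (x : BH) * (x : BH)), Sc_mem hL h0 h1.le hxx⟩ (by
        show star (Sc k L c (x : BH)) * Sc k L c (x : BH) ≤ Sc k L c (star (x : BH) * (x : BH))
        exact Sc_kadison hL h0 h1.le _) r hr1
      refine h5.trans (le_of_eq ?_)
      rw [hhat x, hat_rho hkC (A0_le_CC x.2), hkk]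
      rw [← hhφ _ hxx ⟨Sc k L c (star (x : BH) * (x : BH)), Sc_mem hL h0 h1.le hxx⟩ rfl]
    have hmain := abs_mean hat l' (lamb_nonneg hk0) (rho_nonneg hk0) hab hP hPP hPa hPb hd hr hh1 hh2
      ⟨Pi (QQ k L) * (a : BH) * Pi (QQ k L), hPx a⟩
    have hxs : star (Pi (QQ k L) * (a : BH) * Pi (QQ k L)) = Pi (QQ k L) * (a : BH) * Pi (QQ k L) := by
      have ha' : star (a : BH) = (a : BH) := congrArg Subtype.val ha
      rw [star_mul, star_mul, star_Pi, ha', mul_assoc]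
    rw [hhat] at hmain
    rw [← xi_lamb_rho hkC (A0_le_CC (hPx a)) hsa hxs, ← hξ, ← xi_cut_rho hξ1 hξ2] at hmain
    refine le_trans (le_of_eq ?_) hmain
    refine Finset.sum_congr rfl fun i _ => ?_
    rw [hl']
    congr 3
    apply Subtype.ext
    show (b : BH) = Sc k L c (Pi (QQ k L) * (a : BH) * Pi (QQ k L))
    rw [hb, Sc_Pi hL h0 h1.le]

end OE
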