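import Mathlib
import Pool.Agent.Work.MP_06ef15_an.ZX
import Pool.Agent.Work.MP_06ef15_an.AN1
import Pool.Agent.Work.MP_06ef15_an.JT
import Pool.Agent.Work.MP_06ef15_an.JR

/-!
# Interface of sections 7 and 8 (owner: helper83): PROPOSITION (8.0)   (size M)

`φ a = ⟪ζ, σ(a) ζ⟫`, `l i a = ⟪X_i ζ, σ(a) ζ⟫` (`i : Fin 9`).  Hypotheses of `mean_vector`: `hφn`: `Anti.norm_f` and Cauchy-Schwarz;
`hφp`: `Anti.f_nonneg`; `hφ1`: `Anti.f_one`; `hl1`, `hl2`: `sum_le_right`, `sum_le_left` (file JR).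
Let `x i = σ.g (XA i)`: `σ.f (x i) = XA i`, `star (x i) = x i` (`Anti.g_star`, `star_X`).  Without loss of generality `ε ≤ 1`; `δ = ε / 40`.
`approx_fc` for `F ∪ {x i : i < 9}` and `norm_Sc_sub_le` give `k, L, c` with `‖Sc a - a‖ ≤ δ` for these `a`; `Sc a ∈ A` (`Sc_Pi`, `Pi_A_Pi`, `Sc_mem`).
Take `ξ` from `mean_vector`.  For `f ∈ F`: `|⟪ξ, lamb f ξ⟫ - φ f| = |φ (Sc f - f)| ≤ δ`.
For `x i`: `re ⟪ξ, lamb (x i) (rho (x i) ξ)⟫ ≥ |l_i (Sc (x i))|² ≥ (1 - δ)²` since `l_i (x i) = ⟪X_i ζ, X_i ζ⟫ = 1` (`X_ortho`) and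
`|l_i (Sc (x i) - x i)| ≤ ‖X_i ζ‖ δ = δ`.  Sum over `i < 9`.
-/

set_option autoImplicit false

open scoped ComplexConjugate InnerProductSpace Classical Topology
open Filter

namespace OE

/-- `Sc a ∈ A` for `a ∈ A`. -/
theorem Sc_A_mem {k L : ℕ} {c : ℝ} (hL : 0 < L) (h0 : 0 < c) (h1 : c ≤ 1) (a : A) : Sc k L c (a : BH) ∈ A := by
  rw [← Sc_Pi hL h0 h1]
  exact Sc_mem hL h0 h1 (Pi_A_Pi _ a)

/-- the functional `a ↦ ⟪ω, σ(a) ζ⟫`. -/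
private noncomputable def fnl (σ : Anti) (ω ζ : H Idx) : A →ₗ[ℂ] ℂ where
  toFun := fun a => ⟪ω, ((σ.f a : A) : BH) ζ⟫_ℂ
  map_add' := fun a b => by
    rw [map_add, ← inner_add_right]
    rfl
  map_smul' := fun c a => by
    rw [map_smul, RingHom.id_apply, smul_eq_mul, ← inner_smul_right]
    rfl

private theorem le_sum9 (u : ℕ → ℝ) (hu : ∀ j, 0 ≤ u j) {i : ℕ} (hi : i < 9) :
    u i ≤ ∑ j : Fin 9, u (j : ℕ) :=
  Finset.single_le_sum (f := fun j : Fin 9 => u (j : ℕ)) (fun j _ => hu j)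
    (Finset.mem_univ (⟨i, hi⟩ : Fin 9))

private theorem norm_fnl_le (σ : Anti) {ω ζ : H Idx} (hω : ‖ω‖ = 1) (hζ : ‖ζ‖ = 1) (a : A) :
    ‖fnl σ ω ζ a‖ ≤ ‖(a : BH)‖ := by
  refine (norm_inner_le_norm (𝕜 := ℂ) ω (((σ.f a : A) : BH) ζ)).trans ?_
  rw [hω, one_mul]
  refine (ContinuousLinearMap.le_opNorm _ _).trans ?_
  rw [hζ, mul_one]
  exact (σ.norm_f a).le

/-- Proposition (8.0). -/
theorem state_to_vector (σ : Anti) (ζ : H Idx) (hζ : PV ζ = ζ) (h1 : ‖ζ‖ = 1) (F : Finset A) (ε : ℝ) (hε : 0 < ε) :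
    ∃ ξ : HH, ‖ξ‖ = 1 ∧
      (∀ f ∈ F, ‖⟪ξ, lamb ((f : A) : BH) ξ⟫_ℂ - ⟪ζ, ((σ.f f : A) : BH) ζ⟫_ℂ‖ ≤ ε) ∧
      9 - ε ≤ (∑ i ∈ Finset.range 9,
        ⟪ξ, lamb ((σ.g (XA i) : A) : BH) (rho ((σ.g (XA i) : A) : BH) ξ)⟫_ℂ).re := by
  obtain ⟨δ, hδ, hδε, hδ1⟩ : ∃ δ : ℝ, 0 < δ ∧ 18 * δ ≤ ε ∧ δ ≤ 1 := by
    refine ⟨min ε 1 / 40, by positivity, ?_, ?_⟩
    · have := min_le_left ε 1
      linarith
    · have := min_le_right ε 1
      linarith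
  obtain ⟨k, L, c, hL, hc0, hc1, happ⟩ :=
    approx_fc (F ∪ (Finset.range 9).image fun i => σ.g (XA i)) δ hδ
  have hSc : ∀ a ∈ F ∪ (Finset.range 9).image (fun i => σ.g (XA i)),
      ‖Sc k L c (a : BH) - (a : BH)‖ ≤ δ := fun a ha =>
    (norm_Sc_sub_le hL hc0 hc1.le _).trans (happ a ha)
  have hXn : ∀ i : ℕ, ‖X i ζ‖ = 1 := by
    intro i
    have h2 := X_ortho hζ i i
    rw [if_pos rfl, h1] at h2
    have h3 : ‖X i ζ‖ ^ 2 = 1 := by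
      rw [← inner_self_eq_norm_sq (𝕜 := ℂ), h2]
      simp
    nlinarith [norm_nonneg (X i ζ)]
  obtain ⟨ξ, hξ, hξ1, hξ2⟩ := mean_vector hL hc0 hc1 (fnl σ ζ ζ) (fun i : Fin 9 => fnl σ (X (i : ℕ) ζ) ζ)
    (by
      show ⟪ζ, ((σ.f 1 : A) : BH) ζ⟫_ℂ = 1
      rw [σ.f_one]
      show ⟪ζ, ζ⟫_ℂ = 1
      rw [inner_self_eq_norm_sq_to_K, h1]
      norm_num)
    (fun a => norm_fnl_le σ h1 h1 a)
    (by
      intro a ha
      have h2 : 0 ≤ ((σ.f a : A) : BH) := σ.f_nonneg ha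
      rw [ContinuousLinearMap.nonneg_iff_isPositive] at h2
      have h3 := h2.inner_nonneg_right ζ
      refine ⟨(⟪ζ, ((σ.f a : A) : BH) ζ⟫_ℂ).re, ?_, ?_⟩
      · exact (RCLike.nonneg_iff.1 h3).1
      · have h4 := (RCLike.nonneg_iff.1 h3).2
        apply Complex.ext
        · rw [Complex.ofReal_re]; rfl
        · rw [Complex.ofReal_im]; exact h4)
    (fun a => sum_le_right σ hζ h1 a)
    (fun a => sum_le_left σ hζ h1 a)
  have hmemA : ∀ a : A, Sc k L c (a : BH) ∈ A := fun a => Sc_A_mem hL hc0 hc1.le a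
  refine ⟨ξ, hξ, fun f hf => ?_, ?_⟩
  · have h2 := hξ1 f ⟨_, hmemA f⟩ rfl
    have h3 : ⟪ξ, lamb ((f : A) : BH) ξ⟫_ℂ - ⟪ζ, ((σ.f f : A) : BH) ζ⟫_ℂ =
        fnl σ ζ ζ (⟨_, hmemA f⟩ - f) := by
      rw [h2, map_sub]
      rfl
    rw [h3]
    refine (norm_fnl_le σ h1 h1 _).trans ?_
    have h4 := hSc f (Finset.mem_union_left _ hf)
    have h5 : ((⟨_, hmemA f⟩ - f : A) : BH) = Sc k L c (f : BH) - (f : BH) := rfl
    rw [h5]
    linarith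
  · have key : ∀ i ∈ Finset.range 9, 1 - 2 * δ ≤
        (⟪ξ, lamb ((σ.g (XA i) : A) : BH) (rho ((σ.g (XA i) : A) : BH) ξ)⟫_ℂ).re := by
      intro i hi
      have hstar : star (σ.g (XA i)) = σ.g (XA i) := by
        rw [← σ.g_star]
        congr 1
        exact Subtype.ext (star_X i)
      obtain ⟨b, hb⟩ : ∃ b : A, (b : BH) = Sc k L c ((σ.g (XA i) : A) : BH) :=
        ⟨⟨_, hmemA (σ.g (XA i))⟩, rfl⟩
      have h2 := hξ2 (σ.g (XA i)) b hstar hb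
      refine le_trans ?_ h2
      have h3 := le_sum9 (fun j => ‖fnl σ (X j ζ) ζ b‖ ^ 2) (fun j => sq_nonneg _)
        (Finset.mem_range.1 hi)
      refine le_trans ?_ h3
      have h4 : fnl σ (X i ζ) ζ (σ.g (XA i)) = 1 := by
        have h9 : fnl σ (X i ζ) ζ (σ.g (XA i)) = ⟪X i ζ, X i ζ⟫_ℂ := by
          have h10 : ((σ.f (σ.g (XA i)) : A) : BH) = X i := by
            rw [σ.fg]
            rfl
          have h11 : fnl σ (X i ζ) ζ (σ.g (XA i)) =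
              ⟪X i ζ, ((σ.f (σ.g (XA i)) : A) : BH) ζ⟫_ℂ := rfl
          rw [h11, h10]
        rw [h9, inner_self_eq_norm_sq_to_K, hXn]
        norm_num
      have h5 : ‖fnl σ (X i ζ) ζ (b - σ.g (XA i))‖ ≤ δ := by
        refine (norm_fnl_le σ (hXn i) h1 _).trans ?_
        have h12 : ((b - σ.g (XA i) : A) : BH) =
            Sc k L c ((σ.g (XA i) : A) : BH) - ((σ.g (XA i) : A) : BH) := by
          rw [← hb]
          rfl
        rw [h12]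
        exact hSc _ (Finset.mem_union_right _ (Finset.mem_image_of_mem _ hi))
      rw [map_sub, h4] at h5
      have h6 : 1 - δ ≤ ‖fnl σ (X i ζ) ζ b‖ := by
        have h7 := norm_sub_norm_le (1 : ℂ) (fnl σ (X i ζ) ζ b)
        rw [norm_one, norm_sub_rev] at h7
        linarith
      have h8 : (1 - δ) ^ 2 ≤ ‖fnl σ (X i ζ) ζ b‖ ^ 2 :=
        pow_le_pow_left₀ (by linarith) h6 2
      have h13 : 1 - 2 * δ ≤ (1 - δ) ^ 2 := by nlinarith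
      exact h13.trans h8
    rw [Complex.re_sum]
    have hfin := Finset.sum_le_sum key
    rw [Finset.sum_const, Finset.card_range, nsmul_eq_mul] at hfin
    push_cast at hfin
    linarith

end OE
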