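import Mathlib
import Pool.Agent.Work.MP_06ef15_an.CB

/-!
# Windows: combinatorics of `win`, `pw`, `fw`, `EK`

`pw K q w` is the length of the longest prefix of `w` with all letters in the window.

`pw_append`: if not (all letters of `w` and `a` are in the window) then `pw (w ++ [a]) = pw w` (`List.takeWhile_append`).
`fw_append`: unless (`w.length < M0`, all letters of `w` and `a` in the window) the weights of `w ++ [a]` and `w` agree for ALL `j`.
Case 1: not all letters of `w ++ [a]` in the window: `pw` is the same, and `fw` depends on `w` only through `pw`.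
Case 2: all in the window, `M0 ≤ w.length`: `pw (w ++ [a]) = w.length + 1`, `pw w = w.length`, both `≥ M0`: the first condition is
`j < M0` in both cases and the second condition is false in both cases.

`mem_EK_of_win`: `0 ≤ nn (dig j1 m) ≤ j1 < L` (`nn_nonneg`, `nn_le_length`, `length_dig`).  `win K0 (n - nn) (t, k - n')` gives
`|k - n' + n - nn| ≤ K0`, so `|n - n'| ≤ K0 + L + |k|`; a letter `a` with `win K0 (n - nn) a` has `|a.2 + n| ≤ K0 + L`.
-/

set_option autoImplicit false

open scoped ComplexConjugate InnerProductSpace Classical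

namespace OE

theorem win_bar (K : ℕ) (q : ℤ) (t : T) (l : ℤ) : win K q (bar t, l) ↔ win K q (t, l) := by
  rcases t with i | b <;> exact Iff.rfl

theorem win_barL (K : ℕ) (q : ℤ) (a : Lam) : win K q (barL a) ↔ win K q a := win_bar K q a.1 a.2

theorem win_mono {K K' : ℕ} (h : K ≤ K') {q : ℤ} {a : Lam} (ha : win K q a) : win K' q a := by
  have h' : (K : ℤ) ≤ K' := by exact_mod_cast h
  obtain ⟨h1, h2⟩ := ha
  refine ⟨?_, h2.trans h'⟩
  rcases a with ⟨i | b, l⟩
  · exact lt_of_lt_of_le h1 h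
  · trivial

theorem win_shift {K K' : ℕ} {q q' : ℤ} (h : (K : ℤ) + |q' - q| ≤ K') {a : Lam} (ha : win K q a) : win K' q' a := by
  have h0 : 0 ≤ |q' - q| := abs_nonneg _
  have h' : (K : ℤ) ≤ K' := by linarith
  obtain ⟨h1, h2⟩ := ha
  refine ⟨?_, ?_⟩
  · rcases a with ⟨i | b, l⟩
    · exact lt_of_lt_of_le h1 (by exact_mod_cast h')
    · trivial
  · have h3 : a.2 + q' = (a.2 + q) + (q' - q) := by ring
    rw [h3]
    exact (abs_add_le _ _).trans (by linarith)

/-- every letter is in a large window. -/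
theorem exists_win (a : Lam) (q : ℤ) : ∃ K : ℕ, win K q a := by
  rcases a with ⟨i | b, l⟩
  · refine ⟨i + 1 + (l + q).natAbs, ?_, ?_⟩
    · show i < i + 1 + (l + q).natAbs
      omega
    · show |l + q| ≤ ((i + 1 + (l + q).natAbs : ℕ) : ℤ)
      push_cast
      omega
  · refine ⟨(l + q).natAbs, trivial, ?_⟩
    show |l + q| ≤ (((l + q).natAbs : ℕ) : ℤ)
    push_cast
    omega

theorem pw_le_length (K : ℕ) (q : ℤ) (w : W) : pw K q w ≤ w.length :=
  List.IsPrefix.length_le (List.takeWhile_prefix _)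

theorem pw_all {K : ℕ} {q : ℤ} {w : W} (h : ∀ a ∈ w, win K q a) : pw K q w = w.length := by
  unfold pw
  rw [List.takeWhile_eq_self_iff.2 (fun a ha => decide_eq_true (h a ha))]

private theorem all_of_pw {K : ℕ} {q : ℤ} {w : W} (h : pw K q w = w.length) : ∀ a ∈ w, win K q a := by
  intro a ha
  have h1 : w.takeWhile (fun a => decide (win K q a)) = w :=
    (List.takeWhile_prefix _).eq_of_length h
  exact of_decide_eq_true (List.takeWhile_eq_self_iff.1 h1 a ha)

theorem pw_append {K : ℕ} {q : ℤ} {w : W} {a : Lam} (h : ¬ ((∀ b ∈ w, win K q b) ∧ win K q a)) :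
    pw K q (w ++ [a]) = pw K q w := by
  unfold pw
  rw [List.takeWhile_append]
  by_cases h1 : (w.takeWhile (fun a => decide (win K q a))).length = w.length
  · rw [if_pos h1]
    have h2 : ∀ b ∈ w, win K q b := all_of_pw h1
    have h3 : ¬ win K q a := fun h4 => h ⟨h2, h4⟩
    have h5 : [a].takeWhile (fun a => decide (win K q a)) = [] := by
      rw [List.takeWhile_cons_of_neg (by simpa using h3)]
    rw [h5, List.append_nil, h1]
  · rw [if_neg h1]

private theorem pw_append_all {K : ℕ} {q : ℤ} {w : W} {a : Lam} (h : (∀ b ∈ w, win K q b) ∧ win K q a) :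
    pw K q (w ++ [a]) = w.length + 1 := by
  rw [pw_all, List.length_append, List.length_singleton]
  intro b hb
  rw [List.mem_append, List.mem_singleton] at hb
  rcases hb with hb | rfl
  · exact h.1 b hb
  · exact h.2

theorem fw_append {K M0 : ℕ} {q : ℤ} {w : W} {a : Lam}
    (h : ¬ (w.length < M0 ∧ (∀ b ∈ w, win K q b) ∧ win K q a)) (j : ℕ) :
    fw K M0 (w ++ [a]) q j = fw K M0 w q j := by
  unfold fw
  by_cases h1 : (∀ b ∈ w, win K q b) ∧ win K q a
  · have h2 : M0 ≤ w.length := not_lt.1 fun h3 => h ⟨h3, h1⟩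
    rw [pw_append_all h1, pw_all h1.1, min_eq_right h2, min_eq_right (h2.trans (Nat.le_succ _))]
    have h4 : ¬ (j = w.length + 1 ∧ w.length + 1 < M0) := by omega
    have h5 : ¬ (j = w.length ∧ w.length < M0) := by omega
    rw [if_neg h4, if_neg h5]
  · rw [pw_append h1]

theorem fw_eq_zero {K M0 : ℕ} {q : ℤ} {w : W} {j : ℕ} (h : w.length < j) : fw K M0 w q j = 0 := by
  unfold fw
  have h1 := pw_le_length K q w
  rw [if_neg, if_neg]
  · rintro ⟨h2, -⟩
    omega
  · intro h2
    have h3 := lt_of_lt_of_le h2 (min_le_left _ _)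
    omega

theorem EK_mono {K K' : ℕ} (h : K ≤ K') : EK K ⊆ EK K' := by
  rintro x ⟨h1, h2, h3⟩
  exact ⟨h1.trans (by exact_mod_cast h), h2.trans h, fun a ha => win_mono h (h3 a ha)⟩

theorem mem_EK_of_win {K0 L M0 K : ℕ} {k : ℤ} {t : T} {w : W} {v v' : V} {n n' : ℤ} {m m' : M} {j1 : ℕ}
    (hj : j1 < L) (hw : w.length ≤ M0) (hwin : ∀ a ∈ w, win K0 (n - nn (dig j1 m)) a)
    (ha : win K0 (n - nn (dig j1 m)) (t, k - n')) (hK : (K0 : ℤ) + L + M0 + |k| ≤ K) :
    ((w, (v, (n, m))), (v', (n', m'))) ∈ EK K := by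
  have h0 := nn_nonneg (dig j1 m)
  have h1 := nn_le_length (dig j1 m)
  rw [length_dig] at h1
  have hj' : (j1 : ℤ) < L := by exact_mod_cast hj
  have hk := abs_nonneg k
  have hM : (0 : ℤ) ≤ M0 := by positivity
  have hK0 : (0 : ℤ) ≤ K0 := by positivity
  have hL : (0 : ℤ) ≤ L := by positivity
  refine ⟨?_, ?_, ?_⟩
  · show |n - n'| ≤ (K : ℤ)
    have h2 : |k - n' + (n - nn (dig j1 m))| ≤ (K0 : ℤ) := ha.2
    have h3 : n - n' = (k - n' + (n - nn (dig j1 m))) + (nn (dig j1 m) + -k) := by ring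
    rw [h3]
    have h4 := abs_add_le (k - n' + (n - nn (dig j1 m))) (nn (dig j1 m) + -k)
    have h5 := abs_add_le (nn (dig j1 m)) (-k)
    rw [abs_neg, abs_of_nonneg h0] at h5
    linarith
  · show w.length ≤ K
    have h2 : (w.length : ℤ) ≤ M0 := by exact_mod_cast hw
    have h3 : (w.length : ℤ) ≤ K := by linarith
    exact_mod_cast h3
  · intro a ha'
    refine win_shift ?_ (hwin a ha')
    show (K0 : ℤ) + |n - (n - nn (dig j1 m))| ≤ K
    rw [sub_sub_cancel, abs_of_nonneg h0]
    linarith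

end OE
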