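import Mathlib
import Pool.Agent.Work.MP_06ef15_an.O7
import Pool.Agent.Work.MP_06ef15_an.ZX

/-!
# The splitting isometry and the right action

`Z = Zop k L (fw K0 M0)`.  On basis vectors `e(w,(v,(n,m)))` with `w` not small, `Z` intertwines `R t l` with `1 ⊗ R t l`.

Notation `q1 = n - nn (dig j1 m)`, `p' = (v', (nn (dig j1 m), actM (dig j1 m) m1))`, `p'' = (v - v', (q1, tl^[j1] m))`,
`c(w,j) = card^(-1/2) L^(-1/2) fw K0 M0 w q1 j`, phase `ch(-bf v' (v-v') - xf (v-v') * dgw (w.take j))`, `a = (t,l)`.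

`Z e(w,..) = ∑_{v',j1,j ≤ |w|} c(w,j) ch(..) e((sh q1 (w.take j), p'), (w.drop j, p''))` (`Zop_e`).

`w = []` : `R t l e([],..) = e([a],..)`.  `w = w0 ++ [b]` (`List.eq_nil_or_concat`): `R t l e(w) = e(w ++ [a]) + [b = (bar t,l)] e(w0)`
(`R_e_nil`, `R_e_concat`).

Right hand side: `ampR Idx (R t l) e(x1, (w.drop j, p'')) = embL x1 (R t l e(w.drop j, p''))`, `w.drop j` is `[]` for `j = |w|` and
`w0.drop j ++ [b]` for `j ≤ |w0|`.  So the right hand side is
`∑_{v',j1} (∑_{j ≤ |w|} c(w,j) ch(..) e((sh q1 (w.take j), p'), (w.drop j ++ [a], p'')) + [b = (bar t,l)] ∑_{j ≤ |w0|} c(w,j) ch(..) e((.. w.take j), (w0.drop j, p'')))`.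

Left hand side, creation part: `∑_{j ≤ |w|+1} c(w ++ [a],j) ch(..) e((sh q1 ((w++[a]).take j), p'), ((w++[a]).drop j, p''))`; for `j ≤ |w|`:
`(w++[a]).take j = w.take j`, `(w++[a]).drop j = w.drop j ++ [a]` and `c(w++[a],j) = c(w,j)` by `fw_append` (hypothesis `h`);
for `j = |w|+1` the coefficient is `c(w,|w|+1) = 0` (`fw_append`, `fw_eq_zero`).
Annihilation part (`b = (bar t,l)`): `Z e(w0) = ∑_{j ≤ |w0|} c(w0,j) ch(..) e((sh q1 (w0.take j), p'), (w0.drop j, p''))`, `w0.take j = w.take j`, and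
`c(w0,j) = c(w0 ++ [b],j) = c(w,j)` by `fw_append` for `w0`, `b`: its hypothesis holds, since `w0.length < M0`, all letters of `w0` and `b` in the
window would give `w.length ≤ M0`, all letters of `w` in the window and `win K0 q1 (t,l)` (`win_bar`), contradicting `h`.
-/

set_option autoImplicit false

open scoped ComplexConjugate InnerProductSpace Classical
open ContinuousLinearMap (adjoint)

namespace OE

private noncomputable def sS {E : Type} [AddCommGroup E] [Module ℂ E] (G : W → W → E) (c : W → ℕ → ℂ) (w : W) : E :=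
  ∑ j ∈ Finset.range (w.length + 1), c w j • G (w.take j) (w.drop j)

private theorem sS_nil {E : Type} [AddCommGroup E] [Module ℂ E] (G : W → W → E) (c : W → ℕ → ℂ) (a : Lam)
    (A : E →ₗ[ℂ] E) (h0 : ∀ u, A (G u []) = G u [a]) (hc : ∀ j, c [a] j = c [] j) (hz : c [] 1 = 0) :
    sS G c [a] = A (sS G c []) := by
  unfold sS
  simp only [List.length_cons, List.length_nil, zero_add, Finset.sum_range_succ, Finset.sum_range_zero,
    List.take_zero, List.drop_zero, hc, hz, zero_smul, add_zero, map_smul, h0]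

private theorem sS_concat {E : Type} [AddCommGroup E] [Module ℂ E] (G : W → W → E) (c : W → ℕ → ℂ) (a b b0 : Lam)
    (w0 : W) (A : E →ₗ[ℂ] E) (h0 : ∀ u, A (G u []) = G u [a])
    (h1 : ∀ u u' b, A (G u (u' ++ [b])) = G u (u' ++ [b] ++ [a]) + if b = b0 then G u u' else 0)
    (hc : ∀ j, c (w0 ++ [b] ++ [a]) j = c (w0 ++ [b]) j) (hz : c (w0 ++ [b]) (w0.length + 2) = 0)
    (hw : b = b0 → ∀ j, c w0 j = c (w0 ++ [b]) j) :
    sS G c (w0 ++ [b] ++ [a]) + (if b = b0 then sS G c w0 else 0) = A (sS G c (w0 ++ [b])) := by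
  have hl : (w0 ++ [b]).length = w0.length + 1 := by simp
  have hl2 : (w0 ++ [b] ++ [a]).length = w0.length + 2 := by simp
  have e1 : A (sS G c (w0 ++ [b])) = ∑ j ∈ Finset.range (w0.length + 1),
      c (w0 ++ [b]) j • (G (w0.take j) (w0.drop j ++ [b] ++ [a]) + if b = b0 then G (w0.take j) (w0.drop j) else 0) +
      c (w0 ++ [b]) (w0.length + 1) • G (w0 ++ [b]) [a] := by
    unfold sS
    rw [hl, Finset.sum_range_succ, map_add, map_sum]
    congr 1
    · refine Finset.sum_congr rfl fun j hj => ?_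
      have hj' : j ≤ w0.length := Nat.lt_succ_iff.1 (Finset.mem_range.1 hj)
      rw [map_smul, List.take_append_of_le_length hj', List.drop_append_of_le_length hj', h1]
    · rw [map_smul, List.take_of_length_le hl.le, List.drop_of_length_le hl.le, h0]
  have e2 : sS G c (w0 ++ [b] ++ [a]) = ∑ j ∈ Finset.range (w0.length + 1),
      c (w0 ++ [b]) j • G (w0.take j) (w0.drop j ++ [b] ++ [a]) +
      c (w0 ++ [b]) (w0.length + 1) • G (w0 ++ [b]) [a] := by
    unfold sS
    rw [hl2, Finset.sum_range_succ, hc, hz, zero_smul, add_zero, Finset.sum_range_succ]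
    congr 1
    · refine Finset.sum_congr rfl fun j hj => ?_
      have hj' : j ≤ w0.length := Nat.lt_succ_iff.1 (Finset.mem_range.1 hj)
      have hj2 : j ≤ (w0 ++ [b]).length := by omega
      rw [hc, List.take_append_of_le_length hj2, List.take_append_of_le_length hj',
        List.drop_append_of_le_length hj2, List.drop_append_of_le_length hj']
    · rw [hc, List.take_append_of_le_length hl.ge, List.take_of_length_le hl.le,
        List.drop_append_of_le_length hl.ge, List.drop_of_length_le hl.le, List.nil_append]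
  rw [e1, e2]
  by_cases hb : b = b0
  · simp only [if_pos hb, smul_add, Finset.sum_add_distrib]
    unfold sS
    have : ∑ j ∈ Finset.range (w0.length + 1), c w0 j • G (w0.take j) (w0.drop j) =
        ∑ j ∈ Finset.range (w0.length + 1), c (w0 ++ [b]) j • G (w0.take j) (w0.drop j) :=
      Finset.sum_congr rfl fun j _ => by rw [hw hb]
    rw [this]
    abel
  · simp only [if_neg hb, add_zero]

private noncomputable def gG (v' x : V) (q : ℤ) (p' p'' : Q) (u u' : W) : H (Idx × Idx) :=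
  ch (-bf v' x - xf x * dgw u) • e (((sh q u, p'), (u', p'')) : Idx × Idx)

private theorem gG_nil (t : T) (l : ℤ) (v' x : V) (q : ℤ) (p' p'' : Q) (u : W) :
    ampR Idx (R t l) (gG v' x q p' p'' u []) = gG v' x q p' p'' u [(t, l)] := by
  obtain ⟨v2, n2, m2⟩ := p''
  unfold gG
  rw [map_smul, ampR_e]
  dsimp only
  rw [R_e_nil, embL_e]

private theorem gG_concat (t : T) (l : ℤ) (v' x : V) (q : ℤ) (p' p'' : Q) (u u' : W) (b : Lam) :
    ampR Idx (R t l) (gG v' x q p' p'' u (u' ++ [b])) =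
      gG v' x q p' p'' u (u' ++ [b] ++ [(t, l)]) + if b = (bar t, l) then gG v' x q p' p'' u u' else 0 := by
  obtain ⟨v2, n2, m2⟩ := p''
  unfold gG
  rw [map_smul, ampR_e]
  dsimp only
  rw [R_e_concat, map_add, embL_e, smul_add]
  congr 1
  split_ifs
  · rw [embL_e]
  · rw [map_zero, smul_zero]

private noncomputable def cC (k L K0 M0 : ℕ) (q : ℤ) (w : W) (j : ℕ) : ℂ :=
  ((((VFin k).card : ℝ) ^ (-(1 / 2 : ℝ)) * (L : ℝ) ^ (-(1 / 2 : ℝ)) * fw K0 M0 w q j : ℝ) : ℂ)

private theorem Zop_sS {k L K0 M0 : ℕ} (hL : 0 < L) (hM0 : 0 < M0) (w : W) (v : V) (n : ℤ) (m : M) :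
    Zop k L (fw K0 M0) (e (w, (v, (n, m)))) = ∑ v' ∈ VFin k, ∑ j1 ∈ Finset.range L,
      sS (gG v' (v - v') (n - nn (dig j1 m)) (v', (nn (dig j1 m), actM (dig j1 m) m1))
        (v - v', (n - nn (dig j1 m), tl^[j1] m))) (cC k L K0 M0 (n - nn (dig j1 m))) w := by
  rw [Zop_e hL (isWeight_fw K0 hM0)]
  rfl

theorem Zop_R {k L K0 M0 : ℕ} (hL : 0 < L) (hM0 : 0 < M0) (t : T) (l : ℤ) (w : W) (v : V) (n : ℤ) (m : M)
    (h : ∀ j1 < L, ¬ (w.length ≤ M0 ∧ (∀ a ∈ w, win K0 (n - nn (dig j1 m)) a) ∧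
      win K0 (n - nn (dig j1 m)) (t, l))) :
    Zop k L (fw K0 M0) (R t l (e (w, (v, (n, m))))) =
      ampR Idx (R t l) (Zop k L (fw K0 M0) (e (w, (v, (n, m))))) := by
  have hcc : ∀ j1 < L, ∀ j, cC k L K0 M0 (n - nn (dig j1 m)) (w ++ [(t, l)]) j =
      cC k L K0 M0 (n - nn (dig j1 m)) w j := by
    intro j1 hj1 j
    unfold cC
    rw [fw_append]
    rintro ⟨h1, h2⟩
    exact h j1 hj1 ⟨h1.le, h2⟩
  have hzz : ∀ (q : ℤ) (u : W) (j : ℕ), u.length < j → cC k L K0 M0 q u j = 0 := by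
    intro q u j hj
    unfold cC
    rw [fw_eq_zero hj, mul_zero, Complex.ofReal_zero]
  rcases List.eq_nil_or_concat w with rfl | ⟨w0, b, rfl⟩
  · rw [R_e_nil, Zop_sS hL hM0, Zop_sS hL hM0, map_sum]
    refine Finset.sum_congr rfl fun v' _ => ?_
    rw [map_sum]
    refine Finset.sum_congr rfl fun j1 hj1 => ?_
    exact sS_nil _ _ _ (ampR Idx (R t l)).toLinearMap (fun u => gG_nil _ _ _ _ _ _ _ _)
      (fun j => hcc j1 (Finset.mem_range.1 hj1) j) (hzz _ _ _ (by simp))
  · rw [List.concat_eq_append] at hcc h ⊢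
    have hA : Zop k L (fw K0 M0) (R t l (e (w0 ++ [b], (v, (n, m))))) =
        Zop k L (fw K0 M0) (e (w0 ++ [b] ++ [(t, l)], (v, (n, m)))) +
          if b = (bar t, l) then Zop k L (fw K0 M0) (e (w0, (v, (n, m)))) else 0 := by
      rw [R_e_concat, map_add]
      congr 1
      split_ifs
      · rfl
      · rw [map_zero]
    have hB : (if b = (bar t, l) then Zop k L (fw K0 M0) (e (w0, (v, (n, m)))) else 0) =
        ∑ v' ∈ VFin k, ∑ j1 ∈ Finset.range L, if b = (bar t, l) then
          sS (gG v' (v - v') (n - nn (dig j1 m)) (v', (nn (dig j1 m), actM (dig j1 m) m1))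
        (v - v', (n - nn (dig j1 m), tl^[j1] m))) (cC k L K0 M0 (n - nn (dig j1 m))) w0 else 0 := by
      split_ifs
      · rw [Zop_sS hL hM0]
      · simp
    rw [hA, hB, Zop_sS hL hM0, Zop_sS hL hM0, map_sum, ← Finset.sum_add_distrib]
    refine Finset.sum_congr rfl fun v' _ => ?_
    rw [map_sum, ← Finset.sum_add_distrib]
    refine Finset.sum_congr rfl fun j1 hj1 => ?_
    have hj1' := Finset.mem_range.1 hj1
    refine sS_concat _ _ (t, l) b (bar t, l) w0 (ampR Idx (R t l)).toLinearMap (fun u => gG_nil _ _ _ _ _ _ _ _)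
      (fun u u' b => gG_concat _ _ _ _ _ _ _ _ _ _)
      (fun j => hcc j1 hj1' j) (hzz _ _ _ (by simp)) ?_
    intro hb j
    unfold cC
    rw [fw_append]
    rintro ⟨h1, h2, h3⟩
    refine h j1 hj1' ⟨?_, ?_, ?_⟩
    · simp only [List.length_append, List.length_cons, List.length_nil]
      omega
    · intro x hx
      rcases List.mem_append.1 hx with hx | hx
      · exact h2 x hx
      · rw [List.mem_singleton.1 hx]
        exact h3
    · rw [hb] at h3
      exact (win_bar _ _ _ _).1 h3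

end OE
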