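import Mathlib
import Pool.Agent.Work.MP_06ef15_an.O1
import Pool.Agent.Work.MP_06ef15_an.CE

/-!
# The right action of the generators in coordinates

`gQ u`, `sQ b` : operators on `ℓ²(Q)` with `g u = 1_W ⊗ gQ u`, `Sg b = 1_W ⊗ sQ b` (`ampR W`).

`rho_ampR`: on basis vectors: `Fl e((w,p),q) = e((ws w,q),p)`; `trp (ampR W y) = ampR W (trp y)` (by coefficients), so
`amp Q (trp (ampR W y)) e((ws w,q),p) = emb p (embL (ws w) (trp y (e q)))`, i.e. with `trp y (e q) = ∑ c_{q'} e q'`, the vectors
`e((ws w,q'),p)`, and `Fl` gives `e((w,p),q')`: that is `embL (w,p) (trp y (e q))`.  (Compare matrix coefficients with `rho_coef`.)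

`rho_Y_e`: with `a = (t, k - n_q)`:
`rho (Y t k) e((w,p),q) = ch(xf v_q * dg1 t) (e((w ++ [a],p),q) + [w = w' ++ [barL a]] e((w',p),q)) = ch(..) emb q (R t (k - n_q) e(w,p))`.
Proof by matrix coefficients (`rho_coef`): the coefficient at `((w',p'),q')` is `[p' = p] (Y t k (e(ws w', q')))(ws w, q)`; by `Y_e_nil`, `Y_e_cons`
this is `[q' = q] ch(xf v_q * dg1 t) ([ws w = (t,k-n_q) :: ws w'] + [ws w' = (bar t,k-n_q) :: ws w])`; and `ws w = a :: ws w'` iff
`w = w' ++ [barL a]`, `ws w' = barL a :: ws w` iff `w' = w ++ [a]` (`ws_cons`, `ws_ws`, `ws_injective`).  Compare with `R_e_nil`, `R_e_concat`.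
`rho_Y_emb`, `slice_rho_Y`: extend linearly and continuously (`ext_e`).
-/

set_option autoImplicit false

open scoped ComplexConjugate InnerProductSpace Classical
open ContinuousLinearMap (adjoint)

namespace OE

/-- `g u` on the `Q` coordinate. -/
noncomputable def gQ (u : V) : H Q →L[ℂ] H Q := wp (fun q : Q => some (u + q.1, q.2)) (fun q => ch (bf u q.1))

/-- `Sg b` on the `Q` coordinate. -/
noncomputable def sQ (b : Bool) : H Q →L[ℂ] H Q :=
  wp (fun q : Q => some (q.1, (q.2.1 + bn b, sM b q.2.2))) (fun _ => 1)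

private theorem gQ_pinj (u : V) : PInj (fun q : Q => some ((u + q.1, q.2) : Q)) := by
  rintro ⟨v, n, m⟩ ⟨v', n', m'⟩ j h h'
  have h1 := h.trans h'.symm
  simp only [Option.some.injEq, Prod.mk.injEq, add_right_inj] at h1
  obtain ⟨h2, h3, h4⟩ := h1
  rw [h2, h3, h4]

private theorem sQ_pinj (b : Bool) : PInj (fun q : Q => some ((q.1, (q.2.1 + bn b, sM b q.2.2)) : Q)) := by
  rintro ⟨v, n, m⟩ ⟨v', n', m'⟩ j h h'
  have h1 := h.trans h'.symm
  simp only [Option.some.injEq, Prod.mk.injEq, add_left_inj] at h1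
  obtain ⟨h2, h3, h4⟩ := h1
  rw [h2, h3, ((sM_inj b b m m').1 h4).2]

theorem gQ_e (u v : V) (n : ℤ) (m : M) : gQ u (e (v, (n, m))) = ch (bf u v) • e (u + v, (n, m)) :=
  wp_e (C := 1) zero_le_one (gQ_pinj u) (fun _ => norm_ch_le _) (v, (n, m))

theorem sQ_e (b : Bool) (v : V) (n : ℤ) (m : M) : sQ b (e (v, (n, m))) = e (v, (n + bn b, sM b m)) := by
  unfold sQ
  rw [wp_e (C := 1) zero_le_one (sQ_pinj b) (fun _ => by simp), one_smul]
  rfl

theorem g_eq_ampR (u : V) : g u = ampR W (gQ u) := by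
  refine ext_idx fun w v n m => ?_
  rw [g_e, ampR_e, gQ_e, map_smul, embL_e]

theorem Sg_eq_ampR (b : Bool) : Sg b = ampR W (sQ b) := by
  refine ext_idx fun w v n m => ?_
  rw [Sg_e, ampR_e, sQ_e, embL_e]

theorem star_Sg_eq_ampR (b : Bool) : star (Sg b) = ampR W (star (sQ b)) := by
  rw [Sg_eq_ampR]
  exact (ampR_adj (I := W) (sQ b)).symm

private theorem smul_apply' {I : Type} (a : ℂ) (x : H I) (i : I) :
    ((a • x : H I) : I → ℂ) i = a * (x : I → ℂ) i := rfl

private theorem add_apply' {I : Type} (x y : H I) (i : I) :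
    ((x + y : H I) : I → ℂ) i = (x : I → ℂ) i + (y : I → ℂ) i := rfl

private theorem zero_apply' {I : Type} (i : I) : ((0 : H I) : I → ℂ) i = 0 := rfl

theorem trp_gQ_e (u v : V) (n : ℤ) (m : M) : trp (gQ u) (e (v, (n, m))) = ch (bf u (v - u)) • e (v - u, (n, m)) := by
  apply ext_pt
  rintro ⟨v', n', m'⟩
  rw [trp_coef, gQ_e, smul_apply', smul_apply', e_apply, e_apply]
  by_cases h : v' = v - u
  · subst h
    rw [add_sub_cancel]
    by_cases h2 : (n, m) = (n', m')
    · rw [if_pos (by rw [h2]), if_pos (by rw [h2])]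
    · rw [if_neg, if_neg]
      · intro h3
        exact h2 (Prod.mk.inj h3).2.symm
      · intro h3
        exact h2 (Prod.mk.inj h3).2
  · rw [if_neg, if_neg, mul_zero, mul_zero]
    · intro h3
      exact h (Prod.mk.inj h3).1
    · intro h3
      apply h
      rw [(Prod.mk.inj h3).1, add_sub_cancel_left]

theorem trp_sQ_e (b : Bool) (v : V) (n : ℤ) (m : M) :
    trp (sQ b) (e (v, (n, m))) = if hd m = b then e (v, (n - bn b, tl m)) else 0 := by
  apply ext_pt
  rintro ⟨v', n', m'⟩
  rw [trp_coef, sQ_e, e_apply]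
  by_cases hb : hd m = b
  · rw [if_pos hb, e_apply]
    by_cases h : (v', (n', m')) = (v, (n - bn b, tl m))
    · rw [if_pos h, if_pos]
      simp only [Prod.mk.injEq] at h
      obtain ⟨h1, h2, h3⟩ := h
      rw [h1, h2, h3, sub_add_cancel, ← hb, sM_hd_tl]
    · rw [if_neg h, if_neg]
      intro h'
      apply h
      simp only [Prod.mk.injEq] at h'
      obtain ⟨h1, h2, h3⟩ := h'
      rw [h1, h2, h3, add_sub_cancel_right, tl_sM]
  · rw [if_neg hb, zero_apply', if_neg]
    intro h'
    simp only [Prod.mk.injEq] at h'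
    obtain ⟨h1, h2, h3⟩ := h'
    apply hb
    rw [h3, hd_sM]

theorem trp_star_sQ_e (b : Bool) (v : V) (n : ℤ) (m : M) :
    trp (star (sQ b)) (e (v, (n, m))) = e (v, (n + bn b, sM b m)) := by
  apply ext_pt
  intro i
  rw [trp_coef, ContinuousLinearMap.star_eq_adjoint, adj_coef, sQ_e, e_apply]
  split_ifs <;> simp

theorem rho_ampR (y : H Q →L[ℂ] H Q) : rho (ampR W y) = ampR Idx (trp y) := by
  refine ext_coef fun x z => ?_
  obtain ⟨⟨w, p⟩, q⟩ := x
  obtain ⟨⟨w', p'⟩, q'⟩ := z
  rw [rho_coef, ampR_e, ampR_e, embL_apply, embL_apply, trp_coef]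
  by_cases hp : p' = p
  · rw [if_pos hp]
    by_cases hw : w' = w
    · subst hw
      subst hp
      rw [if_pos rfl, if_pos rfl]
    · rw [if_neg (fun h => hw (ws_injective h).symm), if_neg (fun h => hw (Prod.mk.inj h).1)]
  · rw [if_neg hp, if_neg (fun h => hp (Prod.mk.inj h).2)]

private theorem Y_coef (t : T) (k : ℤ) (w : W) (v : V) (n : ℤ) (m : M) (w1 : W) (q : Q) :
    (Y t k (e (w, (v, (n, m)))) : Idx → ℂ) (w1, q) = if q = (v, (n, m)) then
      ch (xf v * dg1 t) * ((if w1 = (t, k - n) :: w then 1 else 0) +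
        (if w = (bar t, k - n) :: w1 then 1 else 0)) else 0 := by
  cases w with
  | nil =>
    rw [Y_e_nil, smul_apply', e_apply]
    by_cases hq : q = (v, (n, m))
    · subst hq
      rw [if_pos rfl]
      by_cases h : w1 = [(t, k - n)]
      · rw [if_pos (by rw [h]), if_pos h, if_neg (by simp), add_zero]
      · rw [if_neg (fun h' => h (Prod.mk.inj h').1), if_neg h, if_neg (by simp), add_zero]
    · rw [if_neg hq, if_neg (fun h' => hq (Prod.mk.inj h').2), mul_zero]
  | cons a w =>
    rw [Y_e_cons, add_apply', smul_apply', e_apply]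
    have h2 : ((if a = (bar t, k - n) then ch (xf v * dg1 t) • e (w, (v, (n, m))) else 0 : H Idx) :
        Idx → ℂ) (w1, q) = if q = (v, (n, m)) then ch (xf v * dg1 t) *
          (if a :: w = (bar t, k - n) :: w1 then 1 else 0) else 0 := by
      by_cases ha : a = (bar t, k - n)
      · rw [if_pos ha, smul_apply', e_apply]
        by_cases hq : q = (v, (n, m))
        · subst hq
          rw [if_pos rfl]
          by_cases h : w1 = w
          · rw [if_pos (by rw [h]), if_pos (by rw [h, ha])]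
          · rw [if_neg (fun h' => h (Prod.mk.inj h').1), if_neg (fun h' => h (List.cons.inj h').2.symm)]
        · rw [if_neg hq, if_neg (fun h' => hq (Prod.mk.inj h').2), mul_zero]
      · rw [if_neg ha, zero_apply', if_neg (fun h' => ha (List.cons.inj h').1), mul_zero, ite_self]
    rw [h2]
    by_cases hq : q = (v, (n, m))
    · subst hq
      rw [if_pos rfl, if_pos rfl, mul_add]
      congr 1
      by_cases h : w1 = (t, k - n) :: a :: w
      · rw [if_pos (by rw [h]), if_pos h]
      · rw [if_neg (fun h' => h (Prod.mk.inj h').1), if_neg h]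
    · rw [if_neg hq, if_neg hq, if_neg (fun h' => hq (Prod.mk.inj h').2), mul_zero, add_zero]

private theorem R_coef (t : T) (k : ℤ) (w : W) (p : Q) (w1 : W) (q : Q) :
    (R t k (e (w, p)) : Idx → ℂ) (w1, q) = if q = p then
      ((if w1 = w ++ [(t, k)] then 1 else 0) + (if w = w1 ++ [(bar t, k)] then 1 else 0)) else 0 := by
  obtain ⟨v, n, m⟩ := p
  rcases List.eq_nil_or_concat w with rfl | ⟨w, a, rfl⟩
  · rw [R_e_nil, e_apply]
    by_cases hq : q = (v, (n, m))
    · subst hq
      rw [if_pos rfl]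
      by_cases h : w1 = [(t, k)]
      · rw [if_pos (by rw [h]), if_pos (by rw [h]; rfl), if_neg (by simp), add_zero]
      · rw [if_neg (fun h' => h (Prod.mk.inj h').1), if_neg (show ¬ w1 = [] ++ [(t, k)] from h),
          if_neg (by simp), add_zero]
    · rw [if_neg hq, if_neg (fun h' => hq (Prod.mk.inj h').2)]
  · rw [List.concat_eq_append, R_e_concat, add_apply', e_apply]
    have h2 : ((if a = (bar t, k) then e (w, (v, (n, m))) else 0 : H Idx) :
        Idx → ℂ) (w1, q) = if q = (v, (n, m)) then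
          (if w ++ [a] = w1 ++ [(bar t, k)] then 1 else 0) else 0 := by
      by_cases ha : a = (bar t, k)
      · rw [if_pos ha, e_apply]
        by_cases hq : q = (v, (n, m))
        · subst hq
          rw [if_pos rfl]
          by_cases h : w1 = w
          · rw [if_pos (by rw [h]), if_pos (by rw [h, ha])]
          · have h3 : ¬ w ++ [a] = w1 ++ [(bar t, k)] := fun h' => h (List.append_inj' h' rfl).1.symm
            rw [if_neg (fun h' => h (Prod.mk.inj h').1), if_neg h3]
        · rw [if_neg hq, if_neg (fun h' => hq (Prod.mk.inj h').2)]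
      · have h4 : ¬ w ++ [a] = w1 ++ [(bar t, k)] := by
          intro h'
          have h3 := (List.append_inj' h' rfl).2
          simp only [List.cons.injEq, and_true] at h3
          exact ha h3
        rw [if_neg ha, zero_apply', if_neg h4, ite_self]
    rw [h2]
    by_cases hq : q = (v, (n, m))
    · subst hq
      rw [if_pos rfl, if_pos rfl]
      congr 1
      by_cases h : w1 = w ++ [a] ++ [(t, k)]
      · rw [if_pos (by rw [h]), if_pos h]
      · rw [if_neg (fun h' => h (Prod.mk.inj h').1), if_neg h]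
    · rw [if_neg hq, if_neg hq, if_neg (fun h' => hq (Prod.mk.inj h').2), add_zero]

private theorem ws_iff (w w' : W) (a : Lam) : ws w = a :: ws w' ↔ w = w' ++ [barL a] := by
  constructor
  · intro h
    have h1 := congrArg ws h
    rw [ws_ws, ws_cons, ws_ws] at h1
    exact h1
  · intro h
    rw [h, ws_append]
    have h2 : ws [barL a] = [a] := by
      rw [ws_cons, ws_nil, barL_barL]
      rfl
    rw [h2]
    rfl

theorem rho_Y_e (t : T) (k : ℤ) (w : W) (p : Q) (v : V) (n : ℤ) (m : M) :
    rho (Y t k) (e ((w, p), (v, (n, m)))) =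
      ch (xf v * dg1 t) • emb (v, (n, m)) (R t (k - n) (e (w, p))) := by
  apply ext_pt
  rintro ⟨⟨w', p'⟩, ⟨v', n', m'⟩⟩
  rw [rho_coef, Y_coef, smul_apply', emb_apply]
  by_cases hq : (v', (n', m')) = (v, (n, m))
  · simp only [Prod.mk.injEq] at hq
    obtain ⟨rfl, rfl, rfl⟩ := hq
    rw [if_pos rfl, if_pos rfl, R_coef]
    by_cases hp : p' = p
    · rw [if_pos hp, if_pos hp]
      have e1 : (ws w = (t, k - n') :: ws w') ↔ (w = w' ++ [(bar t, k - n')]) := ws_iff w w' (t, k - n')
      have e2 : (ws w' = (bar t, k - n') :: ws w) ↔ (w' = w ++ [(t, k - n')]) := by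
        have h := ws_iff w' w (bar t, k - n')
        have h2 : barL (bar t, k - n') = (t, k - n') := by
          show (bar (bar t), k - n') = _
          rw [bar_bar]
        rw [h2] at h
        exact h
      rw [if_congr e1 rfl rfl, if_congr e2 rfl rfl, add_comm]
    · rw [if_neg hp, if_neg hp, mul_zero]
  · have hq' : ¬ (v, (n, m)) = (v', (n', m')) := fun h => hq h.symm
    rw [if_neg hq', if_neg hq, ite_self, mul_zero]

theorem rho_Y_emb (t : T) (k : ℤ) (v : V) (n : ℤ) (m : M) (x : H Idx) :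
    rho (Y t k) (emb (v, (n, m)) x) = ch (xf v * dg1 t) • emb (v, (n, m)) (R t (k - n) x) := by
  have h : (rho (Y t k)).comp (emb (v, (n, m))) =
      ch (xf v * dg1 t) • (emb (v, (n, m))).comp (R t (k - n)) := by
    refine ext_e fun i => ?_
    obtain ⟨w, p⟩ := i
    show rho (Y t k) (emb (v, (n, m)) (e (w, p))) = ch (xf v * dg1 t) • emb (v, (n, m)) (R t (k - n) (e (w, p)))
    rw [emb_e, rho_Y_e]
  exact DFunLike.congr_fun h x

end OE
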