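import Mathlib
import Pool.Agent.Work.MP_06ef15_an.O6
import Pool.Agent.Work.MP_06ef15_an.ZX

/-!
# The operator `ZZ = Z ⊗ 1_Q` and the defect `DD b = ZZ ρ(b) - (1 ⊗ ρ(b)) ZZ`

`ZZ_emb`: `amp_emb`.  `norm_ZZ`: `norm_assoc` and, slice by slice (`hasSum_slice`, `slice_amp`), `norm_Zop`.
`ZZ_lamb`: by `assoc_amp_amp` the difference is `assoc ∘ amp Q (Z a - (amp Idx a) Z)`; `norm_assoc`, `norm_amp_le`.
`assoc_ampR`: basis vectors: both sides map `e((i,j),q)` to `embL i (embL j (y (e q)))`.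
`ZZ_ampR`: `amp_ampR_comm` with `a = Z`, then `assoc_ampR`.
`DD_mul`: `rho_mul`, `ampR_mul`.  `norm_DD_sub_le`: `‖ZZ‖ ≤ 1`, `norm_rho`, `norm_ampR_le`.
`DD_ampR`: `rho_ampR`, `ZZ_ampR`.
-/

set_option autoImplicit false

open scoped ComplexConjugate InnerProductSpace Classical
open ContinuousLinearMap (adjoint)

namespace OE

/-- `Z ⊗ 1_Q`. -/
noncomputable def ZZ (k L : ℕ) (f : W → ℤ → ℕ → ℝ) : HH →L[ℂ] H (Idx × (Idx × Q)) :=
  (assoc Idx Idx Q).comp (amp Q (Zop k L f))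

theorem ZZ_emb (k L : ℕ) (f : W → ℤ → ℕ → ℝ) (q : Q) (x : H Idx) :
    ZZ k L f (emb q x) = assoc Idx Idx Q (emb q (Zop k L f x)) := by
  show assoc Idx Idx Q (amp Q (Zop k L f) (emb q x)) = _
  rw [amp_emb]

private theorem adj_ZZ_comp {k L : ℕ} {f : W → ℤ → ℕ → ℝ} (hL : 0 < L) (hf : IsWeight f) (x : HH) :
    adjoint (ZZ k L f) (ZZ k L f x) = x := by
  have h1 : adjoint (ZZ k L f) (ZZ k L f x) = adjoint (amp Q (Zop k L f))
      (((adjoint (assoc Idx Idx Q)).comp (assoc Idx Idx Q)) (amp Q (Zop k L f) x)) := by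
    unfold ZZ
    rw [ContinuousLinearMap.adjoint_comp]
    rfl
  rw [h1, assoc_adj_comp]
  have h2 : adjoint (amp Q (Zop k L f)) (amp Q (Zop k L f) x) = amp Q ((adjoint (Zop k L f)).comp (Zop k L f)) x := by
    rw [amp_comp, amp_adj]
    rfl
  show adjoint (amp Q (Zop k L f)) (amp Q (Zop k L f) x) = x
  rw [h2, adj_Zop_comp hL hf, amp_one]
  rfl

private theorem inner_ZZ' {k L : ℕ} {f : W → ℤ → ℕ → ℝ} (hL : 0 < L) (hf : IsWeight f) (x y : HH) :
    ⟪ZZ k L f x, ZZ k L f y⟫_ℂ = ⟪x, y⟫_ℂ := by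
  rw [← ContinuousLinearMap.adjoint_inner_right, adj_ZZ_comp hL hf]

theorem norm_ZZ {k L : ℕ} {f : W → ℤ → ℕ → ℝ} (hL : 0 < L) (hf : IsWeight f) (x : HH) : ‖ZZ k L f x‖ = ‖x‖ :=
  norm_isometry_of_ortho (ZZ k L f) (fun i j => by rw [inner_ZZ' hL hf, inner_e_e]) x

theorem norm_ZZ_le {k L : ℕ} {f : W → ℤ → ℕ → ℝ} (hL : 0 < L) (hf : IsWeight f) : ‖ZZ k L f‖ ≤ 1 :=
  ContinuousLinearMap.opNorm_le_bound _ zero_le_one fun x => by rw [norm_ZZ hL hf, one_mul]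

theorem inner_ZZ {k L : ℕ} {f : W → ℤ → ℕ → ℝ} (hL : 0 < L) (hf : IsWeight f) (x y : HH) :
    ⟪ZZ k L f x, ZZ k L f y⟫_ℂ = ⟪x, y⟫_ℂ := inner_ZZ' hL hf x y

private theorem norm_assoc_comp_le {I : Type} (S : H I →L[ℂ] H ((Idx × Idx) × Q)) :
    ‖(assoc Idx Idx Q).comp S‖ ≤ ‖S‖ :=
  ContinuousLinearMap.opNorm_le_bound _ (norm_nonneg _) fun x => by
    show ‖assoc Idx Idx Q (S x)‖ ≤ _
    rw [norm_assoc]
    exact S.le_opNorm x

theorem ZZ_lamb (k L : ℕ) (f : W → ℤ → ℕ → ℝ) (a : BH) :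
    ‖(ZZ k L f).comp (lamb a) - (amp (Idx × Q) a).comp (ZZ k L f)‖ ≤
      ‖(Zop k L f).comp a - (amp Idx a).comp (Zop k L f)‖ := by
  have h1 : (ZZ k L f).comp (lamb a) - (amp (Idx × Q) a).comp (ZZ k L f) =
      (assoc Idx Idx Q).comp (amp Q ((Zop k L f).comp a - (amp Idx a).comp (Zop k L f))) := by
    have e1 : (ZZ k L f).comp (lamb a) = (assoc Idx Idx Q).comp (amp Q ((Zop k L f).comp a)) := by
      rw [amp_comp]
      rfl
    have e2 : (amp (Idx × Q) a).comp (ZZ k L f) =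
        (assoc Idx Idx Q).comp (amp Q ((amp Idx a).comp (Zop k L f))) := by
      rw [amp_comp, ← ContinuousLinearMap.comp_assoc, assoc_amp_amp]
      rfl
    rw [e1, e2, amp_sub, ContinuousLinearMap.comp_sub]
  rw [h1]
  exact (norm_assoc_comp_le _).trans (norm_amp_le _)

private theorem assoc_embL_pair (i j : Idx) (z : H Q) :
    assoc Idx Idx Q (embL (i, j) z) = embL i (embL j z) := by
  have h : (assoc Idx Idx Q).comp (embL (i, j)) = (embL i).comp (embL j : H Q →L[ℂ] H (Idx × Q)) := by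
    refine ext_e fun q => ?_
    rw [ContinuousLinearMap.comp_apply, ContinuousLinearMap.comp_apply, embL_e, embL_e, embL_e, assoc_e]
  exact congrArg (fun T : H Q →L[ℂ] H (Idx × (Idx × Q)) => T z) h

theorem assoc_ampR (y : H Q →L[ℂ] H Q) :
    (assoc Idx Idx Q).comp (ampR (Idx × Idx) y) = (ampR Idx (ampR Idx y)).comp (assoc Idx Idx Q) := by
  refine ext_e fun p => ?_
  obtain ⟨⟨i, j⟩, q⟩ := p
  rw [ContinuousLinearMap.comp_apply, ContinuousLinearMap.comp_apply, assoc_e, ampR_e, ampR_e, ampR_e]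
  exact assoc_embL_pair i j _

theorem ZZ_ampR (k L : ℕ) (f : W → ℤ → ℕ → ℝ) (y : H Q →L[ℂ] H Q) :
    (ZZ k L f).comp (ampR Idx y) = (ampR Idx (ampR Idx y)).comp (ZZ k L f) := by
  unfold ZZ
  rw [ContinuousLinearMap.comp_assoc, amp_ampR_comm, ← ContinuousLinearMap.comp_assoc, assoc_ampR,
    ContinuousLinearMap.comp_assoc]

/-- `assoc (x ⊗ e q)` for `x = e i ⊗ z`. -/
theorem assoc_emb_embL (i : Idx) (q : Q) (z : H Idx) :
    assoc Idx Idx Q (emb q (embL i z)) = embL i (emb q z) := by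
  have h : (assoc Idx Idx Q).comp ((emb q).comp (embL i : H Idx →L[ℂ] H (Idx × Idx))) =
      (embL i).comp (emb q : H Idx →L[ℂ] H (Idx × Q)) := by
    refine ext_e fun j => ?_
    rw [ContinuousLinearMap.comp_apply, ContinuousLinearMap.comp_apply, ContinuousLinearMap.comp_apply, embL_e,
      emb_e, emb_e, embL_e, assoc_e]
  exact congrArg (fun T : H Idx →L[ℂ] H (Idx × (Idx × Q)) => T z) h

/-- the defect. -/
noncomputable def DD (k L : ℕ) (f : W → ℤ → ℕ → ℝ) (b : BH) : HH →L[ℂ] H (Idx × (Idx × Q)) :=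
  (ZZ k L f).comp (rho b) - (ampR Idx (rho b)).comp (ZZ k L f)

theorem DD_one (k L : ℕ) (f : W → ℤ → ℕ → ℝ) : DD k L f 1 = 0 := by
  unfold DD
  rw [rho_one, ampR_one, ContinuousLinearMap.one_def, ContinuousLinearMap.one_def, ContinuousLinearMap.comp_id,
    ContinuousLinearMap.id_comp, sub_self]

theorem DD_add (k L : ℕ) (f : W → ℤ → ℕ → ℝ) (a b : BH) : DD k L f (a + b) = DD k L f a + DD k L f b := by
  unfold DD
  rw [rho_add, ampR_add, ContinuousLinearMap.comp_add, ContinuousLinearMap.add_comp]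
  abel

theorem DD_smul (k L : ℕ) (f : W → ℤ → ℕ → ℝ) (c : ℂ) (a : BH) : DD k L f (c • a) = c • DD k L f a := by
  unfold DD
  rw [rho_smul, ampR_smul, ContinuousLinearMap.comp_smul, ContinuousLinearMap.smul_comp, smul_sub]

theorem DD_mul (k L : ℕ) (f : W → ℤ → ℕ → ℝ) (a b : BH) :
    DD k L f (a * b) = (DD k L f b).comp (rho a) + (ampR Idx (rho b)).comp (DD k L f a) := by
  unfold DD
  rw [rho_mul, ampR_mul, ContinuousLinearMap.sub_comp, ContinuousLinearMap.comp_sub]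
  show (ZZ k L f).comp ((rho b).comp (rho a)) - ((ampR Idx (rho b)).comp (ampR Idx (rho a))).comp (ZZ k L f) = _
  simp only [ContinuousLinearMap.comp_assoc]
  abel

theorem norm_DD_le {k L : ℕ} {f : W → ℤ → ℕ → ℝ} (hL : 0 < L) (hf : IsWeight f) (a : BH) :
    ‖DD k L f a‖ ≤ 2 * ‖a‖ := by
  unfold DD
  have h0 := norm_ZZ_le (k := k) hL hf
  have h1 : ‖(ZZ k L f).comp (rho a)‖ ≤ ‖a‖ := by
    refine (ContinuousLinearMap.opNorm_comp_le _ _).trans ?_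
    rw [norm_rho]
    exact (mul_le_mul_of_nonneg_right h0 (norm_nonneg _)).trans (one_mul _).le
  have h2 : ‖(ampR Idx (rho a)).comp (ZZ k L f)‖ ≤ ‖a‖ := by
    refine (ContinuousLinearMap.opNorm_comp_le _ _).trans ?_
    have h3 : ‖ampR Idx (rho a)‖ ≤ ‖a‖ := (norm_ampR_le _).trans (norm_rho a).le
    exact (mul_le_mul h3 h0 (norm_nonneg _) (norm_nonneg _)).trans (mul_one _).le
  exact (norm_sub_le _ _).trans (by linarith)

theorem norm_DD_sub_le {k L : ℕ} {f : W → ℤ → ℕ → ℝ} (hL : 0 < L) (hf : IsWeight f) (a b : BH) :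
    ‖DD k L f a - DD k L f b‖ ≤ 2 * ‖a - b‖ := by
  have h : DD k L f a - DD k L f b = DD k L f (a - b) := by
    have h1 := DD_add k L f (a - b) b
    rw [sub_add_cancel] at h1
    rw [h1, add_sub_cancel_right]
  rw [h]
  exact norm_DD_le hL hf _

private theorem DD_ampR (k L : ℕ) (f : W → ℤ → ℕ → ℝ) (y : H Q →L[ℂ] H Q) : DD k L f (ampR W y) = 0 := by
  unfold DD
  rw [rho_ampR, ZZ_ampR, sub_self]

theorem DD_g (k L : ℕ) (f : W → ℤ → ℕ → ℝ) (u : V) : DD k L f (g u) = 0 := by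
  rw [g_eq_ampR, DD_ampR]

theorem DD_Sg (k L : ℕ) (f : W → ℤ → ℕ → ℝ) (b : Bool) : DD k L f (Sg b) = 0 := by
  rw [Sg_eq_ampR, DD_ampR]

theorem DD_star_Sg (k L : ℕ) (f : W → ℤ → ℕ → ℝ) (b : Bool) : DD k L f (star (Sg b)) = 0 := by
  rw [star_Sg_eq_ampR, DD_ampR]

end OE
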