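import Mathlib
import Pool.Agent.Work.MP_06ef15_an.O8
import Pool.Agent.Work.MP_06ef15_an.O9

/-!
# (9.4) for the generators `Y t k`: the defect vanishes outside `E_K`

`ampR_rho_Y`: with `q = (v,(n,m))`, for `z ∈ ℓ²(Idx × Idx)`:
`(1 ⊗ ρ(Y t k)) (assoc (z ⊗ e q)) = ch(xf v * dg1 t) • assoc ((1 ⊗ R t (k-n)) z ⊗ e q)`.
By linearity and continuity (`ext_e` for the two operators `z ↦ ...`) take `z = e(i,j)`: `assoc (emb q (e(i,j))) = e(i,(j,q))` (`emb_e`, `assoc_e`),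
`ampR Idx (rho (Y t k)) (e (i,(j,q))) = embL i (rho (Y t k) (e (j,q)))` (`ampR_e`), `e (j,q) = emb q (e j)`, `rho_Y_emb`; on the right
`ampR Idx (R t (k-n)) (e (i,j)) = embL i (R t (k-n) (e j))` and `assoc_emb_embL`.

`DD_Y`: `ext_e`; basis vector `e((w,(v,(n,m))),(v',(n',m')))`.  If it is in `E_K`, `pr (EK K)ᶜ` kills it.  If not: by `rho_Y_emb`, `ZZ_emb`, `ampR_rho_Y`
`DD (Y t k) (emb q (e x)) = ch(..) • assoc (emb q (Z (R t (k-n') (e x)) - (1 ⊗ R t (k-n')) (Z (e x)))) = 0` by `Zop_R` with `l = k - n'`; its hypothesis is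
the contrapositive of `mem_EK_of_win`.
-/

set_option autoImplicit false

open scoped ComplexConjugate InnerProductSpace Classical
open ContinuousLinearMap (adjoint)

namespace OE

theorem ampR_rho_Y (t : T) (k : ℤ) (v : V) (n : ℤ) (m : M) (z : H (Idx × Idx)) :
    ampR Idx (rho (Y t k)) (assoc Idx Idx Q (emb (v, (n, m)) z)) =
      ch (xf v * dg1 t) • assoc Idx Idx Q (emb (v, (n, m)) (ampR Idx (R t (k - n)) z)) := by
  have h : (ampR Idx (rho (Y t k))).comp ((assoc Idx Idx Q).comp (emb (v, (n, m)))) =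
      ch (xf v * dg1 t) • (assoc Idx Idx Q).comp ((emb (v, (n, m))).comp (ampR Idx (R t (k - n)))) := by
    refine ext_e fun x => ?_
    obtain ⟨i, j⟩ := x
    show ampR Idx (rho (Y t k)) (assoc Idx Idx Q (emb (v, (n, m)) (e (i, j)))) =
      ch (xf v * dg1 t) • assoc Idx Idx Q (emb (v, (n, m)) (ampR Idx (R t (k - n)) (e (i, j))))
    rw [emb_e, assoc_e, ampR_e, ampR_e]
    dsimp only
    rw [assoc_emb_embL, ← emb_e, rho_Y_emb, map_smul]
  exact DFunLike.congr_fun h z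

theorem DD_Y {kk L K0 M0 K : ℕ} (hL : 0 < L) (hM0 : 0 < M0) (t : T) (k : ℤ) (hK : (K0 : ℤ) + L + M0 + |k| ≤ K) :
    (DD kk L (fw K0 M0) (Y t k)).comp (pr (EK K)ᶜ) = 0 := by
  refine ext_e fun x => ?_
  rw [ContinuousLinearMap.comp_apply, zero_apply]
  by_cases hx : x ∈ EK K
  · rw [pr_e_notMem (fun h : x ∈ (EK K)ᶜ => h hx), map_zero]
  · rw [pr_e_mem hx]
    obtain ⟨⟨w, v, n, m⟩, ⟨v', n', m'⟩⟩ := x
    have h1 : Zop kk L (fw K0 M0) (R t (k - n') (e (w, (v, (n, m))))) =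
        ampR Idx (R t (k - n')) (Zop kk L (fw K0 M0) (e (w, (v, (n, m))))) :=
      Zop_R hL hM0 t (k - n') w v n m fun j1 hj1 h => hx (mem_EK_of_win hj1 h.1 h.2.1 h.2.2 hK)
    show ZZ kk L (fw K0 M0) (rho (Y t k) (e ((w, (v, (n, m))), (v', (n', m'))))) -
      ampR Idx (rho (Y t k)) (ZZ kk L (fw K0 M0) (e ((w, (v, (n, m))), (v', (n', m'))))) = 0
    rw [← emb_e, rho_Y_emb, map_smul, ZZ_emb, ZZ_emb, ampR_rho_Y, h1, sub_self]

end OE
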