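import Mathlib
import Pool.Agent.Work.MP_06ef15_an.O6
import Pool.Agent.Work.MP_06ef15_an.O7

/-!
# `P_K ρ(b) (1 - P_{K'}) = 0` for the generators

On basis vectors `e((w,(v,(n,m))),(v',(n',m')))`, see `rho_Y_e`, `rho_ampR` with `trp_gQ_e`, `trp_sQ_e`, `trp_star_sQ_e`.

`cut_Y`: `K'` with `K + 1 + |k| ≤ K'` and larger than the index of `t` if `t = inl i` (`i < K'`).  If `ρ(Y t k) e(x)` has a non-zero
coefficient in `E_K` then `x ∈ E_{K'}`: the image is `e((w ++ [(t,k-n')],p),q)` (then `|w| ≤ K` and all letters of `w` are in the window: `x ∈ E_K`) or, for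
`w = w' ++ [(bar t,k-n')]`, `e((w',p),q)` (then `|n - n'| ≤ K`, `|w| ≤ K + 1`, and the last letter is in the window `K'`: `|k - n' + n| ≤ |k| + K`).
`cut_g`: `ρ(g u)` changes only `v'`.  `cut_Sg`, `cut_star_Sg`: `n'` changes by at most one: `K' = K + 1`.
-/

set_option autoImplicit false

open scoped ComplexConjugate InnerProductSpace Classical
open ContinuousLinearMap (adjoint)

namespace OE

private theorem o11_win_mono {K K' : ℕ} (h : K ≤ K') {q : ℤ} {a : Lam} (ha : win K q a) : win K' q a := by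
  obtain ⟨⟨t⟩ | ⟨t⟩, l⟩ := a
  · exact ⟨lt_of_lt_of_le ha.1 h, ha.2.trans (by exact_mod_cast h)⟩
  · exact ⟨trivial, ha.2.trans (by exact_mod_cast h)⟩

private theorem o11_EK_mono {K K' : ℕ} (h : K ≤ K') : EK K ⊆ EK K' := by
  rintro x ⟨h1, h2, h3⟩
  exact ⟨h1.trans (by exact_mod_cast h), h2.trans h, fun a ha => o11_win_mono h (h3 a ha)⟩

private theorem mem_EK {K : ℕ} {w : W} {v : V} {n : ℤ} {m : M} {v' : V} {n' : ℤ} {m' : M} :
    (((w, (v, (n, m))), (v', (n', m'))) : Idx × Q) ∈ EK K ↔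
      |n - n'| ≤ (K : ℤ) ∧ w.length ≤ K ∧ ∀ a ∈ w, win K n a := Iff.rfl

private theorem cut_of {T : HH →L[ℂ] HH} {s t : Set (Idx × Q)}
    (h : ∀ (w : W) (v : V) (n : ℤ) (m : M) (v' : V) (n' : ℤ) (m' : M),
      (((w, (v, (n, m))), (v', (n', m'))) : Idx × Q) ∉ t →
      pr s (T (e (((w, (v, (n, m))), (v', (n', m'))) : Idx × Q))) = 0) : pr s * T * pr tᶜ = 0 := by
  refine ext_e ?_
  rintro ⟨⟨w, v, n, m⟩, v', n', m'⟩
  show pr s (T (pr tᶜ (e _))) = 0
  rw [pr_e]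
  by_cases hx : (((w, (v, (n, m))), (v', (n', m'))) : Idx × Q) ∈ t
  · rw [if_neg (fun h2 => h2 hx), map_zero, map_zero]
  · rw [if_pos (show (((w, (v, (n, m))), (v', (n', m'))) : Idx × Q) ∈ tᶜ from hx)]
    exact h w v n m v' n' m' hx

private theorem EK_append_left {K : ℕ} {w w2 : W} {v : V} {n : ℤ} {m : M} {v' : V} {n' : ℤ} {m' : M}
    (h : (((w ++ w2, (v, (n, m))), (v', (n', m'))) : Idx × Q) ∈ EK K) :
    (((w, (v, (n, m))), (v', (n', m'))) : Idx × Q) ∈ EK K := by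
  rw [mem_EK] at h ⊢
  obtain ⟨h1, h2, h3⟩ := h
  refine ⟨h1, ?_, fun a ha => h3 a (List.mem_append_left _ ha)⟩
  rw [List.length_append] at h2
  omega

private theorem EK_append_right {K K' : ℕ} {w : W} {v : V} {n : ℤ} {m : M} {v' : V} {n' : ℤ} {m' : M}
    {t : T} {k : ℤ} (hK : K + 1 + k.natAbs ≤ K') (ht : ∀ i, t = Sum.inl i → i < K')
    (h : (((w, (v, (n, m))), (v', (n', m'))) : Idx × Q) ∈ EK K) :
    (((w ++ [(bar t, k - n')], (v, (n, m))), (v', (n', m'))) : Idx × Q) ∈ EK K' := by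
  rw [mem_EK] at h ⊢
  obtain ⟨h1, h2, h3⟩ := h
  refine ⟨?_, ?_, fun a ha => ?_⟩
  · refine h1.trans ?_
    push_cast
    omega
  · rw [List.length_append, List.length_singleton]
    omega
  · rw [List.mem_append, List.mem_singleton] at ha
    rcases ha with ha | ha
    · exact o11_win_mono (by omega) (h3 a ha)
    · subst ha
      have h4 : |k - n' + n| ≤ (K' : ℤ) := by
        rw [abs_le] at h1 ⊢
        omega
      rcases t with i | b
      · exact ⟨ht i rfl, h4⟩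
      · exact ⟨trivial, h4⟩

theorem cut_Y (t : T) (k : ℤ) (K : ℕ) : ∃ K' : ℕ, pr (EK K) * rho (Y t k) * pr (EK K')ᶜ = 0 := by
  obtain ⟨K0, hK0⟩ : ∃ K0 : ℕ, ∀ i, t = Sum.inl i → i < K0 := by
    rcases t with i | b
    · refine ⟨i + 1, fun j hj => ?_⟩
      rw [Sum.inl.injEq] at hj
      omega
    · exact ⟨0, fun j hj => absurd hj (by simp)⟩
  refine ⟨K + 1 + k.natAbs + K0, cut_of fun w v n m v' n' m' hx => ?_⟩
  have hKK : K + 1 + k.natAbs ≤ K + 1 + k.natAbs + K0 := Nat.le_add_right _ _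
  have ht : ∀ i, t = Sum.inl i → i < K + 1 + k.natAbs + K0 := fun i hi =>
    lt_of_lt_of_le (hK0 i hi) (Nat.le_add_left _ _)
  rw [rho_Y_e, map_smul]
  rcases List.eq_nil_or_concat w with rfl | ⟨w, a, rfl⟩
  · rw [R_e_nil, emb_e, pr_e_notMem, smul_zero]
    intro h
    refine hx (o11_EK_mono (by omega) (EK_append_left (w := []) (w2 := [(t, k - n')]) h))
  · rw [List.concat_eq_append] at hx ⊢
    rw [R_e_concat, map_add, map_add, emb_e, pr_e_notMem, zero_add]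
    · by_cases ha : a = (bar t, k - n')
      · rw [if_pos ha, emb_e, pr_e_notMem, smul_zero]
        intro h
        subst ha
        exact hx (EK_append_right hKK ht h)
      · rw [if_neg ha, map_zero, map_zero, smul_zero]
    · intro h
      exact hx (o11_EK_mono (by omega) (EK_append_left h))

private theorem rhoR_e (y : H Q →L[ℂ] H Q) (x : Idx) (q : Q) :
    rho (ampR W y) (e ((x, q) : Idx × Q)) = embL x (trp y (e q)) := by
  rw [rho_ampR, ampR_e]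

theorem cut_g (u : V) (K : ℕ) : ∃ K' : ℕ, pr (EK K) * rho (g u) * pr (EK K')ᶜ = 0 := by
  refine ⟨K, cut_of fun w v n m v' n' m' hx => ?_⟩
  rw [g_eq_ampR, rhoR_e, trp_gQ_e, map_smul, map_smul, embL_e, pr_e_notMem, smul_zero]
  exact hx

theorem cut_Sg (b : Bool) (K : ℕ) : ∃ K' : ℕ, pr (EK K) * rho (Sg b) * pr (EK K')ᶜ = 0 := by
  refine ⟨K + 1, cut_of fun w v n m v' n' m' hx => ?_⟩
  rw [Sg_eq_ampR, rhoR_e, trp_sQ_e]
  split_ifs with h
  · rw [embL_e, pr_e_notMem]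
    intro h2
    apply hx
    rw [mem_EK] at h2 ⊢
    obtain ⟨h3, h4, h5⟩ := h2
    refine ⟨?_, by omega, fun a ha => o11_win_mono (by omega) (h5 a ha)⟩
    rw [abs_le] at h3 ⊢
    have hb : bn b = 0 ∨ bn b = 1 := by cases b <;> simp [bn]
    push_cast
    omega
  · rw [map_zero, map_zero]

theorem cut_star_Sg (b : Bool) (K : ℕ) : ∃ K' : ℕ, pr (EK K) * rho (star (Sg b)) * pr (EK K')ᶜ = 0 := by
  refine ⟨K + 1, cut_of fun w v n m v' n' m' hx => ?_⟩
  rw [star_Sg_eq_ampR, rhoR_e, trp_star_sQ_e, embL_e, pr_e_notMem]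
  intro h2
  apply hx
  rw [mem_EK] at h2 ⊢
  obtain ⟨h3, h4, h5⟩ := h2
  refine ⟨?_, by omega, fun a ha => o11_win_mono (by omega) (h5 a ha)⟩
  rw [abs_le] at h3 ⊢
  have hb : bn b = 0 ∨ bn b = 1 := by cases b <;> simp [bn]
  push_cast
  omega

/-- monotonicity in the cut. -/
theorem norm_comp_compl_mono {F : Type*} [NormedAddCommGroup F] [NormedSpace ℂ F] (S : HH →L[ℂ] F) {K K' : ℕ}
    (h : K ≤ K') : ‖S.comp (pr (EK K')ᶜ)‖ ≤ ‖S.comp (pr (EK K)ᶜ)‖ := by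
  have h1 : pr (EK K')ᶜ = pr (EK K)ᶜ * pr (EK K')ᶜ := by
    rw [pr_mul_pr]
    congr 1
    exact (Set.inter_eq_right.2 (Set.compl_subset_compl.2 (o11_EK_mono h))).symm
  have h2 : S.comp (pr (EK K')ᶜ) = (S.comp (pr (EK K)ᶜ)).comp (pr (EK K')ᶜ) := by
    conv_lhs => rw [h1]
    rfl
  rw [h2]
  calc _ ≤ ‖S.comp (pr (EK K)ᶜ)‖ * ‖pr (EK K')ᶜ‖ := ContinuousLinearMap.opNorm_comp_le _ _
    _ ≤ ‖S.comp (pr (EK K)ᶜ)‖ * 1 := mul_le_mul_of_nonneg_left (norm_pr_le _) (norm_nonneg _)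
    _ = _ := mul_one _

end OE
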