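import Mathlib
import Pool.Agent.Work.MP_06ef15_an.O10
import Pool.Agent.Work.MP_06ef15_an.O11
import Pool.Agent.Work.MP_06ef15_an.AN2

/-!
# (9.4) for all elements of `A`

`exists_cut`: `A_induction` with `p b := ∀ K, ∀ ε > 0, ∃ K', ‖pr (EK K) * rho b * pr (EK K')ᶜ‖ ≤ ε`.  Generators: `cut_Y`, ...; `rho_one`: `pr_mul_pr`.
Sum: maximum of the two `K'` (`norm_comp_compl_mono`).  Product `a b`: `rho (a b) = rho b * rho a`; `K1` for `(b, K, δ)`, then `K2` for `(a, K1, δ)`: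
`pr_K rho b rho a prᶜ_{K2} = pr_K rho b prᶜ_{K1} rho a prᶜ_{K2} + pr_K rho b pr_{K1} rho a prᶜ_{K2}` (`pr_add_compl`), norm at most `δ ‖a‖ + ‖b‖ δ`.
Closedness: `‖rho b - rho b'‖ = ‖b - b'‖`.

`exists_DD`: `A_induction` with `p b := (∀ K, ∀ ε > 0, ∃ K', ‖pr (EK K) * rho b * pr (EK K')ᶜ‖ ≤ ε) ∧ ∀ ε > 0, ∃ K, ‖(DD b) prᶜ_K‖ ≤ ε`
(the first part from `exists_cut`-like arguments or by adding `b ∈ A` to `p`).  Product: `DD (a b) = DD b ∘ rho a + (1 ⊗ rho b) ∘ DD a` (`DD_mul`);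
`DD b rho a prᶜ_{K2} = DD b prᶜ_{K1} rho a prᶜ_{K2} + DD b pr_{K1} rho a prᶜ_{K2}`, norm at most `δ ‖a‖ + 2 ‖b‖ δ'` (`norm_DD_le`).
Closedness: `norm_DD_sub_le`.
-/

set_option autoImplicit false

open scoped ComplexConjugate InnerProductSpace Classical
open ContinuousLinearMap (adjoint)

namespace OE

private def cutP (b : BH) : Prop :=
  ∀ K : ℕ, ∀ ε : ℝ, 0 < ε → ∃ K' : ℕ, ‖pr (EK K) * rho b * pr (EK K')ᶜ‖ ≤ ε

private theorem o12_PN (K : ℕ) : (pr (EK K) : HH →L[ℂ] HH) * pr (EK K)ᶜ = 0 := by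
  rw [pr_mul_pr, Set.inter_compl_self]
  exact ext_e fun x => by rw [pr_e_notMem (Set.notMem_empty x), zero_apply]

private theorem o12_norm (S : HH →L[ℂ] HH) (K K' : ℕ) : ‖pr (EK K) * S * pr (EK K')ᶜ‖ ≤ ‖S‖ := by
  refine (norm_mul_le _ _).trans ?_
  refine (mul_le_mul (norm_mul_le _ _) (norm_pr_le _) (norm_nonneg _) (by positivity)).trans ?_
  rw [mul_one]
  exact (mul_le_mul_of_nonneg_right (norm_pr_le _) (norm_nonneg _)).trans (one_mul _).le

private theorem o12_mono (S : HH →L[ℂ] HH) {K K' : ℕ} (h : K ≤ K') : ‖S * pr (EK K')ᶜ‖ ≤ ‖S * pr (EK K)ᶜ‖ :=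
  norm_comp_compl_mono S h

private theorem cutP_zero {b : BH} (h : ∀ K : ℕ, ∃ K' : ℕ, pr (EK K) * rho b * pr (EK K')ᶜ = 0) : cutP b := by
  intro K ε hε
  obtain ⟨K', hK'⟩ := h K
  exact ⟨K', by rw [hK', norm_zero]; exact hε.le⟩

private theorem cutP_one : cutP 1 := cutP_zero fun K => ⟨K, by rw [rho_one, mul_one, o12_PN]⟩

private theorem cutP_add {x y : BH} (hx : cutP x) (hy : cutP y) : cutP (x + y) := by
  intro K ε hε
  obtain ⟨K1, h1⟩ := hx K (ε / 2) (by positivity)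
  obtain ⟨K2, h2⟩ := hy K (ε / 2) (by positivity)
  refine ⟨max K1 K2, ?_⟩
  rw [rho_add, mul_add, add_mul]
  refine (norm_add_le _ _).trans ?_
  have h3 := (o12_mono (pr (EK K) * rho x) (le_max_left K1 K2)).trans h1
  have h4 := (o12_mono (pr (EK K) * rho y) (le_max_right K1 K2)).trans h2
  linarith

private theorem o12_split (K1 : ℕ) (S T : HH →L[ℂ] HH) :
    S * T = S * pr (EK K1)ᶜ * T + S * (pr (EK K1) * T) := by
  have h : (pr (EK K1) : HH →L[ℂ] HH) + pr (EK K1)ᶜ = 1 := pr_add_compl _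
  calc S * T = S * (pr (EK K1) + pr (EK K1)ᶜ) * T := by rw [h, mul_one]
    _ = _ := by rw [mul_add, add_mul, add_comm, mul_assoc S (pr (EK K1)) T]

private theorem cutP_mul {x y : BH} (hx : cutP x) (hy : cutP y) : cutP (x * y) := by
  intro K ε hε
  have hC : 0 < ‖x‖ + ‖y‖ + 1 := by positivity
  obtain ⟨K1, h1⟩ := hy K (ε / (‖x‖ + ‖y‖ + 1)) (by positivity)
  obtain ⟨K2, h2⟩ := hx K1 (ε / (‖x‖ + ‖y‖ + 1)) (by positivity)
  refine ⟨K2, ?_⟩
  have e : pr (EK K) * rho (x * y) * pr (EK K2)ᶜ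
      = (pr (EK K) * rho y * pr (EK K1)ᶜ) * (rho x * pr (EK K2)ᶜ)
        + (pr (EK K) * rho y) * (pr (EK K1) * rho x * pr (EK K2)ᶜ) := by
    rw [rho_mul]
    have := o12_split K1 (pr (EK K) * rho y) (rho x * pr (EK K2)ᶜ)
    simp only [mul_assoc] at this ⊢
    exact this
  rw [e]
  refine (norm_add_le _ _).trans ?_
  have b1 : ‖rho x * pr (EK K2)ᶜ‖ ≤ ‖x‖ := by
    refine (norm_mul_le _ _).trans ?_
    rw [norm_rho]
    exact (mul_le_mul_of_nonneg_left (norm_pr_le _) (norm_nonneg _)).trans (mul_one _).le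
  have b2 : ‖pr (EK K) * rho y‖ ≤ ‖y‖ := by
    refine (norm_mul_le _ _).trans ?_
    rw [norm_rho]
    exact (mul_le_mul_of_nonneg_right (norm_pr_le _) (norm_nonneg _)).trans (one_mul _).le
  have c1 := (norm_mul_le (pr (EK K) * rho y * pr (EK K1)ᶜ) (rho x * pr (EK K2)ᶜ)).trans
    (mul_le_mul h1 b1 (norm_nonneg _) (by positivity))
  have c2 := (norm_mul_le (pr (EK K) * rho y) (pr (EK K1) * rho x * pr (EK K2)ᶜ)).trans
    (mul_le_mul b2 h2 (norm_nonneg _) (norm_nonneg _))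
  refine (add_le_add c1 c2).trans ?_
  rw [div_mul_eq_mul_div, mul_div_assoc', ← add_div, div_le_iff₀ hC]
  nlinarith [norm_nonneg x, norm_nonneg y]

private theorem cutP_smul (c : ℂ) {x : BH} (hx : cutP x) : cutP (c • x) := by
  intro K ε hε
  have hC : 0 < ‖c‖ + 1 := by positivity
  obtain ⟨K1, h1⟩ := hx K (ε / (‖c‖ + 1)) (by positivity)
  refine ⟨K1, ?_⟩
  rw [rho_smul, mul_smul_comm, smul_mul_assoc, norm_smul]
  refine (mul_le_mul_of_nonneg_left h1 (norm_nonneg c)).trans ?_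
  rw [mul_div_assoc', div_le_iff₀ hC]
  nlinarith [norm_nonneg c]

private theorem cutP_closed : IsClosed {x : BH | cutP x} := by
  refine isClosed_of_closure_subset fun x hx => ?_
  intro K ε hε
  obtain ⟨y, hy, hxy⟩ := Metric.mem_closure_iff.1 hx (ε / 2) (by positivity)
  obtain ⟨K', h⟩ := hy K (ε / 2) (by positivity)
  refine ⟨K', ?_⟩
  have e : pr (EK K) * rho x * pr (EK K')ᶜ = pr (EK K) * rho y * pr (EK K')ᶜ + pr (EK K) * rho (x - y) * pr (EK K')ᶜ := by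
    rw [rho_sub, mul_sub, sub_mul, add_sub_cancel]
  rw [e]
  refine (norm_add_le _ _).trans ?_
  have h2 := (o12_norm (rho (x - y)) K K').trans (norm_rho (x - y)).le
  rw [dist_eq_norm] at hxy
  linarith

theorem exists_cut {b : BH} (hb : b ∈ A) (K : ℕ) {ε : ℝ} (hε : 0 < ε) :
    ∃ K' : ℕ, ‖pr (EK K) * rho b * pr (EK K')ᶜ‖ ≤ ε :=
  A_induction (p := cutP) (fun t k => cutP_zero (cut_Y t k)) (fun u => cutP_zero (cut_g u))
    (fun b => cutP_zero (cut_Sg b)) (fun b => cutP_zero (cut_star_Sg b)) cutP_one (fun _ _ => cutP_add)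
    (fun _ _ => cutP_mul) (fun c _ => cutP_smul c) cutP_closed hb K ε hε

private def defP (k L : ℕ) (f : W → ℤ → ℕ → ℝ) (b : BH) : Prop :=
  ∀ ε : ℝ, 0 < ε → ∃ K : ℕ, ‖(DD k L f b).comp (pr (EK K)ᶜ)‖ ≤ ε

private theorem defP_zero {k L : ℕ} {f : W → ℤ → ℕ → ℝ} {b : BH} {K : ℕ} (h : (DD k L f b).comp (pr (EK K)ᶜ) = 0) :
    defP k L f b := fun ε hε => ⟨K, by rw [h, norm_zero]; exact hε.le⟩

private theorem defP_add {k L : ℕ} {f : W → ℤ → ℕ → ℝ} {x y : BH} (hx : defP k L f x) (hy : defP k L f y) :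
    defP k L f (x + y) := by
  intro ε hε
  obtain ⟨K1, h1⟩ := hx (ε / 2) (by positivity)
  obtain ⟨K2, h2⟩ := hy (ε / 2) (by positivity)
  refine ⟨max K1 K2, ?_⟩
  rw [DD_add, ContinuousLinearMap.add_comp]
  refine (norm_add_le _ _).trans ?_
  have h3 := (norm_comp_compl_mono (DD k L f x) (le_max_left K1 K2)).trans h1
  have h4 := (norm_comp_compl_mono (DD k L f y) (le_max_right K1 K2)).trans h2
  linarith

private theorem defP_smul {k L : ℕ} {f : W → ℤ → ℕ → ℝ} (c : ℂ) {x : BH} (hx : defP k L f x) : defP k L f (c • x) := by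
  intro ε hε
  have hC : 0 < ‖c‖ + 1 := by positivity
  obtain ⟨K1, h1⟩ := hx (ε / (‖c‖ + 1)) (by positivity)
  refine ⟨K1, ?_⟩
  rw [DD_smul, ContinuousLinearMap.smul_comp, norm_smul]
  refine (mul_le_mul_of_nonneg_left h1 (norm_nonneg c)).trans ?_
  rw [mul_div_assoc', div_le_iff₀ hC]
  nlinarith [norm_nonneg c]

private theorem defP_mul {k L : ℕ} {f : W → ℤ → ℕ → ℝ} (hL : 0 < L) (hf : IsWeight f) {x y : BH} (cx : cutP x)
    (hx : defP k L f x) (hy : defP k L f y) : defP k L f (x * y) := by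
  intro ε hε
  have hC : 0 < 3 * (‖x‖ + ‖y‖ + 1) := by positivity
  set δ : ℝ := ε / (3 * (‖x‖ + ‖y‖ + 1)) with hδ
  have hδ0 : 0 < δ := by positivity
  obtain ⟨K1, h1⟩ := hy δ hδ0
  obtain ⟨K2, h2⟩ := cx K1 δ hδ0
  obtain ⟨K3, h3⟩ := hx δ hδ0
  refine ⟨max K2 K3, ?_⟩
  set N : HH →L[ℂ] HH := pr (EK (max K2 K3))ᶜ with hN
  have hP : (pr (EK K1) : HH →L[ℂ] HH) + pr (EK K1)ᶜ = 1 := pr_add_compl _
  have e : (DD k L f (x * y)).comp N
      = ((DD k L f y).comp (pr (EK K1)ᶜ)).comp ((rho x).comp N)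
        + (DD k L f y).comp (pr (EK K1) * rho x * N) + (ampR Idx (rho y)).comp ((DD k L f x).comp N) := by
    rw [DD_mul, ContinuousLinearMap.add_comp]
    congr 1
    have e1 : (rho x).comp N = (pr (EK K1)ᶜ).comp ((rho x).comp N) + pr (EK K1) * rho x * N := by
      have h5 : ((pr (EK K1) : HH →L[ℂ] HH) + pr (EK K1)ᶜ) * (rho x * N) = rho x * N := by rw [hP, one_mul]
      rw [add_mul, add_comm, ← mul_assoc (pr (EK K1))] at h5
      exact h5.symm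
    calc ((DD k L f y).comp (rho x)).comp N = (DD k L f y).comp ((rho x).comp N) := rfl
      _ = (DD k L f y).comp ((pr (EK K1)ᶜ).comp ((rho x).comp N) + pr (EK K1) * rho x * N) := by rw [← e1]
      _ = _ := by rw [ContinuousLinearMap.comp_add]; rfl
  rw [e]
  have nN : ‖N‖ ≤ 1 := norm_pr_le _
  have b1 : ‖(rho x).comp N‖ ≤ ‖x‖ := by
    refine (ContinuousLinearMap.opNorm_comp_le _ _).trans ?_
    rw [norm_rho]
    exact (mul_le_mul_of_nonneg_left nN (norm_nonneg _)).trans (mul_one _).le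
  have b2 : ‖pr (EK K1) * rho x * N‖ ≤ δ := (o12_mono (pr (EK K1) * rho x) (le_max_left K2 K3)).trans h2
  have b3 : ‖(DD k L f x).comp N‖ ≤ δ := (norm_comp_compl_mono (DD k L f x) (le_max_right K2 K3)).trans h3
  have b4 : ‖ampR Idx (rho y)‖ ≤ ‖y‖ := (norm_ampR_le _).trans (norm_rho y).le
  have c1 := (ContinuousLinearMap.opNorm_comp_le ((DD k L f y).comp (pr (EK K1)ᶜ)) ((rho x).comp N)).trans
    (mul_le_mul h1 b1 (norm_nonneg _) hδ0.le)
  have c2 := (ContinuousLinearMap.opNorm_comp_le (DD k L f y) (pr (EK K1) * rho x * N)).trans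
    (mul_le_mul (norm_DD_le hL hf y) b2 (norm_nonneg _) (by positivity))
  have c3 := (ContinuousLinearMap.opNorm_comp_le (ampR Idx (rho y)) ((DD k L f x).comp N)).trans
    (mul_le_mul b4 b3 (norm_nonneg _) (norm_nonneg _))
  refine (norm_add₃_le).trans ?_
  refine (add_le_add (add_le_add c1 c2) c3).trans ?_
  have e2 : δ * (3 * (‖x‖ + ‖y‖ + 1)) = ε := by
    rw [hδ]
    field_simp
  nlinarith [norm_nonneg x, norm_nonneg y]

private theorem defP_closed {k L : ℕ} {f : W → ℤ → ℕ → ℝ} (hL : 0 < L) (hf : IsWeight f) :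
    IsClosed {x : BH | defP k L f x} := by
  refine isClosed_of_closure_subset fun x hx => ?_
  intro ε hε
  obtain ⟨y, hy, hxy⟩ := Metric.mem_closure_iff.1 hx (ε / 4) (by positivity)
  obtain ⟨K', h⟩ := hy (ε / 2) (by positivity)
  refine ⟨K', ?_⟩
  have e : (DD k L f x).comp (pr (EK K')ᶜ) = (DD k L f y).comp (pr (EK K')ᶜ)
      + (DD k L f x - DD k L f y).comp (pr (EK K')ᶜ) := by
    rw [← ContinuousLinearMap.add_comp, add_sub_cancel]
  rw [e]
  refine (norm_add_le _ _).trans ?_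
  have h2 := ContinuousLinearMap.opNorm_comp_le (DD k L f x - DD k L f y) (pr (EK K')ᶜ)
  have h3 := mul_le_mul (norm_DD_sub_le (k := k) hL hf x y) (norm_pr_le (EK K')ᶜ) (norm_nonneg _) (by positivity)
  rw [dist_eq_norm] at hxy
  linarith

theorem exists_DD {k L K0 M0 : ℕ} (hL : 0 < L) (hM0 : 0 < M0) {b : BH} (hb : b ∈ A) {ε : ℝ} (hε : 0 < ε) :
    ∃ K : ℕ, ‖(DD k L (fw K0 M0) b).comp (pr (EK K)ᶜ)‖ ≤ ε := by
  have hf := isWeight_fw K0 hM0
  have hY : ∀ t l, defP k L (fw K0 M0) (Y t l) := by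
    intro t l
    obtain ⟨K, hK⟩ : ∃ K : ℕ, (K0 : ℤ) + L + M0 + |l| ≤ K := ⟨K0 + L + M0 + l.natAbs, by push_cast; omega⟩
    exact defP_zero (DD_Y hL hM0 t l hK)
  have h0 : ∀ b : BH, DD k L (fw K0 M0) b = 0 → defP k L (fw K0 M0) b := fun b h =>
    defP_zero (K := 0) (by rw [h, ContinuousLinearMap.zero_comp])
  refine (A_induction (p := fun x => cutP x ∧ defP k L (fw K0 M0) x) ?_ ?_ ?_ ?_ ?_ ?_ ?_ ?_ ?_ hb).2 ε hε
  · exact fun t l => ⟨cutP_zero (cut_Y t l), hY t l⟩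
  · exact fun u => ⟨cutP_zero (cut_g u), h0 _ (DD_g _ _ _ u)⟩
  · exact fun b => ⟨cutP_zero (cut_Sg b), h0 _ (DD_Sg _ _ _ b)⟩
  · exact fun b => ⟨cutP_zero (cut_star_Sg b), h0 _ (DD_star_Sg _ _ _ b)⟩
  · exact ⟨cutP_one, h0 _ (DD_one _ _ _)⟩
  · exact fun x y hx hy => ⟨cutP_add hx.1 hy.1, defP_add hx.2 hy.2⟩
  · exact fun x y hx hy => ⟨cutP_mul hx.1 hy.1, defP_mul hL hf hx.1 hx.2 hy.2⟩
  · exact fun c x hx => ⟨cutP_smul c hx.1, defP_smul c hx.2⟩
  · exact cutP_closed.inter (defP_closed hL hf)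

end OE
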