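import Mathlib
import Pool.Agent.Work.MP_06ef15_an.BE

/-!
# Minimal tensor norms, finite index sets

`B` a C*-algebra, `π : B → B(ℓ²(I))` a unital *-homomorphism, `J` finite.  `blk π M` is the operator on `ℓ²(I × J)`
with matrix `π (M j k)`.  The map `M ↦ blk π M` is a unital *-homomorphism `CStarMatrix J J B → B(ℓ²(I × J))`
(`slice l ∘ emb l' = δ`, `∑_j emb j ∘ slice j = 1`, `adjoint (emb j) = slice j`), injective if `π` is.

`blk_norm_le`: put on `B` the order `CStarAlgebra.spectralOrder B` (`CStarAlgebra.spectralOrderedRing B`), so that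
`CStarMatrix J J B` is a C*-algebra.  *-homomorphisms of C*-algebras are contractive (`NonUnitalStarAlgHom.norm_apply_le`)
and injective ones isometric (`NonUnitalStarAlgHom.norm_map`): `‖blk π M‖ ≤ ‖M‖ = ‖blk ι M‖`.

`ten_eq_blk`: for `J` finite and `b` with matrix entries `b_{jk}`, `ten (π x) b = blk π (b_{jk} • x)` (check on basis vectors,
`ten_e`, `ext_coef`).
-/

set_option autoImplicit false

open scoped ComplexConjugate InnerProductSpace Classical
open ContinuousLinearMap (adjoint)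

namespace OE

variable {I I' J : Type} {B : Type} [CStarAlgebra B]

/-- the operator on `ℓ²(I × J)` with matrix `π (M j k)`. -/
noncomputable def blk [Fintype J] (π : B →⋆ₐ[ℂ] (H I →L[ℂ] H I)) (M : J → J → B) : H (I × J) →L[ℂ] H (I × J) :=
  ∑ j, ∑ k, (emb j).comp ((π (M j k)).comp (slice k))

private theorem slice_blk [Fintype J] (π : B →⋆ₐ[ℂ] (H I →L[ℂ] H I)) (M : J → J → B) (j : J) (x : H (I × J)) :
    slice j (blk π M x) = ∑ k, π (M j k) (slice k x) := by
  unfold blk
  rw [sum_apply, map_sum, Finset.sum_eq_single j]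
  · rw [sum_apply, map_sum]
    refine Finset.sum_congr rfl fun k _ => ?_
    rw [ContinuousLinearMap.comp_apply, ContinuousLinearMap.comp_apply, slice_emb]
  · intro j' _ hj
    rw [sum_apply, map_sum]
    refine Finset.sum_eq_zero fun k _ => ?_
    rw [ContinuousLinearMap.comp_apply, slice_emb_ne (Ne.symm hj)]
  · exact fun h => absurd (Finset.mem_univ j) h

private theorem blk_ext [Fintype J] {S T : H (I × J) →L[ℂ] H (I × J)} (h : ∀ j x, slice j (S x) = slice j (T x)) : S = T :=
  ContinuousLinearMap.ext fun x => ext_slice fun j => h j x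

theorem blk_add [Fintype J] (π : B →⋆ₐ[ℂ] (H I →L[ℂ] H I)) (M N : J → J → B) :
    blk π (fun j k => M j k + N j k) = blk π M + blk π N := by
  refine blk_ext fun j x => ?_
  rw [add_apply, map_add, slice_blk, slice_blk, slice_blk, ← Finset.sum_add_distrib]
  refine Finset.sum_congr rfl fun k _ => ?_
  rw [map_add, add_apply]

theorem blk_smul [Fintype J] (π : B →⋆ₐ[ℂ] (H I →L[ℂ] H I)) (c : ℂ) (M : J → J → B) :
    blk π (fun j k => c • M j k) = c • blk π M := by
  refine blk_ext fun j x => ?_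
  rw [smul_apply, map_smul, slice_blk, slice_blk, Finset.smul_sum]
  refine Finset.sum_congr rfl fun k _ => ?_
  rw [map_smul, smul_apply]

theorem blk_mul [Fintype J] (π : B →⋆ₐ[ℂ] (H I →L[ℂ] H I)) (M N : J → J → B) :
    blk π (fun j k => ∑ l, M j l * N l k) = blk π M * blk π N := by
  refine blk_ext fun j x => ?_
  rw [mul_apply_eq_comp, slice_blk, slice_blk]
  simp only [slice_blk, map_sum, map_mul, sum_apply, mul_apply_eq_comp]
  exact Finset.sum_comm

theorem blk_one [Fintype J] (π : B →⋆ₐ[ℂ] (H I →L[ℂ] H I)) :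
    blk π (fun j k : J => if j = k then 1 else 0) = 1 := by
  refine blk_ext fun j x => ?_
  rw [slice_blk, Finset.sum_eq_single j]
  · rw [if_pos rfl, map_one]
    rfl
  · intro k _ hk
    rw [if_neg (Ne.symm hk), map_zero, zero_apply]
  · exact fun h => absurd (Finset.mem_univ j) h

theorem blk_star [Fintype J] (π : B →⋆ₐ[ℂ] (H I →L[ℂ] H I)) (M : J → J → B) :
    blk π (fun j k => star (M k j)) = star (blk π M) := by
  have h : ∀ k : J, adjoint (slice k : H (I × J) →L[ℂ] H I) = emb k := by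
    intro k
    rw [← adj_emb, ContinuousLinearMap.adjoint_adjoint]
  unfold blk
  rw [ContinuousLinearMap.star_eq_adjoint, map_sum, Finset.sum_comm]
  refine Finset.sum_congr rfl fun j _ => ?_
  rw [map_sum]
  refine Finset.sum_congr rfl fun k _ => ?_
  rw [ContinuousLinearMap.adjoint_comp, ContinuousLinearMap.adjoint_comp, h, adj_emb, map_star,
    ContinuousLinearMap.star_eq_adjoint, ContinuousLinearMap.comp_assoc]

theorem slice_blk_emb [Fintype J] (π : B →⋆ₐ[ℂ] (H I →L[ℂ] H I)) (M : J → J → B) (j k : J) (x : H I) :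
    slice j (blk π M (emb k x)) = π (M j k) x := by
  rw [slice_blk, Finset.sum_eq_single k]
  · rw [slice_emb]
  · intro k' _ hk
    rw [slice_emb_ne hk, map_zero]
  · exact fun h => absurd (Finset.mem_univ k) h

/-- the *-homomorphism given by `blk`. -/
private noncomputable def blkHom [Fintype J] (π : B →⋆ₐ[ℂ] (H I →L[ℂ] H I)) :
    CStarMatrix J J B →⋆ₐ[ℂ] (H (I × J) →L[ℂ] H (I × J)) where
  toFun M := blk π (fun j k => M j k)
  map_one' := by
    rw [← blk_one π]
    congr 1
  map_mul' M N := by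
    rw [← blk_mul π]
    congr 1
  map_zero' := by
    have h := blk_smul π (0 : ℂ) (fun _ _ : J => (0 : B))
    simp only [zero_smul] at h
    exact h
  map_add' M N := by
    rw [← blk_add π]
    congr 1
  commutes' c := by
    rw [Algebra.algebraMap_eq_smul_one, Algebra.algebraMap_eq_smul_one, ← blk_one π, ← blk_smul π]
    congr 1
  map_star' M := by
    rw [← blk_star π]
    congr 1

private theorem blkHom_inj [Fintype J] (π : B →⋆ₐ[ℂ] (H I →L[ℂ] H I)) (h : Function.Injective π) :
    Function.Injective (blkHom (J := J) π) := by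
  intro M N e
  refine CStarMatrix.ext fun j k => h (ContinuousLinearMap.ext fun x => ?_)
  have e' : blk π (fun j k => M j k) = blk π (fun j k => N j k) := e
  rw [← slice_blk_emb π (fun j k => M j k), e', slice_blk_emb]

/-- contractivity: the minimal norm on matrices. -/
theorem blk_norm_le [Fintype J] (ι : B →⋆ₐ[ℂ] (H I →L[ℂ] H I)) (hι : Function.Injective ι)
    (π : B →⋆ₐ[ℂ] (H I' →L[ℂ] H I')) (M : J → J → B) : ‖blk π M‖ ≤ ‖blk ι M‖ := by
  let _ := CStarAlgebra.spectralOrder B
  have := CStarAlgebra.spectralOrderedRing B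
  have h1 : ‖blk π M‖ ≤ ‖(CStarMatrix.ofMatrix M : CStarMatrix J J B)‖ :=
    NonUnitalStarAlgHom.norm_apply_le (blkHom (J := J) π) (CStarMatrix.ofMatrix M)
  have h2 : ‖blk ι M‖ = ‖(CStarMatrix.ofMatrix M : CStarMatrix J J B)‖ :=
    NonUnitalStarAlgHom.norm_map (blkHom (J := J) ι) (blkHom_inj ι hι) (CStarMatrix.ofMatrix M)
  rw [h2]
  exact h1

theorem ten_eq_blk [Fintype J] (π : B →⋆ₐ[ℂ] (H I →L[ℂ] H I)) (x : B) (b : H J →L[ℂ] H J) :
    ten (π x) b = blk π (fun j k => (b (e k) : J → ℂ) j • x) := by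
  refine ext_coef fun p q => ?_
  obtain ⟨i, k⟩ := p
  obtain ⟨i', j⟩ := q
  rw [ten_e, ← slice_apply, ← emb_e, slice_blk_emb, map_smul, smul_apply, lp.coeFn_smul, Pi.smul_apply,
    smul_eq_mul, mul_comm]

theorem mintensor_fin [Finite J] {κ : Type*} (s : Finset κ) (ι : B →⋆ₐ[ℂ] (H I →L[ℂ] H I))
    (hι : Function.Injective ι) (π : B →⋆ₐ[ℂ] (H I' →L[ℂ] H I')) (x : κ → B) (b : κ → (H J →L[ℂ] H J)) :
    ‖∑ i ∈ s, ten (π (x i)) (b i)‖ ≤ ‖∑ i ∈ s, ten (ι (x i)) (b i)‖ := by
  have := Fintype.ofFinite J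
  have key : ∀ {I₀ : Type} (π : B →⋆ₐ[ℂ] (H I₀ →L[ℂ] H I₀)), ∑ i ∈ s, ten (π (x i)) (b i)
      = blk π (fun j k => ∑ i ∈ s, (b i (e k) : J → ℂ) j • x i) := by
    intro I₀ π
    have h1 : ∑ i ∈ s, ten (π (x i)) (b i)
        = ∑ i ∈ s, blkHom π (CStarMatrix.ofMatrix fun j k => (b i (e k) : J → ℂ) j • x i) :=
      Finset.sum_congr rfl fun i _ => ten_eq_blk π (x i) (b i)
    rw [h1, ← map_sum]
    show blk π _ = blk π _
    congr 1
    funext j k
    have h2 : ∀ t : Finset κ, (∑ i ∈ t, (CStarMatrix.ofMatrix fun j k => (b i (e k) : J → ℂ) j • x i :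
        CStarMatrix J J B)) j k = ∑ i ∈ t, (b i (e k) : J → ℂ) j • x i := by
      intro t
      induction t using Finset.induction_on with
      | empty => rw [Finset.sum_empty, Finset.sum_empty]; rfl
      | insert a t ha ih => rw [Finset.sum_insert ha, Finset.sum_insert ha, CStarMatrix.add_apply, ih]; rfl
    exact h2 s
  rw [key, key]
  exact blk_norm_le ι hι π _

end OE
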