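import Mathlib
import Pool.Agent.Work.MP_06ef15_an.O2

/-!
# Minimal tensor norms, (9.1)

`norm_le_of_cut`: `pr s x → x` along the finite subsets `s` (`hasSum_e`, `pr_finset`), and
`‖pr t (T (pr s x)) - T x‖ ≤ ‖T‖ ‖pr s x - x‖ + ‖pr t (T x) - T x‖`.

`mintensor`: by `norm_le_of_cut` applied to `T = ∑ π(x_i) ⊗ b_i` on `ℓ²(I' × J)`: for finite subsets `s, t` of `I' × J` let
`r ⊆ J` be the finite set of the second coordinates.  With `v = re (Subtype.val : ↥r → J)` (isometry `ℓ²(r) → ℓ²(J)`),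
`pr s = pr s * ten 1 (v v†)` (basis vectors), so
`pr t * T * pr s = pr t * ampR v * (∑ π(x_i) ⊗ (v† b_i v)) * ampR v† * pr s`,
whose norm is at most `‖∑ π(x_i) ⊗ (v† b_i v)‖ ≤ ‖∑ ι(x_i) ⊗ (v† b_i v)‖` (`mintensor_fin`) and
`∑ ι(x_i) ⊗ (v† b_i v) = ten 1 v† * (∑ ι(x_i) ⊗ b_i) * ten 1 v` has norm at most `‖∑ ι(x_i) ⊗ b_i‖`.

`norm_swap`: `ten b a = re swap ∘ ten a b ∘ re swap` (basis vectors).

`mintensor_sub`: `B = AA` (a closed *-subalgebra, `StarSubalgebra` as a C*-algebra: Mathlib instance with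
`[h : IsClosed (AA : Set _)]`), `ι = AA.subtype`.

`mintensor_anti`: `B = AAᵐᵒᵖ` (`CStarRing` instance for the opposite is in Mathlib; assemble `CStarAlgebra AAᵐᵒᵖ` locally),
`ι (op x) = trp x` (`trp_mul`, `trp_star`, injective since `trp_trp`), `π (op x) = τ x`.
-/

set_option autoImplicit false

open scoped ComplexConjugate InnerProductSpace Classical
open ContinuousLinearMap (adjoint)

namespace OE

variable {I I' J : Type}

private theorem tendsto_pr (x : H I) :
    Filter.Tendsto (fun s : Finset I => pr (s : Set I) x) Filter.atTop (nhds x) := by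
  have h := hasSum_e x
  rw [HasSum, SummationFilter.unconditional_filter] at h
  refine h.congr fun s => ?_
  rw [pr_finset]

theorem norm_le_of_cut (T : H I →L[ℂ] H J) {c : ℝ} (hc : 0 ≤ c)
    (h : ∀ (s : Finset I) (t : Finset J), ‖(pr (t : Set J)).comp (T.comp (pr (s : Set I)))‖ ≤ c) : ‖T‖ ≤ c := by
  refine ContinuousLinearMap.opNorm_le_bound _ hc fun x => ?_
  have h1 : ∀ t : Finset J, ‖pr (t : Set J) (T x)‖ ≤ c * ‖x‖ := by
    intro t
    have h2 : Filter.Tendsto (fun s : Finset I => ‖pr (t : Set J) (T (pr (s : Set I) x))‖) Filter.atTop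
        (nhds ‖pr (t : Set J) (T x)‖) := by
      have h3 := tendsto_pr x
      exact (((pr (t : Set J)).continuous.comp T.continuous).continuousAt.tendsto.comp h3).norm
    have h4 : Filter.Tendsto (fun _ : Finset I => c * ‖x‖) Filter.atTop (nhds (c * ‖x‖)) :=
      tendsto_const_nhds
    refine le_of_tendsto_of_tendsto' h2 h4 fun s => ?_
    exact ((pr (t : Set J)).comp (T.comp (pr (s : Set I)))).le_of_opNorm_le (h s t) x
  have h2 : Filter.Tendsto (fun t : Finset J => ‖pr (t : Set J) (T x)‖) Filter.atTop (nhds ‖T x‖) :=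
    (tendsto_pr (T x)).norm
  have h4 : Filter.Tendsto (fun _ : Finset J => c * ‖x‖) Filter.atTop (nhds (c * ‖x‖)) :=
    tendsto_const_nhds
  exact le_of_tendsto_of_tendsto' h2 h4 h1

/-- the inclusion of a finite coordinate set -/
private noncomputable def vr (r : Finset J) : H ↥r →L[ℂ] H J := re (Subtype.val : ↥r → J)

private theorem norm_vr_le (r : Finset J) : ‖vr r‖ ≤ 1 := norm_re_le Subtype.val_injective

private theorem norm_adj_vr_le (r : Finset J) : ‖adjoint (vr r)‖ ≤ 1 := by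
  rw [LinearIsometryEquiv.norm_map]
  exact norm_vr_le r

private theorem vr_adj_e (r : Finset J) {j : J} (hj : j ∈ r) : (vr r).comp (adjoint (vr r)) (e j) = e j := by
  have h1 : adjoint (vr r) (e j) = e (⟨j, hj⟩ : ↥r) := by
    apply ext_pt
    intro k
    unfold vr
    rw [adj_re_apply Subtype.val_injective, e_apply, e_apply]
    by_cases h : k = ⟨j, hj⟩
    · rw [if_pos h, if_pos (by rw [h])]
    · rw [if_neg h, if_neg (fun h' => h (Subtype.ext h'))]
  rw [ContinuousLinearMap.comp_apply, h1]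
  exact re_e Subtype.val_injective _

private theorem norm_one_le : ‖(1 : H I →L[ℂ] H I)‖ ≤ 1 := ContinuousLinearMap.norm_id_le

private noncomputable def ww (I' : Type) (r : Finset J) : H (I' × ↥r) →L[ℂ] H (I' × J) :=
  ten (1 : H I' →L[ℂ] H I') (vr r)

private theorem norm_ww_le (r : Finset J) : ‖ww I' r‖ ≤ 1 := by
  refine (norm_ten_le _ _).trans ?_
  calc ‖(1 : H I' →L[ℂ] H I')‖ * ‖vr r‖ ≤ 1 * 1 :=
        mul_le_mul norm_one_le (norm_vr_le r) (norm_nonneg _) zero_le_one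
    _ = 1 := one_mul 1

private theorem norm_adj_ww_le (r : Finset J) : ‖adjoint (ww I' r)‖ ≤ 1 := by
  rw [LinearIsometryEquiv.norm_map]
  exact norm_ww_le r

private theorem adj_one : adjoint (1 : H I →L[ℂ] H I) = 1 := by
  rw [← ContinuousLinearMap.star_eq_adjoint, star_one]

private theorem adj_ww (r : Finset J) :
    adjoint (ww I' r) = ten (1 : H I' →L[ℂ] H I') (adjoint (vr r)) := by
  unfold ww
  rw [ten_adj, adj_one]

private theorem one_comp_one : (1 : H I →L[ℂ] H I).comp (1 : H I →L[ℂ] H I) = 1 := rfl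

private theorem ww_adj_e (r : Finset J) (i : I') {j : J} (hj : j ∈ r) :
    (ww I' r).comp (adjoint (ww I' r)) (e (i, j)) = e (i, j) := by
  rw [adj_ww]
  unfold ww
  rw [ten_comp]
  apply ext_pt
  rintro ⟨i', j'⟩
  rw [ten_e, vr_adj_e r hj, one_comp_one]
  show (e i : I' → ℂ) i' * (e j : J → ℂ) j' = _
  rw [e_apply, e_apply, e_apply]
  by_cases h1 : i' = i
  · by_cases h2 : j' = j
    · rw [if_pos h1, if_pos h2, if_pos (by rw [h1, h2]), one_mul]
    · rw [if_neg h2, if_neg (fun h => h2 (Prod.mk.inj h).2), mul_zero]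
  · rw [if_neg h1, if_neg (fun h => h1 (Prod.mk.inj h).1), zero_mul]

private theorem ww_pr (r : Finset J) (s : Finset (I' × J)) (hs : ∀ p ∈ s, p.2 ∈ r) :
    ((ww I' r).comp (adjoint (ww I' r))).comp (pr (s : Set (I' × J))) = pr (s : Set (I' × J)) := by
  refine ext_e fun p => ?_
  rw [ContinuousLinearMap.comp_apply]
  by_cases hp : p ∈ (s : Set (I' × J))
  · rw [pr_e_mem hp]
    obtain ⟨i, j⟩ := p
    exact ww_adj_e r i (hs _ hp)
  · rw [pr_e_notMem hp, map_zero]

private theorem pr_ww (r : Finset J) (s : Finset (I' × J)) (hs : ∀ p ∈ s, p.2 ∈ r) :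
    (pr (s : Set (I' × J))).comp ((ww I' r).comp (adjoint (ww I' r))) = pr (s : Set (I' × J)) := by
  have h := congrArg adjoint (ww_pr r s hs)
  rw [ContinuousLinearMap.adjoint_comp, ContinuousLinearMap.adjoint_comp,
    ContinuousLinearMap.adjoint_adjoint, adj_pr] at h
  exact h

private theorem ten_sum_cut {B : Type} {κ : Type*} (s : Finset κ) (π : B → (H I' →L[ℂ] H I'))
    (x : κ → B) (b : κ → (H J →L[ℂ] H J)) (r : Finset J) :
    (adjoint (ww I' r)).comp ((∑ i ∈ s, ten (π (x i)) (b i)).comp (ww I' r)) =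
      ∑ i ∈ s, ten (π (x i)) ((adjoint (vr r)).comp ((b i).comp (vr r))) := by
  rw [ContinuousLinearMap.finsetSum_comp, ContinuousLinearMap.comp_finsetSum]
  refine Finset.sum_congr rfl fun i _ => ?_
  rw [adj_ww]
  unfold ww
  rw [ten_comp, ten_comp]
  rfl

theorem mintensor {B : Type} [CStarAlgebra B] {κ : Type*} (s : Finset κ) (ι : B →⋆ₐ[ℂ] (H I →L[ℂ] H I))
    (hι : Function.Injective ι) (π : B →⋆ₐ[ℂ] (H I' →L[ℂ] H I')) (x : κ → B) (b : κ → (H J →L[ℂ] H J)) :
    ‖∑ i ∈ s, ten (π (x i)) (b i)‖ ≤ ‖∑ i ∈ s, ten (ι (x i)) (b i)‖ := by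
  refine norm_le_of_cut _ (norm_nonneg _) fun u t => ?_
  obtain ⟨T, hT⟩ : ∃ T, T = ∑ i ∈ s, ten (π (x i)) (b i) := ⟨_, rfl⟩
  obtain ⟨T', hT'⟩ : ∃ T', T' = ∑ i ∈ s, ten (ι (x i)) (b i) := ⟨_, rfl⟩
  rw [← hT, ← hT']
  let r : Finset J := (u ∪ t).image Prod.snd
  have hu : ∀ p ∈ u, p.2 ∈ r := fun p hp =>
    Finset.mem_image_of_mem _ (Finset.mem_union_left _ hp)
  have ht : ∀ p ∈ t, p.2 ∈ r := fun p hp =>
    Finset.mem_image_of_mem _ (Finset.mem_union_right _ hp)
  have h1 : (pr (t : Set (I' × J))).comp (T.comp (pr (u : Set (I' × J)))) =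
      ((pr (t : Set (I' × J))).comp (ww I' r)).comp
        (((adjoint (ww I' r)).comp (T.comp (ww I' r))).comp
          ((adjoint (ww I' r)).comp (pr (u : Set (I' × J))))) := by
    conv_lhs => rw [← pr_ww r t ht, ← ww_pr r u hu]
    rfl
  have h2 : ‖(adjoint (ww I' r)).comp (T.comp (ww I' r))‖ ≤ ‖T'‖ := by
    rw [hT, ten_sum_cut s π x b r]
    refine (mintensor_fin s ι hι π x (fun i => (adjoint (vr r)).comp ((b i).comp (vr r)))).trans ?_
    have h3 := ten_sum_cut s ι x b r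
    rw [← hT'] at h3
    show ‖∑ i ∈ s, ten (ι (x i)) ((adjoint (vr r)).comp ((b i).comp (vr r)))‖ ≤ ‖T'‖
    rw [← h3]
    calc ‖(adjoint (ww I r)).comp (T'.comp (ww I r))‖ ≤ ‖adjoint (ww I r)‖ * ‖T'.comp (ww I r)‖ :=
          ContinuousLinearMap.opNorm_comp_le _ _
      _ ≤ 1 * (‖T'‖ * 1) := by
          refine mul_le_mul (norm_adj_ww_le r) ?_ (norm_nonneg _) zero_le_one
          refine (ContinuousLinearMap.opNorm_comp_le _ _).trans ?_
          exact mul_le_mul_of_nonneg_left (norm_ww_le r) (norm_nonneg _)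
      _ = ‖T'‖ := by ring
  have h4 : ‖(pr (t : Set (I' × J))).comp (ww I' r)‖ ≤ 1 := by
    refine (ContinuousLinearMap.opNorm_comp_le _ _).trans ?_
    calc ‖pr (t : Set (I' × J))‖ * ‖ww I' r‖ ≤ 1 * 1 :=
          mul_le_mul (norm_pr_le _) (norm_ww_le r) (norm_nonneg _) zero_le_one
      _ = 1 := one_mul 1
  have h5 : ‖(adjoint (ww I' r)).comp (pr (u : Set (I' × J)))‖ ≤ 1 := by
    refine (ContinuousLinearMap.opNorm_comp_le _ _).trans ?_
    calc ‖adjoint (ww I' r)‖ * ‖pr (u : Set (I' × J))‖ ≤ 1 * 1 :=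
          mul_le_mul (norm_adj_ww_le r) (norm_pr_le _) (norm_nonneg _) zero_le_one
      _ = 1 := one_mul 1
  rw [h1]
  refine (ContinuousLinearMap.opNorm_comp_le _ _).trans ?_
  calc ‖(pr (t : Set (I' × J))).comp (ww I' r)‖ *
        ‖((adjoint (ww I' r)).comp (T.comp (ww I' r))).comp
          ((adjoint (ww I' r)).comp (pr (u : Set (I' × J))))‖ ≤ 1 * (‖T'‖ * 1) := by
        refine mul_le_mul h4 ?_ (norm_nonneg _) zero_le_one
        refine (ContinuousLinearMap.opNorm_comp_le _ _).trans ?_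
        exact mul_le_mul h2 h5 (norm_nonneg _) (norm_nonneg _)
    _ = ‖T'‖ := by ring

private theorem ten_swap (a : H I →L[ℂ] H I) (b : H J →L[ℂ] H J) :
    ten b a = (re (Prod.swap : I × J → J × I)).comp ((ten a b).comp (re (Prod.swap : J × I → I × J))) := by
  refine ext_coef fun p q => ?_
  obtain ⟨j, i⟩ := p
  obtain ⟨j', i'⟩ := q
  rw [ten_e, ContinuousLinearMap.comp_apply, ContinuousLinearMap.comp_apply, re_e Prod.swap_injective]
  have h := re_apply Prod.swap_injective (ten a b (e ((Prod.swap (j, i) : I × J)))) (i', j')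
  show _ = (re (Prod.swap : I × J → J × I) (ten a b (e ((Prod.swap (j, i) : I × J)))) : J × I → ℂ)
    (Prod.swap (i', j'))
  rw [h]
  show _ = (ten a b (e (i, j)) : I × J → ℂ) (i', j')
  rw [ten_e, mul_comm]

private theorem norm_swap_le {κ : Type*} (s : Finset κ) (a : κ → (H I →L[ℂ] H I)) (b : κ → (H J →L[ℂ] H J)) :
    ‖∑ i ∈ s, ten (b i) (a i)‖ ≤ ‖∑ i ∈ s, ten (a i) (b i)‖ := by
  have h : ∑ i ∈ s, ten (b i) (a i) = (re (Prod.swap : I × J → J × I)).comp
      ((∑ i ∈ s, ten (a i) (b i)).comp (re (Prod.swap : J × I → I × J))) := by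
    rw [ContinuousLinearMap.finsetSum_comp, ContinuousLinearMap.comp_finsetSum]
    exact Finset.sum_congr rfl fun i _ => ten_swap _ _
  rw [h]
  refine (ContinuousLinearMap.opNorm_comp_le _ _).trans ?_
  calc ‖re (Prod.swap : I × J → J × I)‖ * ‖(∑ i ∈ s, ten (a i) (b i)).comp (re (Prod.swap : J × I → I × J))‖
      ≤ 1 * (‖∑ i ∈ s, ten (a i) (b i)‖ * 1) := by
        refine mul_le_mul (norm_re_le Prod.swap_injective) ?_ (norm_nonneg _) zero_le_one
        refine (ContinuousLinearMap.opNorm_comp_le _ _).trans ?_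
        exact mul_le_mul_of_nonneg_left (norm_re_le Prod.swap_injective) (norm_nonneg _)
    _ = ‖∑ i ∈ s, ten (a i) (b i)‖ := by ring

theorem norm_swap {κ : Type*} (s : Finset κ) (a : κ → (H I →L[ℂ] H I)) (b : κ → (H J →L[ℂ] H J)) :
    ‖∑ i ∈ s, ten (b i) (a i)‖ = ‖∑ i ∈ s, ten (a i) (b i)‖ :=
  le_antisymm (norm_swap_le s a b) (norm_swap_le s b a)

theorem mintensor_sub {κ : Type*} (s : Finset κ) (AA : StarSubalgebra ℂ (H I →L[ℂ] H I))
    (hA : IsClosed (AA : Set (H I →L[ℂ] H I))) (π : AA →⋆ₐ[ℂ] (H I' →L[ℂ] H I')) (x : κ → AA)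
    (b : κ → (H J →L[ℂ] H J)) :
    ‖∑ i ∈ s, ten (π (x i)) (b i)‖ ≤ ‖∑ i ∈ s, ten (x i : H I →L[ℂ] H I) (b i)‖ := by
  have := hA
  exact mintensor s AA.subtype Subtype.val_injective π x b

theorem mintensor_sub' {κ : Type*} (s : Finset κ) (AA : StarSubalgebra ℂ (H I →L[ℂ] H I))
    (hA : IsClosed (AA : Set (H I →L[ℂ] H I))) (π : AA →⋆ₐ[ℂ] (H I' →L[ℂ] H I')) (x : κ → AA)
    (b : κ → (H J →L[ℂ] H J)) :
    ‖∑ i ∈ s, ten (b i) (π (x i))‖ ≤ ‖∑ i ∈ s, ten (b i) (x i : H I →L[ℂ] H I)‖ := by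
  rw [norm_swap s (fun i => π (x i)) b, norm_swap s (fun i => (x i : H I →L[ℂ] H I)) b]
  exact mintensor_sub s AA hA π x b

theorem mintensor_anti {κ : Type*} (s : Finset κ) (AA : StarSubalgebra ℂ (H I →L[ℂ] H I))
    (hA : IsClosed (AA : Set (H I →L[ℂ] H I))) (τ : AA →ₗ[ℂ] (H I' →L[ℂ] H I'))
    (hm : ∀ a b, τ (a * b) = τ b * τ a) (hs : ∀ a, τ (star a) = star (τ a)) (h1 : τ 1 = 1) (x : κ → AA)
    (b : κ → (H J →L[ℂ] H J)) :
    ‖∑ i ∈ s, ten (τ (x i)) (b i)‖ ≤ ‖∑ i ∈ s, ten (trp (x i : H I →L[ℂ] H I)) (b i)‖ := by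
  have := hA
  letI : CStarAlgebra AAᵐᵒᵖ := {}
  let ι : AAᵐᵒᵖ →⋆ₐ[ℂ] (H I →L[ℂ] H I) :=
    { toFun := fun a => trp (a.unop : H I →L[ℂ] H I)
      map_one' := trp_one
      map_mul' := fun a c => trp_mul _ _
      map_zero' := trp_zero
      map_add' := fun a c => trp_add _ _
      commutes' := fun c => by
        show trp (((algebraMap ℂ AA c : AA)) : H I →L[ℂ] H I) = _
        rw [Algebra.algebraMap_eq_smul_one, Algebra.algebraMap_eq_smul_one]
        show trp (c • (1 : H I →L[ℂ] H I)) = _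
        rw [trp_smul, trp_one]
      map_star' := fun a => trp_star _ }
  let π : AAᵐᵒᵖ →⋆ₐ[ℂ] (H I' →L[ℂ] H I') :=
    { toFun := fun a => τ a.unop
      map_one' := h1
      map_mul' := fun a c => hm _ _
      map_zero' := map_zero τ
      map_add' := fun a c => map_add τ _ _
      commutes' := fun c => by
        show τ (algebraMap ℂ AA c) = _
        rw [Algebra.algebraMap_eq_smul_one, Algebra.algebraMap_eq_smul_one, map_smul, h1]
      map_star' := fun a => hs _ }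
  have hι : Function.Injective ι := by
    intro a c h
    have h2 : trp (a.unop : H I →L[ℂ] H I) = trp (c.unop : H I →L[ℂ] H I) := h
    have h3 := congrArg trp h2
    rw [trp_trp, trp_trp] at h3
    exact MulOpposite.unop_injective (Subtype.ext h3)
  exact mintensor s ι hι π (fun i => MulOpposite.op (x i)) b

end OE
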