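import Mathlib
import Pool.Agent.Work.MP_06ef15_an.CD

/-!
# (9.2): `‖∑_{i<9} X_i ⊗ X_i‖ ≤ 8`

`X i = l_i + l_i†`, `l_i = Yc (inl i) 0`, `l_i† = Ya (inl i) 0` (`star_Yc`, `bar (inl i) = inl i`), `l_i† l_j = δ_ij`
(`star_Yc_mul_Yc`).

`norm_sum_isom_le`: `T = ∑ a_i`, `star T * T = ∑_{i,j} star a_i * a_j = card • 1`, `‖T‖² = ‖star T * T‖ ≤ card`
(C*-identity `CStarRing.norm_star_mul_self`).
`norm_sum_ranges_le`: `S = ∑ a_i * star a_i` satisfies `S * S = S`, `star S = S`, so `‖S‖² = ‖star S * S‖ = ‖S‖`, `‖S‖ ≤ 1`.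

`norm_sum_ten_X`: expand by `ten_add_left`, `ten_add_right` into four sums.
`∑ l_i ⊗ l_i` : the operators `a_i = ten l_i l_i` satisfy `star a_i * a_j = δ_ij` (`ten_adj`, `ten_mul`, `ten_one_one`), so the norm
is at most `√9 = 3`; `∑ l_i† ⊗ l_i†` is the adjoint, norm at most `3`.
`T = ∑ l_i ⊗ l_i†`: `star T * T = ∑_{i,j} (l_i† l_j) ⊗ (l_i l_j†) = ten 1 (∑ l_i l_i†)` has norm at most `1` (`norm_ten_le`), so `‖T‖ ≤ 1`;
`∑ l_i† ⊗ l_i` is its adjoint.  Total `3 + 3 + 1 + 1 = 8`.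
-/

set_option autoImplicit false

open scoped ComplexConjugate InnerProductSpace Classical
open ContinuousLinearMap (adjoint)

namespace OE

private theorem nstar {I : Type} (T : H I →L[ℂ] H I) : ‖star T‖ = ‖T‖ :=
  LinearIsometryEquiv.norm_map (ContinuousLinearMap.adjoint (𝕜 := ℂ) (E := H I) (F := H I)) T

private theorem star_mul_sum {I : Type} {κ : Type*} (s : Finset κ) (a : κ → (H I →L[ℂ] H I))
    (h : ∀ i ∈ s, ∀ j ∈ s, star (a i) * a j = if i = j then 1 else 0) :
    star (∑ i ∈ s, a i) * (∑ i ∈ s, a i) = (s.card : ℂ) • (1 : H I →L[ℂ] H I) := by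
  rw [star_sum, Finset.sum_mul_sum]
  have h1 : ∀ i ∈ s, ∑ j ∈ s, star (a i) * a j = (1 : H I →L[ℂ] H I) := by
    intro i hi
    rw [Finset.sum_congr rfl (fun j hj => h i hi j hj), Finset.sum_ite_eq, if_pos hi]
  rw [Finset.sum_congr rfl h1, Finset.sum_const, ← Nat.cast_smul_eq_nsmul ℂ]

private theorem sum_range_mul {I : Type} {κ : Type*} (s : Finset κ) (a : κ → (H I →L[ℂ] H I))
    (h : ∀ i ∈ s, ∀ j ∈ s, star (a i) * a j = if i = j then 1 else 0) :
    (∑ i ∈ s, a i * star (a i)) * (∑ i ∈ s, a i * star (a i)) = ∑ i ∈ s, a i * star (a i) := by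
  rw [Finset.sum_mul_sum]
  refine Finset.sum_congr rfl fun i hi => ?_
  have h1 : ∀ j ∈ s, a i * star (a i) * (a j * star (a j)) = if i = j then a i * star (a j) else 0 := by
    intro j hj
    rw [mul_assoc, ← mul_assoc (star (a i)), h i hi j hj]
    split_ifs
    · rw [one_mul]
    · rw [zero_mul, mul_zero]
  rw [Finset.sum_congr rfl h1, Finset.sum_ite_eq, if_pos hi]

theorem norm_sum_isom_le {I : Type} {κ : Type*} (s : Finset κ) (a : κ → (H I →L[ℂ] H I))
    (h : ∀ i ∈ s, ∀ j ∈ s, star (a i) * a j = if i = j then 1 else 0) : ‖∑ i ∈ s, a i‖ ≤ Real.sqrt s.card := by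
  refine Real.le_sqrt_of_sq_le ?_
  rw [sq, ← CStarRing.norm_star_mul_self, star_mul_sum s a h, norm_smul]
  calc ‖(s.card : ℂ)‖ * ‖(1 : H I →L[ℂ] H I)‖ ≤ (s.card : ℝ) * 1 := by
        gcongr
        · rw [Complex.norm_natCast]
        · exact ContinuousLinearMap.norm_id_le
    _ = s.card := mul_one _

theorem norm_sum_ranges_le {I : Type} {κ : Type*} (s : Finset κ) (a : κ → (H I →L[ℂ] H I))
    (h : ∀ i ∈ s, ∀ j ∈ s, star (a i) * a j = if i = j then 1 else 0) : ‖∑ i ∈ s, a i * star (a i)‖ ≤ 1 := by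
  have h1 : star (∑ i ∈ s, a i * star (a i)) = ∑ i ∈ s, a i * star (a i) := by
    rw [star_sum]
    refine Finset.sum_congr rfl fun i _ => ?_
    rw [star_mul, star_star]
  have h2 : ‖∑ i ∈ s, a i * star (a i)‖ * ‖∑ i ∈ s, a i * star (a i)‖ = ‖∑ i ∈ s, a i * star (a i)‖ := by
    rw [← CStarRing.norm_star_mul_self, h1, sum_range_mul s a h]
  by_contra hc
  push Not at hc
  nlinarith

private theorem ten_zero_left {I J : Type} (b : H J →L[ℂ] H J) : ten (0 : H I →L[ℂ] H I) b = 0 := by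
  have h1 := ten_sub_left (0 : H I →L[ℂ] H I) 0 b
  rwa [sub_self, sub_self] at h1

private theorem ten_zero_right {I J : Type} (a : H I →L[ℂ] H I) : ten a (0 : H J →L[ℂ] H J) = 0 := by
  have h1 := ten_sub_right a (0 : H J →L[ℂ] H J) 0
  rwa [sub_self, sub_self] at h1

private theorem ten_sum_right {I J : Type} {κ : Type*} (s : Finset κ) (a : H I →L[ℂ] H I)
    (b : κ → (H J →L[ℂ] H J)) : ten a (∑ i ∈ s, b i) = ∑ i ∈ s, ten a (b i) := by
  induction s using Finset.induction_on with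
  | empty => rw [Finset.sum_empty, Finset.sum_empty, ten_zero_right]
  | insert i s hi ih => rw [Finset.sum_insert hi, Finset.sum_insert hi, ten_add_right, ih]

private theorem ten_star {I J : Type} (a : H I →L[ℂ] H I) (b : H J →L[ℂ] H J) :
    star (ten a b) = ten (star a) (star b) := ten_adj a b

private noncomputable def ll (i : ℕ) : BH := Yc (Sum.inl i) 0

private theorem ll_rel (i j : ℕ) : star (ll i) * ll j = if i = j then 1 else 0 := by
  unfold ll
  rw [star_Yc_mul_Yc]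
  simp only [Sum.inl.injEq, and_true]

private theorem X_eq (i : ℕ) : X i = ll i + star (ll i) := by
  unfold X ll
  rw [star_Yc]
  rfl

private theorem n11 : ‖∑ i ∈ Finset.range 9, ten (ll i) (ll i)‖ ≤ 3 := by
  have h1 := norm_sum_isom_le (Finset.range 9) (fun i => ten (ll i) (ll i)) (by
    intro i _ j _
    rw [ten_star, ten_mul, ll_rel]
    split_ifs
    · rw [ten_one_one]
    · rw [ten_zero_left])
  rw [Finset.card_range] at h1
  refine h1.trans (le_of_eq ?_)
  rw [show ((9 : ℕ) : ℝ) = 3 ^ 2 by norm_num]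
  exact Real.sqrt_sq (by norm_num)

private theorem n22 : ‖∑ i ∈ Finset.range 9, ten (star (ll i)) (star (ll i))‖ ≤ 3 := by
  have h1 : ∑ i ∈ Finset.range 9, ten (star (ll i)) (star (ll i)) =
      star (∑ i ∈ Finset.range 9, ten (ll i) (ll i)) := by
    rw [star_sum]
    exact Finset.sum_congr rfl fun i _ => (ten_star _ _).symm
  rw [h1, nstar]
  exact n11

private theorem n12 : ‖∑ i ∈ Finset.range 9, ten (ll i) (star (ll i))‖ ≤ 1 := by
  have h1 : star (∑ i ∈ Finset.range 9, ten (ll i) (star (ll i))) *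
      (∑ i ∈ Finset.range 9, ten (ll i) (star (ll i))) =
      ten 1 (∑ i ∈ Finset.range 9, ll i * star (ll i)) := by
    rw [star_sum, Finset.sum_mul_sum, ten_sum_right]
    refine Finset.sum_congr rfl fun i hi => ?_
    have h2 : ∀ j ∈ Finset.range 9, star (ten (ll i) (star (ll i))) * ten (ll j) (star (ll j)) =
        if i = j then ten 1 (ll i * star (ll j)) else 0 := by
      intro j _
      rw [ten_star, star_star, ten_mul, ll_rel]
      split_ifs
      · rfl
      · rw [ten_zero_left]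
    rw [Finset.sum_congr rfl h2, Finset.sum_ite_eq, if_pos hi]
  have h2 : ‖∑ i ∈ Finset.range 9, ten (ll i) (star (ll i))‖ *
      ‖∑ i ∈ Finset.range 9, ten (ll i) (star (ll i))‖ ≤ 1 := by
    rw [← CStarRing.norm_star_mul_self, h1]
    calc _ ≤ ‖(1 : BH)‖ * ‖∑ i ∈ Finset.range 9, ll i * star (ll i)‖ := norm_ten_le _ _
      _ ≤ 1 * 1 := by
          gcongr
          · exact ContinuousLinearMap.norm_id_le
          · exact norm_sum_ranges_le (Finset.range 9) ll (fun i _ j _ => by rw [ll_rel]; congr 1)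
      _ = 1 := mul_one _
  nlinarith [norm_nonneg (∑ i ∈ Finset.range 9, ten (ll i) (star (ll i)))]

private theorem n21 : ‖∑ i ∈ Finset.range 9, ten (star (ll i)) (ll i)‖ ≤ 1 := by
  have h1 : ∑ i ∈ Finset.range 9, ten (star (ll i)) (ll i) =
      star (∑ i ∈ Finset.range 9, ten (ll i) (star (ll i))) := by
    rw [star_sum]
    refine Finset.sum_congr rfl fun i _ => ?_
    rw [ten_star, star_star]
  rw [h1, nstar]
  exact n12

theorem norm_sum_ten_X : ‖∑ i ∈ Finset.range 9, ten (X i) (X i)‖ ≤ 8 := by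
  have h1 : ∑ i ∈ Finset.range 9, ten (X i) (X i) =
      ((∑ i ∈ Finset.range 9, ten (ll i) (ll i)) + ∑ i ∈ Finset.range 9, ten (ll i) (star (ll i))) +
      ((∑ i ∈ Finset.range 9, ten (star (ll i)) (ll i)) +
        ∑ i ∈ Finset.range 9, ten (star (ll i)) (star (ll i))) := by
    rw [← Finset.sum_add_distrib, ← Finset.sum_add_distrib, ← Finset.sum_add_distrib]
    refine Finset.sum_congr rfl fun i _ => ?_
    rw [X_eq, ten_add_left, ten_add_right, ten_add_right]
  rw [h1]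
  calc _ ≤ ‖(∑ i ∈ Finset.range 9, ten (ll i) (ll i)) +
        ∑ i ∈ Finset.range 9, ten (ll i) (star (ll i))‖ +
        ‖(∑ i ∈ Finset.range 9, ten (star (ll i)) (ll i)) +
        ∑ i ∈ Finset.range 9, ten (star (ll i)) (star (ll i))‖ := norm_add_le _ _
    _ ≤ (3 + 1) + (1 + 3) := add_le_add ((norm_add_le _ _).trans (add_le_add n11 n12))
        ((norm_add_le _ _).trans (add_le_add n21 n22))
    _ = 8 := by norm_num

end OE
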