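import Mathlib
import Pool.Agent.Work.MP_06ef15_an.O1
import Pool.Agent.Work.MP_06ef15_an.O3
import Pool.Agent.Work.MP_06ef15_an.O4
import Pool.Agent.Work.MP_06ef15_an.AN1

/-!
# (9.3): `‖∑_{i<9} a_i ⊗ ρ(a_i)‖ ≤ 8`, `a_i = σ⁻¹(X_i)`

`aa σ i = σ⁻¹(X_i)` as an operator.

Step 1 (first slot, anti-homomorphism `τ = A.subtype ∘ σ.g : A →ₗ B(H Idx)`, `mintensor_anti` with `AA = A`, `x i = XA i`,
`b i = rho (aa σ i)`):  `‖∑ ten (aa σ i) (rho (aa σ i))‖ ≤ ‖∑ ten (trp (X i)) (rho (aa σ i))‖ = ‖∑ ten (X i) (rho (aa σ i))‖` (`trp_X`).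

Step 2 (second slot): `π a = rho ((σ.g a : A) : BH)` is a unital *-homomorphism `A →⋆ₐ B(HH)`: `σ.g` and `rho` both reverse products
(`Anti.g_mul`, `Anti.g_star`, `Anti.g_one`, `rho_mul`, `rho_star`, `rho_one`, `rho_add`, `rho_smul`).  `mintensor_sub'` with `b i = X i`,
`x i = XA i`: `‖∑ ten (X i) (rho (aa σ i))‖ ≤ ‖∑ ten (X i) (X i)‖ ≤ 8` (`norm_sum_ten_X`).
-/

set_option autoImplicit false

open scoped ComplexConjugate InnerProductSpace Classical
open ContinuousLinearMap (adjoint)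

namespace OE

/-- `σ⁻¹(X_i)`. -/
noncomputable def aa (σ : Anti) (i : ℕ) : BH := ((σ.g (XA i) : A) : BH)

theorem norm_aa_le (σ : Anti) (i : ℕ) : ‖aa σ i‖ ≤ 2 := by
  have h1 : ‖aa σ i‖ = ‖XA i‖ := σ.norm_g (XA i)
  rw [h1]
  exact norm_X_le i

/-- `a ↦ σ⁻¹ a` as a linear map into the operators. -/
private noncomputable def tau5 (σ : Anti) : A →ₗ[ℂ] BH where
  toFun := fun a => ((σ.g a : A) : BH)
  map_add' := fun a b => by rw [map_add]; rfl
  map_smul' := fun c a => by rw [map_smul]; rfl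

/-- `a ↦ rho (σ⁻¹ a)`. -/
private noncomputable def pi5 (σ : Anti) : A →⋆ₐ[ℂ] (HH →L[ℂ] HH) where
  toFun := fun a => rho ((σ.g a : A) : BH)
  map_one' := by
    rw [σ.g_one]
    exact rho_one
  map_mul' := fun a b => by
    rw [σ.g_mul]
    exact rho_mul _ _
  map_zero' := by
    rw [map_zero]
    exact rho_zero
  map_add' := fun a b => by
    rw [map_add]
    exact rho_add _ _
  commutes' := fun c => by
    rw [Algebra.algebraMap_eq_smul_one, Algebra.algebraMap_eq_smul_one, map_smul, σ.g_one]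
    have h : rho (((c • (1 : A) : A)) : BH) = c • rho 1 := rho_smul c 1
    rw [h, rho_one]
  map_star' := fun a => by
    rw [σ.g_star]
    exact rho_star _

theorem norm_sum_ten_aa (σ : Anti) : ‖∑ i ∈ Finset.range 9, ten (aa σ i) (rho (aa σ i))‖ ≤ 8 := by
  have h1 := mintensor_anti (I := Idx) (J := Idx × Q) (I' := Idx) (Finset.range 9) A isClosed_A (tau5 σ)
    (fun a b => by
      show ((σ.g (a * b) : A) : BH) = _
      rw [σ.g_mul]
      rfl)
    (fun a => by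
      show ((σ.g (star a) : A) : BH) = _
      rw [σ.g_star]
      rfl)
    (by
      show ((σ.g 1 : A) : BH) = 1
      rw [σ.g_one]
      rfl) XA (fun i => rho (aa σ i))
  have h2 := mintensor_sub' (I := Idx) (I' := Idx × Q) (J := Idx) (Finset.range 9) A isClosed_A (pi5 σ) XA
    (fun i => X i)
  calc ‖∑ i ∈ Finset.range 9, ten (aa σ i) (rho (aa σ i))‖
      ≤ ‖∑ i ∈ Finset.range 9, ten (trp ((XA i : A) : BH)) (rho (aa σ i))‖ := h1
    _ = ‖∑ i ∈ Finset.range 9, ten (X i) (rho (aa σ i))‖ := by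
        congr 1
        refine Finset.sum_congr rfl fun i _ => ?_
        have h3 : trp ((XA i : A) : BH) = X i := trp_X i
        rw [h3]
    _ ≤ ‖∑ i ∈ Finset.range 9, ten (X i) (X i)‖ := h2
    _ ≤ 8 := norm_sum_ten_X

end OE
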