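import Mathlib
import Pool.Agent.Work.MP_06ef15_an.O5
import Pool.Agent.Work.MP_06ef15_an.O12

/-!
# (9.5): the Akemann-Ostrand inequality

`δ = ε / 36`.  `approx_fw` for the finite set of the `σ.g (XA i)`, `i < 9`, and `δ`: parameters `k, L, K0, M0`.  By `exists_DD` and
`norm_comp_compl_mono` there is one `K` with `‖(DD (aa σ i)) prᶜ_K‖ ≤ δ` for all `i < 9`.

`η` a unit vector, `η' = pr (EK K)ᶜ η`, `η = pr (EK K) η + η'`, `‖η'‖ ≤ 1`, `T_i = lamb (aa σ i) * rho (aa σ i)`, `‖T_i‖ ≤ 4`: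
`|⟪η, T_i η⟫ - ⟪η', T_i η'⟫| = |⟪pr η, T_i η⟫ + ⟪η', T_i (pr η)⟫| ≤ 8 ‖pr (EK K) η‖`.
`⟪η', T_i η'⟫ = ⟪ZZ η', ZZ (T_i η')⟫` (`inner_ZZ`), `‖ZZ lamb(a) (rho(a) η') - (amp a) ZZ rho(a) η'‖ ≤ 2 δ` (`ZZ_lamb`),
`‖(amp a) (ZZ rho(a) η' - (1 ⊗ rho a) ZZ η')‖ ≤ 2 δ` (`DD`, `η' = prᶜ η'`), and `(amp a) (ampR (rho a)) = ten a (rho a)` (`ten_eq`).
So `Re ∑ ⟪η, T_i η⟫ ≤ Re ⟪ZZ η', (∑ ten (aa σ i) (rho (aa σ i))) ZZ η'⟫ + 9 * 4 δ + 72 ‖pr (EK K) η‖ ≤ 8 + ε + 200 ‖pr (EK K) η‖`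
(`norm_sum_ten_aa`, `norm_ZZ`).
-/

set_option autoImplicit false

open scoped ComplexConjugate InnerProductSpace Classical
open ContinuousLinearMap (adjoint)

namespace OE

private theorem abs_re_inner_le {E : Type*} [NormedAddCommGroup E] [InnerProductSpace ℂ E] (x y : E)
    {a b : ℝ} (hx : ‖x‖ ≤ a) (hy : ‖y‖ ≤ b) (ha : 0 ≤ a) : (⟪x, y⟫_ℂ).re ≤ a * b :=
  (Complex.re_le_norm _).trans ((norm_inner_le_norm x y).trans
    (mul_le_mul hx hy (norm_nonneg _) ha))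

theorem ao_ineq (σ : Anti) {ε : ℝ} (hε : 0 < ε) : ∃ K : ℕ, ∀ η : HH, ‖η‖ = 1 →
    (∑ i ∈ Finset.range 9, ⟪η, lamb (aa σ i) (rho (aa σ i) η)⟫_ℂ).re ≤ 8 + ε + 200 * ‖pr (EK K) η‖ := by
  have hδ : 0 < ε / 36 := by positivity
  obtain ⟨k, L, K0, M0, hL, hM0, -, hF⟩ :=
    approx_fw ((Finset.range 9).image fun i => σ.g (XA i)) 0 (ε / 36) hδ
  have hw := isWeight_fw K0 hM0
  choose Kf hKf using fun i : ℕ => exists_DD (k := k) (L := L) (K0 := K0) (M0 := M0) hL hM0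
    (b := aa σ i) (σ.g (XA i)).2 hδ
  obtain ⟨K, hKdef⟩ : ∃ K, K = (Finset.range 9).sup Kf := ⟨_, rfl⟩
  have hK : ∀ i ∈ Finset.range 9,
      ‖(DD k L (fw K0 M0) (aa σ i)).comp (pr (EK K)ᶜ)‖ ≤ ε / 36 := fun i hi =>
    (norm_comp_compl_mono _ (by rw [hKdef]; exact Finset.le_sup hi)).trans (hKf i)
  have hZ : ∀ i ∈ Finset.range 9, ‖(ZZ k L (fw K0 M0)).comp (lamb (aa σ i)) -
      (amp (Idx × Q) (aa σ i)).comp (ZZ k L (fw K0 M0))‖ ≤ ε / 36 := fun i hi =>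
    (ZZ_lamb _ _ _ _).trans (hF _ (Finset.mem_image_of_mem _ hi))
  refine ⟨K, fun η hη => ?_⟩
  obtain ⟨p, hp⟩ : ∃ p, p = pr (EK K) η := ⟨_, rfl⟩
  obtain ⟨η', hη'⟩ : ∃ η', η' = pr (EK K)ᶜ η := ⟨_, rfl⟩
  obtain ⟨Z, hZdef⟩ : ∃ Z, Z = ZZ k L (fw K0 M0) := ⟨_, rfl⟩
  have hsum : η = p + η' := by
    rw [hp, hη']
    exact (DFunLike.congr_fun (pr_add_compl (EK K)) η).symm
  have hn' : ‖η'‖ ≤ 1 := by
    rw [hη']
    refine (ContinuousLinearMap.le_opNorm _ _).trans ?_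
    rw [hη, mul_one]
    exact norm_pr_le _
  have hZn : ‖Z η'‖ ≤ 1 := by
    rw [hZdef, norm_ZZ hL hw]
    exact hn'
  have hlam : ∀ (i : ℕ) (v : HH), ‖lamb (aa σ i) v‖ ≤ 2 * ‖v‖ := by
    intro i v
    refine (ContinuousLinearMap.le_opNorm _ _).trans ?_
    rw [norm_lamb]
    exact mul_le_mul_of_nonneg_right (norm_aa_le σ i) (norm_nonneg _)
  have hrho : ∀ (i : ℕ) (v : HH), ‖rho (aa σ i) v‖ ≤ 2 * ‖v‖ := by
    intro i v
    refine (ContinuousLinearMap.le_opNorm _ _).trans ?_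
    rw [norm_rho]
    exact mul_le_mul_of_nonneg_right (norm_aa_le σ i) (norm_nonneg _)
  have hT : ∀ (i : ℕ) (v : HH), ‖lamb (aa σ i) (rho (aa σ i) v)‖ ≤ 4 * ‖v‖ := by
    intro i v
    have h1 := hlam i (rho (aa σ i) v)
    have h2 := hrho i v
    linarith
  have key : ∀ i ∈ Finset.range 9, (⟪η, lamb (aa σ i) (rho (aa σ i) η)⟫_ℂ).re ≤
      (⟪Z η', ten (aa σ i) (rho (aa σ i)) (Z η')⟫_ℂ).re + 4 * (ε / 36) + 8 * ‖p‖ := by
    intro i hi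
    -- split off the part in the finite window
    have h1 : ⟪η, lamb (aa σ i) (rho (aa σ i) η)⟫_ℂ =
        ⟪p, lamb (aa σ i) (rho (aa σ i) η)⟫_ℂ + ⟪η', lamb (aa σ i) (rho (aa σ i) p)⟫_ℂ +
          ⟪η', lamb (aa σ i) (rho (aa σ i) η')⟫_ℂ := by
      have h2 : lamb (aa σ i) (rho (aa σ i) η) =
          lamb (aa σ i) (rho (aa σ i) p) + lamb (aa σ i) (rho (aa σ i) η') := by
        rw [← map_add, ← map_add, ← hsum]
      have h3 : ⟪η, lamb (aa σ i) (rho (aa σ i) η)⟫_ℂ =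
          ⟪p, lamb (aa σ i) (rho (aa σ i) η)⟫_ℂ + ⟪η', lamb (aa σ i) (rho (aa σ i) η)⟫_ℂ := by
        conv_lhs => rw [hsum]
        rw [inner_add_left, ← hsum]
      rw [h3, add_assoc, ← inner_add_right, ← h2]
    have h4 : (⟪p, lamb (aa σ i) (rho (aa σ i) η)⟫_ℂ).re ≤ ‖p‖ * 4 :=
      abs_re_inner_le _ _ le_rfl ((hT i η).trans (by rw [hη, mul_one])) (norm_nonneg _)
    have h5 : (⟪η', lamb (aa σ i) (rho (aa σ i) p)⟫_ℂ).re ≤ 1 * (4 * ‖p‖) :=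
      abs_re_inner_le _ _ hn' (hT i p) zero_le_one
    -- the splitting isometry
    obtain ⟨e1, he1⟩ : ∃ e1, e1 = Z (lamb (aa σ i) (rho (aa σ i) η')) -
        amp (Idx × Q) (aa σ i) (Z (rho (aa σ i) η')) := ⟨_, rfl⟩
    obtain ⟨e2, he2⟩ : ∃ e2, e2 = Z (rho (aa σ i) η') - ampR Idx (rho (aa σ i)) (Z η') := ⟨_, rfl⟩
    have hn1 : ‖e1‖ ≤ 2 * (ε / 36) := by
      have h6 : e1 = ((ZZ k L (fw K0 M0)).comp (lamb (aa σ i)) -
          (amp (Idx × Q) (aa σ i)).comp (ZZ k L (fw K0 M0))) (rho (aa σ i) η') := by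
        rw [he1, hZdef]
        rfl
      rw [h6]
      refine (ContinuousLinearMap.le_opNorm _ _).trans ?_
      have h7 := hrho i η'
      calc _ ≤ (ε / 36) * 2 := mul_le_mul (hZ i hi) (by linarith) (norm_nonneg _) hδ.le
        _ = 2 * (ε / 36) := by ring
    have hn2 : ‖e2‖ ≤ ε / 36 := by
      have h6 : e2 = ((DD k L (fw K0 M0) (aa σ i)).comp (pr (EK K)ᶜ)) η := by
        rw [he2, hZdef, hη']
        rfl
      rw [h6]
      refine (ContinuousLinearMap.le_opNorm _ _).trans ?_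
      rw [hη, mul_one]
      exact hK i hi
    have hn3 : ‖amp (Idx × Q) (aa σ i) e2‖ ≤ 2 * (ε / 36) := by
      refine (ContinuousLinearMap.le_opNorm _ _).trans ?_
      exact mul_le_mul ((norm_amp_le _).trans (norm_aa_le σ i)) hn2 (norm_nonneg _) (by norm_num)
    have h8 : Z (lamb (aa σ i) (rho (aa σ i) η')) =
        ten (aa σ i) (rho (aa σ i)) (Z η') + (amp (Idx × Q) (aa σ i) e2 + e1) := by
      rw [ten_eq]
      show _ = amp (Idx × Q) (aa σ i) (ampR Idx (rho (aa σ i)) (Z η')) + _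
      rw [he1, he2, map_sub]
      abel
    have h9 : ⟪η', lamb (aa σ i) (rho (aa σ i) η')⟫_ℂ =
        ⟪Z η', Z (lamb (aa σ i) (rho (aa σ i) η'))⟫_ℂ := by
      rw [hZdef, inner_ZZ hL hw]
    have h10 : (⟪Z η', amp (Idx × Q) (aa σ i) e2 + e1⟫_ℂ).re ≤ 1 * (4 * (ε / 36)) :=
      abs_re_inner_le _ _ hZn ((norm_add_le _ _).trans (by linarith)) zero_le_one
    rw [h1, Complex.add_re, Complex.add_re, h9, h8, inner_add_right, Complex.add_re]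
    linarith
  have hten : (∑ i ∈ Finset.range 9, (⟪Z η', ten (aa σ i) (rho (aa σ i)) (Z η')⟫_ℂ).re) ≤ 8 := by
    have h1 : (∑ i ∈ Finset.range 9, (⟪Z η', ten (aa σ i) (rho (aa σ i)) (Z η')⟫_ℂ).re) =
        (⟪Z η', (∑ i ∈ Finset.range 9, ten (aa σ i) (rho (aa σ i))) (Z η')⟫_ℂ).re := by
      rw [ContinuousLinearMap.sum_apply, inner_sum, Complex.re_sum]
    rw [h1]
    have h2 : ‖(∑ i ∈ Finset.range 9, ten (aa σ i) (rho (aa σ i))) (Z η')‖ ≤ 8 := by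
      refine (ContinuousLinearMap.le_opNorm _ _).trans ?_
      calc _ ≤ (8 : ℝ) * 1 := mul_le_mul (norm_sum_ten_aa σ) hZn (norm_nonneg _) (by norm_num)
        _ = 8 := by ring
    have h3 := abs_re_inner_le _ _ hZn h2 zero_le_one
    linarith
  rw [Complex.re_sum]
  have hfin := Finset.sum_le_sum key
  rw [Finset.sum_add_distrib, Finset.sum_add_distrib, Finset.sum_const, Finset.sum_const,
    Finset.card_range, nsmul_eq_mul, nsmul_eq_mul] at hfin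
  have hp0 : 0 ≤ ‖p‖ := norm_nonneg _
  rw [← hp]
  push_cast at hfin
  linarith

end OE
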