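import Mathlib
import Pool.Agent.Work.MP_06ef15_an.AN0

/-!
# (10.1), part 1: Wick words on vacuum vectors, blocks of an operator commuting with the translation

`oWt_mem`: two-step recursion (as in the definition of `Wt`).
`oWt_vac`: `Wt u e([],(v,(n,m))) = ch(xf v * dgw u) e(sh (-n) u, (v,(n,m)))`.  Recursion: `Wt [] = 1`, `Wt [a] = Y a`, (`Y_e_nil`, `sh (-n) [a] = [(a.1,a.2-n)]`),
`Wt (a :: b :: w) = Y a * Wt (b :: w) - [b = (bar a.1,a.2)] Wt w`: by `Y_e_cons` `Y a e(sh (-n) (b :: w))` is the creation term plus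
`[(b.1,b.2-n) = (bar a.1,a.2-n)] ch(xf v * dg1 a.1) e(sh (-n) w)`, and the phases match: `dg1 (bar a.1) = - dg1 a.1` (`dg1_bar`, `dgw_cons`, `ch_add`).

`norm_mul_block`: `B_n = {x | x.1 = [] ∧ x.2.2.1 = n}`.  `Ut * pr B_n = pr B_{n+1} * Ut` (basis vectors, `Ut_e`; `sh (-1) w = []` iff `w = []`).  `Ut` is unitary
(`star_Ut_mul`, `Ut_mul_star`) and commutes with `f`: `‖f pr B_{n+1}‖ = ‖f pr B_{n+1} Ut‖ = ‖f Ut pr B_n‖ = ‖Ut f pr B_n‖ = ‖f pr B_n‖`.  Induction over `ℤ`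
(`Int.induction_on`); `pr B_0 = PB`.

`norm_mul_word`: `J = Wt u * pr B_n` maps `e([],(v,(n,m)))` to `phase e(sh (-n) u,(v,(n,m)))` and the other basis vectors to `0`, so `‖J‖ ≤ 1`
(`norm_le_of_ortho`) and `J * star J = pr {x | x.1 = sh (-n) u ∧ x.2.2.1 = n}` (`adj_coef`).  So `f * pr {..} = (f * Wt u * pr B_n) * star J` and
`f * Wt u * pr B_n = (f Wt u - Wt u f) pr B_n + Wt u (f pr B_n)`.
-/

set_option autoImplicit false

open scoped ComplexConjugate InnerProductSpace Classical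
open ContinuousLinearMap (adjoint)

namespace OE

private theorem mulE (S S' : BH) (x : H Idx) : (S * S') x = S (S' x) := rfl
private theorem subE (S S' : BH) (x : H Idx) : (S - S') x = S x - S' x := rfl

private theorem Y_mem' (t : T) (k : ℤ) : Y t k ∈ A := Y_mem t k

private theorem wtm : ∀ u : W, Wt u ∈ A
  | [] => A.one_mem
  | [a] => Y_mem a.1 a.2
  | a :: b :: w => by
      have h1 : Wt (a :: b :: w) = Y a.1 a.2 * Wt (b :: w) - (if b = (bar a.1, a.2) then Wt w else 0) := by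
        rw [Wt]
      rw [h1]
      refine A.sub_mem (A.mul_mem (Y_mem _ _) (wtm (b :: w))) ?_
      split_ifs
      · exact wtm w
      · exact A.zero_mem

theorem oWt_mem (u : W) : Wt u ∈ A := wtm u

private theorem wtv (v : V) (n : ℤ) (m : M) : ∀ u : W,
    Wt u (e (([] : W), (v, (n, m)))) = ch (xf v * dgw u) • e (sh (-n) u, (v, (n, m)))
  | [] => by
      rw [dgw_nil, mul_zero, ch_zero, one_smul, sh_nil]
      rfl
  | [a] => by
      have h1 : Wt [a] = Y a.1 a.2 := by rw [Wt]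
      rw [h1, Y_e_nil, dgw_cons, dgw_nil, add_zero, sh_cons, sh_nil, sub_eq_add_neg]
  | a :: b :: w => by
      have h1 : Wt (a :: b :: w) = Y a.1 a.2 * Wt (b :: w) - (if b = (bar a.1, a.2) then Wt w else 0) := by
        rw [Wt]
      rw [h1, subE, mulE, wtv v n m (b :: w), map_smul, sh_cons (-n) b w, Y_e_cons, smul_add, smul_smul, ← ch_add]
      have h2 : sh (-n) (a :: b :: w) = (a.1, a.2 - n) :: (b.1, b.2 + -n) :: sh (-n) w := by
        rw [sh_cons, sh_cons, sub_eq_add_neg]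
      rw [h2, dgw_cons a]
      by_cases hb : b = (bar a.1, a.2)
      · rw [if_pos hb, if_pos (by rw [hb, sub_eq_add_neg]), wtv v n m w, smul_smul, ← ch_add]
        have h3 : xf v * dgw (b :: w) + xf v * dg1 a.1 = xf v * dgw w := by
          rw [dgw_cons, hb, dg1_bar]
          ring
        rw [h3, add_sub_cancel_right]
        congr 2
        rw [← h3]
        ring
      · have hb' : ¬ ((b.1, b.2 + -n) = (bar a.1, a.2 - n)) := by
          intro h4
          apply hb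
          rw [Prod.mk.injEq] at h4
          refine Prod.ext h4.1 ?_
          have := h4.2
          show b.2 = a.2
          linarith
        rw [if_neg hb, if_neg hb', smul_zero, add_zero]
        have h5 : ((0 : BH) (e (([] : W), (v, (n, m))))) = 0 := rfl
        rw [h5, sub_zero]
        congr 2
        ring

theorem oWt_vac (u : W) (v : V) (n : ℤ) (m : M) :
    Wt u (e (([] : W), (v, (n, m)))) = ch (xf v * dgw u) • e (sh (-n) u, (v, (n, m))) := wtv v n m u

private theorem norm_le_one_of {S : BH} (h : star S * S = 1) : ‖S‖ ≤ 1 := by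
  have h1 : ‖S‖ * ‖S‖ ≤ 1 := by
    rw [← CStarRing.norm_star_mul_self, h]
    exact ContinuousLinearMap.norm_id_le
  nlinarith [norm_nonneg S]

private theorem nUt : ‖Ut‖ ≤ 1 := norm_le_one_of star_Ut_mul

private theorem nUt' : ‖star Ut‖ ≤ 1 := by
  refine norm_le_one_of ?_
  rw [star_star]
  exact Ut_mul_star

private theorem nml {x y : BH} (hx : ‖x‖ ≤ 1) : ‖x * y‖ ≤ ‖y‖ := by
  calc ‖x * y‖ ≤ ‖x‖ * ‖y‖ := norm_mul_le _ _
    _ ≤ 1 * ‖y‖ := mul_le_mul_of_nonneg_right hx (norm_nonneg _)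
    _ = ‖y‖ := one_mul _

private theorem nmr {x y : BH} (hy : ‖y‖ ≤ 1) : ‖x * y‖ ≤ ‖x‖ := by
  calc ‖x * y‖ ≤ ‖x‖ * ‖y‖ := norm_mul_le _ _
    _ ≤ ‖x‖ * 1 := mul_le_mul_of_nonneg_left hy (norm_nonneg _)
    _ = ‖x‖ := mul_one _

private def Bn (n : ℤ) : Set Idx := {x : Idx | x.1 = [] ∧ x.2.2.1 = n}

private theorem Ut_Bn (n : ℤ) : Ut * pr (Bn n) = pr (Bn (n + 1)) * Ut := by
  refine ext_idx fun w v k m => ?_
  rw [mulE, mulE, Ut_e, pr_e, pr_e]
  have h1 : ((w, (v, (k, m))) : Idx) ∈ Bn n ↔ ((sh (-1) w, (v, (k + 1, m))) : Idx) ∈ Bn (n + 1) := by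
    show (w = [] ∧ k = n) ↔ (sh (-1) w = [] ∧ k + 1 = n + 1)
    have h2 : sh (-1) w = [] ↔ w = [] := by
      rw [← List.length_eq_zero_iff, length_sh, List.length_eq_zero_iff]
    rw [h2, add_left_inj]
  by_cases h : ((w, (v, (k, m))) : Idx) ∈ Bn n
  · rw [if_pos h, if_pos (h1.1 h), Ut_e]
  · rw [if_neg h, if_neg (fun h3 => h (h1.2 h3)), map_zero]

private theorem step (f : BH) (hf : Ut * f = f * Ut) (n : ℤ) : ‖f * pr (Bn (n + 1))‖ = ‖f * pr (Bn n)‖ := by
  have h1 : f * pr (Bn (n + 1)) * Ut = Ut * (f * pr (Bn n)) := by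
    rw [mul_assoc, ← Ut_Bn, ← mul_assoc, ← hf, mul_assoc]
  refine le_antisymm ?_ ?_
  · have h2 : f * pr (Bn (n + 1)) = Ut * (f * pr (Bn n)) * star Ut := by
      rw [← h1, mul_assoc, Ut_mul_star, mul_one]
    rw [h2]
    exact (nmr nUt').trans (nml nUt)
  · have h2 : f * pr (Bn n) = star Ut * (f * pr (Bn (n + 1)) * Ut) := by
      rw [h1, ← mul_assoc, star_Ut_mul, one_mul]
    rw [h2]
    exact (nml nUt').trans (nmr nUt)

private theorem block (f : BH) (hf : Ut * f = f * Ut) (n : ℤ) : ‖f * pr (Bn n)‖ = ‖f * pr (Bn 0)‖ := by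
  induction n using Int.induction_on with
  | zero => rfl
  | succ i ih => rw [step f hf, ih]
  | pred i ih =>
    rw [← ih, ← step f hf (-(i : ℤ) - 1)]
    congr 3
    congr 1
    ring

theorem norm_mul_block (f : BH) (hf : Ut * f = f * Ut) (n : ℤ) :
    ‖f * pr {x : Idx | x.1 = [] ∧ x.2.2.1 = n}‖ = ‖f * PB‖ := block f hf n

private noncomputable def JJ (u : W) (n : ℤ) : BH := Wt u * pr (Bn n)

private def Sn (u : W) (n : ℤ) : Set Idx := {x : Idx | x.1 = sh (-n) u ∧ x.2.2.1 = n}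

private theorem JJ_e (u : W) (n : ℤ) (w : W) (v : V) (k : ℤ) (m : M) :
    JJ u n (e (w, (v, (k, m)))) =
      if w = [] ∧ k = n then ch (xf v * dgw u) • e (sh (-n) u, (v, (n, m))) else 0 := by
  unfold JJ
  rw [mulE, pr_e]
  by_cases h : w = [] ∧ k = n
  · rw [if_pos h, if_pos (show ((w, (v, (k, m))) : Idx) ∈ Bn n from h)]
    obtain ⟨rfl, rfl⟩ := h
    rw [oWt_vac]
  · rw [if_neg h, if_neg (show ¬ ((w, (v, (k, m))) : Idx) ∈ Bn n from h), map_zero]

private theorem smul_coef (a : ℂ) (x : H Idx) (i : Idx) :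
    ((a • x : H Idx) : Idx → ℂ) i = a * (x : Idx → ℂ) i := rfl

private theorem star_JJ_e (u : W) (n : ℤ) (w : W) (v : V) (k : ℤ) (m : M) :
    star (JJ u n) (e (w, (v, (k, m)))) =
      if w = sh (-n) u ∧ k = n then conj (ch (xf v * dgw u)) • e (([] : W), (v, (n, m))) else 0 := by
  refine ext_pt ?_
  rintro ⟨w', v', k', m'⟩
  show (adjoint (JJ u n) (e (w, (v, (k, m)))) : Idx → ℂ) (w', (v', (k', m'))) = _
  rw [adj_coef, JJ_e]
  by_cases h : w = sh (-n) u ∧ k = n
  · rw [if_pos h, smul_coef]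
    obtain ⟨rfl, rfl⟩ := h
    by_cases h2 : w' = [] ∧ k' = k
    · rw [if_pos h2, smul_coef, e_apply, e_apply]
      obtain ⟨rfl, rfl⟩ := h2
      by_cases h3 : v = v' ∧ m = m'
      · obtain ⟨rfl, rfl⟩ := h3
        rw [if_pos rfl, if_pos rfl, mul_one, mul_one]
      · rw [if_neg, if_neg, mul_zero, mul_zero, map_zero]
        · intro h4
          simp only [Prod.mk.injEq, true_and] at h4
          exact h3 ⟨h4.1.symm, h4.2.symm⟩
        · intro h4
          simp only [Prod.mk.injEq, true_and] at h4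
          exact h3 h4
    · rw [if_neg h2, e_apply, if_neg, mul_zero]
      · exact map_zero _
      · intro h4
        simp only [Prod.mk.injEq] at h4
        exact h2 ⟨h4.1, h4.2.2.1⟩
  · rw [if_neg h]
    by_cases h2 : w' = [] ∧ k' = n
    · rw [if_pos h2, smul_coef, e_apply, if_neg, mul_zero, map_zero]
      · rfl
      · intro h4
        simp only [Prod.mk.injEq] at h4
        exact h ⟨h4.1, h4.2.2.1⟩
    · rw [if_neg h2]
      exact map_zero _

private theorem JJ_mul_star (u : W) (n : ℤ) : JJ u n * star (JJ u n) = pr (Sn u n) := by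
  refine ext_idx fun w v k m => ?_
  rw [mulE, star_JJ_e, pr_e]
  by_cases h : w = sh (-n) u ∧ k = n
  · rw [if_pos h, if_pos (show ((w, (v, (k, m))) : Idx) ∈ Sn u n from h), map_smul, JJ_e, if_pos ⟨rfl, rfl⟩,
      smul_smul, conj_mul_ch, one_smul]
    obtain ⟨rfl, rfl⟩ := h
    rfl
  · rw [if_neg h, if_neg (show ¬ ((w, (v, (k, m))) : Idx) ∈ Sn u n from h), map_zero]

private theorem norm_star_JJ (u : W) (n : ℤ) : ‖star (JJ u n)‖ ≤ 1 := by
  have h1 : ‖star (JJ u n)‖ * ‖star (JJ u n)‖ ≤ 1 := by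
    rw [← CStarRing.norm_star_mul_self, star_star, JJ_mul_star]
    exact norm_pr_le _
  nlinarith [norm_nonneg (star (JJ u n))]

theorem norm_mul_word (f : BH) (hf : Ut * f = f * Ut) (u : W) (n : ℤ) :
    ‖f * pr {x : Idx | x.1 = sh (-n) u ∧ x.2.2.1 = n}‖ ≤ ‖f * Wt u - Wt u * f‖ + ‖Wt u‖ * ‖f * PB‖ := by
  have h1 : f * pr {x : Idx | x.1 = sh (-n) u ∧ x.2.2.1 = n} = f * JJ u n * star (JJ u n) := by
    rw [mul_assoc, JJ_mul_star]
    rfl
  have h2 : f * JJ u n = (f * Wt u - Wt u * f) * pr (Bn n) + Wt u * (f * pr (Bn n)) := by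
    unfold JJ
    rw [sub_mul, mul_assoc (Wt u) f, sub_add_cancel, mul_assoc]
  rw [h1, ← norm_mul_block f hf n]
  refine (nmr (norm_star_JJ u n)).trans ?_
  rw [h2]
  exact (norm_add_le _ _).trans (add_le_add (nmr (norm_pr_le _)) (norm_mul_le _ _))

end OE
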