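import Mathlib
import Pool.Agent.Work.MP_06ef15_an.O1
import Pool.Agent.Work.MP_06ef15_an.O7
import Pool.Agent.Work.MP_06ef15_an.O14
import Pool.Agent.Work.MP_06ef15_an.CX

/-!
# (10.1), part 2: `‖lamb (f_n) P_K‖ → 0`

`finite_words`: finitely many types (`inl i` with `i < K`, `inr b`), finitely many labels, length at most `K`.
`exists_lamb_PK`: `F = (finite_words K).toFinset`.  `pr_union_le` with the index set `Finset.Icc (-K) K ×ˢ F` (first factor in `ℤ`, `2 K + 1` elements) and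
`s (j,u) = {x : Idx × Q | x.1.1 = sh (-(x.2.2.1 + j)) u ∧ x.1.2.2.1 = x.2.2.1 + j}`.  Covering: `x ∈ EK K`, `n = x.1.2.2.1`: `j = n - x.2.2.1`, `u = sh n x.1.1`
(`sh_sh`, `sh_zero`; a letter of `u` is `(a.1, a.2 + n)` with `win K n a`).  Each term: `lamb f = amp Q f`, `norm_amp_pr_le` with
`s q = {x : Idx | x.1 = sh (-(q.2.1 + j)) u ∧ x.2.2.1 = q.2.1 + j}` and `norm_mul_word`.
`lamb_PK_tendsto`: `Ut_A`; each of the finitely many terms tends to `0` (`NC` for `⟨Wt u, oWt_mem u⟩`; the norm of `A` is the operator norm).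
-/

set_option autoImplicit false

open scoped ComplexConjugate InnerProductSpace Classical Topology
open Filter
open ContinuousLinearMap (adjoint)

namespace OE

private theorem finite_letters (K : ℕ) : {a : Lam | win K 0 a}.Finite := by
  have h : {a : Lam | win K 0 a} ⊆
      (((Finset.range K).image (fun i => (Sum.inl i : T))) ∪ {Sum.inr true, Sum.inr false} : Finset T) ×ˢ
        (Finset.Icc (-(K : ℤ)) K : Finset ℤ) := by
    rintro ⟨t, l⟩ ⟨h1, h2⟩
    have h3 : -(K : ℤ) ≤ l ∧ l ≤ K := by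
      have := abs_le.1 h2
      constructor <;> linarith [this.1, this.2]
    refine Set.mem_prod.2 ⟨?_, ?_⟩
    · rcases t with i | b
      · have h4 : i < K := h1
        simp [h4]
      · cases b <;> simp
    · simpa using h3
  exact Set.Finite.subset (Finset.finite_toSet _ |>.prod (Finset.finite_toSet _)) h

theorem finite_words (K : ℕ) : {u : W | u.length ≤ K ∧ ∀ a ∈ u, win K 0 a}.Finite := by
  have hS := finite_letters K
  have : Finite {a : Lam | win K 0 a} := hS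
  have h1 : {l : List {a : Lam | win K 0 a} | l.length ≤ K}.Finite := List.finite_length_le _ K
  refine (h1.image (List.map Subtype.val)).subset ?_
  rintro u ⟨hu, hw⟩
  refine ⟨u.attach.map (fun a => ⟨a.1, hw a.1 a.2⟩), ?_, ?_⟩
  · show (u.attach.map (fun a => (⟨a.1, hw a.1 a.2⟩ : {a : Lam | win K 0 a}))).length ≤ K
    rw [List.length_map, List.length_attach]
    exact hu
  · rw [List.map_map]
    exact List.attach_map_subtype_val u

private theorem block_bound (f : BH) (hf : Ut * f = f * Ut) (j : ℤ) (u : W) :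
    ‖(lamb f).comp (pr {x : Idx × Q | x.1.1 = sh (-(x.2.2.1 + j)) u ∧ x.1.2.2.1 = x.2.2.1 + j})‖ ≤
      ‖f * Wt u - Wt u * f‖ + ‖Wt u‖ * ‖f * PB‖ := by
  have h := norm_amp_pr_le (K := Q) f (fun q : Q => {x : Idx | x.1 = sh (-(q.2.1 + j)) u ∧ x.2.2.1 = q.2.1 + j})
    (c := ‖f * Wt u - Wt u * f‖ + ‖Wt u‖ * ‖f * PB‖) (by positivity)
    (fun q => norm_mul_word f hf u (q.2.1 + j))
  exact h

theorem exists_lamb_PK (K : ℕ) : ∃ F : Finset W, ∀ f : BH, Ut * f = f * Ut →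
    ‖lamb f * pr (EK K)‖ ≤ (2 * K + 1) * ∑ u ∈ F, (‖f * Wt u - Wt u * f‖ + ‖Wt u‖ * ‖f * PB‖) := by
  refine ⟨(finite_words K).toFinset, fun f hf => ?_⟩
  have h := pr_union_le ((Finset.Icc (-(K : ℤ)) K) ×ˢ (finite_words K).toFinset)
    (fun p : ℤ × W => {x : Idx × Q | x.1.1 = sh (-(x.2.2.1 + p.1)) p.2 ∧ x.1.2.2.1 = x.2.2.1 + p.1})
    (lamb f) (EK K) (by
      intro x hx
      obtain ⟨h1, h2, h3⟩ := hx
      refine ⟨(x.1.2.2.1 - x.2.2.1, sh x.1.2.2.1 x.1.1), ?_, ?_, ?_⟩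
      · have h4 := abs_le.1 h1
        rw [Finset.mem_product, Finset.mem_Icc, Set.Finite.mem_toFinset]
        refine ⟨⟨h4.1, h4.2⟩, ?_, ?_⟩
        · rw [length_sh]; exact h2
        · intro a ha
          obtain ⟨b, hb, rfl⟩ := List.mem_map.1 ha
          have h5 := h3 b hb
          refine ⟨h5.1, ?_⟩
          have h6 := h5.2
          show |b.2 + x.1.2.2.1 + 0| ≤ (K : ℤ)
          rw [add_zero]
          exact h6
      · show x.1.1 = sh (-(x.2.2.1 + (x.1.2.2.1 - x.2.2.1))) (sh x.1.2.2.1 x.1.1)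
        rw [sh_sh]
        have h7 : x.1.2.2.1 + -(x.2.2.1 + (x.1.2.2.1 - x.2.2.1)) = 0 := by ring
        rw [h7, sh_zero]
      · show x.1.2.2.1 = x.2.2.1 + (x.1.2.2.1 - x.2.2.1)
        ring)
  have h2 : ‖lamb f * pr (EK K)‖ ≤ ∑ p ∈ (Finset.Icc (-(K : ℤ)) K) ×ˢ (finite_words K).toFinset,
      (‖f * Wt p.2 - Wt p.2 * f‖ + ‖Wt p.2‖ * ‖f * PB‖) :=
    h.trans (Finset.sum_le_sum (fun p _ => block_bound f hf p.1 p.2))
  refine h2.trans (le_of_eq ?_)
  have h8 : ((K : ℤ) + 1 - -(K : ℤ)).toNat = 2 * K + 1 := by omega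
  have h9 : ∑ p ∈ (Finset.Icc (-(K : ℤ)) K) ×ˢ (finite_words K).toFinset,
      (‖f * Wt p.2 - Wt p.2 * f‖ + ‖Wt p.2‖ * ‖f * PB‖) =
      ∑ _x ∈ Finset.Icc (-(K : ℤ)) K, ∑ u ∈ (finite_words K).toFinset,
        (‖f * Wt u - Wt u * f‖ + ‖Wt u‖ * ‖f * PB‖) := Finset.sum_product _ _ _
  rw [h9, Finset.sum_const, nsmul_eq_mul, Int.card_Icc, h8]
  push_cast
  ring

theorem lamb_PK_tendsto (f : ℕ → A) (hnc : NC f)
    (hB : Tendsto (fun n => ‖((f n : A) : BH) * PB‖) atTop (𝓝 0)) (K : ℕ) :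
    Tendsto (fun n => ‖lamb ((f n : A) : BH) * pr (EK K)‖) atTop (𝓝 0) := by
  obtain ⟨F, hF⟩ := exists_lamb_PK K
  refine squeeze_zero (fun n => norm_nonneg _) (fun n => hF _ (Ut_A (f n))) ?_
  have h1 : Tendsto (fun n => ∑ u ∈ F, (‖((f n : A) : BH) * Wt u - Wt u * ((f n : A) : BH)‖ +
      ‖Wt u‖ * ‖((f n : A) : BH) * PB‖)) atTop (𝓝 (∑ u ∈ F, ((0 : ℝ) + ‖Wt u‖ * 0))) := by
    refine tendsto_finsetSum _ (fun u _ => ?_)
    refine Tendsto.add ?_ (hB.const_mul _)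
    exact hnc ⟨Wt u, oWt_mem u⟩
  have h2 := h1.const_mul (2 * (K : ℝ) + 1)
  simpa using h2

end OE
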