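import Mathlib
import Pool.Agent.Work.MP_06ef15_an.O13
import Pool.Agent.Work.MP_06ef15_an.O15
import Pool.Agent.Work.MP_06ef15_an.JX

/-!
# (10.2)

`norm_sq_le_inner`: `0 ≤ h ≤ 1`: `h * h ≤ h` (e.g. `h - h*h = sqrt h * (1 - h) * sqrt h`, or Cauchy-Schwarz for the form `⟪x, h y⟫`:
`‖h x‖² = ⟪x, h (h x)⟫ ≤ ⟪x, h x⟫^{1/2} ⟪h x, h (h x)⟫^{1/2} ≤ ⟪x, h x⟫^{1/2} ‖h x‖`).

`lemmaJ_vec`: `K` from `ao_ineq σ` with `ε = 1/10`; eventually `‖lamb (f n) * pr (EK K)‖ < 1/1000` (`lamb_PK_tendsto`).  Fix such an `n`, suppose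
`1 - 10⁻⁶ ≤ Re ⟪ζ, σ(f n) ζ⟫`.  `state_to_vector` with `F = {f n}`, `ε = 10⁻⁶`: `ξ`.  Then `9 - 10⁻⁶ ≤ 8 + 1/10 + 200 ‖pr (EK K) ξ‖`, so
`‖pr (EK K) ξ‖ ≥ 1/250`.  With `h = 1 - lamb (f n)`, `0 ≤ h ≤ 1` (`lamb_nonneg`, `lamb_sub`, `lamb_one`): `‖h ξ‖² ≤ Re ⟪ξ, h ξ⟫ ≤ 2 * 10⁻⁶`, so `‖h ξ‖ ≤ 1.5 * 10⁻³`,
`‖pr (EK K) ξ‖ ≤ ‖pr (EK K) * lamb (f n)‖ + ‖h ξ‖` and `‖pr (EK K) * lamb (f n)‖ = ‖star (..)‖ = ‖lamb (f n) * pr (EK K)‖` (`f n` is self-adjoint).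
Contradiction.
-/

set_option autoImplicit false

open scoped ComplexConjugate InnerProductSpace Classical Topology
open Filter
open ContinuousLinearMap (adjoint)

namespace OE

theorem norm_sq_le_inner {E : Type*} [NormedAddCommGroup E] [InnerProductSpace ℂ E] [CompleteSpace E] {h : E →L[ℂ] E}
    (h0 : 0 ≤ h) (h1 : h ≤ 1) (x : E) : ‖h x‖ ^ 2 ≤ (⟪x, h x⟫_ℂ).re := by
  have p0 : h.IsPositive := (ContinuousLinearMap.nonneg_iff_isPositive h).1 h0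
  have p1 : (1 - h).IsPositive := (ContinuousLinearMap.nonneg_iff_isPositive _).1 (sub_nonneg.2 h1)
  have e1 : 0 ≤ (⟪h x, h x - h (h x)⟫_ℂ).re := p1.re_inner_nonneg_right (h x)
  have e2 : 0 ≤ (⟪x - h x, h (x - h x)⟫_ℂ).re := p0.re_inner_nonneg_right (x - h x)
  have e3 : ⟪x, h (h x)⟫_ℂ = ⟪h x, h x⟫_ℂ := (p0.inner_left_eq_inner_right x (h x)).symm
  have e4 : (⟪h x, h x⟫_ℂ).re = ‖h x‖ ^ 2 := inner_self_eq_norm_sq (𝕜 := ℂ) (h x)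
  rw [map_sub, inner_sub_left, inner_sub_right, inner_sub_right] at e2
  rw [inner_sub_right] at e1
  simp only [Complex.sub_re] at e1 e2
  rw [e3] at e2
  linarith

theorem lemmaJ_vec (σ : Anti) (f : ℕ → A) (hnc : NC f) (h0 : ∀ n, 0 ≤ ((f n : A) : BH)) (h1 : ∀ n, ((f n : A) : BH) ≤ 1)
    (hB : Tendsto (fun n => ‖((f n : A) : BH) * PB‖) atTop (𝓝 0)) :
    ∀ᶠ n in atTop, ∀ ζ : H Idx, PV ζ = ζ → ‖ζ‖ = 1 →
      (⟪ζ, ((σ.f (f n) : A) : BH) ζ⟫_ℂ).re < 1 - 1 / 1000000 := by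
  obtain ⟨K, hK⟩ := ao_ineq σ (ε := 1 / 10) (by norm_num)
  have ht := lamb_PK_tendsto f hnc hB K
  have hev : ∀ᶠ n in atTop, ‖lamb ((f n : A) : BH) * pr (EK K)‖ < 1 / 1000 :=
    ht.eventually (gt_mem_nhds (by norm_num))
  filter_upwards [hev] with n hn ζ hζ hζ1
  by_contra hcon
  rw [not_lt] at hcon
  obtain ⟨ξ, hξ1, hξ2, hξ3⟩ := state_to_vector σ ζ hζ hζ1 {f n} (1 / 1000000) (by norm_num)
  have hK' := hK ξ hξ1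
  have hξ2' := hξ2 (f n) (Finset.mem_singleton_self _)
  have hsum : (∑ i ∈ Finset.range 9, ⟪ξ, lamb ((σ.g (XA i) : A) : BH) (rho ((σ.g (XA i) : A) : BH) ξ)⟫_ℂ).re =
      (∑ i ∈ Finset.range 9, ⟪ξ, lamb (aa σ i) (rho (aa σ i) ξ)⟫_ℂ).re := rfl
  rw [hsum] at hξ3
  have hp : (1 : ℝ) / 250 ≤ ‖pr (EK K) ξ‖ := by linarith
  set a : HH →L[ℂ] HH := lamb ((f n : A) : BH) with ha
  have ha0 : 0 ≤ a := lamb_nonneg (h0 n)
  have ha1 : 0 ≤ 1 - a := by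
    have h2 := lamb_nonneg (sub_nonneg.2 (h1 n))
    rw [lamb_sub, lamb_one] at h2
    exact h2
  have h2 := norm_sq_le_inner ha1 (sub_le_self 1 ha0) ξ
  have h3 : (⟪ξ, (1 - a) ξ⟫_ℂ).re = 1 - (⟪ξ, a ξ⟫_ℂ).re := by
    have h4 : (⟪ξ, ξ⟫_ℂ).re = ‖ξ‖ ^ 2 := inner_self_eq_norm_sq (𝕜 := ℂ) ξ
    change (⟪ξ, ξ - a ξ⟫_ℂ).re = _
    rw [inner_sub_right, Complex.sub_re, h4, hξ1, one_pow]
  have h4 : (⟪ζ, ((σ.f (f n) : A) : BH) ζ⟫_ℂ).re - (⟪ξ, a ξ⟫_ℂ).re ≤ 1 / 1000000 := by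
    have h5 := (Complex.abs_re_le_norm _).trans hξ2'
    rw [Complex.sub_re] at h5
    have h6 := (abs_le.1 h5).1
    linarith
  have h5 : ‖(1 - a) ξ‖ ≤ 15 / 10000 := by
    have h6 : ‖(1 - a) ξ‖ ^ 2 ≤ (15 / 10000) ^ 2 := by
      rw [h3] at h2
      refine h2.trans ?_
      norm_num
      linarith
    exact le_of_sq_le_sq h6 (by norm_num)
  have h6 : ‖pr (EK K) * a‖ < 1 / 1000 := by
    have hsa : star a = a := ((ContinuousLinearMap.nonneg_iff_isPositive a).1 ha0).isSelfAdjoint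
    have h7 : pr (EK K) * a = star (a * pr (EK K)) := by rw [star_mul, star_pr, hsa]
    rw [h7]
    have h8 : ‖star (a * pr (EK K))‖ = ‖a * pr (EK K)‖ :=
      LinearIsometryEquiv.norm_map ContinuousLinearMap.adjoint (a * pr (EK K))
    rw [h8]
    exact hn
  have h7 : pr (EK K) ξ = (pr (EK K) * a) ξ + pr (EK K) ((1 - a) ξ) := by
    change pr (EK K) ξ = pr (EK K) (a ξ) + pr (EK K) (ξ - a ξ)
    rw [← map_add]
    congr 1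
    abel
  have h8 : ‖(pr (EK K) * a) ξ‖ ≤ 1 / 1000 := by
    refine (ContinuousLinearMap.le_opNorm _ _).trans ?_
    rw [hξ1, mul_one]
    exact h6.le
  have h9 : ‖pr (EK K) ((1 - a) ξ)‖ ≤ 15 / 10000 := by
    refine (ContinuousLinearMap.le_opNorm _ _).trans ?_
    calc ‖pr (EK K)‖ * ‖(1 - a) ξ‖ ≤ 1 * (15 / 10000) :=
          mul_le_mul (norm_pr_le _) h5 (norm_nonneg _) zero_le_one
      _ = 15 / 10000 := one_mul _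
  have h10 := norm_add_le ((pr (EK K) * a) ξ) (pr (EK K) ((1 - a) ξ))
  rw [← h7] at h10
  linarith

end OE
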