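import Mathlib
import Pool.Agent.Work.MP_06ef15_an.O16
import Pool.Agent.Work.MP_06ef15_an.GX
import Pool.Agent.Work.MP_06ef15_an.AN1

/-!
# (10.3): Lemma J

`exists_approx_eigen`: `s = ‖T‖`.  Choose `x` with `‖x‖ ≤ 1` and `‖T x‖ > s - δ₁` (`2 s δ₁ ≤ δ²`, `δ₁ < s`); `T x = T (PV x)`, so `PV x ≠ 0`, `ζ = PV x / ‖PV x‖`,
`‖T ζ‖ ≥ s - δ₁`.  `‖T ζ‖² ≤ s ⟪ζ, T ζ⟫` (`0 ≤ T ≤ s`, `norm_sq_le_inner` for `T / s`), so
`‖T ζ - s ζ‖² = ‖T ζ‖² - 2 s ⟪ζ, T ζ⟫ + s² ≤ s² - ‖T ζ‖² ≤ 2 s δ₁`.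

`pow_approx`: induction: `T^{r+1} ζ - c^{r+1} ζ = T^r (T ζ - c ζ) + c (T^r ζ - c^r ζ)`.

`comm_pow_le`: `x^{r+1} a - a x^{r+1} = x (x^r a - a x^r) + (x a - a x) x^r`.

`lemmaJ_main`: suppose not.  There is `d > 0` with `‖σ(f n) PV‖ ≥ d` frequently.  `d ≤ 1` (`Anti.norm_f`, `‖f n‖ ≤ 1`).  Choose `r ≥ 1` with
`(1 - d/2)^r ≤ 4 * 10⁻⁷`.  `G n = 1 - (1 - f n)^r ∈ A`; `0 ≤ G n ≤ 1` (powers of `0 ≤ 1 - f n ≤ 1`), `NC G` (`comm_pow_le`),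
`G n = (∑_{i<r} (1 - f n)^i) f n` (`mul_geom_sum`/`geom_sum_mul`), so `‖G n * PB‖ ≤ r ‖f n * PB‖ → 0`.  `lemmaJ_vec` for `G`: eventually
`Re ⟪ζ, σ(G n) ζ⟫ < 1 - 10⁻⁶` for all unit `ζ ∈ ran PV`.
Let `y = σ(f n)`, `0 ≤ y ≤ 1` (`Anti.f_nonneg`, `Anti.f_mono`, `Anti.f_one`), `‖1 - y‖ ≤ 1`, `σ(G n) = 1 - (1 - y)^r` (`Anti.f_pow`).  `NC (σ ∘ f)` (`Anti.nc_f`): for `n`
large `‖X i * y - y * X i‖ ≤ δ₀` (`i < 9`), so by `gap_PV` `‖y PV - PV y PV‖ ≤ 3/2 δ₀`.  With `δ₀` small and `n` as above, `T = PV * y * PV ≥ 0`,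
`s = ‖T‖ ≥ d - 3/2 δ₀ ≥ d/2`; `exists_approx_eigen`: `ζ` with `‖T ζ - s ζ‖ ≤ δ₀`, so `‖y ζ - s ζ‖ ≤ 5/2 δ₀` and by `pow_approx` for `1 - y`, `c = 1 - s`:
`‖(1-y)^r ζ - (1-s)^r ζ‖ ≤ 5/2 r δ₀ ≤ 4 * 10⁻⁷`.  So `Re ⟪ζ, σ(G n) ζ⟫ ≥ 1 - (1-s)^r - 4 * 10⁻⁷ ≥ 1 - 8 * 10⁻⁷`, a contradiction.
-/

set_option autoImplicit false

open scoped ComplexConjugate InnerProductSpace Classical Topology
open Filter
open ContinuousLinearMap (adjoint)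

namespace OE

theorem exists_approx_eigen {T : BH} (h0 : 0 ≤ T) (hP : T * PV = T) (hT : 0 < ‖T‖) {δ : ℝ} (hδ : 0 < δ) :
    ∃ ζ : H Idx, PV ζ = ζ ∧ ‖ζ‖ = 1 ∧ ‖T ζ - ((‖T‖ : ℝ) : ℂ) • ζ‖ ≤ δ := by
  set s := ‖T‖ with hs
  have p0 : T.IsPositive := (ContinuousLinearMap.nonneg_iff_isPositive T).1 h0
  obtain ⟨δ₁, hδ₁, hδ₂, hδ₃⟩ : ∃ δ₁ : ℝ, 0 < δ₁ ∧ 2 * s * δ₁ ≤ δ ^ 2 ∧ δ₁ < s := by
    refine ⟨min (s / 2) (δ ^ 2 / (2 * s)), lt_min (by positivity) (by positivity), ?_, ?_⟩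
    · calc 2 * s * min (s / 2) (δ ^ 2 / (2 * s)) ≤ 2 * s * (δ ^ 2 / (2 * s)) :=
            mul_le_mul_of_nonneg_left (min_le_right _ _) (by positivity)
        _ = δ ^ 2 := by field_simp
    · exact (min_le_left _ _).trans_lt (by linarith)
  obtain ⟨x, hx1, hx2⟩ := T.exists_lt_apply_of_lt_opNorm (r := s - δ₁) (by linarith)
  have hTy : T (PV x) = T x := DFunLike.congr_fun hP x
  have hPy : PV (PV x) = PV x := DFunLike.congr_fun PV_idem x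
  set y := PV x with hy
  have hyn : ‖y‖ ≤ 1 := by
    calc ‖y‖ ≤ ‖PV‖ * ‖x‖ := ContinuousLinearMap.le_opNorm _ _
      _ ≤ 1 * 1 := mul_le_mul norm_PV_le hx1.le (norm_nonneg _) zero_le_one
      _ = 1 := one_mul _
  have hTyn : s - δ₁ < ‖T y‖ := by rw [hTy]; exact hx2
  have hy0 : 0 < ‖y‖ := by
    rw [norm_pos_iff]
    intro h
    rw [h, map_zero, norm_zero] at hTyn
    linarith
  have hnc : ‖((‖y‖⁻¹ : ℝ) : ℂ)‖ = ‖y‖⁻¹ := by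
    rw [Complex.norm_real, Real.norm_of_nonneg (inv_nonneg.2 (norm_nonneg _))]
  have hζn : ‖((‖y‖⁻¹ : ℝ) : ℂ) • y‖ = 1 := by
    rw [norm_smul, hnc, inv_mul_cancel₀ hy0.ne']
  have hPζ : PV (((‖y‖⁻¹ : ℝ) : ℂ) • y) = ((‖y‖⁻¹ : ℝ) : ℂ) • y := by rw [map_smul, hPy]
  obtain ⟨ζ, hζ⟩ : ∃ ζ : H Idx, ζ = ((‖y‖⁻¹ : ℝ) : ℂ) • y := ⟨_, rfl⟩
  rw [← hζ] at hζn hPζ
  refine ⟨ζ, hPζ, hζn, ?_⟩
  have hTζ : s - δ₁ < ‖T ζ‖ := by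
    rw [hζ, map_smul, norm_smul, hnc]
    have h2 : ‖T y‖ ≤ ‖y‖⁻¹ * ‖T y‖ := le_mul_of_one_le_left (norm_nonneg _) ((one_le_inv₀ hy0).2 hyn)
    exact hTyn.trans_le h2
  have hTζ2 : ‖T ζ‖ ≤ s := by
    have h2 := T.le_opNorm ζ
    rw [hζn, mul_one] at h2
    exact h2
  -- the key inequality
  have key : ‖T ζ‖ ^ 2 ≤ s * (⟪ζ, T ζ⟫_ℂ).re := by
    have e1 : (⟪T ζ, T (T ζ)⟫_ℂ).re ≤ s * ‖T ζ‖ ^ 2 := by
      have h2 : (⟪T ζ, T (T ζ)⟫_ℂ).re ≤ ‖T ζ‖ * ‖T (T ζ)‖ := re_inner_le_norm (𝕜 := ℂ) _ _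
      have h3 : ‖T (T ζ)‖ ≤ s * ‖T ζ‖ := T.le_opNorm _
      nlinarith [norm_nonneg (T ζ)]
    have e2 : 0 ≤ (⟪((s : ℝ) : ℂ) • ζ - T ζ, T (((s : ℝ) : ℂ) • ζ - T ζ)⟫_ℂ).re :=
      p0.re_inner_nonneg_right _
    have e3 : ⟪ζ, T (T ζ)⟫_ℂ = ⟪T ζ, T ζ⟫_ℂ := (p0.inner_left_eq_inner_right ζ (T ζ)).symm
    have e4 : (⟪T ζ, T ζ⟫_ℂ).re = ‖T ζ‖ ^ 2 := inner_self_eq_norm_sq (𝕜 := ℂ) (T ζ)
    rw [map_sub, map_smul, inner_sub_left, inner_sub_right, inner_sub_right, inner_smul_left, inner_smul_left,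
      inner_smul_right, inner_smul_right, Complex.conj_ofReal, e3] at e2
    simp only [Complex.sub_re, Complex.re_ofReal_mul] at e2
    rw [e4] at e2
    have e5 : s * ‖T ζ‖ ^ 2 ≤ s * (s * (⟪ζ, T ζ⟫_ℂ).re) := by linarith
    exact le_of_mul_le_mul_left e5 hT
  have h2 : ‖T ζ - ((s : ℝ) : ℂ) • ζ‖ ^ 2 ≤ δ ^ 2 := by
    have h3 := norm_sub_sq (𝕜 := ℂ) (T ζ) (((s : ℝ) : ℂ) • ζ)
    have h4 : ‖((s : ℝ) : ℂ) • ζ‖ = s := by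
      rw [norm_smul, hζn, mul_one, Complex.norm_real, Real.norm_of_nonneg hT.le]
    have h5 : RCLike.re ⟪T ζ, ((s : ℝ) : ℂ) • ζ⟫_ℂ = s * (⟪ζ, T ζ⟫_ℂ).re := by
      rw [inner_re_symm, inner_smul_left, Complex.conj_ofReal]
      exact Complex.re_ofReal_mul _ _
    rw [h3, h4, h5]
    nlinarith
  exact le_of_sq_le_sq h2 hδ.le

theorem pow_approx {E : Type*} [NormedAddCommGroup E] [NormedSpace ℂ E] {T : E →L[ℂ] E} (hT : ‖T‖ ≤ 1) {c : ℂ}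
    (hc : ‖c‖ ≤ 1) {ζ : E} {δ : ℝ} (h : ‖T ζ - c • ζ‖ ≤ δ) (r : ℕ) : ‖(T ^ r) ζ - c ^ r • ζ‖ ≤ r * δ := by
  induction r with
  | zero => simp
  | succ r ih =>
    have h1 : (T ^ (r + 1)) ζ - c ^ (r + 1) • ζ = T ((T ^ r) ζ - c ^ r • ζ) + c ^ r • (T ζ - c • ζ) := by
      rw [pow_succ' T r, pow_succ c r, map_sub, map_smul, smul_sub, mul_smul]
      change T ((T ^ r) ζ) - _ = _
      abel
    rw [h1]
    have h2 : ‖T ((T ^ r) ζ - c ^ r • ζ)‖ ≤ r * δ := by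
      refine (T.le_opNorm _).trans ?_
      calc ‖T‖ * ‖(T ^ r) ζ - c ^ r • ζ‖ ≤ 1 * (r * δ) := mul_le_mul hT ih (norm_nonneg _) zero_le_one
        _ = r * δ := one_mul _
    have h3 : ‖c ^ r • (T ζ - c • ζ)‖ ≤ δ := by
      rw [norm_smul, norm_pow]
      calc ‖c‖ ^ r * ‖T ζ - c • ζ‖ ≤ 1 * δ := mul_le_mul (pow_le_one₀ (norm_nonneg _) hc) h (norm_nonneg _) zero_le_one
        _ = δ := one_mul _
    have h4 : ((r + 1 : ℕ) : ℝ) * δ = r * δ + δ := by push_cast; ring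
    rw [h4]
    exact (norm_add_le _ _).trans (add_le_add h2 h3)

private theorem norm_one_A : ‖(1 : A)‖ ≤ 1 := by
  have h : ‖(1 : BH)‖ ≤ 1 := ContinuousLinearMap.norm_id_le
  exact h

private theorem norm_pow_A {x : A} (hx : ‖x‖ ≤ 1) (r : ℕ) : ‖x ^ r‖ ≤ 1 := by
  induction r with
  | zero => rw [pow_zero]; exact norm_one_A
  | succ r ih =>
    rw [pow_succ]
    calc ‖x ^ r * x‖ ≤ ‖x ^ r‖ * ‖x‖ := norm_mul_le _ _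
      _ ≤ 1 * 1 := mul_le_mul ih hx (norm_nonneg _) zero_le_one
      _ = 1 := one_mul _

theorem comm_pow_le {x a : A} (hx : ‖x‖ ≤ 1) (r : ℕ) : ‖x ^ r * a - a * x ^ r‖ ≤ r * ‖x * a - a * x‖ := by
  induction r with
  | zero => simp
  | succ r ih =>
    have h1 : x ^ (r + 1) * a - a * x ^ (r + 1) = x * (x ^ r * a - a * x ^ r) + (x * a - a * x) * x ^ r := by
      rw [pow_succ']
      noncomm_ring
    rw [h1]
    have h2 : ‖x * (x ^ r * a - a * x ^ r)‖ ≤ r * ‖x * a - a * x‖ := by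
      calc ‖x * (x ^ r * a - a * x ^ r)‖ ≤ ‖x‖ * ‖x ^ r * a - a * x ^ r‖ := norm_mul_le _ _
        _ ≤ 1 * (r * ‖x * a - a * x‖) := mul_le_mul hx ih (norm_nonneg _) zero_le_one
        _ = r * ‖x * a - a * x‖ := one_mul _
    have h3 : ‖(x * a - a * x) * x ^ r‖ ≤ ‖x * a - a * x‖ := by
      calc ‖(x * a - a * x) * x ^ r‖ ≤ ‖x * a - a * x‖ * ‖x ^ r‖ := norm_mul_le _ _
        _ ≤ ‖x * a - a * x‖ * 1 := mul_le_mul_of_nonneg_left (norm_pow_A hx r) (norm_nonneg _)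
        _ = ‖x * a - a * x‖ := mul_one _
    refine (norm_add_le _ _).trans ?_
    push_cast
    linarith

private theorem norm_le_one_BH {x : BH} (h0 : 0 ≤ x) (h1 : x ≤ 1) : ‖x‖ ≤ 1 :=
  (CStarAlgebra.norm_le_one_iff_of_nonneg x h0).2 h1

private theorem pow_mem_unit {x : BH} (h0 : 0 ≤ x) (h1 : x ≤ 1) (r : ℕ) : 0 ≤ x ^ r ∧ x ^ r ≤ 1 := by
  refine ⟨CStarAlgebra.pow_nonneg h0 r, ?_⟩
  have h2 := CStarAlgebra.pow_antitone h0 h1 (Nat.zero_le r)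
  simpa using h2

theorem lemmaJ_main (σ : Anti) (f : ℕ → A) (hnc : NC f) (h0 : ∀ n, 0 ≤ ((f n : A) : BH))
    (h1 : ∀ n, ((f n : A) : BH) ≤ 1) (hB : Tendsto (fun n => ‖((f n : A) : BH) * PB‖) atTop (𝓝 0)) :
    Tendsto (fun n => ‖((σ.f (f n) : A) : BH) * PV‖) atTop (𝓝 0) := by
  by_contra hnot
  obtain ⟨d, hd0, hd⟩ : ∃ d > 0, ∃ᶠ n in atTop, d ≤ ‖((σ.f (f n) : A) : BH) * PV‖ := by
    rw [Metric.tendsto_atTop] at hnot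
    push Not at hnot
    obtain ⟨d, hd0, hd⟩ := hnot
    refine ⟨d, hd0, ?_⟩
    rw [frequently_atTop]
    intro N
    obtain ⟨n, hn, hn2⟩ := hd N
    refine ⟨n, hn, ?_⟩
    rw [dist_zero_right, norm_norm] at hn2
    exact hn2
  -- facts on `y n = σ (f n)`
  have hy0 : ∀ n, 0 ≤ ((σ.f (f n) : A) : BH) := fun n => σ.f_nonneg (h0 n)
  have hy1 : ∀ n, ((σ.f (f n) : A) : BH) ≤ 1 := by
    intro n
    have h2 := σ.f_mono (a := f n) (b := 1) (h1 n)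
    rw [σ.f_one] at h2
    exact h2
  have hyn : ∀ n, ‖((σ.f (f n) : A) : BH)‖ ≤ 1 := fun n => norm_le_one_BH (hy0 n) (hy1 n)
  have hd1 : d ≤ 1 := by
    obtain ⟨n, hn⟩ := hd.exists
    refine hn.trans ?_
    calc ‖((σ.f (f n) : A) : BH) * PV‖ ≤ ‖((σ.f (f n) : A) : BH)‖ * ‖PV‖ := norm_mul_le _ _
      _ ≤ 1 * 1 := mul_le_mul (hyn n) norm_PV_le (norm_nonneg _) zero_le_one
      _ = 1 := one_mul _
  obtain ⟨r, hr⟩ := exists_pow_lt_of_lt_one (show (0 : ℝ) < 4 / 10000000 by norm_num)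
    (show 1 - d / 2 < 1 by linarith)
  -- the sequence `G`
  set G : ℕ → A := fun n => 1 - (1 - f n) ^ r with hG
  have hfc : ∀ n, ‖(1 - f n : A)‖ ≤ 1 := by
    intro n
    have h2 : ‖(1 - ((f n : A) : BH))‖ ≤ 1 :=
      norm_le_one_BH (sub_nonneg.2 (h1 n)) (sub_le_self 1 (h0 n))
    exact h2
  have hGpow : ∀ n, ((G n : A) : BH) = 1 - (1 - ((f n : A) : BH)) ^ r := by
    intro n
    rw [hG]
    rfl
  have hGnc : NC G := by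
    intro a
    have h2 := (hnc a).const_mul (r : ℝ)
    rw [mul_zero] at h2
    refine squeeze_zero (fun _ => norm_nonneg _) (fun n => ?_) h2
    have h3 : G n * a - a * G n = -((1 - f n) ^ r * a - a * (1 - f n) ^ r) := by
      rw [hG]
      noncomm_ring
    have h4 : (1 - f n) * a - a * (1 - f n) = -(f n * a - a * f n) := by noncomm_ring
    have h5 := comm_pow_le (a := a) (hfc n) r
    rw [h4, norm_neg] at h5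
    rw [h3, norm_neg]
    exact h5
  have hG0 : ∀ n, 0 ≤ ((G n : A) : BH) := by
    intro n
    rw [hGpow]
    exact sub_nonneg.2 (pow_mem_unit (sub_nonneg.2 (h1 n)) (sub_le_self 1 (h0 n)) r).2
  have hG1 : ∀ n, ((G n : A) : BH) ≤ 1 := by
    intro n
    rw [hGpow]
    exact sub_le_self 1 (pow_mem_unit (sub_nonneg.2 (h1 n)) (sub_le_self 1 (h0 n)) r).1
  have hGB : Tendsto (fun n => ‖((G n : A) : BH) * PB‖) atTop (𝓝 0) := by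
    have h2 := hB.const_mul (r : ℝ)
    rw [mul_zero] at h2
    refine squeeze_zero (fun _ => norm_nonneg _) (fun n => ?_) h2
    have h3 : ((G n : A) : BH) = (∑ i ∈ Finset.range r, (1 - ((f n : A) : BH)) ^ i) * ((f n : A) : BH) := by
      have h4 := geom_sum_mul (1 - ((f n : A) : BH)) r
      have h5 : (1 - ((f n : A) : BH)) - 1 = -((f n : A) : BH) := by abel
      rw [h5, mul_neg] at h4
      rw [hGpow, ← neg_sub, ← h4, neg_neg]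
    have h6 : ‖∑ i ∈ Finset.range r, (1 - ((f n : A) : BH)) ^ i‖ ≤ r := by
      refine (norm_sum_le _ _).trans ?_
      have h7 : ∀ i ∈ Finset.range r, ‖(1 - ((f n : A) : BH)) ^ i‖ ≤ 1 := fun i _ =>
        norm_le_one_BH (pow_mem_unit (sub_nonneg.2 (h1 n)) (sub_le_self 1 (h0 n)) i).1
          (pow_mem_unit (sub_nonneg.2 (h1 n)) (sub_le_self 1 (h0 n)) i).2
      refine (Finset.sum_le_sum h7).trans ?_
      simp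
    rw [h3, mul_assoc]
    exact (norm_mul_le _ _).trans (mul_le_mul_of_nonneg_right h6 (norm_nonneg _))
  have hvec := lemmaJ_vec σ G hGnc hG0 hG1 hGB
  -- the commutator with `PV`
  have hgap := nc_gap_PV (σ.nc_f hnc)
  set δ₀ : ℝ := min (d / 2) (2 / 10000000 / (r + 1)) with hδ₀
  have hδ₀0 : 0 < δ₀ := lt_min (by linarith) (by positivity)
  have hδ₀1 : δ₀ ≤ d / 2 := min_le_left _ _
  have hδ₀2 : (r : ℝ) * (2 * δ₀) ≤ 4 / 10000000 := by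
    have h2 : δ₀ ≤ 2 / 10000000 / (r + 1) := min_le_right _ _
    have h3 : (r : ℝ) * δ₀ ≤ (r + 1) * (2 / 10000000 / (r + 1)) :=
      mul_le_mul (by linarith) h2 hδ₀0.le (by positivity)
    have h4 : ((r : ℝ) + 1) * (2 / 10000000 / (r + 1)) = 2 / 10000000 := by
      field_simp
    linarith
  have hev : ∀ᶠ n in atTop,
      ‖((σ.f (f n) : A) : BH) * PV - PV * ((σ.f (f n) : A) : BH) * PV‖ < δ₀ :=
    hgap.eventually (gt_mem_nhds hδ₀0)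
  obtain ⟨n, hn1, hn2, hn3⟩ := (hd.and_eventually (hev.and hvec)).exists
  set y : BH := ((σ.f (f n) : A) : BH) with hy
  set T : BH := PV * y * PV with hT
  have hT0 : 0 ≤ T := by
    have h2 := star_left_conjugate_nonneg (hy0 n) PV
    rw [star_PV] at h2
    exact h2
  have hTP : T * PV = T := by rw [hT, mul_assoc, PV_idem]
  have hTn : d / 2 ≤ ‖T‖ := by
    have h2 : ‖y * PV‖ ≤ ‖y * PV - T‖ + ‖T‖ := by
      have h3 : y * PV = (y * PV - T) + T := by abel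
      calc ‖y * PV‖ = ‖(y * PV - T) + T‖ := by rw [← h3]
        _ ≤ _ := norm_add_le _ _
    linarith
  have hTn1 : ‖T‖ ≤ 1 := by
    calc ‖T‖ ≤ ‖PV * y‖ * ‖PV‖ := norm_mul_le _ _
      _ ≤ (‖PV‖ * ‖y‖) * ‖PV‖ := mul_le_mul_of_nonneg_right (norm_mul_le _ _) (norm_nonneg _)
      _ ≤ (1 * 1) * 1 := by
          have a1 := norm_PV_le
          have a2 := hyn n
          gcongr
      _ = 1 := by norm_num
  obtain ⟨ζ, hζ1, hζ2, hζ3⟩ := exists_approx_eigen hT0 hTP (by linarith) hδ₀0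
  have h2 : ‖y ζ - ((‖T‖ : ℝ) : ℂ) • ζ‖ ≤ 2 * δ₀ := by
    have h3 : y ζ - ((‖T‖ : ℝ) : ℂ) • ζ = (y * PV - PV * y * PV) ζ + (T ζ - ((‖T‖ : ℝ) : ℂ) • ζ) := by
      change _ = (y (PV ζ) - PV (y (PV ζ))) + (PV (y (PV ζ)) - _)
      rw [hζ1]
      abel
    rw [h3]
    have h4 : ‖(y * PV - PV * y * PV) ζ‖ ≤ δ₀ := by
      refine (ContinuousLinearMap.le_opNorm _ _).trans ?_
      rw [hζ2, mul_one]
      exact hn2.le
    refine (norm_add_le _ _).trans ?_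
    linarith
  have h3 : ‖(1 - y) ζ - (1 - ((‖T‖ : ℝ) : ℂ)) • ζ‖ ≤ 2 * δ₀ := by
    have h4 : (1 - y) ζ - (1 - ((‖T‖ : ℝ) : ℂ)) • ζ = -(y ζ - ((‖T‖ : ℝ) : ℂ) • ζ) := by
      change (ζ - y ζ) - _ = _
      rw [sub_smul, one_smul]
      abel
    rw [h4, norm_neg]
    exact h2
  have hc1 : (1 - ((‖T‖ : ℝ) : ℂ)) = (((1 - ‖T‖ : ℝ)) : ℂ) := by push_cast; ring
  have hc2 : ‖(1 - ((‖T‖ : ℝ) : ℂ))‖ ≤ 1 := by
    rw [hc1, Complex.norm_real, Real.norm_of_nonneg (by linarith)]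
    linarith
  have h4 := pow_approx (norm_le_one_BH (sub_nonneg.2 (hy1 n)) (sub_le_self 1 (hy0 n))) hc2 h3 r
  have h5 := hn3 ζ hζ1 hζ2
  have h6 : ((σ.f (G n) : A) : BH) = 1 - (1 - y) ^ r := by
    rw [hG]
    show ((σ.f (1 - (1 - f n) ^ r) : A) : BH) = _
    rw [map_sub, σ.f_one, σ.f_pow, map_sub, σ.f_one]
    rfl
  rw [h6] at h5
  have h7 : (⟪ζ, (1 - (1 - y) ^ r) ζ⟫_ℂ).re = 1 - (⟪ζ, ((1 - y) ^ r) ζ⟫_ℂ).re := by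
    have h8 : (⟪ζ, ζ⟫_ℂ).re = ‖ζ‖ ^ 2 := inner_self_eq_norm_sq (𝕜 := ℂ) ζ
    change (⟪ζ, ζ - ((1 - y) ^ r) ζ⟫_ℂ).re = _
    rw [inner_sub_right, Complex.sub_re, h8, hζ2, one_pow]
  have h8 : (⟪ζ, ((1 - y) ^ r) ζ⟫_ℂ).re ≤ 8 / 10000000 := by
    have h9 : ((1 - y) ^ r) ζ = (((1 - y) ^ r) ζ - (1 - ((‖T‖ : ℝ) : ℂ)) ^ r • ζ) + (1 - ((‖T‖ : ℝ) : ℂ)) ^ r • ζ := by
      abel
    rw [h9, inner_add_right, Complex.add_re]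
    have h10 : (⟪ζ, ((1 - y) ^ r) ζ - (1 - ((‖T‖ : ℝ) : ℂ)) ^ r • ζ⟫_ℂ).re ≤ 4 / 10000000 := by
      have h11 : (⟪ζ, ((1 - y) ^ r) ζ - (1 - ((‖T‖ : ℝ) : ℂ)) ^ r • ζ⟫_ℂ).re ≤
          ‖ζ‖ * ‖((1 - y) ^ r) ζ - (1 - ((‖T‖ : ℝ) : ℂ)) ^ r • ζ‖ := re_inner_le_norm (𝕜 := ℂ) _ _
      rw [hζ2, one_mul] at h11
      linarith
    have h12 : (⟪ζ, (1 - ((‖T‖ : ℝ) : ℂ)) ^ r • ζ⟫_ℂ).re ≤ 4 / 10000000 := by
      have h13 : (⟪ζ, ζ⟫_ℂ).re = ‖ζ‖ ^ 2 := inner_self_eq_norm_sq (𝕜 := ℂ) ζ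
      rw [hc1, ← Complex.ofReal_pow, inner_smul_right, Complex.re_ofReal_mul, h13, hζ2, one_pow, mul_one]
      have h14 : (1 - ‖T‖) ^ r ≤ (1 - d / 2) ^ r :=
        pow_le_pow_left₀ (by linarith) (by linarith) r
      linarith
    linarith
  rw [h7] at h5
  linarith

end OE
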