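import Mathlib
import Pool.Agent.Work.MP_06ef15_an.O17

/-!
# Interface of sections 9 and 10 (owner: helper90): Lemma J
-/

set_option autoImplicit false

open scoped ComplexConjugate InnerProductSpace Classical Topology
open Filter

namespace OE

/-- Lemma J. -/
theorem lemmaJ (σ : Anti) (f : ℕ → A) (hnc : NC f) (h0 : ∀ n, 0 ≤ ((f n : A) : BH)) (h1 : ∀ n, ((f n : A) : BH) ≤ 1)
    (hB : Tendsto (fun n => ‖((f n : A) : BH) * PB‖) atTop (𝓝 0)) :
    Tendsto (fun n => ‖((σ.f (f n) : A) : BH) * PV‖) atTop (𝓝 0) :=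
  lemmaJ_main σ f hnc h0 h1 hB

end OE
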