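import Mathlib
import Pool.Agent.Work.MP_06ef15_an.CF

/-!
# The automorphism `theta = Ad D_rho` and the unitaries `t_n = g (vn n)` (section 11)  (M)

`vn n = -p_0 + p_n - ∑_{l<n} q_l`.
* `om_vn`: `om (vn n) u = om (-pp 0) u + om (pp n) u - ∑_{l<n} om (qq l) u`, with `om (pp n) u = -om u (pp n) = u.2.1 n - tri u.2.2 =
  - tri u.2.2` (`u ∈ VF n`) and `-∑_{l<n} om (qq l) u = ∑_{l<n} om u (qq l) = ∑_{l<n} u.1 l = sumA u` (support below `n`).
* `xf_vn`: `-1 + 1 - 0`.  `rhov_vn`: `om (-pp 0) (vn n) = -∑_{l<n} (-om (pp 0) (qq l)) = 1` for `n ≥ 1`, `ch (1 + 0) = kap`.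
* `Drho_conj_mem`: `A_induction` with `p x := Drho * x * star Drho ∈ A`: generators `Drho_Y`, `Drho_g`, `Drho_Sg` and
  `Drho_mul_star`; adjoint of `Sg b`: `star`; products: insert `star Drho * Drho = 1`; limits: `A` is closed (`isClosed_A`) and
  `‖Drho (x - y) star Drho‖ ≤ ‖x - y‖`.  The same for `star Drho * x * Drho`.
* `tn_conv`: `A_induction` (AN2) with `p x := ∀ ε > 0, ∃ n0, ∀ n ≥ n0, ‖g (vn n) * x * star (g (vn n)) - Drho * x * star Drho‖ ≤ ε`:
  for `Y`, `Sg`, `star Sg` both are `x` (`g_Y` with `xf_vn`, `star_Sg_g`), for `g u`: `g_conj`, `om_vn` for `n` with `u ∈ VF n`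
  (`exists_mem_VF`, `VF_mono`): both are `rhov u • g u`; products and limits as usual (all factors have norm at most `1`).
-/

set_option autoImplicit false

open scoped ComplexConjugate InnerProductSpace Classical Topology
open ContinuousLinearMap (adjoint)
open Filter

namespace OE

/-- the vectors `v_n`. -/
noncomputable def vn (n : ℕ) : V := -pp 0 + pp n - ∑ l ∈ Finset.range n, qq l

private theorem xf_sum_qq (n : ℕ) : xf (∑ l ∈ Finset.range n, qq l) = 0 := by
  induction n with
  | zero => rw [Finset.sum_range_zero, xf_zero]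
  | succ n ih => rw [Finset.sum_range_succ, xf_add, ih, xf_qq, add_zero]

theorem xf_vn (n : ℕ) : xf (vn n) = 0 := by
  unfold vn
  rw [xf_sub, xf_add, xf_neg, xf_pp, xf_pp, xf_sum_qq]
  ring

private theorem om_sum_qq_left (n : ℕ) (u : V) :
    om (∑ l ∈ Finset.range n, qq l) u = -∑ l ∈ Finset.range n, u.1 l := by
  induction n with
  | zero => rw [Finset.sum_range_zero, Finset.sum_range_zero, om_zero_left, neg_zero]
  | succ n ih =>
    rw [Finset.sum_range_succ, Finset.sum_range_succ, om_add_left, ih, om_swap (qq n) u,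
      om_qq_right, neg_add]

private theorem om_sum_qq_right (n : ℕ) (u : V) :
    om u (∑ l ∈ Finset.range n, qq l) = ∑ l ∈ Finset.range n, u.1 l := by
  rw [om_swap, om_sum_qq_left, neg_neg]

private theorem om_sub_left' (u u' v : V) : om (u - u') v = om u v - om u' v := by
  rw [sub_eq_add_neg, om_add_left, om_neg_left, sub_eq_add_neg]

private theorem om_sub_right' (u v v' : V) : om u (v - v') = om u v - om u v' := by
  rw [sub_eq_add_neg, om_add_right, om_neg_right, sub_eq_add_neg]

theorem om_vn {n : ℕ} {u : V} (hu : u ∈ VF n) : om (vn n) u = om (-pp 0) u + xf u := by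
  unfold vn
  rw [om_sub_left', om_add_left, om_sum_qq_left, om_swap (pp n) u, om_pp_right]
  rw [mem_VF] at hu
  have h1 := (hu n le_rfl).2
  have h2 : sumA u = ∑ l ∈ Finset.range n, u.1 l := by
    unfold sumA
    refine Finsupp.sum_of_support_subset u.1 (fun i hi => ?_) _ (fun _ _ => rfl)
    rw [Finset.mem_range]
    by_contra hn
    rw [not_lt] at hn
    exact (Finsupp.mem_support_iff.1 hi) (hu i hn).1
  unfold xf
  rw [h1, h2]
  ring

theorem rhov_add (u v : V) : rhov (u + v) = rhov u * rhov v := by
  unfold rhov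
  rw [← ch_add, om_add_right, xf_add]
  congr 1
  ring

theorem rhov_zero : rhov 0 = 1 := by
  unfold rhov
  rw [om_zero_right, xf_zero, add_zero, ch_zero]

theorem norm_rhov (v : V) : ‖rhov v‖ = 1 := norm_ch _

theorem rhov_v0 : rhov v0 = 1 := by
  unfold rhov
  rw [om_neg_left, om_swap (pp 0) v0, om_v0_pp, xf_v0, neg_neg, add_neg_cancel, ch_zero]

theorem rhov_vn {n : ℕ} (h : 1 ≤ n) : rhov (vn n) = kap := by
  unfold rhov
  rw [xf_vn, add_zero]
  unfold vn
  rw [om_sub_right', om_add_right, om_self, om_pp_right, om_sum_qq_right]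
  have h1 : (-pp 0 : V).2.1 n = 0 := by simp [pp]
  have h2 : (-pp 0 : V).2.2 = 0 := by simp [pp]
  have h3 : ∑ l ∈ Finset.range n, (-pp 0 : V).1 l = -1 := by
    rw [Finset.sum_eq_single 0]
    · simp [pp]
    · intro b _ hb
      simp [pp, hb]
    · intro h4
      exact absurd (Finset.mem_range.2 h) h4
  rw [h1, h2, h3, tri_zero]
  unfold kap
  congr 1

theorem norm_Drho_le : ‖Drho‖ ≤ 1 := by
  unfold Drho
  exact norm_dg_le zero_le_one fun i : Idx => (norm_rhov i.2.1).le

private theorem norm_star_Drho_le : ‖star Drho‖ ≤ 1 := by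
  rw [ContinuousLinearMap.star_eq_adjoint, LinearIsometryEquiv.norm_map]
  exact norm_Drho_le

private theorem Drho_Y_conj (t : T) (k : ℤ) : Drho * Y t k * star Drho = Y t k := by
  rw [Drho_Y, mul_assoc, Drho_mul_star, mul_one]

private theorem Drho_g_conj (u : V) : Drho * g u * star Drho = rhov u • g u := by
  rw [Drho_g, smul_mul_assoc, mul_assoc, Drho_mul_star, mul_one]

private theorem Drho_Sg_conj (b : Bool) : Drho * Sg b * star Drho = Sg b := by
  rw [Drho_Sg, mul_assoc, Drho_mul_star, mul_one]

private theorem star_Drho_Sg (b : Bool) : star Drho * star (Sg b) = star (Sg b) * star Drho := by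
  rw [← star_mul, ← star_mul, Drho_Sg]

private theorem Drho_star_Sg_conj (b : Bool) : Drho * star (Sg b) * star Drho = star (Sg b) := by
  rw [mul_assoc, ← star_Drho_Sg, ← mul_assoc, Drho_mul_star, one_mul]

private theorem Drho_mul_conj (x y : BH) : Drho * (x * y) * star Drho =
    (Drho * x * star Drho) * (Drho * y * star Drho) := by
  rw [show (Drho * x * star Drho) * (Drho * y * star Drho) =
      Drho * (x * (star Drho * Drho) * y) * star Drho by simp only [mul_assoc], star_Drho_mul, mul_one]

private theorem star_Drho_mul_conj (x y : BH) : star Drho * (x * y) * Drho =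
    (star Drho * x * Drho) * (star Drho * y * Drho) := by
  rw [show (star Drho * x * Drho) * (star Drho * y * Drho) =
      star Drho * (x * (Drho * star Drho) * y) * Drho by simp only [mul_assoc], Drho_mul_star, mul_one]

theorem Drho_conj_mem (a : A) : Drho * (a : BH) * star Drho ∈ A := by
  refine A_induction (p := fun x => Drho * x * star Drho ∈ A) ?_ ?_ ?_ ?_ ?_ ?_ ?_ ?_ ?_ a.2
  · intro t k
    rw [Drho_Y_conj]
    exact Y_mem t k
  · intro u
    rw [Drho_g_conj]
    exact A.smul_mem (g_mem u) _
  · intro b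
    rw [Drho_Sg_conj]
    exact Sg_mem b
  · intro b
    rw [Drho_star_Sg_conj]
    exact A.star_mem' (Sg_mem b)
  · rw [mul_one, Drho_mul_star]
    exact A.one_mem
  · intro x y hx hy
    rw [mul_add, add_mul]
    exact A.add_mem hx hy
  · intro x y hx hy
    rw [Drho_mul_conj]
    exact A.mul_mem hx hy
  · intro c x hx
    rw [mul_smul_comm, smul_mul_assoc]
    exact A.smul_mem hx c
  · exact isClosed_A.preimage ((continuous_const.mul continuous_id).mul continuous_const)

theorem star_Drho_conj_mem (a : A) : star Drho * (a : BH) * Drho ∈ A := by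
  refine A_induction (p := fun x => star Drho * x * Drho ∈ A) ?_ ?_ ?_ ?_ ?_ ?_ ?_ ?_ ?_ a.2
  · intro t k
    rw [mul_assoc, ← Drho_Y, ← mul_assoc, star_Drho_mul, one_mul]
    exact Y_mem t k
  · intro u
    have h1 : g u * Drho = conj (rhov u) • (Drho * g u) := by
      rw [Drho_g, smul_smul]
      unfold rhov
      rw [conj_mul_ch, one_smul]
    rw [mul_assoc, h1, mul_smul_comm, ← mul_assoc, star_Drho_mul, one_mul]
    exact A.smul_mem (g_mem u) _
  · intro b
    rw [mul_assoc, ← Drho_Sg, ← mul_assoc, star_Drho_mul, one_mul]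
    exact Sg_mem b
  · intro b
    rw [star_Drho_Sg, mul_assoc, star_Drho_mul, mul_one]
    exact A.star_mem' (Sg_mem b)
  · rw [mul_one, star_Drho_mul]
    exact A.one_mem
  · intro x y hx hy
    rw [mul_add, add_mul]
    exact A.add_mem hx hy
  · intro x y hx hy
    rw [star_Drho_mul_conj]
    exact A.mul_mem hx hy
  · intro c x hx
    rw [mul_smul_comm, smul_mul_assoc]
    exact A.smul_mem hx c
  · exact isClosed_A.preimage ((continuous_const.mul continuous_id).mul continuous_const)

/-- `theta = Ad D_rho` on `A`. -/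
noncomputable def theta : A ≃⋆ₐ[ℂ] A where
  toFun a := ⟨Drho * (a : BH) * star Drho, Drho_conj_mem a⟩
  invFun a := ⟨star Drho * (a : BH) * Drho, star_Drho_conj_mem a⟩
  left_inv a := by
    apply Subtype.ext
    show star Drho * (Drho * (a : BH) * star Drho) * Drho = a
    rw [show star Drho * (Drho * (a : BH) * star Drho) * Drho = (star Drho * Drho) * (a : BH) * (star Drho * Drho) by
      simp only [mul_assoc], star_Drho_mul, one_mul, mul_one]
  right_inv a := by
    apply Subtype.ext
    show Drho * (star Drho * (a : BH) * Drho) * star Drho = a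
    rw [show Drho * (star Drho * (a : BH) * Drho) * star Drho = (Drho * star Drho) * (a : BH) * (Drho * star Drho) by
      simp only [mul_assoc], Drho_mul_star, one_mul, mul_one]
  map_mul' a b := by
    apply Subtype.ext
    show Drho * ((a : BH) * (b : BH)) * star Drho = (Drho * (a : BH) * star Drho) * (Drho * (b : BH) * star Drho)
    rw [show (Drho * (a : BH) * star Drho) * (Drho * (b : BH) * star Drho) =
      Drho * ((a : BH) * (star Drho * Drho) * (b : BH)) * star Drho by simp only [mul_assoc], star_Drho_mul, mul_one]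
  map_add' a b := by
    apply Subtype.ext
    show Drho * ((a : BH) + (b : BH)) * star Drho = Drho * (a : BH) * star Drho + Drho * (b : BH) * star Drho
    rw [mul_add, add_mul]
  map_star' a := by
    apply Subtype.ext
    show Drho * (star (a : BH)) * star Drho = star (Drho * (a : BH) * star Drho)
    rw [star_mul, star_mul, star_star, mul_assoc]
  map_smul' c a := by
    apply Subtype.ext
    show Drho * (c • (a : BH)) * star Drho = c • (Drho * (a : BH) * star Drho)
    rw [mul_smul_comm, smul_mul_assoc]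

theorem theta_coe (a : A) : ((theta a : A) : BH) = Drho * (a : BH) * star Drho := rfl

theorem theta_symm_coe (a : A) : ((theta.symm a : A) : BH) = star Drho * (a : BH) * Drho := rfl

private theorem norm_conj_le {S S' : BH} (h : ‖S‖ ≤ 1) (h' : ‖S'‖ ≤ 1) (x : BH) :
    ‖S * x * S'‖ ≤ ‖x‖ := by
  have h1 : ‖S * x‖ ≤ ‖x‖ := by
    calc ‖S * x‖ ≤ ‖S‖ * ‖x‖ := norm_mul_le _ _
      _ ≤ 1 * ‖x‖ := mul_le_mul_of_nonneg_right h (norm_nonneg _)
      _ = ‖x‖ := one_mul _
  calc ‖S * x * S'‖ ≤ ‖S * x‖ * ‖S'‖ := norm_mul_le _ _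
    _ ≤ ‖x‖ * 1 := mul_le_mul h1 h' (norm_nonneg _) (norm_nonneg _)
    _ = ‖x‖ := mul_one _

theorem norm_theta (a : A) : ‖theta a‖ = ‖a‖ := by
  refine le_antisymm ?_ ?_
  · show ‖Drho * (a : BH) * star Drho‖ ≤ ‖(a : BH)‖
    exact norm_conj_le norm_Drho_le norm_star_Drho_le _
  · have h1 : star Drho * (Drho * (a : BH) * star Drho) * Drho = a := by
      rw [show star Drho * (Drho * (a : BH) * star Drho) * Drho =
        (star Drho * Drho) * (a : BH) * (star Drho * Drho) by
        simp only [mul_assoc], star_Drho_mul, one_mul, mul_one]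
    show ‖(a : BH)‖ ≤ ‖Drho * (a : BH) * star Drho‖
    conv_lhs => rw [← h1]
    exact norm_conj_le norm_star_Drho_le norm_Drho_le _

theorem theta_g (u : V) : theta (gA u) = rhov u • gA u := by
  apply Subtype.ext
  exact Drho_g_conj u

theorem theta_XA (i : ℕ) : theta (XA i) = XA i := by
  apply Subtype.ext
  exact Drho_Y_conj _ _

theorem theta_CA' : theta CA' = CA' := by
  apply Subtype.ext
  exact Drho_Y_conj _ _

theorem theta_v0 : theta (gA v0) = gA v0 := by
  rw [theta_g, rhov_v0, one_smul]

theorem gA_unitary (u : V) : star (gA u) * gA u = 1 ∧ gA u * star (gA u) = 1 :=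
  ⟨Subtype.ext (star_g_mul u), Subtype.ext (g_mul_star u)⟩

theorem theta_tn (n : ℕ) (hn : 1 ≤ n) : theta (gA (vn n)) = kap • gA (vn n) := by
  rw [theta_g, rhov_vn hn]

private theorem norm_star_g_le (u : V) : ‖star (g u)‖ ≤ 1 := by
  rw [ContinuousLinearMap.star_eq_adjoint, LinearIsometryEquiv.norm_map]
  exact norm_g_le u

private theorem ta_conv {a : BH} (ha : a ∈ A) :
    Tendsto (fun n => g (vn n) * a * star (g (vn n))) atTop (𝓝 (Drho * a * star Drho)) := by
  refine A_induction (p := fun x => Tendsto (fun n => g (vn n) * x * star (g (vn n))) atTop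
    (𝓝 (Drho * x * star Drho))) ?_ ?_ ?_ ?_ ?_ ?_ ?_ ?_ ?_ ha
  · intro t k
    rw [Drho_Y_conj]
    have h1 : (fun n => g (vn n) * Y t k * star (g (vn n))) = fun _ => Y t k := by
      funext n
      rw [g_Y, xf_vn, zero_mul, neg_zero, ch_zero, one_smul, mul_assoc, g_mul_star, mul_one]
    rw [h1]
    exact tendsto_const_nhds
  · intro u
    rw [Drho_g_conj]
    obtain ⟨M, hM⟩ := exists_mem_VF u
    refine tendsto_const_nhds.congr' ?_
    filter_upwards [eventually_ge_atTop M] with n hn
    rw [g_conj, om_vn (VF_mono hn hM)]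
    rfl
  · intro b
    rw [Drho_Sg_conj]
    have h1 : (fun n => g (vn n) * Sg b * star (g (vn n))) = fun _ => Sg b := by
      funext n
      rw [← Sg_g, mul_assoc, g_mul_star, mul_one]
    rw [h1]
    exact tendsto_const_nhds
  · intro b
    rw [Drho_star_Sg_conj]
    have h1 : (fun n => g (vn n) * star (Sg b) * star (g (vn n))) = fun _ => star (Sg b) := by
      funext n
      rw [← star_Sg_g, mul_assoc, g_mul_star, mul_one]
    rw [h1]
    exact tendsto_const_nhds
  · rw [mul_one, Drho_mul_star]
    have h1 : (fun n => g (vn n) * 1 * star (g (vn n))) = fun _ => 1 := by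
      funext n
      rw [mul_one, g_mul_star]
    rw [h1]
    exact tendsto_const_nhds
  · intro x y hx hy
    rw [mul_add, add_mul]
    refine (hx.add hy).congr fun n => ?_
    rw [mul_add, add_mul]
  · intro x y hx hy
    rw [Drho_mul_conj]
    refine (hx.mul hy).congr fun n => ?_
    rw [show (g (vn n) * x * star (g (vn n))) * (g (vn n) * y * star (g (vn n))) =
      g (vn n) * (x * (star (g (vn n)) * g (vn n)) * y) * star (g (vn n)) by
        simp only [mul_assoc], star_g_mul, mul_one]
  · intro c x hx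
    rw [mul_smul_comm, smul_mul_assoc]
    refine (hx.const_smul c).congr fun n => ?_
    rw [mul_smul_comm, smul_mul_assoc]
  · refine isClosed_of_closure_subset fun x hx => ?_
    show Tendsto (fun n => g (vn n) * x * star (g (vn n))) atTop (𝓝 (Drho * x * star Drho))
    rw [Metric.tendsto_atTop]
    intro ε hε
    obtain ⟨y, hy, hxy⟩ := Metric.mem_closure_iff.1 hx (ε / 3) (by positivity)
    have hy' : Tendsto (fun n => g (vn n) * y * star (g (vn n))) atTop (𝓝 (Drho * y * star Drho)) := hy
    rw [Metric.tendsto_atTop] at hy'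
    obtain ⟨N, hN⟩ := hy' (ε / 3) (by positivity)
    refine ⟨N, fun n hn => ?_⟩
    have h1 := hN n hn
    rw [dist_eq_norm] at h1 hxy ⊢
    have e1 : g (vn n) * x * star (g (vn n)) - Drho * x * star Drho =
        g (vn n) * (x - y) * star (g (vn n)) + (g (vn n) * y * star (g (vn n)) - Drho * y * star Drho) -
          Drho * (x - y) * star Drho := by
      rw [mul_sub, sub_mul, mul_sub, sub_mul]
      abel
    rw [e1]
    have h2 := norm_conj_le (norm_g_le (vn n)) (norm_star_g_le (vn n)) (x - y)
    have h3 := norm_conj_le norm_Drho_le norm_star_Drho_le (x - y)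
    have h4 := norm_sub_le (g (vn n) * (x - y) * star (g (vn n)) +
      (g (vn n) * y * star (g (vn n)) - Drho * y * star Drho)) (Drho * (x - y) * star Drho)
    have h5 := norm_add_le (g (vn n) * (x - y) * star (g (vn n)))
      (g (vn n) * y * star (g (vn n)) - Drho * y * star Drho)
    linarith

theorem tn_conv (a : A) : Tendsto (fun n => gA (vn n) * a * star (gA (vn n))) atTop (𝓝 (theta a)) := by
  rw [tendsto_subtype_rng]
  exact ta_conv a.2

end OE
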