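import Mathlib
import Pool.Agent.Work.MP_06ef15_an.TA
import Pool.Agent.Work.MP_06ef15_an.GB

/-!
# (11.1): `theta(x) - x` is small on `ran P_B` for `x` almost central  (M)

Let `Rc = R (inr true) 0`, `P = PB` or `PV` (`PV = PB * PV`), `b = P x P`, `‖x P - b‖ ≤ e'`.
`Dchi_comm_*`: `Dchi b - b Dchi = P (Dchi b - b Dchi)` (`Dchi_PB`, `Dchi_PV`), so its norm is the norm of `Rc (Dchi b - b Dchi)`
(`norm_R_PB`, pointwise).  `Rc Dchi b = Cc b` (`Cc_PB`), `Cc b = Cc x P - Cc (x P - b)`, error `2 e'` (`norm_Y_le`);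
`Rc b Dchi = Rc x P Dchi - Rc (x P - b) Dchi`, error `2 e'` (`norm_R_le`), and `Rc x P Dchi = x Rc Dchi P = x Cc P` (`R_A`, `Cc_PB`).
So the norm is at most `‖(Cc x - x Cc) P‖ + 4 e' ≤ d + 4 e'`.
`theta_central` (`d = δ`): `e' = 3/2 d` (`gap_PB`).  Put `G = g (-pp 0)`, `Gr = gr (pp 0)`, `b = PB x PB`.
(i) `Drho * PB = G * Gr * Dchi * PB` (`Drho_eq_PB`), all three commute with `PB`.  So `Drho b - b Drho = G Gr Dchi b - b G Gr Dchi =
    G Gr (Dchi b - b Dchi) + G (Gr b - b Gr) Dchi + (G b - b G) Gr Dchi`, the middle term is `0` (`gr_A`, `gr_PB`), the last one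
    has norm at most `‖G x - x G‖ ≤ d` (`G` is a multiple of modulus one of `star (g (pp 0))`, `star_g`, and
    `u^* x - x u^* = u^* (x u - u x) u^*`), the first one at most `7 d`.  So `‖Drho b - b Drho‖ ≤ 8 d`, `‖Drho b star Drho - b‖ ≤ 8 d`.
(ii) `theta x PB - x PB = Drho (x PB - b) star Drho + (Drho b star Drho - b) + (b - x PB)`: at most `3/2 d + 8 d + 3/2 d = 11 d`
    (`PB * star Drho = star Drho * PB`: adjoint of `Drho_PB`).
-/

set_option autoImplicit false

open scoped ComplexConjugate InnerProductSpace Classical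
open ContinuousLinearMap (adjoint)

namespace OE

private theorem tb_norm_Dchi : ‖Dchi‖ ≤ 1 := by
  unfold Dchi
  exact norm_dg_le zero_le_one fun i : Idx => norm_ch_le _

private theorem tb_norm2 {S S' : BH} (h : ‖S‖ ≤ 1) (h' : ‖S'‖ ≤ 1) (x : BH) :
    ‖S * x * S'‖ ≤ ‖x‖ := by
  have h1 : ‖S * x‖ ≤ ‖x‖ := by
    refine (norm_mul_le _ _).trans ?_
    nlinarith [norm_nonneg x]
  refine (norm_mul_le _ _).trans ?_
  nlinarith [norm_nonneg (S * x), norm_nonneg S']

private theorem tb_comm {P : BH} (hP : PB * P = P) (hD : Dchi * P = P * Dchi) (hn : ‖P‖ ≤ 1)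
    {a : A} {d e' : ℝ} (h1 : ‖(a : BH) * P - P * (a : BH) * P‖ ≤ e')
    (h2 : ‖Cc * (a : BH) - (a : BH) * Cc‖ ≤ d) :
    ‖Dchi * (P * (a : BH) * P) - (P * (a : BH) * P) * Dchi‖ ≤ d + 4 * e' := by
  set b : BH := P * (a : BH) * P with hb
  set Rc : BH := R (Sum.inr true) 0 with hRc
  set D : BH := Dchi * b - b * Dchi with hDef
  have he' : 0 ≤ e' := (norm_nonneg _).trans h1
  have hCP : Rc * Dchi * P = Cc * P := by
    calc Rc * Dchi * P = Rc * Dchi * (PB * P) := by rw [hP]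
      _ = (Rc * Dchi * PB) * P := by simp only [mul_assoc]
      _ = Cc * P := by rw [← Cc_PB, mul_assoc, hP]
  have hPBD : PB * D = D := by
    have e1 : D = P * (Dchi * ((a : BH) * P) - (a : BH) * (P * Dchi)) := by
      rw [hDef, hb, mul_sub]
      have e2 : Dchi * (P * (a : BH) * P) = P * (Dchi * ((a : BH) * P)) := by
        calc Dchi * (P * (a : BH) * P) = (Dchi * P) * ((a : BH) * P) := by simp only [mul_assoc]
          _ = P * (Dchi * ((a : BH) * P)) := by rw [hD, mul_assoc]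
      rw [e2]
      simp only [mul_assoc]
    rw [e1, ← mul_assoc, hP]
  have hle : ‖D‖ ≤ ‖Rc * D‖ := by
    refine ContinuousLinearMap.opNorm_le_bound _ (norm_nonneg _) fun y => ?_
    have e1 : PB (D y) = D y := DFunLike.congr_fun hPBD y
    have e2 := norm_R_PB (Sum.inr true) 0 (D y)
    rw [e1] at e2
    rw [← e2]
    exact (Rc * D).le_opNorm y
  refine hle.trans ?_
  have hRb : Rc * (Dchi * b) = Cc * b := by
    calc Rc * (Dchi * b) = (Rc * Dchi * P) * ((a : BH) * P) := by rw [hb]; simp only [mul_assoc]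
      _ = (Cc * P) * ((a : BH) * P) := by rw [hCP]
      _ = Cc * b := by rw [hb]; simp only [mul_assoc]
  have hRaP : Rc * ((a : BH) * P * Dchi) = (a : BH) * Cc * P := by
    have e1 : Rc * (a : BH) = (a : BH) * Rc := R_A _ _ a
    calc Rc * ((a : BH) * P * Dchi) = (Rc * (a : BH)) * (P * Dchi) := by simp only [mul_assoc]
      _ = (a : BH) * (Rc * Dchi * P) := by rw [e1, ← hD]; simp only [mul_assoc]
      _ = (a : BH) * Cc * P := by rw [hCP, mul_assoc]
  have hfin : Rc * D = (Cc * (a : BH) - (a : BH) * Cc) * P - Cc * ((a : BH) * P - b) +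
      Rc * ((a : BH) * P - b) * Dchi := by
    have e1 : Rc * D = Rc * (Dchi * b) - Rc * ((a : BH) * P * Dchi) +
        Rc * ((a : BH) * P - b) * Dchi := by
      rw [hDef]; noncomm_ring
    rw [e1, hRb, hRaP]
    noncomm_ring
  rw [hfin]
  have h3 : ‖(Cc * (a : BH) - (a : BH) * Cc) * P‖ ≤ d := by
    refine (norm_mul_le _ _).trans ?_
    nlinarith [norm_nonneg (Cc * (a : BH) - (a : BH) * Cc), norm_nonneg P]
  have h4 : ‖Cc * ((a : BH) * P - b)‖ ≤ 2 * e' := by
    refine (norm_mul_le _ _).trans ?_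
    have := norm_Y_le (Sum.inr true) 0
    have h5 : ‖Cc‖ ≤ 2 := this
    nlinarith [norm_nonneg ((a : BH) * P - b), norm_nonneg Cc]
  have h6 : ‖Rc * ((a : BH) * P - b) * Dchi‖ ≤ 2 * e' := by
    have h7 : ‖Rc‖ ≤ 2 := norm_R_le _ _
    have h8 : ‖Rc * ((a : BH) * P - b)‖ ≤ 2 * e' := by
      refine (norm_mul_le _ _).trans ?_
      nlinarith [norm_nonneg ((a : BH) * P - b), norm_nonneg Rc]
    refine (norm_mul_le _ _).trans ?_
    nlinarith [norm_nonneg (Rc * ((a : BH) * P - b)), norm_nonneg Dchi, tb_norm_Dchi]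
  have h9 := norm_add_le ((Cc * (a : BH) - (a : BH) * Cc) * P - Cc * ((a : BH) * P - b))
    (Rc * ((a : BH) * P - b) * Dchi)
  have h10 := norm_sub_le ((Cc * (a : BH) - (a : BH) * Cc) * P) (Cc * ((a : BH) * P - b))
  linarith

theorem Dchi_comm_PB {a : A} {d e' : ℝ} (h1 : ‖(a : BH) * PB - PB * (a : BH) * PB‖ ≤ e')
    (h2 : ‖Cc * (a : BH) - (a : BH) * Cc‖ ≤ d) :
    ‖Dchi * (PB * (a : BH) * PB) - (PB * (a : BH) * PB) * Dchi‖ ≤ d + 4 * e' := tb_comm (by rw [PB_idem]) Dchi_PB norm_PB_le h1 h2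

theorem Dchi_comm_PV {a : A} {d e' : ℝ} (h1 : ‖(a : BH) * PV - PV * (a : BH) * PV‖ ≤ e')
    (h2 : ‖Cc * (a : BH) - (a : BH) * Cc‖ ≤ d) :
    ‖Dchi * (PV * (a : BH) * PV) - (PV * (a : BH) * PV) * Dchi‖ ≤ d + 4 * e' := tb_comm PB_mul_PV Dchi_PV norm_PV_le h1 h2

/-- (11.1) -/
theorem theta_central (x : A) {δ : ℝ} (hδ : 0 ≤ δ) (hx : ‖x‖ ≤ 1)
    (hX : ∀ i < 9, ‖X i * (x : BH) - (x : BH) * X i‖ ≤ δ) (hC : ‖Cc * (x : BH) - (x : BH) * Cc‖ ≤ δ)
    (hg : ‖g (pp 0) * (x : BH) - (x : BH) * g (pp 0)‖ ≤ δ) :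
    ‖((theta x : A) : BH) * PB - (x : BH) * PB‖ ≤ 11 * δ := by
  set G : BH := g (-pp 0) with hG
  set Gr : BH := gr (pp 0) with hGr
  set b : BH := PB * (x : BH) * PB with hb
  have hgap : ‖(x : BH) * PB - b‖ ≤ 3 / 2 * δ := gap_PB x hδ hX
  have hD : ‖Dchi * b - b * Dchi‖ ≤ δ + 4 * (3 / 2 * δ) := Dchi_comm_PB hgap hC
  have hGs : star (g (pp 0)) = G := by
    rw [star_g, bf_pp_pp, ch_zero, one_smul]
  have hGn : ‖G‖ ≤ 1 := norm_g_le _
  have hGrn : ‖Gr‖ ≤ 1 := norm_gr_le _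
  have hGx : ‖G * (x : BH) - (x : BH) * G‖ ≤ δ := by
    have h1 : G * (x : BH) - (x : BH) * G =
        G * ((x : BH) * g (pp 0) - g (pp 0) * (x : BH)) * G := by
      have h2 : G * g (pp 0) = 1 := by rw [← hGs, star_g_mul]
      have h3 : g (pp 0) * G = 1 := by rw [← hGs, g_mul_star]
      have h4 : G * ((x : BH) * g (pp 0) - g (pp 0) * (x : BH)) * G =
          G * (x : BH) * (g (pp 0) * G) - (G * g (pp 0)) * (x : BH) * G := by
        noncomm_ring
      rw [h4, h2, h3, mul_one, one_mul]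
    rw [h1]
    refine (tb_norm2 hGn hGn _).trans ?_
    rw [norm_sub_rev]
    exact hg
  have hGb : ‖G * b - b * G‖ ≤ δ := by
    have h1 : G * b - b * G = PB * (G * (x : BH) - (x : BH) * G) * PB := by
      have h2 : G * PB = PB * G := g_PB _
      have h3 : G * b = PB * (G * (x : BH)) * PB := by
        rw [hb, ← mul_assoc, ← mul_assoc, h2]
        simp only [mul_assoc]
      have h4 : b * G = PB * ((x : BH) * G) * PB := by
        rw [hb, mul_assoc, ← h2]
        simp only [mul_assoc]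
      rw [h3, h4, mul_sub, sub_mul]
    rw [h1]
    exact (tb_norm2 norm_PB_le norm_PB_le _).trans hGx
  have hGrb : Gr * b = b * Gr := by
    have h2 : Gr * PB = PB * Gr := gr_PB _
    have h3 : Gr * (x : BH) = (x : BH) * Gr := gr_A _ x
    calc Gr * b = (Gr * PB) * (x : BH) * PB := by rw [hb]; simp only [mul_assoc]
      _ = PB * (Gr * (x : BH)) * PB := by rw [h2]; simp only [mul_assoc]
      _ = PB * (x : BH) * (Gr * PB) := by rw [h3]; simp only [mul_assoc]
      _ = b * Gr := by rw [h2, hb]; simp only [mul_assoc]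
  have hDr : ‖Drho * b - b * Drho‖ ≤ 8 * δ := by
    have h1 : Drho * b = G * Gr * (Dchi * b) := by
      calc Drho * b = (Drho * PB) * (x : BH) * PB := by rw [hb]; simp only [mul_assoc]
        _ = (G * Gr * Dchi * PB) * (x : BH) * PB := by rw [Drho_eq_PB]
        _ = G * Gr * (Dchi * b) := by rw [hb]; simp only [mul_assoc]
    have h2 : b * Drho = b * G * Gr * Dchi := by
      have e1 : G * PB = PB * G := g_PB _
      have e2 : Gr * PB = PB * Gr := gr_PB _
      calc b * Drho = PB * (x : BH) * (PB * Drho) := by rw [hb]; simp only [mul_assoc]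
        _ = PB * (x : BH) * (G * Gr * Dchi * PB) := by rw [← Drho_PB, Drho_eq_PB]
        _ = PB * (x : BH) * (G * (Gr * (Dchi * PB))) := by simp only [mul_assoc]
        _ = PB * (x : BH) * (G * ((Gr * PB) * Dchi)) := by rw [Dchi_PB]; simp only [mul_assoc]
        _ = PB * (x : BH) * ((G * PB) * (Gr * Dchi)) := by rw [e2]; simp only [mul_assoc]
        _ = b * G * Gr * Dchi := by rw [e1, hb]; simp only [mul_assoc]
    have h3 : Drho * b - b * Drho = G * Gr * (Dchi * b - b * Dchi) + (G * b - b * G) * (Gr * Dchi) := by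
      rw [h1, h2]
      have h4 : G * Gr * (Dchi * b - b * Dchi) + (G * b - b * G) * (Gr * Dchi) =
          G * Gr * (Dchi * b) - b * G * Gr * Dchi + G * (b * Gr - Gr * b) * Dchi := by
        noncomm_ring
      rw [h4, hGrb, sub_self, mul_zero, zero_mul, add_zero]
    rw [h3]
    have hGG : ‖G * Gr‖ ≤ 1 :=
      (norm_mul_le _ _).trans (mul_le_one₀ hGn (norm_nonneg _) hGrn)
    have hGD : ‖Gr * Dchi‖ ≤ 1 :=
      (norm_mul_le _ _).trans (mul_le_one₀ hGrn (norm_nonneg _) tb_norm_Dchi)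
    have h5 : ‖G * Gr * (Dchi * b - b * Dchi)‖ ≤ δ + 4 * (3 / 2 * δ) := by
      refine (norm_mul_le _ _).trans ?_
      nlinarith [norm_nonneg (Dchi * b - b * Dchi), norm_nonneg (G * Gr)]
    have h6 : ‖(G * b - b * G) * (Gr * Dchi)‖ ≤ δ := by
      refine (norm_mul_le _ _).trans ?_
      nlinarith [norm_nonneg (G * b - b * G), norm_nonneg (Gr * Dchi)]
    refine (norm_add_le _ _).trans ?_
    linarith
  have hsD : ‖star Drho‖ ≤ 1 := by
    rw [ContinuousLinearMap.star_eq_adjoint, LinearIsometryEquiv.norm_map]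
    exact norm_Drho_le
  have hconj : ‖Drho * b * star Drho - b‖ ≤ 8 * δ := by
    have h1 : Drho * b * star Drho - b = (Drho * b - b * Drho) * star Drho := by
      rw [sub_mul, mul_assoc b, Drho_mul_star, mul_one]
    rw [h1]
    refine (norm_mul_le _ _).trans ?_
    nlinarith [norm_nonneg (Drho * b - b * Drho), norm_nonneg (star Drho)]
  have hPs : star Drho * PB = PB * star Drho := by
    have h := congrArg star Drho_PB
    rw [star_mul, star_mul, star_PB] at h
    exact h.symm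
  have hfin : ((theta x : A) : BH) * PB - (x : BH) * PB =
      Drho * ((x : BH) * PB - b) * star Drho + (Drho * b * star Drho - b) -
        ((x : BH) * PB - b) := by
    rw [theta_coe, mul_assoc _ (star Drho) PB, hPs]
    noncomm_ring
  rw [hfin]
  have h7 := tb_norm2 norm_Drho_le hsD ((x : BH) * PB - b)
  have h8 := norm_sub_le (Drho * ((x : BH) * PB - b) * star Drho + (Drho * b * star Drho - b))
    ((x : BH) * PB - b)
  have h9 := norm_add_le (Drho * ((x : BH) * PB - b) * star Drho) (Drho * b * star Drho - b)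
  linarith

end OE
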