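import Mathlib
import Pool.Agent.Work.MP_06ef15_an.CF

/-!
# (11.2): `g w`, `w ∈ V1 k`, is almost central  (S-M)

`V1_central`: `A_induction` (AN2) with `p x := ∀ ε > 0, ∃ k, ∀ w, IsV1 k w → ‖g w * x - x * g w‖ ≤ ε`.  `Y t k`: `Y_g` with
`xf w = 0`; `Sg b`, `star (Sg b)`: `Sg_g`, `star_Sg_g`; `g u`: choose `k` with `u ∈ VF k` (`exists_mem_VF`), `om w u = 0`
(`isV1_om_VF`), so `g w g u = g u g w` (`g_mul` twice, `add_comm`, `bf w u = bf u w`).  Sums, products: take the maximum of the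
two `k` (`isV1_mono`), `‖[g w, x y]‖ ≤ ‖[g w,x]‖ ‖y‖ + ‖x‖ ‖[g w,y]‖`; closedness: `‖[g w, x - y]‖ ≤ 2 ‖x - y‖` (`norm_g_le`).
`nc_tail`: for `a`, `ε` take `k`; for `n ≥ k` `isV1_mono`.
-/

set_option autoImplicit false

open scoped ComplexConjugate InnerProductSpace Classical Topology
open ContinuousLinearMap (adjoint)
open Filter

namespace OE

/-- (11.2) -/
theorem V1_central (a : A) (ε : ℝ) (hε : 0 < ε) :
    ∃ k, ∀ w, IsV1 k w → ‖g w * (a : BH) - (a : BH) * g w‖ ≤ ε := by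
  refine A_induction (p := fun x => ∀ ε : ℝ, 0 < ε → ∃ k, ∀ w, IsV1 k w → ‖g w * x - x * g w‖ ≤ ε)
    ?_ ?_ ?_ ?_ ?_ ?_ ?_ ?_ ?_ a.2 ε hε
  · intro t k ε hε
    refine ⟨0, fun w hw => ?_⟩
    rw [Y_g, hw.1, zero_mul, ch_zero, one_smul, sub_self, norm_zero]
    exact hε.le
  · intro u ε hε
    obtain ⟨k, hk⟩ := exists_mem_VF u
    refine ⟨k, fun w hw => ?_⟩
    have h1 : bf w u = bf u w := sub_eq_zero.1 (isV1_om_VF hw hk)
    rw [g_mul, g_mul, h1, add_comm w u, sub_self, norm_zero]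
    exact hε.le
  · intro b ε hε
    refine ⟨0, fun w _ => ?_⟩
    rw [Sg_g, sub_self, norm_zero]
    exact hε.le
  · intro b ε hε
    refine ⟨0, fun w _ => ?_⟩
    rw [star_Sg_g, sub_self, norm_zero]
    exact hε.le
  · intro ε hε
    refine ⟨0, fun w _ => ?_⟩
    rw [mul_one, one_mul, sub_self, norm_zero]
    exact hε.le
  · intro x y hx hy ε hε
    obtain ⟨k1, h1⟩ := hx (ε / 2) (by linarith)
    obtain ⟨k2, h2⟩ := hy (ε / 2) (by linarith)
    refine ⟨max k1 k2, fun w hw => ?_⟩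
    have h3 : g w * (x + y) - (x + y) * g w = (g w * x - x * g w) + (g w * y - y * g w) := by
      rw [mul_add, add_mul]; abel
    rw [h3]
    have h4 := h1 w (isV1_mono (le_max_left _ _) hw)
    have h5 := h2 w (isV1_mono (le_max_right _ _) hw)
    refine (norm_add_le _ _).trans ?_
    linarith
  · intro x y hx hy ε hε
    have hx0 := norm_nonneg x
    have hy0 := norm_nonneg y
    obtain ⟨k1, h1⟩ := hx (ε / (2 * (‖y‖ + 1))) (by positivity)
    obtain ⟨k2, h2⟩ := hy (ε / (2 * (‖x‖ + 1))) (by positivity)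
    refine ⟨max k1 k2, fun w hw => ?_⟩
    have h3 : g w * (x * y) - (x * y) * g w = (g w * x - x * g w) * y + x * (g w * y - y * g w) := by
      rw [sub_mul, mul_sub]
      simp only [mul_assoc]
      abel
    rw [h3]
    have h4 := h1 w (isV1_mono (le_max_left _ _) hw)
    have h5 := h2 w (isV1_mono (le_max_right _ _) hw)
    have h6 : ‖(g w * x - x * g w) * y‖ ≤ ε / (2 * (‖y‖ + 1)) * ‖y‖ :=
      (norm_mul_le _ _).trans (mul_le_mul_of_nonneg_right h4 hy0)
    have h7 : ‖x * (g w * y - y * g w)‖ ≤ ‖x‖ * (ε / (2 * (‖x‖ + 1))) :=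
      (norm_mul_le _ _).trans (mul_le_mul_of_nonneg_left h5 hx0)
    have h8 : ε / (2 * (‖y‖ + 1)) * ‖y‖ ≤ ε / 2 := by
      rw [div_mul_eq_mul_div, div_le_div_iff₀ (by positivity) (by norm_num)]
      nlinarith
    have h9 : ‖x‖ * (ε / (2 * (‖x‖ + 1))) ≤ ε / 2 := by
      rw [mul_div_assoc', div_le_div_iff₀ (by positivity) (by norm_num)]
      nlinarith
    refine (norm_add_le _ _).trans ?_
    linarith
  · intro c x hx ε hε
    have hc0 := norm_nonneg c
    obtain ⟨k1, h1⟩ := hx (ε / (‖c‖ + 1)) (by positivity)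
    refine ⟨k1, fun w hw => ?_⟩
    have h3 : g w * (c • x) - (c • x) * g w = c • (g w * x - x * g w) := by
      rw [mul_smul_comm, smul_mul_assoc, smul_sub]
    rw [h3, norm_smul]
    have h4 := mul_le_mul_of_nonneg_left (h1 w hw) hc0
    have h8 : ‖c‖ * (ε / (‖c‖ + 1)) ≤ ε := by
      rw [mul_div_assoc', div_le_iff₀ (by positivity)]
      nlinarith
    linarith
  · refine isClosed_of_closure_subset fun x hx ε hε => ?_
    obtain ⟨y, hy, hxy⟩ := Metric.mem_closure_iff.1 hx (ε / 3) (by linarith)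
    obtain ⟨k, hk⟩ := hy (ε / 3) (by linarith)
    refine ⟨k, fun w hw => ?_⟩
    rw [dist_eq_norm] at hxy
    have h3 : g w * x - x * g w = (g w * y - y * g w) + (g w * (x - y) - (x - y) * g w) := by
      rw [mul_sub, sub_mul]; abel
    have h4 : ‖g w * (x - y)‖ ≤ ‖x - y‖ := by
      refine (norm_mul_le _ _).trans ?_
      have := norm_g_le w
      nlinarith [norm_nonneg (x - y)]
    have h5 : ‖(x - y) * g w‖ ≤ ‖x - y‖ := by
      refine (norm_mul_le _ _).trans ?_
      have := norm_g_le w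
      nlinarith [norm_nonneg (x - y)]
    have h6 := norm_sub_le (g w * (x - y)) ((x - y) * g w)
    have h7 := hk w hw
    rw [h3]
    refine (norm_add_le _ _).trans ?_
    linarith

theorem V1_central_finset (F : Finset A) (ε : ℝ) (hε : 0 < ε) :
    ∃ k, ∀ k' : ℕ, k ≤ k' → ∀ a ∈ F, ∀ w, IsV1 k' w → ‖g w * (a : BH) - (a : BH) * g w‖ ≤ ε := by
  induction F using Finset.induction_on with
  | empty => exact ⟨0, fun k' _ a ha => absurd ha (Finset.notMem_empty a)⟩
  | insert b F _ ih =>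
    obtain ⟨k1, h1⟩ := ih
    obtain ⟨k2, h2⟩ := V1_central b ε hε
    refine ⟨max k1 k2, fun k' hk' a ha w hw => ?_⟩
    rcases Finset.mem_insert.1 ha with rfl | ha
    · exact h2 w (isV1_mono ((le_max_right _ _).trans hk') hw)
    · exact h1 k' ((le_max_left _ _).trans hk') a ha w hw

theorem nc_tail {w : ℕ → V} (h : ∀ n, IsV1 n (w n)) : NC (fun n => gA (w n)) := by
  intro a
  rw [Metric.tendsto_atTop]
  intro ε hε
  obtain ⟨k, hk⟩ := V1_central a (ε / 2) (by linarith)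
  refine ⟨k, fun n hn => ?_⟩
  have h1 := hk (w n) (isV1_mono hn (h n))
  rw [Real.dist_eq, sub_zero, abs_of_nonneg (norm_nonneg _)]
  have h2 : ‖gA (w n) * a - a * gA (w n)‖ = ‖g (w n) * (a : BH) - (a : BH) * g (w n)‖ := rfl
  rw [h2]
  linarith

end OE
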