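import Mathlib
import Pool.Agent.Work.MP_06ef15_an.GX
import Pool.Agent.Work.MP_06ef15_an.TB
import Pool.Agent.Work.MP_06ef15_an.TC

/-!
# Interface of section 11 (owner: helper72): `theta`, `t_n`, central triviality

`theta`, `theta_coe`, `norm_theta`, `theta_g`, `vn`, `theta_tn`, `tn_conv`: TA; `theta_central`: TB; `V1_central`: TC.
-/
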