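import Mathlib
import Pool.Agent.Work.MP_06ef15_an.OX
import Pool.Agent.Work.MP_06ef15_an.TX
import Pool.Agent.Work.MP_06ef15_an.EZ

/-!
# Interface of sections 12 and 13 (owner: helper78)
-/

set_option autoImplicit false

open scoped ComplexConjugate InnerProductSpace Classical Topology
open Filter

namespace OE

/-- the shifted sequence `t_n = g (v_(n+1))`. -/
noncomputable def thetaData : ThetaData where
  th := (theta : A →⋆ₐ[ℂ] A)
  thi := (theta.symm : A →⋆ₐ[ℂ] A)
  th_thi a := theta.apply_symm_apply a
  thi_th a := theta.symm_apply_apply a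
  t n := gA (vn (n + 1))
  t_unit n := ⟨Subtype.ext (star_g_mul _), Subtype.ext (g_mul_star _)⟩
  t_lim a := by
    have h1 := (tn_conv a).comp (tendsto_add_atTop_nat 1)
    have h2 := tendsto_iff_norm_sub_tendsto_zero.mp h1
    exact h2
  th_t n := theta_tn (n + 1) (Nat.succ_le_succ (Nat.zero_le n))
  bound x d hx hX hC hg := by
    have hd : 0 ≤ d := (norm_nonneg _).trans hC
    exact theta_central x hd hx hX hC hg
  cent a ε hε := V1_central a ε hε

theorem gapV : GapV := by
  intro x d h
  have hd : 0 ≤ d := (norm_nonneg _).trans (h 0 (by norm_num))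
  exact gap_PV x hd h

theorem symC : SymC := ⟨fun a t k => R_A t k a, fun a u => gr_A u a⟩

theorem lemJ : LemJ := fun σ f hnc h0 h1 hB => lemmaJ σ f hnc h0 h1 hB

theorem antiIso : AntiIso := fun σ a => σ.norm_f a

theorem exists_endData (σ : Anti) (ε : ℝ) (hε : 0 < ε) : Nonempty (EndData ε) :=
  exists_endData_of thetaData lemJ antiIso gapV symC σ ε hε

end OE
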