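import Mathlib
import Pool.Agent.Work.MP_06ef15_an.FA

/-!
# The commutant of the right translations on `ℓ²(V)`; coefficients; the trace; the 2-norm

`InR T`: `T` commutes with all `rg u`.  `cf T s = (T e_0)_s`, `tau T = cf T 0`, `n2 T = ‖T e_0‖`.

* `apply_e`: `T e_v = T rg_v e_0 = rg_v T e_0` (`rg v (e 0) = ch (bf 0 v) • e (0 + v) = e v`).
* `InR.adj`: `rg u * star T = ` (up to the scalar of `star_rg`) the adjoint of `T * rg (-u) = rg (-u) * T`.
* `cf_star`: `(T† e_0)_s = conj ((T e_s)_0)` (`adj_coef`), `(T e_s)_0 = (rg s (T e_0))_0 = ch (bf (-s) s) * cf T (-s)`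
  (the coordinate at `v + s = 0` of `rg s x` is `ch (bf v s) * x v`, `v = -s`; use `rg s` = unitary with `star_rg`, or
  `inner_e_left` and `star_rg`: `⟪e 0, rg s x⟫ = ⟪star (rg s) e 0, x⟫`).
* `n2_star`: the previous line and the bijection `s ↦ -s` (`norm_sq_hasSum`, or `tau_comm` with `S = star T`).
  Another proof of `tau_comm`: `tau (S T) = ⟪e 0, S T e 0⟫ = ⟪S† e 0, T e 0⟫ = ∑_s conj ((S† e_0)_s) (T e_0)_s
  = ∑_s ch (bf (-s) s) cf S (-s) cf T s`, symmetric under `s ↦ -s` (`bf (-s) s = bf s (-s)`); then `n2_star` is the case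
  `S = star T`.
* `n2_mul_right`: `n2 (T y) = n2 (star y * star T) ≤ ‖star y‖ * n2 (star T) = ‖y‖ * n2 T`.
* `isometry_unitary`: `w ∈ InR`, `star w * w = 1`: `p = 1 - w * star w` is a self-adjoint idempotent in `InR`,
  `n2 p ^ 2 = re (tau (star p * p)) = re (tau p) = 1 - re (tau (w * star w)) = 1 - re (tau (star w * w)) = 0`, so `p e_0 = 0`, `p = 0`
  by `ext_R`.
-/

set_option autoImplicit false

open scoped ComplexConjugate InnerProductSpace Classical
open ContinuousLinearMap (adjoint)

namespace OE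

/-- operators on `ℓ²(V)`. -/
abbrev BV : Type := H V →L[ℂ] H V

/-- the commutant of the right translations. -/
def InR (T : BV) : Prop := ∀ u, T * rg u = rg u * T

/-- coefficients. -/
noncomputable def cf (T : BV) (s : V) : ℂ := (T (e 0) : V → ℂ) s

/-- the trace. -/
noncomputable def tau (T : BV) : ℂ := cf T 0

/-- the 2-norm. -/
noncomputable def n2 (T : BV) : ℝ := ‖T (e 0)‖

private theorem rg_coord (u : V) (x : H V) (v : V) :
    (rg u x : V → ℂ) v = ch (bf (v - u) u) * (x : V → ℂ) (v - u) := by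
  rw [← inner_e_left, ← ContinuousLinearMap.adjoint_inner_left]
  have h1 : adjoint (rg u) = ch (bf u u) • rg (-u) := star_rg u
  rw [h1, smul_apply, rg_e, smul_smul, inner_smul_left, inner_e_left, ← sub_eq_add_neg]
  congr 1
  rw [← ch_add, ← ch_neg, bf_neg_right, bf_sub_left]
  congr 1
  ring

private theorem lg_coord (u : V) (x : H V) (v : V) :
    (lg u x : V → ℂ) v = ch (bf u (v - u)) * (x : V → ℂ) (v - u) := by
  rw [← inner_e_left, ← ContinuousLinearMap.adjoint_inner_left]
  have h1 : adjoint (lg u) = ch (bf u u) • lg (-u) := star_lg u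
  rw [h1, smul_apply, lg_e, smul_smul, inner_smul_left, inner_e_left]
  have h2 : -u + v = v - u := by abel
  rw [h2]
  congr 1
  rw [← ch_add, ← ch_neg, bf_neg_left, bf_sub_right]
  congr 1
  ring

theorem InR.apply_e {T : BV} (h : InR T) (v : V) : T (e v) = rg v (T (e 0)) := by
  have h1 : rg v (e 0) = e v := by rw [rg_e, bf_zero_left, ch_zero, one_smul, zero_add]
  have h2 := DFunLike.congr_fun (h v) (e 0)
  change T (rg v (e 0)) = rg v (T (e 0)) at h2
  rw [h1] at h2
  exact h2

theorem ext_R {S T : BV} (hS : InR S) (hT : InR T) (h : S (e 0) = T (e 0)) : S = T := by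
  refine ext_e fun v => ?_
  rw [hS.apply_e, hT.apply_e, h]

theorem ext_cf {S T : BV} (hS : InR S) (hT : InR T) (h : ∀ s, cf S s = cf T s) : S = T :=
  ext_R hS hT (ext_pt h)

theorem InR_one : InR 1 := fun u => by rw [one_mul, mul_one]
theorem InR_zero : InR 0 := fun u => by rw [zero_mul, mul_zero]
theorem InR_lg (s : V) : InR (lg s) := fun u => lg_rg s u
theorem InR.mul {S T : BV} (hS : InR S) (hT : InR T) : InR (S * T) := fun u => by
  rw [mul_assoc, hT u, ← mul_assoc, hS u, mul_assoc]
theorem InR.add {S T : BV} (hS : InR S) (hT : InR T) : InR (S + T) := fun u => by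
  rw [add_mul, mul_add, hS u, hT u]
theorem InR.sub {S T : BV} (hS : InR S) (hT : InR T) : InR (S - T) := fun u => by
  rw [sub_mul, mul_sub, hS u, hT u]
theorem InR.smul {T : BV} (c : ℂ) (hT : InR T) : InR (c • T) := fun u => by
  rw [smul_mul_assoc, mul_smul_comm, hT u]
theorem InR.adj {T : BV} (hT : InR T) : InR (star T) := fun u => by
  have h := congrArg star (hT (-u))
  rw [star_mul, star_mul, star_rg, neg_neg, smul_mul_assoc, mul_smul_comm] at h
  have h2 := congrArg (fun x : BV => conj (ch (bf (-u) (-u))) • x) h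
  simp only [smul_smul, conj_mul_ch, one_smul] at h2
  exact h2.symm
theorem InR_sum {ι : Type*} (F : Finset ι) (T : ι → BV) (h : ∀ i ∈ F, InR (T i)) : InR (∑ i ∈ F, T i) := fun u => by
  rw [Finset.sum_mul, Finset.mul_sum]
  exact Finset.sum_congr rfl (fun i hi => h i hi u)
theorem InR_lgc (c : V →₀ ℂ) : InR (lgc c) := InR_sum _ _ (fun s _ => (InR_lg s).smul _)

theorem cf_add (S T : BV) (s : V) : cf (S + T) s = cf S s + cf T s := rfl
theorem cf_sub (S T : BV) (s : V) : cf (S - T) s = cf S s - cf T s := rfl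
theorem cf_smul (c : ℂ) (T : BV) (s : V) : cf (c • T) s = c * cf T s := rfl
theorem cf_sum {ι : Type*} (F : Finset ι) (T : ι → BV) (s : V) : cf (∑ i ∈ F, T i) s = ∑ i ∈ F, cf (T i) s := by
  unfold cf
  rw [sum_apply, lp.coeFn_sum, Finset.sum_apply]
theorem cf_lg (s t : V) : cf (lg s) t = if t = s then 1 else 0 := by
  unfold cf
  rw [lg_e, bf_zero_right, ch_zero, one_smul, add_zero, e_apply]
  split_ifs <;> rfl
theorem cf_one (t : V) : cf 1 t = if t = 0 then 1 else 0 := by
  change (e (0 : V) : V → ℂ) t = _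
  rw [e_apply]
  split_ifs <;> rfl
theorem tau_one : tau 1 = 1 := by
  unfold tau
  rw [cf_one, if_pos rfl]
theorem tau_sub (S T : BV) : tau (S - T) = tau S - tau T := rfl
theorem tau_smul (c : ℂ) (T : BV) : tau (c • T) = c * tau T := rfl
theorem cf_star {T : BV} (hT : InR T) (s : V) : cf (star T) s = conj (ch (bf (-s) s) * cf T (-s)) := by
  unfold cf
  have h1 : ((star T) (e 0) : V → ℂ) s = conj ((T (e s) : V → ℂ) 0) := adj_coef T s 0
  rw [h1, hT.apply_e, rg_coord, zero_sub]
/-- conjugation by `lg t` multiplies the coefficients by `ch (om t s)`. -/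
theorem cf_lg_conj {T : BV} (hT : InR T) (t s : V) : cf (lg t * T * star (lg t)) s = ch (om t s) * cf T s := by
  unfold cf
  have h1 : (lg t * T * star (lg t)) (e 0) = ch (bf t t) • lg t (rg (-t) (T (e 0))) := by
    change lg t (T (star (lg t) (e 0))) = _
    rw [star_lg, smul_apply, lg_e, bf_zero_right, ch_zero, one_smul, add_zero, map_smul,
      map_smul, hT.apply_e]
  rw [h1, lp.coeFn_smul, Pi.smul_apply, lg_coord, rg_coord, smul_eq_mul, ← mul_assoc, ← mul_assoc, ← ch_add, ← ch_add]
  have h2 : s - t - -t = s := by abel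
  rw [h2]
  congr 2
  rw [bf_sub_right, bf_neg_right]
  unfold om
  ring

theorem n2_nonneg (T : BV) : 0 ≤ n2 T := norm_nonneg _
theorem n2_le (T : BV) : n2 T ≤ ‖T‖ := by
  have h := T.le_opNorm (e 0)
  rwa [norm_e, mul_one] at h
theorem n2_add_le (S T : BV) : n2 (S + T) ≤ n2 S + n2 T := norm_add_le _ _
theorem n2_sub_comm (S T : BV) : n2 (S - T) = n2 (T - S) := norm_sub_rev _ _
theorem n2_triangle (S T U : BV) : n2 (S - U) ≤ n2 (S - T) + n2 (T - U) :=
  norm_sub_le_norm_sub_add_norm_sub _ _ _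
theorem n2_smul (c : ℂ) (T : BV) : n2 (c • T) = ‖c‖ * n2 T := norm_smul c (T (e 0))
theorem n2_mul_left (x T : BV) : n2 (x * T) ≤ ‖x‖ * n2 T := x.le_opNorm _
theorem n2_sq (T : BV) : (n2 T) ^ 2 = (tau (star T * T)).re := by
  unfold tau cf n2
  rw [← inner_e_left]
  have h : ⟪e 0, (star T * T) (e 0)⟫_ℂ = ⟪T (e 0), T (e 0)⟫_ℂ := by
    exact ContinuousLinearMap.adjoint_inner_right T _ _
  rw [h, inner_self_eq_norm_sq_to_K]
  norm_cast

private theorem hasSum_tau {S T : BV} (hS : InR S) :
    HasSum (fun s : V => ch (bf (-s) s) * cf S (-s) * cf T s) (tau (S * T)) := by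
  have h1 : tau (S * T) = ⟪star S (e 0), T (e 0)⟫_ℂ := by
    unfold tau cf
    rw [← inner_e_left]
    exact (ContinuousLinearMap.adjoint_inner_left S _ _).symm
  rw [h1]
  have h2 := lp.hasSum_inner (𝕜 := ℂ) (G := fun _ : V => ℂ) (star S (e 0)) (T (e 0))
  have h4 : (fun s : V => ch (bf (-s) s) * cf S (-s) * cf T s) =
      fun s : V => ⟪(star S (e 0) : V → ℂ) s, (T (e 0) : V → ℂ) s⟫_ℂ := by
    funext s
    have h3 : (star S (e 0) : V → ℂ) s = conj (ch (bf (-s) s) * cf S (-s)) := cf_star hS s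
    rw [h3, RCLike.inner_apply, Complex.conj_conj, mul_comm]
    rfl
  rw [h4]
  exact h2

theorem tau_comm {S T : BV} (hS : InR S) (hT : InR T) : tau (S * T) = tau (T * S) := by
  have h1 := hasSum_tau (T := T) hS
  have h2 := hasSum_tau (T := S) hT
  rw [← (Equiv.neg V).hasSum_iff] at h2
  refine h1.unique ?_
  convert h2 using 1
  funext s
  simp only [Function.comp_apply, Equiv.neg_apply, neg_neg]
  rw [bf_neg_left, bf_neg_right]
  ring

theorem n2_star {T : BV} (hT : InR T) : n2 (star T) = n2 T := by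
  have h1 := n2_sq (star T)
  rw [star_star, tau_comm hT hT.adj, ← n2_sq] at h1
  exact (pow_left_inj₀ (n2_nonneg _) (n2_nonneg _) two_ne_zero).1 h1
theorem n2_mul_right {T y : BV} (hT : InR T) (hy : InR y) : n2 (T * y) ≤ n2 T * ‖y‖ := by
  rw [← n2_star (hT.mul hy), star_mul, mul_comm (n2 T), ← n2_star hT, ← norm_star y]
  exact n2_mul_left _ _
theorem n2_eq_zero {T : BV} (hT : InR T) (h : n2 T = 0) : T = 0 :=
  ext_R hT InR_zero (norm_eq_zero.1 h)

/-- an isometry of the commutant is unitary. -/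
theorem isometry_unitary {w : BV} (hw : InR w) (h : star w * w = 1) : w * star w = 1 := by
  have hp : InR (1 - w * star w) := InR_one.sub (hw.mul hw.adj)
  have h1 : star (1 - w * star w) * (1 - w * star w) = 1 - w * star w := by
    have h3 : w * star w * (w * star w) = w * star w := by
      rw [mul_assoc, ← mul_assoc (star w), h, one_mul]
    rw [star_sub, star_one, star_mul, star_star, mul_sub, sub_mul, sub_mul, h3]
    simp
  have h2 := n2_sq (1 - w * star w)
  rw [h1, tau_sub, tau_comm hw hw.adj, h, tau_one, sub_self, Complex.zero_re] at h2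
  have h4 : n2 (1 - w * star w) = 0 := by
    exact pow_eq_zero_iff two_ne_zero |>.1 h2
  exact (sub_eq_zero.1 (n2_eq_zero hp h4)).symm

/-- an element of the commutant commuting with all `lg s` is scalar. -/
theorem scalar_of_commute {T : BV} (hT : InR T) (h : ∀ s, T * lg s = lg s * T) : T = tau T • 1 := by
  refine ext_cf hT (InR_one.smul _) fun s => ?_
  rw [cf_smul, cf_one]
  by_cases hs : s = 0
  · rw [if_pos hs, mul_one, hs]
    rfl
  · rw [if_neg hs, mul_zero]
    by_contra hne
    apply hs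
    obtain ⟨M, hM⟩ := exists_mem_VF s
    refine om_nondeg hM fun t _ => ?_
    have h1 := cf_lg_conj hT t s
    rw [← h t, mul_assoc, lg_mul_star, mul_one] at h1
    have h2 : ch (om t s) = 1 := by
      have h3 : (ch (om t s) - 1) * cf T s = 0 := by
        rw [sub_mul, one_mul, ← h1, sub_self]
      rcases mul_eq_zero.1 h3 with h4 | h4
      · exact sub_eq_zero.1 h4
      · exact absurd h4 hne
    rw [ch_eq_one_iff] at h2
    rw [om_swap, h2, neg_zero]

end OE
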