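import Mathlib
import Pool.Agent.Work.MP_06ef15_an.FB

/-!
# Operators commuting with `rg` and with the tail `lg w`, `w ∈ V1 k`

`InC k T`: `InR T` and `T` commutes with `lg w` for all `w` with `IsV1 k w`.

* `InC.cf_eq_zero`: if `cf T s ≠ 0` then by `cf_lg_conj` (`lg w * T * star (lg w) = T`) `ch (om w s) = 1`, i.e. `om w s = 0` for all
  `w ∈ V1 k`, so `om s w = 0`, so `s ∈ VF k` (`commutant_V1`).
* `InC.expand`: compare coefficients (`ext_cf`).
* `InC.average`: by `InC.expand` and linearity it is enough to take `T = lg s`, `s ∈ VF k`: `lg t * lg s * star (lg t) = ch (om t s) • lg s`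
  (`lg_conj`), `∑_t ch (om t s) = ∑_t conj (ch (om s t)) = [s = 0] card` (`sum_ch_om`, `om_swap`, `ch_neg`).
* `InC_lg`: `isV1_om_VF`.
* `exists_decomp`: `v = (a,b,c)`, `s = (a restricted to i < k, b restricted to i < k, c) + m • pp k`, `m = ∑_{i ≥ k} a_i` (as a multiple
  of `Finsupp.single k m`), `w = v - s = (a - .., b restricted to i ≥ k, 0)`: `sumA w = 0`, `c = 0`, and for `s' ∈ VL k`, `om w s' = 0` because `w` has
  `a_i = b_i = 0` for `i < k` and `c = 0`.  (Or: the set `V1 k + VF (k+1)` is an additive subgroup containing all `single i x`, ...; the other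
  way is `Finsupp.induction_linear`.)
-/

set_option autoImplicit false

open scoped ComplexConjugate InnerProductSpace Classical
open ContinuousLinearMap (adjoint)

namespace OE

/-- operators in the commutant of `rg` commuting with the tail. -/
def InC (k : ℕ) (T : BV) : Prop := InR T ∧ ∀ w, IsV1 k w → T * lg w = lg w * T

theorem InC.mul {k : ℕ} {S T : BV} (hS : InC k S) (hT : InC k T) : InC k (S * T) := by
  refine ⟨hS.1.mul hT.1, fun w hw => ?_⟩
  rw [mul_assoc, hT.2 w hw, ← mul_assoc, hS.2 w hw, mul_assoc]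
theorem InC.adj {k : ℕ} {T : BV} (hT : InC k T) : InC k (star T) := by
  refine ⟨hT.1.adj, fun w hw => ?_⟩
  have h : star (lg w) * star T = star T * star (lg w) := by
    rw [← star_mul, ← star_mul, hT.2 w hw]
  calc star T * lg w = (lg w * star (lg w)) * star T * lg w := by rw [lg_mul_star, one_mul]
    _ = lg w * (star (lg w) * star T) * lg w := by simp only [mul_assoc]
    _ = lg w * (star T * star (lg w)) * lg w := by rw [h]
    _ = lg w * star T * (star (lg w) * lg w) := by simp only [mul_assoc]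
    _ = lg w * star T := by rw [star_lg_mul, mul_one]
theorem InC.smul {k : ℕ} {T : BV} (c : ℂ) (hT : InC k T) : InC k (c • T) := by
  refine ⟨hT.1.smul c, fun w hw => ?_⟩
  rw [smul_mul_assoc, mul_smul_comm, hT.2 w hw]
theorem InC_lg {k : ℕ} {s : V} (hs : s ∈ VF k) : InC k (lg s) := by
  refine ⟨InR_lg s, fun w hw => ?_⟩
  rw [lg_comm s w, om_swap, isV1_om_VF hw hs, neg_zero, ch_zero, one_smul]

theorem InC.cf_eq_zero {k : ℕ} {T : BV} (hT : InC k T) {s : V} (hs : s ∉ VF k) : cf T s = 0 := by
  by_contra hne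
  apply hs
  apply commutant_V1
  intro w hw
  have h1 := cf_lg_conj hT.1 w s
  rw [← hT.2 w hw, mul_assoc, lg_mul_star, mul_one] at h1
  have h2 : ch (om w s) = 1 := by
    have h3 : (ch (om w s) - 1) * cf T s = 0 := by rw [sub_mul, one_mul, ← h1, sub_self]
    rcases mul_eq_zero.1 h3 with h | h
    · exact sub_eq_zero.1 h
    · exact absurd h hne
  rw [om_swap, (ch_eq_one_iff _).1 h2, neg_zero]

theorem InC.expand {k : ℕ} {T : BV} (hT : InC k T) : T = ∑ s ∈ VFin k, cf T s • lg s := by
  apply ext_cf hT.1 (InR_sum _ _ fun s _ => (InR_lg s).smul _)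
  intro s
  rw [cf_sum]
  simp only [cf_smul, cf_lg, mul_ite, mul_one, mul_zero]
  rw [Finset.sum_ite_eq]
  split_ifs with h
  · rfl
  · exact hT.cf_eq_zero (fun h' => h (mem_VFin.2 h'))

/-- as an `lgc`. -/
theorem InC.exists_lgc {k : ℕ} {T : BV} (hT : InC k T) :
    T = lgc (∑ s ∈ VFin k, Finsupp.single s (cf T s)) := by
  rw [← sum_eq_lgc]
  exact hT.expand

/-- averaging over a larger finite subgroup gives the trace. -/
theorem InC.average {k : ℕ} {T : BV} (hT : InC k T) :
    ∑ t ∈ VLFin (k + 1), lg t * T * star (lg t) = (((VLFin (k + 1)).card : ℂ) * tau T) • 1 := by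
  apply ext_cf (InR_sum _ _ fun t _ => ((InR_lg t).mul hT.1).mul (InR_lg t).adj) (InR_one.smul _)
  intro s
  rw [cf_sum, cf_smul, cf_one]
  simp only [cf_lg_conj hT.1]
  rw [← Finset.sum_mul]
  by_cases hs : s ∈ VF k
  · have h1 : ∑ t ∈ VLFin (k + 1), ch (om t s) = conj (∑ t ∈ VLFin (k + 1), ch (om s t)) := by
      rw [map_sum]
      refine Finset.sum_congr rfl fun t _ => ?_
      rw [om_swap t s, ch_neg]
    rw [h1, sum_ch_om hs]
    split_ifs with h
    · subst h
      rw [Complex.conj_natCast, mul_one]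
      rfl
    · simp
  · have hne : s ≠ 0 := fun h => hs (h ▸ (VF k).zero_mem)
    rw [hT.cf_eq_zero hs, if_neg hne, mul_zero, mul_zero]

/-- if all commutators with the `lg t` are at most `δ`, then `T` is within `δ` of `tau T`. -/
theorem InC.norm_sub_tau_le {k : ℕ} {T : BV} (hT : InC k T) {δ : ℝ} (h : ∀ t, ‖lg t * T * star (lg t) - T‖ ≤ δ) :
    ‖T - tau T • 1‖ ≤ δ := by
  have hpos : (0 : ℝ) < ((VLFin (k + 1)).card : ℝ) := by exact_mod_cast card_VLFin_pos (k + 1)
  have h1 : ((VLFin (k + 1)).card : ℂ) • (T - tau T • (1 : BV)) =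
      ∑ t ∈ VLFin (k + 1), (T - lg t * T * star (lg t)) := by
    rw [Finset.sum_sub_distrib, hT.average, Finset.sum_const, smul_sub, smul_smul, Nat.cast_smul_eq_nsmul]
  have h2 : ‖∑ t ∈ VLFin (k + 1), (T - lg t * T * star (lg t))‖ ≤ ((VLFin (k + 1)).card : ℝ) * δ := by
    refine (norm_sum_le _ _).trans ?_
    refine (Finset.sum_le_sum (fun t _ => (norm_sub_rev T _).le.trans (h t))).trans ?_
    rw [Finset.sum_const, nsmul_eq_mul]
  rw [← h1, norm_smul, Complex.norm_natCast] at h2
  exact le_of_mul_le_mul_left h2 hpos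

/-- `V = V1 k + VF (k+1)`. -/
theorem exists_decomp (k : ℕ) (v : V) : ∃ w s, IsV1 k w ∧ s ∈ VF (k + 1) ∧ v = w + s := by
  obtain ⟨a, b, c⟩ := v
  set aL := a.filter (fun i => i < k) with haL
  set aR := a.filter (fun i => ¬ i < k) with haR
  set bL := b.filter (fun i => i < k) with hbL
  set bR := b.filter (fun i => ¬ i < k) with hbR
  set m : ZMod 9 := aR.sum (fun _ x => x) with hm
  have haLR : aL + aR = a := Finsupp.filter_add_filter_not a _
  have hbLR : bL + bR = b := Finsupp.filter_add_filter_not b _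
  have hsing : sumA ((Finsupp.single k m, 0, 0) : V) = m := by
    show (Finsupp.single k m).sum (fun _ x => x) = m
    rw [Finsupp.sum_single_index rfl]
  have hsum : sumA ((aR - Finsupp.single k m, bR, 0) : V) = 0 := by
    have h1 : ((aR, bR, 0) : V) = (aR - Finsupp.single k m, bR, 0) + (Finsupp.single k m, 0, 0) := by
      ext <;> simp
    have h2 : sumA ((aR, bR, 0) : V) = m := rfl
    have h3 := sumA_add ((aR - Finsupp.single k m, bR, 0) : V) (Finsupp.single k m, 0, 0)
    rw [← h1, h2, hsing] at h3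
    exact add_right_cancel (a := _) (b := m) (by rw [zero_add, ← h3])
  have haR0 : ∀ i, i < k → aR i = 0 := fun i hi => Finsupp.filter_apply_neg _ _ (not_not.2 hi)
  have hbR0 : ∀ i, i < k → bR i = 0 := fun i hi => Finsupp.filter_apply_neg _ _ (not_not.2 hi)
  have haL0 : ∀ i, ¬ i < k → aL i = 0 := fun i hi => Finsupp.filter_apply_neg _ _ hi
  have hbL0 : ∀ i, ¬ i < k → bL i = 0 := fun i hi => Finsupp.filter_apply_neg _ _ hi
  refine ⟨(aR - Finsupp.single k m, bR, 0), (aL + Finsupp.single k m, bL, c), ⟨?_, ?_⟩, ?_, ?_⟩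
  · show sumA ((aR - Finsupp.single k m, bR, 0) : V) - tri 0 = 0
    rw [hsum, tri_zero, sub_zero]
  · intro s hs
    obtain ⟨hs1, hs2⟩ := mem_VL.1 hs
    rw [mem_VF] at hs1
    have e1 : bf ((aR - Finsupp.single k m, bR, 0) : V) s = 0 := by
      show (aR - Finsupp.single k m).sum (fun i x => x * s.2.1 i) + tri 0 * sumA s = 0
      rw [tri_zero, zero_mul, add_zero]
      refine Finset.sum_eq_zero fun i _ => ?_
      by_cases hi : k ≤ i
      · show (aR - Finsupp.single k m) i * s.2.1 i = 0
        rw [(hs1 i hi).2, mul_zero]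
      · have hi' : i < k := not_le.1 hi
        have hne : k ≠ i := by omega
        show (aR - Finsupp.single k m) i * s.2.1 i = 0
        rw [Finsupp.sub_apply, haR0 i hi', Finsupp.single_eq_of_ne (by omega), sub_zero, zero_mul]
    have e2 : bf s ((aR - Finsupp.single k m, bR, 0) : V) = 0 := by
      show s.1.sum (fun i x => x * bR i) + tri s.2.2 * _ = 0
      rw [hs2, tri_zero, zero_mul, add_zero]
      refine Finset.sum_eq_zero fun i _ => ?_
      show s.1 i * bR i = 0
      by_cases hi : k ≤ i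
      · rw [(hs1 i hi).1, zero_mul]
      · rw [hbR0 i (not_le.1 hi), mul_zero]
    show bf _ _ - bf _ _ = 0
    rw [e1, e2, sub_zero]
  · rw [mem_VF]
    intro i hi
    have hi' : ¬ i < k := by omega
    constructor
    · show (aL + Finsupp.single k m) i = 0
      rw [Finsupp.add_apply, haL0 i hi', Finsupp.single_eq_of_ne (by omega), add_zero]
    · exact hbL0 i hi'
  · refine Prod.ext ?_ (Prod.ext ?_ ?_)
    · show a = aR - Finsupp.single k m + (aL + Finsupp.single k m)
      rw [← haLR]
      abel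
    · show b = bR + bL
      rw [← hbLR]
      abel
    · show c = 0 + c
      rw [zero_add]

end OE
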