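import Mathlib
import Pool.Agent.Work.MP_06ef15_an.FC

/-!
# Section 14: the averaged intertwiner

`Rp k ρ`: projective unitary representation with the cocycle of `lg`, inside the commutant of `rg`, equal to `lg` on the tail `V1 k`.
`WI k ρ j r = ∑_{t ∈ VF (k+1)} conj (chi t)^j • ρ t * lg r * star (lg t)`.

* `Rp.comm_rel`: from `Rp.mul` twice.   `Rp.add`: `ρ (s + t) = conj (ch (bf s t)) • (ρ s * ρ t)`.
* `WI_VF` (`s ∈ VF (k+1)`): `ρ s * WI = ∑_t conj (chi t)^j • ch (bf s t) • ρ (s + t) * lg r * star (lg t)`.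
  `WI * lg s`, reindexed by `t ↦ s + t` (bijection of `VFin (k+1)`, `Finset.sum_bij` or `Finset.sum_nbij'`, `mem_VFin`):
  `∑_t conj (chi (s + t))^j • ρ (s + t) * lg r * star (lg (s + t)) * lg s`, and `lg (s + t) = conj (ch (bf s t)) • lg s * lg t`, so
  `star (lg (s + t)) * lg s = ch (bf s t) • star (lg t) * star (lg s) * lg s = ch (bf s t) • star (lg t)`.  As `chi (s + t) = chi s * chi t`,
  multiplying by `chi s ^ j` (`chi s * conj (chi s) = 1`) gives `ρ s * WI`.
* `WI_V1` (`s = w ∈ V1 k`, `ρ w = lg w`, `chi w = 1`): `ρ w * ρ t = ch (om w t) • ρ t * lg w`; `lg w * lg r = lg r * lg w` as `om w r = 0`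
  (`isV1_om_VF`, `r ∈ VF k`); `lg w * star (lg t) = ch (om t w) • star (lg t) * lg w` (from `lg_star_conj`); `ch (om w t) * ch (om t w) = 1`.
* `WI_all`: `exists_decomp`, `Rp.add`, `lg_add`, `chi_add`.
-/

set_option autoImplicit false

open scoped ComplexConjugate InnerProductSpace Classical
open ContinuousLinearMap (adjoint)

namespace OE

/-- hypotheses (E1), (E2). -/
structure Rp (k : ℕ) (ρ : V → BV) : Prop where
  mul : ∀ s t, ρ s * ρ t = ch (bf s t) • ρ (s + t)
  left : ∀ s, star (ρ s) * ρ s = 1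
  right : ∀ s, ρ s * star (ρ s) = 1
  inR : ∀ s, InR (ρ s)
  tail : ∀ w, IsV1 k w → ρ w = lg w

/-- the averaged intertwiner. -/
noncomputable def WI (k : ℕ) (ρ : V → BV) (j : ℕ) (r : V) : BV :=
  ∑ t ∈ VFin (k + 1), (conj (chi t)) ^ j • (ρ t * lg r * star (lg t))

theorem Rp.add {k : ℕ} {ρ : V → BV} (h : Rp k ρ) (s t : V) : ρ (s + t) = conj (ch (bf s t)) • (ρ s * ρ t) := by
  rw [h.mul, smul_smul, conj_mul_ch, one_smul]

theorem Rp.comm_rel {k : ℕ} {ρ : V → BV} (h : Rp k ρ) (s t : V) : ρ s * ρ t = ch (om s t) • (ρ t * ρ s) := by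
  rw [h.mul, h.mul, smul_smul, ← ch_add, add_comm t s]
  congr 2
  show bf s t = bf s t - bf t s + bf t s
  ring

theorem WI_inR {k : ℕ} {ρ : V → BV} (h : Rp k ρ) (j : ℕ) (r : V) : InR (WI k ρ j r) :=
  InR_sum _ _ fun t _ => (((h.inR t).mul (InR_lg r)).mul (InR_lg t).adj).smul _

theorem WI_VF {k : ℕ} {ρ : V → BV} (h : Rp k ρ) (j : ℕ) (r : V) {s : V} (hs : s ∈ VF (k + 1)) :
    ρ s * WI k ρ j r = (chi s) ^ j • (WI k ρ j r * lg s) := by
  unfold WI
  rw [Finset.mul_sum, Finset.sum_mul, Finset.smul_sum]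
  refine Finset.sum_bij (fun t _ => s + t) ?_ ?_ ?_ ?_
  · intro t ht
    exact mem_VFin.2 ((VF (k + 1)).add_mem hs (mem_VFin.1 ht))
  · intro t _ t' _ hh
    exact add_left_cancel hh
  · intro t ht
    refine ⟨-s + t, mem_VFin.2 ((VF (k + 1)).add_mem ((VF (k + 1)).neg_mem hs) (mem_VFin.1 ht)), ?_⟩
    show s + (-s + t) = t
    abel
  · intro t _
    have h1 : star (lg (s + t)) * lg s = ch (bf s t) • star (lg t) := by
      rw [lg_add, star_smul, star_mul, smul_mul_assoc, mul_assoc, star_lg_mul, mul_one]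
      congr 1
      show conj (conj (ch (bf s t))) = ch (bf s t)
      rw [Complex.conj_conj]
    have h2 : chi s ^ j * conj (chi (s + t)) ^ j = conj (chi t) ^ j := by
      rw [← mul_pow, chi_add, map_mul, ← mul_assoc, chi_mul_conj, one_mul]
    rw [mul_smul_comm, smul_mul_assoc, smul_smul, h2]
    congr 1
    calc ρ s * (ρ t * lg r * star (lg t)) = (ρ s * ρ t) * lg r * star (lg t) := by simp only [mul_assoc]
      _ = ch (bf s t) • (ρ (s + t) * lg r * star (lg t)) := by
          rw [h.mul, smul_mul_assoc, smul_mul_assoc]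
      _ = ρ (s + t) * lg r * (ch (bf s t) • star (lg t)) := by rw [mul_smul_comm]
      _ = ρ (s + t) * lg r * (star (lg (s + t)) * lg s) := by rw [h1]
      _ = ρ (s + t) * lg r * star (lg (s + t)) * lg s := by simp only [mul_assoc]

theorem WI_V1 {k : ℕ} {ρ : V → BV} (h : Rp k ρ) (j : ℕ) {r : V} (hr : r ∈ VF k) {s : V} (hs : IsV1 k s) :
    ρ s * WI k ρ j r = (chi s) ^ j • (WI k ρ j r * lg s) := by
  unfold WI
  rw [chi_of_isV1 hs, one_pow, one_smul, Finset.mul_sum, Finset.sum_mul]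
  refine Finset.sum_congr rfl fun t _ => ?_
  rw [mul_smul_comm, smul_mul_assoc]
  congr 1
  have h1 : lg s * star (lg t) = ch (om t s) • (star (lg t) * lg s) := by
    calc lg s * star (lg t) = lg s * star (lg t) * (star (lg s) * lg s) := by rw [star_lg_mul, mul_one]
      _ = (lg s * star (lg t) * star (lg s)) * lg s := by simp only [mul_assoc]
      _ = ch (om t s) • (star (lg t) * lg s) := by rw [lg_star_conj, smul_mul_assoc]
  have h2 : lg s * lg r = lg r * lg s := by
    rw [lg_comm s r, isV1_om_VF hs hr, ch_zero, one_smul]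
  have h3 : ρ s * ρ t = ch (om s t) • (ρ t * lg s) := by rw [h.comm_rel, h.tail s hs]
  calc ρ s * (ρ t * lg r * star (lg t)) = (ρ s * ρ t) * lg r * star (lg t) := by simp only [mul_assoc]
    _ = ch (om s t) • (ρ t * (lg s * lg r) * star (lg t)) := by
        rw [h3, smul_mul_assoc, smul_mul_assoc]
        simp only [mul_assoc]
    _ = ch (om s t) • (ρ t * lg r * (lg s * star (lg t))) := by
        rw [h2]
        simp only [mul_assoc]
    _ = (ch (om s t) * ch (om t s)) • (ρ t * lg r * star (lg t) * lg s) := by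
        rw [h1, mul_smul_comm, smul_smul]
        simp only [mul_assoc]
    _ = ρ t * lg r * star (lg t) * lg s := by
        rw [← ch_add, om_swap s t, neg_add_cancel, ch_zero, one_smul]

/-- the intertwining relation on all of `V`. -/
theorem WI_all {k : ℕ} {ρ : V → BV} (h : Rp k ρ) (j : ℕ) {r : V} (hr : r ∈ VF k) (s : V) :
    ρ s * WI k ρ j r = (chi s) ^ j • (WI k ρ j r * lg s) := by
  obtain ⟨w, s, hw, hs, rfl⟩ := exists_decomp k s
  rw [h.add, lg_add, chi_add, smul_mul_assoc, mul_assoc, WI_VF h j r hs, mul_smul_comm, ← mul_assoc,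
    WI_V1 h j hr hw, smul_mul_assoc, mul_smul_comm, mul_pow, smul_smul, smul_smul, smul_smul, mul_assoc]
  congr 1
  ring

end OE
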