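import Mathlib
import Pool.Agent.Work.MP_06ef15_an.FD

/-!
# Section 14: some averaged intertwiner is not zero; the structure of `ρ`

* `sum_pow_chi`: `z = conj (chi t)` has `z^9 = 1`; `∑_{j<9} z^j = 0` if `z ≠ 1` (`mul_neg_geom_sum` or `geom_sum_eq`), `9` if `z = 1`; `z = 1` iff `xf t = 0`.
* `sum_ch_VL`: if some `r_0 ∈ VL k` has `om t r_0 ≠ 0`, translation by `r_0` (bijection of `VLFin k`) gives `S = ch (om t r_0) * S`, `ch (om t r_0) ≠ 1`, `S = 0`.
  Otherwise all terms are `ch 0 = 1`.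
* `total`: `lg r * star (lg t) * star (lg r) = ch (om t r) • star (lg t)` (`lg_star_conj`), so
  `∑_{j<9} ∑_{r ∈ VL k} WI j r * star (lg r) = ∑_t (∑_j conj (chi t)^j) (∑_r ch (om t r)) • ρ t * star (lg t)`
  (exchange the finite sums), where only the `t` with `IsV1 k t` survive (`xf t = 0` and `om t r = 0` for all `r ∈ VL k`), and for these
  `ρ t * star (lg t) = lg t * star (lg t) = 1`.
* `exists_WI_ne`: otherwise the total is `0`, but it is a positive multiple of `1` (`t = 0` is in the filtered set, `isV1_zero`).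
* `structure14`: `W = WI j r ≠ 0`.  `star W * W` is in `InR` and commutes with all `lg s`:
  `W * lg s = conj (chi s)^j • ρ s * W`; `star W * W = star W * star (ρ s) * ρ s * W = star (lg s) * star W * W * lg s` (the phases cancel).  By
  `scalar_of_commute` `star W * W = tau (star W * W) • 1`, and `tau (star W * W) = ⟪W e_0, W e_0⟫ = (n2 W)^2` as a complex number, `n2 W ≠ 0` (`n2_eq_zero`).
  `w = (n2 W)⁻¹ • W`: `star w * w = 1`, `w * star w = 1` by `isometry_unitary`.  `ρ s = ρ s * w * star w = chi s ^ j • w * lg s * star w`.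
  `InC k w`: for `s ∈ V1 k`, `lg s * w = ρ s * w = chi s ^ j • w * lg s = w * lg s` (`chi_of_isV1`).
-/

set_option autoImplicit false

open scoped ComplexConjugate InnerProductSpace Classical
open ContinuousLinearMap (adjoint)

namespace OE

theorem sum_pow_chi (t : V) : ∑ j ∈ Finset.range 9, (conj (chi t)) ^ j = if xf t = 0 then (9 : ℂ) else 0 := by
  split_ifs with h
  · have h1 : chi t = 1 := (chi_eq_one_iff t).2 h
    rw [h1, map_one]
    simp
  · have h1 : conj (chi t) ≠ 1 := by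
      intro h2
      apply h
      rw [← chi_eq_one_iff]
      have h3 := congrArg conj h2
      rwa [Complex.conj_conj, map_one] at h3
    have h2 : (conj (chi t)) ^ 9 = 1 := by rw [← map_pow, chi_pow_nine, map_one]
    rw [geom_sum_eq h1, h2, sub_self, zero_div]

theorem sum_ch_VL (k : ℕ) (t : V) :
    ∑ r ∈ VLFin k, ch (om t r) = if (∀ r ∈ VL k, om t r = 0) then ((VLFin k).card : ℂ) else 0 := by
  split_ifs with h
  · have h1 : ∀ r ∈ VLFin k, ch (om t r) = 1 := fun r hr => by
      rw [h r (mem_VLFin.1 hr), ch_zero]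
    rw [Finset.sum_congr rfl h1, Finset.sum_const, nsmul_eq_mul, mul_one]
  · push Not at h
    obtain ⟨r0, hr0, hne⟩ := h
    have h1 : ch (om t r0) * ∑ r ∈ VLFin k, ch (om t r) = ∑ r ∈ VLFin k, ch (om t r) := by
      rw [Finset.mul_sum]
      refine Finset.sum_bij (fun r _ => r0 + r) ?_ ?_ ?_ ?_
      · intro r hr
        exact mem_VLFin.2 ((VL k).add_mem hr0 (mem_VLFin.1 hr))
      · intro r _ r' _ hh
        exact add_left_cancel hh
      · intro r hr
        refine ⟨-r0 + r, mem_VLFin.2 ((VL k).add_mem ((VL k).neg_mem hr0) (mem_VLFin.1 hr)), ?_⟩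
        show r0 + (-r0 + r) = r
        abel
      · intro r _
        rw [om_add_right, ch_add]
    have h2 : ch (om t r0) ≠ 1 := fun h3 => hne ((ch_eq_one_iff _).1 h3)
    have h3 : (ch (om t r0) - 1) * ∑ r ∈ VLFin k, ch (om t r) = 0 := by
      rw [sub_mul, h1, one_mul, sub_self]
    exact (mul_eq_zero.1 h3).resolve_left (sub_ne_zero.2 h2)

theorem total {k : ℕ} {ρ : V → BV} (h : Rp k ρ) :
    ∑ j ∈ Finset.range 9, ∑ r ∈ VLFin k, WI k ρ j r * star (lg r) =
      ((9 : ℂ) * ((VLFin k).card : ℂ) * (((VFin (k + 1)).filter (fun t => IsV1 k t)).card : ℂ)) • 1 := by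
  have h1 : ∀ (j : ℕ) (r : V), WI k ρ j r * star (lg r) =
      ∑ t ∈ VFin (k + 1), ((conj (chi t)) ^ j * ch (om t r)) • (ρ t * star (lg t)) := by
    intro j r
    unfold WI
    rw [Finset.sum_mul]
    refine Finset.sum_congr rfl fun t _ => ?_
    rw [smul_mul_assoc, mul_smul]
    congr 1
    rw [mul_assoc, mul_assoc, ← mul_assoc (lg r), lg_star_conj, mul_smul_comm]
  have h2 : ∑ j ∈ Finset.range 9, ∑ r ∈ VLFin k, WI k ρ j r * star (lg r) =
      ∑ t ∈ VFin (k + 1), ((∑ j ∈ Finset.range 9, (conj (chi t)) ^ j) *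
        (∑ r ∈ VLFin k, ch (om t r))) • (ρ t * star (lg t)) := by
    simp only [h1]
    calc ∑ j ∈ Finset.range 9, ∑ r ∈ VLFin k, ∑ t ∈ VFin (k + 1),
          ((conj (chi t)) ^ j * ch (om t r)) • (ρ t * star (lg t))
        = ∑ j ∈ Finset.range 9, ∑ t ∈ VFin (k + 1),
          (∑ r ∈ VLFin k, ((conj (chi t)) ^ j * ch (om t r))) • (ρ t * star (lg t)) := by
          refine Finset.sum_congr rfl fun j _ => ?_
          rw [Finset.sum_comm]
          exact Finset.sum_congr rfl fun t _ => (Finset.sum_smul).symm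
      _ = _ := by
          rw [Finset.sum_comm]
          refine Finset.sum_congr rfl fun t _ => ?_
          rw [← Finset.sum_smul, Finset.sum_mul_sum]
  rw [h2]
  have h3 : ∀ t ∈ VFin (k + 1), ((∑ j ∈ Finset.range 9, (conj (chi t)) ^ j) *
        (∑ r ∈ VLFin k, ch (om t r))) • (ρ t * star (lg t)) =
      if IsV1 k t then ((9 : ℂ) * ((VLFin k).card : ℂ)) • (1 : BV) else 0 := by
    intro t _
    rw [sum_pow_chi, sum_ch_VL]
    by_cases ht : IsV1 k t
    · rw [if_pos ht, if_pos ht.1, if_pos ht.2, h.tail t ht, lg_mul_star]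
    · rw [if_neg ht]
      by_cases hx : xf t = 0
      · have h4 : ¬ ∀ r ∈ VL k, om t r = 0 := fun h' => ht ⟨hx, h'⟩
        rw [if_neg h4, mul_zero, zero_smul]
      · rw [if_neg hx, zero_mul, zero_smul]
  rw [Finset.sum_congr rfl h3, ← Finset.sum_filter, Finset.sum_const, ← Nat.cast_smul_eq_nsmul ℂ,
    smul_smul]
  congr 1
  ring

theorem exists_WI_ne {k : ℕ} {ρ : V → BV} (h : Rp k ρ) : ∃ j < 9, ∃ r ∈ VL k, WI k ρ j r ≠ 0 := by
  by_contra hcon
  push Not at hcon
  have h1 := total h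
  have h2 : ∑ j ∈ Finset.range 9, ∑ r ∈ VLFin k, WI k ρ j r * star (lg r) = 0 := by
    refine Finset.sum_eq_zero fun j hj => Finset.sum_eq_zero fun r hr => ?_
    rw [hcon j (Finset.mem_range.1 hj) r (mem_VLFin.1 hr), zero_mul]
  rw [h2] at h1
  have h3 := congrArg tau h1
  rw [tau_smul, tau_one, mul_one] at h3
  have h4 : tau (0 : BV) = 0 := rfl
  rw [h4] at h3
  have h5 : ((VLFin k).card : ℂ) ≠ 0 := by
    exact_mod_cast (card_VLFin_pos k).ne'
  have h6 : (((VFin (k + 1)).filter (fun t => IsV1 k t)).card : ℂ) ≠ 0 := by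
    have h7 : (0 : V) ∈ (VFin (k + 1)).filter (fun t => IsV1 k t) :=
      Finset.mem_filter.2 ⟨mem_VFin.2 (VF (k + 1)).zero_mem, isV1_zero k⟩
    exact_mod_cast (Finset.card_pos.2 ⟨0, h7⟩).ne'
  exact (mul_ne_zero (mul_ne_zero (by norm_num) h5) h6) h3.symm

private theorem fe_tau_sq (T : BV) : tau (star T * T) = ((n2 T : ℝ) : ℂ) ^ 2 := by
  unfold tau cf n2
  rw [← inner_e_left]
  have h : ⟪e 0, (star T * T) (e 0)⟫_ℂ = ⟪T (e 0), T (e 0)⟫_ℂ := by
    exact ContinuousLinearMap.adjoint_inner_right T _ _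
  rw [h, inner_self_eq_norm_sq_to_K]
  rfl

/-- (14.5). -/
theorem structure14 {k : ℕ} {ρ : V → BV} (h : Rp k ρ) :
    ∃ j < 9, ∃ w : BV, InC k w ∧ star w * w = 1 ∧ w * star w = 1 ∧ ∀ s, ρ s = (chi s) ^ j • (w * lg s * star w) := by
  obtain ⟨j, hj, r, hr, hne⟩ := exists_WI_ne h
  set W := WI k ρ j r with hWdef
  have hW : InR W := WI_inR h j r
  have hall : ∀ s, ρ s * W = (chi s) ^ j • (W * lg s) := fun s => WI_all h j hr.1 s
  have hph : ∀ s, conj (chi s) ^ j * chi s ^ j = 1 := fun s => by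
    rw [← mul_pow, conj_mul_chi, one_pow]
  have hcom1 : ∀ s, W * lg s = conj (chi s) ^ j • (ρ s * W) := by
    intro s
    rw [hall, smul_smul, hph, one_smul]
  have hcom2 : ∀ s, lg s * star W = conj (chi s) ^ j • (star W * ρ s) := by
    intro s
    have h1 : star W * star (ρ s) = conj (chi s) ^ j • (star (lg s) * star W) := by
      have h2 := congrArg star (hall s)
      rw [star_mul, star_smul, star_mul] at h2
      rw [h2]
      congr 1
      show conj (chi s ^ j) = _
      rw [map_pow]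
    calc lg s * star W = lg s * (star W * (star (ρ s) * ρ s)) := by rw [h.left, mul_one]
      _ = lg s * ((star W * star (ρ s)) * ρ s) := by rw [mul_assoc (star W)]
      _ = conj (chi s) ^ j • ((lg s * star (lg s)) * star W * ρ s) := by
          rw [h1, smul_mul_assoc, mul_smul_comm]
          simp only [mul_assoc]
      _ = conj (chi s) ^ j • (star W * ρ s) := by rw [lg_mul_star, one_mul]
  have hcomm : ∀ s, star W * W * lg s = lg s * (star W * W) := by
    intro s
    rw [mul_assoc, hcom1, mul_smul_comm, ← mul_assoc (lg s), hcom2, smul_mul_assoc, mul_assoc]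
  have hscal := scalar_of_commute (hW.adj.mul hW) hcomm
  rw [fe_tau_sq] at hscal
  have hn : n2 W ≠ 0 := fun h0 => hne (n2_eq_zero hW h0)
  have hnC : ((n2 W : ℝ) : ℂ) ≠ 0 := by exact_mod_cast hn
  set c : ℂ := (((n2 W)⁻¹ : ℝ) : ℂ) with hc
  have hcc : conj c = c := by rw [hc, Complex.conj_ofReal]
  have hww : star (c • W) * (c • W) = 1 := by
    rw [star_smul, smul_mul_smul_comm, hscal, smul_smul]
    have h1 : star c * c * ((n2 W : ℝ) : ℂ) ^ 2 = 1 := by
      have h2 : star c = c := hcc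
      rw [h2, hc]
      push_cast
      field_simp
    rw [h1, one_smul]
  have hR : InR (c • W) := hW.smul c
  have hww' := isometry_unitary hR hww
  have hint : ∀ s, ρ s * (c • W) = (chi s) ^ j • ((c • W) * lg s) := by
    intro s
    rw [mul_smul_comm, hall, smul_mul_assoc, smul_comm]
  refine ⟨j, hj, c • W, ⟨hR, fun v hv => ?_⟩, hww, hww', fun s => ?_⟩
  · have h1 := hint v
    rw [chi_of_isV1 hv, one_pow, one_smul, h.tail v hv] at h1
    exact h1.symm
  · calc ρ s = ρ s * ((c • W) * star (c • W)) := by rw [hww', mul_one]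
      _ = (ρ s * (c • W)) * star (c • W) := by rw [mul_assoc]
      _ = (chi s) ^ j • ((c • W) * lg s * star (c • W)) := by rw [hint, smul_mul_assoc]

end OE
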