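import Mathlib
import Pool.Agent.Work.MP_06ef15_an.FE

/-!
# Section 15: the automorphism `Gm = Ad Dx`; (15.1)

* `Gm_inR`: `Dx * rg u = chi u • rg u * Dx` (`Dx_rg`), so `Dx * T * star Dx * rg u = rg u * Dx * T * star Dx` (the phases cancel).
* `Gm_inC`: for `w ∈ V1 k`, `chi w = 1`, so `Dx * lg w = lg w * Dx`.
* `n2_Gm`: `star Dx (e 0) = e 0`, `Dx` is isometric.
* `Gm_cube`: `lg v0 = rg v0 * Dx^3`, so `lg v0 * T * star (lg v0) = rg v0 * Gm (Gm (Gm T)) * star (rg v0) = Gm (Gm (Gm T))`, which commutes with `rg v0`.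
* `norm_Gm_rho_sub`: `c = Finsupp.single s 1`, `N` large: `‖Z lg_s Z* - ρ s‖ ≤ ε * ‖lg s‖ = ε`, `‖Gm Z - Z‖ = ‖Dx Z - Z Dx‖ ≤ ε`;
  `Gm (ρ s) ≈_ε Gm (Z lg_s Z*) = chi s • Gm Z * lg s * star (Gm Z) ≈_{2ε} chi s • Z lg_s Z* ≈_ε chi s • ρ s`.
* `exists_W14`: `structure14` for `Rp D.k D.ρ`.
* `W14.norm_conj_sub` (`y = yy w = star (Gm w) * w`): `Gm (ρ t) = chi^j • Gm w * (chi t • lg t) * star (Gm w)`, so the previous bound gives
  `‖Gm w * lg t * star (Gm w) - w * lg t * star w‖ ≤ 4 ε`; multiply by `star (Gm w)` on the left and `w` on the right: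
  `‖lg t * y - y * lg t‖ ≤ 4 ε`, then by `star (lg t)` on the right.
* `W14.norm_yy_sub`: `InC.norm_sub_tau_le`.  `W14.norm_sub_dd`: `w - dd • Gm w = Gm w * (y - dd • 1)`.
  `W14.norm_Gm_star_sub`: `Gm (star w) - dd • star w = (y - dd • 1) * star w` (`y * star w = star (Gm w)`).
-/

set_option autoImplicit false

open scoped ComplexConjugate InnerProductSpace Classical
open ContinuousLinearMap (adjoint)

namespace OE

/-- conjugation by `Dx`. -/
noncomputable def Gm (T : BV) : BV := Dx * T * star Dx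

private theorem nstar (T : BV) : ‖star T‖ = ‖T‖ :=
  LinearIsometryEquiv.norm_map (ContinuousLinearMap.adjoint (𝕜 := ℂ) (E := H V) (F := H V)) T

private theorem norm_star_Dx_le : ‖star Dx‖ ≤ 1 := by
  rw [nstar]
  exact norm_Dx_le

theorem Gm_mul (S T : BV) : Gm (S * T) = Gm S * Gm T := by
  unfold Gm
  have h1 : Dx * S * star Dx * (Dx * T * star Dx) = Dx * S * (star Dx * Dx) * T * star Dx := by
    simp only [mul_assoc]
  rw [h1, star_Dx_mul, mul_one]
  simp only [mul_assoc]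
theorem Gm_add (S T : BV) : Gm (S + T) = Gm S + Gm T := by
  unfold Gm
  rw [mul_add, add_mul]
theorem Gm_sub (S T : BV) : Gm (S - T) = Gm S - Gm T := by
  unfold Gm
  rw [mul_sub, sub_mul]
theorem Gm_smul (c : ℂ) (T : BV) : Gm (c • T) = c • Gm T := by
  unfold Gm
  rw [mul_smul_comm, smul_mul_assoc]
theorem Gm_star (T : BV) : Gm (star T) = star (Gm T) := by
  unfold Gm
  rw [star_mul, star_mul, star_star, mul_assoc]
theorem Gm_one : Gm 1 = 1 := by
  unfold Gm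
  rw [mul_one, Dx_mul_star]

theorem Gm_lg (s : V) : Gm (lg s) = chi s • lg s := Dx_lg_star s

private theorem Gm_comm_of {T U : BV} {c : ℂ} (hc : conj c * c = 1) (hU : Dx * U = c • (U * Dx))
    (h : T * U = U * T) : Gm T * U = U * Gm T := by
  have h1 : U * star Dx = c • (star Dx * U) := by
    have h2 : star Dx * (Dx * U) * star Dx = star Dx * (c • (U * Dx)) * star Dx := by rw [hU]
    rw [← mul_assoc, star_Dx_mul, one_mul, mul_smul_comm, smul_mul_assoc, mul_assoc, mul_assoc U,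
      Dx_mul_star, mul_one] at h2
    exact h2
  have h3 : c • (Gm T * U) = c • (U * Gm T) := by
    unfold Gm
    calc c • (Dx * T * star Dx * U) = Dx * T * (c • (star Dx * U)) := by
          rw [mul_smul_comm, mul_assoc (Dx * T)]
      _ = Dx * (T * U) * star Dx := by rw [← h1]; simp only [mul_assoc]
      _ = (Dx * U) * T * star Dx := by rw [h]; simp only [mul_assoc]
      _ = c • (U * (Dx * T * star Dx)) := by
          rw [hU]; simp only [smul_mul_assoc, mul_assoc]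
  have h4 := congrArg (fun x => conj c • x) h3
  simp only [smul_smul, hc, one_smul] at h4
  exact h4

theorem Gm_inR {T : BV} (h : InR T) : InR (Gm T) := fun u =>
  Gm_comm_of (conj_mul_chi u) (Dx_rg u) (h u)

theorem Gm_inC {k : ℕ} {T : BV} (h : InC k T) : InC k (Gm T) :=
  ⟨Gm_inR h.1, fun w hw => Gm_comm_of (conj_mul_chi w) (Dx_lg w) (h.2 w hw)⟩

theorem norm_Gm_le (T : BV) : ‖Gm T‖ ≤ ‖T‖ := by
  unfold Gm
  calc ‖Dx * T * star Dx‖ ≤ ‖Dx * T‖ * ‖star Dx‖ := norm_mul_le _ _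
    _ ≤ (‖Dx‖ * ‖T‖) * ‖star Dx‖ := by gcongr; exact norm_mul_le _ _
    _ ≤ (1 * ‖T‖) * 1 := by
        gcongr
        · exact norm_Dx_le
        · exact norm_star_Dx_le
    _ = ‖T‖ := by ring

private theorem star_Dx_zero : star Dx (e 0) = e 0 := by
  have h1 : Dx (e 0) = e 0 := by rw [Dx_e, chi_zero, one_smul]
  have h2 : (star Dx * Dx) (e 0) = e 0 := by rw [star_Dx_mul]; rfl
  have h3 : star Dx (Dx (e 0)) = e 0 := h2
  rwa [h1] at h3

theorem n2_Gm (T : BV) : n2 (Gm T) = n2 T := by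
  unfold n2
  show ‖Dx (T (star Dx (e 0)))‖ = ‖T (e 0)‖
  rw [norm_Dx_apply, star_Dx_zero]

theorem Gm_cube {T : BV} (h : InR T) : Gm (Gm (Gm T)) = lg v0 * T * star (lg v0) := by
  have h1 : lg v0 * T * star (lg v0) = rg v0 * Gm (Gm (Gm T)) * star (rg v0) := by
    rw [lg_v0]
    unfold Gm
    simp only [star_mul, mul_assoc]
  rw [h1, ← Gm_inR (Gm_inR (Gm_inR h)) v0, mul_assoc, rg_mul_star, mul_one]

theorem norm_Gm_sub_self_le (T : BV) : ‖Gm T - T‖ ≤ ‖Dx * T - T * Dx‖ := by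
  have h1 : Gm T - T = (Dx * T - T * Dx) * star Dx := by
    unfold Gm
    rw [sub_mul, mul_assoc T, Dx_mul_star, mul_one]
  rw [h1]
  calc ‖(Dx * T - T * Dx) * star Dx‖ ≤ ‖Dx * T - T * Dx‖ * ‖star Dx‖ := norm_mul_le _ _
    _ ≤ ‖Dx * T - T * Dx‖ * 1 := by gcongr; exact norm_star_Dx_le
    _ = _ := mul_one _

private noncomputable def GmL : BV →ₗ[ℂ] BV where
  toFun := Gm
  map_add' := Gm_add
  map_smul' := Gm_smul

private theorem GmL_pow (j : ℕ) (T : BV) : (GmL ^ j) T = Gm^[j] T := Module.End.pow_apply _ _ _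
/-- iterates. -/
theorem Gm_iter_lg (j : ℕ) (s : V) : Gm^[j] (lg s) = (chi s) ^ j • lg s := by
  induction j with
  | zero => rw [Function.iterate_zero_apply, pow_zero, one_smul]
  | succ j ih => rw [Function.iterate_succ_apply', ih, Gm_smul, Gm_lg, smul_smul, pow_succ]

theorem Gm_iter_lgc (j : ℕ) (c : V →₀ ℂ) : Gm^[j] (lgc c) = c.sum (fun s z => z • ((chi s) ^ j • lg s)) := by
  rw [← GmL_pow]
  unfold lgc
  rw [map_finsuppSum]
  refine Finsupp.sum_congr fun s _ => ?_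
  rw [map_smul, GmL_pow, Gm_iter_lg]

theorem Gm_iter_sub (j : ℕ) (S T : BV) : Gm^[j] (S - T) = Gm^[j] S - Gm^[j] T := by
  rw [← GmL_pow, ← GmL_pow, ← GmL_pow, map_sub]

theorem Gm_iter_inR (j : ℕ) {T : BV} (h : InR T) : InR (Gm^[j] T) := by
  induction j with
  | zero => exact h
  | succ j ih =>
    rw [Function.iterate_succ_apply']
    exact Gm_inR ih

theorem n2_Gm_iter (j : ℕ) (T : BV) : n2 (Gm^[j] T) = n2 T := by
  induction j with
  | zero => rfl
  | succ j ih => rw [Function.iterate_succ_apply', n2_Gm, ih]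

theorem norm_Gm_iter_sub_self_le (j : ℕ) {T : BV} {ε : ℝ} (h : ‖Gm T - T‖ ≤ ε) : ‖Gm^[j] T - T‖ ≤ j * ε := by
  induction j with
  | zero => simp
  | succ j ih =>
    rw [Function.iterate_succ_apply']
    have h1 : Gm (Gm^[j] T) - T = Gm (Gm^[j] T - T) + (Gm T - T) := by
      rw [Gm_sub]; abel
    rw [h1]
    calc ‖Gm (Gm^[j] T - T) + (Gm T - T)‖ ≤ ‖Gm (Gm^[j] T - T)‖ + ‖Gm T - T‖ := norm_add_le _ _
      _ ≤ j * ε + ε := add_le_add ((norm_Gm_le _).trans ih) h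
      _ = ((j + 1 : ℕ) : ℝ) * ε := by push_cast; ring

/-- (E4), (E5) give almost invariance of `ρ`. -/
theorem norm_Gm_rho_sub {ε : ℝ} (D : EndData ε) (s : V) : ‖Gm (D.ρ s) - chi s • D.ρ s‖ ≤ 4 * ε := by
  obtain ⟨N, hN⟩ := (D.Z_ρ (Finsupp.single s 1)).exists
  have hc : (Finsupp.single s (1 : ℂ)).sum (fun s z => z • D.ρ s) = D.ρ s := by
    rw [Finsupp.sum_single_index (zero_smul ℂ (D.ρ s)), one_smul]
  rw [lgc_single, one_smul, hc, norm_lg, mul_one] at hN
  set Z : BV := D.Z N with hZ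
  have hZ1 : ‖Z‖ ≤ 1 := D.Z_norm N
  have hG : ‖Gm Z - Z‖ ≤ ε := (norm_Gm_sub_self_le Z).trans (D.Z_Dx N)
  have hε : 0 ≤ ε := (norm_nonneg _).trans hG
  have hGZ : ‖Gm Z‖ ≤ 1 := (norm_Gm_le Z).trans hZ1
  have h1 : Gm (D.ρ s) - chi s • D.ρ s = -Gm (Z * lg s * star Z - D.ρ s) +
      chi s • ((Gm Z - Z) * lg s * star (Gm Z) + Z * lg s * star (Gm Z - Z)) +
      chi s • (Z * lg s * star Z - D.ρ s) := by
    have h2 : Gm (Z * lg s * star Z) = chi s • (Gm Z * lg s * star (Gm Z)) := by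
      rw [Gm_mul, Gm_mul, Gm_lg, Gm_star, mul_smul_comm, smul_mul_assoc]
    have h3 : (Gm Z - Z) * lg s * star (Gm Z) + Z * lg s * star (Gm Z - Z) =
        Gm Z * lg s * star (Gm Z) - Z * lg s * star Z := by
      rw [sub_mul, sub_mul, star_sub, mul_sub]; abel
    rw [Gm_sub, h2, h3, smul_sub, smul_sub]
    abel
  have h4 : ‖(Gm Z - Z) * lg s * star (Gm Z)‖ ≤ ε := by
    calc ‖(Gm Z - Z) * lg s * star (Gm Z)‖ ≤ ‖(Gm Z - Z) * lg s‖ * ‖star (Gm Z)‖ := norm_mul_le _ _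
      _ ≤ (‖Gm Z - Z‖ * ‖lg s‖) * ‖star (Gm Z)‖ := by gcongr; exact norm_mul_le _ _
      _ ≤ (ε * 1) * 1 := by
          gcongr
          · exact (norm_lg s).le
          · rw [nstar]; exact hGZ
      _ = ε := by ring
  have h5 : ‖Z * lg s * star (Gm Z - Z)‖ ≤ ε := by
    calc ‖Z * lg s * star (Gm Z - Z)‖ ≤ ‖Z * lg s‖ * ‖star (Gm Z - Z)‖ := norm_mul_le _ _
      _ ≤ (‖Z‖ * ‖lg s‖) * ‖star (Gm Z - Z)‖ := by gcongr; exact norm_mul_le _ _
      _ ≤ (1 * 1) * ε := by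
          gcongr
          · exact (norm_lg s).le
          · rw [nstar]; exact hG
      _ = ε := by ring
  rw [h1]
  calc _ ≤ ‖-Gm (Z * lg s * star Z - D.ρ s) +
        chi s • ((Gm Z - Z) * lg s * star (Gm Z) + Z * lg s * star (Gm Z - Z))‖ +
        ‖chi s • (Z * lg s * star Z - D.ρ s)‖ := norm_add_le _ _
    _ ≤ ‖-Gm (Z * lg s * star Z - D.ρ s)‖ +
        ‖chi s • ((Gm Z - Z) * lg s * star (Gm Z) + Z * lg s * star (Gm Z - Z))‖ +
        ‖chi s • (Z * lg s * star Z - D.ρ s)‖ := by gcongr; exact norm_add_le _ _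
    _ ≤ ε + (ε + ε) + ε := by
        rw [norm_neg, norm_smul, norm_smul, norm_chi, one_mul, one_mul]
        gcongr
        · exact (norm_Gm_le _).trans hN
        · exact (norm_add_le _ _).trans (add_le_add h4 h5)
    _ = 4 * ε := by ring

/-- the conclusion of section 14 for end data. -/
structure W14 {ε : ℝ} (D : EndData ε) (j : ℕ) (w : BV) : Prop where
  inC : InC D.k w
  left : star w * w = 1
  right : w * star w = 1
  eq : ∀ s, D.ρ s = (chi s) ^ j • (w * lg s * star w)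

theorem exists_W14 {ε : ℝ} (D : EndData ε) : ∃ j < 9, ∃ w, W14 D j w := by
  have h : Rp D.k D.ρ := ⟨D.ρ_mul, fun s => (D.ρ_unitary s).1, fun s => (D.ρ_unitary s).2, D.ρ_comm, D.ρ_V1⟩
  obtain ⟨j, hj, w, h1, h2, h3, h4⟩ := structure14 h
  exact ⟨j, hj, w, h1, h2, h3, h4⟩

/-- `y = Gm(w)* w`. -/
noncomputable def yy (w : BV) : BV := star (Gm w) * w

/-- `dd = tau y`. -/
noncomputable def dd (w : BV) : ℂ := tau (yy w)

variable {ε : ℝ} {D : EndData ε} {j : ℕ} {w : BV}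

theorem W14.norm_w_le (h : W14 D j w) : ‖w‖ ≤ 1 := by
  have h1 : ‖w‖ * ‖w‖ ≤ 1 := by
    rw [← CStarRing.norm_star_mul_self, h.left]
    exact ContinuousLinearMap.norm_id_le
  nlinarith [norm_nonneg w]

private theorem W14.left_Gm (h : W14 D j w) : star (Gm w) * Gm w = 1 := by
  rw [← Gm_star, ← Gm_mul, h.left, Gm_one]

private theorem W14.right_Gm (h : W14 D j w) : Gm w * star (Gm w) = 1 := by
  rw [← Gm_star, ← Gm_mul, h.right, Gm_one]

private theorem norm_mul_le_of_right {x y : BV} {a : ℝ} (hx : ‖x‖ ≤ a) (hy : ‖y‖ ≤ 1) :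
    ‖x * y‖ ≤ a := by
  calc ‖x * y‖ ≤ ‖x‖ * ‖y‖ := norm_mul_le _ _
    _ ≤ a * 1 := mul_le_mul hx hy (norm_nonneg _) ((norm_nonneg _).trans hx)
    _ = a := mul_one _

private theorem norm_mul_le_of_left {x y : BV} {a : ℝ} (hx : ‖x‖ ≤ 1) (hy : ‖y‖ ≤ a) :
    ‖x * y‖ ≤ a := by
  calc ‖x * y‖ ≤ ‖x‖ * ‖y‖ := norm_mul_le _ _
    _ ≤ 1 * a := mul_le_mul hx hy (norm_nonneg _) zero_le_one
    _ = a := one_mul _

theorem W14.norm_conj_sub (h : W14 D j w) (t : V) : ‖lg t * yy w * star (lg t) - yy w‖ ≤ 4 * ε := by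
  have h1 : Gm (D.ρ t) - chi t • D.ρ t = ((chi t) ^ j * chi t) •
      (Gm w * lg t * star (Gm w) - w * lg t * star w) := by
    rw [h.eq t, Gm_smul, Gm_mul, Gm_mul, Gm_lg, Gm_star, mul_smul_comm, smul_mul_assoc, smul_smul,
      smul_smul, smul_sub, mul_comm (chi t)]
  have h2 := norm_Gm_rho_sub D t
  rw [h1, norm_smul, norm_mul, norm_pow, norm_chi, one_pow, one_mul, one_mul] at h2
  have hw := h.norm_w_le
  have hGw : ‖star (Gm w)‖ ≤ 1 := by
    rw [nstar]
    exact (norm_Gm_le w).trans hw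
  have h3 : lg t * yy w * star (lg t) - yy w =
      star (Gm w) * (Gm w * lg t * star (Gm w) - w * lg t * star w) * w * star (lg t) := by
    unfold yy
    have h4 : star (Gm w) * (Gm w * lg t * star (Gm w) - w * lg t * star w) * w * star (lg t) =
        (star (Gm w) * Gm w) * lg t * star (Gm w) * w * star (lg t) -
        star (Gm w) * w * lg t * (star w * w) * star (lg t) := by
      simp only [mul_sub, sub_mul, mul_assoc]
    rw [h4, h.left_Gm, h.left, mul_one, one_mul, mul_assoc (star (Gm w) * w), lg_mul_star, mul_one]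
    simp only [mul_assoc]
  rw [h3]
  refine norm_mul_le_of_right (norm_mul_le_of_right (norm_mul_le_of_left hGw h2) hw) ?_
  rw [nstar]
  exact (norm_lg t).le

private theorem W14.inC_yy (h : W14 D j w) : InC D.k (yy w) := (Gm_inC h.inC).adj.mul h.inC

theorem W14.norm_yy_sub (h : W14 D j w) : ‖yy w - dd w • 1‖ ≤ 4 * ε :=
  h.inC_yy.norm_sub_tau_le h.norm_conj_sub

theorem W14.norm_dd_le (h : W14 D j w) : ‖dd w‖ ≤ 1 := by
  have hw := h.norm_w_le
  have hGw : ‖star (Gm w)‖ ≤ 1 := by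
    rw [nstar]
    exact (norm_Gm_le w).trans hw
  have h1 : ‖yy w‖ ≤ 1 := norm_mul_le_of_right hGw hw
  have h2 : ‖dd w‖ ≤ ‖yy w (e 0)‖ := lp.norm_apply_le_norm (by norm_num) _ _
  exact h2.trans ((n2_le _).trans h1)

theorem W14.norm_sub_dd (h : W14 D j w) : ‖w - dd w • Gm w‖ ≤ 4 * ε := by
  have h1 : w - dd w • Gm w = Gm w * (yy w - dd w • 1) := by
    rw [mul_sub, mul_smul_comm, mul_one]
    congr 1
    unfold yy
    rw [← mul_assoc, h.right_Gm, one_mul]
  rw [h1]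
  exact norm_mul_le_of_left ((norm_Gm_le w).trans h.norm_w_le) h.norm_yy_sub

theorem W14.norm_Gm_star_sub (h : W14 D j w) : ‖Gm (star w) - dd w • star w‖ ≤ 4 * ε := by
  have h1 : Gm (star w) - dd w • star w = (yy w - dd w • 1) * star w := by
    rw [sub_mul, smul_mul_assoc, one_mul]
    congr 1
    unfold yy
    rw [mul_assoc, h.right, mul_one, Gm_star]
  rw [h1]
  refine norm_mul_le_of_right h.norm_yy_sub ?_
  rw [nstar]
  exact h.norm_w_le

end OE
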