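import Mathlib
import Pool.Agent.Work.MP_06ef15_an.FF

/-!
# Section 15, (15.2): `dd^3` is close to `lam^j`; `Gm^j (star w)` is close to `dd^j star w`

* `norm_sub_dd_cube`: apply `Gm` (norm decreasing) to `‖w - dd • Gm w‖ ≤ 4 ε` once and twice:
  `w - dd^3 • Gm^3 w = (w - dd • Gm w) + dd • Gm (w - dd • Gm w) + dd^2 • Gm (Gm (w - dd • Gm w))`, `‖dd‖ ≤ 1`.
* `norm_dd_cube_sub`: `D.ρ v0 = chi v0 ^ j • w * lg v0 * star w`, `chi v0 = conj lam`; `Gm^3 w * lg v0 * star w = lg v0 * w * star (lg v0) * lg v0 * star w = lg v0`;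
  so `‖D.ρ v0 - (conj lam ^ j * dd^3) • lg v0‖ ≤ 12 ε`, with `‖D.ρ v0 - lg v0‖ ≤ ε`: `‖(1 - conj lam ^ j * dd^3) • lg v0‖ ≤ 13 ε`, `‖lg v0‖ = 1`, and
  `‖dd^3 - lam^j‖ = ‖lam^j‖ * ‖conj lam ^ j * dd^3 - 1‖` (`conj lam * lam = 1`).
* `norm_Gm_iter_star_sub`: induction on `n`: `Gm^[n+1] (star w) - dd^(n+1) • star w = Gm (Gm^[n] (star w) - dd^n • star w) + dd^n • (Gm (star w) - dd • star w)`
  (`Function.iterate_succ_apply'`).
-/

set_option autoImplicit false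

open scoped ComplexConjugate InnerProductSpace Classical
open ContinuousLinearMap (adjoint)

namespace OE

variable {ε : ℝ} {D : EndData ε} {j : ℕ} {w : BV}

theorem W14.norm_sub_dd_cube (h : W14 D j w) : ‖w - (dd w) ^ 3 • Gm (Gm (Gm w))‖ ≤ 12 * ε := by
  have h0 := h.norm_sub_dd
  have hd := h.norm_dd_le
  have h1 : ‖Gm (w - dd w • Gm w)‖ ≤ 4 * ε := (norm_Gm_le _).trans h0
  have h2 : ‖Gm (Gm (w - dd w • Gm w))‖ ≤ 4 * ε := (norm_Gm_le _).trans h1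
  have h4 : 0 ≤ 4 * ε := (norm_nonneg _).trans h0
  have heq : w - (dd w) ^ 3 • Gm (Gm (Gm w)) =
      (w - dd w • Gm w) + dd w • Gm (w - dd w • Gm w) + (dd w) ^ 2 • Gm (Gm (w - dd w • Gm w)) := by
    rw [Gm_sub, Gm_smul, Gm_sub, Gm_smul]
    module
  rw [heq]
  have h5 : ‖dd w • Gm (w - dd w • Gm w)‖ ≤ 4 * ε := by
    rw [norm_smul]
    calc ‖dd w‖ * ‖Gm (w - dd w • Gm w)‖ ≤ 1 * (4 * ε) := mul_le_mul hd h1 (norm_nonneg _) zero_le_one
      _ = 4 * ε := one_mul _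
  have h6 : ‖(dd w) ^ 2 • Gm (Gm (w - dd w • Gm w))‖ ≤ 4 * ε := by
    rw [norm_smul, norm_pow]
    calc ‖dd w‖ ^ 2 * ‖Gm (Gm (w - dd w • Gm w))‖ ≤ 1 * (4 * ε) :=
          mul_le_mul (pow_le_one₀ (norm_nonneg _) hd) h2 (norm_nonneg _) zero_le_one
      _ = 4 * ε := one_mul _
  calc _ ≤ ‖(w - dd w • Gm w) + dd w • Gm (w - dd w • Gm w)‖ + ‖(dd w) ^ 2 • Gm (Gm (w - dd w • Gm w))‖ :=
        norm_add_le _ _
    _ ≤ (‖w - dd w • Gm w‖ + ‖dd w • Gm (w - dd w • Gm w)‖) + ‖(dd w) ^ 2 • Gm (Gm (w - dd w • Gm w))‖ :=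
        add_le_add_left (norm_add_le _ _) _
    _ ≤ (4 * ε + 4 * ε) + 4 * ε := add_le_add (add_le_add h0 h5) h6
    _ = 12 * ε := by ring

private theorem conj_lam_mul_lam : conj lam * lam = 1 := conj_mul_ch 3

theorem W14.norm_dd_cube_sub (h : W14 D j w) : ‖(dd w) ^ 3 - lam ^ j‖ ≤ 13 * ε := by
  have h0 := h.norm_sub_dd_cube
  have hv := h.eq v0
  rw [chi_v0] at hv
  have hlam : ‖conj lam‖ = 1 := by rw [RCLike.norm_conj, norm_lam]
  -- the error after multiplication by `lg v0 * star w`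
  have hw1 : ‖lg v0 * star w‖ ≤ 1 := by
    refine (norm_mul_le _ _).trans ?_
    rw [norm_lg, one_mul]
    have hs : ‖star w‖ = ‖w‖ := LinearIsometryEquiv.norm_map ContinuousLinearMap.adjoint w
    rw [hs]
    exact h.norm_w_le
  have h1 : ‖(w - (dd w) ^ 3 • Gm (Gm (Gm w))) * (lg v0 * star w)‖ ≤ 12 * ε := by
    refine (norm_mul_le _ _).trans ?_
    have h12 : 0 ≤ 12 * ε := (norm_nonneg _).trans h0
    calc _ ≤ (12 * ε) * 1 := mul_le_mul h0 hw1 (norm_nonneg _) h12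
      _ = 12 * ε := mul_one _
  have h2 : (w - (dd w) ^ 3 • Gm (Gm (Gm w))) * (lg v0 * star w) = w * lg v0 * star w - (dd w) ^ 3 • lg v0 := by
    have h9 : lg v0 * w * star (lg v0) * (lg v0 * star w) = lg v0 := by
      calc lg v0 * w * star (lg v0) * (lg v0 * star w) = lg v0 * w * (star (lg v0) * lg v0) * star w := by
            simp only [mul_assoc]
        _ = lg v0 := by rw [star_lg_mul, mul_one, mul_assoc, h.right, mul_one]
    rw [Gm_cube h.inC.1, sub_mul, smul_mul_assoc, h9, mul_assoc w]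
  rw [h2] at h1
  have h3 : ‖D.ρ v0 - ((conj lam) ^ j * (dd w) ^ 3) • lg v0‖ ≤ 12 * ε := by
    rw [hv, mul_smul, ← smul_sub, norm_smul, norm_pow, hlam, one_pow, one_mul]
    exact h1
  have h4 : ‖lg v0 - ((conj lam) ^ j * (dd w) ^ 3) • lg v0‖ ≤ 13 * ε := by
    have h5 : lg v0 - ((conj lam) ^ j * (dd w) ^ 3) • lg v0 =
        (D.ρ v0 - ((conj lam) ^ j * (dd w) ^ 3) • lg v0) - (D.ρ v0 - lg v0) := by abel
    rw [h5]
    refine (norm_sub_le _ _).trans ?_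
    linarith [D.ρ_v0]
  have h6 : lg v0 - ((conj lam) ^ j * (dd w) ^ 3) • lg v0 = (1 - (conj lam) ^ j * (dd w) ^ 3) • lg v0 := by
    rw [sub_smul, one_smul]
  rw [h6, norm_smul, norm_lg, mul_one] at h4
  have h7 : (dd w) ^ 3 - lam ^ j = -(lam ^ j * (1 - (conj lam) ^ j * (dd w) ^ 3)) := by
    have h8 : lam ^ j * (conj lam) ^ j = 1 := by
      rw [← mul_pow, mul_comm, conj_lam_mul_lam, one_pow]
    linear_combination -(dd w) ^ 3 * h8
  rw [h7, norm_neg, norm_mul, norm_pow, norm_lam, one_pow, one_mul]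
  exact h4

theorem W14.norm_Gm_iter_star_sub (h : W14 D j w) (n : ℕ) :
    ‖Gm^[n] (star w) - (dd w) ^ n • star w‖ ≤ 4 * n * ε := by
  induction n with
  | zero => simp
  | succ n ih =>
    have h1 : Gm^[n + 1] (star w) - (dd w) ^ (n + 1) • star w =
        Gm (Gm^[n] (star w) - (dd w) ^ n • star w) + (dd w) ^ n • (Gm (star w) - dd w • star w) := by
      rw [Function.iterate_succ_apply', Gm_sub, Gm_smul, pow_succ]
      module
    rw [h1]
    have h2 : ‖Gm (Gm^[n] (star w) - (dd w) ^ n • star w)‖ ≤ 4 * n * ε := (norm_Gm_le _).trans ih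
    have h3 : ‖(dd w) ^ n • (Gm (star w) - dd w • star w)‖ ≤ 4 * ε := by
      rw [norm_smul, norm_pow]
      calc ‖dd w‖ ^ n * ‖Gm (star w) - dd w • star w‖ ≤ 1 * (4 * ε) :=
            mul_le_mul (pow_le_one₀ (norm_nonneg _) h.norm_dd_le) h.norm_Gm_star_sub (norm_nonneg _) zero_le_one
        _ = 4 * ε := one_mul _
    refine (norm_add_le _ _).trans ?_
    push_cast
    linarith

end OE
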