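import Mathlib
import Pool.Agent.Work.MP_06ef15_an.FB

/-!
# Truncation: every `T ∈ InR` is approximated in the 2-norm by finite combinations of the `lg s` of norm at most `‖T‖`

Fix `M`.  `Kc M = {v : V | v.1 i = 0 and v.2.1 i = 0 for i < M, v.2.2 = 0}` is a complement of `VF M`:
`(s, v) ↦ s + v` is a bijection `VF M × Kc M → V` (`exists_split`, `split_unique`).

`Um M : ℓ²(VF M × Kc M) → ℓ²(V)`, `e (s, v) ↦ rg v (e s) = ch (bf s v) • e (s + v)` (`wp` of a partial injection with phases): it is unitary (isometric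
because the basis goes to orthonormal vectors, onto because every `e u` is in the range up to a phase).
`em M : ℓ²(VF M) → ℓ²(V)`, `e s ↦ e s` (`re` of the inclusion), `T0 = adjoint (em M) ∘ T ∘ em M`, `‖T0‖ ≤ ‖T‖`.
With `c = ∑_{s ∈ VF M} cf T s • single s`:
`lgc c ∘ Um M = Um M ∘ amp (Kc M) T0`: on `e (s0, v)`: `lgc c (rg v (e s0)) = rg v (lgc c (e s0))`
`= rg v (∑_{s ∈ VF M} (cf T s * ch (bf s s0)) • e (s + s0))`, and `T (e s0) = rg s0 (T e_0)` has the coordinate `cf T s * ch (bf s s0)` at `s + s0`, so `T0 (e s0)` has the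
coordinate `cf T s * ch (bf s s0)` at `s + s0` for `s ∈ VF M`, i.e. all of them.
So `‖lgc c‖ = ‖Um ∘ amp T0 ∘ adjoint Um‖ ≤ ‖T0‖ ≤ ‖T‖` (`norm_amp_le`).

Approximation: `T e_0 = ∑ cf T s • e s` (`hasSum_e`): there is a finite `F0` with `‖T e_0 - ∑_{s ∈ F} cf T s • e s‖ ≤ η` for all finite `F ⊇ F0`; take `M` with
`F0 ⊆ VFin M` (`exists_mem_VF`, `VF_mono`), `F = VFin M`; `(lgc c) e_0 = ∑_{s ∈ VFin M} cf T s • e s`.
-/

set_option autoImplicit false

open scoped ComplexConjugate InnerProductSpace Classical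
open ContinuousLinearMap (adjoint)

namespace OE

/-- truncation of the coefficients to `VF M`. -/
noncomputable def trc (M : ℕ) (T : BV) : V →₀ ℂ := ∑ s ∈ VFin M, Finsupp.single s (cf T s)

theorem lgc_trc (M : ℕ) (T : BV) : lgc (trc M T) = ∑ s ∈ VFin M, cf T s • lg s :=
  (sum_eq_lgc (VFin M) (fun s => cf T s)).symm

/-- a complement of `VF M`. -/
def Kc (M : ℕ) : Set V := {v | (∀ i < M, v.1 i = 0 ∧ v.2.1 i = 0) ∧ v.2.2 = 0}

theorem exists_split (M : ℕ) (u : V) : ∃ s ∈ VF M, ∃ v ∈ Kc M, u = s + v := by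
  refine ⟨(u.1.filter (fun i => i < M), u.2.1.filter (fun i => i < M), u.2.2), ?_,
    (u.1.filter (fun i => ¬ i < M), u.2.1.filter (fun i => ¬ i < M), 0), ?_, ?_⟩
  · rw [mem_VF]
    intro i hi
    exact ⟨Finsupp.filter_apply_neg _ _ (by omega), Finsupp.filter_apply_neg _ _ (by omega)⟩
  · refine ⟨fun i hi => ?_, rfl⟩
    exact ⟨Finsupp.filter_apply_neg _ _ (by simpa using hi), Finsupp.filter_apply_neg _ _ (by simpa using hi)⟩
  · refine Prod.ext ?_ (Prod.ext ?_ ?_)
    · exact (Finsupp.filter_pos_add_filter_neg u.1 _).symm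
    · exact (Finsupp.filter_pos_add_filter_neg u.2.1 _).symm
    · exact (add_zero u.2.2).symm

theorem split_unique {M : ℕ} {s s' v v' : V} (hs : s ∈ VF M) (hs' : s' ∈ VF M) (hv : v ∈ Kc M) (hv' : v' ∈ Kc M)
    (h : s + v = s' + v') : s = s' ∧ v = v' := by
  rw [mem_VF] at hs hs'
  have h1 : s.1 + v.1 = s'.1 + v'.1 := congrArg Prod.fst h
  have h2 : s.2.1 + v.2.1 = s'.2.1 + v'.2.1 := congrArg (fun x : V => x.2.1) h
  have h3 : s.2.2 + v.2.2 = s'.2.2 + v'.2.2 := congrArg (fun x : V => x.2.2) h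
  have e1 : s = s' := by
    refine Prod.ext ?_ (Prod.ext ?_ ?_)
    · ext i
      by_cases hi : i < M
      · have h4 := DFunLike.congr_fun h1 i
        rw [Finsupp.add_apply, Finsupp.add_apply, (hv.1 i hi).1, (hv'.1 i hi).1, add_zero, add_zero] at h4
        rw [h4]
      · rw [(hs i (by omega)).1, (hs' i (by omega)).1]
    · ext i
      by_cases hi : i < M
      · have h4 := DFunLike.congr_fun h2 i
        rw [Finsupp.add_apply, Finsupp.add_apply, (hv.1 i hi).2, (hv'.1 i hi).2, add_zero, add_zero] at h4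
        rw [h4]
      · rw [(hs i (by omega)).2, (hs' i (by omega)).2]
    · rw [hv.2, hv'.2, add_zero, add_zero] at h3
      exact h3
  refine ⟨e1, ?_⟩
  rw [e1] at h
  exact add_left_cancel h

private theorem adj_rg_e (s u : V) : adjoint (rg s) (e u) = conj (ch (bf (u - s) s)) • e (u - s) := by
  have h := adj_wp_e_some (f := fun v : V => some (v + s)) (c := fun v : V => ch (bf v s)) (C := 1) zero_le_one
    (fun i i' j hi hi' => by
      have h1 := Option.some.inj hi
      have h2 := Option.some.inj hi'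
      exact add_right_cancel (h1.trans h2.symm)) (fun v => norm_ch_le _) (i := u - s) (j := u)
    (by rw [sub_add_cancel])
  exact h

private theorem rg_coord (s u : V) (x : H V) :
    (rg s x : V → ℂ) u = ch (bf (u - s) s) * (x : V → ℂ) (u - s) := by
  rw [← inner_e_left, ← ContinuousLinearMap.adjoint_inner_left, adj_rg_e, inner_smul_left, inner_e_left,
    Complex.conj_conj]

private noncomputable def Um (M : ℕ) : H ({s : V // s ∈ VF M} × {v : V // v ∈ Kc M}) →L[ℂ] H V :=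
  mk (fun p => rg p.2.1 (e p.1.1))

private theorem Um_ortho (M : ℕ) (p q : {s : V // s ∈ VF M} × {v : V // v ∈ Kc M}) :
    ⟪rg p.2.1 (e p.1.1), rg q.2.1 (e q.1.1)⟫_ℂ = if p = q then 1 else 0 := by
  rw [rg_e, rg_e, inner_smul_left, inner_smul_right, inner_e_e]
  by_cases h : p = q
  · rw [if_pos h, h, if_pos rfl, mul_one, conj_mul_ch]
  · rw [if_neg h, if_neg, mul_zero, mul_zero]
    intro h'
    obtain ⟨h1, h2⟩ := split_unique p.1.2 q.1.2 p.2.2 q.2.2 h'
    exact h (Prod.ext (Subtype.ext h1) (Subtype.ext h2))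

private theorem Um_e (M : ℕ) (p : {s : V // s ∈ VF M} × {v : V // v ∈ Kc M}) :
    Um M (e p) = rg p.2.1 (e p.1.1) := by
  refine mk_e (C := 1) ⟨zero_le_one, fun i j hij => ?_, fun i => ?_⟩ p
  · rw [Um_ortho, if_neg hij]
  · change ‖rg i.2.1 (e i.1.1)‖ ≤ 1
    rw [norm_rg_apply, norm_e]

private theorem Um_inner (M : ℕ) (x y : H ({s : V // s ∈ VF M} × {v : V // v ∈ Kc M})) :
    ⟪Um M x, Um M y⟫_ℂ = ⟪x, y⟫_ℂ := by
  refine isometry_of_ortho (Um M) (fun p q => ?_) x y
  rw [Um_e, Um_e, Um_ortho]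
  split_ifs <;> rfl

private theorem adj_Um_Um (M : ℕ) (x : H ({s : V // s ∈ VF M} × {v : V // v ∈ Kc M})) :
    adjoint (Um M) (Um M x) = x := by
  refine ext_inner_left ℂ fun y => ?_
  rw [ContinuousLinearMap.adjoint_inner_right, Um_inner]

private theorem Um_adj_Um (M : ℕ) (x : H V) : Um M (adjoint (Um M) x) = x := by
  have h : (Um M).comp (adjoint (Um M)) = ContinuousLinearMap.id ℂ (H V) := by
    refine ext_e fun u => ?_
    obtain ⟨s, hs, v, hv, huv⟩ := exists_split M u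
    have h1 : Um M (conj (ch (bf s v)) • e (⟨s, hs⟩, ⟨v, hv⟩)) = e u := by
      rw [map_smul, Um_e]
      change conj (ch (bf s v)) • rg v (e s) = e u
      rw [rg_e, smul_smul, conj_mul_ch, one_smul, huv]
    change Um M (adjoint (Um M) (e u)) = e u
    rw [← h1, adj_Um_Um]
  exact DFunLike.congr_fun h x

private noncomputable def em (M : ℕ) : H {s : V // s ∈ VF M} →L[ℂ] H V := re Subtype.val

private theorem em_e (M : ℕ) (s : {s : V // s ∈ VF M}) : em M (e s) = e s.1 := re_e Subtype.val_injective s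

private theorem Um_emb (M : ℕ) (v : {v : V // v ∈ Kc M}) (x : H {s : V // s ∈ VF M}) :
    Um M (emb v x) = rg v.1 (em M x) := by
  have h : (Um M).comp (emb v) = (rg v.1).comp (em M) := by
    refine ext_e fun s => ?_
    change Um M (emb v (e s)) = rg v.1 (em M (e s))
    rw [emb_e, Um_e, em_e]
  exact DFunLike.congr_fun h x

private noncomputable def T0 (M : ℕ) (T : BV) : H {s : V // s ∈ VF M} →L[ℂ] H {s : V // s ∈ VF M} :=
  (adjoint (em M)).comp (T.comp (em M))

private theorem norm_em_le (M : ℕ) : ‖em M‖ ≤ 1 := norm_re_le Subtype.val_injective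

private theorem norm_T0_le (M : ℕ) (T : BV) : ‖T0 M T‖ ≤ ‖T‖ := by
  have h1 : ‖adjoint (em M)‖ ≤ 1 := by
    rw [LinearIsometryEquiv.norm_map]
    exact norm_em_le M
  calc ‖T0 M T‖ ≤ ‖adjoint (em M)‖ * ‖T.comp (em M)‖ := ContinuousLinearMap.opNorm_comp_le _ _
    _ ≤ 1 * (‖T‖ * 1) := by
        refine mul_le_mul h1 ?_ (norm_nonneg _) zero_le_one
        exact (ContinuousLinearMap.opNorm_comp_le _ _).trans (mul_le_mul_of_nonneg_left (norm_em_le M) (norm_nonneg _))
    _ = ‖T‖ := by ring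

private theorem em_coord_mem (M : ℕ) (x : H {s : V // s ∈ VF M}) {u : V} (hu : u ∈ VF M) :
    (em M x : V → ℂ) u = (x : {s : V // s ∈ VF M} → ℂ) ⟨u, hu⟩ := by
  exact re_apply (f := (Subtype.val : {s : V // s ∈ VF M} → V)) Subtype.val_injective x ⟨u, hu⟩

private theorem em_coord_notMem (M : ℕ) (x : H {s : V // s ∈ VF M}) {u : V} (hu : u ∉ VF M) :
    (em M x : V → ℂ) u = 0 := by
  have h : (innerSL ℂ (e u : H V)).comp (em M) = 0 := by
    refine ext_e fun s => ?_
    change ⟪e u, em M (e s)⟫_ℂ = 0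
    rw [em_e, inner_e_e, if_neg]
    rintro rfl
    exact hu s.2
  have h2 := DFunLike.congr_fun h x
  change ⟪e u, em M x⟫_ℂ = 0 at h2
  rw [inner_e_left] at h2
  exact h2

private theorem lgc_trc_e {T : BV} (hT : InR T) (M : ℕ) (s0 : {s : V // s ∈ VF M}) :
    lgc (trc M T) (e s0.1) = em M (T0 M T (e s0)) := by
  have hL : lgc (trc M T) (e s0.1) = ∑ s ∈ VFin M, (cf T s * ch (bf s s0.1)) • e (s + s0.1) := by
    rw [lgc_trc, ContinuousLinearMap.sum_apply]
    refine Finset.sum_congr rfl fun s _ => ?_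
    change cf T s • lg s (e s0.1) = _
    rw [lg_e, smul_smul]
  rw [hL]
  refine ext_pt fun u => ?_
  have hLu : ((∑ s ∈ VFin M, (cf T s * ch (bf s s0.1)) • e (s + s0.1) : H V) : V → ℂ) u =
      ∑ s ∈ VFin M, (cf T s * ch (bf s s0.1)) * (if u = s + s0.1 then 1 else 0) := by
    rw [← inner_e_left, inner_sum]
    refine Finset.sum_congr rfl fun s _ => ?_
    rw [inner_smul_right, inner_e_e]
    split_ifs <;> rfl
  rw [hLu]
  by_cases hu : u ∈ VF M
  · rw [em_coord_mem M _ hu]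
    have h1 : (T0 M T (e s0) : {s : V // s ∈ VF M} → ℂ) ⟨u, hu⟩ = (T (e s0.1) : V → ℂ) u := by
      change (adjoint (em M) (T (em M (e s0))) : {s : V // s ∈ VF M} → ℂ) ⟨u, hu⟩ = _
      rw [em_e]
      exact adj_re_apply (f := (Subtype.val : {s : V // s ∈ VF M} → V)) Subtype.val_injective _ ⟨u, hu⟩
    rw [h1, hT.apply_e, rg_coord]
    rw [Finset.sum_eq_single (u - s0.1)]
    · rw [if_pos (by rw [sub_add_cancel]), mul_one, mul_comm]
      rfl
    · intro s _ hs
      rw [if_neg, mul_zero]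
      intro h
      exact hs (by rw [h, add_sub_cancel_right])
    · intro h
      exact absurd (mem_VFin.2 ((VF M).sub_mem hu s0.2)) h
  · rw [em_coord_notMem M _ hu]
    refine Finset.sum_eq_zero fun s hs => ?_
    rw [if_neg, mul_zero]
    rintro rfl
    exact hu ((VF M).add_mem (mem_VFin.1 hs) s0.2)

private theorem lgc_comp_Um {T : BV} (hT : InR T) (M : ℕ) :
    (lgc (trc M T)).comp (Um M) = (Um M).comp (amp {v : V // v ∈ Kc M} (T0 M T)) := by
  refine ext_e fun p => ?_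
  change lgc (trc M T) (Um M (e p)) = Um M (amp {v : V // v ∈ Kc M} (T0 M T) (e p))
  rw [Um_e, amp_e, Um_emb, ← lgc_trc_e hT M p.1]
  exact DFunLike.congr_fun (InR_lgc (trc M T) p.2.1) (e p.1.1)

/-- conditional expectations are contractive. -/
theorem norm_lgc_trc_le {T : BV} (hT : InR T) (M : ℕ) : ‖lgc (trc M T)‖ ≤ ‖T‖ := by
  refine ContinuousLinearMap.opNorm_le_bound _ (norm_nonneg _) fun x => ?_
  have hiso : ∀ y : H ({s : V // s ∈ VF M} × {v : V // v ∈ Kc M}), ‖Um M y‖ = ‖y‖ := fun y =>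
    norm_isometry_of_ortho (Um M) (fun p q => by rw [Um_e, Um_e, Um_ortho]; split_ifs <;> rfl) y
  have h1 : lgc (trc M T) x = Um M (amp {v : V // v ∈ Kc M} (T0 M T) (adjoint (Um M) x)) := by
    have h2 := DFunLike.congr_fun (lgc_comp_Um hT M) (adjoint (Um M) x)
    change lgc (trc M T) (Um M (adjoint (Um M) x)) = Um M (amp {v : V // v ∈ Kc M} (T0 M T) (adjoint (Um M) x)) at h2
    rw [Um_adj_Um] at h2
    exact h2
  have h3 : ‖adjoint (Um M) x‖ = ‖x‖ := by rw [← hiso, Um_adj_Um]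
  rw [h1, hiso]
  calc ‖amp {v : V // v ∈ Kc M} (T0 M T) (adjoint (Um M) x)‖
      ≤ ‖amp {v : V // v ∈ Kc M} (T0 M T)‖ * ‖adjoint (Um M) x‖ := ContinuousLinearMap.le_opNorm _ _
    _ ≤ ‖T‖ * ‖x‖ := by
        rw [h3]
        exact mul_le_mul_of_nonneg_right ((norm_amp_le _).trans (norm_T0_le M T)) (norm_nonneg _)

theorem exists_trc_approx {T : BV} (hT : InR T) {η : ℝ} (hη : 0 < η) : ∃ M, n2 (T - lgc (trc M T)) ≤ η := by
  have h1 := hasSum_e (T (e 0))
  obtain ⟨F0, hF0⟩ := (Metric.tendsto_atTop.1 h1) η hη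
  choose m hm using exists_mem_VF
  refine ⟨F0.sup m, ?_⟩
  have hsub : F0 ≤ VFin (F0.sup m) := by
    intro v hv
    exact mem_VFin.2 (VF_mono (Finset.le_sup hv) (hm v))
  have h2 := hF0 (VFin (F0.sup m)) hsub
  have h3 : lgc (trc (F0.sup m) T) (e 0) = ∑ s ∈ VFin (F0.sup m), (T (e 0) : V → ℂ) s • e s := by
    rw [lgc_trc, ContinuousLinearMap.sum_apply]
    refine Finset.sum_congr rfl fun s _ => ?_
    change cf T s • lg s (e 0) = _
    rw [lg_e, bf_zero_right, ch_zero, one_smul, add_zero]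
    rfl
  change ‖(T - lgc (trc (F0.sup m) T)) (e 0)‖ ≤ η
  rw [dist_eq_norm] at h2
  have h4 : (T - lgc (trc (F0.sup m) T)) (e 0) = T (e 0) - lgc (trc (F0.sup m) T) (e 0) := rfl
  rw [h4, h3, norm_sub_rev]
  exact h2.le

end OE
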