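import Mathlib
import Pool.Agent.Work.MP_06ef15_an.FG
import Pool.Agent.Work.MP_06ef15_an.FH

/-!
# Section 15, (15.3)

* `sum_rho`: `D.ρ s = chi s ^ j • w * lg s * star w`, `Gm_iter_lgc`.
* `eventually_n2`: `b = lgc (trc M T)` with `n2 (T - b) ≤ ε/2` (`exists_trc_approx`), `‖b‖ ≤ ‖T‖ ≤ 1` (`norm_lgc_trc_le`).  For `N'` large, by (E5)
  (`D.Z_ρ (trc M T)`) and `sum_rho`, `‖Z b Z* - w * Gm^[j] b * star w‖ ≤ ε ‖b‖ ≤ ε` (`Z = D.Z N'`), hence the same in `n2` (`n2_le`);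
  `n2 (Z (T - b) Z*) ≤ ‖Z‖ n2 (T - b) ‖Z*‖ ≤ ε/2` (`n2_mul_left`, `n2_mul_right`; `Z`, `T - b` in `InR`), `n2 (w * Gm^[j] (T - b) * star w) ≤ ε/2`
  (`n2_Gm_iter`, `Gm_iter_inR`).
* `n2_kap`: `T = D.Z N`.  Choose `N'` large for (E6) with `N` and for `eventually_n2`.  `Z N' * Z N * star (Z N') ≈_ε conj kap • (Z N * Z N' * star (Z N')) ≈_ε conj kap • Z N`
  in operator norm; `≈_{2ε}` (in `n2`) `w * Gm^[j] (Z N) * star w`, and `‖Gm^[j] (Z N) - Z N‖ ≤ j ε ≤ 8 ε` (`norm_Gm_iter_sub_self_le`,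
  `norm_Gm_sub_self_le`, (E4)).
* `eventually_dd`: `star w = lgc c` (`InC.exists_lgc`), `N` large: `‖Z * star w * star Z - w * Gm^[j] (star w) * star w‖ ≤ ε * ‖star w‖ ≤ ε`;
  `Gm^[j] (star w) ≈ dd^j • star w` with error `4 j ε ≤ 32 ε` (`norm_Gm_iter_star_sub`), so `‖Z * star w * star Z - dd^j • star w‖ ≤ 33 ε`;
  `Z * star w ≈_ε Z * star w * star Z * Z` (`‖star Z * Z - 1‖ ≤ ε`) `≈_{33 ε} dd^j • star w * Z`; multiply by `w` on the left.
-/

set_option autoImplicit false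

open scoped ComplexConjugate InnerProductSpace Classical
open ContinuousLinearMap (adjoint)

namespace OE

variable {ε : ℝ} {D : EndData ε} {j : ℕ} {w : BV}

private theorem ns (T : BV) : ‖star T‖ = ‖T‖ := LinearIsometryEquiv.norm_map ContinuousLinearMap.adjoint T

private theorem n_mul3 {a b c : BV} {x : ℝ} (ha : ‖a‖ ≤ 1) (hb : ‖b‖ ≤ x) (hc : ‖c‖ ≤ 1) : ‖a * b * c‖ ≤ x := by
  have hx : 0 ≤ x := (norm_nonneg _).trans hb
  calc ‖a * b * c‖ ≤ ‖a * b‖ * ‖c‖ := norm_mul_le _ _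
    _ ≤ (‖a‖ * ‖b‖) * ‖c‖ := mul_le_mul_of_nonneg_right (norm_mul_le _ _) (norm_nonneg _)
    _ ≤ (1 * x) * 1 := by gcongr
    _ = x := by ring

private theorem n2_mul3 {a b c : BV} {x : ℝ} (ha : ‖a‖ ≤ 1) (hbR : InR b) (hb : n2 b ≤ x) (hcR : InR c)
    (hc : ‖c‖ ≤ 1) : n2 (a * b * c) ≤ x := by
  have hx : 0 ≤ x := (n2_nonneg _).trans hb
  calc n2 (a * b * c) = n2 (a * (b * c)) := by rw [mul_assoc]
    _ ≤ ‖a‖ * n2 (b * c) := n2_mul_left _ _
    _ ≤ 1 * (n2 b * ‖c‖) := mul_le_mul ha (n2_mul_right hbR hcR) (n2_nonneg _) zero_le_one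
    _ ≤ 1 * (x * 1) := by gcongr
    _ = x := by ring

theorem W14.sum_rho (h : W14 D j w) (c : V →₀ ℂ) :
    c.sum (fun s z => z • D.ρ s) = w * Gm^[j] (lgc c) * star w := by
  rw [Gm_iter_lgc, Finsupp.sum, Finsupp.sum, Finset.mul_sum, Finset.sum_mul]
  refine Finset.sum_congr rfl fun s _ => ?_
  rw [h.eq, mul_smul_comm, mul_smul_comm, smul_mul_assoc, smul_mul_assoc]

theorem W14.eventually_n2 (h : W14 D j w) (hε : 0 < ε) {T : BV} (hT : InR T) (hT1 : ‖T‖ ≤ 1) :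
    ∀ᶠ N in Filter.atTop, n2 (D.Z N * T * star (D.Z N) - w * Gm^[j] T * star w) ≤ 2 * ε := by
  obtain ⟨M, hM⟩ := exists_trc_approx hT (half_pos hε)
  have hbn : ‖lgc (trc M T)‖ ≤ 1 := (norm_lgc_trc_le hT M).trans hT1
  have hbR : InR (lgc (trc M T)) := InR_lgc _
  filter_upwards [D.Z_ρ (trc M T)] with N hN
  rw [h.sum_rho] at hN
  set b := lgc (trc M T) with hb
  set Z := D.Z N with hZ
  have hZn : ‖Z‖ ≤ 1 := D.Z_norm N
  have hZR : InR Z := D.Z_comm N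
  have hsZn : ‖star Z‖ ≤ 1 := by rw [ns]; exact hZn
  have hswn : ‖star w‖ ≤ 1 := by rw [ns]; exact h.norm_w_le
  have e1 : Z * T * star Z - w * Gm^[j] T * star w =
      Z * (T - b) * star Z + (Z * b * star Z - w * Gm^[j] b * star w) + w * Gm^[j] (b - T) * star w := by
    rw [Gm_iter_sub]
    noncomm_ring
  rw [e1]
  have h1 : n2 (Z * (T - b) * star Z) ≤ ε / 2 := n2_mul3 hZn (hT.sub hbR) hM hZR.adj hsZn
  have h2 : n2 (Z * b * star Z - w * Gm^[j] b * star w) ≤ ε := by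
    refine (n2_le _).trans (hN.trans ?_)
    calc ε * ‖b‖ ≤ ε * 1 := mul_le_mul_of_nonneg_left hbn hε.le
      _ = ε := mul_one _
  have h3 : n2 (w * Gm^[j] (b - T) * star w) ≤ ε / 2 := by
    refine n2_mul3 h.norm_w_le (Gm_iter_inR j (hbR.sub hT)) ?_ h.inC.1.adj hswn
    rw [n2_Gm_iter, n2_sub_comm]
    exact hM
  have h4 := n2_add_le (Z * (T - b) * star Z + (Z * b * star Z - w * Gm^[j] b * star w)) (w * Gm^[j] (b - T) * star w)
  have h5 := n2_add_le (Z * (T - b) * star Z) (Z * b * star Z - w * Gm^[j] b * star w)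
  linarith

theorem W14.n2_kap (h : W14 D j w) (hε : 0 < ε) (hj : j < 9) (N : ℕ) :
    n2 (conj kap • D.Z N - w * D.Z N * star w) ≤ 12 * ε := by
  obtain ⟨N', h1, h2⟩ := ((D.Z_Z N).and (h.eventually_n2 hε (D.Z_comm N) (D.Z_norm N))).exists
  have h3 := D.Z_coiso N'
  have h4 := norm_Gm_iter_sub_self_le j ((norm_Gm_sub_self_le (D.Z N)).trans (D.Z_Dx N))
  set Z := D.Z N with hZ
  set Z' := D.Z N' with hZ'
  have hZn : ‖Z‖ ≤ 1 := D.Z_norm N
  have hZ'n : ‖Z'‖ ≤ 1 := D.Z_norm N'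
  have hsZ'n : ‖star Z'‖ ≤ 1 := by rw [ns]; exact hZ'n
  have hswn : ‖star w‖ ≤ 1 := by rw [ns]; exact h.norm_w_le
  have hk : ‖conj kap‖ = 1 := by rw [RCLike.norm_conj, norm_kap]
  have h1n : ‖(1 : BV)‖ ≤ 1 := ContinuousLinearMap.norm_id_le
  have e1 : conj kap • Z - w * Z * star w = -(conj kap • (1 * (Z * (Z' * star Z' - 1)) * 1)) +
      -(1 * (Z' * Z - conj kap • (Z * Z')) * star Z') + (Z' * Z * star Z' - w * Gm^[j] Z * star w) +
      w * (Gm^[j] Z - Z) * star w := by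
    simp only [one_mul, mul_one, mul_sub, sub_mul, smul_sub, smul_mul_assoc, mul_assoc]
    abel
  rw [e1]
  have a1 : n2 (-(conj kap • (1 * (Z * (Z' * star Z' - 1)) * 1))) ≤ ε := by
    refine (n2_le _).trans ?_
    rw [norm_neg, norm_smul, hk, one_mul]
    refine n_mul3 h1n ?_ h1n
    calc ‖Z * (Z' * star Z' - 1)‖ ≤ ‖Z‖ * ‖Z' * star Z' - 1‖ := norm_mul_le _ _
      _ ≤ 1 * ε := mul_le_mul hZn h3 (norm_nonneg _) zero_le_one
      _ = ε := one_mul _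
  have a2 : n2 (-(1 * (Z' * Z - conj kap • (Z * Z')) * star Z')) ≤ ε := by
    refine (n2_le _).trans ?_
    rw [norm_neg]
    exact n_mul3 h1n h1 hsZ'n
  have a3 : n2 (w * (Gm^[j] Z - Z) * star w) ≤ 8 * ε := by
    refine (n2_le _).trans (n_mul3 h.norm_w_le (h4.trans ?_) hswn)
    have hj8 : (j : ℝ) ≤ 8 := by exact_mod_cast (by omega : j ≤ 8)
    exact mul_le_mul_of_nonneg_right hj8 hε.le
  refine (n2_add_le _ _).trans ?_
  have b1 := n2_add_le (-(conj kap • (1 * (Z * (Z' * star Z' - 1)) * 1)) +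
      -(1 * (Z' * Z - conj kap • (Z * Z')) * star Z')) (Z' * Z * star Z' - w * Gm^[j] Z * star w)
  have b2 := n2_add_le (-(conj kap • (1 * (Z * (Z' * star Z' - 1)) * 1)))
    (-(1 * (Z' * Z - conj kap • (Z * Z')) * star Z'))
  linarith

theorem W14.eventually_dd (h : W14 D j w) (hε : 0 < ε) (hj : j < 9) :
    ∀ᶠ N in Filter.atTop, ‖w * D.Z N * star w - (dd w) ^ j • D.Z N‖ ≤ 34 * ε := by
  have hc := h.inC.adj.exists_lgc
  set c : V →₀ ℂ := ∑ s ∈ VFin D.k, Finsupp.single s (cf (star w) s) with hcd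
  have hswn : ‖star w‖ ≤ 1 := by rw [ns]; exact h.norm_w_le
  have hwn : ‖w‖ ≤ 1 := h.norm_w_le
  filter_upwards [D.Z_ρ c] with N hN
  rw [h.sum_rho, ← hc] at hN
  have h3 := D.Z_iso N
  set Z := D.Z N with hZ
  have hZn : ‖Z‖ ≤ 1 := D.Z_norm N
  have h1n : ‖(1 : BV)‖ ≤ 1 := ContinuousLinearMap.norm_id_le
  have hN1 : ‖Z * star w * star Z - w * Gm^[j] (star w) * star w‖ ≤ ε := by
    refine hN.trans ?_
    calc ε * ‖star w‖ ≤ ε * 1 := mul_le_mul_of_nonneg_left hswn hε.le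
      _ = ε := mul_one _
  have h4 : ‖Gm^[j] (star w) - (dd w) ^ j • star w‖ ≤ 32 * ε := by
    refine (h.norm_Gm_iter_star_sub j).trans ?_
    have hj8 : (j : ℝ) ≤ 8 := by exact_mod_cast (by omega : j ≤ 8)
    have h5 := mul_le_mul_of_nonneg_right hj8 hε.le
    linarith
  have e1 : w * Z * star w - (dd w) ^ j • Z =
      -(w * (Z * star w * (star Z * Z - 1)) * 1) +
      w * (Z * star w * star Z - w * Gm^[j] (star w) * star w) * Z +
      w * (w * (Gm^[j] (star w) - (dd w) ^ j • star w) * star w) * Z := by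
    have e2 : w * (w * ((dd w) ^ j • star w) * star w) * Z = (dd w) ^ j • Z := by
      rw [mul_smul_comm, h.right, smul_mul_assoc, one_mul, mul_smul_comm, h.right, smul_mul_assoc, one_mul]
    rw [mul_sub w (Gm^[j] (star w)), sub_mul (w * Gm^[j] (star w)), mul_sub w (w * Gm^[j] (star w) * star w),
      sub_mul (w * (w * Gm^[j] (star w) * star w)), e2]
    noncomm_ring
  rw [e1]
  have a1 : ‖-(w * (Z * star w * (star Z * Z - 1)) * 1)‖ ≤ ε := by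
    rw [norm_neg]
    refine n_mul3 hwn ?_ h1n
    calc ‖Z * star w * (star Z * Z - 1)‖ ≤ ‖Z * star w‖ * ‖star Z * Z - 1‖ := norm_mul_le _ _
      _ ≤ (‖Z‖ * ‖star w‖) * ‖star Z * Z - 1‖ := mul_le_mul_of_nonneg_right (norm_mul_le _ _) (norm_nonneg _)
      _ ≤ (1 * 1) * ε := by gcongr
      _ = ε := by ring
  have a2 : ‖w * (Z * star w * star Z - w * Gm^[j] (star w) * star w) * Z‖ ≤ ε := n_mul3 hwn hN1 hZn
  have a3 : ‖w * (w * (Gm^[j] (star w) - (dd w) ^ j • star w) * star w) * Z‖ ≤ 32 * ε :=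
    n_mul3 hwn (n_mul3 hwn h4 hswn) hZn
  refine (norm_add_le _ _).trans ?_
  have b1 := norm_add_le (-(w * (Z * star w * (star Z * Z - 1)) * 1))
    (w * (Z * star w * star Z - w * Gm^[j] (star w) * star w) * Z)
  linarith

end OE
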