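import Mathlib
import Pool.Agent.Work.MP_06ef15_an.FI

/-!
# Section 15, (15.4): no end data for `ε = 1/1000`

* `n2_Z_ge`: `(n2 Z)^2 = re (tau (star Z * Z))` (`n2_sq`), `|tau (star Z * Z) - 1| = |tau (star Z * Z - 1)| ≤ ‖star Z * Z - 1‖ ≤ ε`
  (`‖tau x‖ ≤ n2 x ≤ ‖x‖`: a coordinate of `x e_0`), so `(n2 Z)^2 ≥ 1 - ε ≥ (9/10)^2`.
* `norm_kap_sub`: pick `N` large: `n2 ((conj kap - dd^j) • Z N) ≤ 12 ε + 34 ε`, `n2 (c • Z) = ‖c‖ n2 Z ≥ (9/10) ‖c‖`, `46/0.9 < 52`.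
* `numeric`: `‖z‖ ≤ 1`, `‖z^3 - lam^j‖ ≤ a`, `‖conj kap - z^j‖ ≤ b`: `(conj kap)^3 = conj lam`; `‖(conj kap)^3 - (z^j)^3‖ ≤ 3 b` (both of norm `≤ 1`),
  `‖(z^3)^j - (lam^j)^j‖ ≤ j a ≤ 8 a` (telescoping, both of norm `≤ 1`), `lam^(j*j) = lam ^ ((j*j) % 3)` is `1` or `lam` (`j*j % 3 ∈ {0,1}`), and
  `‖conj lam - 1‖ = ‖conj lam - lam‖ = √3 > 17/10`.  So `17/10 < 3 b + 8 a`.
-/

set_option autoImplicit false

open scoped ComplexConjugate InnerProductSpace Classical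
open ContinuousLinearMap (adjoint)

namespace OE

theorem n2_Z_ge {ε : ℝ} (hε : ε ≤ 1 / 10) (D : EndData ε) (N : ℕ) : 9 / 10 ≤ n2 (D.Z N) := by
  have h1 := n2_sq (D.Z N)
  have h2 : ‖tau (star (D.Z N) * D.Z N) - 1‖ ≤ ε := by
    rw [← tau_one, ← tau_sub]
    have h3 : ‖tau (star (D.Z N) * D.Z N - 1)‖ ≤ n2 (star (D.Z N) * D.Z N - 1) := by
      unfold tau cf n2
      exact lp.norm_apply_le_norm (by norm_num) _ _
    exact h3.trans ((n2_le _).trans (D.Z_iso N))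
  have h4 : |(tau (star (D.Z N) * D.Z N)).re - 1| ≤ ε := by
    have h5 := Complex.abs_re_le_norm (tau (star (D.Z N) * D.Z N) - 1)
    rw [Complex.sub_re, Complex.one_re] at h5
    exact h5.trans h2
  have h6 := (abs_le.1 h4).1
  have h7 := n2_nonneg (D.Z N)
  nlinarith

theorem W14.norm_kap_sub {ε : ℝ} {D : EndData ε} {j : ℕ} {w : BV} (h : W14 D j w) (hε : 0 < ε) (hε' : ε ≤ 1 / 10)
    (hj : j < 9) : ‖conj kap - (dd w) ^ j‖ ≤ 52 * ε := by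
  obtain ⟨N, hN⟩ := (h.eventually_dd hε hj).exists
  have h1 := h.n2_kap hε hj N
  have h2 : n2 (w * D.Z N * star w - (dd w) ^ j • D.Z N) ≤ 34 * ε := (n2_le _).trans hN
  have h3 := n2_triangle (conj kap • D.Z N) (w * D.Z N * star w) ((dd w) ^ j • D.Z N)
  rw [← sub_smul, n2_smul] at h3
  have h4 := n2_Z_ge hε' D N
  have h5 : ‖conj kap - (dd w) ^ j‖ * (9 / 10) ≤ ‖conj kap - (dd w) ^ j‖ * n2 (D.Z N) :=
    mul_le_mul_of_nonneg_left h4 (norm_nonneg _)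
  linarith

private theorem norm_pow_sub_le {x y : ℂ} (hx : ‖x‖ ≤ 1) (hy : ‖y‖ ≤ 1) (n : ℕ) :
    ‖x ^ n - y ^ n‖ ≤ n * ‖x - y‖ := by
  induction n with
  | zero => simp
  | succ n ih =>
    have h1 : x ^ (n + 1) - y ^ (n + 1) = x ^ n * (x - y) + (x ^ n - y ^ n) * y := by ring
    rw [h1]
    refine (norm_add_le _ _).trans ?_
    rw [norm_mul, norm_mul, norm_pow]
    have h2 : ‖x‖ ^ n ≤ 1 := pow_le_one₀ (norm_nonneg _) hx
    have h3 : ‖x‖ ^ n * ‖x - y‖ ≤ 1 * ‖x - y‖ := mul_le_mul_of_nonneg_right h2 (norm_nonneg _)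
    have h4 : ‖x ^ n - y ^ n‖ * ‖y‖ ≤ ‖x ^ n - y ^ n‖ * 1 :=
      mul_le_mul_of_nonneg_left hy (norm_nonneg _)
    push_cast
    linarith

private theorem conj_lam_eq : conj lam = lam ^ 2 := by
  have h1 : lam * conj lam = 1 := ch_mul_conj 3
  have h2 : lam ^ 3 = 1 := lam_pow
  have h3 : lam ≠ 0 := by
    intro h
    rw [h, zero_mul] at h1
    exact zero_ne_one h1
  apply mul_left_cancel₀ h3
  rw [h1, ← h2]
  ring

private theorem norm_conj_lam_sub_lam_FJ : ‖conj lam - lam‖ ^ 2 = 3 := by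
  have h1 : conj lam - lam = lam * conj (conj lam - 1) := by
    rw [map_sub, map_one, Complex.conj_conj, conj_lam_eq]
    ring
  rw [h1, norm_mul, norm_lam, one_mul, RCLike.norm_conj]
  exact norm_conj_lam_sub_one

private theorem lt_of_sq {x : ℝ} (hx : 0 ≤ x) (h : x ^ 2 = 3) : 17 / 10 < x := by
  by_contra hc
  push Not at hc
  nlinarith

theorem numeric {j : ℕ} (hj : j < 9) {z : ℂ} (hz : ‖z‖ ≤ 1) {a b : ℝ} (ha : ‖z ^ 3 - lam ^ j‖ ≤ a)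
    (hb : ‖conj kap - z ^ j‖ ≤ b) : 17 / 10 < 3 * b + 8 * a := by
  have hk : ‖conj kap‖ ≤ 1 := by
    rw [RCLike.norm_conj, norm_kap]
  have hzj : ‖z ^ j‖ ≤ 1 := by
    rw [norm_pow]
    exact pow_le_one₀ (norm_nonneg _) hz
  have hz3 : ‖z ^ 3‖ ≤ 1 := by
    rw [norm_pow]
    exact pow_le_one₀ (norm_nonneg _) hz
  have hl : ‖lam ^ j‖ ≤ 1 := by
    rw [norm_pow, norm_lam, one_pow]
  have h1 := norm_pow_sub_le hk hzj 3
  have h2 := norm_pow_sub_le hz3 hl j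
  have h3 : (conj kap) ^ 3 = conj lam := by
    rw [lam_eq, map_pow]
  have h4 : (z ^ j) ^ 3 = (z ^ 3) ^ j := by
    rw [← pow_mul, ← pow_mul, mul_comm]
  rw [h3, h4] at h1
  have h5 : (j : ℝ) * ‖z ^ 3 - lam ^ j‖ ≤ 8 * a := by
    have h6 : (j : ℝ) ≤ 8 := by
      exact_mod_cast (by omega : j ≤ 8)
    have h7 := norm_nonneg (z ^ 3 - lam ^ j)
    nlinarith
  have h6 : ‖conj lam - (lam ^ j) ^ j‖ ≤ 3 * b + 8 * a := by
    have h7 := norm_sub_le_norm_sub_add_norm_sub (conj lam) ((z ^ 3) ^ j) ((lam ^ j) ^ j)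
    push_cast at h1
    linarith
  have h8 : (lam ^ j) ^ j = 1 ∨ (lam ^ j) ^ j = lam := by
    have h9 : lam ^ 3 = 1 := lam_pow
    have h10 : (lam ^ j) ^ j = lam ^ ((j * j) % 3) := by
      rw [← pow_mul]
      conv_lhs => rw [← Nat.div_add_mod (j * j) 3, pow_add, pow_mul, h9, one_pow, one_mul]
    rw [h10]
    have h11 : (j * j) % 3 = 0 ∨ (j * j) % 3 = 1 := by
      interval_cases j <;> simp
    rcases h11 with h | h
    · left
      rw [h, pow_zero]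
    · right
      rw [h, pow_one]
  rcases h8 with h | h
  · rw [h] at h6
    exact (lt_of_sq (norm_nonneg _) norm_conj_lam_sub_one).trans_le h6
  · rw [h] at h6
    exact (lt_of_sq (norm_nonneg _) norm_conj_lam_sub_lam_FJ).trans_le h6

/-- the end game. -/
theorem no_endData : ∃ ε : ℝ, 0 < ε ∧ IsEmpty (EndData ε) := by
  refine ⟨1 / 1000, by norm_num, ⟨fun D => ?_⟩⟩
  obtain ⟨j, hj, w, h⟩ := exists_W14 D
  have h1 := h.norm_dd_cube_sub
  have h2 := h.norm_kap_sub (by norm_num) (by norm_num) hj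
  have h3 := numeric hj h.norm_dd_le h1 h2
  norm_num at h3

end OE
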