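import Mathlib
import Pool.Agent.Work.MP_06ef15_an.FJ

/-!
# Interface of sections 14 and 15 (owner: helper43)

The theorem is `OE.no_endData : ∃ ε : ℝ, 0 < ε ∧ IsEmpty (EndData ε)`, proved in `FJ.lean` (modules `FA` .. `FJ`).
-/
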