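import Mathlib
import Pool.Agent.Work.MP_06ef15_an.CE

/-!
# Cuntz words, creation parts, relations for words (usable by all blocks)

`star_Sw_mul_append`, `star_Sw_append_mul`: from `Sw_append`, `star_Sw_mul_self`.
`star_Sw_mul_eq_zero`: if neither is a prefix of the other, say `|μ| ≤ |ν|` (the other case by taking the star): write
`ν = ν.take |μ| ++ ν.drop |μ|`, `ν.take |μ| ≠ μ`, and use `star_Sw_mul_same_length`.
`Sg_Yc`, `star_Sg_Yc`: by `ext_idx` and `Yc_e`, `Sg_e`, `star_Sg_e` (labels: `k - n = (k + bn b) - (n + bn b)`).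
The `Sw` versions by induction on `μ` (`star (Sw (b :: μ)) = star (Sw μ) * star (Sg b)`).
`g_Yc_inl`: the phase of `Yc (inl i)` is `ch (xf v * 0) = 1`.  `star_g_Yc_inl`: multiply `g_Yc_inl` by `star (g u)` on both sides.
`star_Sw_Yw`, `Yw_g`, `star_g_Yw`: induction on `y` with `star_Sw_Y`, `Y_g`, `dgw_cons`, `ch_add`.
-/

set_option autoImplicit false

open scoped ComplexConjugate InnerProductSpace Classical
open ContinuousLinearMap (adjoint)

namespace OE

variable (t : T) (k : ℤ) (u v : V) (b : Bool) (μ ν : List Bool) (y : W)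

theorem star_Sw_mul_append : star (Sw μ) * Sw (μ ++ ν) = Sw ν := by
  rw [Sw_append, ← mul_assoc, star_Sw_mul_self, one_mul]

theorem star_Sw_append_mul : star (Sw (μ ++ ν)) * Sw μ = star (Sw ν) := by
  rw [Sw_append, star_mul, mul_assoc, star_Sw_mul_self, mul_one]

private theorem zero_aux {μ ν : List Bool} (hl : μ.length ≤ ν.length) (h1 : ¬ μ <+: ν) :
    star (Sw μ) * Sw ν = 0 := by
  have h2 : ν = ν.take μ.length ++ ν.drop μ.length := (List.take_append_drop _ _).symm
  have h3 : μ ≠ ν.take μ.length := by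
    intro h
    exact h1 (List.prefix_iff_eq_take.mpr h)
  have h4 : μ.length = (ν.take μ.length).length := by
    rw [List.length_take, min_eq_left hl]
  rw [h2, Sw_append, ← mul_assoc, star_Sw_mul_same_length _ _ h4, if_neg h3, zero_mul]

theorem star_Sw_mul_eq_zero {μ ν : List Bool} (h1 : ¬ μ <+: ν) (h2 : ¬ ν <+: μ) : star (Sw μ) * Sw ν = 0 := by
  rcases le_total μ.length ν.length with hl | hl
  · exact zero_aux hl h1
  · have h3 := congrArg star (zero_aux hl h2)
    rwa [star_mul, star_star, star_zero] at h3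

theorem dig_add (a b : ℕ) (m : M) : dig (a + b) m = dig a m ++ dig b (tl^[a] m) := by
  induction a generalizing m with
  | zero =>
    rw [Nat.zero_add, dig_zero, List.nil_append]
    rfl
  | succ a ih =>
    rw [Nat.succ_add, dig_succ, dig_succ, ih, Function.iterate_succ_apply, List.cons_append]

theorem Sg_Yc : Sg b * Yc t k = Yc t (k + bn b) * Sg b := by
  refine ext_idx fun w v n m => ?_
  change Sg b (Yc t k (e (w, (v, (n, m))))) = Yc t (k + bn b) (Sg b (e (w, (v, (n, m)))))
  rw [Yc_e, map_smul, Sg_e, Sg_e, Yc_e, add_sub_add_right_eq_sub]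

theorem star_Sg_Yc : star (Sg b) * Yc t k = Yc t (k - bn b) * star (Sg b) := by
  refine ext_idx fun w v n m => ?_
  change star (Sg b) (Yc t k (e (w, (v, (n, m))))) = Yc t (k - bn b) (star (Sg b) (e (w, (v, (n, m)))))
  rw [Yc_e, map_smul, star_Sg_e, star_Sg_e]
  by_cases h : hd m = b
  · rw [if_pos h, if_pos h, Yc_e, sub_sub_sub_cancel_right]
  · rw [if_neg h, if_neg h, map_zero, smul_zero]

theorem Sw_Yc : Sw μ * Yc t k = Yc t (k + nn μ) * Sw μ := by
  induction μ with
  | nil => rw [Sw_nil, nn_nil, add_zero, one_mul, mul_one]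
  | cons b μ ih =>
    rw [Sw_cons, mul_assoc, ih, ← mul_assoc, Sg_Yc, mul_assoc, nn_cons]
    congr 2
    ring

theorem star_Sw_Yc : star (Sw μ) * Yc t k = Yc t (k - nn μ) * star (Sw μ) := by
  induction μ generalizing k with
  | nil => rw [Sw_nil, nn_nil, sub_zero, star_one, one_mul, mul_one]
  | cons b μ ih =>
    rw [Sw_cons, star_mul, mul_assoc, star_Sg_Yc, ← mul_assoc, ih, mul_assoc, nn_cons]
    congr 2
    ring

theorem g_Yc_inl (i : ℕ) : g u * Yc (Sum.inl i) k = Yc (Sum.inl i) k * g u := by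
  refine ext_idx fun w v n m => ?_
  change g u (Yc (Sum.inl i) k (e (w, (v, (n, m))))) = Yc (Sum.inl i) k (g u (e (w, (v, (n, m)))))
  rw [Yc_e, map_smul, g_e, g_e, map_smul, Yc_e]
  have h1 : dg1 (Sum.inl i : T) = 0 := rfl
  rw [h1, mul_zero, mul_zero, ch_zero, one_smul, one_smul]

theorem star_g_Yc_inl (i : ℕ) : star (g u) * Yc (Sum.inl i) k = Yc (Sum.inl i) k * star (g u) := by
  calc star (g u) * Yc (Sum.inl i) k = star (g u) * (Yc (Sum.inl i) k * g u) * star (g u) := by
        rw [mul_assoc, mul_assoc, g_mul_star, mul_one]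
    _ = star (g u) * (g u * Yc (Sum.inl i) k) * star (g u) := by rw [g_Yc_inl]
    _ = Yc (Sum.inl i) k * star (g u) := by
        rw [← mul_assoc (star (g u)), star_g_mul, one_mul]

theorem star_Sw_Yw : star (Sw μ) * Yw y = Yw (sh (-nn μ) y) * star (Sw μ) := by
  induction y with
  | nil => rw [sh_nil, Yw_nil, mul_one, one_mul]
  | cons a y ih =>
    rw [sh_cons, Yw_cons, Yw_cons, ← mul_assoc, star_Sw_Y, mul_assoc, ih, mul_assoc, sub_eq_add_neg]

theorem Sw_Yw : Sw μ * Yw y = Yw (sh (nn μ) y) * Sw μ := by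
  induction y with
  | nil => rw [sh_nil, Yw_nil, mul_one, one_mul]
  | cons a y ih =>
    rw [sh_cons, Yw_cons, Yw_cons, ← mul_assoc, Sw_Y, mul_assoc, ih, mul_assoc]

theorem Yw_g : Yw y * g u = ch (xf u * dgw y) • (g u * Yw y) := by
  induction y with
  | nil => rw [Yw_nil, dgw_nil, mul_zero, ch_zero, one_smul, one_mul, mul_one]
  | cons a y ih =>
    rw [Yw_cons, dgw_cons, mul_assoc, ih, mul_smul_comm, ← mul_assoc, Y_g, smul_mul_assoc, smul_smul, mul_assoc,
      mul_add, ch_add, mul_comm (ch (xf u * dgw y))]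

theorem star_g_Yw : star (g u) * Yw y = ch (xf u * dgw y) • (Yw y * star (g u)) := by
  calc star (g u) * Yw y = star (g u) * (Yw y * g u) * star (g u) := by
        rw [mul_assoc, mul_assoc, g_mul_star, mul_one]
    _ = star (g u) * (ch (xf u * dgw y) • (g u * Yw y)) * star (g u) := by rw [Yw_g]
    _ = ch (xf u * dgw y) • (Yw y * star (g u)) := by
        rw [mul_smul_comm, ← mul_assoc (star (g u)), star_g_mul, one_mul, smul_mul_assoc]

theorem star_g_mul_g_mul_g : star (g u) * g v * g u = ch (om v u) • g v := by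
  have h : ch (om u v) • (star (g u) * g v * g u) = g v := by
    calc ch (om u v) • (star (g u) * g v * g u) = star (g u) * (ch (om u v) • g v) * g u := by
          rw [mul_smul_comm, smul_mul_assoc]
      _ = star (g u) * (g u * g v * star (g u)) * g u := by rw [g_conj]
      _ = (star (g u) * g u) * g v * (star (g u) * g u) := by simp only [mul_assoc]
      _ = g v := by rw [star_g_mul, one_mul, mul_one]
  calc star (g u) * g v * g u = (ch (om v u) * ch (om u v)) • (star (g u) * g v * g u) := by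
        rw [om_swap v u, ← ch_add, neg_add_cancel, ch_zero, one_smul]
    _ = ch (om v u) • g v := by rw [← smul_smul, h]

end OE
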