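import Mathlib
import Pool.Agent.Work.MP_06ef15_an.CG

/-!
# (4.1) Cuntz words and digits

`cuntz_sandwich`: let `α = δ0 ++ 0^D ++ 1 :: κ`.  As `|μ|, |ν| ≤ D ≤ |α|`, `α` is not a prefix of `μ` (or only with
`μ = α`, impossible as `|α| > D`), so `S_α* S_μ = 0` unless `μ` is a prefix of `α`, and then `S_α* S_μ = S_{α.drop |μ|}*`;
same for `S_ν* S_α = S_{α.drop |ν|}` (`star_Sw_mul_append`, `star_Sw_append_mul`, `star_Sw_mul_eq_zero` of `CG`).
If `|μ| = |ν|` then `μ = ν` and the product is `S_β* S_β = 1`.  If
`d = |ν| - |μ| > 0`: `S_{α.drop |μ|}* S_{α.drop |ν|} ≠ 0` would force `α.drop |ν|` to be a prefix of `α.drop |μ|`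
(lengths), so (with `L = |δ0| + D`) the letter number `L - |ν|` of both agree: `α[L] = α[L - d]`, but `α[L] = true` and
`α[L - d] = false` since `|δ0| ≤ L - d < L`.  If `d < 0` take the star (the statement is symmetric).
Prefix of `α` with length `≤ D` is the same as prefix of `δ0 ++ 0^D` (`List.prefix_append`, `List.prefix_of_prefix_length_le`).
Digits: `dig (a + b) m = dig a m ++ dig b (tl^[a] m)` (`dig_add` of `CG`); `tl^[j] (inr (m0, l0)) = inr (m0 / 2^j, l0 - j)`,
`m0 / 2^(Nat.size m0) = 0` (`Nat.lt_size_self`), `dig D (inr (0, l)) = 0^D`.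
-/

set_option autoImplicit false

open scoped ComplexConjugate InnerProductSpace Classical
open ContinuousLinearMap (adjoint)

namespace OE

private theorem pa_prefix {P κ : List Bool} {μ : List Bool} (h : μ.length ≤ P.length) :
    μ <+: P ++ true :: κ ↔ μ <+: P := by
  constructor
  · intro h1
    exact List.prefix_of_prefix_length_le h1 (List.prefix_append P _) h
  · intro h1
    exact h1.trans (List.prefix_append P _)

private theorem pa_not {δ0 κ P : List Bool} {D : ℕ} (hP : P = δ0 ++ List.replicate D false)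
    {μ μ' ν ν' : List Bool} (hμ : μ ++ μ' = P) (hν : ν ++ ν' = P) (hμD : μ.length ≤ D)
    (hl : μ'.length < ν'.length) : ¬ (μ' ++ true :: κ) <+: (ν' ++ true :: κ) := by
  rintro ⟨c, hc⟩
  have h1 : (ν' ++ true :: κ)[μ'.length]? = some true := by
    rw [← hc, List.append_assoc, List.getElem?_append_right le_rfl, Nat.sub_self]
    rfl
  rw [List.getElem?_append_left hl] at h1
  have h2 : P[ν.length + μ'.length]? = some true := by
    rw [← hν, List.getElem?_append_right (Nat.le_add_right _ _), Nat.add_sub_cancel_left]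
    exact h1
  have hlen : μ.length + μ'.length = δ0.length + D := by
    have h3 := congrArg List.length (hμ.trans hP)
    simpa using h3
  rw [hP, List.getElem?_append_right (by omega), List.getElem?_replicate] at h2
  split_ifs at h2
  simp at h2

/-- (4.1) -/
theorem cuntz_sandwich (δ0 κ : List Bool) (D : ℕ) (μ ν : List Bool) (hμ : μ.length ≤ D) (hν : ν.length ≤ D) :
    star (Sw (δ0 ++ List.replicate D false ++ true :: κ)) * Sw μ * star (Sw ν) *
      Sw (δ0 ++ List.replicate D false ++ true :: κ) =
      if μ = ν ∧ μ <+: δ0 ++ List.replicate D false then 1 else 0 := by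
  obtain ⟨P, hP⟩ : ∃ P, P = δ0 ++ List.replicate D false := ⟨_, rfl⟩
  rw [← hP]
  have hPl : P.length = δ0.length + D := by
    rw [hP]; simp
  have hlen : ∀ {ρ : List Bool}, ρ.length ≤ D → ¬ (P ++ true :: κ) <+: ρ := by
    intro ρ hρ h
    have h1 := h.length_le
    rw [List.length_append, List.length_cons] at h1
    omega
  by_cases h1 : μ <+: P
  · by_cases h2 : ν <+: P
    · obtain ⟨μ', hμ'⟩ := h1
      obtain ⟨ν', hν'⟩ := h2
      have e1 : star (Sw (P ++ true :: κ)) * Sw μ = star (Sw (μ' ++ true :: κ)) := by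
        rw [← hμ', List.append_assoc, star_Sw_append_mul]
      have e2 : star (Sw ν) * Sw (P ++ true :: κ) = Sw (ν' ++ true :: κ) := by
        rw [← hν', List.append_assoc, star_Sw_mul_append]
      rw [e1, mul_assoc, e2]
      have l1 : μ.length + μ'.length = P.length := by rw [← hμ', List.length_append]
      have l2 : ν.length + ν'.length = P.length := by rw [← hν', List.length_append]
      by_cases h3 : μ = ν
      · subst h3
        have h4 : μ' = ν' := List.append_cancel_left (hμ'.trans hν'.symm)
        rw [if_pos ⟨rfl, ⟨μ', hμ'⟩⟩, h4, star_Sw_mul_self]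
      · rw [if_neg (fun h => h3 h.1)]
        have h5 : μ'.length ≠ ν'.length := by
          intro h6
          exact h3 (List.append_inj_left (hμ'.trans hν'.symm) (by omega))
        rcases Nat.lt_or_gt_of_ne h5 with h6 | h6
        · refine star_Sw_mul_eq_zero (pa_not hP hμ' hν' hμ h6) fun h => ?_
          have h7 := h.length_le
          rw [List.length_append, List.length_append] at h7
          omega
        · refine star_Sw_mul_eq_zero (fun h => ?_) (pa_not hP hν' hμ' hν h6)
          have h7 := h.length_le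
          rw [List.length_append, List.length_append] at h7
          omega
    · rw [mul_assoc _ (star (Sw ν)), star_Sw_mul_eq_zero (μ := ν)
        (fun h => h2 ((pa_prefix (by omega)).1 h)) (hlen hν), mul_zero, if_neg]
      rintro ⟨rfl, h⟩
      exact h2 h
  · rw [star_Sw_mul_eq_zero (hlen hμ) (fun h => h1 ((pa_prefix (by omega)).1 h)), zero_mul,
      zero_mul, if_neg (fun h => h1 h.2)]

private theorem pa_tl (x : ℕ) (l0 : ℤ) (j : ℕ) :
    ∃ l : ℤ, tl^[j] (Sum.inr (x, l0) : M) = Sum.inr (x / 2 ^ j, l) := by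
  induction j with
  | zero =>
    refine ⟨l0, ?_⟩
    simp
  | succ j ih =>
    obtain ⟨l, hl⟩ := ih
    refine ⟨l - 1, ?_⟩
    rw [Function.iterate_succ_apply', hl]
    show Sum.inr ((x / 2 ^ j).div2, l - 1) = _
    rw [Nat.div2_val, Nat.div_div_eq_div_mul, pow_succ]

private theorem pa_dig (D : ℕ) (l : ℤ) :
    dig D (Sum.inr (0, l) : M) = List.replicate D false := by
  induction D generalizing l with
  | zero => rfl
  | succ D ih =>
    rw [dig_succ, List.replicate_succ]
    have h1 : hd (Sum.inr (0, l) : M) = false := Nat.bodd_zero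
    have h2 : tl (Sum.inr (0, l) : M) = Sum.inr (0, l - 1) := by simp [tl]
    rw [h1, h2, ih]

theorem dig_inr_eq (m0 : ℕ) (l0 : ℤ) (D : ℕ) :
    ∃ δ0 : List Bool, dig (Nat.size m0 + D) (Sum.inr (m0, l0) : M) = δ0 ++ List.replicate D false := by
  refine ⟨dig (Nat.size m0) (Sum.inr (m0, l0)), ?_⟩
  obtain ⟨l, hl⟩ := pa_tl m0 l0 (Nat.size m0)
  rw [dig_add, hl, Nat.div_eq_of_lt (Nat.lt_size_self m0), pa_dig]

theorem prefix_dig_iff (μ : List Bool) (L : ℕ) (m : M) (h : μ.length ≤ L) :
    μ <+: dig L m ↔ μ = dig μ.length m := by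
  have h1 : (dig L m).take μ.length = dig μ.length m := by
    obtain ⟨c, rfl⟩ := Nat.exists_eq_add_of_le h
    rw [dig_add, List.take_left' (length_dig _ _)]
  rw [List.prefix_iff_eq_take, h1]

end OE
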