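import Mathlib
import Pool.Agent.Work.MP_06ef15_an.CE

/-!
# Section 4 (purely infinite): definitions

`la i` creation part of `X i`; `Ap s` appends the word `s` on the right; `vm m = e([],0,0,m)`; `tauY y` vacuum
expectation of `Y_{y_1}...Y_{y_r}`; `NFW i0 y`: all semicircular letter types of `y` are `< i0`;
`x1 = |J|^{-1/2} ∑_j s_j l_{i(j)}`, `x2 = |J|^{-1/2} ∑_j s_j l_{i(j)}*`, `xx = x1 + x2 = |J|^{-1/2} ∑_j s_j X_{i(j)}`,
`j = (u, r) ∈ VL(M0+1) × {0..R-1}`, `s_j = g_u S_α`, `α = δ 1 0^{cdJ j} 1`.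
-/

set_option autoImplicit false

open scoped ComplexConjugate InnerProductSpace Classical
open ContinuousLinearMap (adjoint)

namespace OE

/-- creation part of `X i`. -/
noncomputable def la (i : ℕ) : BH := Yc (Sum.inl i) 0

/-- append the word `s` on the right. -/
noncomputable def Ap (s : W) : BH := re (fun x : Idx => (x.1 ++ s, x.2))

/-- test vector `e([],0,0,m)`. -/
noncomputable def vm (m : M) : H Idx := e (([] : W), ((0 : V), ((0 : ℤ), m)))

/-- all semicircular letter types of the word are `< i0`. -/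
def NFW (i0 : ℕ) (y : W) : Prop := ∀ a ∈ y, ∀ i : ℕ, a.1 = Sum.inl i → i < i0

/-- vacuum expectation of a product of letters. -/
noncomputable def tauY (y : W) : ℂ := (Yw y (vm m1) : Idx → ℂ) (([] : W), ((0 : V), ((0 : ℤ), m1)))

/-- an injective map `V × ℕ → ℕ` (see `cdJ_injective`). -/
noncomputable def cdJ (j : V × ℕ) : ℕ :=
  if h : ∃ f : V × ℕ → ℕ, Function.Injective f then h.choose j else 0

noncomputable def alJ (δ : List Bool) (j : V × ℕ) : List Bool :=
  δ ++ true :: (List.replicate (cdJ j) false ++ [true])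

noncomputable def sJ (δ : List Bool) (j : V × ℕ) : BH := g j.1 * Sw (alJ δ j)

/-- the fresh letter type of `j`. -/
noncomputable def iJ (i0 : ℕ) (j : V × ℕ) : ℕ := i0 + cdJ j

noncomputable def JJ (M0 R : ℕ) : Finset (V × ℕ) := VLFin (M0 + 1) ×ˢ Finset.range R

noncomputable def cJ (M0 R : ℕ) : ℝ := (Real.sqrt ((JJ M0 R).card : ℝ))⁻¹

noncomputable def x1 (δ : List Bool) (i0 M0 R : ℕ) : BH :=
  (cJ M0 R : ℂ) • ∑ j ∈ JJ M0 R, sJ δ j * la (iJ i0 j)

noncomputable def x2 (δ : List Bool) (i0 M0 R : ℕ) : BH :=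
  (cJ M0 R : ℂ) • ∑ j ∈ JJ M0 R, sJ δ j * star (la (iJ i0 j))

noncomputable def xx (δ : List Bool) (i0 M0 R : ℕ) : BH :=
  (cJ M0 R : ℂ) • ∑ j ∈ JJ M0 R, sJ δ j * X (iJ i0 j)

/-- normal words with bounded parameters. -/
def NwS (i0 M0 D : ℕ) : Set BH :=
  {B | ∃ (y : W) (v : V) (μ ν : List Bool),
    NFW i0 y ∧ v ∈ VF M0 ∧ μ.length ≤ D ∧ ν.length ≤ D ∧ B = Nw y v μ ν}

end OE
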