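import Mathlib
import Pool.Agent.Work.MP_06ef15_an.P0

/-!
# (4.3) Fresh letters

`Y_Ap`: on `e(w,q)`: if `w = []`, `Y t k e(a :: s, q)` has no annihilation term as `a ≠ (bar t, k - n)`; if `w = b :: w'` both
sides have the same annihilation term.  `Yw_Ap`: induction on `y`; the type of the letter `(inl i, l)` with `i ≥ i0` is not
`bar` of a letter type of `y` (`bar (inl j) = inl j`, `j < i0`; `bar (inr b) = inr _`).
`Yw_mem_span`: induction on `y` (apply one letter to a basis vector `e(w,q)`, `w` with all types `< i0`: new letters are letter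
types of `y`; use `Submodule.span_induction` and linearity of `Y t k`).
`fresh`: `Yc (inl i') k' e(w,q) = e((inl i', k' - n) :: w, q) = Ap ((inl i', k'-n) :: w) e([],q)`, so by `Yw_Ap` the left side is
`Ya (inl i) k (Ap ((inl i', k'-n) :: w) η)`, `η = Yw y e([],q)`.  The two bounded linear maps
`η ↦ Ya (inl i) k (Ap ((inl i',k'-n)::w) η)` and `η ↦ (if i = i' ∧ k = k' then η([],q) else 0) • e(w,q)` agree on the span of the
`e(w0,q)`, `NFW i0 w0`: for `w0 = []` it is `Ya_e_cons`; for `w0 = b :: w1` the first letter `b` is not `(inl i, k - n)` as `i ≥ i0`, so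
`Ya` kills it, and `e(w0,q)` has coefficient `0` at `([],q)`.  Conclude by `Yw_mem_span`.
-/

set_option autoImplicit false

open scoped ComplexConjugate InnerProductSpace Classical
open ContinuousLinearMap (adjoint)

namespace OE

private theorem Ap_inj (s : W) : Function.Injective (fun x : Idx => ((x.1 ++ s, x.2) : Idx)) := by
  rintro ⟨w, q⟩ ⟨w', q'⟩ h
  simp only [Prod.mk.injEq] at h
  exact Prod.ext (List.append_cancel_right h.1) h.2

theorem Ap_e (s w : W) (q : Q) : Ap s (e (w, q)) = e (w ++ s, q) := by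
  unfold Ap
  rw [re_e (Ap_inj s)]

theorem Y_Ap (t : T) (k : ℤ) (a : Lam) (s : W) (h : a.1 ≠ bar t) :
    Y t k * Ap (a :: s) = Ap (a :: s) * Y t k := by
  refine ext_idx (fun w v n m => ?_)
  change Y t k (Ap (a :: s) (e (w, (v, (n, m))))) = Ap (a :: s) (Y t k (e (w, (v, (n, m)))))
  rw [Ap_e]
  rcases w with _ | ⟨b, w⟩
  · rw [List.nil_append, Y_e_cons, Y_e_nil, if_neg (fun h' => h (congrArg Prod.fst h')), add_zero, map_smul, Ap_e]
    rfl
  · rw [List.cons_append, Y_e_cons, Y_e_cons, map_add, map_smul, Ap_e]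
    by_cases h' : b = (bar t, k - n)
    · rw [if_pos h', if_pos h', map_smul, Ap_e]
      rfl
    · rw [if_neg h', if_neg h', map_zero]
      rfl

private theorem NFW_tail {i0 : ℕ} {a : Lam} {y : W} (hy : NFW i0 (a :: y)) : NFW i0 y :=
  fun b hb => hy b (List.mem_cons_of_mem _ hb)

private theorem NFW_cons {i0 : ℕ} {a : Lam} {y : W} (ha : ∀ i : ℕ, a.1 = Sum.inl i → i < i0) (hy : NFW i0 y) :
    NFW i0 (a :: y) := by
  intro b hb i hi
  rcases List.mem_cons.mp hb with h | h
  · subst h
    exact ha i hi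
  · exact hy b h i hi

private theorem NFW_nil (i0 : ℕ) : NFW i0 ([] : W) := by
  intro a ha
  exact absurd ha List.not_mem_nil

theorem Yw_Ap {i0 : ℕ} {y : W} (hy : NFW i0 y) {i : ℕ} (hi : i0 ≤ i) (l : ℤ) (s : W) :
    Yw y * Ap ((Sum.inl i, l) :: s) = Ap ((Sum.inl i, l) :: s) * Yw y := by
  induction y with
  | nil => rw [Yw_nil, one_mul, mul_one]
  | cons a y ih =>
    have h1 : NFW i0 y := NFW_tail hy
    have h2 : (Sum.inl i : T) ≠ bar a.1 := by
      intro h
      rcases ha : a.1 with j | b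
      · rw [ha] at h
        have h3 := hy a List.mem_cons_self j ha
        have h4 : i = j := Sum.inl_injective h
        omega
      · rw [ha] at h
        exact Sum.inl_ne_inr h
    rw [Yw_cons, mul_assoc, ih h1, ← mul_assoc, Y_Ap a.1 a.2 (Sum.inl i, l) s h2, mul_assoc]

theorem Yw_mem_span {i0 : ℕ} {y w : W} (hy : NFW i0 y) (hw : NFW i0 w) (q : Q) :
    Yw y (e (w, q)) ∈ Submodule.span ℂ {x : H Idx | ∃ w0 : W, NFW i0 w0 ∧ x = e (w0, q)} := by
  induction y with
  | nil =>
    rw [Yw_nil]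
    exact Submodule.subset_span ⟨w, hw, rfl⟩
  | cons a y ih =>
    have h1 : NFW i0 y := NFW_tail hy
    rw [Yw_cons]
    change Y a.1 a.2 (Yw y (e (w, q))) ∈ _
    refine Submodule.span_induction
      (p := fun x _ => Y a.1 a.2 x ∈ Submodule.span ℂ {x : H Idx | ∃ w0 : W, NFW i0 w0 ∧ x = e (w0, q)})
      ?_ ?_ ?_ ?_ (ih h1)
    · rintro x ⟨w0, hw0, rfl⟩
      obtain ⟨v, n, m⟩ := q
      rcases w0 with _ | ⟨b, w0⟩
      · rw [Y_e_nil]
        exact Submodule.smul_mem _ _ (Submodule.subset_span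
          ⟨_, NFW_cons (a := (a.1, a.2 - n)) (fun i hi => hy a List.mem_cons_self i hi) (NFW_nil i0), rfl⟩)
      · rw [Y_e_cons]
        refine Submodule.add_mem _ (Submodule.smul_mem _ _ (Submodule.subset_span
          ⟨_, NFW_cons (a := (a.1, a.2 - n)) (fun i hi => hy a List.mem_cons_self i hi) hw0, rfl⟩)) ?_
        split_ifs with h
        · exact Submodule.smul_mem _ _ (Submodule.subset_span ⟨_, NFW_tail hw0, rfl⟩)
        · exact Submodule.zero_mem _
    · show Y a.1 a.2 0 ∈ _
      rw [map_zero]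
      exact Submodule.zero_mem _
    · intro x x' _ _ hx hx'
      show Y a.1 a.2 (x + x') ∈ _
      rw [map_add]
      exact Submodule.add_mem _ hx hx'
    · intro c x _ hx
      show Y a.1 a.2 (c • x) ∈ _
      rw [map_smul]
      exact Submodule.smul_mem _ _ hx

/-- (4.3) -/
theorem fresh {i0 : ℕ} {y : W} (hy : NFW i0 y) {i i' : ℕ} (hi : i0 ≤ i) (hi' : i0 ≤ i') (k k' : ℤ) (w : W) (q : Q) :
    (Ya (Sum.inl i) k * Yw y * Yc (Sum.inl i') k') (e (w, q)) =
      (if i = i' ∧ k = k' then (Yw y (e (([] : W), q)) : Idx → ℂ) (([] : W), q) else 0) • e (w, q) := by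
  obtain ⟨v, n, m⟩ := q
  have h1 : Yc (Sum.inl i') k' (e (w, (v, (n, m)))) =
      Ap ((Sum.inl i', k' - n) :: w) (e (([] : W), (v, (n, m)))) := by
    rw [Yc_e, Ap_e]
    have h0 : xf v * dg1 (Sum.inl i' : T) = 0 := by
      show xf v * 0 = 0
      rw [mul_zero]
    rw [h0, ch_zero, one_smul]
    rfl
  have h2 : (Ya (Sum.inl i) k * Yw y * Yc (Sum.inl i') k') (e (w, (v, (n, m)))) =
      Ya (Sum.inl i) k (Ap ((Sum.inl i', k' - n) :: w) (Yw y (e (([] : W), (v, (n, m)))))) := by
    change Ya (Sum.inl i) k (Yw y (Yc (Sum.inl i') k' (e (w, (v, (n, m)))))) = _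
    rw [h1]
    have h3 := congrArg (fun B : BH => B (e (([] : W), (v, (n, m))))) (Yw_Ap hy hi' (k' - n) w)
    change Yw y (Ap ((Sum.inl i', k' - n) :: w) (e (([] : W), (v, (n, m))))) =
      Ap ((Sum.inl i', k' - n) :: w) (Yw y (e (([] : W), (v, (n, m))))) at h3
    rw [h3]
  rw [h2]
  have h4 := Yw_mem_span hy (NFW_nil i0) (v, (n, m))
  refine Submodule.span_induction
    (p := fun x _ => Ya (Sum.inl i) k (Ap ((Sum.inl i', k' - n) :: w) x) =
      (if i = i' ∧ k = k' then (x : Idx → ℂ) (([] : W), (v, (n, m))) else 0) • e (w, (v, (n, m)))) ?_ ?_ ?_ ?_ h4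
  · rintro x ⟨w0, hw0, rfl⟩
    show Ya (Sum.inl i) k (Ap ((Sum.inl i', k' - n) :: w) (e (w0, (v, (n, m))))) = _
    rw [Ap_e]
    rcases w0 with _ | ⟨b, w0⟩
    · rw [List.nil_append, Ya_e_cons, e_self]
      have h0 : xf v * dg1 (Sum.inl i : T) = 0 := by
        show xf v * 0 = 0
        rw [mul_zero]
      by_cases h : i = i' ∧ k = k'
      · obtain ⟨rfl, rfl⟩ := h
        have h7 : ((Sum.inl i : T), k - n) = (bar (Sum.inl i), k - n) := rfl
        rw [if_pos h7, if_pos (And.intro rfl rfl), h0, ch_zero]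
      · rw [if_neg, if_neg h, zero_smul]
        intro h'
        apply h
        have h5 : (Sum.inl i' : T) = Sum.inl i := congrArg Prod.fst h'
        have h6 : k' - n = k - n := congrArg Prod.snd h'
        exact ⟨(Sum.inl_injective h5).symm, by omega⟩
    · rw [List.cons_append, Ya_e_cons, if_neg]
      · have h8 : (e ((b :: w0 : W), (v, (n, m))) : Idx → ℂ) (([] : W), (v, (n, m))) = 0 := by
          refine e_ne (fun h' => ?_)
          have h5 := congrArg Prod.fst h'
          exact absurd h5.symm (List.cons_ne_nil b w0)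
        rw [h8, ite_self, zero_smul]
      · intro h'
        have h5 : b.1 = Sum.inl i := congrArg Prod.fst h'
        have h6 := hw0 b List.mem_cons_self i h5
        omega
  · show Ya (Sum.inl i) k (Ap ((Sum.inl i', k' - n) :: w) 0) = _
    rw [map_zero, map_zero]
    change (0 : H Idx) = (if i = i' ∧ k = k' then (0 : ℂ) else 0) • e (w, (v, (n, m)))
    rw [ite_self, zero_smul]
  · intro x x' _ _ hx hx'
    show Ya (Sum.inl i) k (Ap ((Sum.inl i', k' - n) :: w) (x + x')) = _
    rw [map_add, map_add, hx, hx', ← add_smul]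
    congr 1
    by_cases h : i = i' ∧ k = k'
    · rw [if_pos h, if_pos h, if_pos h]
      rfl
    · rw [if_neg h, if_neg h, if_neg h, add_zero]
  · intro c x _ hx
    show Ya (Sum.inl i) k (Ap ((Sum.inl i', k' - n) :: w) (c • x)) = _
    rw [map_smul, map_smul, hx, smul_smul]
    congr 1
    by_cases h : i = i' ∧ k = k'
    · rw [if_pos h, if_pos h]
      rfl
    · rw [if_neg h, if_neg h, mul_zero]

end OE
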