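import Mathlib
import Pool.Agent.Work.MP_06ef15_an.CG
import Pool.Agent.Work.MP_06ef15_an.PC

/-!
# The vacuum expectation

`Yw_vac`: if `q' ≠ q`: by `Yw_mem_span` (take `i0` larger than all types in `y`, or prove directly by induction on `y` that
`Yw y e(w,q)` has zero coefficients at `(w', q')`).  For `q' = q = (v,(n,m))`: the coefficient is
`⟪e([],q), Yw y e([],q)⟫`.  Symmetries commuting with all `Y t k` (hence with `Yw y`) and mapping one vacuum vector to another:
`gr v e([],(0,(n,m))) = e([],(v,(n,m)))` (`gr_e`, phase `ch 0`), `Ut e([],(v,(n,m))) = e([],(v,(n+1,m)))` (iterate; for negative `n`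
use it backwards), and `Sm m m' := re (fun x => (x.1,(x.2.1,(x.2.2.1, Equiv.swap m m' x.2.2.2))))` (commutes with `Y t k` by `ext_idx`).
If `G* G = 1`, `G a = b` and `G` commutes with `B` then `⟪b, B b⟫ = ⟪a, B a⟫`.
`tauY_sh`: from `Sw [true] * Yw y = Yw (sh 1 y) * Sw [true]` in the same way (`G = Sg true`, `Yw (sh 1 y) G = G Yw y`), so
`tauY (sh 1 y) = tauY y`; iterate, and `tauY (sh (-1) y) = tauY (sh 1 (sh (-1) y)) = tauY y`.
`tauY_ch`: `Yw y * g u = ch (xf u * dgw y) • (g u * Yw y)` applied to `e([],(0,(0,m1)))`, coefficient at `([],(u,(0,m1)))`, with `u = pp 0`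
(`xf = 1`): `tauY y = ch (dgw y) * tauY y`.  So `tauY y = 0` or `ch (dgw y) = 1`, i.e. `dgw y = 0`.
-/

set_option autoImplicit false

open scoped ComplexConjugate InnerProductSpace Classical
open ContinuousLinearMap (adjoint)

namespace OE

private theorem exists_NFW (y : W) : ∃ i0, NFW i0 y := by
  induction y with
  | nil => exact ⟨0, fun a ha => absurd ha List.not_mem_nil⟩
  | cons a y ih =>
    obtain ⟨i0, h⟩ := ih
    rcases ha : a.1 with j | b
    · refine ⟨max i0 (j + 1), fun b hb i hi => ?_⟩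
      rcases List.mem_cons.mp hb with h1 | h1
      · subst h1
        rw [ha] at hi
        have h2 : j = i := Sum.inl_injective hi
        omega
      · exact lt_of_lt_of_le (h b h1 i hi) (le_max_left _ _)
    · refine ⟨i0, fun c hc i hi => ?_⟩
      rcases List.mem_cons.mp hc with h1 | h1
      · subst h1
        rw [ha] at hi
        exact absurd hi Sum.inr_ne_inl
      · exact h c h1 i hi

private theorem span_coef {i0 : ℕ} {q q' : Q} (h : q' ≠ q) {x : H Idx}
    (hx : x ∈ Submodule.span ℂ {x : H Idx | ∃ w0 : W, NFW i0 w0 ∧ x = e (w0, q)}) :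
    (x : Idx → ℂ) (([] : W), q') = 0 := by
  refine Submodule.span_induction (p := fun (x : H Idx) _ => (x : Idx → ℂ) (([] : W), q') = 0) ?_ ?_ ?_ ?_ hx
  · rintro x ⟨w0, -, rfl⟩
    exact e_ne (fun h' => h (congrArg Prod.snd h'))
  · rfl
  · intro x x' _ _ hx hx'
    show (x : Idx → ℂ) _ + (x' : Idx → ℂ) _ = 0
    rw [hx, hx', add_zero]
  · intro c x _ hx
    show c * (x : Idx → ℂ) _ = 0
    rw [hx, mul_zero]

private theorem coef_conj {S B B' : BH} {a b : Idx} (h1 : star S * S = 1) (h2 : S (e a) = e b)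
    (h3 : S * B = B' * S) : (B' (e b) : Idx → ℂ) b = (B (e a) : Idx → ℂ) a := by
  rw [← inner_e_left, ← inner_e_left]
  have h4 : B' (e b) = S (B (e a)) := by
    rw [← h2]
    exact (congrArg (fun X : BH => X (e a)) h3).symm
  rw [h4]
  conv_lhs => rw [← h2]
  rw [← ContinuousLinearMap.adjoint_inner_right, ← ContinuousLinearMap.star_eq_adjoint]
  have h5 : star S (S (B (e a))) = B (e a) := congrArg (fun X : BH => X (B (e a))) h1
  rw [h5]

private theorem commute_Yw {S : BH} (h : ∀ t k, S * Y t k = Y t k * S) (y : W) : S * Yw y = Yw y * S := by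
  induction y with
  | nil => rw [Yw_nil, mul_one, one_mul]
  | cons a y ih => rw [Yw_cons, ← mul_assoc, h, mul_assoc, ih, mul_assoc]

private def swf (m m' : M) (x : Idx) : Idx := (x.1, (x.2.1, (x.2.2.1, Equiv.swap m m' x.2.2.2)))

private theorem swf_inj (m m' : M) : Function.Injective (swf m m') := by
  rintro ⟨w, v, n, x⟩ ⟨w', v', n', x'⟩ h
  simp only [swf, Prod.mk.injEq] at h
  obtain ⟨rfl, rfl, rfl, h4⟩ := h
  rw [(Equiv.swap m m').injective h4]

private theorem swf_e (m m' : M) (w : W) (v : V) (n : ℤ) (x : M) :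
    re (swf m m') (e (w, (v, (n, x)))) = e (w, (v, (n, Equiv.swap m m' x))) := by
  rw [re_e (swf_inj m m')]
  rfl

private theorem swf_star (m m' : M) : star (re (swf m m') : BH) * re (swf m m') = 1 := by
  refine ContinuousLinearMap.ext (fun x => ?_)
  exact adj_re_comp (swf_inj m m') x

private theorem swf_Y (m m' : M) (t : T) (k : ℤ) : (re (swf m m') : BH) * Y t k = Y t k * re (swf m m') := by
  refine ext_idx (fun w v n x => ?_)
  change re (swf m m') (Y t k (e (w, (v, (n, x))))) = Y t k (re (swf m m') (e (w, (v, (n, x)))))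
  rw [swf_e]
  rcases w with _ | ⟨a, w⟩
  · rw [Y_e_nil, Y_e_nil, map_smul, swf_e]
  · rw [Y_e_cons, Y_e_cons, map_add, map_smul, swf_e]
    by_cases h : a = (bar t, k - n)
    · rw [if_pos h, if_pos h, map_smul, swf_e]
    · rw [if_neg h, if_neg h, map_zero]

private theorem vac_v (y : W) (v : V) (n : ℤ) (m : M) :
    (Yw y (e (([] : W), (v, (n, m)))) : Idx → ℂ) (([] : W), (v, (n, m))) =
      (Yw y (e (([] : W), ((0 : V), (n, m)))) : Idx → ℂ) (([] : W), ((0 : V), (n, m))) := by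
  refine coef_conj (S := gr v) (star_gr_mul v) ?_ (commute_Yw (fun t k => gr_Y t k v) y)
  rw [gr_e, bf_zero_left, dgw_nil, mul_zero, add_zero, ch_zero, one_smul, zero_add]

private theorem vac_succ (y : W) (v : V) (n : ℤ) (m : M) :
    (Yw y (e (([] : W), (v, (n + 1, m)))) : Idx → ℂ) (([] : W), (v, (n + 1, m))) =
      (Yw y (e (([] : W), (v, (n, m)))) : Idx → ℂ) (([] : W), (v, (n, m))) := by
  refine coef_conj (S := Ut) star_Ut_mul ?_ (commute_Yw (fun t k => Ut_Y t k) y)
  rw [Ut_e, sh_nil]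

private theorem vac_n (y : W) (v : V) (n : ℤ) (m : M) :
    (Yw y (e (([] : W), (v, (n, m)))) : Idx → ℂ) (([] : W), (v, (n, m))) =
      (Yw y (e (([] : W), (v, ((0 : ℤ), m)))) : Idx → ℂ) (([] : W), (v, ((0 : ℤ), m))) := by
  induction n using Int.induction_on with
  | zero => rfl
  | succ n ih => rw [vac_succ, ih]
  | pred n ih =>
    have h := vac_succ y v (-(n : ℤ) - 1) m
    rw [sub_add_cancel] at h
    rw [← h, ih]

private theorem vac_m (y : W) (v : V) (n : ℤ) (m m' : M) :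
    (Yw y (e (([] : W), (v, (n, m')))) : Idx → ℂ) (([] : W), (v, (n, m'))) =
      (Yw y (e (([] : W), (v, (n, m)))) : Idx → ℂ) (([] : W), (v, (n, m))) := by
  refine coef_conj (S := re (swf m m')) (swf_star m m') ?_ (commute_Yw (swf_Y m m') y)
  rw [swf_e, Equiv.swap_apply_left]

theorem Yw_vac (y : W) (q q' : Q) :
    (Yw y (e (([] : W), q)) : Idx → ℂ) (([] : W), q') = if q' = q then tauY y else 0 := by
  by_cases h : q' = q
  · rw [if_pos h, h]
    obtain ⟨v, n, m⟩ := q
    rw [vac_v, vac_n, vac_m y 0 0 m1 m]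
    rfl
  · rw [if_neg h]
    obtain ⟨i0, hy⟩ := exists_NFW y
    exact span_coef h (Yw_mem_span hy (fun a ha => absurd ha List.not_mem_nil) q)

private theorem tauY_sh_one (y : W) : tauY (sh 1 y) = tauY y := by
  have h1 : Sg true * Yw y = Yw (sh 1 y) * Sg true := by
    have h := Sw_Yw [true] y
    rw [Sw_cons, Sw_nil, mul_one, nn_cons, nn_nil, bn_true, add_zero] at h
    exact h
  have h2 : star (Sg true) * Sg true = 1 := by
    rw [star_Sg_mul, if_pos rfl]
  have h3 := coef_conj (S := Sg true) (B := Yw y) (B' := Yw (sh 1 y)) (a := (([] : W), ((0 : V), ((0 : ℤ), m1))))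
    (b := (([] : W), ((0 : V), ((0 : ℤ) + bn true, sM true m1)))) h2 (Sg_e _ _ _ _ _) h1
  rw [Yw_vac, Yw_vac, if_pos rfl, if_pos rfl] at h3
  exact h3

theorem tauY_sh (n : ℤ) (y : W) : tauY (sh n y) = tauY y := by
  induction n using Int.induction_on with
  | zero => rw [sh_zero]
  | succ n ih =>
    have h := tauY_sh_one (sh (n : ℤ) y)
    rw [sh_sh] at h
    rw [h, ih]
  | pred n ih =>
    have h := tauY_sh_one (sh (-(n : ℤ) - 1) y)
    rw [sh_sh, sub_add_cancel] at h
    rw [← h, ih]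

theorem tauY_deg {y : W} (h : tauY y ≠ 0) : dgw y = 0 := by
  have h1 : g (pp 0) * Yw y = (ch (-(dgw y)) • Yw y) * g (pp 0) := by
    rw [smul_mul_assoc, Yw_g, smul_smul, xf_pp, one_mul, ← ch_add, neg_add_cancel, ch_zero, one_smul]
  have h2 : g (pp 0) (e (([] : W), ((0 : V), ((0 : ℤ), m1)))) = e (([] : W), (pp 0 + (0 : V), ((0 : ℤ), m1))) := by
    rw [g_e, bf_zero_right, ch_zero, one_smul]
  have h3 := coef_conj (S := g (pp 0)) (star_g_mul (pp 0)) h2 h1
  have h4 : ((ch (-(dgw y)) • Yw y) (e (([] : W), (pp 0 + (0 : V), ((0 : ℤ), m1)))) : Idx → ℂ)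
      (([] : W), (pp 0 + (0 : V), ((0 : ℤ), m1))) = ch (-(dgw y)) *
      (Yw y (e (([] : W), (pp 0 + (0 : V), ((0 : ℤ), m1)))) : Idx → ℂ) (([] : W), (pp 0 + (0 : V), ((0 : ℤ), m1))) := rfl
  rw [h4, Yw_vac, Yw_vac, if_pos rfl, if_pos rfl] at h3
  have h5 : ch (-(dgw y)) = 1 := mul_right_cancel₀ h (h3.trans (one_mul _).symm)
  exact neg_eq_zero.mp ((ch_eq_one_iff _).mp h5)

theorem tauY_ch (y : W) (z : ZMod 9) : ch (z * dgw y) * tauY y = tauY y := by
  by_cases h : tauY y = 0
  · rw [h, mul_zero]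
  · rw [tauY_deg h, mul_zero, ch_zero, one_mul]

/-- (4.3) in operator form. -/
theorem fresh_op {i0 : ℕ} {y : W} (hy : NFW i0 y) {i i' : ℕ} (hi : i0 ≤ i) (hi' : i0 ≤ i') (k k' : ℤ) :
    Ya (Sum.inl i) k * Yw y * Yc (Sum.inl i') k' = (if i = i' ∧ k = k' then tauY y else 0) • (1 : BH) := by
  refine ext_idx (fun w v n m => ?_)
  rw [fresh hy hi hi', Yw_vac, if_pos rfl]
  rfl

end OE
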