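import Mathlib
import Pool.Agent.Work.MP_06ef15_an.PA
import Pool.Agent.Work.MP_06ef15_an.PD

/-!
# (4.4) The sandwich

`star (la i) = Ya (inl i) 0` (`star_Yc`, `bar (inl i) = inl i`).  Move everything to the right:
`star (g u S_α l_i) * N(y,v,μ,ν) * (g u' S_α' l_i')
 = Ya (inl i) 0 * star S_α * star g_u * Yw y * g_v * S_μ * star S_ν * g_u' * S_α' * Yc (inl i') 0
 = ch (xf u * dgw y) • Ya (inl i) 0 * Yw (sh (-nn α) y) * star S_α * star g_u * g_v * S_μ * star S_ν * g_u' * S_α' * Yc (inl i') 0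
 = ch (xf u * dgw y) • (Ya (inl i) 0 * Yw (sh (-nn α) y) * Yc (inl i') κ) * G`,  `κ = -nn α + nn μ - nn ν + nn α'`,
`G = star S_α * star g_u * g_v * S_μ * star S_ν * g_u' * S_α'` (relations of `CG`).  By `fresh_op` it is `0` if `i ≠ i'` (`NFW` is
invariant under `sh`).  If `i = i'`, `u = u'`, `α = α'` then `κ = nn μ - nn ν`, and `S`'s commute with `g`'s (`Sw_g`, `star_Sw_g`), so
`G = (star g_u * g_v * g_u) * (star S_α * S_μ * star S_ν * S_α) = ch (om v u) • g_v * [μ = ν ∧ μ prefix of δ0 0^D]` by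
`cuntz_sandwich`; if `μ = ν` then `κ = 0`; `tauY (sh _ y) = tauY y`, `ch (xf u * dgw y) * tauY y = tauY y`.
-/

set_option autoImplicit false

open scoped ComplexConjugate InnerProductSpace Classical
open ContinuousLinearMap (adjoint)

namespace OE

theorem star_la (i : ℕ) : star (la i) = Ya (Sum.inl i) 0 := by
  unfold la
  rw [star_Yc]
  rfl

private theorem r {x y x' y' : BH} (h : x * y = y' * x') (z : BH) : x * (y * z) = y' * (x' * z) := by
  rw [← mul_assoc, h, mul_assoc]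

private theorem rs {x y x' y' : BH} {c : ℂ} (h : x * y = c • (y' * x')) (z : BH) :
    x * (y * z) = c • (y' * (x' * z)) := by
  rw [← mul_assoc, h, smul_mul_assoc, mul_assoc]

private theorem moves {a sα gu Yy Yy' gv Sμ Sν gu2 Sα2 c0 c1 c2 c3 c4 : BH} {z : ℂ}
    (h1 : Sα2 * c0 = c1 * Sα2) (h2 : gu2 * c1 = c1 * gu2) (h3 : Sν * c1 = c2 * Sν) (h4 : Sμ * c2 = c3 * Sμ)
    (h5 : gv * c3 = c3 * gv) (h6 : gu * c3 = c3 * gu) (h7 : sα * c3 = c4 * sα) (h8 : gu * Yy = z • (Yy * gu))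
    (h9 : sα * Yy = Yy' * sα) :
    (a * (sα * gu)) * (Yy * gv * Sμ * Sν) * (gu2 * Sα2 * c0) =
      z • ((a * Yy' * c4) * (sα * gu * gv * Sμ * Sν * gu2 * Sα2)) := by
  simp only [mul_assoc]
  rw [h1, r h2, r h3, r h4, r h5, rs h8, r h6, mul_smul_comm, r h9, r h7, mul_smul_comm]

private theorem NFW_sh {i0 : ℕ} {y : W} (hy : NFW i0 y) (n : ℤ) : NFW i0 (sh n y) := by
  induction y with
  | nil => exact hy
  | cons a y ih =>
    rw [sh_cons]
    intro b hb i hi
    rcases List.mem_cons.mp hb with h | h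
    · subst h
      exact hy a List.mem_cons_self i hi
    · exact ih (fun c hc => hy c (List.mem_cons_of_mem _ hc)) b h i hi

private theorem sandwich_aux {i0 : ℕ} {y : W} (hy : NFW i0 y) (v u u' : V) (μ ν α α' : List Bool) {i i' : ℕ}
    (hi : i0 ≤ i) (hi' : i0 ≤ i') :
    star (g u * Sw α * la i) * Nw y v μ ν * (g u' * Sw α' * la i') =
      (ch (xf u * dgw y) * (if i = i' ∧ 0 = 0 + nn α' - nn ν + nn μ - nn α then tauY y else 0)) •
        (star (Sw α) * star (g u) * g v * Sw μ * star (Sw ν) * g u' * Sw α') := by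
  have hstar : star (g u * Sw α * la i) = Ya (Sum.inl i) 0 * (star (Sw α) * star (g u)) := by
    rw [star_mul, star_mul, star_la]
  have h9 : star (Sw α) * Yw y = Yw (sh (-nn α) y) * star (Sw α) := star_Sw_Yw α y
  have hmain := moves (a := Ya (Sum.inl i) 0) (sα := star (Sw α)) (gu := star (g u)) (Yy := Yw y)
    (Yy' := Yw (sh (-nn α) y)) (gv := g v) (Sμ := Sw μ) (Sν := star (Sw ν)) (gu2 := g u') (Sα2 := Sw α')
    (c0 := Yc (Sum.inl i') 0) (c1 := Yc (Sum.inl i') (0 + nn α')) (c2 := Yc (Sum.inl i') (0 + nn α' - nn ν))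
    (c3 := Yc (Sum.inl i') (0 + nn α' - nn ν + nn μ)) (c4 := Yc (Sum.inl i') (0 + nn α' - nn ν + nn μ - nn α))
    (z := ch (xf u * dgw y)) (Sw_Yc _ _ _) (g_Yc_inl _ _ _) (star_Sw_Yc _ _ _) (Sw_Yc _ _ _) (g_Yc_inl _ _ _)
    (star_g_Yc_inl _ _ _) (star_Sw_Yc _ _ _) (star_g_Yw _ _) h9
  rw [fresh_op (NFW_sh hy _) hi hi', tauY_sh, smul_mul_assoc, one_mul, smul_smul] at hmain
  rw [hstar]
  exact hmain

theorem sandwich_ne {i0 : ℕ} {y : W} (hy : NFW i0 y) (v u u' : V) (μ ν α α' : List Bool) {i i' : ℕ} (hi : i0 ≤ i)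
    (hi' : i0 ≤ i') (h : i ≠ i') :
    star (g u * Sw α * la i) * Nw y v μ ν * (g u' * Sw α' * la i') = 0 := by
  rw [sandwich_aux hy v u u' μ ν α α' hi hi', if_neg (fun h' => h h'.1), mul_zero, zero_smul]

/-- (4.4) -/
theorem sandwich_eq {i0 D : ℕ} {y : W} (hy : NFW i0 y) (v u : V) {μ ν : List Bool} (hμ : μ.length ≤ D)
    (hν : ν.length ≤ D) (δ0 κ : List Bool) {i : ℕ} (hi : i0 ≤ i) :
    star (g u * Sw (δ0 ++ List.replicate D false ++ true :: κ) * la i) * Nw y v μ ν *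
      (g u * Sw (δ0 ++ List.replicate D false ++ true :: κ) * la i) =
      (if μ = ν ∧ μ <+: δ0 ++ List.replicate D false then tauY y * ch (om v u) else 0) • g v := by
  set α : List Bool := δ0 ++ List.replicate D false ++ true :: κ with hα
  rw [sandwich_aux hy v u u μ ν α α hi hi]
  have hG : star (Sw α) * star (g u) * g v * Sw μ * star (Sw ν) * g u * Sw α =
      (star (g u) * g v * g u) * (star (Sw α) * Sw μ * star (Sw ν) * Sw α) := by
    have k1 : star (Sw α) * star (g u) = star (g u) * star (Sw α) := by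
      rw [← star_mul, ← star_mul, Sw_g]
    have k2 : star (Sw α) * g v = g v * star (Sw α) := star_Sw_g _ _
    have k3 : star (Sw α) * g u = g u * star (Sw α) := star_Sw_g _ _
    have k4 : Sw μ * g u = g u * Sw μ := Sw_g _ _
    have k5 : star (Sw ν) * g u = g u * star (Sw ν) := star_Sw_g _ _
    simp only [mul_assoc]
    rw [r k5, r k4, r k1, r k2, r k3]
  rw [hG, star_g_mul_g_mul_g, cuntz_sandwich δ0 κ D μ ν hμ hν]
  by_cases h : μ = ν ∧ μ <+: δ0 ++ List.replicate D false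
  · rw [if_pos h, if_pos h]
    have hk : i = i ∧ (0 : ℤ) = 0 + nn α - nn ν + nn μ - nn α := by
      refine ⟨rfl, ?_⟩
      rw [h.1]
      ring
    rw [if_pos hk, mul_one, smul_smul, tauY_ch]
  · rw [if_neg h, if_neg h, mul_zero, smul_zero, zero_smul]

end OE
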