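import Mathlib
import Pool.Agent.Work.MP_06ef15_an.PD

/-!
# Vector state on normal words

`star (Sw ν) (vm m)` is `e([],(0,(-nn ν, tl^[|ν|] m)))` if `dig |ν| m = ν`, else `0` (`star_Sw_e`); then `Sw_e`, `g_e` (`bf v 0 = 0`): the vector
`e([],(v,(nn μ - nn ν, actM μ (tl^[|ν|] m))))`; `Yw_vac` and `inner_e_left`: the inner product with `vm m` is `tauY y` if
`(0,(0,m)) = (v,(nn μ - nn ν, actM μ (tl^[|ν|] m)))`, else `0`.  For `m = inr p` the `ℤ`-coordinate of `actM μ (tl^[|ν|] m)` is `p.2 - |ν| + |μ|`, so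
equality of the `M`-coordinates gives `|μ| = |ν|`, and then `μ = dig |μ| (actM μ _) = dig |μ| m = ν` (`dig_actM`).  Conversely if
`μ = ν = dig |μ| m`, `v = 0` then all coordinates agree by `actM_dig`.
-/

set_option autoImplicit false

open scoped ComplexConjugate InnerProductSpace Classical
open ContinuousLinearMap (adjoint)

namespace OE

private theorem tl_inr (j : ℕ) (p : ℕ × ℤ) : ∃ x : ℕ, tl^[j] (Sum.inr p : M) = Sum.inr (x, p.2 - (j : ℤ)) := by
  induction j with
  | zero => exact ⟨p.1, by simp⟩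
  | succ j ih =>
    obtain ⟨x, hx⟩ := ih
    refine ⟨x.div2, ?_⟩
    rw [Function.iterate_succ_apply', hx]
    show (Sum.inr (x.div2, p.2 - (j : ℤ) - 1) : M) = _
    rw [sub_sub, Nat.cast_succ]

private theorem actM_inr (μ : List Bool) (p : ℕ × ℤ) :
    ∃ x : ℕ, actM μ (Sum.inr p : M) = Sum.inr (x, p.2 + (μ.length : ℤ)) := by
  induction μ with
  | nil => exact ⟨p.1, by rw [actM_nil]; simp⟩
  | cons b μ ih =>
    obtain ⟨x, hx⟩ := ih
    refine ⟨Nat.bit b x, ?_⟩
    rw [actM_cons, hx]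
    show (Sum.inr (Nat.bit b x, p.2 + (μ.length : ℤ) + 1) : M) = _
    rw [add_assoc, List.length_cons, Nat.cast_succ]

private theorem cond_iff (v : V) (μ ν : List Bool) (p : ℕ × ℤ) (h : dig ν.length (Sum.inr p : M) = ν) :
    (((0 : V), ((0 : ℤ), (Sum.inr p : M))) : Q) =
      (v + 0, ((0 : ℤ) - nn ν + nn μ, actM μ (tl^[ν.length] (Sum.inr p : M)))) ↔
      (v = 0 ∧ μ = ν ∧ μ = dig μ.length (Sum.inr p : M)) := by
  constructor
  · intro h1
    have hv : (0 : V) = v + 0 := congrArg Prod.fst h1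
    have hm : (Sum.inr p : M) = actM μ (tl^[ν.length] (Sum.inr p : M)) :=
      congrArg (fun q : Q => q.2.2) h1
    have hlen : μ.length = ν.length := by
      obtain ⟨x, hx⟩ := tl_inr ν.length p
      obtain ⟨x', hx'⟩ := actM_inr μ (x, p.2 - (ν.length : ℤ))
      rw [hx, hx'] at hm
      have h2 : p = (x', p.2 - (ν.length : ℤ) + (μ.length : ℤ)) := Sum.inr_injective hm
      have h3 : p.2 = p.2 - (ν.length : ℤ) + (μ.length : ℤ) := congrArg Prod.snd h2
      omega
    have h4 : dig μ.length (Sum.inr p : M) = μ := by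
      rw [hm, dig_actM]
    refine ⟨?_, ?_, h4.symm⟩
    · rw [add_zero] at hv
      exact hv.symm
    · rw [← h4, hlen, h]
  · rintro ⟨rfl, rfl, h2⟩
    have h3 : actM μ (tl^[μ.length] (Sum.inr p : M)) = Sum.inr p := by
      conv_lhs => rw [← h]
      rw [h]
      conv_lhs => rw [← h]
      rw [length_dig, h]
      have h4 := actM_dig μ.length (Sum.inr p : M)
      rw [h] at h4
      exact h4
    rw [h3, add_zero, zero_sub, neg_add_cancel]

theorem Nw_vac (y : W) (v : V) (μ ν : List Bool) (p : ℕ × ℤ) :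
    ⟪vm (Sum.inr p), Nw y v μ ν (vm (Sum.inr p))⟫_ℂ =
      if v = 0 ∧ μ = ν ∧ μ = dig μ.length (Sum.inr p : M) then tauY y else 0 := by
  have h0 : Nw y v μ ν (vm (Sum.inr p)) =
      Yw y (g v (Sw μ (star (Sw ν) (e (([] : W), ((0 : V), ((0 : ℤ), (Sum.inr p : M)))))))) := rfl
  rw [h0, star_Sw_e]
  by_cases h : dig ν.length (Sum.inr p : M) = ν
  · rw [if_pos h, Sw_e, g_e, bf_zero_right, ch_zero, one_smul]
    unfold vm
    rw [inner_e_left, Yw_vac]
    by_cases h1 : v = 0 ∧ μ = ν ∧ μ = dig μ.length (Sum.inr p : M)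
    · rw [if_pos h1, if_pos ((cond_iff v μ ν p h).mpr h1)]
    · rw [if_neg h1, if_neg (fun h2 => h1 ((cond_iff v μ ν p h).mp h2))]
  · rw [if_neg h, map_zero, map_zero, map_zero, inner_zero_right, if_neg]
    rintro ⟨-, rfl, h2⟩
    exact h h2.symm

end OE
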