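import Mathlib
import Pool.Agent.Work.MP_06ef15_an.P0
import Pool.Agent.Work.MP_06ef15_an.CG

/-!
# The isometries `s_j`

`cdJ_injective`: `V` is countable (`countable_V`), `exists_injective_nat`.
`star_sJ_mul`: `star (g u S_α) * (g u' S_α') = star S_α * star (g u) * g u' * S_α' = (star (g u) * g u') * star S_α * S_α'` (`star_Sw_g`, its
star version, `Sw_g`); if `j = k` it is `1`; if `j ≠ k` then `cdJ j ≠ cdJ k` and `α = δ 1 0^{c} 1`, `α' = δ 1 0^{c'} 1` are not prefixes of each
other: `star_Sw_mul_eq_zero`.
`X_eq`: `X i = Yc + Ya`, `star (Yc (inl i) 0) = Ya (inl i) 0`.  `star_la_mul`: `star_Yc_mul_Yc`.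
-/

set_option autoImplicit false

open scoped ComplexConjugate InnerProductSpace Classical
open ContinuousLinearMap (adjoint)

namespace OE

theorem cdJ_injective : Function.Injective cdJ := by
  haveI := countable_V
  have h : ∃ f : V × ℕ → ℕ, Function.Injective f := exists_injective_nat (V × ℕ)
  intro j k hjk
  unfold cdJ at hjk
  rw [dif_pos h, dif_pos h] at hjk
  exact h.choose_spec hjk

theorem iJ_injective (i0 : ℕ) : Function.Injective (iJ i0) := by
  intro j k hjk
  unfold iJ at hjk
  exact cdJ_injective (by omega)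

theorem le_iJ (i0 : ℕ) (j : V × ℕ) : i0 ≤ iJ i0 j := Nat.le_add_right _ _

private theorem code_prefix {c c' : ℕ}
    (h : List.replicate c false ++ [true] <+: List.replicate c' false ++ [true]) : c = c' := by
  induction c generalizing c' with
  | zero =>
    rcases c' with _ | c'
    · rfl
    · rw [List.replicate_succ, List.replicate_zero, List.nil_append, List.cons_append, List.cons_prefix_cons] at h
      exact absurd h.1 (by decide)
  | succ c ih =>
    rcases c' with _ | c'
    · rw [List.replicate_succ, List.replicate_zero, List.nil_append, List.cons_append, List.cons_prefix_cons] at h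
      exact absurd h.1 (by decide)
    · rw [List.replicate_succ, List.replicate_succ, List.cons_append, List.cons_append, List.cons_prefix_cons] at h
      rw [ih h.2]

private theorem alJ_prefix {δ : List Bool} {j k : V × ℕ} (h : alJ δ j <+: alJ δ k) : j = k := by
  unfold alJ at h
  rw [List.prefix_append_right_inj, List.cons_prefix_cons] at h
  exact cdJ_injective (code_prefix h.2)

theorem star_sJ_mul (δ : List Bool) (j k : V × ℕ) : star (sJ δ j) * sJ δ k = if j = k then 1 else 0 := by
  unfold sJ
  rw [star_mul]
  by_cases h : j = k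
  · subst h
    rw [if_pos rfl, mul_assoc, ← mul_assoc (star (g j.1)), star_g_mul, one_mul, star_Sw_mul_self]
  · rw [if_neg h]
    have k1 : star (Sw (alJ δ j)) * star (g j.1) = star (g j.1) * star (Sw (alJ δ j)) := by
      rw [← star_mul, ← star_mul, Sw_g]
    have k2 : star (Sw (alJ δ j)) * g k.1 = g k.1 * star (Sw (alJ δ j)) := star_Sw_g _ _
    have k3 : star (Sw (alJ δ j)) * Sw (alJ δ k) = 0 :=
      star_Sw_mul_eq_zero (fun h' => h (alJ_prefix h')) (fun h' => h (alJ_prefix h').symm)
    rw [k1, mul_assoc, ← mul_assoc (star (Sw (alJ δ j))), k2, mul_assoc, k3, mul_zero, mul_zero]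

theorem star_la_mul (i i' : ℕ) : star (la i) * la i' = if i = i' then 1 else 0 := by
  unfold la
  rw [star_Yc_mul_Yc]
  by_cases h : i = i'
  · rw [if_pos h, if_pos ⟨congrArg Sum.inl h, rfl⟩]
  · rw [if_neg h, if_neg (fun h' => h (Sum.inl_injective h'.1))]

theorem X_eq (i : ℕ) : X i = la i + star (la i) := by
  unfold la
  rw [star_Yc]
  rfl

end OE
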