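import Mathlib
import Pool.Agent.Work.MP_06ef15_an.CX
import Pool.Agent.Work.MP_06ef15_an.PE
import Pool.Agent.Work.MP_06ef15_an.PF
import Pool.Agent.Work.MP_06ef15_an.PG

/-!
# `x1* B x1 = ⟪vm, B vm⟫` on combinations of normal words

`x1_sandwich`: by `Submodule.span_induction` reduce to `B = Nw y v μ ν` (both sides are linear in `B`).  Let
`δ = dig (size + D) m = δ0 ++ 0^D` (`dig_inr_eq`).  `star x1 * B * x1 = c² ∑_{j,k} star (s_j l_j) * B * (s_k l_k)`; the terms `j ≠ k` vanish by `sandwich_ne`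
(`iJ` injective), the terms `j = k` are given by `sandwich_eq` (`alJ δ j = δ0 ++ 0^D ++ true :: κ`).  So the sum is
`c² ∑_{(u,r)} (if μ = ν ∧ μ <+: δ then tauY y * ch (om v u) else 0) • g v`; `∑_{r<R}` gives the factor `R`, and by `sum_ch_om` (`v ∈ VF M0`)
`∑_{u ∈ VLFin (M0+1)} ch (om v u) = if v = 0 then |VLFin| else 0`; `c² * R * |VLFin| = 1` (`R > 0`, `card_VLFin_pos`), `g 0 = 1`.  Compare with `Nw_vac` (`prefix_dig_iff`).
`mem_span_NwS`: `Submodule.span_induction`; `NwS` is monotone in the parameters; for one normal word choose `i0` above all types of `y`,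
`M0` by `exists_mem_VF`, `D = |μ| + |ν|`.
-/

set_option autoImplicit false

open scoped ComplexConjugate InnerProductSpace Classical
open ContinuousLinearMap (adjoint)

namespace OE

theorem NwS_mono {i0 i0' M0 M0' D D' : ℕ} (h1 : i0 ≤ i0') (h2 : M0 ≤ M0') (h3 : D ≤ D') : NwS i0 M0 D ⊆ NwS i0' M0' D' := by
  rintro B ⟨y, v, μ, ν, hy, hv, hμ, hν, rfl⟩
  exact ⟨y, v, μ, ν, fun a ha i hi => lt_of_lt_of_le (hy a ha i hi) h1, VF_mono h2 hv, hμ.trans h3, hν.trans h3, rfl⟩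

private theorem exists_NFW' (y : W) : ∃ i0, NFW i0 y := by
  induction y with
  | nil => exact ⟨0, fun a ha => absurd ha List.not_mem_nil⟩
  | cons a y ih =>
    obtain ⟨i0, h⟩ := ih
    rcases ha : a.1 with j | b
    · refine ⟨max i0 (j + 1), fun b hb i hi => ?_⟩
      rcases List.mem_cons.mp hb with h1 | h1
      · subst h1
        rw [ha] at hi
        have h2 : j = i := Sum.inl_injective hi
        omega
      · exact lt_of_lt_of_le (h b h1 i hi) (le_max_left _ _)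
    · refine ⟨i0, fun c hc i hi => ?_⟩
      rcases List.mem_cons.mp hc with h1 | h1
      · subst h1
        rw [ha] at hi
        exact absurd hi Sum.inr_ne_inl
      · exact h c h1 i hi

theorem mem_span_NwS {B : BH} (hB : B ∈ NS) :
    ∃ i0 M0 D : ℕ, B ∈ Submodule.span ℂ (NwS i0 M0 D) := by
  unfold NS at hB
  refine Submodule.span_induction (p := fun (B : BH) _ => ∃ i0 M0 D : ℕ, B ∈ Submodule.span ℂ (NwS i0 M0 D))
    ?_ ?_ ?_ ?_ hB
  · rintro B ⟨y, v, μ, ν, rfl⟩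
    obtain ⟨i0, hy⟩ := exists_NFW' y
    obtain ⟨M0, hv⟩ := exists_mem_VF v
    exact ⟨i0, M0, max μ.length ν.length, Submodule.subset_span
      ⟨y, v, μ, ν, hy, hv, le_max_left _ _, le_max_right _ _, rfl⟩⟩
  · exact ⟨0, 0, 0, Submodule.zero_mem _⟩
  · rintro B B' _ _ ⟨i0, M0, D, h⟩ ⟨i0', M0', D', h'⟩
    refine ⟨max i0 i0', max M0 M0', max D D', Submodule.add_mem _ ?_ ?_⟩
    · exact Submodule.span_mono (NwS_mono (le_max_left _ _) (le_max_left _ _) (le_max_left _ _)) h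
    · exact Submodule.span_mono (NwS_mono (le_max_right _ _) (le_max_right _ _) (le_max_right _ _)) h'
  · rintro c B _ ⟨i0, M0, D, h⟩
    exact ⟨i0, M0, D, Submodule.smul_mem _ _ h⟩

private theorem x1_expand (δ : List Bool) (i0 M0 R : ℕ) (B : BH) :
    star (x1 δ i0 M0 R) * B * x1 δ i0 M0 R =
      ((cJ M0 R : ℂ) * (cJ M0 R : ℂ)) • ∑ j ∈ JJ M0 R, ∑ k ∈ JJ M0 R,
        star (sJ δ j * la (iJ i0 j)) * B * (sJ δ k * la (iJ i0 k)) := by
  have hc : star (cJ M0 R : ℂ) = (cJ M0 R : ℂ) := Complex.conj_ofReal _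
  unfold x1
  rw [star_smul, star_sum, hc, smul_mul_assoc, Finset.sum_mul, smul_mul_assoc, mul_smul_comm, smul_smul,
    Finset.sum_mul]
  congr 1
  refine Finset.sum_congr rfl (fun j _ => ?_)
  rw [Finset.mul_sum]

private theorem inner_sum {i0 M0 D R : ℕ} {y : W} (hy : NFW i0 y) (v : V) {μ ν : List Bool} (hμ : μ.length ≤ D)
    (hν : ν.length ≤ D) (δ0 : List Bool) {j : V × ℕ} (hj : j ∈ JJ M0 R) :
    ∑ k ∈ JJ M0 R, star (sJ (δ0 ++ List.replicate D false) j * la (iJ i0 j)) * Nw y v μ ν *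
      (sJ (δ0 ++ List.replicate D false) k * la (iJ i0 k)) =
      (if μ = ν ∧ μ <+: δ0 ++ List.replicate D false then tauY y * ch (om v j.1) else 0) • g v := by
  rw [Finset.sum_eq_single_of_mem j hj]
  · exact sandwich_eq hy v j.1 hμ hν δ0 _ (le_iJ _ _)
  · intro k _ hk
    exact sandwich_ne hy v j.1 k.1 μ ν _ _ (le_iJ _ _) (le_iJ _ _) (fun h => hk (iJ_injective i0 h).symm)

private theorem cJ_sq' {M0 R : ℕ} (hR : 0 < R) :
    ((cJ M0 R : ℂ) * (cJ M0 R : ℂ)) * (((VLFin (M0 + 1)).card : ℂ) * (R : ℂ)) = 1 := by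
  have h1 : ((JJ M0 R).card : ℝ) = ((VLFin (M0 + 1)).card : ℝ) * (R : ℝ) := by
    unfold JJ
    rw [Finset.card_product, Finset.card_range, Nat.cast_mul]
  have h2 : (0 : ℝ) < ((JJ M0 R).card : ℝ) := by
    rw [h1]
    have h3 : (0 : ℝ) < ((VLFin (M0 + 1)).card : ℝ) := by exact_mod_cast card_VLFin_pos (M0 + 1)
    have h4 : (0 : ℝ) < (R : ℝ) := by exact_mod_cast hR
    exact mul_pos h3 h4
  have h5 : cJ M0 R * cJ M0 R * (((VLFin (M0 + 1)).card : ℝ) * (R : ℝ)) = 1 := by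
    rw [← h1]
    unfold cJ
    rw [← mul_inv, Real.mul_self_sqrt h2.le, inv_mul_cancel₀ h2.ne']
  exact_mod_cast h5

theorem x1_sandwich {i0 M0 D R : ℕ} (hR : 0 < R) (p : ℕ × ℤ) {B : BH} (hB : B ∈ Submodule.span ℂ (NwS i0 M0 D)) :
    star (x1 (dig (Nat.size p.1 + D) (Sum.inr p : M)) i0 M0 R) * B * x1 (dig (Nat.size p.1 + D) (Sum.inr p : M)) i0 M0 R =
      ⟪vm (Sum.inr p), B (vm (Sum.inr p))⟫_ℂ • (1 : BH) := by
  obtain ⟨δ0, hδ⟩ := dig_inr_eq p.1 p.2 D
  have hδ' : dig (Nat.size p.1 + D) (Sum.inr p : M) = δ0 ++ List.replicate D false := hδ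
  refine Submodule.span_induction
    (p := fun (B : BH) _ => star (x1 (dig (Nat.size p.1 + D) (Sum.inr p : M)) i0 M0 R) * B *
      x1 (dig (Nat.size p.1 + D) (Sum.inr p : M)) i0 M0 R =
      ⟪vm (Sum.inr p), B (vm (Sum.inr p))⟫_ℂ • (1 : BH)) ?_ ?_ ?_ ?_ hB
  · rintro B ⟨y, v, μ, ν, hy, hv, hμ, hν, rfl⟩
    rw [x1_expand, Nw_vac]
    have hpre : μ <+: δ0 ++ List.replicate D false ↔ μ = dig μ.length (Sum.inr p : M) := by
      rw [← hδ']
      exact prefix_dig_iff μ _ _ (hμ.trans (Nat.le_add_left _ _))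
    rw [hδ', Finset.sum_congr rfl (fun j hj => inner_sum hy v hμ hν δ0 hj), ← Finset.sum_smul, smul_smul]
    by_cases h : μ = ν ∧ μ <+: δ0 ++ List.replicate D false
    · have hsum : ∑ j ∈ JJ M0 R, (if μ = ν ∧ μ <+: δ0 ++ List.replicate D false then tauY y * ch (om v j.1) else 0) =
          tauY y * ((if v = 0 then ((VLFin (M0 + 1)).card : ℂ) else 0) * (R : ℂ)) := by
        rw [Finset.sum_congr rfl (fun j _ => if_pos h), ← Finset.mul_sum]
        congr 1
        unfold JJ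
        rw [Finset.sum_product]
        rw [Finset.sum_congr rfl (fun u _ => by
          rw [Finset.sum_const, Finset.card_range, nsmul_eq_mul, mul_comm] :
          ∀ u ∈ VLFin (M0 + 1), ∑ _r ∈ Finset.range R, ch (om v u) = ch (om v u) * (R : ℂ))]
        rw [← Finset.sum_mul, sum_ch_om hv]
      rw [hsum]
      by_cases h0 : v = 0
      · rw [if_pos h0, if_pos ⟨h0, h.1, hpre.mp h.2⟩, h0, g_zero]
        congr 1
        rw [mul_left_comm, cJ_sq' hR, mul_one]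
      · rw [if_neg h0, if_neg (fun h' => h0 h'.1), zero_mul, mul_zero, mul_zero, zero_smul, zero_smul]
    · rw [Finset.sum_congr rfl (fun j _ => if_neg h), Finset.sum_const_zero, mul_zero, zero_smul, if_neg, zero_smul]
      rintro ⟨-, h1, h2⟩
      exact h ⟨h1, hpre.mpr h2⟩
  · show star (x1 _ i0 M0 R) * 0 * x1 _ i0 M0 R = ⟪vm (Sum.inr p), (0 : H Idx)⟫_ℂ • (1 : BH)
    rw [mul_zero, zero_mul, inner_zero_right, zero_smul]
  · intro B B' _ _ h h'
    show star (x1 _ i0 M0 R) * (B + B') * x1 _ i0 M0 R =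
      ⟪vm (Sum.inr p), B (vm (Sum.inr p)) + B' (vm (Sum.inr p))⟫_ℂ • (1 : BH)
    rw [mul_add, add_mul, h, h', inner_add_right, add_smul]
  · intro c B _ h
    show star (x1 _ i0 M0 R) * (c • B) * x1 _ i0 M0 R =
      ⟪vm (Sum.inr p), c • B (vm (Sum.inr p))⟫_ℂ • (1 : BH)
    rw [mul_smul_comm, smul_mul_assoc, h, inner_smul_right, smul_smul]

end OE
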