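import Mathlib
import Pool.Agent.Work.MP_06ef15_an.AN0
import Pool.Agent.Work.MP_06ef15_an.PG

/-!
# Norms of `x1`, `x2`, `xx`

`x1_iso`: `star x1 * x1 = c² ∑_{j,k} star l_j * (star s_j * s_k) * l_k = c² ∑_j star l_j * l_j = c² |J| = 1` (`star_sJ_mul`, `star_la_mul`).
`norm_x1_le`: from `x1_iso` (`‖x1‖² = ‖star x1 * x1‖`, `CStarRing.norm_star_mul_self`).
`norm_x2_le`: `x2 * star x2 = c² ∑_{j,k} s_j * (star l_j * l_k) * star s_k = c² p`, `p = ∑_j s_j star s_j` (`iJ` injective); `p` is self-adjoint and `p * p = p`, so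
`‖p‖² = ‖star p * p‖ = ‖p‖`, `‖p‖ ≤ 1`, and `‖x2‖² = ‖x2 * star x2‖ ≤ c²` (`CStarRing.norm_self_mul_star`).
`xx_mem`: `g_mem`, `Sw_mem`, `X_mem` of `AN0`, `A.mul_mem`, `A.smul_mem`, `sum_mem`.
`xx_sandwich_err`: `xx = x1 + x2`, expand: three error terms `star x1 * B * x2`, `star x2 * B * x1`, `star x2 * B * x2`, `c ≤ 1`.
`cJ_le`: `|JJ| = |VLFin| * R ≥ R` (`card_VLFin_pos`).
-/

set_option autoImplicit false

open scoped ComplexConjugate InnerProductSpace Classical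
open ContinuousLinearMap (adjoint)

namespace OE

variable (δ : List Bool) (i0 M0 R : ℕ)

theorem cJ_nonneg : 0 ≤ cJ M0 R := by
  unfold cJ
  positivity

private theorem card_JJ (M0 R : ℕ) : (JJ M0 R).card = (VLFin (M0 + 1)).card * R := by
  unfold JJ
  rw [Finset.card_product, Finset.card_range]

private theorem R_le_card (M0 R : ℕ) : R ≤ (JJ M0 R).card := by
  rw [card_JJ]
  exact Nat.le_mul_of_pos_left R (card_VLFin_pos (M0 + 1))

theorem cJ_le (hR : 0 < R) : cJ M0 R ≤ (Real.sqrt (R : ℝ))⁻¹ := by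
  unfold cJ
  have h1 : (0 : ℝ) < Real.sqrt (R : ℝ) := Real.sqrt_pos.mpr (by exact_mod_cast hR)
  apply inv_anti₀ h1
  apply Real.sqrt_le_sqrt
  exact_mod_cast R_le_card M0 R

theorem cJ_le_one (hR : 0 < R) : cJ M0 R ≤ 1 := by
  refine (cJ_le M0 R hR).trans ?_
  apply inv_le_one_of_one_le₀
  rw [Real.one_le_sqrt]
  exact_mod_cast hR

theorem cJ_sq (hR : 0 < R) : cJ M0 R ^ 2 * ((JJ M0 R).card : ℝ) = 1 := by
  have h0 : (0 : ℝ) < ((JJ M0 R).card : ℝ) := by
    exact_mod_cast lt_of_lt_of_le hR (R_le_card M0 R)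
  unfold cJ
  rw [inv_pow, Real.sq_sqrt h0.le, inv_mul_cancel₀ h0.ne']

private theorem star_smul_sum_mul (c : ℝ) (s : Finset (V × ℕ)) (f h : V × ℕ → BH) :
    star ((c : ℂ) • ∑ j ∈ s, f j) * ((c : ℂ) • ∑ j ∈ s, h j) =
      ((c ^ 2 : ℝ) : ℂ) • ∑ j ∈ s, ∑ k ∈ s, star (f j) * h k := by
  rw [star_smul, star_sum, smul_mul_smul_comm, Finset.sum_mul_sum]
  congr 1
  rw [Complex.star_def, Complex.conj_ofReal]
  push_cast
  ring

theorem x1_iso (hR : 0 < R) : star (x1 δ i0 M0 R) * x1 δ i0 M0 R = 1 := by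
  unfold x1
  rw [star_smul_sum_mul]
  have h1 : ∀ j ∈ JJ M0 R, ∑ k ∈ JJ M0 R, star (sJ δ j * la (iJ i0 j)) * (sJ δ k * la (iJ i0 k)) = 1 := by
    intro j hj
    rw [Finset.sum_eq_single j]
    · rw [star_mul, show star (la (iJ i0 j)) * star (sJ δ j) * (sJ δ j * la (iJ i0 j)) =
        star (la (iJ i0 j)) * (star (sJ δ j) * sJ δ j) * la (iJ i0 j) by simp only [mul_assoc],
        star_sJ_mul, if_pos rfl, mul_one, star_la_mul, if_pos rfl]
    · intro k _ hk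
      rw [star_mul, show star (la (iJ i0 j)) * star (sJ δ j) * (sJ δ k * la (iJ i0 k)) =
        star (la (iJ i0 j)) * (star (sJ δ j) * sJ δ k) * la (iJ i0 k) by simp only [mul_assoc],
        star_sJ_mul, if_neg (fun h => hk h.symm), mul_zero, zero_mul]
    · intro h; exact absurd hj h
  rw [Finset.sum_congr rfl h1, Finset.sum_const, ← Nat.cast_smul_eq_nsmul ℂ, smul_smul]
  have h2 : (((cJ M0 R ^ 2 : ℝ) : ℂ)) * (((JJ M0 R).card : ℕ) : ℂ) = 1 := by
    have h3 := congrArg (fun r : ℝ => (r : ℂ)) (cJ_sq M0 R hR)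
    push_cast at h3
    push_cast
    exact h3
  rw [h2, one_smul]

private theorem norm_le_of_sq {x : BH} {c : ℝ} (hc : 0 ≤ c) (h : ‖x‖ * ‖x‖ ≤ c ^ 2) : ‖x‖ ≤ c := by
  apply le_of_sq_le_sq _ hc
  rw [sq]; exact h

private theorem norm_one_le' : ‖(1 : BH)‖ ≤ 1 := ContinuousLinearMap.norm_id_le

theorem norm_x1_le (hR : 0 < R) : ‖x1 δ i0 M0 R‖ ≤ 1 := by
  apply norm_le_of_sq zero_le_one
  rw [← CStarRing.norm_star_mul_self, x1_iso δ i0 M0 R hR, one_pow]
  exact norm_one_le'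

theorem norm_x2_le : ‖x2 δ i0 M0 R‖ ≤ cJ M0 R := by
  apply norm_le_of_sq (cJ_nonneg M0 R)
  rw [← CStarRing.norm_self_mul_star]
  have h1 : x2 δ i0 M0 R * star (x2 δ i0 M0 R) =
      ((cJ M0 R ^ 2 : ℝ) : ℂ) • ∑ j ∈ JJ M0 R, sJ δ j * star (sJ δ j) := by
    unfold x2
    have h2 := star_smul_sum_mul (cJ M0 R) (JJ M0 R) (fun j => star (sJ δ j * star (la (iJ i0 j))))
      (fun j => star (sJ δ j * star (la (iJ i0 j))))
    have h3 : star ((cJ M0 R : ℂ) • ∑ j ∈ JJ M0 R, star (sJ δ j * star (la (iJ i0 j)))) =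
        (cJ M0 R : ℂ) • ∑ j ∈ JJ M0 R, sJ δ j * star (la (iJ i0 j)) := by
      rw [star_smul, star_sum, Complex.star_def, Complex.conj_ofReal]
      simp only [star_star]
    have h4 : star ((cJ M0 R : ℂ) • ∑ j ∈ JJ M0 R, sJ δ j * star (la (iJ i0 j))) =
        (cJ M0 R : ℂ) • ∑ j ∈ JJ M0 R, star (sJ δ j * star (la (iJ i0 j))) := by
      rw [star_smul, star_sum, Complex.star_def, Complex.conj_ofReal]
    rw [h4, ← h3, h2]
    congr 1
    apply Finset.sum_congr rfl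
    intro j hj
    rw [Finset.sum_eq_single j]
    · rw [star_star, star_mul, star_star, show sJ δ j * star (la (iJ i0 j)) * (la (iJ i0 j) * star (sJ δ j)) =
        sJ δ j * (star (la (iJ i0 j)) * la (iJ i0 j)) * star (sJ δ j) by simp only [mul_assoc],
        star_la_mul, if_pos rfl, mul_one]
    · intro k _ hk
      rw [star_star, star_mul, star_star, show sJ δ j * star (la (iJ i0 j)) * (la (iJ i0 k) * star (sJ δ k)) =
        sJ δ j * (star (la (iJ i0 j)) * la (iJ i0 k)) * star (sJ δ k) by simp only [mul_assoc],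
        star_la_mul, if_neg (fun h => hk (iJ_injective i0 h).symm), mul_zero, zero_mul]
    · intro h; exact absurd hj h
  set p := ∑ j ∈ JJ M0 R, sJ δ j * star (sJ δ j) with hp
  have hpstar : star p = p := by
    rw [hp, star_sum]
    apply Finset.sum_congr rfl
    intro j _
    rw [star_mul, star_star]
  have hpp : p * p = p := by
    rw [hp, Finset.sum_mul_sum]
    apply Finset.sum_congr rfl
    intro j hj
    rw [Finset.sum_eq_single j]
    · rw [show sJ δ j * star (sJ δ j) * (sJ δ j * star (sJ δ j)) =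
        sJ δ j * (star (sJ δ j) * sJ δ j) * star (sJ δ j) by simp only [mul_assoc], star_sJ_mul, if_pos rfl, mul_one]
    · intro k _ hk
      rw [show sJ δ j * star (sJ δ j) * (sJ δ k * star (sJ δ k)) =
        sJ δ j * (star (sJ δ j) * sJ δ k) * star (sJ δ k) by simp only [mul_assoc], star_sJ_mul,
        if_neg (fun h => hk h.symm), mul_zero, zero_mul]
    · intro h; exact absurd hj h
  have hpn : ‖p‖ ≤ 1 := by
    have h5 : ‖p‖ * ‖p‖ = ‖p‖ := by
      rw [← CStarRing.norm_star_mul_self, hpstar, hpp]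
    by_contra hcon
    rw [not_le] at hcon
    have h6 : ‖p‖ * 1 < ‖p‖ * ‖p‖ := mul_lt_mul_of_pos_left hcon (by linarith)
    rw [mul_one, h5] at h6
    exact lt_irrefl _ h6
  rw [h1, norm_smul, Complex.norm_real, Real.norm_of_nonneg (sq_nonneg _)]
  calc cJ M0 R ^ 2 * ‖p‖ ≤ cJ M0 R ^ 2 * 1 := mul_le_mul_of_nonneg_left hpn (sq_nonneg _)
    _ = cJ M0 R ^ 2 := mul_one _

theorem xx_eq : xx δ i0 M0 R = x1 δ i0 M0 R + x2 δ i0 M0 R := by
  unfold xx x1 x2
  rw [← smul_add, ← Finset.sum_add_distrib]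
  congr 1
  apply Finset.sum_congr rfl
  intro j _
  rw [X_eq, mul_add]

theorem norm_xx_le (hR : 0 < R) : ‖xx δ i0 M0 R‖ ≤ 2 := by
  rw [xx_eq]
  calc ‖x1 δ i0 M0 R + x2 δ i0 M0 R‖ ≤ ‖x1 δ i0 M0 R‖ + ‖x2 δ i0 M0 R‖ := norm_add_le _ _
    _ ≤ 1 + 1 := add_le_add (norm_x1_le δ i0 M0 R hR) ((norm_x2_le δ i0 M0 R).trans (cJ_le_one M0 R hR))
    _ = 2 := by norm_num

theorem xx_mem : xx δ i0 M0 R ∈ A := by
  unfold xx
  apply A.smul_mem
  apply sum_mem
  intro j _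
  exact A.mul_mem (A.mul_mem (g_mem _) (Sw_mem _)) (X_mem _)

theorem xx_sandwich_err (hR : 0 < R) (B : BH) :
    ‖star (xx δ i0 M0 R) * B * xx δ i0 M0 R - star (x1 δ i0 M0 R) * B * x1 δ i0 M0 R‖ ≤ 3 * cJ M0 R * ‖B‖ := by
  set a := x1 δ i0 M0 R with ha
  set b := x2 δ i0 M0 R with hb
  set c := cJ M0 R with hc
  have h1 : star (xx δ i0 M0 R) * B * xx δ i0 M0 R - star a * B * a =
      star a * B * b + star b * B * a + star b * B * b := by
    rw [xx_eq, star_add]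
    noncomm_ring
  have na : ‖a‖ ≤ 1 := norm_x1_le δ i0 M0 R hR
  have nb : ‖b‖ ≤ c := norm_x2_le δ i0 M0 R
  have hc0 : 0 ≤ c := cJ_nonneg M0 R
  have hc1 : c ≤ 1 := cJ_le_one M0 R hR
  have key : ∀ (u v : BH) (p q : ℝ), 0 ≤ p → ‖u‖ ≤ p → ‖v‖ ≤ q → ‖star u * B * v‖ ≤ p * ‖B‖ * q := by
    intro u v p q hp hu hv
    calc ‖star u * B * v‖ ≤ ‖star u * B‖ * ‖v‖ := norm_mul_le _ _
      _ ≤ (‖star u‖ * ‖B‖) * ‖v‖ := mul_le_mul_of_nonneg_right (norm_mul_le _ _) (norm_nonneg _)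
      _ ≤ (p * ‖B‖) * q := by
          apply mul_le_mul _ hv (norm_nonneg _) (mul_nonneg hp (norm_nonneg _))
          have h9 : ‖star u‖ ≤ p := by
            rw [ContinuousLinearMap.star_eq_adjoint, LinearIsometryEquiv.norm_map]
            exact hu
          exact mul_le_mul_of_nonneg_right h9 (norm_nonneg _)
  rw [h1]
  have k1 := key a b 1 c zero_le_one na nb
  have k2 := key b a c 1 hc0 nb na
  have k3 := key b b c c hc0 nb nb
  have k4 : c * ‖B‖ * c ≤ c * ‖B‖ := by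
    have := mul_le_mul_of_nonneg_left hc1 (mul_nonneg hc0 (norm_nonneg B))
    linarith
  calc ‖star a * B * b + star b * B * a + star b * B * b‖
      ≤ ‖star a * B * b‖ + ‖star b * B * a‖ + ‖star b * B * b‖ := norm_add₃_le
    _ ≤ 1 * ‖B‖ * c + c * ‖B‖ * 1 + c * ‖B‖ * c := by linarith
    _ ≤ 3 * c * ‖B‖ := by nlinarith

end OE
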