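import Mathlib
import Pool.Agent.Work.MP_06ef15_an.CX
import Pool.Agent.Work.MP_06ef15_an.PH
import Pool.Agent.Work.MP_06ef15_an.PI

/-!
# Section 4 (owner: helper70): purely infinite

`b = star a * a`.  By `faithful_inr` there is `p` with `a (vm (inr p)) ≠ 0`; `t = ‖a vm‖² = ⟪vm, b vm⟫ > 0`.  `dense_Nw`: `b'` in the span of
normal words with `‖b - b'‖ < t/10`; `mem_span_NwS` gives `i0, M0, D`.  Choose `R > 0` with `3 (√R)⁻¹ ‖b'‖ ≤ t/10`.  With `x = xx δ i0 M0 R`,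
`δ = dig (size + D) (inr p)`: `‖star x * b * x - t • 1‖ ≤ ‖x‖² ‖b - b'‖ + ‖star x * b' * x - star x1 * b' * x1‖ + |⟪vm, b' vm⟫ - ⟪vm, b vm⟫|
≤ 4 t/10 + t/10 + t/10 < t`.  So `z = star x * b * x` is invertible in the C*-algebra `A` (`1 - t⁻¹ z` has norm `< 1`, `Units.oneSub`; `A` is complete
by `isClosed_A`); `(z⁻¹ * star x * star a) * a * x = 1`.
-/

set_option autoImplicit false

open scoped ComplexConjugate InnerProductSpace Classical Topology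
open Filter

namespace OE

theorem pi_thm (a : A) (ha : a ≠ 0) : ∃ x y : A, x * a * y = 1 := by
  have h0 : ∃ p : ℕ × ℤ, (a : BH) (vm (Sum.inr p)) ≠ 0 := by
    by_contra hcon
    exact ha (faithful_inr a (fun p => by
      by_contra h
      exact hcon ⟨p, h⟩))
  obtain ⟨p, hp⟩ := h0
  set v : H Idx := vm (Sum.inr p) with hv
  have hvn : ‖v‖ = 1 := norm_e _
  set t : ℝ := ‖(a : BH) v‖ ^ 2 with ht
  have htp : 0 < t := by
    have : 0 < ‖(a : BH) v‖ := norm_pos_iff.2 hp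
    positivity
  set b : A := star a * a with hb
  have hbc : (b : BH) = star (a : BH) * (a : BH) := rfl
  have hbv : ⟪v, (b : BH) v⟫_ℂ = (t : ℂ) := by
    have h1 : (b : BH) v = ContinuousLinearMap.adjoint (a : BH) ((a : BH) v) := rfl
    rw [h1, ContinuousLinearMap.adjoint_inner_right, inner_self_eq_norm_sq_to_K, ht]
    push_cast
    rfl
  obtain ⟨b', hb'N, hb'⟩ := dense_Nw b (t / 10) (by positivity)
  obtain ⟨i0, M0, D, hspan⟩ := mem_span_NwS hb'N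
  obtain ⟨R, hR⟩ := exists_nat_gt ((30 * ‖b'‖ / t) ^ 2)
  have hRr : (0 : ℝ) < R := lt_of_le_of_lt (by positivity) hR
  have hR0 : 0 < R := by exact_mod_cast hRr
  have hRs : 3 * (Real.sqrt (R : ℝ))⁻¹ * ‖b'‖ ≤ t / 10 := by
    have h1 : 30 * ‖b'‖ / t ≤ Real.sqrt (R : ℝ) := by
      rw [Real.le_sqrt (by positivity) hRr.le]
      exact hR.le
    have h2 : 0 < Real.sqrt (R : ℝ) := Real.sqrt_pos.2 hRr
    rw [div_le_iff₀ htp] at h1
    have h3 : 3 * (Real.sqrt (R : ℝ))⁻¹ * ‖b'‖ = 3 * ‖b'‖ / Real.sqrt (R : ℝ) := by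
      field_simp
    rw [h3, div_le_iff₀ h2]
    linarith
  set δ : List Bool := dig (Nat.size p.1 + D) (Sum.inr p : M) with hδ
  set x : A := ⟨xx δ i0 M0 R, xx_mem δ i0 M0 R⟩ with hx
  have hxc : (x : BH) = xx δ i0 M0 R := rfl
  have hcJ := cJ_le M0 R hR0
  have hcJ0 := cJ_nonneg M0 R
  have e1 : ‖star (xx δ i0 M0 R) * b' * xx δ i0 M0 R - star (x1 δ i0 M0 R) * b' * x1 δ i0 M0 R‖ ≤ t / 10 := by
    refine (xx_sandwich_err δ i0 M0 R hR0 b').trans (le_trans ?_ hRs)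
    exact mul_le_mul_of_nonneg_right (mul_le_mul_of_nonneg_left hcJ (by norm_num)) (norm_nonneg _)
  have e2 : star (x1 δ i0 M0 R) * b' * x1 δ i0 M0 R = ⟪v, b' v⟫_ℂ • (1 : BH) := x1_sandwich hR0 p hspan
  have n1 : ‖(1 : BH)‖ ≤ 1 := ContinuousLinearMap.norm_id_le
  have e3 : ‖⟪v, b' v⟫_ℂ • (1 : BH) - (t : ℂ) • (1 : BH)‖ ≤ t / 10 := by
    rw [← sub_smul, norm_smul]
    have h1 : ⟪v, b' v⟫_ℂ - (t : ℂ) = ⟪v, (b' - (b : BH)) v⟫_ℂ := by
      rw [sub_apply, inner_sub_right, hbv]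
    have h2 : ‖⟪v, b' v⟫_ℂ - (t : ℂ)‖ ≤ t / 10 := by
      rw [h1]
      refine (norm_inner_le_norm _ _).trans ?_
      rw [hvn, one_mul]
      refine ((b' - (b : BH)).le_opNorm v).trans ?_
      rw [hvn, mul_one, norm_sub_rev]
      exact hb'.le
    calc ‖⟪v, b' v⟫_ℂ - (t : ℂ)‖ * ‖(1 : BH)‖ ≤ t / 10 * 1 :=
          mul_le_mul h2 n1 (norm_nonneg _) (by positivity)
      _ = t / 10 := mul_one _
  have nx : ‖xx δ i0 M0 R‖ ≤ 2 := norm_xx_le δ i0 M0 R hR0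
  have nxs : ‖star (xx δ i0 M0 R)‖ ≤ 2 := le_of_eq_of_le (norm_star (xx δ i0 M0 R)) nx
  have e4 : ‖star (xx δ i0 M0 R) * ((b : BH) - b') * xx δ i0 M0 R‖ ≤ 4 * (t / 10) := by
    calc ‖star (xx δ i0 M0 R) * ((b : BH) - b') * xx δ i0 M0 R‖
        ≤ ‖star (xx δ i0 M0 R)‖ * ‖(b : BH) - b'‖ * ‖xx δ i0 M0 R‖ :=
          (norm_mul_le _ _).trans (mul_le_mul_of_nonneg_right (norm_mul_le _ _) (norm_nonneg _))
      _ ≤ 2 * (t / 10) * 2 := by
          refine mul_le_mul (mul_le_mul nxs hb'.le (norm_nonneg _) (by norm_num)) nx (norm_nonneg _) (by positivity)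
      _ = 4 * (t / 10) := by ring
  set z : A := star x * b * x with hz
  have hzn : ‖z - (t : ℂ) • (1 : A)‖ < t := by
    have h1 : ‖z - (t : ℂ) • (1 : A)‖ = ‖star (xx δ i0 M0 R) * (b : BH) * xx δ i0 M0 R - (t : ℂ) • (1 : BH)‖ := rfl
    have h2 : star (xx δ i0 M0 R) * (b : BH) * xx δ i0 M0 R - (t : ℂ) • (1 : BH) =
        star (xx δ i0 M0 R) * ((b : BH) - b') * xx δ i0 M0 R +
        (star (xx δ i0 M0 R) * b' * xx δ i0 M0 R - star (x1 δ i0 M0 R) * b' * x1 δ i0 M0 R) +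
        (⟪v, b' v⟫_ℂ • (1 : BH) - (t : ℂ) • (1 : BH)) := by
      rw [e2]
      noncomm_ring
    rw [h1, h2]
    refine lt_of_le_of_lt ((norm_add_le _ _).trans (add_le_add_left (norm_add_le _ _) _)) ?_
    linarith
  have hunit : IsUnit (((t : ℂ)⁻¹) • z) := by
    have htc : (t : ℂ) ≠ 0 := by exact_mod_cast htp.ne'
    have h1 : ‖(1 : A) - ((t : ℂ)⁻¹) • z‖ < 1 := by
      have h2 : (1 : A) - ((t : ℂ)⁻¹) • z = -(((t : ℂ)⁻¹) • (z - (t : ℂ) • (1 : A))) := by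
        rw [smul_sub, smul_smul, inv_mul_cancel₀ htc, one_smul]
        abel
      rw [h2, norm_neg, norm_smul, norm_inv, Complex.norm_real, Real.norm_of_nonneg htp.le]
      rw [inv_mul_lt_iff₀ htp, mul_one]
      exact hzn
    have h3 := isUnit_one_sub_of_norm_lt_one h1
    rwa [sub_sub_cancel] at h3
  obtain ⟨w, hw⟩ := hunit.exists_left_inv
  refine ⟨w * (((t : ℂ)⁻¹) • (star x * star a)), x, ?_⟩
  have h5 : w * (((t : ℂ)⁻¹) • (star x * star a)) * a * x = w * (((t : ℂ)⁻¹) • z) := by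
    rw [hz, hb]
    simp only [mul_smul_comm, smul_mul_assoc, mul_assoc]
  rw [h5, hw]

end OE
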