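import Mathlib
import Pool.Agent.Work.MP_06ef15_an.PX
import Pool.Agent.Work.MP_06ef15_an.EX
import Pool.Agent.Work.MP_06ef15_an.FX

/-!
# Final assembly
-/

set_option autoImplicit false

open scoped ComplexConjugate InnerProductSpace Classical Topology
open Filter

namespace OE

theorem no_anti : IsEmpty Anti := by
  refine ⟨fun σ => ?_⟩
  obtain ⟨ε, hε, hE⟩ := no_endData
  obtain ⟨d⟩ := exists_endData σ ε hε
  exact hE.false d

theorem main :
    ∃ (A : Type) (_ : CStarAlgebra A),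
      TopologicalSpace.SeparableSpace A ∧ IsSimpleRing A ∧
      (∃ (H : Type) (_ : NormedAddCommGroup H) (_ : InnerProductSpace ℂ H) (_ : CompleteSpace H)
          (π : A →⋆ₐ[ℂ] (H →L[ℂ] H)), Function.Injective π ∧
        ∀ (F : Finset A) (ε : ℝ), 0 < ε →
          ∃ (n : ℕ)
            (φ : A →ₗ[ℂ] (EuclideanSpace ℂ (Fin n) →L[ℂ] EuclideanSpace ℂ (Fin n)))
            (ψ : (EuclideanSpace ℂ (Fin n) →L[ℂ] EuclideanSpace ℂ (Fin n)) →ₗ[ℂ] (H →L[ℂ] H)),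
            (∀ (k : ℕ) (a : Fin k → A)
                (b : Fin k → (EuclideanSpace ℂ (Fin n) →L[ℂ] EuclideanSpace ℂ (Fin n))),
                0 ≤ ∑ i, ∑ j, star (b i) * φ (star (a i) * a j) * b j) ∧
            (∀ (k : ℕ)
                (a : Fin k → (EuclideanSpace ℂ (Fin n) →L[ℂ] EuclideanSpace ℂ (Fin n)))
                (b : Fin k → (H →L[ℂ] H)),
                0 ≤ ∑ i, ∑ j, star (b i) * ψ (star (a i) * a j) * b j) ∧
            (∀ a : A, ‖φ a‖ ≤ ‖a‖) ∧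
            (∀ x : EuclideanSpace ℂ (Fin n) →L[ℂ] EuclideanSpace ℂ (Fin n), ‖ψ x‖ ≤ ‖x‖) ∧
            ∀ a ∈ F, ‖ψ (φ a) - π a‖ < ε) ∧
      (∃ a : A, ∀ c : ℂ, a ≠ algebraMap ℂ A c) ∧
      (∀ a : A, a ≠ 0 → ∃ x y : A, x * a * y = 1) ∧
      ¬ Nonempty (A ≃⋆ₐ[ℂ] Aᵐᵒᵖ) :=
  assembly separable_A exact_thm not_scalar pi_thm no_anti

end OE
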